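import Pool.Agent.Work.PS.Interface

/-!
# Second part: right order of magnitude off one progression, and sums of two primes and powers of 2

Same conventions as in `Interface.lean`: block `X` is `theorem stmt_X : Stmt_X` in `Work/PS/X.lean`,
possibly with other statements as hypotheses. All other lemmas in a sub-namespace or private.
See `BLUEPRINT_B.md`.
-/

set_option autoImplicit false

namespace Pool.Agent.PS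

open Finset ArithmeticFunction Metric
open Pool.Agent.Circle (e sing rsum)
open scoped Classical

/-! ## The exceptional modulus -/

/-- The product of the primes `p ≥ 5` dividing `D`. -/
def rad5 (D : ℕ) : ℕ := ∏ p ∈ D.primeFactors.filter (fun p => 5 ≤ p), p

/-- RAD: the modulus of a real primitive character is at most `24` times its `rad5`. -/
def Stmt_RAD : Prop := ∀ (Z : ℕ) (y : Ch) (δ : ℝ), Exc Z y δ → y.1 ≤ 24 * rad5 y.1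

/-- SING2: the twisted singular series is smaller by a factor `3` if `y.1` has a prime factor
`p ≥ 5` not dividing `m`. -/
def Stmt_SING2 : Prop := ∃ c C : ℝ, 0 < c ∧ 0 < C ∧ ∀ P m r : ℕ, 0 < P → 0 < m → Even m → 0 < r →
  r ≤ P → (∃ p : ℕ, p.Prime ∧ 5 ≤ p ∧ p ∣ r ∧ ¬ p ∣ m) → ∃ F : ℝ, c * ((m : ℝ) / m.totient) ≤ F ∧
    |sing P m - F| ≤ C * (m.divisors.card : ℝ) / √(P : ℝ) ∧
    |Bs r P m| ≤ F / 3 + C * ((m : ℝ) / m.totient) * (m.divisors.card : ℝ) * √((r : ℝ) / P)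

/-- LOW2: lower bound for the major arcs with the right order of magnitude. -/
def Stmt_LOW2 : Prop := ∃ (ε c : ℝ) (P0 : ℕ), 0 < ε ∧ 0 < c ∧ ∀ (X P M m R H : ℕ)
  (E : Option (Ch × ℝ)), P0 ≤ P → P ^ 10 ≤ X → 0 < R → (H : ℝ) / R ≤ P / X →
  (P : ℝ) / X ≤ 2 * H / R → X ≤ M → M < m → m ≤ M + X / 8 → Even m → 4 * (M + X) < R →
  (m.divisors.card : ℝ) ≤ (P : ℝ) ^ (1 / 8 : ℝ) →
  (∀ y δ, E = some (y, δ) →
    Exc P y δ ∧ y.1 ^ 4 ≤ P ∧ 1 / ε ≤ (y.1 : ℝ) ∧ (y.1 : ℝ) ^ (-(1 / 8) : ℝ) ≤ δ) →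
  (∀ y δ, E = some (y, δ) → ∃ p : ℕ, p.Prime ∧ 5 ≤ p ∧ p ∣ y.1 ∧ ¬ p ∣ m) →
  ∑ x ∈ Fam P, Wn R H (Ioc (X / 4) (X / 2))
    (fun n => (th n : ℂ) * x.2 (n : ZMod x.1) - mt E x n) ≤ ε * lam E X * √(X : ℝ) →
  ∑ x ∈ Fam P, Wn R H (Ioc (M - X / 2) M)
    (fun n => (th n : ℂ) * x.2 (n : ZMod x.1) - mt E x n) ≤ ε * lam E X * √(X : ℝ) →
  c * ((m : ℝ) / m.totient) * X ≤ (Maj P R H (Ioc (X / 4) (X / 2)) (Ioc (M - X / 2) M)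
    (fun n => (th n : ℂ)) (fun n => (th n : ℂ)) m).re

/-- WSB: as `Stmt_WS`, the exceptional zero satisfies `δ ≤ 1 / (θ log X)`. -/
def Stmt_WSB : Prop := ∀ ε : ℝ, 0 < ε → ∃ θ : ℝ, 0 < θ ∧ θ ≤ 1 / 100 ∧ ∃ X0 : ℕ, ∀ X : ℕ,
  X0 ≤ X → ∃ (P : ℕ) (E : Option (Ch × ℝ)), (X : ℝ) ^ (θ / 8) ≤ P ∧ (P : ℝ) ≤ (X : ℝ) ^ θ ∧
  (∀ y δ, E = some (y, δ) →
    Exc P y δ ∧ y.1 ^ 4 ≤ P ∧ 1 / ε ≤ (y.1 : ℝ) ∧ (y.1 : ℝ) ^ (-(1 / 8) : ℝ) ≤ δ) ∧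
  (∀ y δ, E = some (y, δ) → θ * (δ * Real.log X) ≤ 1) ∧
  ∀ R H U V : ℕ, 0 < R → (H : ℝ) / R ≤ P / X → V + X < R → X ≤ 4 * U + 4 → U ≤ V → V ≤ U + X →
    (V : ℝ) ≤ X * P →
    ∑ x ∈ Fam P, Wn R H (Ioc U V) (fun n => (th n : ℂ) * x.2 (n : ZMod x.1) - mt E x n)
      ≤ ε * lam E X * √(X : ℝ)

/-- WINB: the exceptional set in a window, with the right order of magnitude off the multiples of
one large integer `r X`. -/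
def Stmt_WINB : Prop := ∃ δ c : ℝ, 0 < δ ∧ 0 < c ∧ ∃ r : ℕ → ℕ,
  (∀ A : ℕ, ∃ X0 : ℕ, ∀ X : ℕ, X0 ≤ X → (Real.log X) ^ A ≤ r X) ∧
  ∀ ε : ℝ, 0 < ε → ∃ X0 : ℕ, ∀ X M : ℕ, X0 ≤ X → X ≤ M →
  (M : ℝ) ≤ X * (Real.log X) ^ 2 →
  (((Ioc M (M + X / 8)).filter (fun m => Even m ∧
    (∑ a ∈ Ioc (X / 4) (X / 2), th a * th (m - a) < (X : ℝ) ^ (1 - ε) ∨
    ¬ r X ∣ m ∧ ∑ a ∈ Ioc (X / 4) (X / 2), th a * th (m - a)
      < c * ((m : ℝ) / m.totient) * X))).card : ℝ) ≤ (X : ℝ) ^ (1 - δ)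

open Pool.Agent.Work.MP_484fb8_nt in
/-- FINALB: power saving exceptional set for the primorial Goldbach problem, with the right order
of magnitude off the multiples of one large integer. -/
def Stmt_FINALB : Prop := ∃ δ c : ℝ, 0 < δ ∧ 0 < c ∧ ∃ r : ℕ → ℕ,
  (∀ A : ℕ, ∃ C : ℝ, ∀ n : ℕ, 1 ≤ n → (Real.log (prml (n + 1))) ^ A ≤ C * r n) ∧
  ∀ ε : ℝ, 0 < ε → ∃ C c' : ℝ, 0 < c' ∧ ∀ n : ℕ, 1 ≤ n →
  (#{m ∈ evensIn (n + 1) |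
      ¬ ((∃ p ∈ primesIn n, ∃ q ∈ primesIn n ∪ primesIn (n + 1), m = p + q) ∧
        c' * (prml n : ℝ) ^ (1 - ε) ≤ primorialReps n m ∧
        (¬ r n ∣ m → c * ((m : ℝ) / m.totient) * (prml n / (Real.log (prml n)) ^ 2)
          ≤ primorialReps n m))} : ℝ)
    ≤ C * (#(evensIn (n + 1)) : ℝ) ^ (1 - δ)

/-! ## Powers of two -/

/-- The exponential sum over the powers of two. -/
noncomputable def Gp (L : ℕ) (α : ℝ) : ℂ := ∑ v ∈ Icc 1 L, e ((2 : ℝ) ^ v * α)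

/-- GB: the sum over the powers of two is rarely large. -/
def Stmt_GB : Prop := ∀ l : ℝ, l < 1 → ∃ η C : ℝ, 0 < η ∧ η < 1 ∧ 0 < C ∧ ∀ L R : ℕ, 1 ≤ L →
  2 ^ L ≤ R → (((range R).filter fun k => (1 - η) * L < ‖Gp L ((k : ℝ) / R)‖).card : ℝ)
    ≤ C * (R * (2 : ℝ) ^ (-(l * L)))

/-- ROM: Romanoff's lemma. -/
def Stmt_ROM : Prop := ∃ C : ℝ, 0 < C ∧ ∀ L : ℕ, 1 ≤ L →
  ∑ j ∈ Icc 1 L, ∑ d ∈ (2 ^ j - 1 : ℕ).divisors, (1 : ℝ) / d ≤ C * L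

/-- PAIR: upper bound sieve for prime pairs in short intervals. -/
def Stmt_PAIR : Prop := ∃ C : ℝ, 0 < C ∧ ∀ A N h : ℕ, 2 ≤ N → 0 < h → Even h →
  (((Ioc A (A + N)).filter fun x => x.Prime ∧ (x + h).Prime).card : ℝ)
    ≤ C * (N / (Real.log N) ^ 2) * ∑ d ∈ h.divisors, (1 : ℝ) / d

/-- SG: mean square of the sum over primes times the sum over powers of two. -/
def Stmt_SG : Prop := ∃ C : ℝ, 0 < C ∧ ∀ A N L R : ℕ, 2 ≤ N → A + N ≤ N ^ 3 → 1 ≤ L → 2 ^ L ≤ N →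
  Real.log N ≤ 2 * L → 2 * (A + N) < R →
  (1 / (R : ℝ)) * ∑ k ∈ range R, ‖∑ n ∈ Ioc A (A + N), (th n : ℂ) * e (n * ((k : ℝ) / R))‖ ^ 2
      * ‖Gp L ((k : ℝ) / R)‖ ^ 2 ≤ C * N * (L : ℝ) ^ 2

/-- ORD: few powers of two in a residue class. -/
def Stmt_ORD : Prop := ∀ r L : ℕ, 1 < r → Odd r → ∀ b : ℤ,
  (((Icc 1 L).filter fun v => (r : ℤ) ∣ b - 2 ^ v).card : ℝ) ≤ L / Real.logb 2 r + 1

/-- DIVB: the divisor bound. -/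
def Stmt_DIVB : Prop := ∀ ε : ℝ, 0 < ε → ∃ n0 : ℕ, ∀ n : ℕ, n0 ≤ n →
  (n.divisors.card : ℝ) ≤ (n : ℝ) ^ ε

/-- LINW: two primes and `K` powers of two, in a window. -/
def Stmt_LINW : Prop := ∃ K X0 : ℕ, ∀ X m : ℕ, X0 ≤ X → 2 * X ≤ m → (m : ℝ) ≤ X * (Real.log X) ^ 2 →
  Even m → ∃ v : Fin K → ℕ, (∀ i, 1 ≤ v i) ∧ 16 * ∑ i, 2 ^ v i ≤ X ∧ ∃ a ∈ Ioc (X / 4) (X / 2),
    a.Prime ∧ (m - (∑ i, 2 ^ v i) - a).Prime

open Pool.Agent.Work.MP_484fb8_nt in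
/-- LIN: every even integer of a primorial interval is the sum of two primes as in the primorial
Goldbach problem and of `K` powers of two. -/
def Stmt_LIN : Prop := ∃ K n0 : ℕ, ∀ n : ℕ, n0 ≤ n → ∀ m ∈ evensIn (n + 1),
  ∃ p ∈ primesIn n, ∃ q ∈ primesIn n ∪ primesIn (n + 1), ∃ v : Fin K → ℕ,
    (∀ i, 1 ≤ v i) ∧ m = p + q + ∑ i, 2 ^ v i

end Pool.Agent.PS
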