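import Pool.Agent.Work.PS.FINAL
import Pool.Agent.Work.PS.InterfaceB

/-!
# PS, block FINALB: from windows to the primorial intervals, right order of magnitude
-/

set_option autoImplicit false

namespace Pool.Agent.PS

open Finset ArithmeticFunction
open Pool.Agent.Work.MP_484fb8_nt
open scoped Classical

/-- The next primorial is not much larger. -/
theorem prml_succ_le : ∃ X1 : ℕ, ∀ n : ℕ, 1 ≤ n → X1 ≤ prml n →
    ((prml (n + 1) + 1 : ℕ) : ℝ) ≤ prml n * (Real.log (prml n)) ^ 2 ∧
    ((prml (n + 1) + 1 : ℕ) : ℝ) ≤ (prml n : ℝ) ^ 2 := by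
  obtain ⟨X4, hX4⟩ := log_pow_le_rpow 2 1 1 one_pos one_pos
  refine ⟨max X4 (max ⌈Real.exp 1048576⌉₊ 16), fun n hn hX => ?_⟩
  simp only [max_le_iff] at hX
  obtain ⟨h1, h2, h3⟩ := hX
  set X := prml n with hXd
  have hXr : (16 : ℝ) ≤ X := by exact_mod_cast h3
  have hX0r : (0 : ℝ) < X := by linarith
  set y := Real.log X with hy
  have hy1 : 1048576 ≤ y := by
    rw [hy, Real.le_log_iff_exp_le hX0r]
    exact (Nat.le_ceil _).trans (by exact_mod_cast h2)
  have hp := nth_prime_small n hn hy1
  rw [← hXd, ← hy] at hp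
  have hLr : ((prml (n + 1) + 1 : ℕ) : ℝ) = X * (Nat.nth Nat.Prime n : ℝ) + 1 := by
    rw [prml_succ]
    push_cast
    rw [hXd]
  have hLX : ((prml (n + 1) + 1 : ℕ) : ℝ) ≤ X * y ^ 2 := by
    rw [hLr]
    have h4 : (X : ℝ) * (Nat.nth Nat.Prime n : ℝ) ≤ X * (y ^ 2 / 4) := by gcongr
    have h5 : (1 : ℝ) ≤ X * (y ^ 2 / 4) := by
      have : (1 : ℝ) ≤ y ^ 2 / 4 := by nlinarith
      nlinarith
    have h6 : (X : ℝ) * (y ^ 2 / 4) + X * (y ^ 2 / 4) ≤ X * y ^ 2 := by
      have : 0 ≤ (X : ℝ) * y ^ 2 := by positivity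
      nlinarith
    linarith
  refine ⟨hLX, ?_⟩
  have h4 := hX4 X h1
  rw [← hy, one_mul, Real.rpow_one] at h4
  calc ((prml (n + 1) + 1 : ℕ) : ℝ) ≤ X * y ^ 2 := hLX
    _ ≤ X * X := by gcongr
    _ = _ := by ring

theorem stmt_FINALB (hWIN : Stmt_WINB) : Stmt_FINALB := by
  obtain ⟨δ, c, hδ, hc, r, hrg, hwin⟩ := hWIN
  set δ' : ℝ := min (δ / 2) (1 / 2) with hδ'
  have hδ'0 : 0 < δ' := lt_min (by positivity) (by norm_num)
  have hδ'1 : δ' ≤ 1 / 2 := min_le_right _ _
  have hδ'2 : δ' ≤ δ / 2 := min_le_left _ _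
  refine ⟨δ', c / 4, hδ'0, by positivity, fun n => max 1 (r (prml n)), fun A => ?_,
    fun ε hε => ?_⟩
  · -- growth
    obtain ⟨Xa, hXa⟩ := hrg A
    obtain ⟨Xb, hXb⟩ := prml_succ_le
    set N0 := max Xa Xb with hN0
    set B : ℝ := (Real.log (prml (N0 + 1))) ^ A with hB
    refine ⟨max (2 ^ A) B, fun n hn => ?_⟩
    have hpr1 : ∀ k : ℕ, 1 ≤ prml k := fun k => by have := le_prml k; omega
    have hr1 : (1 : ℝ) ≤ ((max 1 (r (prml n)) : ℕ) : ℝ) := by exact_mod_cast le_max_left _ _
    have hlog0 : 0 ≤ Real.log (prml (n + 1)) :=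
      Real.log_nonneg (by exact_mod_cast hpr1 (n + 1))
    by_cases hsm : prml n < N0
    · have h1 : n + 1 ≤ N0 + 1 := by
        have := le_prml n
        omega
      have h2 : prml (n + 1) ≤ prml (N0 + 1) := prml_mono h1
      have h3 : Real.log (prml (n + 1)) ≤ Real.log (prml (N0 + 1)) :=
        Real.log_le_log (by exact_mod_cast hpr1 (n + 1)) (by exact_mod_cast h2)
      calc (Real.log (prml (n + 1))) ^ A ≤ B := by rw [hB]; gcongr
        _ ≤ max (2 ^ A) B := le_max_right _ _
        _ ≤ max (2 ^ A) B * ((max 1 (r (prml n)) : ℕ) : ℝ) := by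
            apply le_mul_of_one_le_right _ hr1
            exact le_trans (by positivity) (le_max_left _ _)
    · push Not at hsm
      have h1 := hXa (prml n) ((le_max_left _ _).trans hsm)
      have h2 := (hXb n hn ((le_max_right _ _).trans hsm)).2
      have hX1 : (1 : ℝ) ≤ prml n := by exact_mod_cast hpr1 n
      have h3 : Real.log (prml (n + 1)) ≤ 2 * Real.log (prml n) := by
        have h4 : (prml (n + 1) : ℝ) ≤ (prml n : ℝ) ^ 2 := by
          refine le_trans ?_ h2
          push_cast
          linarith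
        have h5 := Real.log_le_log (by exact_mod_cast hpr1 (n + 1)) h4
        rw [Real.log_pow] at h5
        push_cast at h5
        exact h5
      have h4 : (r (prml n) : ℝ) ≤ ((max 1 (r (prml n)) : ℕ) : ℝ) := by
        exact_mod_cast le_max_right _ _
      calc (Real.log (prml (n + 1))) ^ A ≤ (2 * Real.log (prml n)) ^ A := by gcongr
        _ = 2 ^ A * (Real.log (prml n)) ^ A := by rw [mul_pow]
        _ ≤ 2 ^ A * ((max 1 (r (prml n)) : ℕ) : ℝ) := by
            gcongr
            exact h1.trans h4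
        _ ≤ max (2 ^ A) B * ((max 1 (r (prml n)) : ℕ) : ℝ) := by
            gcongr
            exact le_max_left _ _
  obtain ⟨X5, hX5⟩ := hrg 0
  obtain ⟨X1, hX1⟩ := hwin (ε / 2) (by positivity)
  obtain ⟨X2, hX2⟩ := log_pow_le_rpow 2 (ε / 2) 1 (by positivity) one_pos
  obtain ⟨X3, hX3⟩ := log_pow_le_rpow 2 (δ / 2) (1 / 40) (by positivity) (by norm_num)
  obtain ⟨X4, hX4⟩ := log_pow_le_rpow 2 1 1 one_pos one_pos
  set X0 : ℕ := max (max X1 (max X2 (max X3 X4))) (max ⌈Real.exp 1048576⌉₊
    (max X5 (prml 3 + 16))) with hX0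
  set Bd : ℝ := (prml (X0 + 1) : ℝ) + 2 with hBd
  have hBd0 : 0 ≤ Bd := by positivity
  have hBd1 : 1 ≤ Bd := by
    have : (0 : ℝ) ≤ prml (X0 + 1) := Nat.cast_nonneg _
    linarith
  refine ⟨6 + Bd, 1 / 8, by norm_num, fun n hn => ?_⟩
  set X := prml n with hX
  set S := {m ∈ evensIn (n + 1) | ¬ ((∃ p ∈ primesIn n, ∃ q ∈ primesIn n ∪ primesIn (n + 1),
    m = p + q) ∧ 1 / 8 * (X : ℝ) ^ (1 - ε) ≤ primorialReps n m ∧
      (¬ (max 1 (r X)) ∣ m → c / 4 * ((m : ℝ) / m.totient) * (X / (Real.log X) ^ 2)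
          ≤ primorialReps n m))} with hS
  have hSE : ((#S : ℕ) : ℝ) ≤ (#(evensIn (n + 1)) : ℝ) := by exact_mod_cast card_filter_le _ _
  have hEge := card_evens_ge n hn
  have hE1 : (1 : ℝ) ≤ (#(evensIn (n + 1)) : ℝ) := by
    have h1 : (0 : ℝ) < (#(evensIn (n + 1)) : ℝ) := by
      have : (0 : ℝ) < ((prml (n + 1) + 1 : ℕ) : ℝ) := by positivity
      linarith
    have h2 : 0 < #(evensIn (n + 1)) := by exact_mod_cast h1
    exact_mod_cast h2
  have hE0 : (0 : ℝ) ≤ (#(evensIn (n + 1)) : ℝ) := by linarith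
  have hEp0 : 0 ≤ (#(evensIn (n + 1)) : ℝ) ^ (1 - δ') := Real.rpow_nonneg hE0 _
  by_cases hsmall : X < X0
  · -- small n
    have hEB : (#(evensIn (n + 1)) : ℝ) ≤ Bd := by
      have h1 : #(evensIn (n + 1)) ≤ prml (n + 1) + 1 := by
        unfold evensIn primorialInterval
        refine (card_filter_le _ _).trans ?_
        rw [Nat.card_Icc]
        omega
      have h2 : n + 1 ≤ X0 + 1 := by
        have := le_prml n
        omega
      have h3 : prml (n + 1) ≤ prml (X0 + 1) := prml_mono h2
      have h4 : (#(evensIn (n + 1)) : ℝ) ≤ (prml (n + 1) : ℝ) + 1 := by exact_mod_cast h1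
      have h5 : (prml (n + 1) : ℝ) ≤ prml (X0 + 1) := by exact_mod_cast h3
      linarith
    have h1 : (#(evensIn (n + 1)) : ℝ) = (#(evensIn (n + 1)) : ℝ) ^ δ' *
        (#(evensIn (n + 1)) : ℝ) ^ (1 - δ') := by
      rw [← Real.rpow_add (by linarith)]
      simp
    have h2 : (#(evensIn (n + 1)) : ℝ) ^ δ' ≤ Bd := by
      calc (#(evensIn (n + 1)) : ℝ) ^ δ' ≤ (#(evensIn (n + 1)) : ℝ) ^ (1 : ℝ) :=
            Real.rpow_le_rpow_of_exponent_le hE1 (by linarith)
        _ = (#(evensIn (n + 1)) : ℝ) := Real.rpow_one _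
        _ ≤ Bd := hEB
    calc ((#S : ℕ) : ℝ) ≤ (#(evensIn (n + 1)) : ℝ) := hSE
      _ = (#(evensIn (n + 1)) : ℝ) ^ δ' * (#(evensIn (n + 1)) : ℝ) ^ (1 - δ') := h1
      _ ≤ Bd * (#(evensIn (n + 1)) : ℝ) ^ (1 - δ') := mul_le_mul_of_nonneg_right h2 hEp0
      _ ≤ _ := by
          apply mul_le_mul_of_nonneg_right _ hEp0
          linarith
  · push Not at hsmall
    have hc1 : X1 ≤ X := ((le_max_left _ _).trans (le_max_left _ _)).trans hsmall
    have hc2 : X2 ≤ X :=
      (((le_max_left _ _).trans (le_max_right _ _)).trans (le_max_left _ _)).trans hsmall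
    have hc3 : X3 ≤ X := ((((le_max_left _ _).trans (le_max_right _ _)).trans
      (le_max_right _ _)).trans (le_max_left _ _)).trans hsmall
    have hc4 : X4 ≤ X := ((((le_max_right _ _).trans (le_max_right _ _)).trans
      (le_max_right _ _)).trans (le_max_left _ _)).trans hsmall
    have hc5 : ⌈Real.exp 1048576⌉₊ ≤ X := ((le_max_left _ _).trans (le_max_right _ _)).trans hsmall
    have hc7 : X5 ≤ X := (((le_max_left _ _).trans (le_max_right _ _)).trans
      (le_max_right _ _)).trans hsmall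
    have hc6 : prml 3 + 16 ≤ X := (((le_max_right _ _).trans (le_max_right _ _)).trans
      (le_max_right _ _)).trans hsmall
    have hrX : max 1 (r X) = r X := by
      have h1 := hX5 X hc7
      rw [pow_zero] at h1
      exact max_eq_right (by exact_mod_cast h1)
    have hX16 : 16 ≤ X := by omega
    have hXr : (16 : ℝ) ≤ X := by exact_mod_cast hX16
    have hX0r : (0 : ℝ) < X := by linarith
    set y := Real.log X with hy
    have hy1 : 1048576 ≤ y := by
      rw [hy, Real.le_log_iff_exp_le hX0r]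
      exact (Nat.le_ceil _).trans (by exact_mod_cast hc5)
    have hy0 : 0 < y := by linarith
    have hn3 : 3 < n := by
      by_contra hcon
      push Not at hcon
      have := prml_mono hcon
      omega
    have hp := nth_prime_small n hn hy1
    rw [← hX, ← hy] at hp
    set L := prml (n + 1) + 1 with hL
    have hLr : (L : ℝ) = X * (Nat.nth Nat.Prime n : ℝ) + 1 := by
      rw [hL, prml_succ]
      push_cast
      rw [hX]
    have hLX : (L : ℝ) ≤ X * y ^ 2 := by
      rw [hLr]
      have h1 : (X : ℝ) * (Nat.nth Nat.Prime n : ℝ) ≤ X * (y ^ 2 / 4) := by gcongr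
      have h2 : (1 : ℝ) ≤ X * (y ^ 2 / 4) := by
        have : (1 : ℝ) ≤ y ^ 2 / 4 := by nlinarith
        nlinarith
      have h3 : (X : ℝ) * (y ^ 2 / 4) + X * (y ^ 2 / 4) ≤ X * y ^ 2 := by
        have : 0 ≤ (X : ℝ) * y ^ 2 := by positivity
        nlinarith
      linarith
    have hLX2 : (L : ℝ) ≤ (X : ℝ) ^ 2 := by
      have h1 := hX4 X hc4
      rw [← hy, one_mul, Real.rpow_one] at h1
      calc (L : ℝ) ≤ X * y ^ 2 := hLX
        _ ≤ X * X := by gcongr
        _ = _ := by ring
    have hXL : X ≤ L := by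
      rw [hL, prml_succ, ← hX]
      have : 1 ≤ Nat.nth Nat.Prime n := by have := nth_prime_ge n; omega
      nlinarith
    have hLpos : (0 : ℝ) < L := by
      have : (X : ℝ) ≤ L := by exact_mod_cast hXL
      linarith
    have hlogL : Real.log L ≤ 2 * y := by
      have h1 := Real.log_le_log hLpos hLX2
      rw [Real.log_pow] at h1
      push_cast at h1
      exact h1
    set s := X / 8 with hs
    have hs1 : 1 ≤ s := by omega
    have hsr : (X : ℝ) / 16 ≤ s := by
      have h1 : X ≤ 16 * s := by omega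
      have h2 : (X : ℝ) ≤ 16 * s := by exact_mod_cast h1
      linarith
    set J := (L - X) / s + 1 with hJ
    set bad : ℕ → Prop := fun m => Even m ∧
      (∑ a ∈ Ioc (X / 4) (X / 2), th a * th (m - a) < (X : ℝ) ^ (1 - ε / 2) ∨
      ¬ r X ∣ m ∧ ∑ a ∈ Ioc (X / 4) (X / 2), th a * th (m - a)
        < c * ((m : ℝ) / m.totient) * X) with hbad
    -- the exceptional set is covered
    have hsub : S ⊆ (range J).biUnion fun j => (Ioc (X + j * s) (X + j * s + s)).filter bad := by
      intro m hm
      rw [hS, mem_filter] at hm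
      obtain ⟨hmE, hnot⟩ := hm
      have hmE' := hmE
      unfold evensIn primorialInterval at hmE'
      rw [mem_filter, mem_Icc, Nat.add_sub_cancel] at hmE'
      obtain ⟨⟨hm1, hm2⟩, hev⟩ := hmE'
      have hmX : X < m := by omega
      have hmL : m ≤ L := hm2
      rw [mem_biUnion]
      refine ⟨(m - X - 1) / s, ?_, ?_⟩
      · rw [mem_range, hJ]
        have : (m - X - 1) / s ≤ (L - X) / s := Nat.div_le_div_right (by omega)
        omega
      · rw [mem_filter, mem_Ioc]
        have h1 : (m - X - 1) / s * s ≤ m - X - 1 := Nat.div_mul_le_self _ _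
        have h2 : m - X - 1 < s * ((m - X - 1) / s + 1) := Nat.lt_mul_div_succ _ (by omega)
        have h3 : s * ((m - X - 1) / s + 1) = (m - X - 1) / s * s + s := by ring
        refine ⟨⟨by omega, by omega⟩, hev, ?_⟩
        by_contra hge
        push Not at hge
        obtain ⟨hge, hge2⟩ := hge
        apply hnot
        -- many representations
        have hpairs := pairs_le_reps n hn m hmE
        rw [← hX] at hpairs
        have hr := r_le_pairs (X / 4) (X / 2) m (2 * y) (by linarith) (fun a ha => by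
          rw [mem_Ioc] at ha
          refine (th_le a L (by omega) (by omega)).trans hlogL) (fun a ha => by
          rw [mem_Ioc] at ha
          exact (th_le (m - a) L (by omega) (by omega)).trans hlogL)
        have hcardle : ((Ioc (X / 4) (X / 2)).filter (fun p => p.Prime ∧ (m - p).Prime)).card
            ≤ primorialReps n m := by
          refine le_trans ?_ hpairs
          apply card_le_card
          intro p hp
          rw [mem_filter, mem_Ioc] at hp ⊢
          refine ⟨⟨?_, hp.1.2⟩, hp.2⟩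
          have h4 : 4 * prml (n - 1) ≤ X := by
            obtain ⟨k, rfl⟩ := Nat.exists_eq_add_of_le' hn
            rw [hX, Nat.add_sub_cancel, prml_succ, mul_comm 4]
            exact Nat.mul_le_mul_left _ (by have := nth_prime_ge k; omega)
          omega
        have hcardr : (((Ioc (X / 4) (X / 2)).filter
            (fun p => p.Prime ∧ (m - p).Prime)).card : ℝ) ≤ primorialReps n m := by
          exact_mod_cast hcardle
        have h4 : (X : ℝ) ^ (1 - ε / 2) ≤ primorialReps n m * (2 * y) ^ 2 :=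
          hge.trans (hr.trans (by gcongr))
        have h5 := hX2 X hc2
        rw [← hy, one_mul] at h5
        have h6 : (X : ℝ) ^ (1 - ε / 2) ≤ primorialReps n m * (4 * (X : ℝ) ^ (ε / 2)) := by
          refine h4.trans ?_
          have : (2 * y) ^ 2 ≤ 4 * (X : ℝ) ^ (ε / 2) := by nlinarith
          gcongr
        have h7 : (X : ℝ) ^ (1 - ε / 2) = (X : ℝ) ^ (1 - ε) * (X : ℝ) ^ (ε / 2) := by
          rw [← Real.rpow_add hX0r]
          congr 1
          ring
        have h8 : 0 < (X : ℝ) ^ (ε / 2) := by positivity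
        have h9 : 1 / 8 * (X : ℝ) ^ (1 - ε) ≤ primorialReps n m := by
          rw [h7] at h6
          have h10 : (X : ℝ) ^ (1 - ε) * (X : ℝ) ^ (ε / 2)
              ≤ (4 * primorialReps n m) * (X : ℝ) ^ (ε / 2) := by linarith
          have h11 := le_of_mul_le_mul_right h10 h8
          have h12 : (0 : ℝ) ≤ primorialReps n m := Nat.cast_nonneg _
          linarith
        refine ⟨?_, h9, fun hrm => ?_⟩
        rotate_left
        · rw [hrX] at hrm
          have e1 := hge2 hrm
          have e2 : c * ((m : ℝ) / m.totient) * X ≤ primorialReps n m * (2 * y) ^ 2 :=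
            e1.trans (hr.trans (by gcongr))
          have e3 : c / 4 * ((m : ℝ) / m.totient) * (X / y ^ 2)
              = c * ((m : ℝ) / m.totient) * X / (2 * y) ^ 2 := by
            field_simp
            ring
          rw [e3, div_le_iff₀ (by positivity)]
          exact e2
        have h10 : (0 : ℝ) < primorialReps n m := by
          have : 0 < (X : ℝ) ^ (1 - ε) := by positivity
          linarith
        have h11 : 0 < primorialReps n m := by exact_mod_cast h10
        unfold primorialReps at h11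
        rw [Finset.card_pos] at h11
        obtain ⟨⟨p, q⟩, hz⟩ := h11
        rw [mem_filter, mem_product] at hz
        exact ⟨p, hz.1.1, q, hz.1.2, hz.2.symm⟩
    -- counting
    have hcount : ((#S : ℕ) : ℝ) ≤ J * (X : ℝ) ^ (1 - δ) := by
      have h1 : #S ≤ ∑ j ∈ range J, ((Ioc (X + j * s) (X + j * s + s)).filter bad).card :=
        (card_le_card hsub).trans card_biUnion_le
      calc ((#S : ℕ) : ℝ) ≤ ((∑ j ∈ range J,
            ((Ioc (X + j * s) (X + j * s + s)).filter bad).card : ℕ) : ℝ) := by exact_mod_cast h1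
        _ = ∑ j ∈ range J, (((Ioc (X + j * s) (X + j * s + s)).filter bad).card : ℝ) := by
            push_cast
            rfl
        _ ≤ ∑ j ∈ range J, (X : ℝ) ^ (1 - δ) := by
            refine sum_le_sum fun j hj => ?_
            rw [mem_range, hJ] at hj
            have h2 : j * s ≤ L - X := by
              calc j * s ≤ (L - X) / s * s := Nat.mul_le_mul_right _ (by omega)
                _ ≤ L - X := Nat.div_mul_le_self _ _
            have h3 : ((X + j * s : ℕ) : ℝ) ≤ X * (Real.log X) ^ 2 := by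
              refine le_trans ?_ hLX
              exact_mod_cast (by omega : X + j * s ≤ L)
            exact hX1 X (X + j * s) hc1 (by omega) h3
        _ = _ := by rw [sum_const, card_range, nsmul_eq_mul]
    have hJle : (J : ℝ) ≤ 17 * y ^ 2 := by
      have h1 : (((L - X) / s : ℕ) : ℝ) ≤ ((L - X : ℕ) : ℝ) / s := Nat.cast_div_le
      have h2 : ((L - X : ℕ) : ℝ) ≤ X * y ^ 2 := by
        rw [Nat.cast_sub hXL]
        linarith
      have hs0 : (0 : ℝ) < s := by
        have : (1 : ℝ) ≤ s := by exact_mod_cast hs1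
        linarith
      have h3 : ((L - X : ℕ) : ℝ) / s ≤ 16 * y ^ 2 := by
        rw [div_le_iff₀ hs0]
        calc ((L - X : ℕ) : ℝ) ≤ X * y ^ 2 := h2
          _ = 16 * y ^ 2 * (X / 16) := by ring
          _ ≤ 16 * y ^ 2 * s := by gcongr
      have h4 : (1 : ℝ) ≤ y ^ 2 := by nlinarith
      rw [hJ]
      push_cast
      linarith
    have h40 := hX3 X hc3
    rw [← hy] at h40
    have hXE : (X : ℝ) ≤ 6 * (#(evensIn (n + 1)) : ℝ) := by
      refine le_trans ?_ hEge
      exact_mod_cast hXL
    calc ((#S : ℕ) : ℝ) ≤ J * (X : ℝ) ^ (1 - δ) := hcount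
      _ ≤ (17 * y ^ 2) * (X : ℝ) ^ (1 - δ) := by gcongr
      _ ≤ (X : ℝ) ^ (δ / 2) * (X : ℝ) ^ (1 - δ) := by
          have : 17 * y ^ 2 ≤ (X : ℝ) ^ (δ / 2) := by
            have h1 : 0 < (X : ℝ) ^ (δ / 2) := by positivity
            linarith
          gcongr
      _ = (X : ℝ) ^ (1 - δ / 2) := by
          rw [← Real.rpow_add hX0r]
          congr 1
          ring
      _ ≤ (X : ℝ) ^ (1 - δ') := Real.rpow_le_rpow_of_exponent_le (by linarith) (by linarith)
      _ ≤ (6 * (#(evensIn (n + 1)) : ℝ)) ^ (1 - δ') :=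
          Real.rpow_le_rpow hX0r.le hXE (by linarith)
      _ = 6 ^ (1 - δ') * (#(evensIn (n + 1)) : ℝ) ^ (1 - δ') := Real.mul_rpow (by norm_num) hE0
      _ ≤ (6 + Bd) * (#(evensIn (n + 1)) : ℝ) ^ (1 - δ') := by
          apply mul_le_mul_of_nonneg_right _ hEp0
          have h1 : (6 : ℝ) ^ (1 - δ') ≤ 6 ^ (1 : ℝ) :=
            Real.rpow_le_rpow_of_exponent_le (by norm_num) (by linarith)
          rw [Real.rpow_one] at h1
          linarith

end Pool.Agent.PS
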