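import Pool.Agent.Work.PS.LOW
import Pool.Agent.Work.PS.InterfaceB

/-!
# Block LOW2: lower bound for the major arcs, right order of magnitude
-/

set_option autoImplicit false

namespace Pool.Agent.PS

open Finset
open Pool.Agent.BV (PC)
open Pool.Agent.Circle (e e_add e_int e_nat norm_e sing)
open scoped Classical

namespace LOW

lemma final_ineq2 {F s B J Jt ρ cr er mm c0 κ X : ℝ} (hc0 : 0 < c0) (hc01 : c0 ≤ 1)
    (hκ : κ = c0 * (1 / 240)) (hmm : 1 ≤ mm) (hF : c0 * mm ≤ F)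
    (hX : 0 < X) (hJ : X / 5 ≤ J) (hJX : J ≤ X) (hJt0 : 0 ≤ Jt)
    (hJt : Jt ≤ J) (hs : |s - F| ≤ κ * mm) (hB0 : 0 ≤ B)
    (hB : B ≤ F / 3 + κ * mm) (hρ0 : 0 ≤ ρ) (hρ : ρ ≤ κ * X) (hcr : cr ≤ κ * mm * X)
    (her : er ≤ κ * mm * X) :
    c0 / 10 * mm * X ≤ s * J - |s| * ρ - B * (Jt + ρ) - cr - er := by
  set k : ℝ := 1 / 240 with hk
  have hk0 : 0 < k := by norm_num [hk]
  have hmm0 : 0 < mm := by linarith
  have hF0 : 0 < F := lt_of_lt_of_le (by positivity) hF
  have hκm : κ * mm ≤ k * F := by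
    rw [hκ]
    nlinarith
  have hκ1 : κ ≤ k := by
    rw [hκ]
    nlinarith
  have a1 : κ * mm * X ≤ k * F * X := mul_le_mul_of_nonneg_right hκm hX.le
  have a2 : κ * X ≤ k * X := mul_le_mul_of_nonneg_right hκ1 hX.le
  rw [abs_le] at hs
  have hJ0 : 0 < J := by linarith
  have b1 : F * J - k * F * X ≤ s * J := by
    have h1 : (F - k * F) * J ≤ s * J := mul_le_mul_of_nonneg_right (by linarith) hJ0.le
    have h2 : k * F * J ≤ k * F * X := mul_le_mul_of_nonneg_left hJX (by positivity)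
    nlinarith
  have habs : |s| ≤ 2 * F := by
    rw [abs_le]
    have h3 : k * F ≤ F := by rw [hk]; linarith
    constructor <;> linarith
  have b2 : |s| * ρ ≤ 2 * (k * F * X) := by
    calc |s| * ρ ≤ (2 * F) * (k * X) :=
          mul_le_mul habs (hρ.trans a2) hρ0 (by positivity)
      _ = _ := by ring
  have hρX : ρ ≤ X := by
    have : k * X ≤ 1 * X := mul_le_mul_of_nonneg_right (by rw [hk]; norm_num) hX.le
    linarith
  have b3 : B * (Jt + ρ) ≤ F / 3 * J + 3 * (k * F * X) := by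
    have h0 : B ≤ F / 3 + k * F := hB.trans (add_le_add le_rfl hκm)
    have h1 : B * (Jt + ρ) ≤ (F / 3 + k * F) * (J + ρ) :=
      mul_le_mul h0 (add_le_add hJt le_rfl) (add_nonneg hJt0 hρ0) (by positivity)
    have h2 : F / 3 * ρ ≤ k * F * X := by
      have : F / 3 * ρ ≤ F / 3 * (k * X) := mul_le_mul_of_nonneg_left (hρ.trans a2) (by positivity)
      nlinarith [mul_pos (mul_pos hk0 hF0) hX]
    have h3 : k * F * J ≤ k * F * X := mul_le_mul_of_nonneg_left hJX (by positivity)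
    have h4 : k * F * ρ ≤ k * F * X := mul_le_mul_of_nonneg_left hρX (by positivity)
    nlinarith
  have b5 : F * (X / 5) ≤ F * J := mul_le_mul_of_nonneg_left hJ hF0.le
  have b8 : c0 * mm * X ≤ F * X := mul_le_mul_of_nonneg_right hF hX.le
  have b7 : k * F * X = 1 / 240 * (F * X) := by rw [hk]; ring
  rw [b7] at b1 b2 b3 a1
  nlinarith

end LOW

open LOW in
theorem stmt_LOW2 (hMAJ : Stmt_MAJ) (hKSUM : Stmt_KSUM) (hKX : Stmt_KX) (hK1 : Stmt_K1)
    (hK2 : Stmt_K2) (hSING : Stmt_SING) (hSING2 : Stmt_SING2) : Stmt_LOW2 := by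
  obtain ⟨CM, hCM, hMT⟩ := BB_one stmt_MT
  obtain ⟨CK, hCK, hKS⟩ := hKSUM
  obtain ⟨CX, hCX, hKX⟩ := hKX
  obtain ⟨ca, Ca, hca, hCa, hSa⟩ := hSING
  obtain ⟨cb, Cb, hcb, hCb, hSb⟩ := hSING2
  set c0' : ℝ := min ca cb with hc0'd
  have hc0' : 0 < c0' := lt_min hca hcb
  set CS : ℝ := max Ca Cb with hCSd
  have hCS : 0 < CS := lt_max_of_lt_left hCa
  set c0 : ℝ := min c0' 1 with hc0d
  have hc0 : 0 < c0 := lt_min hc0' one_pos
  have hc01 : c0 ≤ 1 := min_le_right _ _
  set κ : ℝ := c0 * (1 / 240) with hκd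
  have hκ : 0 < κ := by positivity
  set u : ℝ := min 1 (κ / (4 * CX)) with hud
  have hu : 0 < u := lt_min one_pos (by positivity)
  have hu1 : u ≤ 1 := min_le_left _ _
  have hu2 : u ≤ κ / (4 * CX) := min_le_right _ _
  set ε : ℝ := min (κ / (5 * CK)) (u ^ 3) with hεd
  have hε : 0 < ε := lt_min (by positivity) (by positivity)
  have hε1 : ε ≤ 1 := (min_le_right _ _).trans (pow_le_one₀ hu.le hu1)
  have hε2 : ε ≤ κ / (5 * CK) := min_le_left _ _
  have hε3 : ε ≤ u ^ 3 := min_le_right _ _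
  obtain ⟨P0, hP03, hP0⟩ := exists_P0 (CS + 2 * CM) κ hκ
  refine ⟨ε, c0 / 10, P0, hε, by positivity, ?_⟩
  intro X P M m R H E hP hPX hR hH1 hH2 hXM hMm hmX hev hMR hdiv hE hpp hW1 hW2
  -- sizes
  have hP3 : 3 ≤ P := hP03.trans hP
  have hPX' : 19683 * P ≤ X := by
    have h1 : 3 ^ 9 ≤ P ^ 9 := Nat.pow_le_pow_left hP3 9
    calc 19683 * P ≤ P ^ 9 * P := Nat.mul_le_mul_right P (by norm_num at h1 ⊢; exact h1)
      _ = P ^ 10 := by ring
      _ ≤ X := hPX
  have hX0 : 0 < X := by omega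
  have hXr : (0 : ℝ) < X := by exact_mod_cast hX0
  have hPr : (0 : ℝ) < P := by exact_mod_cast (by omega : 0 < P)
  have hP1 : (1 : ℝ) ≤ P := by exact_mod_cast (by omega : 1 ≤ P)
  have hRr : (0 : ℝ) < R := by exact_mod_cast hR
  have hm : 0 < m := by omega
  have hHpos : 0 < H := by
    rcases Nat.eq_zero_or_pos H with h | h
    · exfalso
      rw [h] at hH2
      simp only [Nat.cast_zero, mul_zero, zero_div] at hH2
      have : 0 < (P : ℝ) / X := by positivity
      linarith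
    · exact h
  have hHr : (0 : ℝ) < H := by exact_mod_cast hHpos
  have hHR : 2 * H < R := by
    rw [div_le_div_iff₀ hRr hXr] at hH1
    have h1 : H * X ≤ P * R := by exact_mod_cast hH1
    by_contra hc
    push Not at hc
    have h2 : R * X ≤ 2 * (P * R) := by
      calc R * X ≤ 2 * H * X := Nat.mul_le_mul_right X hc
        _ = 2 * (H * X) := by ring
        _ ≤ 2 * (P * R) := Nat.mul_le_mul_left 2 h1
    have h3 : R * X ≤ R * (2 * P) := by
      calc R * X ≤ 2 * (P * R) := h2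
        _ = R * (2 * P) := by ring
    have h4 := Nat.le_of_mul_le_mul_left h3 hR
    omega
  have hRH : (R : ℝ) / H ≤ 2 * X / P := by
    rw [div_le_div_iff₀ hXr hRr] at hH2
    rw [div_le_div_iff₀ hHr hPr]
    linarith
  set I₁ := Ioc (X / 4) (X / 2) with hI1
  set I₂ := Ioc (M - X / 2) M with hI2
  have b1 : ∀ n ∈ I₁, 0 < n ∧ n < R := by
    intro n hn
    have := mem_Ioc.1 hn
    omega
  have b2 : ∀ n ∈ I₂, 0 < n ∧ n < R := by
    intro n hn
    have := mem_Ioc.1 hn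
    omega
  have p1 : ∀ n ∈ I₁, P < n := by
    intro n hn
    have := mem_Ioc.1 hn
    omega
  have p2 : ∀ n ∈ I₂, P < n := by
    intro n hn
    have := mem_Ioc.1 hn
    omega
  have hcard1 : I₁.card = X / 2 - X / 4 := Nat.card_Ioc _ _
  have hcard2 : I₂.card = M - (M - X / 2) := Nat.card_Ioc _ _
  have hc1 : (I₁.card : ℝ) ≤ X := by
    rw [hcard1]
    exact_mod_cast (by omega : X / 2 - X / 4 ≤ X)
  have hc2 : (I₂.card : ℝ) ≤ X := by
    rw [hcard2]
    exact_mod_cast (by omega : M - (M - X / 2) ≤ X)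
  have hma : ∀ a ∈ I₁, a ≤ m ∧ m - a ∈ I₂ := by
    intro a ha
    have := mem_Ioc.1 ha
    rw [hI2, mem_Ioc]
    omega
  have hJ5 : (X : ℝ) / 5 ≤ (I₁.card : ℝ) := by
    rw [hcard1]
    have : X ≤ 5 * (X / 2 - X / 4) := by omega
    have h2 : (X : ℝ) ≤ 5 * ((X / 2 - X / 4 : ℕ) : ℝ) := by exact_mod_cast this
    linarith
  have hmR : m ∈ range R := by
    rw [mem_range]
    omega
  obtain ⟨hB1, hB2⟩ := hMT R H hHpos hHR (X / 4) (X / 2) (M - X / 2) M (by omega) (by omega)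
    m hmR hma
  -- the parameter t
  set t : ℝ := (P : ℝ) ^ (1 / 8 : ℝ) with ht
  have ht1 : 1 ≤ t := Real.one_le_rpow hP1 (by norm_num)
  have ht0 : 0 < t := by linarith
  have ht8 : t ^ 8 = P := by
    rw [ht, ← Real.rpow_natCast, ← Real.rpow_mul hPr.le]
    norm_num
  have hsqrtP : √(P : ℝ) = t ^ 4 := by
    rw [← ht8]
    have : t ^ 8 = (t ^ 4) ^ 2 := by ring
    rw [this, Real.sqrt_sq (by positivity)]
  -- the parameter l
  set l : ℝ := lam E X with hl
  have hlog1 : 1 ≤ Real.log X := by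
    rw [Real.le_log_iff_exp_le hXr]
    have h1 := Real.exp_one_lt_d9
    have h2 : (3 : ℝ) ≤ X := by exact_mod_cast (by omega : 3 ≤ X)
    linarith
  have hr8 : ∀ y δ, E = some (y, δ) → (y.1 : ℝ) ^ (-(1 / 8) : ℝ) ≤ l := by
    intro y δ hy
    obtain ⟨hexc, hr4, hrε, hrδ⟩ := hE y δ hy
    have hr0 := mem_Fam hexc.mem
    have hr1 : (1 : ℝ) ≤ y.1 := by exact_mod_cast Nat.one_le_iff_ne_zero.2 hr0.1
    rw [hl, hy]
    unfold lam
    simp only
    refine le_min (Real.rpow_le_one_of_one_le_of_nonpos hr1 (by norm_num)) ?_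
    refine hrδ.trans ?_
    nlinarith [hexc.pos]
  obtain ⟨hl0, hl1, hlP⟩ : 0 < l ∧ l ≤ 1 ∧ (P : ℝ) ^ (-(1 / 32) : ℝ) ≤ l := by
    cases hEc : E with
    | none =>
      have : l = 1 := by rw [hl, hEc]; rfl
      rw [this]
      exact ⟨one_pos, le_rfl, Real.rpow_le_one_of_one_le_of_nonpos hP1 (by norm_num)⟩
    | some p =>
      obtain ⟨y, δ⟩ := p
      obtain ⟨hexc, hr4, hrε, hrδ⟩ := hE y δ hEc
      have h8 := hr8 y δ hEc
      have hr0 := mem_Fam hexc.mem
      have hr0' : (0 : ℝ) < y.1 := by exact_mod_cast Nat.pos_of_ne_zero hr0.1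
      refine ⟨lt_of_lt_of_le (by positivity) h8, ?_, le_trans ?_ h8⟩
      · rw [hl, hEc]
        exact min_le_left _ _
      · have h4 : (y.1 : ℝ) ^ 4 ≤ P := by exact_mod_cast hr4
        calc (P : ℝ) ^ (-(1 / 32) : ℝ) ≤ ((y.1 : ℝ) ^ 4) ^ (-(1 / 32) : ℝ) :=
              Real.rpow_le_rpow_of_nonpos (by positivity) h4 (by norm_num)
          _ = (y.1 : ℝ) ^ (-(1 / 8) : ℝ) := by
              rw [← Real.rpow_natCast, ← Real.rpow_mul hr0'.le]
              norm_num
  have hKP : (CS + 2 * CM) / t ^ 2 ≤ κ * l :=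
    (hP0 P hP).trans (mul_le_mul_of_nonneg_left hlP hκ.le)
  have hKP1 : CS / t ^ 2 ≤ κ * l := by
    refine le_trans ?_ hKP
    exact div_le_div_of_nonneg_right (by linarith) (by positivity)
  have hKP2 : 2 * CM / t ^ 2 ≤ κ * l := by
    refine le_trans ?_ hKP
    exact div_le_div_of_nonneg_right (by linarith) (by positivity)
  set mm : ℝ := (m : ℝ) / m.totient with hmm
  have hmm1 : 1 ≤ mm := by
    rw [hmm, le_div_iff₀ (by exact_mod_cast Nat.totient_pos.2 hm), one_mul]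
    exact_mod_cast Nat.totient_le m
  have hmm0 : 0 < mm := by linarith
  set ρ : ℝ := CM * (R / H) with hρd
  have hρ0 : 0 ≤ ρ := by positivity
  have hρ : ρ ≤ κ * l * X := by
    have h1 : ρ ≤ CM * (2 * X / P) := mul_le_mul_of_nonneg_left hRH hCM.le
    have h2 : CM * (2 * X / P) ≤ 2 * CM / t ^ 2 * X := by
      have h3 : t ^ 2 ≤ P := by
        rw [← ht8]
        exact pow_le_pow_right₀ ht1 (by norm_num)
      have h4 : 1 / (P : ℝ) ≤ 1 / t ^ 2 := one_div_le_one_div_of_le (by positivity) h3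
      calc CM * (2 * X / P) = 2 * CM * X * (1 / P) := by ring
        _ ≤ 2 * CM * X * (1 / t ^ 2) := mul_le_mul_of_nonneg_left h4 (by positivity)
        _ = _ := by ring
    exact h1.trans (h2.trans (mul_le_mul_of_nonneg_right hKP2 hXr.le))
  set s : ℝ := sing P m with hs
  set B11 : ℂ := BB R H I₁ I₂ m (fun _ => 1) (fun _ => 1) with hB11
  -- the error terms
  set D : ℝ := ε * l * √(X : ℝ) with hD
  have hD0 : 0 ≤ D := by positivity
  have herr := err_le hKS P R H I₁ I₂ m hm hHR b1 b2 E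
    (fun y δ hy => (hE y δ hy).1.pos) (X := X) (D := D) hCK hc1 hc2 hD0 hW1 hW2
  have her : CK * ((m : ℝ) / m.totient) * (4 * √(X : ℝ) * D + D ^ 2) ≤ κ * mm * l * X := by
    have hsX : √(X : ℝ) * √(X : ℝ) = X := Real.mul_self_sqrt hXr.le
    have e1 : 4 * √(X : ℝ) * D + D ^ 2 = (4 * ε * l + ε ^ 2 * l ^ 2) * X := by
      rw [hD]
      calc 4 * √(X : ℝ) * (ε * l * √(X : ℝ)) + (ε * l * √(X : ℝ)) ^ 2
          = (4 * ε * l + ε ^ 2 * l ^ 2) * (√(X : ℝ) * √(X : ℝ)) := by ring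
        _ = _ := by rw [hsX]
    rw [e1]
    have h1 : ε ^ 2 * l ^ 2 ≤ ε * l := by
      have : ε * l ≤ 1 := by nlinarith
      nlinarith [mul_pos hε hl0]
    have h2 : (4 * ε * l + ε ^ 2 * l ^ 2) * X ≤ 5 * ε * l * X :=
      mul_le_mul_of_nonneg_right (by linarith) hXr.le
    have h3 : CK * (5 * ε) ≤ κ := by
      rw [le_div_iff₀ (by positivity)] at hε2
      linarith
    calc CK * mm * ((4 * ε * l + ε ^ 2 * l ^ 2) * X) ≤ CK * mm * (5 * ε * l * X) :=
          mul_le_mul_of_nonneg_left h2 (by positivity)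
      _ = (CK * (5 * ε)) * (mm * l * X) := by ring
      _ ≤ κ * (mm * l * X) := mul_le_mul_of_nonneg_right h3 (by positivity)
      _ = _ := by ring
  -- the main terms
  have key : ∃ F B Jt cr : ℝ, c0 * mm ≤ F ∧ |s - F| ≤ κ * mm * l ∧ 0 ≤ B ∧
      B ≤ F / 3 + κ * mm * l ∧
      0 ≤ Jt ∧ Jt ≤ I₁.card * (1 - 1 / 3 * l) ∧ cr ≤ κ * mm * l * X ∧
      ‖Mn P R H I₁ I₂ m E - (s : ℂ) * B11‖ ≤ B * (Jt + ρ) + cr := by
    have hκmm : κ * l ≤ κ * mm * l := by
      have : κ * l * 1 ≤ κ * l * mm := mul_le_mul_of_nonneg_left hmm1 (by positivity)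
      linarith
    have hsF : ∀ F : ℝ, |sing P m - F| ≤ CS * (m.divisors.card : ℝ) / √(P : ℝ) →
        |s - F| ≤ κ * mm * l := by
      intro F hF
      refine hF.trans (le_trans ?_ (hKP1.trans hκmm))
      rw [hsqrtP, div_le_div_iff₀ (by positivity) (by positivity)]
      have h1 : (m.divisors.card : ℝ) * t ^ 2 ≤ t * t ^ 2 :=
        mul_le_mul_of_nonneg_right hdiv (by positivity)
      have h2 : t * t ^ 2 ≤ t ^ 4 := by
        calc t * t ^ 2 = t ^ 3 := by ring
          _ ≤ t ^ 4 := pow_le_pow_right₀ ht1 (by norm_num)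
      calc CS * (m.divisors.card : ℝ) * t ^ 2 = CS * ((m.divisors.card : ℝ) * t ^ 2) := by ring
        _ ≤ CS * t ^ 4 := mul_le_mul_of_nonneg_left (h1.trans h2) hCS.le
    have hc0F : ∀ F : ℝ, c0' * ((m : ℝ) / m.totient) ≤ F → c0 * mm ≤ F := by
      intro F hF
      exact (mul_le_mul_of_nonneg_right (min_le_left _ _) hmm0.le).trans hF
    cases hEc : E with
    | none =>
      obtain ⟨F, hF1, hF2, -⟩ := hSa P m 1 (by omega) hm hev one_pos (by omega)
      replace hF1 : c0' * ((m : ℝ) / m.totient) ≤ F :=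
        (mul_le_mul_of_nonneg_right (min_le_left _ _) hmm0.le).trans hF1
      replace hF2 : |sing P m - F| ≤ CS * (m.divisors.card : ℝ) / √(P : ℝ) := by
        refine hF2.trans ?_
        gcongr
        exact le_max_left _ _
      refine ⟨F, 0, 0, 0, hc0F F hF1, hsF F hF2, le_rfl, ?_, le_rfl, ?_, by positivity, ?_⟩
      · have : 0 ≤ F := le_trans (by positivity) (hc0F F hF1)
        positivity
      · have : 0 ≤ 1 - 1 / 3 * l := by linarith
        positivity
      · rw [Mn_none hK1 P R H I₁ I₂ m hm]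
        simp [hB11, hs]
    | some p =>
      obtain ⟨y, δ⟩ := p
      obtain ⟨hexc, hr4, hrε, hrδ⟩ := hE y δ hEc
      have h8 := hr8 y δ hEc
      obtain ⟨hr0, hrP, -⟩ := mem_Fam hexc.mem
      have hr0' : 0 < y.1 := Nat.pos_of_ne_zero hr0
      have hr0r : (0 : ℝ) < y.1 := by exact_mod_cast hr0'
      obtain ⟨F, hF1, hF2, hF3⟩ := hSb P m y.1 (by omega) hm hev hr0' hrP (hpp y δ hEc)
      replace hF1 : c0' * ((m : ℝ) / m.totient) ≤ F :=
        (mul_le_mul_of_nonneg_right (min_le_right _ _) hmm0.le).trans hF1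
      replace hF2 : |sing P m - F| ≤ CS * (m.divisors.card : ℝ) / √(P : ℝ) := by
        refine hF2.trans ?_
        gcongr
        exact le_max_right _ _
      replace hF3 : |Bs y.1 P m| ≤ F / 3 + CS * ((m : ℝ) / m.totient) * (m.divisors.card : ℝ) *
          √((y.1 : ℝ) / P) := by
        refine hF3.trans ?_
        gcongr
        exact le_max_right _ _
      have hMs := Mn_some hKX hK1 hK2 P R H I₁ I₂ m hm y δ hexc.mem hexc.ne hexc.sq hexc.pos
        hXr.le hHR b1 b2 hc1 hc2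
      have hBy := hB2 δ hexc.pos ((X : ℝ) / 4) (by positivity) (by
        intro a ha
        have := mem_Ioc.1 ha
        have h1 : X ≤ 4 * a := by omega
        have h2 : (X : ℝ) ≤ 4 * a := by exact_mod_cast h1
        linarith)
      refine ⟨F, |Bs y.1 P m|, I₁.card * ((X : ℝ) / 4) ^ (-δ),
        CX * ((m : ℝ) / m.totient) * ((y.1 : ℝ) / (y.1.totient : ℝ) ^ 2) * X, hc0F F hF1,
        hsF F hF2, abs_nonneg _, ?_, by positivity, ?_, ?_, ?_⟩
      · refine hF3.trans (add_le_add le_rfl ?_)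
        -- CS mm d √(r/P) ≤ κ mm l
        have hrt : (y.1 : ℝ) ≤ t ^ 2 := by
          have h4 : (y.1 : ℝ) ^ 4 ≤ (t ^ 2) ^ 4 := by
            calc (y.1 : ℝ) ^ 4 ≤ P := by exact_mod_cast hr4
              _ = t ^ 8 := ht8.symm
              _ = (t ^ 2) ^ 4 := by ring
          exact (pow_le_pow_iff_left₀ hr0r.le (by positivity) (by norm_num)).1 h4
        have hsq : √((y.1 : ℝ) / P) ≤ 1 / t ^ 3 := by
          rw [Real.sqrt_le_left (by positivity), ← ht8, div_pow, one_pow,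
            div_le_div_iff₀ (by positivity) (by positivity)]
          calc (y.1 : ℝ) * (t ^ 3) ^ 2 ≤ t ^ 2 * (t ^ 3) ^ 2 :=
                mul_le_mul_of_nonneg_right hrt (by positivity)
            _ = 1 * t ^ 8 := by ring
        calc CS * ((m : ℝ) / m.totient) * (m.divisors.card : ℝ) * √((y.1 : ℝ) / P)
            ≤ CS * mm * t * (1 / t ^ 3) := by
              refine mul_le_mul ?_ hsq (Real.sqrt_nonneg _) (by positivity)
              exact mul_le_mul_of_nonneg_left hdiv (by positivity)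
          _ = mm * (CS / t ^ 2) := by
              field_simp
          _ ≤ mm * (κ * l) := mul_le_mul_of_nonneg_left hKP1 hmm0.le
          _ = κ * mm * l := by ring
      · have h1 := pow_saving (X := (X : ℝ)) (δ := δ)
          (by exact_mod_cast (by omega : 16 ≤ X)) hexc.pos
        have h2 : l = min 1 (δ * Real.log X) := by rw [hl, hEc]; rfl
        rw [← h2] at h1
        exact mul_le_mul_of_nonneg_left h1 (Nat.cast_nonneg _)
      · have h1 := cross_le hr0' hu hu1 hε hε3 hrε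
        have h2 : (y.1 : ℝ) / (y.1.totient : ℝ) ^ 2 ≤ 4 * u * l :=
          h1.trans (mul_le_mul_of_nonneg_left h8 (by positivity))
        have h3 : CX * (4 * u) ≤ κ := by
          rw [le_div_iff₀ (by positivity)] at hu2
          linarith
        calc CX * ((m : ℝ) / m.totient) * ((y.1 : ℝ) / (y.1.totient : ℝ) ^ 2) * X
            ≤ CX * mm * (4 * u * l) * X :=
              mul_le_mul_of_nonneg_right (mul_le_mul_of_nonneg_left h2 (by positivity)) hXr.le
          _ = (CX * (4 * u)) * (mm * l * X) := by ring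
          _ ≤ κ * (mm * l * X) := mul_le_mul_of_nonneg_right h3 (by positivity)
          _ = κ * mm * l * X := by ring
      · refine hMs.trans (add_le_add ?_ le_rfl)
        exact mul_le_mul_of_nonneg_left hBy (abs_nonneg _)
  obtain ⟨F, B, Jt, cr, k1, k2, k3, k4, k5, k6, k7, k8⟩ := key
  have hlκ : κ * mm * l ≤ κ * mm := mul_le_of_le_one_right (by positivity) hl1
  have hlκX : κ * mm * l * X ≤ κ * mm * X := mul_le_mul_of_nonneg_right hlκ hXr.le
  have hJtJ : Jt ≤ I₁.card := by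
    refine k6.trans (mul_le_of_le_one_right (Nat.cast_nonneg _) ?_)
    linarith
  have hρ' : ρ ≤ κ * X := hρ.trans (mul_le_mul_of_nonneg_right
    (mul_le_of_le_one_right hκ.le hl1) hXr.le)
  have hfin := final_ineq2 hc0 hc01 hκd hmm1 k1 hXr hJ5 hc1 k5 hJtJ (k2.trans hlκ) k3
    (k4.trans (by linarith)) hρ0 hρ' (k7.trans hlκX) (her.trans hlκX)
  refine hfin.trans ?_
  rw [Maj_eq hMAJ P R H I₁ I₂ m hR p1 p2 E]
  set Er := ∑ q ∈ Ioc 0 P, ∑ χ : DirichletCharacter ℂ q, ∑ χ' : DirichletCharacter ℂ q,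
        Kq χ χ' m * (BB R H I₁ I₂ m (mt E (pr χ)) (dd E (pr χ'))
          + BB R H I₁ I₂ m (dd E (pr χ)) (mt E (pr χ'))
          + BB R H I₁ I₂ m (dd E (pr χ)) (dd E (pr χ'))) with hEr
  have q1 : -‖Er‖ ≤ Er.re := by
    have := (abs_le.1 (Complex.abs_re_le_norm Er)).1
    exact this
  have q2 : -‖Mn P R H I₁ I₂ m E - (s : ℂ) * B11‖ ≤ (Mn P R H I₁ I₂ m E - (s : ℂ) * B11).re :=
    (abs_le.1 (Complex.abs_re_le_norm _)).1
  have q3 : s * I₁.card - |s| * ρ ≤ ((s : ℂ) * B11).re := by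
    have h1 : ((s : ℂ) * B11).re = s * I₁.card + ((s : ℂ) * (B11 - (I₁.card : ℂ))).re := by
      rw [mul_sub, Complex.sub_re]
      have : ((s : ℂ) * (I₁.card : ℂ)).re = s * I₁.card := by
        rw [← Complex.ofReal_natCast, ← Complex.ofReal_mul, Complex.ofReal_re]
      rw [this]
      ring
    have h2 : ‖(s : ℂ) * (B11 - (I₁.card : ℂ))‖ ≤ |s| * ρ := by
      rw [norm_mul, Complex.norm_real, Real.norm_eq_abs]
      exact mul_le_mul_of_nonneg_left hB1 (abs_nonneg _)
    have h3 := (abs_le.1 (Complex.abs_re_le_norm ((s : ℂ) * (B11 - (I₁.card : ℂ))))).1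
    rw [h1]
    linarith
  rw [Complex.add_re]
  rw [Complex.sub_re] at q2
  linarith

end Pool.Agent.PS

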