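import Pool.Agent.Work.PS.Interface
import Pool.Agent.Work.SW.Abel

/-!
# Block MT: the main term integral over one arc, completed to the whole circle
-/

set_option autoImplicit false

namespace Pool.Agent.PS

open Finset
open Pool.Agent.Circle (e e_add e_int e_nat norm_e dn norm_geom_le full_sum)
open scoped Classical

namespace MT

lemma split_sum (F : ℤ → ℂ) (R : ℕ) (hper : ∀ i, F (i + R) = F i) : ∀ H : ℕ, 2 * H < R →
    ∑ i ∈ Icc (-(H : ℤ)) H, F i + ∑ j ∈ Ioc H (R - H - 1), F (j : ℤ) =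
      ∑ j ∈ range R, F (j : ℤ) := by
  intro H
  induction H with
  | zero =>
    intro hR
    have h1 : range R = insert 0 (Ioc 0 (R - 0 - 1)) := by
      ext j
      simp only [mem_range, mem_insert, mem_Ioc]
      omega
    rw [h1, sum_insert (by simp)]
    simp
  | succ H ih =>
    intro hR
    rw [← ih (by omega)]
    have h1 : Icc (-((H + 1 : ℕ) : ℤ)) ((H + 1 : ℕ) : ℤ) =
        insert (-((H + 1 : ℕ) : ℤ)) (insert ((H + 1 : ℕ) : ℤ) (Icc (-(H : ℤ)) H)) := by
      ext j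
      simp only [mem_insert, mem_Icc]
      omega
    have h2 : Ioc H (R - H - 1) = insert (H + 1) (insert (R - (H + 1))
        (Ioc (H + 1) (R - (H + 1) - 1))) := by
      ext j
      simp only [mem_insert, mem_Ioc]
      omega
    rw [h1, h2, sum_insert (by
        simp only [mem_insert, mem_Icc, not_or]
        omega), sum_insert (by
        simp only [mem_Icc]
        omega), sum_insert (by
        simp only [mem_insert, mem_Ioc, not_or]
        omega), sum_insert (by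
        simp only [mem_Ioc]
        omega)]
    have h3 : F ((R - (H + 1) : ℕ) : ℤ) = F (-((H + 1 : ℕ) : ℤ)) := by
      rw [← hper (-((H + 1 : ℕ) : ℤ))]
      congr 1
      omega
    rw [h3]
    ring

lemma dn_ge {R j : ℕ} (hR : 0 < R) (hj : j ≤ R) :
    min ((j : ℝ)) ((R : ℝ) - j) / R ≤ dn ((j : ℝ) / R) := by
  have hR0 : (0 : ℝ) < R := by exact_mod_cast hR
  have hj0 : (0 : ℝ) ≤ j := Nat.cast_nonneg j
  have hjR : (j : ℝ) ≤ R := by exact_mod_cast hj
  have h1 : (0 : ℝ) ≤ (j : ℝ) / R := by positivity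
  have h2 : (j : ℝ) / R ≤ 1 := by rw [div_le_one hR0]; exact hjR
  unfold dn
  rcases le_or_gt (round ((j : ℝ) / R)) 0 with h | h
  · have h3 : ((round ((j : ℝ) / R) : ℤ) : ℝ) ≤ 0 := by exact_mod_cast h
    calc min ((j : ℝ)) ((R : ℝ) - j) / R ≤ (j : ℝ) / R :=
          div_le_div_of_nonneg_right (min_le_left _ _) hR0.le
      _ ≤ (j : ℝ) / R - (round ((j : ℝ) / R) : ℤ) := by linarith
      _ ≤ _ := le_abs_self _
  · have h3 : (1 : ℝ) ≤ ((round ((j : ℝ) / R) : ℤ) : ℝ) := by exact_mod_cast h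
    calc min ((j : ℝ)) ((R : ℝ) - j) / R ≤ ((R : ℝ) - j) / R :=
          div_le_div_of_nonneg_right (min_le_right _ _) hR0.le
      _ = 1 - (j : ℝ) / R := by rw [sub_div, div_self hR0.ne']
      _ ≤ -((j : ℝ) / R - (round ((j : ℝ) / R) : ℤ)) := by linarith
      _ ≤ _ := neg_le_abs _

/-- an exponential sum with monotone weights -/
lemma norm_mono_sum (g : ℕ → ℝ) (A B : ℕ)
    (hg : ∀ n, A < n → 0 ≤ g n ∧ g n ≤ 1 ∧ g (n + 1) ≤ g n) (θ : ℝ) (hθ : 0 < dn θ) :
    ‖∑ n ∈ Ioc A B, (g n : ℂ) * e (n * θ)‖ ≤ 1 / (2 * dn θ) := by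
  rcases le_or_gt A B with h | h
  · have h1 := Pool.Agent.SW.abel_bound_anti (fun n => e (n * θ)) g A B h (1 / (2 * dn θ))
      (by positivity) (fun n _ _ => by
        rw [le_div_iff₀ (by positivity), mul_comm]
        exact norm_geom_le θ A n) (fun n hn => (hg n hn).2.2) (fun n hn => (hg n hn).1)
    have h2 : ∑ n ∈ Ioc A B, (g n : ℂ) * e (n * θ) = ∑ n ∈ Ioc A B, e (n * θ) * (g n : ℂ) :=
      sum_congr rfl fun n _ => mul_comm _ _
    rw [h2]
    refine h1.trans ?_
    have h3 : 0 < 1 / (2 * dn θ) := by positivity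
    have h4 := (hg (A + 1) (by omega)).2.1
    nlinarith
  · rw [Ioc_eq_empty (by omega), sum_empty, norm_zero]
    positivity

end MT

open MT in
theorem stmt_MT : Stmt_MT := by
  refine ⟨1, one_pos, ?_⟩
  intro R H hH hR A B A' B' hB hB' g₁ g₂ hg₁ hg₂ m hm
  rw [mem_range] at hm
  have hR0 : (0 : ℝ) < R := by exact_mod_cast (by omega : 0 < R)
  have hRc : (R : ℂ) ≠ 0 := by exact_mod_cast (by omega : R ≠ 0)
  have hH0 : (0 : ℝ) < H := by exact_mod_cast hH
  set F : ℤ → ℂ := fun i =>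
      (∑ n ∈ Ioc A B, (g₁ n : ℂ) * e (n * ((i : ℝ) / R))) *
      (∑ n ∈ Ioc A' B', (g₂ n : ℂ) * e (n * ((i : ℝ) / R))) * e (-(m * ((i : ℝ) / R))) with hF
  have hper : ∀ i, F (i + R) = F i := by
    intro i
    have e1 : ∀ n : ℕ, e (n * (((i + R : ℤ) : ℝ) / R)) = e (n * ((i : ℝ) / R)) := by
      intro n
      have : (n : ℝ) * (((i + R : ℤ) : ℝ) / R) = n * ((i : ℝ) / R) + n := by
        push_cast
        field_simp
      rw [this, e_add, e_nat, mul_one]
    have e2 : e (-(m * (((i + R : ℤ) : ℝ) / R))) = e (-(m * ((i : ℝ) / R))) := by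
      have : -((m : ℝ) * (((i + R : ℤ) : ℝ) / R)) = -(m * ((i : ℝ) / R)) + ((-(m : ℤ) : ℤ) : ℝ) := by
        push_cast
        field_simp
        ring
      rw [this, e_add, e_int, mul_one]
    simp only [hF, e1, e2]
  -- the full sum
  have hfull : ∑ j ∈ range R, F (j : ℤ) =
      R * cv (Ioc A B) (Ioc A' B') (fun n => (g₁ n : ℂ)) (fun n => (g₂ n : ℂ)) m := by
    have e1 : ∀ j ∈ range R, F (j : ℤ) = ∑ a ∈ Ioc A B, ∑ b ∈ Ioc A' B',
        (g₁ a : ℂ) * (g₂ b : ℂ) * e (j * ((((a : ℤ) + b - m : ℤ) : ℝ) / R)) := by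
      intro j _
      simp only [hF]
      rw [Finset.sum_mul_sum, Finset.sum_mul]
      refine sum_congr rfl fun a _ => ?_
      rw [Finset.sum_mul]
      refine sum_congr rfl fun b _ => ?_
      have : (j : ℝ) * ((((a : ℤ) + b - m : ℤ) : ℝ) / R) =
          (a * (((j : ℤ) : ℝ) / R) + b * (((j : ℤ) : ℝ) / R)) + -(m * (((j : ℤ) : ℝ) / R)) := by
        push_cast
        ring
      rw [this, e_add, e_add]
      ring
    rw [sum_congr rfl e1, sum_comm]
    unfold cv
    rw [Finset.mul_sum]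
    refine sum_congr rfl fun a ha => ?_
    rw [sum_comm, Finset.mul_sum]
    refine sum_congr rfl fun b hb => ?_
    rw [mem_Ioc] at ha hb
    rw [← Finset.mul_sum, full_sum R (by omega)]
    by_cases hab : a + b = m
    · rw [if_pos hab, if_pos (by
        have : ((a : ℤ) + b - m) = 0 := by omega
        rw [this]
        exact dvd_zero _)]
      ring
    · rw [if_neg hab, if_neg, mul_zero, mul_zero]
      intro hd
      have h1 : ((a : ℤ) + b - m) = 0 := by
        refine Int.eq_zero_of_abs_lt_dvd hd ?_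
        rw [abs_lt]
        constructor <;> omega
      omega
  have hsp := split_sum F R hper H hR
  rw [hfull] at hsp
  -- the difference
  have hdiff : (1 / (R : ℂ)) * ∑ i ∈ Icc (-(H : ℤ)) H, F i
      - cv (Ioc A B) (Ioc A' B') (fun n => (g₁ n : ℂ)) (fun n => (g₂ n : ℂ)) m =
      -((1 / (R : ℂ)) * ∑ j ∈ Ioc H (R - H - 1), F (j : ℤ)) := by
    have h1 : ∑ i ∈ Icc (-(H : ℤ)) H, F i =
        R * cv (Ioc A B) (Ioc A' B') (fun n => (g₁ n : ℂ)) (fun n => (g₂ n : ℂ)) m
          - ∑ j ∈ Ioc H (R - H - 1), F (j : ℤ) := by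
      rw [← hsp]
      ring
    rw [h1]
    field_simp
    ring
  have hgoal : ‖(1 / (R : ℂ)) * ∑ i ∈ Icc (-(H : ℤ)) H, F i
      - cv (Ioc A B) (Ioc A' B') (fun n => (g₁ n : ℂ)) (fun n => (g₂ n : ℂ)) m‖ ≤
      1 * (R / H) := by
    rw [hdiff, norm_neg, norm_mul, norm_div, norm_one, Complex.norm_natCast]
    -- termwise
    have hterm : ∀ j ∈ Ioc H (R - H - 1), ‖F (j : ℤ)‖ ≤
        (R : ℝ) ^ 2 / 4 * (((j : ℝ) ^ 2)⁻¹ + (((R - j : ℕ) : ℝ) ^ 2)⁻¹) := by
      intro j hj
      rw [mem_Ioc] at hj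
      have hj1 : (0 : ℝ) < j := by exact_mod_cast (by omega : 0 < j)
      have hj2 : ((R - j : ℕ) : ℝ) = (R : ℝ) - j := by
        rw [Nat.cast_sub (by omega)]
      have hj3 : (0 : ℝ) < (R : ℝ) - j := by
        rw [← hj2]
        exact_mod_cast (by omega : 0 < R - j)
      have hmin : 0 < min (j : ℝ) ((R : ℝ) - j) := lt_min hj1 hj3
      have hd := dn_ge (R := R) (j := j) (by omega) (by omega)
      have hd0 : 0 < dn ((j : ℝ) / R) := lt_of_lt_of_le (by positivity) hd
      have s1 := norm_mono_sum g₁ A B hg₁ ((j : ℝ) / R) hd0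
      have s2 := norm_mono_sum g₂ A' B' hg₂ ((j : ℝ) / R) hd0
      have hb : 1 / (2 * dn ((j : ℝ) / R)) ≤ R / (2 * min (j : ℝ) ((R : ℝ) - j)) := by
        rw [div_le_div_iff₀ (by positivity) (by positivity)]
        rw [div_le_iff₀ hR0] at hd
        linarith
      have hc : ‖F (j : ℤ)‖ ≤ (R / (2 * min (j : ℝ) ((R : ℝ) - j))) ^ 2 := by
        simp only [hF]
        rw [norm_mul, norm_mul, norm_e, mul_one, sq, Int.cast_natCast]
        exact mul_le_mul (s1.trans hb) (s2.trans hb) (norm_nonneg _) (by positivity)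
      refine hc.trans ?_
      rw [div_pow, mul_pow, hj2]
      have h4 : (R : ℝ) ^ 2 / (2 ^ 2 * min (j : ℝ) ((R : ℝ) - j) ^ 2) =
          (R : ℝ) ^ 2 / 4 * (min (j : ℝ) ((R : ℝ) - j) ^ 2)⁻¹ := by
        field_simp
        norm_num
      rw [h4]
      refine mul_le_mul_of_nonneg_left ?_ (by positivity)
      rcases min_choice (j : ℝ) ((R : ℝ) - j) with h | h <;> rw [h]
      · have : 0 ≤ (((R : ℝ) - j) ^ 2)⁻¹ := by positivity
        linarith
      · have : 0 ≤ ((j : ℝ) ^ 2)⁻¹ := by positivity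
        linarith
    have hs1 : ∑ j ∈ Ioc H (R - H - 1), ((j : ℝ) ^ 2)⁻¹ ≤ 1 / H := by
      have := sum_Ioc_inv_sq_le_sub (α := ℝ) (k := H) (n := R - H - 1) (by omega) (by omega)
      have h2 : (0 : ℝ) ≤ (((R - H - 1 : ℕ) : ℝ))⁻¹ := by positivity
      rw [one_div]
      linarith
    have hs2 : ∑ j ∈ Ioc H (R - H - 1), (((R - j : ℕ) : ℝ) ^ 2)⁻¹ =
        ∑ j ∈ Ioc H (R - H - 1), ((j : ℝ) ^ 2)⁻¹ := by
      refine sum_nbij' (fun j => R - j) (fun j => R - j) ?_ ?_ ?_ ?_ ?_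
      · intro j hj
        rw [mem_Ioc] at hj ⊢
        omega
      · intro j hj
        rw [mem_Ioc] at hj ⊢
        omega
      · intro j hj
        rw [mem_Ioc] at hj
        show R - (R - j) = j
        omega
      · intro j hj
        rw [mem_Ioc] at hj
        show R - (R - j) = j
        omega
      · intro j _
        rfl
    have hs : ‖∑ j ∈ Ioc H (R - H - 1), F (j : ℤ)‖ ≤ (R : ℝ) ^ 2 / 4 * (2 / H) := by
      refine (norm_sum_le _ _).trans ((sum_le_sum hterm).trans ?_)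
      rw [← Finset.mul_sum, sum_add_distrib, hs2]
      refine mul_le_mul_of_nonneg_left ?_ (by positivity)
      have : (2 : ℝ) / H = 1 / H + 1 / H := by ring
      rw [this]
      linarith
    calc 1 / (R : ℝ) * ‖∑ j ∈ Ioc H (R - H - 1), F (j : ℤ)‖
        ≤ 1 / (R : ℝ) * ((R : ℝ) ^ 2 / 4 * (2 / H)) :=
          mul_le_mul_of_nonneg_left hs (by positivity)
      _ = (1 / 2) * (R / H) := by field_simp; norm_num
      _ ≤ 1 * (R / H) := mul_le_mul_of_nonneg_right (by norm_num) (by positivity)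
  exact hgoal

end Pool.Agent.PS
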