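import Pool.Agent.Work.PS.Interface
import Pool.Agent.Work.PS.MT

/-!
# Block LOW, part 1: lower bound for the major arcs
-/

set_option autoImplicit false

namespace Pool.Agent.PS

open Finset
open Pool.Agent.BV (PC)
open Pool.Agent.Circle (e e_add e_int e_nat norm_e sing)
open scoped Classical

namespace LOW

/-! ### elementary facts -/

lemma prod_cube_le (s : Finset ℕ) (hs : ∀ p ∈ s, p.Prime) :
    (∏ p ∈ s, p) ^ 3 ≤ (if 2 ∈ s then 8 else 1) * (if 3 ∈ s then 2 else 1)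
      * (∏ p ∈ s, (p - 1)) ^ 4 := by
  induction s using Finset.induction_on with
  | empty => simp
  | insert p s hps ih =>
    have ih' := ih fun p' hp' => hs p' (mem_insert_of_mem hp')
    rw [prod_insert hps, prod_insert hps]
    have hpp := hs p (mem_insert_self p s)
    have hp2 := hpp.two_le
    by_cases h2 : p = 2
    · subst h2
      rw [if_neg hps] at ih'
      rw [if_pos (mem_insert_self 2 s)]
      have h3 : (if 3 ∈ insert 2 s then 2 else 1) = (if 3 ∈ s then 2 else 1) := by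
        have : 3 ∈ insert 2 s ↔ 3 ∈ s := by simp
        simp only [this]
      rw [h3]
      calc (2 * ∏ p ∈ s, p) ^ 3 = 8 * (∏ p ∈ s, p) ^ 3 := by ring
        _ ≤ 8 * (1 * (if 3 ∈ s then 2 else 1) * (∏ p ∈ s, (p - 1)) ^ 4) :=
            Nat.mul_le_mul_left 8 ih'
        _ = _ := by ring
    have h2' : (if 2 ∈ insert p s then 8 else 1) = (if 2 ∈ s then 8 else 1) := by
      have : 2 ∈ insert p s ↔ 2 ∈ s := by
        rw [mem_insert]
        constructor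
        · rintro (h | h)
          · exact absurd h.symm h2
          · exact h
        · exact Or.inr
      simp only [this]
    rw [h2']
    by_cases h3 : p = 3
    · subst h3
      rw [if_neg hps] at ih'
      rw [if_pos (mem_insert_self 3 s)]
      calc (3 * ∏ p ∈ s, p) ^ 3 = 27 * (∏ p ∈ s, p) ^ 3 := by ring
        _ ≤ 27 * ((if 2 ∈ s then 8 else 1) * 1 * (∏ p ∈ s, (p - 1)) ^ 4) :=
            Nat.mul_le_mul_left 27 ih'
        _ ≤ 32 * ((if 2 ∈ s then 8 else 1) * 1 * (∏ p ∈ s, (p - 1)) ^ 4) :=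
            Nat.mul_le_mul_right _ (by norm_num)
        _ = _ := by ring
    have h3' : (if 3 ∈ insert p s then 2 else 1) = (if 3 ∈ s then 2 else 1) := by
      have : 3 ∈ insert p s ↔ 3 ∈ s := by
        rw [mem_insert]
        constructor
        · rintro (h | h)
          · exact absurd h.symm h3
          · exact h
        · exact Or.inr
      simp only [this]
    rw [h3']
    have h4 : p ≠ 4 := by
      rintro rfl
      exact absurd hpp (by norm_num)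
    have h7 : p ^ 3 ≤ (p - 1) ^ 4 := by
      obtain ⟨k, rfl⟩ : ∃ k, p = k + 5 := ⟨p - 5, by omega⟩
      have : k + 5 - 1 = k + 4 := by omega
      rw [this]
      nlinarith [Nat.zero_le k, Nat.zero_le (k ^ 2), Nat.zero_le (k ^ 3), Nat.zero_le (k ^ 4)]
    calc (p * ∏ p ∈ s, p) ^ 3 = p ^ 3 * (∏ p ∈ s, p) ^ 3 := by ring
      _ ≤ (p - 1) ^ 4 * ((if 2 ∈ s then 8 else 1) * (if 3 ∈ s then 2 else 1)
            * (∏ p ∈ s, (p - 1)) ^ 4) := Nat.mul_le_mul h7 ih'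
      _ = _ := by ring

lemma cube_le_totient (r : ℕ) (hr : 0 < r) : r ^ 3 ≤ 16 * r.totient ^ 4 := by
  have h1 := Nat.totient_mul_prod_primeFactors r
  have h2 := prod_cube_le r.primeFactors fun p hp => Nat.prime_of_mem_primeFactors hp
  set A := ∏ p ∈ r.primeFactors, p with hA
  set B := ∏ p ∈ r.primeFactors, (p - 1) with hB
  have hAr : A ≤ r := Nat.le_of_dvd hr (Nat.prod_primeFactors_dvd r)
  have hA0 : 0 < A := Finset.prod_pos fun p hp => (Nat.prime_of_mem_primeFactors hp).pos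
  have h3 : A ^ 3 ≤ 16 * B ^ 4 := by
    refine h2.trans (Nat.mul_le_mul_right _ ?_)
    split_ifs <;> norm_num
  have h4 : r ^ 3 * A ^ 4 ≤ 16 * r.totient ^ 4 * A ^ 4 := by
    calc r ^ 3 * A ^ 4 = r ^ 3 * (A * A ^ 3) := by ring
      _ ≤ r ^ 3 * (r * (16 * B ^ 4)) := Nat.mul_le_mul_left _ (Nat.mul_le_mul hAr h3)
      _ = 16 * (r * B) ^ 4 := by ring
      _ = 16 * (r.totient * A) ^ 4 := by rw [h1]
      _ = _ := by ring
  exact Nat.le_of_mul_le_mul_right h4 (by positivity)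

lemma div_totient_sq_le (r : ℕ) (hr : 0 < r) :
    (r : ℝ) / (r.totient : ℝ) ^ 2 ≤ 4 * (r : ℝ) ^ (-(1 / 2) : ℝ) := by
  have h1 : ((r : ℝ)) ^ 3 ≤ 16 * (r.totient : ℝ) ^ 4 := by exact_mod_cast cube_le_totient r hr
  have hr0 : (0 : ℝ) < r := by exact_mod_cast hr
  have ht0 : (0 : ℝ) < r.totient := by exact_mod_cast Nat.totient_pos.2 hr
  rw [Real.rpow_neg hr0.le, ← Real.sqrt_eq_rpow]
  have hs : 0 < √(r : ℝ) := Real.sqrt_pos.2 hr0
  have hss : √(r : ℝ) ^ 2 = r := Real.sq_sqrt hr0.le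
  rw [div_le_iff₀ (by positivity), mul_assoc, inv_mul_eq_div, mul_div_assoc', le_div_iff₀ hs]
  -- r * √r ≤ 4 φ²
  apply le_of_sq_le_sq _ (by positivity)
  calc ((r : ℝ) * √(r : ℝ)) ^ 2 = (r : ℝ) ^ 3 := by rw [mul_pow, hss]; ring
    _ ≤ 16 * (r.totient : ℝ) ^ 4 := h1
    _ = (4 * (r.totient : ℝ) ^ 2) ^ 2 := by ring
  where
  le_of_sq_le_sq {a b : ℝ} (h : a ^ 2 ≤ b ^ 2) (hb : 0 ≤ b) : a ≤ b := by
    exact le_of_sq_le_sq' h hb
  le_of_sq_le_sq' {a b : ℝ} (h : a ^ 2 ≤ b ^ 2) (hb : 0 ≤ b) : a ≤ b := by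
    by_contra hc
    push Not at hc
    nlinarith

/-- final inequality -/
lemma final_ineq {F s B J Jt ρ cr er mm c0 c1 κ l X : ℝ} (hc0 : 0 < c0) (hc01 : c0 ≤ 1)
    (hc1 : 0 < c1) (hc11 : c1 ≤ 1) (hκ : κ = c0 * (c1 / 80)) (hmm : 1 ≤ mm) (hF : c0 * mm ≤ F)
    (hl : 0 < l) (hl1 : l ≤ 1) (hX : 0 < X) (hJ : X / 5 ≤ J) (hJX : J ≤ X) (hJt0 : 0 ≤ Jt)
    (hJt : Jt ≤ J * (1 - c1 * l)) (hs : |s - F| ≤ κ * mm * l) (hB0 : 0 ≤ B)
    (hB : B ≤ F + κ * mm * l) (hρ0 : 0 ≤ ρ) (hρ : ρ ≤ κ * l * X) (hcr : cr ≤ κ * mm * l * X)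
    (her : er ≤ κ * mm * l * X) :
    c0 * c1 / 10 * l * X ≤ s * J - |s| * ρ - B * (Jt + ρ) - cr - er := by
  set k : ℝ := c1 / 80 with hk
  have hk0 : 0 < k := by positivity
  have hk1 : k ≤ 1 / 80 := by rw [hk]; linarith
  have hF0 : 0 < F := lt_of_lt_of_le (by positivity) hF
  have hκm : κ * mm ≤ k * F := by
    rw [hκ]
    calc c0 * k * mm = k * (c0 * mm) := by ring
      _ ≤ k * F := mul_le_mul_of_nonneg_left hF hk0.le
  have hκ1 : κ ≤ k := by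
    rw [hκ]
    exact mul_le_of_le_one_left hk0.le hc01
  have hκ0 : 0 < κ := by rw [hκ]; positivity
  have a0 : κ * mm * l ≤ k * F * l := mul_le_mul_of_nonneg_right hκm hl.le
  have a1 : κ * mm * l * X ≤ k * F * l * X := mul_le_mul_of_nonneg_right a0 hX.le
  have a2 : κ * l * X ≤ k * l * X :=
    mul_le_mul_of_nonneg_right (mul_le_mul_of_nonneg_right hκ1 hl.le) hX.le
  have hkl : k * l ≤ 1 / 80 := (mul_le_of_le_one_right hk0.le hl1).trans hk1
  rw [abs_le] at hs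
  have hJ0 : 0 < J := by linarith
  -- s J
  have b1 : F * J - k * F * l * X ≤ s * J := by
    have : (F - k * F * l) * J ≤ s * J := mul_le_mul_of_nonneg_right (by linarith) hJ0.le
    have h2 : k * F * l * J ≤ k * F * l * X := mul_le_mul_of_nonneg_left hJX (by positivity)
    have e : (F - k * F * l) * J = F * J - k * F * l * J := by ring
    linarith
  -- |s| ρ
  have habs : |s| ≤ 2 * F := by
    rw [abs_le]
    have h3 : k * F * l ≤ F := by
      have := mul_le_of_le_one_right hF0.le (hkl.trans (by norm_num : (1 : ℝ) / 80 ≤ 1))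
      linarith
    constructor <;> linarith
  have b2 : |s| * ρ ≤ 2 * (k * F * l * X) := by
    calc |s| * ρ ≤ (2 * F) * (k * l * X) :=
          mul_le_mul habs (hρ.trans a2) hρ0 (by positivity)
      _ = _ := by ring
  -- B
  have hρX : ρ ≤ X := by
    have : k * l * X ≤ 1 * X := mul_le_mul_of_nonneg_right (by linarith) hX.le
    linarith
  have hJtX : Jt ≤ X := by
    have : J * (1 - c1 * l) ≤ J := mul_le_of_le_one_right hJ0.le (by linarith [mul_pos hc1 hl])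
    linarith
  have b3 : B * (Jt + ρ) ≤ F * Jt + 3 * (k * F * l * X) := by
    have h1 : B * (Jt + ρ) ≤ (F + k * F * l) * (Jt + ρ) :=
      mul_le_mul_of_nonneg_right (by linarith) (by linarith)
    have h2 : F * ρ ≤ k * F * l * X := by
      have : F * ρ ≤ F * (k * l * X) := mul_le_mul_of_nonneg_left (hρ.trans a2) hF0.le
      linarith
    have h3 : k * F * l * Jt ≤ k * F * l * X := mul_le_mul_of_nonneg_left hJtX (by positivity)
    have h4 : k * F * l * ρ ≤ k * F * l * X := mul_le_mul_of_nonneg_left hρX (by positivity)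
    have e : (F + k * F * l) * (Jt + ρ) = F * Jt + F * ρ + k * F * l * Jt + k * F * l * ρ := by
      ring
    linarith
  have b4 : F * Jt ≤ F * J - c1 * (F * l * J) := by
    have := mul_le_mul_of_nonneg_left hJt hF0.le
    have e : F * (J * (1 - c1 * l)) = F * J - c1 * (F * l * J) := by ring
    linarith
  have b5 : F * l * (X / 5) ≤ F * l * J := mul_le_mul_of_nonneg_left hJ (by positivity)
  have b6 : c1 * (F * l * (X / 5)) ≤ c1 * (F * l * J) := mul_le_mul_of_nonneg_left b5 hc1.le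
  have b7 : k * F * l * X = c1 / 80 * (F * l * X) := by rw [hk]; ring
  have b8 : c0 * (l * X) ≤ F * (l * X) := by
    refine mul_le_mul_of_nonneg_right ?_ (by positivity)
    exact (le_mul_of_one_le_right hc0.le hmm).trans hF
  have b9 : c1 * (c0 * (l * X)) ≤ c1 * (F * (l * X)) := mul_le_mul_of_nonneg_left b8 hc1.le
  rw [b7] at b1 b2 b3 a1
  linarith

lemma one_sub_exp_ge {v : ℝ} (hv : 0 ≤ v) : v / (1 + v) ≤ 1 - Real.exp (-v) := by
  have h1 : 1 + v ≤ Real.exp v := by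
    have := Real.add_one_le_exp v
    linarith
  have h2 : Real.exp (-v) ≤ 1 / (1 + v) := by
    rw [Real.exp_neg, ← one_div]
    exact one_div_le_one_div_of_le (by linarith) h1
  have h3 : v / (1 + v) = 1 - 1 / (1 + v) := by
    field_simp
    ring
  linarith

lemma pow_saving {X δ : ℝ} (hX : 16 ≤ X) (hδ : 0 < δ) :
    (X / 4) ^ (-δ) ≤ 1 - 1 / 3 * min 1 (δ * Real.log X) := by
  have hX4 : 0 < X / 4 := by linarith
  have hlog : Real.log X / 2 ≤ Real.log (X / 4) := by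
    rw [Real.log_div (by linarith) (by norm_num)]
    have h1 : Real.log 16 ≤ Real.log X := Real.log_le_log (by norm_num) hX
    have h2 : Real.log 16 = 2 * Real.log 4 := by
      have : (16 : ℝ) = 4 ^ 2 := by norm_num
      rw [this, Real.log_pow]
      norm_num
    linarith
  have hlX : 0 ≤ Real.log X := Real.log_nonneg (by linarith)
  rw [Real.rpow_def_of_pos hX4]
  have h1 : Real.log (X / 4) * -δ ≤ -(δ * Real.log X / 2) := by nlinarith
  have h2 := Real.exp_le_exp.2 h1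
  have h3 := one_sub_exp_ge (v := δ * Real.log X / 2) (by positivity)
  have h4 : 1 / 3 * min 1 (δ * Real.log X) ≤ (δ * Real.log X / 2) / (1 + δ * Real.log X / 2) := by
    set u := δ * Real.log X with hu
    have hu0 : 0 ≤ u := by positivity
    rw [le_div_iff₀ (by positivity)]
    rcases le_total 1 u with h | h
    · rw [min_eq_left h]
      linarith
    · rw [min_eq_right h]
      nlinarith
  linarith

/-! ### the bilinear form -/

/-- exponential sum at `i / R` -/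
noncomputable def Ex (R : ℕ) (I : Finset ℕ) (c : ℕ → ℂ) (i : ℤ) : ℂ :=
  ∑ n ∈ I, c n * e (n * ((i : ℝ) / R))

/-- bilinear form over one arc -/
noncomputable def BB (R H : ℕ) (I₁ I₂ : Finset ℕ) (m : ℕ) (c₁ c₂ : ℕ → ℂ) : ℂ :=
  (1 / (R : ℂ)) * ∑ i ∈ Icc (-(H : ℤ)) H, Ex R I₁ c₁ i * Ex R I₂ c₂ i * e (-(m * ((i : ℝ) / R)))

lemma Ex_add (R : ℕ) (I : Finset ℕ) (c d : ℕ → ℂ) (i : ℤ) :
    Ex R I (fun n => c n + d n) i = Ex R I c i + Ex R I d i := by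
  unfold Ex
  rw [← sum_add_distrib]
  exact sum_congr rfl fun n _ => by ring

lemma BB_expand (R H : ℕ) (I₁ I₂ : Finset ℕ) (m : ℕ) (c₁ d₁ c₂ d₂ : ℕ → ℂ) :
    BB R H I₁ I₂ m (fun n => c₁ n + d₁ n) (fun n => c₂ n + d₂ n) =
      BB R H I₁ I₂ m c₁ c₂ + (BB R H I₁ I₂ m c₁ d₂ + BB R H I₁ I₂ m d₁ c₂
        + BB R H I₁ I₂ m d₁ d₂) := by
  unfold BB
  rw [← mul_add, ← mul_add, ← mul_add, ← sum_add_distrib, ← sum_add_distrib, ← sum_add_distrib]
  congr 1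
  refine sum_congr rfl fun i _ => ?_
  rw [Ex_add, Ex_add]
  ring

lemma norm_BB_le (R H : ℕ) (I₁ I₂ : Finset ℕ) (m : ℕ) (c₁ c₂ : ℕ → ℂ) :
    ‖BB R H I₁ I₂ m c₁ c₂‖ ≤ Wn R H I₁ c₁ * Wn R H I₂ c₂ := by
  unfold BB Wn
  have h0 : (0 : ℝ) ≤ 1 / (R : ℝ) := by positivity
  rw [norm_mul, norm_div, norm_one, Complex.norm_natCast, Real.sqrt_mul h0, Real.sqrt_mul h0]
  have h1 : ‖∑ i ∈ Icc (-(H : ℤ)) H, Ex R I₁ c₁ i * Ex R I₂ c₂ i * e (-(m * ((i : ℝ) / R)))‖ ≤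
      ∑ i ∈ Icc (-(H : ℤ)) H, ‖Ex R I₁ c₁ i‖ * ‖Ex R I₂ c₂ i‖ := by
    refine (norm_sum_le _ _).trans (sum_le_sum fun i _ => ?_)
    rw [norm_mul, norm_mul, norm_e, mul_one]
  have h2 := Real.sum_mul_le_sqrt_mul_sqrt (Icc (-(H : ℤ)) H)
    (fun i => ‖Ex R I₁ c₁ i‖) (fun i => ‖Ex R I₂ c₂ i‖)
  have h3 : √(1 / (R : ℝ)) * √(1 / (R : ℝ)) = 1 / (R : ℝ) := Real.mul_self_sqrt h0
  calc 1 / (R : ℝ) * ‖∑ i ∈ Icc (-(H : ℤ)) H, Ex R I₁ c₁ i * Ex R I₂ c₂ i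
          * e (-(m * ((i : ℝ) / R)))‖
      ≤ 1 / (R : ℝ) * (√(∑ i ∈ Icc (-(H : ℤ)) H, ‖Ex R I₁ c₁ i‖ ^ 2) *
          √(∑ i ∈ Icc (-(H : ℤ)) H, ‖Ex R I₂ c₂ i‖ ^ 2)) :=
        mul_le_mul_of_nonneg_left (h1.trans h2) h0
    _ = (√(1 / (R : ℝ)) * √(1 / (R : ℝ))) * (√(∑ i ∈ Icc (-(H : ℤ)) H, ‖Ex R I₁ c₁ i‖ ^ 2) *
          √(∑ i ∈ Icc (-(H : ℤ)) H, ‖Ex R I₂ c₂ i‖ ^ 2)) := by rw [h3]
    _ = _ := by
        unfold Ex
        ring

lemma Wn_nonneg (R H : ℕ) (I : Finset ℕ) (c : ℕ → ℂ) : 0 ≤ Wn R H I c := Real.sqrt_nonneg _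

lemma Wn_zero (R H : ℕ) (I : Finset ℕ) (c : ℕ → ℂ) (h : ∀ n ∈ I, c n = 0) : Wn R H I c = 0 := by
  unfold Wn
  have : ∀ i ∈ Icc (-(H : ℤ)) H, ‖∑ n ∈ I, c n * e (n * ((i : ℝ) / R))‖ ^ 2 = 0 := by
    intro i _
    rw [sum_eq_zero fun n hn => by rw [h n hn, zero_mul], norm_zero]
    norm_num
  rw [sum_eq_zero this, mul_zero, Real.sqrt_zero]

lemma split_real (F : ℤ → ℝ) (R : ℕ) (hper : ∀ i, F (i + R) = F i) (H : ℕ) (hH : 2 * H < R)
    (hF : ∀ i, 0 ≤ F i) : ∑ i ∈ Icc (-(H : ℤ)) H, F i ≤ ∑ j ∈ range R, F (j : ℤ) := by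
  have h1 := MT.split_sum (fun i => (F i : ℂ)) R (fun i => by rw [hper]) H hH
  have h2 : ∑ i ∈ Icc (-(H : ℤ)) H, F i + ∑ j ∈ Ioc H (R - H - 1), F (j : ℤ) =
      ∑ j ∈ range R, F (j : ℤ) := by exact_mod_cast h1
  have h3 : 0 ≤ ∑ j ∈ Ioc H (R - H - 1), F (j : ℤ) := sum_nonneg fun j _ => hF _
  linarith

lemma Wn_le (R H : ℕ) (hH : 2 * H < R) (I : Finset ℕ) (hI : ∀ n ∈ I, n < R) (c : ℕ → ℂ)
    (hc : ∀ n ∈ I, ‖c n‖ ≤ 1) {X : ℝ} (hX : (I.card : ℝ) ≤ X) : Wn R H I c ≤ √X := by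
  unfold Wn
  apply Real.sqrt_le_sqrt
  have hR0 : (0 : ℝ) < R := by exact_mod_cast (by omega : 0 < R)
  have h1 := split_real (fun i => ‖∑ n ∈ I, c n * e (n * ((i : ℝ) / R))‖ ^ 2) R
    (fun i => by
      have e1 : ∀ n : ℕ, e (n * (((i + R : ℤ) : ℝ) / R)) = e (n * ((i : ℝ) / R)) := by
        intro n
        have : (n : ℝ) * (((i + R : ℤ) : ℝ) / R) = n * ((i : ℝ) / R) + n := by
          push_cast
          field_simp
        rw [this, e_add, e_nat, mul_one]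
      simp only [e1]) H hH (fun i => by positivity)
  have h2 := Pool.Agent.Circle.parseval R (by omega) I hI c
  simp only [Int.cast_natCast] at h1
  rw [h2] at h1
  have h3 : ∑ a ∈ I, ‖c a‖ ^ 2 ≤ I.card := by
    calc ∑ a ∈ I, ‖c a‖ ^ 2 ≤ ∑ _a ∈ I, (1 : ℝ) :=
          sum_le_sum fun a ha => pow_le_one₀ (norm_nonneg _) (hc a ha)
      _ = I.card := by simp
  calc 1 / (R : ℝ) * ∑ i ∈ Icc (-(H : ℤ)) H, ‖∑ n ∈ I, c n * e (n * ((i : ℝ) / R))‖ ^ 2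
      ≤ 1 / (R : ℝ) * (R * ∑ a ∈ I, ‖c a‖ ^ 2) := mul_le_mul_of_nonneg_left h1 (by positivity)
    _ = ∑ a ∈ I, ‖c a‖ ^ 2 := by field_simp
    _ ≤ X := h3.trans hX

/-! ### the main term characters -/

lemma mt_of_one (E : Option (Ch × ℝ)) {x : Ch} (hx : x.2 = 1) (n : ℕ) : mt E x n = 1 := by
  unfold mt
  rw [if_pos hx]

lemma norm_mt_le (E : Option (Ch × ℝ)) (hE : ∀ y δ, E = some (y, δ) → 0 < δ) (x : Ch) {n : ℕ}
    (hn : 0 < n) : ‖mt E x n‖ ≤ 1 := by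
  unfold mt
  split_ifs with h
  · simp
  · cases E with
    | none => simp
    | some p =>
      obtain ⟨y, δ⟩ := p
      simp only
      split_ifs with h2
      · rw [norm_neg, Complex.norm_real, Real.norm_eq_abs, abs_of_nonneg (by positivity)]
        have hn1 : (1 : ℝ) ≤ n := by exact_mod_cast hn
        exact Real.rpow_le_one_of_one_le_of_nonpos hn1 (by linarith [hE y δ rfl])
      · simp

/-- the set of characters with a main term -/
noncomputable def TT (E : Option (Ch × ℝ)) : Finset Ch :=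
  match E with
  | none => {One}
  | some (y, _) => {One, y}

lemma card_TT_le (E : Option (Ch × ℝ)) : (TT E).card ≤ 2 := by
  unfold TT
  cases E with
  | none => simp
  | some p => exact card_le_two

lemma eq_One {x : Ch} (hx0 : x.1 ≠ 0) (hp : x.2.IsPrimitive) (h1 : x.2 = 1) : x = One := by
  obtain ⟨q, χ⟩ := x
  change χ = (1 : DirichletCharacter ℂ q) at h1
  subst h1
  simp only at hx0 hp
  haveI : NeZero q := ⟨hx0⟩
  rw [DirichletCharacter.isPrimitive_def, DirichletCharacter.conductor_one] at hp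
  subst hp
  rfl

lemma mt_eq_zero {E : Option (Ch × ℝ)} {x : Ch} (hx0 : x.1 ≠ 0) (hp : x.2.IsPrimitive)
    (hT : x ∉ TT E) (n : ℕ) : mt E x n = 0 := by
  have h1 : x.2 ≠ 1 := by
    intro h
    apply hT
    rw [eq_One hx0 hp h]
    unfold TT
    cases E with
    | none => simp
    | some p => simp
  unfold mt
  rw [if_neg h1]
  cases E with
  | none => rfl
  | some p =>
    obtain ⟨y, δ⟩ := p
    simp only
    rw [if_neg]
    rintro rfl
    apply hT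
    unfold TT
    simp

lemma pr_spec {q : ℕ} (hq : 0 < q) (χ : DirichletCharacter ℂ q) :
    (pr χ).1 ≠ 0 ∧ (pr χ).1 ≤ q ∧ (pr χ).2.IsPrimitive := by
  haveI : NeZero q := ⟨hq.ne'⟩
  unfold pr
  refine ⟨?_, ?_, χ.primitiveCharacter_isPrimitive⟩
  · exact DirichletCharacter.conductor_ne_zero χ
  · exact Nat.le_of_dvd hq χ.conductor_dvd_level

lemma mem_Fam {P : ℕ} {x : Ch} (h : x ∈ Fam P) : x.1 ≠ 0 ∧ x.1 ≤ P ∧ x.2.IsPrimitive := by
  unfold Fam at h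
  rw [Finset.mem_sigma, Finset.mem_Ioc] at h
  obtain ⟨⟨h1, h2⟩, h3⟩ := h
  unfold PC at h3
  rw [Finset.mem_filter] at h3
  exact ⟨by omega, h2, h3.2⟩

lemma BB_zero_left {R H : ℕ} {I₁ I₂ : Finset ℕ} {m : ℕ} {c₁ c₂ : ℕ → ℂ}
    (h : ∀ n ∈ I₁, c₁ n = 0) : BB R H I₁ I₂ m c₁ c₂ = 0 := by
  have := norm_BB_le R H I₁ I₂ m c₁ c₂
  rw [Wn_zero R H I₁ c₁ h, zero_mul] at this
  exact norm_le_zero_iff.1 this

lemma BB_zero_right {R H : ℕ} {I₁ I₂ : Finset ℕ} {m : ℕ} {c₁ c₂ : ℕ → ℂ}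
    (h : ∀ n ∈ I₂, c₂ n = 0) : BB R H I₁ I₂ m c₁ c₂ = 0 := by
  have := norm_BB_le R H I₁ I₂ m c₁ c₂
  rw [Wn_zero R H I₂ c₂ h, mul_zero] at this
  exact norm_le_zero_iff.1 this

/-- the main part of the major arcs -/
noncomputable def Mn (P R H : ℕ) (I₁ I₂ : Finset ℕ) (m : ℕ) (E : Option (Ch × ℝ)) : ℂ :=
  ∑ q ∈ Ioc 0 P, ∑ χ : DirichletCharacter ℂ q, ∑ χ' : DirichletCharacter ℂ q,
    Kq χ χ' m * BB R H I₁ I₂ m (mt E (pr χ)) (mt E (pr χ'))

/-- the error coefficients -/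
noncomputable def dd (E : Option (Ch × ℝ)) (x : Ch) (n : ℕ) : ℂ :=
  (th n : ℂ) * x.2 (n : ZMod x.1) - mt E x n

lemma Maj_eq (hMAJ : Stmt_MAJ) (P R H : ℕ) (I₁ I₂ : Finset ℕ) (m : ℕ) (hR : 0 < R)
    (h1 : ∀ n ∈ I₁, P < n) (h2 : ∀ n ∈ I₂, P < n) (E : Option (Ch × ℝ)) :
    Maj P R H I₁ I₂ (fun n => (th n : ℂ)) (fun n => (th n : ℂ)) m = Mn P R H I₁ I₂ m E +
      ∑ q ∈ Ioc 0 P, ∑ χ : DirichletCharacter ℂ q, ∑ χ' : DirichletCharacter ℂ q,
        Kq χ χ' m * (BB R H I₁ I₂ m (mt E (pr χ)) (dd E (pr χ'))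
          + BB R H I₁ I₂ m (dd E (pr χ)) (mt E (pr χ'))
          + BB R H I₁ I₂ m (dd E (pr χ)) (dd E (pr χ'))) := by
  set f : ℕ → ℂ := fun n => if P < n then (th n : ℂ) else 0 with hf
  have hf1 : ∀ n ∈ I₁, f n = th n := fun n hn => by simp only [hf]; rw [if_pos (h1 n hn)]
  have hf2 : ∀ n ∈ I₂, f n = th n := fun n hn => by simp only [hf]; rw [if_pos (h2 n hn)]
  have hcop : ∀ n, f n ≠ 0 → ∀ q, 0 < q → q ≤ P → n.Coprime q := by
    intro n hn q hq hqP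
    simp only [hf] at hn
    have hPn : P < n := by
      by_contra hc
      rw [if_neg hc] at hn
      exact hn rfl
    rw [if_pos hPn] at hn
    have hnp : n.Prime := by
      by_contra hc
      apply hn
      unfold th
      rw [if_neg hc]
      simp
    rw [Nat.Prime.coprime_iff_not_dvd hnp]
    intro hd
    have := Nat.le_of_dvd hq hd
    omega
  have e1 : Maj P R H I₁ I₂ (fun n => (th n : ℂ)) (fun n => (th n : ℂ)) m =
      Maj P R H I₁ I₂ f f m := by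
    unfold Maj
    congr 1
    refine sum_congr rfl fun q _ => sum_congr rfl fun a _ => sum_congr rfl fun i _ => ?_
    have a1 : ∑ n ∈ I₁, (th n : ℂ) * e (n * ((a : ℝ) / q + (i : ℝ) / R)) =
        ∑ n ∈ I₁, f n * e (n * ((a : ℝ) / q + (i : ℝ) / R)) :=
      sum_congr rfl fun n hn => by rw [hf1 n hn]
    have a2 : ∑ n ∈ I₂, (th n : ℂ) * e (n * ((a : ℝ) / q + (i : ℝ) / R)) =
        ∑ n ∈ I₂, f n * e (n * ((a : ℝ) / q + (i : ℝ) / R)) :=
      sum_congr rfl fun n hn => by rw [hf2 n hn]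
    rw [a1, a2]
  rw [e1, hMAJ P R H I₁ I₂ f f hR hcop hcop m]
  unfold Mn
  rw [← sum_add_distrib]
  refine sum_congr rfl fun q _ => ?_
  rw [← sum_add_distrib]
  refine sum_congr rfl fun χ _ => ?_
  rw [← sum_add_distrib]
  refine sum_congr rfl fun χ' _ => ?_
  rw [← mul_add]
  congr 1
  have e2 : Tx R H I₁ I₂ f f m (pr χ) (pr χ') =
      BB R H I₁ I₂ m (fun n => mt E (pr χ) n + dd E (pr χ) n)
        (fun n => mt E (pr χ') n + dd E (pr χ') n) := by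
    unfold Tx BB
    congr 1
    refine sum_congr rfl fun i _ => ?_
    congr 2
    · unfold Sx Ex
      refine sum_congr rfl fun n hn => ?_
      rw [hf1 n hn]
      unfold dd
      ring
    · unfold Sx Ex
      refine sum_congr rfl fun n hn => ?_
      rw [hf2 n hn]
      unfold dd
      ring
  rw [e2]
  exact BB_expand R H I₁ I₂ m (mt E (pr χ)) (dd E (pr χ)) (mt E (pr χ')) (dd E (pr χ'))

/-- the error terms -/
lemma err_le {CK : ℝ} (hKSUM : ∀ P m : ℕ, 0 < m → ∀ f g : Ch → ℝ,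
      (∀ x, 0 ≤ f x) → (∀ x, 0 ≤ g x) →
      ∑ q ∈ Ioc 0 P, ∑ χ : DirichletCharacter ℂ q, ∑ χ' : DirichletCharacter ℂ q,
          ‖Kq χ χ' m‖ * f (pr χ) * g (pr χ')
        ≤ CK * ((m : ℝ) / m.totient) * (∑ x ∈ Fam P, f x) * ∑ x ∈ Fam P, g x)
    (P R H : ℕ) (I₁ I₂ : Finset ℕ) (m : ℕ) (hm : 0 < m) (hH : 2 * H < R)
    (h1 : ∀ n ∈ I₁, 0 < n ∧ n < R) (h2 : ∀ n ∈ I₂, 0 < n ∧ n < R)
    (E : Option (Ch × ℝ)) (hE : ∀ y δ, E = some (y, δ) → 0 < δ) {X D : ℝ} (hCK : 0 < CK)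
    (hc1 : (I₁.card : ℝ) ≤ X) (hc2 : (I₂.card : ℝ) ≤ X)
    (hD : 0 ≤ D)
    (hd1 : ∑ x ∈ Fam P, Wn R H I₁ (dd E x) ≤ D) (hd2 : ∑ x ∈ Fam P, Wn R H I₂ (dd E x) ≤ D) :
    ‖∑ q ∈ Ioc 0 P, ∑ χ : DirichletCharacter ℂ q, ∑ χ' : DirichletCharacter ℂ q,
        Kq χ χ' m * (BB R H I₁ I₂ m (mt E (pr χ)) (dd E (pr χ'))
          + BB R H I₁ I₂ m (dd E (pr χ)) (mt E (pr χ'))
          + BB R H I₁ I₂ m (dd E (pr χ)) (dd E (pr χ')))‖ ≤
      CK * ((m : ℝ) / m.totient) * (4 * √X * D + D ^ 2) := by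
  have hA : ∀ I : Finset ℕ, (∀ n ∈ I, 0 < n ∧ n < R) → (I.card : ℝ) ≤ X →
      ∑ x ∈ Fam P, Wn R H I (mt E x) ≤ 2 * √X := by
    intro I hI hc
    have h3 : ∀ x ∈ Fam P, Wn R H I (mt E x) ≤ if x ∈ TT E then √X else 0 := by
      intro x hx
      obtain ⟨hx0, -, hxp⟩ := mem_Fam hx
      split_ifs with h
      · exact Wn_le R H hH I (fun n hn => (hI n hn).2) _
          (fun n hn => norm_mt_le E hE x (hI n hn).1) hc
      · rw [Wn_zero R H I _ fun n _ => mt_eq_zero hx0 hxp h n]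
    refine (sum_le_sum h3).trans ?_
    rw [← sum_filter, sum_const, nsmul_eq_mul]
    have h4 : (((Fam P).filter fun x => x ∈ TT E).card : ℝ) ≤ 2 := by
      have h5 : ((Fam P).filter fun x => x ∈ TT E) ⊆ TT E := fun x hx => (mem_filter.1 hx).2
      exact_mod_cast (card_le_card h5).trans (card_TT_le E)
    exact mul_le_mul_of_nonneg_right h4 (Real.sqrt_nonneg _)
  have hA1 := hA I₁ h1 hc1
  have hA2 := hA I₂ h2 hc2
  have hmm : 0 ≤ CK * ((m : ℝ) / m.totient) := by positivity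
  have hterm : ∀ q ∈ Ioc 0 P, ∀ χ : DirichletCharacter ℂ q, ∀ χ' : DirichletCharacter ℂ q,
      ‖Kq χ χ' m * (BB R H I₁ I₂ m (mt E (pr χ)) (dd E (pr χ'))
          + BB R H I₁ I₂ m (dd E (pr χ)) (mt E (pr χ'))
          + BB R H I₁ I₂ m (dd E (pr χ)) (dd E (pr χ')))‖ ≤
      ‖Kq χ χ' m‖ * Wn R H I₁ (mt E (pr χ)) * Wn R H I₂ (dd E (pr χ'))
        + ‖Kq χ χ' m‖ * Wn R H I₁ (dd E (pr χ)) * Wn R H I₂ (mt E (pr χ'))
        + ‖Kq χ χ' m‖ * Wn R H I₁ (dd E (pr χ)) * Wn R H I₂ (dd E (pr χ')) := by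
    intro q _ χ χ'
    rw [norm_mul]
    have k1 := norm_BB_le R H I₁ I₂ m (mt E (pr χ)) (dd E (pr χ'))
    have k2 := norm_BB_le R H I₁ I₂ m (dd E (pr χ)) (mt E (pr χ'))
    have k3 := norm_BB_le R H I₁ I₂ m (dd E (pr χ)) (dd E (pr χ'))
    have k4 : ‖BB R H I₁ I₂ m (mt E (pr χ)) (dd E (pr χ'))
          + BB R H I₁ I₂ m (dd E (pr χ)) (mt E (pr χ'))
          + BB R H I₁ I₂ m (dd E (pr χ)) (dd E (pr χ'))‖ ≤
        Wn R H I₁ (mt E (pr χ)) * Wn R H I₂ (dd E (pr χ'))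
        + Wn R H I₁ (dd E (pr χ)) * Wn R H I₂ (mt E (pr χ'))
        + Wn R H I₁ (dd E (pr χ)) * Wn R H I₂ (dd E (pr χ')) :=
      (norm_add_le _ _).trans (add_le_add ((norm_add_le _ _).trans (add_le_add k1 k2)) k3)
    refine (mul_le_mul_of_nonneg_left k4 (norm_nonneg _)).trans (le_of_eq ?_)
    ring
  have hs1 := hKSUM P m hm (fun x => Wn R H I₁ (mt E x)) (fun x => Wn R H I₂ (dd E x))
    (fun x => Wn_nonneg _ _ _ _) (fun x => Wn_nonneg _ _ _ _)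
  have hs2 := hKSUM P m hm (fun x => Wn R H I₁ (dd E x)) (fun x => Wn R H I₂ (mt E x))
    (fun x => Wn_nonneg _ _ _ _) (fun x => Wn_nonneg _ _ _ _)
  have hs3 := hKSUM P m hm (fun x => Wn R H I₁ (dd E x)) (fun x => Wn R H I₂ (dd E x))
    (fun x => Wn_nonneg _ _ _ _) (fun x => Wn_nonneg _ _ _ _)
  have hn : ∀ (I : Finset ℕ) (F : Ch → ℕ → ℂ), 0 ≤ ∑ x ∈ Fam P, Wn R H I (F x) :=
    fun I F => sum_nonneg fun x _ => Wn_nonneg _ _ _ _
  have t1 : ∑ q ∈ Ioc 0 P, ∑ χ : DirichletCharacter ℂ q, ∑ χ' : DirichletCharacter ℂ q,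
      (‖Kq χ χ' m‖ * Wn R H I₁ (mt E (pr χ)) * Wn R H I₂ (dd E (pr χ'))
        + ‖Kq χ χ' m‖ * Wn R H I₁ (dd E (pr χ)) * Wn R H I₂ (mt E (pr χ'))
        + ‖Kq χ χ' m‖ * Wn R H I₁ (dd E (pr χ)) * Wn R H I₂ (dd E (pr χ'))) ≤
      CK * ((m : ℝ) / m.totient) * (4 * √X * D + D ^ 2) := by
    simp only [sum_add_distrib]
    have u1 : CK * ((m : ℝ) / m.totient) * (∑ x ∈ Fam P, Wn R H I₁ (mt E x)) *
        ∑ x ∈ Fam P, Wn R H I₂ (dd E x) ≤ CK * ((m : ℝ) / m.totient) * (2 * √X) * D := by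
      refine mul_le_mul (mul_le_mul_of_nonneg_left hA1 hmm) hd2 (hn _ _) (by positivity)
    have u2 : CK * ((m : ℝ) / m.totient) * (∑ x ∈ Fam P, Wn R H I₁ (dd E x)) *
        ∑ x ∈ Fam P, Wn R H I₂ (mt E x) ≤ CK * ((m : ℝ) / m.totient) * D * (2 * √X) := by
      refine mul_le_mul (mul_le_mul_of_nonneg_left hd1 hmm) hA2 (hn _ _) (by positivity)
    have u3 : CK * ((m : ℝ) / m.totient) * (∑ x ∈ Fam P, Wn R H I₁ (dd E x)) *
        ∑ x ∈ Fam P, Wn R H I₂ (dd E x) ≤ CK * ((m : ℝ) / m.totient) * D * D := by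
      refine mul_le_mul (mul_le_mul_of_nonneg_left hd1 hmm) hd2 (hn _ _) (by positivity)
    have e : CK * ((m : ℝ) / m.totient) * (4 * √X * D + D ^ 2) =
        CK * ((m : ℝ) / m.totient) * (2 * √X) * D + CK * ((m : ℝ) / m.totient) * D * (2 * √X)
          + CK * ((m : ℝ) / m.totient) * D * D := by ring
    rw [e]
    exact add_le_add (add_le_add (hs1.trans u1) (hs2.trans u2)) (hs3.trans u3)
  refine le_trans ?_ t1
  refine (norm_sum_le _ _).trans (sum_le_sum fun q hq => ?_)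
  refine (norm_sum_le _ _).trans (sum_le_sum fun χ _ => ?_)
  exact (norm_sum_le _ _).trans (sum_le_sum fun χ' _ => hterm q hq χ χ')

end LOW

end Pool.Agent.PS
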