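import Pool.Agent.Work.PS.InterfaceB
import Pool.Agent.Work.PS.LOW1

/-!
# RAD: the conductor of a real character is almost squarefree
-/

set_option autoImplicit false

namespace Pool.Agent.PS

open Finset

namespace Rad

lemma factors {D d : ℕ} [NeZero D] (χ : DirichletCharacter ℂ D) (h2 : χ ^ 2 = 1) (hd : d ∣ D)
    (h : ∀ t : ℕ, ∃ w : ZMod D, w ^ 2 = 1 + (d : ZMod D) * t) : χ.FactorsThrough d := by
  rw [DirichletCharacter.factorsThrough_iff_ker_unitsMap hd]
  intro u hu
  rw [MonoidHom.mem_ker] at hu ⊢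
  -- `u = 1 + d t`
  have h3 : ((u : ZMod D).val : ZMod d) = 1 := by
    have h4 := congrArg (fun v : (ZMod d)ˣ => (v : ZMod d)) hu
    simp only [ZMod.unitsMap_def, Units.coe_map, Units.val_one] at h4
    have h5 : (ZMod.castHom hd (ZMod d)) (u : ZMod D) = (((u : ZMod D).val : ℕ) : ZMod d) := by
      rw [ZMod.castHom_apply, ZMod.cast_eq_val]
    rw [← h5]
    exact h4
  obtain ⟨t, ht⟩ : ∃ t : ℕ, (u : ZMod D) = 1 + (d : ZMod D) * t := by
    have hd0 : 0 < d := Nat.pos_of_dvd_of_pos hd (Nat.pos_of_ne_zero (NeZero.ne D))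
    have h4 : (((u : ZMod D).val + (d - 1) : ℕ) : ZMod d) = 0 := by
      push_cast [Nat.cast_sub hd0]
      rw [h3]
      simp
    rw [ZMod.natCast_eq_zero_iff] at h4
    obtain ⟨k, hk⟩ := h4
    rcases Nat.eq_zero_or_pos k with hk0 | hk0
    · subst hk0
      have : (u : ZMod D).val = 0 := by omega
      have h6 : (u : ZMod D) = 0 := (ZMod.val_eq_zero _).1 this
      refine ⟨0, ?_⟩
      have h7 : IsUnit (0 : ZMod D) := h6 ▸ u.isUnit
      rw [isUnit_zero_iff] at h7
      rw [h6]
      simp [← h7]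
    · refine ⟨k - 1, ?_⟩
      have h6 : (u : ZMod D).val = 1 + d * (k - 1) := by
        obtain ⟨j, rfl⟩ := Nat.exists_eq_add_of_le' hk0
        have e1 : j + Nat.succ 0 - 1 = j := by omega
        have e2 : d * (j + Nat.succ 0) = d * j + d := by ring
        rw [e1]
        omega
      have h7 : (u : ZMod D) = (((u : ZMod D).val : ℕ) : ZMod D) := (ZMod.natCast_zmod_val _).symm
      rw [h7, h6]
      push_cast
      rfl
  obtain ⟨w, hw⟩ := h t
  have hwu : w ^ 2 = (u : ZMod D) := by rw [hw, ht]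
  have hwU : IsUnit w := by
    have : IsUnit (w ^ 2) := hwu ▸ u.isUnit
    exact (isUnit_pow_iff two_ne_zero).1 this
  have h4 : χ (u : ZMod D) = 1 := by
    rw [← hwu, map_pow, ← MulChar.pow_apply' χ two_ne_zero, h2]
    exact MulChar.one_apply hwU
  ext
  rw [MulChar.coe_toUnitHom, h4]
  rfl

lemma not_factors {D d : ℕ} [NeZero D] {χ : DirichletCharacter ℂ D} (hp : χ.IsPrimitive)
    (h : χ.FactorsThrough d) : D ≤ d := by
  have h1 : χ.conductor ≤ d := Nat.sInf_le ((DirichletCharacter.mem_conductorSet_iff χ).2 h)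
  rw [(DirichletCharacter.isPrimitive_def χ).1 hp] at h1
  exact h1

lemma odd_sq {D p : ℕ} [NeZero D] {χ : DirichletCharacter ℂ D} (hp : χ.IsPrimitive)
    (h2 : χ ^ 2 = 1) (hpp : p.Prime) (hodd : p ≠ 2) : ¬ p ^ 2 ∣ D := by
  rintro ⟨k, hk⟩
  have hD0 : 0 < D := Nat.pos_of_ne_zero (NeZero.ne D)
  have hk0 : 0 < k := by
    rcases Nat.eq_zero_or_pos k with h | h
    · subst h; simp at hk; omega
    · exact h
  have hd : p * k ∣ D := ⟨p, by rw [hk]; ring⟩
  have h1 := not_factors hp (factors χ h2 hd fun t => ?_)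
  · have : p * k < D := by
      rw [hk]
      have := hpp.two_le
      nlinarith [Nat.mul_pos hpp.pos hk0]
    omega
  · obtain ⟨j, hj⟩ := hpp.odd_of_ne_two hodd
    refine ⟨1 + ((p * k : ℕ) : ZMod D) * ((t * (j + 1) : ℕ) : ZMod D), ?_⟩
    have hDz : ((p ^ 2 * k : ℕ) : ZMod D) = 0 := by
      rw [← hk]; exact ZMod.natCast_self D
    push_cast at hDz ⊢
    have hpj : (p : ZMod D) = 2 * j + 1 := by
      rw [hj]; push_cast; ring
    have e1 : (1 + (p : ZMod D) * k * (t * (j + 1))) ^ 2
        = 1 + (p : ZMod D) * k * (t * (2 * j + 1 + 1)) + (p ^ 2 * k) * (k * (t * (j + 1)) ^ 2) := by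
      ring
    rw [e1, hDz, zero_mul, add_zero, ← hpj]
    have e2 : (p : ZMod D) * k * (t * (p + 1)) = (p ^ 2 * k) * t + p * k * t := by ring
    rw [e2, hDz, zero_mul, zero_add]

lemma two_pow {D : ℕ} [NeZero D] {χ : DirichletCharacter ℂ D} (hp : χ.IsPrimitive)
    (h2 : χ ^ 2 = 1) : ¬ 16 ∣ D := by
  rintro ⟨k, hk⟩
  have hD0 : 0 < D := Nat.pos_of_ne_zero (NeZero.ne D)
  have hd : 8 * k ∣ D := ⟨2, by rw [hk]; ring⟩
  have h1 := not_factors hp (factors χ h2 hd fun t => ?_)
  · omega
  · refine ⟨1 + ((4 * k : ℕ) : ZMod D) * (t : ZMod D), ?_⟩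
    have hDz : ((16 * k : ℕ) : ZMod D) = 0 := by
      rw [← hk]; exact ZMod.natCast_self D
    push_cast at hDz ⊢
    have e1 : (1 + (4 : ZMod D) * k * t) ^ 2 = 1 + 8 * k * t + (16 * k) * (k * t ^ 2) := by ring
    rw [e1, hDz, zero_mul, add_zero]

end Rad

open Rad in
theorem stmt_RAD : Stmt_RAD := by
  intro Z y δ hexc
  obtain ⟨h0, -, hp⟩ := LOW.mem_Fam hexc.mem
  have : NeZero y.1 := ⟨h0⟩
  set D := y.1 with hD
  have hfac := Nat.prod_factorization_pow_eq_self h0
  rw [Finsupp.prod, Nat.support_factorization, ← prod_filter_mul_prod_filter_not _ (fun p => 5 ≤ p)]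
    at hfac
  have h1 : ∏ p ∈ D.primeFactors.filter (fun p => 5 ≤ p), p ^ D.factorization p ≤ rad5 D := by
    unfold rad5
    refine prod_le_prod' fun p hpm => ?_
    rw [mem_filter] at hpm
    have hpp := Nat.prime_of_mem_primeFactors hpm.1
    have h2 : D.factorization p ≤ 1 := by
      by_contra hcon
      push Not at hcon
      exact odd_sq hp hexc.sq hpp (by omega)
        ((hpp.pow_dvd_iff_le_factorization h0).2 hcon)
    calc p ^ D.factorization p ≤ p ^ 1 := Nat.pow_le_pow_right hpp.pos h2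
      _ = p := pow_one p
  have h2 : ∏ p ∈ D.primeFactors.filter (fun p => ¬ 5 ≤ p), p ^ D.factorization p ≤ 24 := by
    apply Nat.le_of_dvd (by norm_num)
    have hsub : D.primeFactors.filter (fun p => ¬ 5 ≤ p) ⊆ {2, 3} := by
      intro p hpm
      rw [mem_filter] at hpm
      have hpp := Nat.prime_of_mem_primeFactors hpm.1
      have h5 : p < 5 := not_le.1 hpm.2
      have h6 := hpp.two_le
      interval_cases p
      · simp
      · simp
      · exact absurd hpp (by norm_num)
    have h3 : ∏ p ∈ D.primeFactors.filter (fun p => ¬ 5 ≤ p), p ^ D.factorization p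
        ∣ ∏ p ∈ D.primeFactors.filter (fun p => ¬ 5 ≤ p), (if p = 2 then 8 else 3) := by
      refine prod_dvd_prod_of_dvd _ _ fun p hpm => ?_
      have hpm' := hsub hpm
      rw [mem_filter] at hpm
      have hpp := Nat.prime_of_mem_primeFactors hpm.1
      rw [mem_insert, mem_singleton] at hpm'
      rcases hpm' with rfl | rfl
      · have h4 : D.factorization 2 ≤ 3 := by
          by_contra hcon
          push Not at hcon
          exact two_pow hp hexc.sq
            ((Nat.prime_two.pow_dvd_iff_le_factorization h0 (k := 4)).2 hcon)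
        rw [if_pos rfl]
        calc 2 ^ D.factorization 2 ∣ 2 ^ 3 := pow_dvd_pow 2 h4
          _ = 8 := by norm_num
      · have h4 : D.factorization 3 ≤ 1 := by
          by_contra hcon
          push Not at hcon
          exact odd_sq hp hexc.sq hpp (by norm_num)
            ((hpp.pow_dvd_iff_le_factorization h0).2 hcon)
        rw [if_neg (by norm_num)]
        calc 3 ^ D.factorization 3 ∣ 3 ^ 1 := pow_dvd_pow 3 h4
          _ = 3 := by norm_num
    refine h3.trans ((prod_dvd_prod_of_subset _ _ _ hsub).trans ?_)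
    rw [prod_insert (by simp), prod_singleton, if_pos rfl, if_neg (by norm_num)]
    norm_num
  calc D = (∏ p ∈ D.primeFactors.filter (fun p => 5 ≤ p), p ^ D.factorization p) *
        ∏ p ∈ D.primeFactors.filter (fun p => ¬ 5 ≤ p), p ^ D.factorization p := hfac.symm
    _ ≤ rad5 D * 24 := Nat.mul_le_mul h1 h2
    _ = 24 * rad5 D := by ring

end Pool.Agent.PS
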