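import Pool.Agent.Work.PS.Interface
import Pool.Agent.Work.Circle.SingLower

/-!
SING: the singular series and its twist.
-/

set_option autoImplicit false

namespace Pool.Agent.PS

open Finset ArithmeticFunction
open Pool.Agent.Circle (sing rsum Fs Fs_apply Fs_mult Fs_prime Fs_mul Fs_one Gs Gs_apply prod_eq
  euler_bound rsum_mul rsum_one)
open scoped ArithmeticFunction.Moebius

/-- Values at prime powers of Ramanujan's sum. -/
theorem rsum_prime_pow (m p a : ℕ) (hp : p.Prime) :
    rsum m (p ^ (a + 1)) = (if p ^ (a + 1) ∣ m then ((p ^ (a + 1) : ℕ) : ℤ) else 0) -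
      (if p ^ a ∣ m then ((p ^ a : ℕ) : ℤ) else 0) := by
  unfold rsum
  rw [Nat.sum_divisors_prime_pow hp, sum_range_succ, sum_range_succ]
  have h0 : ∑ x ∈ range a, (if p ^ x ∣ m then ((p ^ x : ℕ) : ℤ) * μ (p ^ (a + 1) / p ^ x) else 0)
      = 0 := by
    refine sum_eq_zero fun x hx => ?_
    rw [mem_range] at hx
    have h1 : p ^ (a + 1) / p ^ x = p ^ (a + 1 - x) := Nat.pow_div (by omega) hp.pos
    have h2 : μ (p ^ (a + 1 - x)) = 0 := by
      rw [moebius_apply_prime_pow hp (by omega), if_neg (by omega)]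
    rw [h1, h2, mul_zero, ite_self]
  have h3 : p ^ (a + 1) / p ^ a = p := by
    rw [Nat.pow_div (by omega) hp.pos]; simp
  have h4 : p ^ (a + 1) / p ^ (a + 1) = 1 := Nat.div_self (pow_pos hp.pos _)
  rw [h0, h3, h4, moebius_apply_prime hp, moebius_apply_one, zero_add]
  split_ifs <;> simp
  ring

/-- The local factor. -/
noncomputable def up (m p : ℕ) : ℝ := 1 + Fs m p

theorem up_dvd {m p : ℕ} (hp : p.Prime) (h : p ∣ m) : up m p = (p : ℝ) / (p - 1) := by
  have h2 : (2 : ℝ) ≤ p := by exact_mod_cast hp.two_le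
  have : (p : ℝ) - 1 ≠ 0 := by linarith
  rw [up, Fs_prime m p hp, if_pos h]
  field_simp
  ring

theorem up_not {m p : ℕ} (hp : p.Prime) (h : ¬ p ∣ m) :
    up m p = 1 - 1 / ((p : ℝ) - 1) ^ 2 := by
  rw [up, Fs_prime m p hp, if_neg h]
  ring

theorem three_le {m p : ℕ} (hm : Even m) (hp : p.Prime) (h : ¬ p ∣ m) : (3 : ℝ) ≤ p := by
  have h1 : p ≠ 2 := by
    rintro rfl
    exact h hm.two_dvd
  have := hp.two_le
  exact_mod_cast (by omega : 3 ≤ p)

theorem up_not_le {m p : ℕ} (hp : p.Prime) (h : ¬ p ∣ m) : up m p ≤ 1 := by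
  rw [up_not hp h]
  have : 0 ≤ 1 / ((p : ℝ) - 1) ^ 2 := by positivity
  linarith

theorem up_pos {m p : ℕ} (hm : Even m) (hp : p.Prime) : 0 < up m p := by
  by_cases h : p ∣ m
  · have h2 : (2 : ℝ) ≤ p := by exact_mod_cast hp.two_le
    rw [up_dvd hp h]
    exact div_pos (by linarith) (by linarith)
  · have h3 := three_le hm hp h
    rw [up_not hp h]
    have h1 : 1 / ((p : ℝ) - 1) ^ 2 < 1 := by
      rw [div_lt_one (by nlinarith)]
      nlinarith
    linarith

/-- `|r c_r(m)| / φ(r)²` -/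
noncomputable def Ts (m : ℕ) : ArithmeticFunction ℝ :=
  ⟨fun r => (r : ℝ) * |(rsum m r : ℝ)| / (r.totient : ℝ) ^ 2, by simp⟩

theorem Ts_apply (m r : ℕ) : Ts m r = (r : ℝ) * |(rsum m r : ℝ)| / (r.totient : ℝ) ^ 2 := rfl

theorem Ts_mult (m : ℕ) : (Ts m).IsMultiplicative := by
  rw [IsMultiplicative.iff_ne_zero]
  refine ⟨by rw [Ts_apply, rsum_one]; simp, fun {a b} _ _ hab => ?_⟩
  rw [Ts_apply, Ts_apply, Ts_apply, rsum_mul m a b hab, Nat.totient_mul hab]
  push_cast
  rw [abs_mul, mul_pow, div_mul_div_comm]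
  ring

theorem Ts_prime_pow {m p a : ℕ} (hm : Even m) (hp : p.Prime) :
    Ts m (p ^ (a + 1)) ≤ up m p := by
  have h2 : (2 : ℝ) ≤ p := by exact_mod_cast hp.two_le
  have hp0 : (0 : ℝ) < p := by linarith
  have hp1 : (0 : ℝ) < (p : ℝ) - 1 := by linarith
  have hpa : (0 : ℝ) < (p : ℝ) ^ a := by positivity
  rw [Ts_apply, rsum_prime_pow m p a hp, Nat.totient_prime_pow_succ hp]
  push_cast [Nat.cast_sub hp.one_le]
  by_cases h1 : p ^ (a + 1) ∣ m
  · have hpm : p ∣ m := (dvd_pow_self p (by omega)).trans h1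
    have h3 : p ^ a ∣ m := (pow_dvd_pow p (by omega)).trans h1
    rw [if_pos h1, if_pos h3, up_dvd hp hpm]
    have h4 : |(p : ℝ) ^ (a + 1) - (p : ℝ) ^ a| = (p : ℝ) ^ a * (p - 1) := by
      rw [pow_succ, abs_of_nonneg (by nlinarith)]
      ring
    rw [h4, pow_succ]
    apply le_of_eq
    field_simp
  · by_cases h3 : p ^ a ∣ m
    · rw [if_neg h1, if_pos h3, zero_sub, abs_neg, abs_of_pos hpa]
      have h4 : (p : ℝ) ^ (a + 1) * (p : ℝ) ^ a / ((p : ℝ) ^ a * ((p : ℝ) - 1)) ^ 2 =
          (p : ℝ) / (p - 1) ^ 2 := by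
        rw [pow_succ]
        field_simp
      rw [h4]
      by_cases hpm : p ∣ m
      · rw [up_dvd hp hpm]
        apply div_le_div_of_nonneg_left hp0.le hp1
        nlinarith
      · have h5 := three_le hm hp hpm
        rw [up_not hp hpm, div_le_iff₀ (by positivity), sub_mul, div_mul_cancel₀ _ (by positivity)]
        nlinarith
    · rw [if_neg h1, if_neg h3, sub_zero, abs_zero, mul_zero, zero_div]
      exact (up_pos hm hp).le

theorem Ts_le {m r : ℕ} (hm : Even m) (hr : 0 < r) :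
    Ts m r ≤ ∏ p ∈ r.primeFactors, up m p := by
  rw [(Ts_mult m).multiplicative_factorization _ hr.ne', Finsupp.prod, Nat.support_factorization]
  refine prod_le_prod (fun p _ => by rw [Ts_apply]; positivity) fun p hp => ?_
  have hpp := Nat.prime_of_mem_primeFactors hp
  obtain ⟨a, ha⟩ : ∃ a, r.factorization p = a + 1 :=
    ⟨r.factorization p - 1, by
      have := hpp.factorization_pos_of_dvd hr.ne' (Nat.dvd_of_mem_primeFactors hp)
      omega⟩
  rw [ha]
  exact Ts_prime_pow hm hpp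

/-- `m / φ(m)` as a product of local factors. -/
theorem div_totient_eq {m : ℕ} (hm : 0 < m) :
    (m : ℝ) / m.totient = ∏ p ∈ m.primeFactors, up m p := by
  have h1 : (m.totient : ℝ) = m * ∏ p ∈ m.primeFactors, (1 - (p : ℝ)⁻¹) := by
    have := Nat.totient_eq_mul_prod_factors m
    have h2 : ((m.totient : ℚ) : ℝ) = ((m * ∏ p ∈ m.primeFactors, (1 - (p : ℚ)⁻¹) : ℚ) : ℝ) := by
      rw [this]
    push_cast at h2
    exact h2
  have hm0 : (0 : ℝ) < m := by exact_mod_cast hm
  have h3 : ∏ p ∈ m.primeFactors, up m p = (∏ p ∈ m.primeFactors, (1 - (p : ℝ)⁻¹))⁻¹ := by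
    rw [← prod_inv_distrib]
    refine prod_congr rfl fun p hp => ?_
    have hpp := Nat.prime_of_mem_primeFactors hp
    have h2 : (2 : ℝ) ≤ p := by exact_mod_cast hpp.two_le
    rw [up_dvd hpp (Nat.dvd_of_mem_primeFactors hp)]
    have h4 : (1 : ℝ) - (p : ℝ)⁻¹ = (p - 1) / p := by field_simp
    rw [h4, inv_div]
  rw [h1, h3, div_mul_eq_div_div, div_self hm0.ne', one_div]

/-- The product of the local factors over the primes up to `Q`. -/
noncomputable def FF (m Q : ℕ) : ℝ := ∏ k ∈ range (Q + 1), if k.Prime then up m k else 1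

theorem FF_eq (m Q : ℕ) : FF m Q = ∑ d ∈ (primorial Q).divisors, Fs m d :=
  (prod_eq (Fs m) (Fs_mult m) Q).symm

/-- A product over prime factors as a product over an interval. -/
theorem prod_primeFactors_eq (f : ℕ → ℝ) {r Q : ℕ} (hr : 0 < r) (hQ : r ≤ Q) :
    ∏ p ∈ r.primeFactors, f p =
      ∏ k ∈ range (Q + 1), if k.Prime ∧ k ∣ r then f k else 1 := by
  rw [← prod_filter]
  refine prod_congr ?_ fun _ _ => rfl
  ext p
  rw [mem_filter, mem_range, Nat.mem_primeFactors]
  constructor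
  · rintro ⟨h1, h2, _⟩
    exact ⟨by have := Nat.le_of_dvd hr h2; omega, h1, h2⟩
  · rintro ⟨_, h1, h2⟩
    exact ⟨h1, h2, hr.ne'⟩

theorem half_le_prod (m : ℕ) (hm : Even m) (Q : ℕ) :
    1 / 2 ≤ ∏ k ∈ range (Q + 1), if k.Prime ∧ ¬ k ∣ m then up m k else 1 := by
  have key : ∀ Q : ℕ, 2 ≤ Q → (Q : ℝ) / (2 * (Q - 1)) ≤
      ∏ k ∈ range (Q + 1), if k.Prime ∧ ¬ k ∣ m then up m k else 1 := by
    intro Q hQ
    induction Q, hQ using Nat.le_induction with
    | base =>
      rw [prod_range_succ, prod_range_succ, prod_range_succ, prod_range_zero,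
        if_neg (fun h => Nat.not_prime_zero h.1), if_neg (fun h => Nat.not_prime_one h.1),
        if_neg (fun h => h.2 hm.two_dvd)]
      norm_num
    | succ Q hQ ih =>
      rw [prod_range_succ]
      have hQr : (2 : ℝ) ≤ Q := by exact_mod_cast hQ
      have h1 : (0 : ℝ) < (Q : ℝ) - 1 := by linarith
      have h3 : 1 - 1 / (Q : ℝ) ^ 2 ≤
          if (Q + 1).Prime ∧ ¬ (Q + 1) ∣ m then up m (Q + 1) else 1 := by
        split_ifs with hp
        · rw [up_not hp.1 hp.2]
          push_cast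
          rw [add_sub_cancel_right]
        · have : 0 ≤ 1 / (Q : ℝ) ^ 2 := by positivity
          linarith
      have h4 : 0 ≤ 1 - 1 / (Q : ℝ) ^ 2 := by
        rw [sub_nonneg, div_le_one (by positivity)]
        nlinarith
      have h5 : ((Q + 1 : ℕ) : ℝ) / (2 * ((Q + 1 : ℕ) - 1)) =
          (Q : ℝ) / (2 * (Q - 1)) * (1 - 1 / (Q : ℝ) ^ 2) := by
        push_cast
        rw [add_sub_cancel_right]
        field_simp
        ring
      rw [h5]
      exact mul_le_mul ih h3 h4 (le_trans (by positivity) ih)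
  rcases Nat.lt_or_ge Q 2 with h | h
  · have h1 : ∀ k ∈ range (Q + 1), (if k.Prime ∧ ¬ k ∣ m then up m k else 1) = 1 := by
      intro k hk
      rw [mem_range] at hk
      rw [if_neg]
      rintro ⟨hp, _⟩
      have := hp.two_le
      omega
    rw [prod_congr rfl h1, prod_const_one]
    norm_num
  · refine le_trans ?_ (key Q h)
    have hQr : (2 : ℝ) ≤ Q := by exact_mod_cast h
    rw [div_le_div_iff₀ (by norm_num) (by linarith)]
    linarith

theorem FF_ge {m Q : ℕ} (hm0 : 0 < m) (hm : Even m) (hQ : m ≤ Q) :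
    1 / 2 * ((m : ℝ) / m.totient) ≤ FF m Q := by
  rw [div_totient_eq hm0, prod_primeFactors_eq (up m) hm0 hQ]
  have h1 : FF m Q = (∏ k ∈ range (Q + 1), if k.Prime ∧ ¬ k ∣ m then up m k else 1) *
      ∏ k ∈ range (Q + 1), if k.Prime ∧ k ∣ m then up m k else 1 := by
    rw [← prod_mul_distrib]
    refine prod_congr rfl fun k _ => ?_
    by_cases hp : k.Prime <;> by_cases hd : k ∣ m <;> simp [hp, hd]
  rw [h1]
  refine mul_le_mul_of_nonneg_right (half_le_prod m hm Q) (prod_nonneg fun k _ => ?_)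
  split_ifs with h
  · exact (up_pos hm h.1).le
  · norm_num

/-- Restriction of `Fs` to the integers coprime to `r`. -/
noncomputable def Fr (m r : ℕ) : ArithmeticFunction ℝ :=
  ⟨fun d => if d.Coprime r then Fs m d else 0, by simp⟩

theorem Fr_apply (m r d : ℕ) : Fr m r d = if d.Coprime r then Fs m d else 0 := rfl

theorem Fr_mult (m r : ℕ) : (Fr m r).IsMultiplicative := by
  rw [IsMultiplicative.iff_ne_zero]
  refine ⟨by rw [Fr_apply, if_pos (Nat.coprime_one_left r), Fs_one], fun {a b} _ _ hab => ?_⟩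
  rw [Fr_apply, Fr_apply, Fr_apply]
  by_cases h1 : a.Coprime r
  · by_cases h2 : b.Coprime r
    · rw [if_pos (Nat.Coprime.mul_left h1 h2), if_pos h1, if_pos h2, Fs_mul m a b hab]
    · rw [if_neg (fun h => h2 (Nat.Coprime.coprime_mul_left h)), if_neg h2, mul_zero]
  · rw [if_neg (fun h => h1 (Nat.Coprime.coprime_mul_right h)), if_neg h1, zero_mul]

theorem Fr_sum (m r Q : ℕ) (hr : 0 < r) (hQ : r ≤ Q) :
    (∏ p ∈ r.primeFactors, up m p) * ∑ d ∈ (primorial Q).divisors, Fr m r d = FF m Q := by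
  rw [prod_eq (Fr m r) (Fr_mult m r), prod_primeFactors_eq (up m) hr hQ, ← prod_mul_distrib, FF]
  refine prod_congr rfl fun k _ => ?_
  by_cases hp : k.Prime
  · by_cases hd : k ∣ r
    · have h1 : ¬ k.Coprime r := by
        rw [hp.coprime_iff_not_dvd]
        exact fun h => h hd
      rw [if_pos ⟨hp, hd⟩, if_pos hp, if_pos hp, Fr_apply, if_neg h1, add_zero, mul_one]
    · have h1 : k.Coprime r := (hp.coprime_iff_not_dvd).2 hd
      rw [if_neg (fun h => hd h.2), if_pos hp, if_pos hp, Fr_apply, if_pos h1, one_mul, up]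
  · rw [if_neg (fun h => hp h.1), if_neg hp, if_neg hp, one_mul]

/-- Tail estimate: sums over the squarefree integers up to `B` against sums over the divisors of
the primorial. -/
theorem tail_le {f : ℕ → ℝ} {m Q B : ℕ} {b : ℝ} (hm : 0 < m) (hB : B ≤ Q) (hb : 0 < b)
    (hbB : b < B + 1) (hf0 : ∀ d, ¬ Squarefree d → f d = 0) (hf : ∀ d, |f d| ≤ |Fs m d|) :
    |∑ d ∈ (primorial Q).divisors, f d - ∑ d ∈ Ioc 0 B, f d| ≤
      5 / 4 * Real.exp 8 * (m.divisors.card : ℝ) / √b := by
  have hsb : 0 < √b := Real.sqrt_pos.mpr hb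
  have hsplit := sum_filter_add_sum_filter_not (primorial Q).divisors (fun d => d ≤ B) f
  have h1 : ∑ d ∈ (primorial Q).divisors.filter (fun d => d ≤ B), f d = ∑ d ∈ Ioc 0 B, f d := by
    apply sum_subset
    · intro d hd
      rw [mem_filter] at hd
      rw [mem_Ioc]
      exact ⟨Nat.pos_of_mem_divisors hd.1, hd.2⟩
    · intro d hd hnot
      rw [mem_Ioc] at hd
      apply hf0
      intro hsq
      apply hnot
      rw [mem_filter, Nat.mem_divisors]
      exact ⟨⟨(hsq.dvd_primorial).trans (primorial_dvd_primorial (hd.2.trans hB)),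
        primorial_ne_zero Q⟩, hd.2⟩
  rw [← hsplit, h1, add_sub_cancel_left]
  rw [le_div_iff₀ hsb]
  calc |∑ d ∈ (primorial Q).divisors.filter (fun d => ¬ d ≤ B), f d| * √b
      ≤ (∑ d ∈ (primorial Q).divisors.filter (fun d => ¬ d ≤ B), |f d|) * √b := by
        gcongr
        exact abs_sum_le_sum_abs _ _
    _ = ∑ d ∈ (primorial Q).divisors.filter (fun d => ¬ d ≤ B), |f d| * √b := by rw [sum_mul]
    _ ≤ ∑ d ∈ (primorial Q).divisors.filter (fun d => ¬ d ≤ B), Gs m d := by
        refine sum_le_sum fun d hd => ?_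
        rw [mem_filter] at hd
        rw [Gs_apply, mul_comm]
        have h2 : ((B + 1 : ℕ) : ℝ) ≤ d := by exact_mod_cast not_le.mp hd.2
        push_cast at h2
        have h3 : √b ≤ √(d : ℝ) := Real.sqrt_le_sqrt (by linarith)
        exact mul_le_mul h3 (hf d) (abs_nonneg _) (Real.sqrt_nonneg _)
    _ ≤ ∑ d ∈ (primorial Q).divisors, Gs m d :=
        sum_le_sum_of_subset_of_nonneg (filter_subset _ _) fun d _ _ => by
          rw [Gs_apply]; positivity
    _ ≤ _ := euler_bound m Q hm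

theorem Fs_not_sqf (m d : ℕ) (h : ¬ Squarefree d) : Fs m d = 0 := by
  rw [Fs_apply, moebius_eq_zero_of_not_squarefree h]
  simp

theorem Bs_eq (r P m : ℕ) : Bs r P m = ((r : ℝ) * rsum m r / (r.totient : ℝ) ^ 2) *
    ∑ k ∈ Ioc 0 (P / r), Fr m r k := by
  rw [Bs, sum_filter]
  rfl

theorem stmt_SING : Stmt_SING := by
  refine ⟨1 / 2, 5 / 4 * Real.exp 8, by norm_num, by positivity, ?_⟩
  intro P m r hP hm hev hr hrP
  set Q := max P m with hQ
  have hPQ : P ≤ Q := le_max_left _ _
  have hmQ : m ≤ Q := le_max_right _ _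
  have hPr : (0 : ℝ) < P := by exact_mod_cast hP
  have hrr : (0 : ℝ) < r := by exact_mod_cast hr
  refine ⟨FF m Q, FF_ge hm hev hmQ, ?_, ?_⟩
  · have h1 := tail_le (f := fun d => Fs m d) (b := P) hm hPQ hPr (by linarith)
      (fun d hd => Fs_not_sqf m d hd) (fun d => le_rfl)
    rw [← FF_eq, abs_sub_comm] at h1
    exact h1
  · have hb : (0 : ℝ) < (P : ℝ) / r := by positivity
    have hbB : (P : ℝ) / r < ((P / r : ℕ) : ℝ) + 1 := by
      rw [div_lt_iff₀ hrr]
      have := Nat.lt_div_mul_add hr (a := P)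
      have h2 : P < (P / r + 1) * r := by linarith [Nat.lt_div_mul_add hr (a := P)]
      exact_mod_cast h2
    have h1 := tail_le (f := fun d => Fr m r d) (b := (P : ℝ) / r) hm
      ((Nat.div_le_self P r).trans hPQ) hb hbB
      (fun d hd => by
        show Fr m r d = 0
        rw [Fr_apply, Fs_not_sqf m d hd, ite_self])
      (fun d => by
        show |Fr m r d| ≤ _
        rw [Fr_apply]
        split_ifs
        · exact le_rfl
        · rw [abs_zero]; exact abs_nonneg _)
    have hprod := Fr_sum m r Q hr (hrP.trans hPQ)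
    have hu0 : 0 < ∏ p ∈ r.primeFactors, up m p :=
      prod_pos fun p hp => up_pos hev (Nat.prime_of_mem_primeFactors hp)
    have hT := Ts_le (m := m) hev hr
    have hT0 : 0 ≤ Ts m r := by rw [Ts_apply]; positivity
    -- bound of the product by `m / φ(m)`
    have hTm : ∏ p ∈ r.primeFactors, up m p ≤ (m : ℝ) / m.totient := by
      rw [div_totient_eq hm, prod_primeFactors_eq (up m) hr (hrP.trans hPQ),
        prod_primeFactors_eq (up m) hm hmQ]
      refine prod_le_prod (fun k _ => ?_) fun k _ => ?_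
      · split_ifs with h
        · exact (up_pos hev h.1).le
        · norm_num
      · by_cases hp : k.Prime
        · by_cases hd : k ∣ m
          · rw [if_pos (⟨hp, hd⟩ : k.Prime ∧ k ∣ m)]
            have h2 : (2 : ℝ) ≤ k := by exact_mod_cast hp.two_le
            have h3 : 1 ≤ up m k := by
              rw [up_dvd hp hd, le_div_iff₀ (by linarith)]
              linarith
            split_ifs
            · exact le_rfl
            · exact h3
          · rw [if_neg (fun h => hd h.2 : ¬ (k.Prime ∧ k ∣ m))]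
            split_ifs with h
            · exact up_not_le hp hd
            · exact le_rfl
        · rw [if_neg (fun h => hp h.1), if_neg (fun h => hp h.1)]
    have hS0 : 0 ≤ ∑ d ∈ (primorial Q).divisors, Fr m r d := by
      rw [prod_eq (Fr m r) (Fr_mult m r)]
      refine prod_nonneg fun k _ => ?_
      split_ifs with hp
      · rw [Fr_apply]
        split_ifs
        · exact (up_pos hev hp).le
        · norm_num
      · norm_num
    set S := ∑ d ∈ (primorial Q).divisors, Fr m r d with hS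
    set S1 := ∑ k ∈ Ioc 0 (P / r), Fr m r k with hS1
    have hBs : |Bs r P m| = Ts m r * |S1| := by
      rw [Bs_eq, abs_mul, abs_div, abs_mul, abs_of_nonneg (Nat.cast_nonneg r),
        abs_of_nonneg (by positivity : (0 : ℝ) ≤ (r.totient : ℝ) ^ 2), Ts_apply]
    have h4 : |S1| ≤ S + 5 / 4 * Real.exp 8 * (m.divisors.card : ℝ) / √((P : ℝ) / r) := by
      have h5 : |S - S1| ≤ 5 / 4 * Real.exp 8 * (m.divisors.card : ℝ) / √((P : ℝ) / r) := h1
      have h6 : |S1| ≤ |S| + |S - S1| := by
        have := abs_sub_abs_le_abs_sub S1 S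
        rw [abs_sub_comm S1 S] at this
        linarith
      rw [abs_of_nonneg hS0] at h6
      linarith
    have h7 : √((r : ℝ) / P) = 1 / √((P : ℝ) / r) := by
      rw [← Real.sqrt_one, ← Real.sqrt_div (by norm_num), one_div_div]
    rw [hBs]
    calc Ts m r * |S1| ≤ Ts m r *
          (S + 5 / 4 * Real.exp 8 * (m.divisors.card : ℝ) / √((P : ℝ) / r)) :=
          mul_le_mul_of_nonneg_left h4 hT0
      _ = Ts m r * S + Ts m r *
          (5 / 4 * Real.exp 8 * (m.divisors.card : ℝ) * (1 / √((P : ℝ) / r))) := by ring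
      _ ≤ (∏ p ∈ r.primeFactors, up m p) * S + (m : ℝ) / m.totient *
          (5 / 4 * Real.exp 8 * (m.divisors.card : ℝ) * (1 / √((P : ℝ) / r))) := by
          refine add_le_add (mul_le_mul_of_nonneg_right hT hS0)
            (mul_le_mul_of_nonneg_right (hT.trans hTm) (by positivity))
      _ = FF m Q + 5 / 4 * Real.exp 8 * ((m : ℝ) / m.totient) * (m.divisors.card : ℝ) *
          √((r : ℝ) / P) := by rw [hprod, h7]; ring

end Pool.Agent.PS
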