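import Pool.Agent.Work.PS.InterfaceB
import Pool.Agent.Work.PS.SING

/-!
SING2: the twisted singular series is smaller by a factor `3` if the conductor has a prime factor
`p ≥ 5` not dividing `m`.
-/

set_option autoImplicit false

namespace Pool.Agent.PS

open Finset ArithmeticFunction
open Pool.Agent.Circle (sing rsum Fs Fs_apply Fs_mult Fs_prime Fs_mul Fs_one Gs Gs_apply prod_eq
  euler_bound rsum_mul rsum_one)

namespace Sing2

theorem Ts_prime_pow3 {m p a : ℕ} (hp : p.Prime) (h5 : 5 ≤ p) (hpm : ¬ p ∣ m) :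
    Ts m (p ^ (a + 1)) ≤ up m p / 3 := by
  have h5' : (5 : ℝ) ≤ p := by exact_mod_cast h5
  have hp0 : (0 : ℝ) < p := by linarith
  have hp1 : (0 : ℝ) < (p : ℝ) - 1 := by linarith
  have h1 : ¬ p ^ (a + 1) ∣ m := fun h => hpm ((dvd_pow_self p (by omega)).trans h)
  rw [Ts_apply, rsum_prime_pow m p a hp, Nat.totient_prime_pow_succ hp, if_neg h1]
  push_cast [Nat.cast_sub hp.one_le]
  rcases Nat.eq_zero_or_pos a with ha | ha
  · subst ha
    rw [pow_zero, if_pos (one_dvd _), zero_sub, abs_neg, abs_of_pos (by norm_num), up_not hp hpm]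
    simp only [zero_add, pow_one, pow_zero, one_mul, mul_one]
    rw [div_le_iff₀ (by positivity)]
    have : (1 - 1 / ((p : ℝ) - 1) ^ 2) / 3 * ((p : ℝ) - 1) ^ 2 = (((p : ℝ) - 1) ^ 2 - 1) / 3 := by
      field_simp
    rw [this]
    nlinarith
  · have h3 : ¬ p ^ a ∣ m := fun h => hpm ((dvd_pow_self p (by omega)).trans h)
    rw [if_neg h3, sub_zero, abs_zero, mul_zero, zero_div, up_not hp hpm]
    have : 1 / ((p : ℝ) - 1) ^ 2 ≤ 1 := by
      rw [div_le_one (by positivity)]
      nlinarith
    linarith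

theorem Ts_le3 {m r p : ℕ} (hm : Even m) (hr : 0 < r) (hp : p.Prime) (h5 : 5 ≤ p) (hpr : p ∣ r)
    (hpm : ¬ p ∣ m) : Ts m r ≤ (∏ q ∈ r.primeFactors, up m q) / 3 := by
  rw [(Ts_mult m).multiplicative_factorization _ hr.ne', Finsupp.prod, Nat.support_factorization]
  have hmem : p ∈ r.primeFactors := Nat.mem_primeFactors.2 ⟨hp, hpr, hr.ne'⟩
  have hfac : ∀ q ∈ r.primeFactors, ∃ a, r.factorization q = a + 1 := fun q hq =>
    ⟨r.factorization q - 1, by
      have := (Nat.prime_of_mem_primeFactors hq).factorization_pos_of_dvd hr.ne'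
        (Nat.dvd_of_mem_primeFactors hq)
      omega⟩
  rw [← mul_prod_erase _ _ hmem, ← mul_prod_erase r.primeFactors (fun q => up m q) hmem,
    mul_div_right_comm]
  refine mul_le_mul ?_ ?_ (prod_nonneg fun q _ => by rw [Ts_apply]; positivity)
    (by have := (up_pos (m := m) hm hp).le; positivity)
  · obtain ⟨a, ha⟩ := hfac p hmem
    rw [ha]
    exact Ts_prime_pow3 hp h5 hpm
  · refine prod_le_prod (fun q _ => by rw [Ts_apply]; positivity) fun q hq => ?_
    have hq' := mem_of_mem_erase hq
    obtain ⟨a, ha⟩ := hfac q hq'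
    rw [ha]
    exact Ts_prime_pow hm (Nat.prime_of_mem_primeFactors hq')

end Sing2

open Sing2 in
theorem stmt_SING2 : Stmt_SING2 := by
  refine ⟨1 / 2, 5 / 4 * Real.exp 8, by norm_num, by positivity, ?_⟩
  intro P m r hP hm hev hr hrP hex
  obtain ⟨p0, hp0, h5, hp0r, hp0m⟩ := hex
  set Q := max P m with hQ
  have hPQ : P ≤ Q := le_max_left _ _
  have hmQ : m ≤ Q := le_max_right _ _
  have hPr : (0 : ℝ) < P := by exact_mod_cast hP
  have hrr : (0 : ℝ) < r := by exact_mod_cast hr
  refine ⟨FF m Q, FF_ge hm hev hmQ, ?_, ?_⟩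
  · have h1 := tail_le (f := fun d => Fs m d) (b := P) hm hPQ hPr (by linarith)
      (fun d hd => Fs_not_sqf m d hd) (fun d => le_rfl)
    rw [← FF_eq, abs_sub_comm] at h1
    exact h1
  · have hb : (0 : ℝ) < (P : ℝ) / r := by positivity
    have hbB : (P : ℝ) / r < ((P / r : ℕ) : ℝ) + 1 := by
      rw [div_lt_iff₀ hrr]
      have h2 : P < (P / r + 1) * r := by linarith [Nat.lt_div_mul_add hr (a := P)]
      exact_mod_cast h2
    have h1 := tail_le (f := fun d => Fr m r d) (b := (P : ℝ) / r) hm
      ((Nat.div_le_self P r).trans hPQ) hb hbB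
      (fun d hd => by
        show Fr m r d = 0
        rw [Fr_apply, Fs_not_sqf m d hd, ite_self])
      (fun d => by
        show |Fr m r d| ≤ _
        rw [Fr_apply]
        split_ifs
        · exact le_rfl
        · rw [abs_zero]; exact abs_nonneg _)
    have hprod := Fr_sum m r Q hr (hrP.trans hPQ)
    have hu0 : 0 < ∏ p ∈ r.primeFactors, up m p :=
      prod_pos fun p hp => up_pos hev (Nat.prime_of_mem_primeFactors hp)
    have hT := Ts_le3 (m := m) hev hr hp0 h5 hp0r hp0m
    have hT0 : 0 ≤ Ts m r := by rw [Ts_apply]; positivity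
    -- bound of the product by `m / φ(m)`
    have hTm : ∏ p ∈ r.primeFactors, up m p ≤ (m : ℝ) / m.totient := by
      rw [div_totient_eq hm, prod_primeFactors_eq (up m) hr (hrP.trans hPQ),
        prod_primeFactors_eq (up m) hm hmQ]
      refine prod_le_prod (fun k _ => ?_) fun k _ => ?_
      · split_ifs with h
        · exact (up_pos hev h.1).le
        · norm_num
      · by_cases hp : k.Prime
        · by_cases hd : k ∣ m
          · rw [if_pos (⟨hp, hd⟩ : k.Prime ∧ k ∣ m)]
            have h2 : (2 : ℝ) ≤ k := by exact_mod_cast hp.two_le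
            have h3 : 1 ≤ up m k := by
              rw [up_dvd hp hd, le_div_iff₀ (by linarith)]
              linarith
            split_ifs
            · exact le_rfl
            · exact h3
          · rw [if_neg (fun h => hd h.2 : ¬ (k.Prime ∧ k ∣ m))]
            split_ifs with h
            · exact up_not_le hp hd
            · exact le_rfl
        · rw [if_neg (fun h => hp h.1), if_neg (fun h => hp h.1)]
    have hS0 : 0 ≤ ∑ d ∈ (primorial Q).divisors, Fr m r d := by
      rw [prod_eq (Fr m r) (Fr_mult m r)]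
      refine prod_nonneg fun k _ => ?_
      split_ifs with hp
      · rw [Fr_apply]
        split_ifs
        · exact (up_pos hev hp).le
        · norm_num
      · norm_num
    set S := ∑ d ∈ (primorial Q).divisors, Fr m r d with hS
    set S1 := ∑ k ∈ Ioc 0 (P / r), Fr m r k with hS1
    have hBs : |Bs r P m| = Ts m r * |S1| := by
      rw [Bs_eq, abs_mul, abs_div, abs_mul, abs_of_nonneg (Nat.cast_nonneg r),
        abs_of_nonneg (by positivity : (0 : ℝ) ≤ (r.totient : ℝ) ^ 2), Ts_apply]
    have h4 : |S1| ≤ S + 5 / 4 * Real.exp 8 * (m.divisors.card : ℝ) / √((P : ℝ) / r) := by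
      have h5 : |S - S1| ≤ 5 / 4 * Real.exp 8 * (m.divisors.card : ℝ) / √((P : ℝ) / r) := h1
      have h6 : |S1| ≤ |S| + |S - S1| := by
        have := abs_sub_abs_le_abs_sub S1 S
        rw [abs_sub_comm S1 S] at this
        linarith
      rw [abs_of_nonneg hS0] at h6
      linarith
    have h7 : √((r : ℝ) / P) = 1 / √((P : ℝ) / r) := by
      rw [← Real.sqrt_one, ← Real.sqrt_div (by norm_num), one_div_div]
    have hTm' : Ts m r ≤ (m : ℝ) / m.totient := by linarith
    rw [hBs]
    calc Ts m r * |S1| ≤ Ts m r *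
          (S + 5 / 4 * Real.exp 8 * (m.divisors.card : ℝ) / √((P : ℝ) / r)) :=
          mul_le_mul_of_nonneg_left h4 hT0
      _ = Ts m r * S + Ts m r *
          (5 / 4 * Real.exp 8 * (m.divisors.card : ℝ) * (1 / √((P : ℝ) / r))) := by ring
      _ ≤ (∏ p ∈ r.primeFactors, up m p) / 3 * S + (m : ℝ) / m.totient *
          (5 / 4 * Real.exp 8 * (m.divisors.card : ℝ) * (1 / √((P : ℝ) / r))) := by
          refine add_le_add (mul_le_mul_of_nonneg_right hT hS0)
            (mul_le_mul_of_nonneg_right hTm' (by positivity))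
      _ = FF m Q / 3 + 5 / 4 * Real.exp 8 * ((m : ℝ) / m.totient) * (m.divisors.card : ℝ) *
          √((r : ℝ) / P) := by rw [← hprod, h7]; ring

end Pool.Agent.PS
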