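import Pool.Agent.Work.PS.Main
import Pool.Agent.Work.PS.SING2
import Pool.Agent.Work.PS.LOW2
import Pool.Agent.Work.PS.RAD
import Pool.Agent.Work.PS.WINB
import Pool.Agent.Work.PS.FINALB

set_option autoImplicit false

namespace Pool.Agent.PS

theorem main_wsb : Stmt_WSB := stmt_WSB stmt_ZSPEC main_zs main_ef stmt_GALD stmt_SIEG

theorem main_low2 : Stmt_LOW2 :=
  stmt_LOW2 stmt_MAJ main_ksum main_kx stmt_K1 stmt_K2 stmt_SING stmt_SING2

theorem main_winb : Stmt_WINB :=
  stmt_WINB main_wsb main_low main_low2 stmt_CIRC stmt_MIN stmt_SIEG stmt_RAD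

/-- power saving, right order of magnitude off the multiples of one large integer -/
theorem main_finalb : Stmt_FINALB := stmt_FINALB main_winb

end Pool.Agent.PS
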