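import Pool.Agent.Work.PS.ADLc

/-!
# PS, block ADL1: a zero near `1 + i t` forces a large prime polynomial
-/

set_option autoImplicit false

namespace Pool.Agent.PS.ADL1

open Finset ArithmeticFunction Metric Filter Topology
open Pool.Agent.Work.MP_b0c12c_nt_helper70 (PP PP_cons PP_nil PP_ne)
open Pool.Agent.PS.ADLa Pool.Agent.PS.ADLb Pool.Agent.PS.ADLc
open scoped Classical

/-! ### small inequalities -/

theorem X_a {C r δ : ℝ} (hC : 1 ≤ C) (hr : 0 < r) (h : δ ≤ r / 100) : C * r ≤ 2 * C * (r - δ) := by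
  nlinarith

theorem X_b {a b : ℝ} (ha : 1 ≤ a) (hb : 1 ≤ b) : 4 ≤ 4 * a * b := by nlinarith

theorem X_c {v D : ℝ} (hv : 1 ≤ v) (hD : 960 ≤ D) : 5 ≤ v * (4 * D) := by nlinarith

theorem X_d {c E : ℝ} (h0 : 0 < c) (h1 : c ≤ 1) (hE : 1 ≤ E) : c ^ 2 * 4 ≤ c * (64 * E) := by
  nlinarith

theorem X_e {C r δ : ℝ} (hC : 1 ≤ C) (hr : 0 < r) (h : δ ≤ r / 100) :
    2 * C * r ≤ 4 * C * (r - δ) := by nlinarith

theorem X_f {c : ℝ} (h0 : 0 < c) (h1 : c ≤ 1) : c ^ 2 / 64 ≤ c / 16 := by nlinarith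

theorem X_g {c C : ℝ} (h0 : 0 < c) (hC : 1 ≤ C) : c * 4 ≤ c * (80 * C) := by nlinarith

theorem X_h {C r δ : ℝ} (hC : 1 ≤ C) (hr : 0 < r) (h : δ ≤ r / 100) :
    2 * C * r ≤ 5 * C * (r / 2 - δ) := by nlinarith

/-! ### lists -/

theorem near_count (W : List ℂ) {β : ℝ} (hβ : 0 ≤ β) :
    ((W.filter fun z => β ≤ ‖z‖).length : ℝ) * β ^ 2 ≤ (W.map fun z => ‖z‖ ^ 2).sum := by
  induction W with
  | nil => simp
  | cons a W ih =>
    by_cases h : β ≤ ‖a‖
    · rw [List.filter_cons_of_pos (by simpa using h), List.length_cons, List.map_cons,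
        List.sum_cons]
      push_cast
      have : β ^ 2 ≤ ‖a‖ ^ 2 := by gcongr
      linarith
    · rw [List.filter_cons_of_neg (by simpa using h), List.map_cons, List.sum_cons]
      have : 0 ≤ ‖a‖ ^ 2 := by positivity
      linarith

theorem far_sum (W : List ℂ) {β : ℝ} (hβ : 0 ≤ β) (k : ℕ) :
    ‖((W.filter fun z => ¬ β ≤ ‖z‖).map fun z => z ^ (k + 2)).sum‖ ≤
      β ^ k * (W.map fun z => ‖z‖ ^ 2).sum := by
  induction W with
  | nil => simp
  | cons a W ih =>
    rw [List.map_cons, List.sum_cons]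
    by_cases h : β ≤ ‖a‖
    · rw [List.filter_cons_of_neg (by simpa using h)]
      have : 0 ≤ β ^ k * ‖a‖ ^ 2 := by positivity
      linarith
    · rw [List.filter_cons_of_pos (by simpa using h), List.map_cons, List.sum_cons]
      have h1 : ‖a ^ (k + 2)‖ ≤ β ^ k * ‖a‖ ^ 2 := by
        rw [norm_pow, pow_add]
        have : ‖a‖ ≤ β := (not_le.1 h).le
        gcongr
      refine (norm_add_le _ _).trans ?_
      linarith

theorem sum_split (W : List ℂ) (p : ℂ → Prop) (g : ℂ → ℂ) : (W.map g).sum =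
    ((W.filter fun z => p z).map g).sum + ((W.filter fun z => ¬ p z).map g).sum := by
  induction W with
  | nil => simp
  | cons a W ih =>
    rw [List.map_cons, List.sum_cons, ih]
    by_cases h : p a
    · rw [List.filter_cons_of_pos (by simpa using h), List.filter_cons_of_neg (by simpa using h),
        List.map_cons, List.sum_cons]
      ring
    · rw [List.filter_cons_of_neg (by simpa using h), List.filter_cons_of_pos (by simpa using h),
        List.map_cons, List.sum_cons]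
      ring

/-- The power sum inequality with few terms of modulus `≥ c / 2`. -/
theorem power {c : ℝ} (hc0 : 0 < c) (hc1 : c < 1)
    (htur : ∀ (L : List ℂ) (z0 : ℂ), z0 ∈ L → 1 ≤ ‖z0‖ → ∀ M : ℕ, L.length ≤ M →
      ∃ k : ℕ, M < k ∧ k ≤ M + L.length ∧ c ^ M ≤ ‖(L.map fun z => z ^ k).sum‖)
    (W : List ℂ) {Q : ℝ} (hQ : (W.map fun z => ‖z‖ ^ 2).sum ≤ Q) {z0 : ℂ} (hz0 : z0 ∈ W)
    (h1 : 1 ≤ ‖z0‖) (K : ℕ) (hK : Q * (4 / c ^ 2) ≤ K) :
    ∃ k : ℕ, K < k ∧ k ≤ 2 * K ∧ 3 / 4 * c ^ (K + 1) ≤ ‖(W.map fun z => z ^ (k + 1)).sum‖ := by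
  set N := W.filter fun z => c / 2 ≤ ‖z‖ with hN
  have hn1 : (N.length : ℝ) ≤ K := by
    have h2 := near_count W (β := c / 2) (by positivity)
    have h3 : (N.length : ℝ) * (c / 2) ^ 2 ≤ Q := h2.trans hQ
    have h4 : (N.length : ℝ) = (N.length : ℝ) * (c / 2) ^ 2 * (4 / c ^ 2) := by
      field_simp
      norm_num
    rw [h4]
    exact (mul_le_mul_of_nonneg_right h3 (by positivity)).trans hK
  have hn2 : N.length ≤ K := by exact_mod_cast hn1
  have hz0N : z0 ∈ N := by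
    rw [hN, List.mem_filter]
    refine ⟨hz0, ?_⟩
    have : c / 2 ≤ ‖z0‖ := by linarith
    simpa using this
  obtain ⟨k', hk1, hk2, hk3⟩ := htur N z0 hz0N h1 (K + 1) (by omega)
  obtain ⟨j, rfl⟩ : ∃ j, k' = j + 2 := ⟨k' - 2, by omega⟩
  refine ⟨j + 1, by omega, by omega, ?_⟩
  have hsp := sum_split W (fun z => c / 2 ≤ ‖z‖) (fun z => z ^ (j + 2))
  have hfar := far_sum W (β := c / 2) (by positivity) j
  have hQ0 : 0 ≤ (W.map fun z => ‖z‖ ^ 2).sum := by
    refine List.sum_nonneg fun a ha => ?_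
    rw [List.mem_map] at ha
    obtain ⟨z, _, rfl⟩ := ha
    positivity
  have h5 : (c / 2) ^ j * (W.map fun z => ‖z‖ ^ 2).sum ≤ 1 / 4 * c ^ (K + 1) := by
    have h6 : (c / 2) ^ j ≤ (c / 2) ^ K :=
      pow_le_pow_of_le_one (by positivity) (by linarith) (by omega)
    have h7 : Q ≤ K * (c ^ 2 / 4) := by
      have : Q = Q * (4 / c ^ 2) * (c ^ 2 / 4) := by field_simp
      rw [this]
      exact mul_le_mul_of_nonneg_right hK (by positivity)
    have h8 : (K : ℝ) ≤ 2 ^ K := by exact_mod_cast Nat.lt_two_pow_self.le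
    calc (c / 2) ^ j * (W.map fun z => ‖z‖ ^ 2).sum ≤ (c / 2) ^ K * (K * (c ^ 2 / 4)) :=
          mul_le_mul h6 (hQ.trans h7) hQ0 (by positivity)
      _ ≤ (c / 2) ^ K * (2 ^ K * (c ^ 2 / 4)) := by gcongr
      _ = (c / 2 * 2) ^ K * (c ^ 2 / 4) := by rw [mul_pow]; ring
      _ = 1 / 4 * c ^ (K + 1) * c := by rw [div_mul_cancel₀ _ (by norm_num), pow_succ]; ring
      _ ≤ 1 / 4 * c ^ (K + 1) * 1 := by gcongr
      _ = _ := by ring
  have h9 : c ^ (K + 1) ≤ ‖(W.map fun z => z ^ (j + 2)).sum‖ +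
      ‖((W.filter fun z => ¬ c / 2 ≤ ‖z‖).map fun z => z ^ (j + 2)).sum‖ := by
    refine hk3.trans ?_
    have : (N.map fun z => z ^ (j + 2)).sum = (W.map fun z => z ^ (j + 2)).sum -
        ((W.filter fun z => ¬ c / 2 ≤ ‖z‖).map fun z => z ^ (j + 2)).sum := by
      rw [hsp]; ring
    rw [this]
    exact norm_sub_le _ _
  have h10 : j + 1 + 1 = j + 2 := rfl
  rw [h10]
  linarith

/-! ### the local formula -/

theorem local_formula {C1 c6 δ : ℝ} {Z : ℕ} {w : ℕ → ℂ} {x : Ch} {F : ℂ → ℂ} {L : List ℂ}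
    {ex CF : ℝ} (hCF : 1 ≤ CF)
    (hLF : ∀ (f h : ℂ → ℂ) (L : List ℂ), Differentiable ℂ h →
      (∀ s, f s = PP L s * h s) → ∀ (s0 : ℂ) (R m : ℝ), 0 < R → 0 < m → f s0 ≠ 0 →
      (∀ s ∈ closedBall s0 R, ‖f s‖ ≤ Real.exp m * ‖f s0‖) →
      (∀ s ∈ closedBall s0 (R / 4), h s ≠ 0) →
      ((L.filter fun ρ => ‖ρ - s0‖ ≤ R / 4).length : ℝ) ≤ m ∧
      ∃ G : ℂ → ℂ, DifferentiableOn ℂ G (ball s0 (R / 4)) ∧
        (∀ s ∈ closedBall s0 (R / 8), ‖G s‖ ≤ CF * m / R) ∧
        ∀ s ∈ ball s0 (R / 4), f s ≠ 0 → deriv f s / f s =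
          ((L.filter fun ρ => ‖ρ - s0‖ ≤ R / 4).map fun ρ => 1 / (s - ρ)).sum + G s)
    (hC1 : 1 ≤ C1) (hZ : 3 ≤ Z) (hδ0 : 0 ≤ δ) (hδ : δ ≤ 1 / (100 * Real.log Z))
    (hw : ∀ n, 1 ≤ n → ‖w n‖ ≤ 2 * (n : ℝ) ^ δ) (hF : Fdat Z C1 c6 δ w x F L ex) {r : ℝ}
    (hr1 : 1 / Real.log Z ≤ r) (hr2 : r ≤ 1 / 16) {t : ℝ} (ht : |t| ≤ Z + 1) :
    ∃ (L1 : List ℂ) (G : ℂ → ℂ), (∀ ρ ∈ L1, pt r t ≠ ρ) ∧
      DifferentiableOn ℂ G (ball (pt r t) (2 * (1 / 16))) ∧
      (∀ s ∈ closedBall (pt r t) (1 / 16), ‖G s‖ ≤ 4 * CF * C1 * Real.log Z) ∧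
      (∀ᶠ s in 𝓝 (pt r t), LSeries (cf x.2 w) s - ex / (s - 1) =
        -((L1.map fun ρ => 1 / (s - ρ)).sum + G s)) ∧
      (L1.map fun ρ => ‖2 * (r : ℂ) / (pt r t - ρ)‖ ^ 2).sum ≤
        8 * (4 * CL + 1 + 4 * CF * C1) * (r * Real.log Z) ∧
      (L.filter fun ρ => ‖ρ - (1 + t * Complex.I)‖ ≤ r).length ≤
        (L1.filter fun ρ => ‖ρ - (1 + t * Complex.I)‖ ≤ r).length ∧
      ∀ ρ ∈ L, ‖ρ - (1 + t * Complex.I)‖ ≤ r → ρ ∈ L1 := by
  have hZR : (3 : ℝ) ≤ Z := by exact_mod_cast hZ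
  have hZ0 : (0 : ℝ) < Z := by linarith
  set l := Real.log Z with hl
  have hl1 : 1 ≤ l := by
    rw [hl, Real.le_log_iff_exp_le hZ0]
    exact (Real.exp_one_lt_d9.le.trans (by norm_num)).trans hZR
  have hl0 : 0 < l := by linarith
  have hr0 : 0 < r := lt_of_lt_of_le (by positivity) hr1
  have hrl : 1 / r ≤ l := by
    rw [div_le_iff₀ hr0]
    rw [div_le_iff₀ hl0] at hr1
    linarith
  have hδr : δ ≤ r / 100 := by
    have : 1 / (100 * l) = 1 / l / 100 := by field_simp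
    rw [this] at hδ
    linarith
  set s0 := pt r t with hs0
  have hre : s0.re = 1 + r := pt_re r t
  have him : s0.im = t := pt_im r t
  -- points near s0
  have hnear : ∀ s : ℂ, ‖s - s0‖ ≤ 1 / 2 → 1 / 10 ≤ s.re ∧ s.re ≤ 3 ∧ |s.im| ≤ Z + 10 := by
    intro s hs
    have h1 := (Complex.abs_re_le_norm (s - s0)).trans hs
    have h2 := (Complex.abs_im_le_norm (s - s0)).trans hs
    rw [Complex.sub_re, hre, abs_le] at h1
    rw [Complex.sub_im, him, abs_le] at h2
    rw [abs_le] at ht ⊢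
    refine ⟨by linarith [h1.1], by linarith [h1.2], by linarith [h2.1, ht.1],
      by linarith [h2.2, ht.2]⟩
  have hlow : (Z : ℝ) ^ (-C1) ≤ ‖F s0‖ := by
    refine hF.low s0 (by rw [hre]; linarith) (by rw [hre]; linarith) ?_
    exact (hnear s0 (by rw [sub_self, norm_zero]; norm_num)).2.2
  have hFs0 : F s0 ≠ 0 := by
    rw [← norm_pos_iff]
    exact lt_of_lt_of_le (by positivity) hlow
  obtain ⟨h, hh, hfac⟩ := hF.fac
  have hhs0 : h s0 ≠ 0 := by
    intro h0
    exact hFs0 (by rw [hfac, h0, mul_zero])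
  obtain ⟨Lh, g, hg⟩ := stmt_ZL h hh ⟨s0, hhs0⟩ (closedBall s0 (1 / 8)) isBounded_closedBall
  have hfac2 : ∀ s, F s = PP (L ++ Lh) s * g s := by
    intro s
    rw [PP_append, hfac, hg.fac]
    ring
  have hup : ∀ s ∈ closedBall s0 (1 / 2), ‖F s‖ ≤ Real.exp (2 * C1 * l) * ‖F s0‖ := by
    intro s hs
    rw [mem_closedBall, dist_eq_norm] at hs
    obtain ⟨h1, h2, h3⟩ := hnear s hs
    have h4 := hF.up s h1 h2 h3
    have h5 : (Z : ℝ) ^ C1 = Real.exp (2 * C1 * l) * (Z : ℝ) ^ (-C1) := by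
      rw [Real.rpow_def_of_pos hZ0, Real.rpow_def_of_pos hZ0, ← Real.exp_add, ← hl]
      congr 1
      ring
    rw [h5] at h4
    exact h4.trans (mul_le_mul_of_nonneg_left hlow (Real.exp_pos _).le)
  obtain ⟨-, G, hG1, hG2, hG3⟩ := hLF F g (L ++ Lh) hg.diff hfac2 s0 (1 / 2) (2 * C1 * l)
    (by norm_num) (by positivity) hFs0 hup (by
      intro s hs
      exact hg.ne s (by
        rw [mem_closedBall] at hs ⊢
        linarith))
  have e1 : (1 : ℝ) / 2 / 4 = 1 / 8 := by norm_num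
  have e2 : (1 : ℝ) / 2 / 8 = 1 / 16 := by norm_num
  rw [e1] at hG1 hG3
  rw [e2] at hG2
  set L1 := (L ++ Lh).filter fun ρ => ‖ρ - s0‖ ≤ 1 / 8 with hL1
  have hmem : ∀ ρ ∈ L1, ‖ρ - s0‖ ≤ 1 / 8 ∧ F ρ = 0 := by
    intro ρ hρ
    rw [hL1, List.mem_filter] at hρ
    refine ⟨by simpa using hρ.2, ?_⟩
    have : PP (L ++ Lh) ρ = 0 := by
      unfold PP
      rw [List.prod_eq_zero_iff, List.mem_map]
      exact ⟨ρ, hρ.1, sub_self ρ⟩
    rw [hfac2, this, zero_mul]
  have hreρ : ∀ ρ ∈ L1, ρ.re ≤ 1 + r / 2 := by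
    intro ρ hρ
    obtain ⟨h1, h2⟩ := hmem ρ hρ
    have h3 := hF.zer ρ (hnear ρ (by linarith)).2.2 h2
    linarith
  have hne : ∀ ρ ∈ L1, s0 ≠ ρ := by
    intro ρ hρ h0
    have h1 := hreρ ρ hρ
    rw [← h0, hre] at h1
    linarith
  have hball : ∀ᶠ s in 𝓝 s0, s ∈ ball s0 (1 / 8) := ball_mem_nhds _ (by norm_num)
  have hFne : ∀ᶠ s in 𝓝 s0, F s ≠ 0 := (hF.diff s0).continuousAt.eventually_ne hFs0
  have hreg : ∀ᶠ s : ℂ in 𝓝 s0, 1 + δ < s.re := by
    refine Complex.continuous_re.continuousAt.eventually_const_lt ?_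
    rw [hre]
    linarith
  have hev : ∀ᶠ s in 𝓝 s0, LSeries (cf x.2 w) s - ex / (s - 1) =
      -((L1.map fun ρ => 1 / (s - ρ)).sum + G s) := by
    filter_upwards [hball, hFne, hreg] with s h1 h2 h3
    rw [← hG3 s h1 h2]
    exact (hF.ld s h3).symm
  have hcount : ∀ ρ : ℂ, ‖ρ - (1 + t * Complex.I)‖ ≤ r → ‖ρ - s0‖ ≤ 1 / 8 := by
    intro ρ hρ
    have h1 : ρ - s0 = (ρ - (1 + t * Complex.I)) - (r : ℂ) := by
      rw [hs0]; unfold pt; push_cast; ring
    rw [h1]
    refine (norm_sub_le _ _).trans ?_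
    rw [Complex.norm_real, Real.norm_of_nonneg hr0.le]
    linarith
  refine ⟨L1, G, hne, ?_, ?_, hev, ?_, ?_, ?_⟩
  · have : (2 : ℝ) * (1 / 16) = 1 / 8 := by norm_num
    rw [this]
    exact hG1
  · intro s hs
    refine (hG2 s hs).trans (le_of_eq ?_)
    ring
  · -- the square sum
    have h1 := hev.self_of_nhds
    have h2 : (L1.map fun ρ => 1 / (s0 - ρ)).sum =
        -(LSeries (cf x.2 w) s0) + ex / (s0 - 1) - G s0 := by
      linear_combination h1
    have h3 : ‖(L1.map fun ρ => 1 / (s0 - ρ)).sum‖ ≤ (4 * CL + 1 + 4 * CF * C1) * l := by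
      rw [h2]
      have h4 : ‖LSeries (cf x.2 w) s0‖ ≤ 4 * CL * l := by
        have h5 := norm_LSeries_cf_le x.2 hw (s := s0) (by rw [hre]; linarith)
          (by rw [hre]; linarith)
        refine h5.trans ?_
        rw [hre]
        have h6 : 1 + r - 1 - δ = r - δ := by ring
        rw [h6]
        have h7 : CL / (r - δ) ≤ 2 * CL * (1 / r) := by
          rw [mul_one_div, div_le_div_iff₀ (by linarith) hr0]
          have := one_le_CL
          exact X_a (one_le_CL) hr0 (by linarith)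
        have h8 : 2 * CL * (1 / r) ≤ 2 * CL * l :=
          mul_le_mul_of_nonneg_left hrl (by linarith [one_le_CL])
        linarith
      have h5 : ‖(ex : ℂ) / (s0 - 1)‖ ≤ 1 * l := by
        rw [norm_div, Complex.norm_real]
        have h6 : r ≤ ‖s0 - 1‖ := by
          have := Complex.abs_re_le_norm (s0 - 1)
          rw [Complex.sub_re, hre, Complex.one_re, add_sub_cancel_left, abs_of_pos hr0] at this
          exact this
        have h7 : ‖ex‖ ≤ 1 := by
          rcases hF.ex01 with h | h <;> rw [h] <;> simp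
        have h8 : ‖ex‖ / ‖s0 - 1‖ ≤ 1 / r := by gcongr
        linarith
      have h6 : ‖G s0‖ ≤ 4 * CF * C1 * l := by
        refine (hG2 s0 (mem_closedBall_self (by norm_num))).trans (le_of_eq ?_)
        ring
      have h7 := norm_sub_le (-(LSeries (cf x.2 w) s0) + ex / (s0 - 1)) (G s0)
      have h8 := norm_add_le (-(LSeries (cf x.2 w) s0)) ((ex : ℂ) / (s0 - 1))
      rw [norm_neg] at h8
      linarith
    have h4 : ∀ K : List ℂ, (∀ ρ ∈ K, ρ ∈ L1) →
        (K.map fun ρ => ‖2 * (r : ℂ) / (s0 - ρ)‖ ^ 2).sum ≤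
          8 * r * ((K.map fun ρ => 1 / (s0 - ρ)).sum).re := by
      intro K
      induction K with
      | nil => simp
      | cons a K ih =>
        intro hK
        rw [List.map_cons, List.sum_cons, List.map_cons, List.sum_cons, Complex.add_re]
        have h5 := ih fun ρ hρ => hK ρ (List.mem_cons_of_mem _ hρ)
        have h6 := hreρ a (hK a List.mem_cons_self)
        have h7 : 0 < ‖s0 - a‖ := by
          rw [norm_pos_iff, sub_ne_zero]
          exact hne a (hK a List.mem_cons_self)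
        have h8 : (1 / (s0 - a)).re = (1 + r - a.re) / ‖s0 - a‖ ^ 2 := by
          rw [one_div, Complex.inv_re, Complex.sub_re, hre, Complex.normSq_eq_norm_sq]
        have h9 : ‖2 * (r : ℂ) / (s0 - a)‖ ^ 2 ≤ 8 * r * (1 / (s0 - a)).re := by
          rw [h8, norm_div, div_pow, norm_mul, Complex.norm_real, Real.norm_of_nonneg hr0.le,
            Complex.norm_ofNat, ← mul_div_assoc]
          gcongr
          nlinarith
        linarith
    have h5 := h4 L1 fun ρ hρ => hρ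
    have h6 := Complex.re_le_norm ((L1.map fun ρ => 1 / (s0 - ρ)).sum)
    calc _ ≤ _ := h5
      _ ≤ 8 * r * ((4 * CL + 1 + 4 * CF * C1) * l) := by
          refine mul_le_mul_of_nonneg_left (h6.trans h3) (by positivity)
      _ = _ := by ring
  · rw [hL1, List.filter_append, List.filter_append, List.length_append, List.filter_filter]
    have : (L.filter fun ρ => ‖ρ - (1 + t * Complex.I)‖ ≤ r) =
        L.filter fun ρ => decide (‖ρ - (1 + t * Complex.I)‖ ≤ r) && decide (‖ρ - s0‖ ≤ 1 / 8) := by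
      refine List.filter_congr fun ρ _ => ?_
      by_cases h1 : ‖ρ - (1 + t * Complex.I)‖ ≤ r
      · have := hcount ρ h1
        simp only [h1, this, decide_true, Bool.and_self]
      · simp only [h1, decide_false, Bool.false_and]
    rw [← this]
    omega
  · intro ρ hρ h1
    rw [hL1, List.mem_filter]
    refine ⟨List.mem_append_left _ hρ, ?_⟩
    have := hcount ρ h1
    simpa using this

/-! ### the assembly -/

/-- The lower bound for the normalised `k`-th derivative. -/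
theorem big_deriv {c : ℝ} (hc0 : 0 < c) (hc1 : c < 1)
    (htur : ∀ (L : List ℂ) (z0 : ℂ), z0 ∈ L → 1 ≤ ‖z0‖ → ∀ M : ℕ, L.length ≤ M →
      ∃ k : ℕ, M < k ∧ k ≤ M + L.length ∧ c ^ M ≤ ‖(L.map fun z => z ^ k).sum‖)
    {w : ℕ → ℂ} {x : Ch} {L1 : List ℂ} {G : ℂ → ℂ} {r t l CC E D ex : ℝ} {K : ℕ}
    (hr0 : 0 < r) (hl : 0 < l)
    (hf : LSeries.abscissaOfAbsConv (cf x.2 w) < (pt r t).re)
    (hne : ∀ ρ ∈ L1, pt r t ≠ ρ) (hG : DifferentiableOn ℂ G (ball (pt r t) (2 * (1 / 16))))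
    (hCC : 0 ≤ CC) (hB : ∀ s ∈ closedBall (pt r t) (1 / 16), ‖G s‖ ≤ CC * l)
    (hev : ∀ᶠ s in 𝓝 (pt r t), LSeries (cf x.2 w) s - ex / (s - 1) =
        -((L1.map fun ρ => 1 / (s - ρ)).sum + G s))
    (hQ : (L1.map fun ρ => ‖2 * (r : ℂ) / (pt r t - ρ)‖ ^ 2).sum ≤ 8 * E * (r * l))
    {ρ0 : ℂ} (hρ0 : ρ0 ∈ L1) (hρ1 : ‖pt r t - ρ0‖ ≤ 2 * r)
    (hD1 : 32 * E / c ^ 2 ≤ D) (hD2 : 8 * CC ≤ D) (hD0 : 0 < D) (hK : D * (r * l) ≤ K)
    (hrc : 32 * r ≤ c / 2) (hex : ex = 0 ∨ ex = 1)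
    (hpole : ex = 1 → 2 * r / ‖pt r t - 1‖ ≤ c / 8) :
    ∃ k : ℕ, K < k ∧ k ≤ 2 * K ∧ c ^ (K + 1) / 2 ≤
      (2 * r) ^ (k + 1) * ‖LSeries (LSeries.logMul^[k] (cf x.2 w)) (pt r t) / k.factorial‖ := by
  set s0 := pt r t with hs0
  have hs01 : s0 ≠ 1 := by
    intro h
    have := congrArg Complex.re h
    rw [hs0, pt_re, Complex.one_re] at this
    linarith
  set W : List ℂ := L1.map fun ρ => 2 * (r : ℂ) / (s0 - ρ) with hW
  have hQ' : (W.map fun z => ‖z‖ ^ 2).sum ≤ 8 * E * (r * l) := by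
    rw [hW, List.map_map]
    exact hQ
  have hz0 : 2 * (r : ℂ) / (s0 - ρ0) ∈ W := List.mem_map.2 ⟨ρ0, hρ0, rfl⟩
  have hz1 : 1 ≤ ‖2 * (r : ℂ) / (s0 - ρ0)‖ := by
    have h1 : 0 < ‖s0 - ρ0‖ := by
      rw [norm_pos_iff, sub_ne_zero]; exact hne ρ0 hρ0
    rw [norm_div, norm_mul, Complex.norm_real, Real.norm_of_nonneg hr0.le, Complex.norm_ofNat,
      le_div_iff₀ h1, one_mul]
    exact hρ1
  have hKQ : 8 * E * (r * l) * (4 / c ^ 2) ≤ K := by
    refine le_trans ?_ hK
    have : 8 * E * (r * l) * (4 / c ^ 2) = 32 * E / c ^ 2 * (r * l) := by ring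
    rw [this]
    exact mul_le_mul_of_nonneg_right hD1 (by positivity)
  obtain ⟨k, hk1, hk2, hk3⟩ := power hc0 hc1 htur W hQ' hz0 hz1 K hKQ
  refine ⟨k, hk1, hk2, ?_⟩
  have hd := deriv_formula hf hne (ex := (ex : ℂ)) (fun _ => hs01) (R := 1 / 16)
    (B := CC * l) (by norm_num) hG hB hev k
  set X : ℂ := LSeries (LSeries.logMul^[k] (cf x.2 w)) s0 / k.factorial with hX
  set S : ℂ := (L1.map fun ρ => 1 / (s0 - ρ) ^ (k + 1)).sum with hS
  have hWS : (W.map fun z => z ^ (k + 1)).sum = ((2 * r : ℝ) : ℂ) ^ (k + 1) * S := by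
    rw [hW, List.map_map, hS, ← TUR.list_sum_mul]
    congr 1
    refine List.map_congr_left fun ρ _ => ?_
    simp only [Function.comp]
    rw [div_pow, mul_one_div]
    push_cast
    rfl
  have h2r : (0 : ℝ) < 2 * r := by positivity
  rw [hWS, norm_mul, norm_pow, Complex.norm_real, Real.norm_of_nonneg h2r.le] at hk3
  -- triangle inequality
  have htri : ‖S‖ ≤ CC * l / (1 / 16) ^ k + ‖X‖ + ‖(ex : ℂ) / (s0 - 1) ^ (k + 1)‖ := by
    have h1 : S = (S + X - ex / (s0 - 1) ^ (k + 1)) - X + ex / (s0 - 1) ^ (k + 1) := by ring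
    rw [h1]
    have h2 := norm_add_le ((S + X - ex / (s0 - 1) ^ (k + 1)) - X) (ex / (s0 - 1) ^ (k + 1))
    have h3 := norm_sub_le (S + X - ex / (s0 - 1) ^ (k + 1)) X
    linarith
  -- the term from G
  have hGt : (2 * r) ^ (k + 1) * (CC * l / (1 / 16) ^ k) ≤ c ^ (K + 1) / 8 := by
    have h1 : (2 * r) ^ (k + 1) * (CC * l / (1 / 16) ^ k) = 2 * CC * (r * l) * (32 * r) ^ k := by
      have h16 : ((1 : ℝ) / 16) ^ k = ((16 : ℝ) ^ k)⁻¹ := by rw [one_div, inv_pow]
      rw [h16, div_inv_eq_mul, show (32 * r : ℝ) = 16 * (2 * r) by ring, mul_pow 16 (2 * r) k,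
        pow_succ]
      ring
    rw [h1]
    have h2 : (32 * r) ^ k ≤ (c / 2) ^ (K + 1) :=
      (pow_le_pow_left₀ (by positivity) hrc k).trans
        (pow_le_pow_of_le_one (by positivity) (by linarith) hk1)
    have h3 : CC * (r * l) ≤ K / 8 := by
      have h4 : 8 * CC * (r * l) ≤ D * (r * l) := mul_le_mul_of_nonneg_right hD2 (by positivity)
      linarith
    have h8 : (K : ℝ) ≤ 2 ^ K := by exact_mod_cast Nat.lt_two_pow_self.le
    calc 2 * CC * (r * l) * (32 * r) ^ k = 2 * (CC * (r * l)) * (32 * r) ^ k := by ring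
      _ ≤ 2 * (K / 8) * (c / 2) ^ (K + 1) := by gcongr
      _ ≤ 2 * (2 ^ K / 8) * (c / 2) ^ (K + 1) := by gcongr
      _ = (2 ^ (K + 1)) * (c / 2) ^ (K + 1) / 8 := by rw [pow_succ 2 K]; ring
      _ = c ^ (K + 1) / 8 := by rw [← mul_pow, mul_div_cancel₀ _ (by norm_num)]
  -- the pole
  have hPt : (2 * r) ^ (k + 1) * ‖(ex : ℂ) / (s0 - 1) ^ (k + 1)‖ ≤ c ^ (K + 1) / 8 := by
    rcases hex with h | h
    · rw [h]; simp; positivity
    · have h1 := hpole h
      rw [h, norm_div, Complex.ofReal_one, norm_one, norm_pow, mul_one_div, ← div_pow]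
      have h2 : 0 ≤ 2 * r / ‖s0 - 1‖ := by positivity
      calc (2 * r / ‖s0 - 1‖) ^ (k + 1) ≤ (c / 8) ^ (k + 1) := pow_le_pow_left₀ h2 h1 _
        _ ≤ (c / 8) ^ (K + 1) := pow_le_pow_of_le_one (by positivity) (by linarith) (by omega)
        _ = c ^ (K + 1) * (1 / 8) ^ (K + 1) := by rw [← mul_pow]; ring
        _ ≤ c ^ (K + 1) * (1 / 8) ^ 1 := by
            refine mul_le_mul_of_nonneg_left ?_ (by positivity)
            exact pow_le_pow_of_le_one (by norm_num) (by norm_num) (by omega)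
        _ = _ := by ring
  have hmul := mul_le_mul_of_nonneg_left htri (by positivity : (0 : ℝ) ≤ (2 * r) ^ (k + 1))
  have hexp : (2 * r) ^ (k + 1) *
      (CC * l / (1 / 16) ^ k + ‖X‖ + ‖(ex : ℂ) / (s0 - 1) ^ (k + 1)‖) =
      (2 * r) ^ (k + 1) * (CC * l / (1 / 16) ^ k) + (2 * r) ^ (k + 1) * ‖X‖ +
      (2 * r) ^ (k + 1) * ‖(ex : ℂ) / (s0 - 1) ^ (k + 1)‖ := by ring
  rw [hexp] at hmul
  linarith

/-- `(c / 4) ^ K` is at least `c / (4 Z)`. -/
theorem pow_lower {c D r c7 : ℝ} {Z K : ℕ} (hc0 : 0 < c) (hc1 : c < 1) (hZ : 3 ≤ Z)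
    (hD : 0 < D) (hr : r ≤ c7) (hc7 : c7 ≤ 1 / (D * Real.log (4 / c)))
    (hK : (K : ℝ) ≤ D * r * Real.log Z + 1) : c / 4 / Z ≤ (c / 4) ^ K := by
  have hZR : (3 : ℝ) ≤ Z := by exact_mod_cast hZ
  have hZ0 : (0 : ℝ) < Z := by linarith
  have hl : 0 < Real.log Z := Real.log_pos (by linarith)
  have hlog : 0 < Real.log (4 / c) := by
    refine Real.log_pos ?_
    rw [lt_div_iff₀ hc0]
    linarith
  have h1 : D * r * Real.log (4 / c) ≤ 1 := by
    have h2 : r ≤ 1 / (D * Real.log (4 / c)) := hr.trans hc7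
    rw [le_div_iff₀ (by positivity)] at h2
    linarith
  have h3 : (K : ℝ) * Real.log (4 / c) ≤ Real.log Z + Real.log (4 / c) := by
    have h4 : (K : ℝ) * Real.log (4 / c) ≤ (D * r * Real.log Z + 1) * Real.log (4 / c) :=
      mul_le_mul_of_nonneg_right hK hlog.le
    have h5 : (D * r * Real.log Z + 1) * Real.log (4 / c) =
        D * r * Real.log (4 / c) * Real.log Z + Real.log (4 / c) := by ring
    have h6 : D * r * Real.log (4 / c) * Real.log Z ≤ 1 * Real.log Z :=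
      mul_le_mul_of_nonneg_right h1 hl.le
    linarith
  have h7 : (c / 4) ^ K = Real.exp (-((K : ℝ) * Real.log (4 / c))) := by
    rw [← mul_neg, Real.exp_nat_mul, Real.exp_neg, Real.exp_log (by positivity), inv_div]
  have h8 : c / 4 / Z = Real.exp (-(Real.log Z + Real.log (4 / c))) := by
    rw [Real.exp_neg, Real.exp_add, Real.exp_log hZ0, Real.exp_log (by positivity)]
    field_simp
  rw [h7, h8]
  exact Real.exp_le_exp.2 (by linarith)

end Pool.Agent.PS.ADL1

namespace Pool.Agent.PS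

open Finset ArithmeticFunction Metric Filter Topology
open Pool.Agent.PS.ADLa Pool.Agent.PS.ADLb Pool.Agent.PS.ADLc Pool.Agent.PS.ADL1
open scoped Classical

theorem stmt_ADL1 : Stmt_ADL1 := by
  obtain ⟨c, hc0, hc1, htur⟩ := turan_strong
  obtain ⟨CF, hCF, hLF⟩ := stmt_LF
  obtain ⟨Cpp, hCpp, hpp⟩ := exists_pp
  intro C1 c6 hC1 hc6
  have hCL := one_le_CL
  set CC : ℝ := 4 * CF * C1 with hCC
  have hCC0 : 4 ≤ CC := by rw [hCC]; exact X_b hCF hC1
  set E : ℝ := 4 * CL + 1 + CC with hE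
  have hE1 : 1 ≤ E := by rw [hE]; linarith
  set D : ℝ := 960 * E / c ^ 2 with hD
  have hc2 : c ^ 2 ≤ 1 := pow_le_one₀ hc0.le hc1.le
  have hc2' : 0 < c ^ 2 := by positivity
  have hDE : 960 * E ≤ D := by
    rw [hD, le_div_iff₀ hc2']
    exact mul_le_of_le_one_right (by linarith) hc2
  have hD1 : 1 ≤ D := by linarith
  set v : ℝ := 11520 * CL / c with hv
  have hv1 : 1 ≤ v := by
    rw [hv, le_div_iff₀ hc0]
    linarith
  set A : ℕ := ⌈v * (4 * D)⌉₊ with hA
  have hvA : v * (4 * D) ≤ A := Nat.le_ceil _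
  have hA5 : 5 ≤ A := by
    have h1 : (5 : ℝ) ≤ A := by
      refine le_trans ?_ hvA
      exact X_c hv1 (by linarith)
    exact_mod_cast h1
  set c7 : ℝ := min (min (c / 64) (c * c6 / 32)) (min (c6 / 2) (1 / (D * Real.log (4 / c))))
    with hc7
  have hlog : 0 < Real.log (4 / c) := by
    refine Real.log_pos ?_
    rw [lt_div_iff₀ hc0]
    linarith
  have hc7a : c7 ≤ c / 64 := (min_le_left _ _).trans (min_le_left _ _)
  have hc7b : c7 ≤ c * c6 / 32 := (min_le_left _ _).trans (min_le_right _ _)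
  have hc7c : c7 ≤ c6 / 2 := (min_le_right _ _).trans (min_le_left _ _)
  have hc7d : c7 ≤ 1 / (D * Real.log (4 / c)) := (min_le_right _ _).trans (min_le_right _ _)
  have hc70 : 0 < c7 := by
    rw [hc7]
    refine lt_min (lt_min (by positivity) (by positivity)) (lt_min (by positivity) (by positivity))
  set H : ℝ := 128 * Real.exp (A / 100) * Cpp / c ^ 2 with hH
  have hH0 : 0 < H := by rw [hH]; positivity
  refine ⟨A, D, c ^ 2 / 64, c7, max 3 (max (8 * E) (H ^ 4)), hA5, hD1, by positivity, by linarith,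
    hc70, le_trans (by norm_num) (le_max_left _ _), ?_⟩
  intro Z hZC δ hδ0 hδ w hw x _ F L ex hF r hr1 hr2 t ht hex
  have hZR : (3 : ℝ) ≤ Z := (le_max_left _ _).trans hZC
  have hZ3 : 3 ≤ Z := by exact_mod_cast hZR
  have hZ0 : (0 : ℝ) < Z := by linarith
  have hZH : H ^ 4 ≤ Z := ((le_max_right _ _).trans (le_max_right _ _)).trans hZC
  set l := Real.log Z with hl
  have hl1 : 1 ≤ l := by
    rw [hl, Real.le_log_iff_exp_le hZ0]
    exact (Real.exp_one_lt_d9.le.trans (by norm_num)).trans hZR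
  have hl0 : 0 < l := by linarith
  have hr0 : 0 < r := lt_of_lt_of_le (by positivity) hr1
  have hrl : 1 ≤ r * l := by
    rw [div_le_iff₀ hl0] at hr1
    exact hr1
  have hr16 : r ≤ 1 / 16 := by linarith
  have hδr : δ ≤ r / 100 := by
    have : 1 / (100 * l) = 1 / l / 100 := by field_simp
    rw [this] at hδ
    linarith
  obtain ⟨ρ0, hρ0, hρ0r⟩ := hex
  obtain ⟨L1, G, hne, hG, hB, hev, hQ, hcnt, hmem⟩ :=
    local_formula hCF hLF hC1 hZ3 hδ0 hδ hw hF hr1 hr16 ht
  have hs0 : pt r t - (1 + t * Complex.I) = (r : ℂ) := by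
    unfold pt; push_cast; ring
  have hnear : ∀ ρ : ℂ, ‖ρ - (1 + t * Complex.I)‖ ≤ r → ‖pt r t - ρ‖ ≤ 2 * r := by
    intro ρ hρ
    have h1 : pt r t - ρ = (pt r t - (1 + t * Complex.I)) - (ρ - (1 + t * Complex.I)) := by ring
    rw [h1, hs0]
    refine (norm_sub_le _ _).trans ?_
    rw [Complex.norm_real, Real.norm_of_nonneg hr0.le]
    linarith
  constructor
  · -- the count
    set W : List ℂ := L1.map fun ρ => 2 * (r : ℂ) / (pt r t - ρ) with hW
    have h1 := near_count W (β := 1) zero_le_one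
    have h2 : (W.map fun z => ‖z‖ ^ 2).sum ≤ 8 * E * (r * l) := by
      rw [hW, List.map_map]
      exact hQ
    have h3 : (L1.filter fun ρ => ‖ρ - (1 + t * Complex.I)‖ ≤ r).length ≤
        (W.filter fun z => 1 ≤ ‖z‖).length := by
      rw [hW, List.filter_map, List.length_map]
      have : ∀ K : List ℂ, (∀ ρ ∈ K, ρ ∈ L1) →
          (K.filter fun ρ => ‖ρ - (1 + t * Complex.I)‖ ≤ r).length ≤
          (K.filter ((fun z => decide (1 ≤ ‖z‖)) ∘
            fun ρ => 2 * (r : ℂ) / (pt r t - ρ))).length := by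
        intro K
        induction K with
        | nil => simp
        | cons a K ih =>
          intro hK
          have h4 := ih fun ρ hρ => hK ρ (List.mem_cons_of_mem _ hρ)
          by_cases h5 : ‖a - (1 + t * Complex.I)‖ ≤ r
          · have h6 : 1 ≤ ‖2 * (r : ℂ) / (pt r t - a)‖ := by
              have h7 : 0 < ‖pt r t - a‖ := by
                rw [norm_pos_iff, sub_ne_zero]; exact hne a (hK a List.mem_cons_self)
              rw [norm_div, norm_mul, Complex.norm_real, Real.norm_of_nonneg hr0.le,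
                Complex.norm_ofNat, le_div_iff₀ h7, one_mul]
              exact hnear a h5
            rw [List.filter_cons_of_pos (by simpa using h5),
              List.filter_cons_of_pos (by simpa using h6), List.length_cons, List.length_cons]
            omega
          · rw [List.filter_cons_of_neg (by simpa using h5)]
            refine h4.trans ?_
            exact ((List.sublist_cons_self a K).filter _).length_le
      exact this L1 fun ρ hρ => hρ
    have h4 : ((L.filter fun ρ => ‖ρ - (1 + t * Complex.I)‖ ≤ r).length : ℝ) ≤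
        (W.filter fun z => 1 ≤ ‖z‖).length := by exact_mod_cast hcnt.trans h3
    have h5 : 8 * E * (r * l) ≤ max 3 (max (8 * E) (H ^ 4)) * (r * l) :=
      mul_le_mul_of_nonneg_right ((le_max_left _ _).trans (le_max_right _ _)) (by positivity)
    have h6 : max 3 (max (8 * E) (H ^ 4)) * r * l = max 3 (max (8 * E) (H ^ 4)) * (r * l) := by
      ring
    rw [h6]
    linarith
  · set K : ℕ := ⌈D * r * l⌉₊ with hK
    have hK1 : D * r * l ≤ K := Nat.le_ceil _
    have hDrl : 1 ≤ D * r * l := by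
      have : D * r * l = D * (r * l) := by ring
      rw [this]
      exact one_le_mul_of_one_le_of_one_le hD1 hrl
    have hK2 : (K : ℝ) < D * r * l + 1 := Nat.ceil_lt_add_one (by linarith)
    have hK0 : 1 ≤ K := by
      have : (1 : ℝ) ≤ K := by linarith
      exact_mod_cast this
    have hf : LSeries.abscissaOfAbsConv (cf x.2 w) < (pt r t).re := by
      refine lt_of_le_of_lt (abscissa_le x.2 hw) ?_
      rw [pt_re]
      exact_mod_cast (by linarith : 1 + δ < 1 + r)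
    have hpole : ex = 1 → 2 * r / ‖pt r t - 1‖ ≤ c / 8 := by
      intro h
      have h1 := hF.pole h ρ0 hρ0
      have h2 : ‖ρ0 - 1‖ ≤ ‖ρ0 - (1 + t * Complex.I)‖ + |t| := by
        have h3 : ρ0 - 1 = (ρ0 - (1 + t * Complex.I)) + t * Complex.I := by ring
        rw [h3]
        refine (norm_add_le _ _).trans ?_
        rw [norm_mul, Complex.norm_I, mul_one, Complex.norm_real, Real.norm_eq_abs]
      have h4 : |t| ≤ ‖pt r t - 1‖ := by
        have := Complex.abs_im_le_norm (pt r t - 1)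
        rwa [Complex.sub_im, pt_im, Complex.one_im, sub_zero] at this
      have h5 : c6 / 2 ≤ ‖pt r t - 1‖ := by linarith
      have h6 : 0 < ‖pt r t - 1‖ := by linarith
      rw [div_le_iff₀ h6]
      have h7 : c / 8 * (c6 / 2) ≤ c / 8 * ‖pt r t - 1‖ := mul_le_mul_of_nonneg_left h5 (by positivity)
      have h8 : c / 8 * (c6 / 2) = 2 * (c * c6 / 32) := by ring
      linarith
    obtain ⟨k, hk1, hk2, hk3⟩ := big_deriv (E := E) (D := D) (K := K) hc0 hc1 htur hr0 hl0 hf hne hG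
      (by linarith) hB hev hQ (hmem ρ0 hρ0 hρ0r) (hnear ρ0 hρ0r) (by
        rw [hD]
        gcongr
        norm_num) (by linarith) (by linarith) (by
        have : D * (r * l) = D * r * l := by ring
        rw [this]; exact hK1) (by linarith) hF.ex01 hpole
    refine ⟨k, hk1, hk2, ?_⟩
    set X : ℂ := LSeries (LSeries.logMul^[k] (cf x.2 w)) (pt r t) with hX
    set b : ℝ := (c / 4) ^ K / r with hb
    have hb0 : 0 < b := by rw [hb]; positivity
    have hkf : (0 : ℝ) < k.factorial := by exact_mod_cast k.factorial_pos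
    -- main lower bound
    have hmain : c / 4 * b ≤ ‖((r ^ k / k.factorial : ℝ) : ℂ) * X‖ := by
      have h1 : ‖((r ^ k / k.factorial : ℝ) : ℂ) * X‖ = r ^ k * ‖X / k.factorial‖ := by
        rw [norm_mul, Complex.norm_real, Real.norm_of_nonneg (by positivity), norm_div,
          Complex.norm_natCast]
        ring
      rw [h1]
      have h2 : (2 * r) ^ (k + 1) * ‖X / k.factorial‖ =
          2 * r * 2 ^ k * (r ^ k * ‖X / k.factorial‖) := by
        rw [pow_succ, mul_pow]; ring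
      rw [h2] at hk3
      have h3 : (2 : ℝ) ^ k ≤ 4 ^ K := by
        rw [show (4 : ℝ) = 2 ^ 2 by norm_num, ← pow_mul]
        exact pow_le_pow_right₀ (by norm_num) hk2
      have h4 : 2 * r * 2 ^ k * (r ^ k * ‖X / k.factorial‖) ≤
          2 * r * 4 ^ K * (r ^ k * ‖X / k.factorial‖) := by gcongr
      have h5 : c ^ (K + 1) / 2 = 2 * r * 4 ^ K * (c / 4 * b) := by
        rw [hb, div_pow, pow_succ]
        field_simp
        ring
      rw [h5] at hk3
      have h6 := hk3.trans h4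
      exact le_of_mul_le_mul_left h6 (by positivity)
    -- truncation
    have hk4 : (k : ℝ) ≤ 4 * (D * r * l) := by
      have : (k : ℝ) ≤ 2 * K := by exact_mod_cast hk2
      linarith
    have hkK : (K : ℝ) ≤ k := by exact_mod_cast hk1.le
    have htr := trunc (x := x) (w := w) (δ := δ) (Z := Z) (A := A) (k := k) (r := r) (t := t)
      (D := D) (v := v) (Cpp := Cpp) hw (by omega) hδ0 hδr hδ hr0 (by linarith) hD1 (by omega) hv1
      hvA (by linarith) hk4 hpp
    have hE1' : (15 / D) ^ k * (2 * (CL / (r - δ))) ≤ c / 16 * b := by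
      have h1 : 15 / D = c ^ 2 / (64 * E) := by
        rw [hD]
        field_simp
        norm_num
      have h2 : 15 / D ≤ c / 4 := by
        rw [h1, div_le_div_iff₀ (by positivity) (by norm_num)]
        exact X_d hc0 hc1.le hE1
      have h3 : (15 / D) ^ k ≤ (c / 4) ^ K * (c ^ 2 / (64 * E)) := by
        have h4 : (15 / D) ^ k ≤ (15 / D) ^ (K + 1) :=
          pow_le_pow_of_le_one (by positivity) (by linarith) hk1
        rw [pow_succ] at h4
        nth_rw 3 [h1] at h4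
        refine h4.trans ?_
        gcongr
      have h5 : 2 * (CL / (r - δ)) ≤ 4 * CL / r := by
        rw [← mul_div_assoc, div_le_div_iff₀ (by linarith) hr0]
        exact X_e hCL hr0 hδr
      have h5' : 0 ≤ 2 * (CL / (r - δ)) := by
        have : 0 < r - δ := by linarith
        positivity
      calc (15 / D) ^ k * (2 * (CL / (r - δ))) ≤
          (c / 4) ^ K * (c ^ 2 / (64 * E)) * (4 * CL / r) := by gcongr
        _ = b * (4 * CL / E) * (c ^ 2 / 64) := by
            rw [hb]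
            field_simp
        _ ≤ b * 1 * (c / 16) := by
            have h6 : 4 * CL / E ≤ 1 := by
              rw [div_le_one (by linarith)]
              linarith
            have h7 : c ^ 2 / 64 ≤ c / 16 := X_f hc0 hc1.le
            gcongr
        _ = _ := by ring
    have hE2' : (144 / v) ^ k * (2 * (CL / (r / 2 - δ))) ≤ c / 16 * b := by
      have h1 : 144 / v = c / (80 * CL) := by
        rw [hv]
        field_simp
        norm_num
      have h2 : 144 / v ≤ c / 4 := by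
        rw [h1, div_le_div_iff₀ (by positivity) (by norm_num)]
        exact X_g hc0 hCL
      have h3 : (144 / v) ^ k ≤ (c / 4) ^ K * (c / (80 * CL)) := by
        have h4 : (144 / v) ^ k ≤ (144 / v) ^ (K + 1) :=
          pow_le_pow_of_le_one (by positivity) (by linarith) hk1
        rw [pow_succ] at h4
        nth_rw 3 [h1] at h4
        refine h4.trans ?_
        gcongr
      have h5 : 2 * (CL / (r / 2 - δ)) ≤ 5 * CL / r := by
        rw [← mul_div_assoc, div_le_div_iff₀ (by linarith) hr0]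
        exact X_h hCL hr0 hδr
      have h5' : 0 ≤ 2 * (CL / (r / 2 - δ)) := by
        have : 0 < r / 2 - δ := by linarith
        positivity
      calc (144 / v) ^ k * (2 * (CL / (r / 2 - δ))) ≤
          (c / 4) ^ K * (c / (80 * CL)) * (5 * CL / r) := by gcongr
        _ = c / 16 * b := by
            rw [hb]
            field_simp
            norm_num
    have hE3' : 2 * Real.exp (A / 100) * (Cpp * ((Z : ℝ) ^ 5) ^ (-(1 / 4) : ℝ)) ≤
        c / 16 * b := by
      have h1 := pow_lower (K := K) hc0 hc1 hZ3 (by linarith : 0 < D) hr2 hc7d hK2.le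
      have h2 : (c / 4) ^ K ≤ b := by
        rw [hb, le_div_iff₀ hr0]
        have : 0 ≤ (c / 4) ^ K := by positivity
        exact mul_le_of_le_one_right this (by linarith)
      have h3 : ((Z : ℝ) ^ 5) ^ (-(1 / 4) : ℝ) = (Z : ℝ)⁻¹ * ((Z : ℝ) ^ (1 / 4 : ℝ))⁻¹ := by
        rw [← Real.rpow_natCast, ← Real.rpow_mul hZ0.le, ← Real.rpow_neg hZ0.le,
          ← Real.rpow_neg_one, ← Real.rpow_add hZ0]
        norm_num
      have h4 : H ≤ (Z : ℝ) ^ (1 / 4 : ℝ) := by
        have h5 : (H ^ 4) ^ (1 / 4 : ℝ) = H := by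
          rw [← Real.rpow_natCast, ← Real.rpow_mul hH0.le]
          norm_num
        rw [← h5]
        exact Real.rpow_le_rpow (by positivity) hZH (by norm_num)
      have h6 : ((Z : ℝ) ^ (1 / 4 : ℝ))⁻¹ ≤ H⁻¹ := inv_anti₀ hH0 h4
      rw [h3]
      calc 2 * Real.exp (A / 100) * (Cpp * ((Z : ℝ)⁻¹ * ((Z : ℝ) ^ (1 / 4 : ℝ))⁻¹)) ≤
          2 * Real.exp (A / 100) * (Cpp * ((Z : ℝ)⁻¹ * H⁻¹)) := by gcongr
        _ = c / 16 * (c / 4 / Z) := by
            rw [hH]
            field_simp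
            norm_num
        _ ≤ c / 16 * b := by
            refine mul_le_mul_of_nonneg_left (h1.trans h2) (by positivity)
    have htri : ‖((r ^ k / k.factorial : ℝ) : ℂ) * X‖ ≤
        ‖((r ^ k / k.factorial : ℝ) : ℂ) * X - Pk Z A r k w x t‖ + ‖Pk Z A r k w x t‖ := by
      have h1 : ((r ^ k / k.factorial : ℝ) : ℂ) * X =
          (((r ^ k / k.factorial : ℝ) : ℂ) * X - Pk Z A r k w x t) + Pk Z A r k w x t := by ring
      nth_rw 1 [h1]
      exact norm_add_le _ _
    have hP : c / 16 * b ≤ ‖Pk Z A r k w x t‖ := by linarith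
    refine le_trans ?_ hP
    have h1 : (c ^ 2 / 64) ^ K = (c / 16) ^ K * (c / 4) ^ K := by
      rw [← mul_pow]; congr 1; ring
    have h2 : (c / 16) ^ K ≤ (c / 16) ^ 1 :=
      pow_le_pow_of_le_one (by positivity) (by linarith) hK0
    rw [pow_one] at h2
    rw [h1, hb]
    have h3 : 1 / r * ((c / 16) ^ K * (c / 4) ^ K) = (c / 16) ^ K * ((c / 4) ^ K / r) := by ring
    rw [h3]
    gcongr

end Pool.Agent.PS
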