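import Pool.Agent.Work.PS.Interface
import Pool.Agent.Work.Circle.CircleIneq

/-!
# CIRC (helper66): mean square of the minor arc contribution
-/

set_option autoImplicit false

namespace Pool.Agent.PS.Circ

open Finset ArithmeticFunction
open Pool.Agent.Circle (e e_add e_add_int full_sum parseval e_int)

/-- the centre of an arc, as a multiple of `1 / R` -/
def ww (R : ℕ) (t : (_ : (_ : ℕ) × ℕ) × ℤ) : ℤ := (t.1.2 : ℤ) * (R / t.1.1 : ℕ) + t.2

/-- the arcs -/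
noncomputable def TT (P H : ℕ) : Finset ((_ : (_ : ℕ) × ℕ) × ℤ) :=
  ((Ioc 0 P).sigma fun q => (range q).filter (fun a => a.Coprime q)).sigma
    fun _ => Icc (-(H : ℤ)) H

lemma mem_TT {P H : ℕ} {t : (_ : (_ : ℕ) × ℕ) × ℤ} : t ∈ TT P H ↔
    ((0 < t.1.1 ∧ t.1.1 ≤ P) ∧ t.1.2 < t.1.1 ∧ t.1.2.Coprime t.1.1) ∧ -(H : ℤ) ≤ t.2 ∧ t.2 ≤ H := by
  simp only [TT, mem_sigma, mem_Ioc, mem_filter, mem_range, mem_Icc]

lemma ww_div {R : ℕ} (hR : 0 < R) {q : ℕ} (hq : 0 < q) (hd : q ∣ R) (a : ℕ) (i : ℤ) :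
    ((a : ℝ) / q + (i : ℝ) / R) = ((ww R ⟨⟨q, a⟩, i⟩ : ℤ) : ℝ) / R := by
  obtain ⟨c, rfl⟩ := hd
  have hc : 0 < c := Nat.pos_of_mul_pos_left hR |> fun h => by
    rcases Nat.eq_zero_or_pos c with h0 | h0
    · subst h0; simp at hR
    · exact h0
  have h1 : q * c / q = c := Nat.mul_div_cancel_left c hq
  have hq' : (q : ℝ) ≠ 0 := by exact_mod_cast hq.ne'
  have hc' : (c : ℝ) ≠ 0 := by exact_mod_cast hc.ne'
  simp only [ww, h1]
  push_cast
  field_simp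

/-- shift of the argument by a period -/
lemma e_period {R : ℕ} (hR : 0 < R) (n : ℕ) (k w : ℤ) (h : (R : ℤ) ∣ k - w) :
    e (n * ((w : ℝ) / R)) = e (n * ((k : ℝ) / R)) := by
  obtain ⟨c, hc⟩ := h
  have hR' : (R : ℝ) ≠ 0 := by exact_mod_cast hR.ne'
  have h1 : (n : ℝ) * ((k : ℝ) / R) = n * ((w : ℝ) / R) + ((n * c : ℤ) : ℝ) := by
    have h2 : (k : ℝ) = w + R * c := by
      have : k = w + R * c := by linarith
      rw [this]; push_cast; ring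
    rw [h2]
    push_cast
    field_simp
  rw [h1, e_add_int]

/-- distinct arcs are disjoint -/
lemma arcs_disjoint {P R H : ℕ} (hR : 0 < R) (hP : 0 < P) (hdiv : ∀ q, 0 < q → q ≤ P → q ∣ R)
    (hH : 4 * H * P ^ 2 < R) (s t : (_ : (_ : ℕ) × ℕ) × ℤ) (hs : s ∈ TT P H) (ht : t ∈ TT P H)
    (hd : (R : ℤ) ∣ ww R s - ww R t) : s = t := by
  obtain ⟨⟨q, a⟩, i⟩ := s
  obtain ⟨⟨q', a'⟩, i'⟩ := t
  rw [mem_TT] at hs ht
  simp only at hs ht
  obtain ⟨⟨⟨hq, hqP⟩, haq, hco⟩, hi1, hi2⟩ := hs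
  obtain ⟨⟨⟨hq', hqP'⟩, haq', hco'⟩, hi1', hi2'⟩ := ht
  have hdq := hdiv q hq hqP
  have hdq' := hdiv q' hq' hqP'
  obtain ⟨n, hn⟩ := hd
  have hR' : (0 : ℝ) < R := by exact_mod_cast hR
  have h1 := ww_div hR hq hdq a i
  have h2 := ww_div hR hq' hdq' a' i'
  have h3 : ((ww R ⟨⟨q, a⟩, i⟩ : ℤ) : ℝ) / R - ((ww R ⟨⟨q', a'⟩, i'⟩ : ℤ) : ℝ) / R = n := by
    rw [← sub_div]
    rw [div_eq_iff hR'.ne']
    have : ((ww R ⟨⟨q, a⟩, i⟩ - ww R ⟨⟨q', a'⟩, i'⟩ : ℤ) : ℝ) = ((R * n : ℤ) : ℝ) := by rw [hn]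
    push_cast at this
    linarith
  rw [← h1, ← h2] at h3
  have hqr : (0 : ℝ) < q := by exact_mod_cast hq
  have hqr' : (0 : ℝ) < q' := by exact_mod_cast hq'
  -- the integer `a q' - a' q - n q q'`
  set D : ℤ := (a : ℤ) * q' - a' * q - n * q * q' with hD
  have h4 : (D : ℝ) / (q * q') = ((i' : ℝ) - i) / R := by
    have h5 : (a : ℝ) / q - (a' : ℝ) / q' - n = ((i' : ℝ) - i) / R := by
      rw [sub_div]; linarith
    rw [← h5, hD]
    push_cast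
    field_simp
  have hD0 : D = 0 := by
    by_contra hne
    have h6 : (1 : ℝ) ≤ |(D : ℝ)| := by
      have : 1 ≤ |D| := Int.one_le_abs hne
      exact_mod_cast this
    have h7 : (q : ℝ) * q' ≤ P ^ 2 := by
      have a1 : (q : ℝ) ≤ P := by exact_mod_cast hqP
      have a2 : (q' : ℝ) ≤ P := by exact_mod_cast hqP'
      nlinarith
    have h8 : (R : ℝ) * 1 ≤ |(D : ℝ)| * R := by nlinarith
    have h9 : ((4 * H * P ^ 2 + 1 : ℕ) : ℝ) ≤ R := by exact_mod_cast hH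
    push_cast at h9
    have h6' : |(D : ℝ)| * R ≤ 2 * H * (q * q') := by
      have h6 : (D : ℝ) * R = (i' - i) * (q * q') := by
        field_simp at h4
        linarith
      have h7 : |(D : ℝ)| * R = |((i' : ℝ) - i)| * (q * q') := by
        have h10 : |(D : ℝ)| * R = |(D : ℝ) * R| := by rw [abs_mul, abs_of_pos hR']
        rw [h10, h6, abs_mul, abs_of_pos (a := (q : ℝ) * q') (by positivity)]
      have h8 : |((i' : ℝ) - i)| ≤ 2 * H := by
        have : |i' - i| ≤ 2 * (H : ℤ) := by rw [abs_le]; constructor <;> linarith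
        exact_mod_cast this
      rw [h7]
      have h9 : (0 : ℝ) < q * q' := by positivity
      nlinarith
    have h10 : (0 : ℝ) ≤ H := Nat.cast_nonneg H
    have h11 : (2 : ℝ) * H * (q * q') ≤ 2 * H * P ^ 2 := by gcongr
    have h12 : (0 : ℝ) ≤ H * P ^ 2 := by positivity
    nlinarith
  -- so `a / q - a' / q' = n`, hence `n = 0`
  have hn0 : n = 0 := by
    have h6 : (a : ℤ) * q' - a' * q = n * (q * q') := by
      have : (a : ℤ) * q' - a' * q - n * q * q' = 0 := by rw [← hD, hD0]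
      linarith
    have h7 : (a : ℤ) * q' < q * q' := by
      have : (a : ℤ) < q := by exact_mod_cast haq
      have h8 : (0 : ℤ) < q' := by exact_mod_cast hq'
      nlinarith
    have h8 : (a' : ℤ) * q < q * q' := by
      have : (a' : ℤ) < q' := by exact_mod_cast haq'
      have h8 : (0 : ℤ) < q := by exact_mod_cast hq
      nlinarith
    have h9 : (0 : ℤ) ≤ a * q' := by positivity
    have h10 : (0 : ℤ) ≤ a' * q := by positivity
    have h11 : (0 : ℤ) < q * q' := by positivity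
    have h12 : n < 1 := by nlinarith
    have h13 : -1 < n := by nlinarith
    omega
  have h6 : a * q' = a' * q := by
    have : (a : ℤ) * q' - a' * q - n * q * q' = 0 := by rw [← hD, hD0]
    rw [hn0] at this
    have h7 : (a : ℤ) * q' = a' * q := by linarith
    exact_mod_cast h7
  have h7 : q = q' := by
    have h8 : q ∣ q' := by
      have h9 : q ∣ a * q' := ⟨a', by rw [h6]; ring⟩
      exact (hco.symm).dvd_of_dvd_mul_left h9
    have h9 : q' ∣ q := by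
      have h9 : q' ∣ a' * q := ⟨a, by rw [← h6]; ring⟩
      exact (hco'.symm).dvd_of_dvd_mul_left h9
    exact Nat.dvd_antisymm h8 h9
  subst h7
  have h8 : a = a' := Nat.eq_of_mul_eq_mul_right hq h6
  subst h8
  have h9 : i = i' := by
    rw [hn0] at h3
    push_cast at h3
    have h10 : (i : ℝ) / R = (i' : ℝ) / R := by linarith
    rw [div_left_inj' hR'.ne'] at h10
    exact_mod_cast h10
  subst h9
  rfl

/-- Fourier transform of `Maj` -/
lemma maj_ft {P R H : ℕ} (hR : 0 < R) (hdiv : ∀ q, 0 < q → q ≤ P → q ∣ R)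
    (I₁ I₂ : Finset ℕ) (f₁ f₂ : ℕ → ℂ) (k : ℕ) :
    ∑ m ∈ range R, Maj P R H I₁ I₂ f₁ f₂ m * e (m * ((k : ℝ) / R)) =
      (((TT P H).filter fun t => (R : ℤ) ∣ (k : ℤ) - ww R t).card : ℂ) *
      ((∑ n ∈ I₁, f₁ n * e (n * ((k : ℝ) / R))) * ∑ n ∈ I₂, f₂ n * e (n * ((k : ℝ) / R))) := by
  have hR' : (R : ℂ) ≠ 0 := by exact_mod_cast hR.ne'
  have hRr : (R : ℝ) ≠ 0 := by exact_mod_cast hR.ne'
  -- `Maj` as a sum over `TT`
  have h1 : ∀ m, Maj P R H I₁ I₂ f₁ f₂ m = (1 / (R : ℂ)) * ∑ t ∈ TT P H,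
      (∑ n ∈ I₁, f₁ n * e (n * ((ww R t : ℤ) / (R : ℝ)))) *
      (∑ n ∈ I₂, f₂ n * e (n * ((ww R t : ℤ) / (R : ℝ)))) *
      e (-(m * ((ww R t : ℤ) / (R : ℝ)))) := by
    intro m
    unfold Maj TT
    rw [sum_sigma, sum_sigma]
    congr 1
    refine sum_congr rfl fun q hq => sum_congr rfl fun a ha => sum_congr rfl fun i hi => ?_
    rw [mem_Ioc] at hq
    have h2 := ww_div hR hq.1 (hdiv q hq.1 hq.2) a i
    rw [← h2]
  simp_rw [h1]
  have h2 : ∀ m ∈ range R, (1 / (R : ℂ)) * (∑ t ∈ TT P H,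
      (∑ n ∈ I₁, f₁ n * e (n * ((ww R t : ℤ) / (R : ℝ)))) *
      (∑ n ∈ I₂, f₂ n * e (n * ((ww R t : ℤ) / (R : ℝ)))) *
      e (-(m * ((ww R t : ℤ) / (R : ℝ))))) * e (m * ((k : ℝ) / R))
      = ∑ t ∈ TT P H, (1 / (R : ℂ)) *
      ((∑ n ∈ I₁, f₁ n * e (n * ((ww R t : ℤ) / (R : ℝ)))) *
      (∑ n ∈ I₂, f₂ n * e (n * ((ww R t : ℤ) / (R : ℝ))))) *
      e (m * ((((k : ℤ) - ww R t : ℤ) : ℝ) / R)) := by
    intro m _
    rw [mul_sum, sum_mul]
    refine sum_congr rfl fun t _ => ?_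
    have h3 : (m : ℝ) * ((((k : ℤ) - ww R t : ℤ) : ℝ) / R)
        = -(m * ((ww R t : ℤ) / (R : ℝ))) + m * ((k : ℝ) / R) := by
      push_cast
      field_simp
      ring
    rw [h3, e_add]
    ring
  rw [sum_congr rfl h2, sum_comm]
  have h3 : ∀ t ∈ TT P H, ∑ m ∈ range R, (1 / (R : ℂ)) *
      ((∑ n ∈ I₁, f₁ n * e (n * ((ww R t : ℤ) / (R : ℝ)))) *
      (∑ n ∈ I₂, f₂ n * e (n * ((ww R t : ℤ) / (R : ℝ))))) *
      e (m * ((((k : ℤ) - ww R t : ℤ) : ℝ) / R))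
      = if (R : ℤ) ∣ (k : ℤ) - ww R t then
        ((∑ n ∈ I₁, f₁ n * e (n * ((k : ℝ) / R))) * ∑ n ∈ I₂, f₂ n * e (n * ((k : ℝ) / R)))
        else 0 := by
    intro t _
    rw [← mul_sum, full_sum R hR]
    split_ifs with hd
    · have h4 : ∀ (I : Finset ℕ) (f : ℕ → ℂ), ∑ n ∈ I, f n * e (n * ((ww R t : ℤ) / (R : ℝ)))
          = ∑ n ∈ I, f n * e (n * ((k : ℝ) / R)) := by
        intro I f
        refine sum_congr rfl fun n _ => ?_
        have h5 := e_period hR n (k : ℤ) (ww R t) hd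
        rw [h5]
        norm_num
      rw [h4, h4, mul_comm (1 / (R : ℂ)) _, mul_assoc, one_div, inv_mul_cancel₀ hR', mul_one]
    · rw [mul_zero]
  rw [sum_congr rfl h3, ← sum_filter, sum_const, nsmul_eq_mul]

/-- Fourier transform of the convolution -/
lemma cv_ft {R : ℕ} (I₁ I₂ : Finset ℕ) (h₁ : ∀ n ∈ I₁, 4 * n < R) (h₂ : ∀ n ∈ I₂, 4 * n < R)
    (f₁ f₂ : ℕ → ℂ) (k : ℕ) :
    ∑ m ∈ range R, cv I₁ I₂ f₁ f₂ m * e (m * ((k : ℝ) / R)) =
      (∑ n ∈ I₁, f₁ n * e (n * ((k : ℝ) / R))) * ∑ n ∈ I₂, f₂ n * e (n * ((k : ℝ) / R)) := by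
  unfold cv
  rw [sum_mul_sum]
  simp_rw [sum_mul]
  rw [sum_comm]
  refine sum_congr rfl fun a ha => ?_
  rw [sum_comm]
  refine sum_congr rfl fun b hb => ?_
  have h5 : ∀ m ∈ range R, (if a + b = m then f₁ a * f₂ b else 0) * e (m * ((k : ℝ) / R))
      = if a + b = m then f₁ a * f₂ b * e (m * ((k : ℝ) / R)) else 0 := fun m _ => by
    split_ifs <;> simp
  have h7 : a + b < R := by have := h₁ a ha; have := h₂ b hb; omega
  rw [sum_congr rfl h5, sum_ite_eq, if_pos (mem_range.mpr h7)]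
  have h6 : ((a + b : ℕ) : ℝ) * ((k : ℝ) / R) = a * ((k : ℝ) / R) + b * ((k : ℝ) / R) := by
    push_cast; ring
  rw [h6, e_add]
  ring

/-- a point outside all arcs satisfies the minor arc condition -/
lemma minor_of_empty {P R H : ℕ} (hR : 0 < R) (hdiv : ∀ q, 0 < q → q ≤ P → q ∣ R)
    {k : ℕ} (hk : ∀ t ∈ TT P H, ¬ (R : ℤ) ∣ (k : ℤ) - ww R t) :
    ∀ q a : ℕ, 0 < q → q ≤ P → a ≤ q → a.Coprime q →
      (H : ℝ) / R < |(k : ℝ) / R - (a : ℝ) / q| := by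
  intro q a hq hqP haq hco
  by_contra hcon
  push Not at hcon
  have hd := hdiv q hq hqP
  have hRr : (0 : ℝ) < R := by exact_mod_cast hR
  set i : ℤ := (k : ℤ) - a * (R / q : ℕ) with hi
  have h1 := ww_div hR hq hd a i
  have h2 : ww R ⟨⟨q, a⟩, i⟩ = k := by simp only [ww, hi]; ring
  rw [h2] at h1
  have h3 : |(i : ℝ)| ≤ H := by
    have h4 : (i : ℝ) / R = (k : ℝ) / R - (a : ℝ) / q := by
      push_cast at h1
      linarith
    rw [← h4, abs_div, abs_of_pos hRr, div_le_div_iff_of_pos_right hRr] at hcon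
    exact hcon
  have h4 : -(H : ℤ) ≤ i ∧ i ≤ H := by
    have : |i| ≤ (H : ℤ) := by exact_mod_cast h3
    exact abs_le.mp this
  rcases Nat.lt_or_ge a q with h5 | h5
  · refine hk ⟨⟨q, a⟩, i⟩ (mem_TT.2 ⟨⟨⟨hq, hqP⟩, h5, hco⟩, h4⟩) ?_
    rw [h2, sub_self]
    exact dvd_zero _
  · have h6 : a = q := le_antisymm haq h5
    subst h6
    have h7 : a = 1 := by
      rwa [Nat.Coprime, Nat.gcd_self] at hco
    subst h7
    refine hk ⟨⟨1, 0⟩, i⟩ (mem_TT.2 ⟨⟨⟨hq, hqP⟩, by norm_num, by norm_num⟩, h4⟩) ?_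
    simp only [ww, hi]
    refine ⟨1, ?_⟩
    push_cast
    simp

end Pool.Agent.PS.Circ

namespace Pool.Agent.PS

open Finset ArithmeticFunction
open Pool.Agent.Circle (e parseval)
open Pool.Agent.PS.Circ

theorem stmt_CIRC : Stmt_CIRC := by
  intro P R H hP hR hdiv hH I₁ I₂ h₁ h₂ f₁ f₂ U hU hmin
  have hRr : (0 : ℝ) < R := by exact_mod_cast hR
  have h1 := parseval R hR (range R) (fun a ha => mem_range.mp ha)
    (fun m => cv I₁ I₂ f₁ f₂ m - Maj P R H I₁ I₂ f₁ f₂ m)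
  have h2 := parseval R hR I₂ (fun a ha => by have := h₂ a ha; omega) f₂
  have h3 : ∑ k ∈ range R, ‖∑ m ∈ range R, (cv I₁ I₂ f₁ f₂ m - Maj P R H I₁ I₂ f₁ f₂ m) *
      e (m * ((k : ℝ) / R))‖ ^ 2
      ≤ ∑ k ∈ range R, U ^ 2 * ‖∑ n ∈ I₂, f₂ n * e (n * ((k : ℝ) / R))‖ ^ 2 := by
    refine sum_le_sum fun k hk => ?_
    have h4 : ∑ m ∈ range R, (cv I₁ I₂ f₁ f₂ m - Maj P R H I₁ I₂ f₁ f₂ m) * e (m * ((k : ℝ) / R))
        = (1 - (((TT P H).filter fun t => (R : ℤ) ∣ (k : ℤ) - ww R t).card : ℂ)) *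
          ((∑ n ∈ I₁, f₁ n * e (n * ((k : ℝ) / R))) *
            ∑ n ∈ I₂, f₂ n * e (n * ((k : ℝ) / R))) := by
      simp_rw [sub_mul]
      rw [sum_sub_distrib, cv_ft I₁ I₂ h₁ h₂, maj_ft hR hdiv]
      ring
    rw [h4]
    have h5 : ((TT P H).filter fun t => (R : ℤ) ∣ (k : ℤ) - ww R t).card ≤ 1 := by
      rw [card_le_one]
      intro s hs t ht
      rw [mem_filter] at hs ht
      refine arcs_disjoint hR hP hdiv hH s t hs.1 ht.1 ?_
      have : ww R s - ww R t = ((k : ℤ) - ww R t) - ((k : ℤ) - ww R s) := by ring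
      rw [this]
      exact dvd_sub ht.2 hs.2
    rcases Nat.eq_zero_or_pos ((TT P H).filter fun t => (R : ℤ) ∣ (k : ℤ) - ww R t).card with h6 | h6
    · rw [h6]
      have h7 : ∀ t ∈ TT P H, ¬ (R : ℤ) ∣ (k : ℤ) - ww R t := by
        rw [card_eq_zero, filter_eq_empty_iff] at h6
        exact fun t ht => h6 ht
      have h8 := hmin k hk (minor_of_empty hR hdiv h7)
      rw [Nat.cast_zero, sub_zero, one_mul, norm_mul, mul_pow]
      gcongr
    · have h7 : ((TT P H).filter fun t => (R : ℤ) ∣ (k : ℤ) - ww R t).card = 1 := by omega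
      rw [h7, Nat.cast_one, sub_self, zero_mul, norm_zero, zero_pow two_ne_zero]
      positivity
  rw [h1, ← mul_sum, h2] at h3
  have h4 : (R : ℝ) * ∑ m ∈ range R, ‖cv I₁ I₂ f₁ f₂ m - Maj P R H I₁ I₂ f₁ f₂ m‖ ^ 2
      ≤ R * (U ^ 2 * ∑ n ∈ I₂, ‖f₂ n‖ ^ 2) := by
    refine h3.trans (le_of_eq ?_)
    ring
  exact le_of_mul_le_mul_left h4 hRr

end Pool.Agent.PS
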