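import Pool.Agent.Work.PS.TAU

/-!
# CM: the sums `cm`
-/

set_option autoImplicit false

namespace Pool.Agent.PS

open Finset ArithmeticFunction
open Pool.Agent.Circle (e e_add e_neg e_nat e_int e_eq_one_iff e_zero cop mem_cop sum_coprime
  e_natmul rsum ram ram_eq)
open scoped ArithmeticFunction.Moebius

lemma cm_qm_mul (q m : ℕ) : qm q m * q.gcd m = q := Nat.div_mul_cancel (Nat.gcd_dvd_left q m)

lemma cm_qm_dvd (q m : ℕ) : qm q m ∣ q := ⟨q.gcd m, (cm_qm_mul q m).symm⟩

lemma cm_qm_pos {q : ℕ} (hq : 0 < q) (m : ℕ) : 0 < qm q m :=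
  Nat.pos_of_dvd_of_pos (cm_qm_dvd q m) hq

lemma cm_dvd_qm_mul (q m : ℕ) : q ∣ qm q m * m := by
  obtain ⟨k, hk⟩ := Nat.gcd_dvd_right q m
  refine ⟨k, ?_⟩
  calc qm q m * m = qm q m * (q.gcd m * k) := by rw [← hk]
    _ = q * k := by rw [← mul_assoc, cm_qm_mul]

lemma norm_tau_le (q : ℕ) (hq : 0 < q) (χ : DirichletCharacter ℂ q) : ‖tau χ‖ ≤ √(q : ℝ) := by
  have hqz : NeZero q := ⟨hq.ne'⟩
  obtain ⟨h1, h2⟩ := stmt_TAU q hq χ
  rw [h1, norm_mul, norm_mul, h2]
  have h3 : ‖((μ (q / χ.conductor) : ℤ) : ℂ)‖ ≤ 1 := by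
    rw [Complex.norm_intCast]
    exact_mod_cast abs_moebius_le_one
  have h4 : ‖χ.primitiveCharacter ((q / χ.conductor : ℕ) : ZMod χ.conductor)‖ ≤ 1 :=
    DirichletCharacter.norm_le_one _ _
  have h5 : √(χ.conductor : ℝ) ≤ √(q : ℝ) := by
    apply Real.sqrt_le_sqrt
    exact_mod_cast Nat.le_of_dvd hq χ.conductor_dvd_level
  calc _ ≤ 1 * 1 * √(χ.conductor : ℝ) := by gcongr
    _ ≤ _ := by rw [one_mul, one_mul]; exact h5

/-- Sums over the units of `ZMod q` of functions of the residue modulo `d ∣ q`. -/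
lemma sum_units_map (q d : ℕ) [NeZero q] [NeZero d] (hd : d ∣ q) (g : (ZMod d)ˣ → ℂ) :
    ∑ u : (ZMod q)ˣ, g (ZMod.unitsMap hd u)
      = ((q.totient : ℂ) / d.totient) * ∑ v : (ZMod d)ˣ, g v := by
  classical
  have hsurj := ZMod.unitsMap_surjective hd
  set c := #{u : (ZMod q)ˣ | ZMod.unitsMap hd u = 1} with hc
  have hfib : ∀ v : (ZMod d)ˣ, #{u : (ZMod q)ˣ | ZMod.unitsMap hd u = v} = c := by
    intro v
    apply MonoidHom.card_fiber_eq_of_mem_range
    · exact hsurj v
    · exact hsurj 1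
  have h1 : ∀ G : (ZMod d)ˣ → ℂ, ∑ u : (ZMod q)ˣ, G (ZMod.unitsMap hd u) = c * ∑ v, G v := by
    intro G
    rw [← sum_fiberwise univ (fun u => ZMod.unitsMap hd u), mul_sum]
    refine sum_congr rfl fun v _ => ?_
    rw [← hfib v, card_eq_sum_ones, Nat.cast_sum, sum_mul]
    refine sum_congr rfl fun u hu => ?_
    rw [(mem_filter.1 hu).2]
    simp
  have h2 := h1 fun _ => 1
  simp only [sum_const, card_univ, ZMod.card_units_eq_totient, nsmul_eq_mul, mul_one] at h2
  have hd0 : (d.totient : ℂ) ≠ 0 := by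
    have := Nat.totient_pos.2 (Nat.pos_of_ne_zero (NeZero.ne d))
    exact_mod_cast this.ne'
  rw [h1 g, h2]
  field_simp

lemma sum_eq_sum_units (q : ℕ) [NeZero q] (χ : DirichletCharacter ℂ q) (F : ZMod q → ℂ) :
    ∑ x : ZMod q, χ x * F x = ∑ u : (ZMod q)ˣ, χ u * F u := by
  classical
  have h1 : ∑ x : ZMod q, χ x * F x = ∑ x ∈ univ.image (fun u : (ZMod q)ˣ => (u : ZMod q)),
      χ x * F x := by
    symm
    apply sum_subset (subset_univ _)
    intro x _ hx
    rw [MulChar.map_nonunit, zero_mul]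
    intro hu
    apply hx
    rw [mem_image]
    exact ⟨hu.unit, mem_univ _, hu.unit_spec⟩
  rw [h1, sum_image (fun a _ b _ h => Units.ext h)]

theorem stmt_CM : Stmt_CM := by
  intro q hq χ m hm
  have hqz : NeZero q := ⟨hq.ne'⟩
  set d := qm q m with hd
  have hd0 : 0 < d := cm_qm_pos hq m
  have hdz : NeZero d := ⟨hd0.ne'⟩
  have hdq : d ∣ q := cm_qm_dvd q m
  have hfac : cm χ m ≠ 0 → χ.FactorsThrough d := by
    intro h
    rw [cm_eq_gaussSum] at h
    apply factorsThrough_of_gaussSum_ne_zero _ hdq _ h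
    rw [AddChar.mulShift_mulShift]
    have h1 : (-(m : ZMod q)) * (d : ZMod q) = 0 := by
      have h2 : ((d * m : ℕ) : ZMod q) = 0 := (ZMod.natCast_eq_zero_iff _ _).2 (cm_dvd_qm_mul q m)
      push_cast at h2
      rw [neg_mul, mul_comm, h2, neg_zero]
    rw [h1, AddChar.mulShift_zero]
  refine ⟨?_, ?_, ?_⟩
  · intro h
    exact DirichletCharacter.conductor_dvd_of_mem_conductorSet χ (hfac h)
  · by_cases h0 : cm χ m = 0
    · rw [h0, norm_zero]; positivity
    · obtain ⟨hdvd, χ₁, hχ₁⟩ := hfac h0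
      obtain ⟨k, hk⟩ := Nat.gcd_dvd_right q m
      have hkd : d.Coprime k := by
        have h1 := Nat.coprime_div_gcd_div_gcd (Nat.gcd_pos_of_pos_left m hq)
        have h2 : m / q.gcd m = k :=
          Nat.div_eq_of_eq_mul_right (Nat.gcd_pos_of_pos_left m hq) hk
        rw [h2] at h1
        exact h1
      have hval : ∀ a : ℕ, e (-((a : ℝ) * m / q)) = e (-((a : ℝ) * k / d)) := by
        intro a
        congr 2
        have h1 : (q : ℝ) = d * q.gcd m := by exact_mod_cast (cm_qm_mul q m).symm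
        have h2 : (m : ℝ) = q.gcd m * k := by exact_mod_cast hk
        have h3 : ((q.gcd m : ℕ) : ℝ) ≠ 0 := by
          exact_mod_cast (Nat.gcd_pos_of_pos_left m hq).ne'
        have h4 : (d : ℝ) ≠ 0 := by exact_mod_cast hd0.ne'
        rw [h1, h2]
        field_simp
      have h1 : cm χ m = ∑ x : ZMod q, χ x *
          ZMod.stdAddChar (N := d) (-((k : ZMod d)) * ZMod.castHom hdq (ZMod d) x) := by
        unfold cm
        rw [sum_zmod']
        refine sum_congr rfl fun a _ => ?_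
        rw [hval a, map_natCast (ZMod.castHom hdq (ZMod d)) a]
        congr 1
        have h2 : -(k : ZMod d) * (a : ZMod d) = -((a * k : ℕ) : ZMod d) := by push_cast; ring
        rw [h2, AddChar.map_neg_eq_inv, std_eq_e, e_neg]
        push_cast
        rfl
      rw [h1, sum_eq_sum_units]
      have h2 : ∀ u : (ZMod q)ˣ, χ (u : ZMod q) *
          ZMod.stdAddChar (N := d) (-((k : ZMod d)) * ZMod.castHom hdq (ZMod d) (u : ZMod q))
          = (fun v : (ZMod d)ˣ => χ₁ (v : ZMod d) *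
            ZMod.stdAddChar (N := d) (-((k : ZMod d)) * (v : ZMod d))) (ZMod.unitsMap hdq u) := by
        intro u
        simp only
        congr 1
        rw [hχ₁, DirichletCharacter.changeLevel_eq_cast_of_dvd]
        congr 1
      rw [sum_congr rfl fun u _ => h2 u, sum_units_map q d hdq
        (fun v : (ZMod d)ˣ => χ₁ (v : ZMod d) *
            ZMod.stdAddChar (N := d) (-((k : ZMod d)) * (v : ZMod d))), norm_mul]
      rw [← sum_eq_sum_units d χ₁ (fun v => ZMod.stdAddChar (N := d) (-((k : ZMod d)) * v))]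
      have h3 : IsUnit (-(k : ZMod d)) := by
        rw [IsUnit.neg_iff, ZMod.isUnit_iff_coprime]
        exact hkd.symm
      have h4 : ∑ x : ZMod d, χ₁ x * ZMod.stdAddChar (N := d) (-((k : ZMod d)) * x)
          = gaussSum χ₁ ((ZMod.stdAddChar (N := d)).mulShift (h3.unit : ZMod d)) := by
        unfold gaussSum
        refine sum_congr rfl fun x _ => ?_
        rw [AddChar.mulShift_apply, h3.unit_spec]
      have h5 := gaussSum_mulShift χ₁ (ZMod.stdAddChar (N := d)) h3.unit
      have h6 : ‖∑ x : ZMod d, χ₁ x * ZMod.stdAddChar (N := d) (-((k : ZMod d)) * x)‖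
          = ‖gaussSum χ₁ (ZMod.stdAddChar (N := d))‖ := by
        rw [h4, ← h5, norm_mul, DirichletCharacter.unit_norm_eq_one, one_mul]
      rw [h6, ← tau_eq_gaussSum, norm_div, Complex.norm_natCast, Complex.norm_natCast]
      exact mul_le_mul_of_nonneg_left (norm_tau_le d hd0 χ₁) (by positivity)
  · have h1 : cm (1 : DirichletCharacter ℂ q) m = ram q (-(m : ℤ)) := by
      unfold cm ram cop
      rw [sum_filter]
      refine sum_congr rfl fun c _ => ?_
      by_cases hc : q.Coprime c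
      · rw [if_pos hc, MulChar.one_apply, one_mul]
        · congr 1
          push_cast
          ring
        · rw [ZMod.isUnit_iff_coprime]; exact hc.symm
      · rw [if_neg hc, MulChar.map_nonunit, zero_mul]
        rw [ZMod.isUnit_iff_coprime]
        exact fun h => hc h.symm
    rw [h1, ram_eq q hq, rsum, Int.cast_sum]
    refine sum_congr rfl fun d _ => ?_
    have h2 : ((d : ℤ) ∣ -(m : ℤ)) ↔ d ∣ m := by rw [dvd_neg, Int.natCast_dvd_natCast]
    simp only [h2]
    split_ifs
    · push_cast; rfl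
    · simp

end Pool.Agent.PS
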