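import Pool.Agent.Work.PS.Interface
import Pool.Agent.Work.MP_c7798c_co.NT

/-!
DENS and DENSX: log-free zero density theorems from the abstract one.
-/

set_option autoImplicit false

namespace Pool.Agent.PS

open Finset ArithmeticFunction Metric
open Pool.Agent.BV (PC)
open scoped Classical

theorem card_PC_le_self (r : ℕ) (hr : 0 < r) : (PC r).card ≤ r := by
  have : NeZero r := ⟨by omega⟩
  have h1 : (PC r).card ≤ (univ : Finset (DirichletCharacter ℂ r)).card :=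
    card_le_card (filter_subset _ _)
  have h2 := DirichletCharacter.card_eq_totient_of_hasEnoughRootsOfUnity ℂ r
  rw [Nat.card_eq_fintype_card, ← card_univ] at h2
  have h3 : (PC r).card ≤ r.totient := by
    refine h1.trans (le_of_eq ?_)
    convert h2
  exact h3.trans (Nat.totient_le r)

theorem card_Fam_sq_le (Z : ℕ) : (Fam Z).card ≤ Z ^ 2 := by
  unfold Fam
  rw [card_sigma]
  calc ∑ r ∈ Ioc 0 Z, (PC r).card ≤ ∑ r ∈ Ioc 0 Z, Z := sum_le_sum fun r hr => by
        rw [mem_Ioc] at hr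
        exact (card_PC_le_self r hr.1).trans hr.2
    _ = Z ^ 2 := by simp [sq]

theorem fam_mod_pos {Z : ℕ} {x : Ch} (hx : x ∈ Fam Z) : 0 < x.1 ∧ x.1 ≤ Z :=
  mem_Ioc.1 (Finset.mem_sigma.1 hx).1

/-- Trivial count. -/
theorem sum_cnt_trivial {Z : ℕ} (hz : ∀ x ∈ Fam Z, ((zl x Z).length : ℝ) ≤ (Z : ℝ) ^ 2)
    (L : Ch → List ℂ) (hL : ∀ x, (L x).length ≤ (zl x Z).length) (σ : ℝ) :
    ∑ x ∈ Fam Z, (cnt (L x) σ : ℝ) ≤ (Z : ℝ) ^ 4 := by
  calc ∑ x ∈ Fam Z, (cnt (L x) σ : ℝ) ≤ ∑ x ∈ Fam Z, (Z : ℝ) ^ 2 := by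
        refine sum_le_sum fun x hx => le_trans ?_ (hz x hx)
        exact_mod_cast (List.length_filter_le _ _).trans (hL x)
    _ = (Fam Z).card * (Z : ℝ) ^ 2 := by rw [sum_const, nsmul_eq_mul]
    _ ≤ (Z : ℝ) ^ 2 * (Z : ℝ) ^ 2 := by
        gcongr
        exact_mod_cast card_Fam_sq_le Z
    _ = (Z : ℝ) ^ 4 := by ring

/-- Mertens-type bound. -/
theorem sum_log_sq_le (Z A : ℕ) (hZ : 1 ≤ Z) :
    ∑ p ∈ (Ioc (Z ^ 5) (Z ^ A)).filter Nat.Prime, (Real.log p) ^ 2 / p
      ≤ 2 * (A : ℝ) ^ 2 * (Real.log Z) ^ 2 := by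
  have hl : 0 ≤ Real.log Z := Real.log_nonneg (by exact_mod_cast hZ)
  have h0 := Pool.Agent.Work.MP_c7798c_co.sum_log_div_le (Z ^ A) (Nat.one_le_pow _ _ hZ)
  rw [Nat.cast_pow, Real.log_pow] at h0
  calc ∑ p ∈ (Ioc (Z ^ 5) (Z ^ A)).filter Nat.Prime, (Real.log p) ^ 2 / p
      ≤ ∑ p ∈ (Ioc (Z ^ 5) (Z ^ A)).filter Nat.Prime, (A * Real.log Z) * (Real.log p / p) := by
        refine sum_le_sum fun p hp => ?_
        obtain ⟨h1, h2⟩ := mem_filter.1 hp
        have hp0 : (0 : ℝ) < p := by exact_mod_cast h2.pos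
        have h3 : Real.log p ≤ A * Real.log Z := by
          rw [← Real.log_pow]
          exact Real.log_le_log hp0 (by exact_mod_cast (mem_Ioc.1 h1).2)
        have h4 : 0 ≤ Real.log p := Real.log_nonneg (by exact_mod_cast h2.one_le)
        rw [sq, mul_div_assoc]
        exact mul_le_mul_of_nonneg_right h3 (by positivity)
    _ = (A * Real.log Z) * ∑ p ∈ (Ioc (Z ^ 5) (Z ^ A)).filter Nat.Prime, Real.log p / p := by
        rw [mul_sum]
    _ ≤ (A * Real.log Z) * ∑ p ∈ (Ioc 0 (Z ^ A)).filter Nat.Prime, Real.log p / p := by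
        refine mul_le_mul_of_nonneg_left ?_ (by positivity)
        refine sum_le_sum_of_subset_of_nonneg ?_ ?_
        · intro p hp
          obtain ⟨h1, h2⟩ := mem_filter.1 hp
          exact mem_filter.2 ⟨mem_Ioc.2 ⟨h2.pos, (mem_Ioc.1 h1).2⟩, h2⟩
        · intro p hp _
          have h2 := (mem_filter.1 hp).2
          have h4 : 0 ≤ Real.log p := Real.log_nonneg (by exact_mod_cast h2.one_le)
          positivity
    _ ≤ (A * Real.log Z) * (2 * (A * Real.log Z)) := by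
        refine mul_le_mul_of_nonneg_left h0 (by positivity)
    _ = 2 * (A : ℝ) ^ 2 * (Real.log Z) ^ 2 := by ring

theorem one_le_log_of_three {Z : ℕ} (hZ3 : 3 ≤ Z) : 1 ≤ Real.log Z := by
  have hZpos : (0 : ℝ) < Z := by exact_mod_cast (by omega : 0 < Z)
  rw [Real.le_log_iff_exp_le hZpos]
  have : Real.exp 1 ≤ 3 := by linarith [Real.exp_one_lt_d9]
  exact this.trans (by exact_mod_cast hZ3)

theorem stmt_DENS (hADL : Stmt_ADL) (hFB : Stmt_FB) (hZCNT : Stmt_ZCNT) : Stmt_DENS := by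
  obtain ⟨C1, c6, hC1, hc6, hfb⟩ := hFB
  obtain ⟨A, C, c7, hA, hC, hc7, hadl⟩ := hADL C1 c6 hC1 hc6
  obtain ⟨C', hC', hz⟩ := hZCNT
  have hA2 : (0 : ℝ) ≤ 2 * (A : ℝ) ^ 2 := by positivity
  have hCB : 0 ≤ C * (2 * (A : ℝ) ^ 2) := by positivity
  have h4c : 0 < 4 / c7 := by positivity
  set K := C1 + C' + C * (2 * (A : ℝ) ^ 2) + C + 4 / c7 + 3 with hK
  refine ⟨K, by linarith, ?_⟩
  intro Z hZ r hr0 hr1
  have hZ3 : 3 ≤ Z := by
    have : (3 : ℝ) ≤ Z := by linarith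
    exact_mod_cast this
  have hl1 := one_le_log_of_three hZ3
  have hl0 : 0 < Real.log Z := by linarith
  have hZpos : (0 : ℝ) < Z := by exact_mod_cast (by omega : 0 < Z)
  by_cases hr : r ≤ c7
  · have h1 := hadl Z (by linarith) 0 le_rfl (by positivity) (fun _ => 1)
      (fun n _ => by simp) (2 * (A : ℝ) ^ 2) hA2
      (by
        simp only [norm_one, one_pow, mul_one]
        exact sum_log_sq_le Z A (by omega))
      (Fam Z) (Finset.Subset.refl _) (fun x => Le x.2) (fun x => zl x Z)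
      (fun x => if x.2 = 1 then 1 else 0) (fun x hx => hfb Z (by linarith) x hx) r hr0 hr
    refine h1.trans ?_
    refine mul_le_mul (by linarith) (Real.exp_le_exp.2 ?_) (Real.exp_pos _).le (by linarith)
    gcongr
    linarith
  · push Not at hr
    have h1 := sum_cnt_trivial (fun x hx => hz Z (by linarith) x hx) (fun x => zl x Z)
      (fun x => le_rfl) (1 - r)
    refine h1.trans ?_
    have h2 : (Z : ℝ) ^ 4 = Real.exp (4 * Real.log Z) := by
      rw [← Real.exp_log hZpos, ← Real.exp_nat_mul, Real.log_exp]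
      norm_num
    have h3 : 4 * Real.log Z ≤ K * r * Real.log Z := by
      have h4 : 4 ≤ 4 / c7 * r := by
        rw [div_mul_eq_mul_div, le_div_iff₀ hc7]
        nlinarith
      have h5 : 4 / c7 * r ≤ K * r := mul_le_mul_of_nonneg_right (by linarith) hr0
      nlinarith
    rw [h2]
    calc Real.exp (4 * Real.log Z) ≤ Real.exp (K * r * Real.log Z) := Real.exp_le_exp.2 h3
      _ = 1 * Real.exp (K * r * Real.log Z) := by rw [one_mul]
      _ ≤ K * Real.exp (K * r * Real.log Z) := by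
          refine mul_le_mul_of_nonneg_right (by linarith) (Real.exp_pos _).le

/-- The prime sum in the exceptional case. -/
theorem sum_exc_le {Z A : ℕ} {y : Ch} {δ CP : ℝ} (w : ℕ → ℂ) (hZ : 1 ≤ Z) (hδ : 0 ≤ δ)
    (hδl : δ * Real.log Z ≤ 1)
    (hP : ∑ p ∈ (Ioc (Z ^ 5) (Z ^ A)).filter (fun p : ℕ => p.Prime ∧ y.2 (p : ZMod y.1) = 1),
      1 / (p : ℝ) ≤ CP * δ * Real.log Z)
    (h1 : ∀ p ∈ (Ioc (Z ^ 5) (Z ^ A)).filter Nat.Prime, y.2 (p : ZMod y.1) = 1 → ‖w p‖ ≤ 4)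
    (h2 : ∀ p ∈ (Ioc (Z ^ 5) (Z ^ A)).filter Nat.Prime, y.2 (p : ZMod y.1) ≠ 1 →
      ‖w p‖ ≤ 2 * (A * (δ * Real.log Z))) :
    ∑ p ∈ (Ioc (Z ^ 5) (Z ^ A)).filter Nat.Prime, (Real.log p) ^ 2 / p * ‖w p‖ ^ 2
      ≤ ((8 * (A : ℝ) ^ 4 + 16 * (A : ℝ) ^ 2 * CP) * (δ * Real.log Z)) * (Real.log Z) ^ 2 := by
  classical
  have hl : 0 ≤ Real.log Z := Real.log_nonneg (by exact_mod_cast hZ)
  have hδl0 : 0 ≤ δ * Real.log Z := mul_nonneg hδ hl
  set D := δ * Real.log Z with hD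
  have hterm : ∀ p ∈ (Ioc (Z ^ 5) (Z ^ A)).filter Nat.Prime,
      (Real.log p) ^ 2 / p * ‖w p‖ ^ 2 ≤ (4 * (A : ℝ) ^ 2 * D ^ 2) * ((Real.log p) ^ 2 / p) +
        (16 * (A : ℝ) ^ 2 * (Real.log Z) ^ 2) *
          (if y.2 (p : ZMod y.1) = 1 then 1 / (p : ℝ) else 0) := by
    intro p hp
    obtain ⟨h3, h4⟩ := mem_filter.1 hp
    have hp0 : (0 : ℝ) < p := by exact_mod_cast h4.pos
    have h5 : Real.log p ≤ A * Real.log Z := by
      rw [← Real.log_pow]
      exact Real.log_le_log hp0 (by exact_mod_cast (mem_Ioc.1 h3).2)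
    have h6 : 0 ≤ Real.log p := Real.log_nonneg (by exact_mod_cast h4.one_le)
    have h7 : 0 ≤ (Real.log p) ^ 2 / p := by positivity
    by_cases hy : y.2 (p : ZMod y.1) = 1
    · rw [if_pos hy]
      have h8 := h1 p hp hy
      have h9 : ‖w p‖ ^ 2 ≤ 16 := by nlinarith [norm_nonneg (w p)]
      have h10 : (Real.log p) ^ 2 / p ≤ (A : ℝ) ^ 2 * (Real.log Z) ^ 2 * (1 / (p : ℝ)) := by
        rw [mul_one_div]
        gcongr
        nlinarith
      have h11 : 0 ≤ (4 * (A : ℝ) ^ 2 * D ^ 2) * ((Real.log p) ^ 2 / p) := by positivity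
      calc (Real.log p) ^ 2 / p * ‖w p‖ ^ 2 ≤ ((A : ℝ) ^ 2 * (Real.log Z) ^ 2 * (1 / (p : ℝ))) * 16 :=
            mul_le_mul h10 h9 (by positivity) (by positivity)
        _ = (16 * (A : ℝ) ^ 2 * (Real.log Z) ^ 2) * (1 / (p : ℝ)) := by ring
        _ ≤ _ := by linarith
    · rw [if_neg hy, mul_zero, add_zero]
      have h8 := h2 p hp hy
      have h9 : ‖w p‖ ^ 2 ≤ 4 * (A : ℝ) ^ 2 * D ^ 2 := by
        calc ‖w p‖ ^ 2 ≤ (2 * (A * D)) ^ 2 := by
              exact pow_le_pow_left₀ (norm_nonneg _) h8 2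
          _ = 4 * (A : ℝ) ^ 2 * D ^ 2 := by ring
      calc (Real.log p) ^ 2 / p * ‖w p‖ ^ 2 ≤ (Real.log p) ^ 2 / p * (4 * (A : ℝ) ^ 2 * D ^ 2) :=
            mul_le_mul_of_nonneg_left h9 h7
        _ = _ := by ring
  refine (sum_le_sum hterm).trans ?_
  rw [sum_add_distrib, ← mul_sum, ← mul_sum]
  have h3 := sum_log_sq_le Z A hZ
  have h4 : ∑ p ∈ (Ioc (Z ^ 5) (Z ^ A)).filter Nat.Prime,
      (if y.2 (p : ZMod y.1) = 1 then 1 / (p : ℝ) else 0) ≤ CP * D := by
    rw [← sum_filter, filter_filter]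
    rw [hD, ← mul_assoc]
    exact hP
  have h5 : (4 * (A : ℝ) ^ 2 * D ^ 2) * ∑ p ∈ (Ioc (Z ^ 5) (Z ^ A)).filter Nat.Prime,
      (Real.log p) ^ 2 / p ≤ (4 * (A : ℝ) ^ 2 * D ^ 2) * (2 * (A : ℝ) ^ 2 * (Real.log Z) ^ 2) :=
    mul_le_mul_of_nonneg_left h3 (by positivity)
  have h6 : (16 * (A : ℝ) ^ 2 * (Real.log Z) ^ 2) * ∑ p ∈ (Ioc (Z ^ 5) (Z ^ A)).filter Nat.Prime,
      (if y.2 (p : ZMod y.1) = 1 then 1 / (p : ℝ) else 0) ≤
      (16 * (A : ℝ) ^ 2 * (Real.log Z) ^ 2) * (CP * D) :=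
    mul_le_mul_of_nonneg_left h4 (by positivity)
  have h7 : D ^ 2 ≤ D := by nlinarith
  have h8 : (4 * (A : ℝ) ^ 2 * D ^ 2) * (2 * (A : ℝ) ^ 2 * (Real.log Z) ^ 2) ≤
      (8 * (A : ℝ) ^ 4 * (Real.log Z) ^ 2) * D := by
    calc (4 * (A : ℝ) ^ 2 * D ^ 2) * (2 * (A : ℝ) ^ 2 * (Real.log Z) ^ 2)
        = (8 * (A : ℝ) ^ 4 * (Real.log Z) ^ 2) * D ^ 2 := by ring
      _ ≤ _ := mul_le_mul_of_nonneg_left h7 (by positivity)
  calc _ ≤ (8 * (A : ℝ) ^ 4 * (Real.log Z) ^ 2) * D +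
        (16 * (A : ℝ) ^ 2 * (Real.log Z) ^ 2) * (CP * D) := by linarith
    _ = _ := by ring

theorem stmt_DENSX (hADL : Stmt_ADL) (hFX : Stmt_FX) (hPX : Stmt_PX) (hSIEG : Stmt_SIEG)
    (hZCNT : Stmt_ZCNT) : Stmt_DENSX := by
  classical
  obtain ⟨C1, hC1, hfx⟩ := hFX
  obtain ⟨A, C, c7, hA, hC, hc7, hadl⟩ := hADL C1 1 hC1 one_pos
  obtain ⟨CP, hCP, hpx⟩ := hPX A hA
  obtain ⟨cs, hcs, hsieg⟩ := hSIEG 1 one_pos
  obtain ⟨C', hC', hz⟩ := hZCNT
  set B0 := 8 * (A : ℝ) ^ 4 + 16 * (A : ℝ) ^ 2 * CP with hB0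
  have hB0' : 0 ≤ B0 := by positivity
  have hCB : 0 ≤ 2 * C * B0 := by positivity
  have h5c : 0 < 5 / c7 := by positivity
  have h1cs : 0 < 1 / cs := by positivity
  have hAR : (5 : ℝ) ≤ A := by exact_mod_cast hA
  set K := C1 + C' + CP + 100 + A + 2 * C * B0 + C + 1 / cs + 5 / c7 + 3 with hK
  have hK1 : 1 ≤ K := by linarith
  refine ⟨K, hK1, ?_⟩
  intro Z hZ y δ hexc hδ r hr0 hr1
  have hZ3 : 3 ≤ Z := by
    have : (3 : ℝ) ≤ Z := by linarith
    exact_mod_cast this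
  have hl1 := one_le_log_of_three hZ3
  have hl0 : 0 < Real.log Z := by linarith
  have hZpos : (0 : ℝ) < Z := by exact_mod_cast (by omega : 0 < Z)
  have hδ0 := hexc.pos
  have hδK : δ * Real.log Z * K ≤ 1 := by
    rw [le_div_iff₀ (by positivity)] at hδ
    linarith
  have hDpos : 0 < δ * Real.log Z := mul_pos hδ0 hl0
  have hbd : ∀ c : ℝ, 0 < c → c ≤ K → δ ≤ 1 / (c * Real.log Z) := by
    intro c hc hcK
    rw [le_div_iff₀ (by positivity)]
    nlinarith
  have hD1 : δ * Real.log Z ≤ 1 := by nlinarith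
  by_cases hr : r ≤ c7
  · obtain ⟨hf1, F2, hF2⟩ := hfx Z (by linarith) y δ hexc (hbd 100 (by norm_num) (by linarith))
    have hpx' := hpx Z (by linarith) y δ hexc (hbd CP (by linarith) (by linarith))
    obtain ⟨hy0, hyZ⟩ := fam_mod_pos hexc.mem
    -- values of the exceptional character
    have hval : ∀ p ∈ (Ioc (Z ^ 5) (Z ^ A)).filter Nat.Prime, y.2 (p : ZMod y.1) ≠ 1 →
        y.2 (p : ZMod y.1) = -1 := by
      intro p hp hne
      obtain ⟨h3, h4⟩ := mem_filter.1 hp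
      have hpZ : y.1 < p := by
        have h5 : Z ≤ Z ^ 5 := Nat.le_self_pow (by norm_num) Z
        have := (mem_Ioc.1 h3).1
        omega
      have hcop : p.Coprime y.1 := by
        rw [h4.coprime_iff_not_dvd]
        intro hd
        exact absurd (Nat.le_of_dvd hy0 hd) (by omega)
      have hu : IsUnit (p : ZMod y.1) := (ZMod.isUnit_iff_coprime p y.1).2 hcop
      have hsq : (y.2 (p : ZMod y.1)) ^ 2 = 1 := by
        rw [← MulChar.pow_apply' _ (by norm_num), hexc.sq, MulChar.one_apply hu]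
      rcases mul_self_eq_one_iff.1 ((sq _).symm.trans hsq) with h | h
      · exact absurd h hne
      · exact h
    have hlogp : ∀ p ∈ (Ioc (Z ^ 5) (Z ^ A)).filter Nat.Prime,
        0 ≤ δ * Real.log p ∧ δ * Real.log p ≤ A * (δ * Real.log Z) ∧
          A * (δ * Real.log Z) ≤ 1 ∧ (0 : ℝ) < p := by
      intro p hp
      obtain ⟨h3, h4⟩ := mem_filter.1 hp
      have hp0 : (0 : ℝ) < p := by exact_mod_cast h4.pos
      have h5 : Real.log p ≤ A * Real.log Z := by
        rw [← Real.log_pow]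
        exact Real.log_le_log hp0 (by exact_mod_cast (mem_Ioc.1 h3).2)
      have h6 : 0 ≤ Real.log p := Real.log_nonneg (by exact_mod_cast h4.one_le)
      refine ⟨by positivity, by nlinarith, ?_, hp0⟩
      have : (A : ℝ) ≤ K := by linarith
      nlinarith
    have hexp1 : ∀ u : ℝ, 0 ≤ u → u ≤ 1 → Real.exp u ≤ 1 + 2 * u := by
      intro u hu0 hu1
      have := Real.abs_exp_sub_one_le (x := u) (by rw [abs_of_nonneg hu0]; exact hu1)
      rw [abs_of_nonneg hu0] at this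
      linarith [le_abs_self (Real.exp u - 1)]
    have hpow : ∀ p ∈ (Ioc (Z ^ 5) (Z ^ A)).filter Nat.Prime,
        (p : ℝ) ^ δ = Real.exp (δ * Real.log p) ∧ (p : ℝ) ^ (-δ) = Real.exp (-(δ * Real.log p)) := by
      intro p hp
      obtain ⟨_, _, _, hp0⟩ := hlogp p hp
      constructor
      · rw [Real.rpow_def_of_pos hp0, mul_comm]
      · rw [Real.rpow_def_of_pos hp0]; ring_nf
    set w1 : ℕ → ℂ := fun n => 1 + y.2 (n : ZMod y.1) * (((n : ℝ) ^ δ : ℝ) : ℂ) with hw1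
    set w2 : ℕ → ℂ := fun n => 1 + y.2 (n : ZMod y.1) * (((n : ℝ) ^ (-δ) : ℝ) : ℂ) with hw2
    have hS1 := sum_exc_le (CP := CP) (A := A) w1 (by omega) hδ0.le hD1 hpx'
      (by
        intro p hp hy
        obtain ⟨h3, h4, h5, hp0⟩ := hlogp p hp
        have h6 := hexp1 _ h3 (h4.trans h5)
        simp only [hw1]
        rw [hy, (hpow p hp).1, one_mul, ← Complex.ofReal_one, ← Complex.ofReal_add,
          Complex.norm_real, Real.norm_eq_abs, abs_of_nonneg (by positivity)]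
        linarith)
      (by
        intro p hp hy
        obtain ⟨h3, h4, h5, hp0⟩ := hlogp p hp
        have h6 := hexp1 _ h3 (h4.trans h5)
        have h7 := Real.one_le_exp h3
        simp only [hw1]
        rw [hval p hp hy, (hpow p hp).1, neg_one_mul, ← sub_eq_add_neg, ← Complex.ofReal_one,
          ← Complex.ofReal_sub, Complex.norm_real, Real.norm_eq_abs,
          abs_of_nonpos (by linarith)]
        linarith)
    have hS2 := sum_exc_le (CP := CP) (A := A) w2 (by omega) hδ0.le hD1 hpx'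
      (by
        intro p hp hy
        obtain ⟨h3, h4, h5, hp0⟩ := hlogp p hp
        have h6 : Real.exp (-(δ * Real.log p)) ≤ 1 := Real.exp_le_one_iff.2 (by linarith)
        simp only [hw2]
        rw [hy, (hpow p hp).2, one_mul, ← Complex.ofReal_one, ← Complex.ofReal_add,
          Complex.norm_real, Real.norm_eq_abs, abs_of_nonneg (by positivity)]
        linarith)
      (by
        intro p hp hy
        obtain ⟨h3, h4, h5, hp0⟩ := hlogp p hp
        have h6 : Real.exp (-(δ * Real.log p)) ≤ 1 := Real.exp_le_one_iff.2 (by linarith)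
        have h7 := Real.add_one_le_exp (-(δ * Real.log p))
        simp only [hw2]
        rw [hval p hp hy, (hpow p hp).2, neg_one_mul, ← sub_eq_add_neg, ← Complex.ofReal_one,
          ← Complex.ofReal_sub, Complex.norm_real, Real.norm_eq_abs,
          abs_of_nonneg (by linarith)]
        linarith)
    rw [← hB0] at hS1 hS2
    have hB1 : 0 ≤ B0 * (δ * Real.log Z) := by positivity
    have hwn1 : ∀ n : ℕ, 1 ≤ n → ‖w1 n‖ ≤ 2 * (n : ℝ) ^ δ := by
      intro n hn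
      have hn1 : (1 : ℝ) ≤ n := by exact_mod_cast hn
      have h3 : 1 ≤ (n : ℝ) ^ δ := Real.one_le_rpow hn1 hδ0.le
      calc ‖w1 n‖ ≤ ‖(1 : ℂ)‖ + ‖y.2 (n : ZMod y.1) * (((n : ℝ) ^ δ : ℝ) : ℂ)‖ := norm_add_le _ _
        _ ≤ 1 + 1 * (n : ℝ) ^ δ := by
            rw [norm_one, norm_mul, Complex.norm_real, Real.norm_eq_abs,
              abs_of_nonneg (by positivity)]
            gcongr
            exact DirichletCharacter.norm_le_one _ _
        _ ≤ _ := by linarith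
    have hwn2 : ∀ n : ℕ, 1 ≤ n → ‖w2 n‖ ≤ 2 * (n : ℝ) ^ δ := by
      intro n hn
      have hn1 : (1 : ℝ) ≤ n := by exact_mod_cast hn
      have h3 : 1 ≤ (n : ℝ) ^ δ := Real.one_le_rpow hn1 hδ0.le
      have h4 : (n : ℝ) ^ (-δ) ≤ 1 := Real.rpow_le_one_of_one_le_of_nonpos hn1 (by linarith)
      calc ‖w2 n‖ ≤ ‖(1 : ℂ)‖ + ‖y.2 (n : ZMod y.1) * (((n : ℝ) ^ (-δ) : ℝ) : ℂ)‖ :=
            norm_add_le _ _
        _ ≤ 1 + 1 * (n : ℝ) ^ (-δ) := by
            rw [norm_one, norm_mul, Complex.norm_real, Real.norm_eq_abs,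
              abs_of_nonneg (by positivity)]
            gcongr
            exact DirichletCharacter.norm_le_one _ _
        _ ≤ _ := by linarith
    choose! F1 hF1 using hf1
    have hδ100 := hbd 100 (by norm_num) (by linarith)
    have hr1' := hadl Z (by linarith) δ hδ0.le hδ100 w1 hwn1 (B0 * (δ * Real.log Z)) hB1 hS1
      ((Fam Z).erase y) (Finset.erase_subset _ _) F1 (fun x => zx Z y δ x) (fun _ => 0)
      (fun x hx => hF1 x (Finset.mem_of_mem_erase hx) (Finset.ne_of_mem_erase hx)) r hr0 hr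
    have hr2' := hadl Z (by linarith) δ hδ0.le hδ100 w2 hwn2 (B0 * (δ * Real.log Z)) hB1 hS2
      {y} (Finset.singleton_subset_iff.2 hexc.mem) (fun _ => F2) (fun x => zx Z y δ x)
      (fun _ => 0)
      (fun x hx => by
        rw [Finset.mem_singleton] at hx
        subst hx
        exact hF2) r hr0 hr
    rw [Finset.sum_singleton] at hr2'
    rw [← Finset.add_sum_erase _ _ hexc.mem]
    have h3 : C * (B0 * (δ * Real.log Z)) * Real.exp (C * r * Real.log Z) +
        C * (B0 * (δ * Real.log Z)) * Real.exp (C * r * Real.log Z) =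
        (2 * C * B0) * (δ * Real.log Z) * Real.exp (C * r * Real.log Z) := by ring
    refine (add_le_add hr2' hr1').trans ?_
    rw [h3]
    refine mul_le_mul (mul_le_mul_of_nonneg_right (by linarith) hDpos.le)
      (Real.exp_le_exp.2 ?_) (Real.exp_pos _).le (by positivity)
    gcongr
    linarith
  · push Not at hr
    have h1 := sum_cnt_trivial (fun x hx => hz Z (by linarith) x hx) (fun x => zx Z y δ x)
      (fun x => by
        unfold zx
        split_ifs
        · exact List.length_erase_le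
        · exact le_rfl) (1 - r)
    refine h1.trans ?_
    obtain ⟨hy0, hyZ⟩ := fam_mod_pos hexc.mem
    have hy0' : (0 : ℝ) < y.1 := by exact_mod_cast hy0
    have h2 := hsieg Z y δ hexc
    rw [Real.rpow_neg_one] at h2
    have h3 : cs / Z ≤ δ := by
      refine le_trans ?_ h2
      rw [div_eq_mul_inv]
      gcongr
    have h4 : (1 : ℝ) ≤ 1 / cs * (δ * Real.log Z) * Z := by
      rw [div_le_iff₀ hZpos] at h3
      have h5 : cs ≤ δ * Real.log Z * Z := by nlinarith [mul_pos hδ0 hZpos]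
      calc (1 : ℝ) = 1 / cs * cs := by field_simp
        _ ≤ 1 / cs * (δ * Real.log Z * Z) := by gcongr
        _ = _ := by ring
    have h5 : (Z : ℝ) ^ 5 = Real.exp (5 * Real.log Z) := by
      rw [← Real.exp_log hZpos, ← Real.exp_nat_mul, Real.log_exp]
      norm_num
    have h6 : 5 * Real.log Z ≤ K * r * Real.log Z := by
      have h7 : 5 ≤ 5 / c7 * r := by
        rw [div_mul_eq_mul_div, le_div_iff₀ hc7]
        nlinarith
      have h8 : 5 / c7 * r ≤ K * r := mul_le_mul_of_nonneg_right (by linarith) hr0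
      nlinarith
    calc (Z : ℝ) ^ 4 = (Z : ℝ) ^ 4 * 1 := by ring
      _ ≤ (Z : ℝ) ^ 4 * (1 / cs * (δ * Real.log Z) * Z) := by gcongr
      _ = 1 / cs * (δ * Real.log Z) * (Z : ℝ) ^ 5 := by ring
      _ = 1 / cs * (δ * Real.log Z) * Real.exp (5 * Real.log Z) := by rw [h5]
      _ ≤ K * (δ * Real.log Z) * Real.exp (K * r * Real.log Z) := by
          refine mul_le_mul (mul_le_mul_of_nonneg_right (by linarith) hDpos.le)
            (Real.exp_le_exp.2 h6) (Real.exp_pos _).le (by positivity)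

end Pool.Agent.PS
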