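import Pool.Agent.Work.PS.EF1

/-!
# PS, block EF: the explicit formula over intervals
-/

set_option autoImplicit false

open Complex MeasureTheory Filter Topology Finset
open ArithmeticFunction (vonMangoldt_nonneg vonMangoldt_le_log)
open scoped ArithmeticFunction.vonMangoldt

namespace Pool.Agent.PS.EFx

open Pool.Agent.Work.MP_b0c12c_nt_helper70
open Pool.Agent.Work.MP_b0c12c_nt_helper6 (zt zt_nonneg sum_zt_le summable_zt tsum_zt_le)
open Pool.Agent.Work.MP_b0c12c_nt.Itf2 (gaussSum')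
open scoped Classical

/-! ### Gaussian tails -/

theorem den_le_mul {τ : ℝ} (hτ : 0 < τ) {l b w : ℝ} (h : 0 ≤ (w - b) * (b - l)) :
    den τ l w ≤ Real.exp (-(l - b) ^ 2 / (2 * τ ^ 2)) * den τ b w := by
  unfold den
  rw [mul_left_comm, ← Real.exp_add]
  apply mul_le_mul_of_nonneg_left _ (by positivity)
  apply Real.exp_le_exp.mpr
  rw [← add_div]
  apply div_le_div_of_nonneg_right _ (by positivity)
  nlinarith

theorem tailR {τ : ℝ} (hτ : 0 < τ) {l b : ℝ} (h : l ≤ b) :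
    ∫ w in Set.Ioi b, den τ l w ≤ Real.exp (-(l - b) ^ 2 / (2 * τ ^ 2)) := by
  calc ∫ w in Set.Ioi b, den τ l w
      ≤ ∫ w in Set.Ioi b, Real.exp (-(l - b) ^ 2 / (2 * τ ^ 2)) * den τ b w := by
        refine setIntegral_mono_on (integrable_den_real hτ l).integrableOn
          ((integrable_den_real hτ b).const_mul _).integrableOn measurableSet_Ioi
          fun w hw => den_le_mul hτ ?_
        rw [Set.mem_Ioi] at hw
        exact mul_nonneg (by linarith) (by linarith)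
    _ = Real.exp (-(l - b) ^ 2 / (2 * τ ^ 2)) * ∫ w in Set.Ioi b, den τ b w := by
        rw [integral_const_mul]
    _ ≤ Real.exp (-(l - b) ^ 2 / (2 * τ ^ 2)) * 1 := by
        apply mul_le_mul_of_nonneg_left _ (Real.exp_pos _).le
        rw [← integral_den_one hτ b]
        exact setIntegral_le_integral (integrable_den_real hτ b)
          (Eventually.of_forall fun u => den_nonneg hτ b u)
    _ = _ := mul_one _

theorem tailL {τ : ℝ} (hτ : 0 < τ) {l a : ℝ} (h : a ≤ l) :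
    ∫ w in Set.Iic a, den τ l w ≤ Real.exp (-(l - a) ^ 2 / (2 * τ ^ 2)) := by
  calc ∫ w in Set.Iic a, den τ l w
      ≤ ∫ w in Set.Iic a, Real.exp (-(l - a) ^ 2 / (2 * τ ^ 2)) * den τ a w := by
        refine setIntegral_mono_on (integrable_den_real hτ l).integrableOn
          ((integrable_den_real hτ a).const_mul _).integrableOn measurableSet_Iic
          fun w hw => den_le_mul hτ ?_
        rw [Set.mem_Iic] at hw
        exact mul_nonneg_of_nonpos_of_nonpos (by linarith) (by linarith)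
    _ = Real.exp (-(l - a) ^ 2 / (2 * τ ^ 2)) * ∫ w in Set.Iic a, den τ a w := by
        rw [integral_const_mul]
    _ ≤ Real.exp (-(l - a) ^ 2 / (2 * τ ^ 2)) * 1 := by
        apply mul_le_mul_of_nonneg_left _ (Real.exp_pos _).le
        rw [← integral_den_one hτ a]
        exact setIntegral_le_integral (integrable_den_real hτ a)
          (Eventually.of_forall fun u => den_nonneg hτ a u)
    _ = _ := mul_one _

/-- the smoothed indicator function -/
noncomputable def Ph (τ a b l : ℝ) : ℝ := ∫ w in Set.Ioc a b, den τ l w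

theorem Ph_nonneg {τ : ℝ} (hτ : 0 < τ) (a b l : ℝ) : 0 ≤ Ph τ a b l :=
  integral_nonneg fun w => den_nonneg hτ l w

theorem abs_Ph_sub {τ : ℝ} (hτ : 0 < τ) {a b l : ℝ} (hab : a ≤ b) :
    |Ph τ a b l - (if a < l ∧ l ≤ b then 1 else 0)| ≤
      Real.exp (-(l - a) ^ 2 / (2 * τ ^ 2)) + Real.exp (-(l - b) ^ 2 / (2 * τ ^ 2)) := by
  have hi := integrable_den_real hτ l
  have hnn : ∀ w, 0 ≤ den τ l w := fun w => den_nonneg hτ l w
  have h1 : (∫ w in Set.Iic a, den τ l w) + ∫ w in Set.Ioi a, den τ l w = 1 := by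
    rw [← integral_den_one hτ l, ← Set.compl_Iic]
    exact integral_add_compl measurableSet_Iic hi
  have h2 : (∫ w in Set.Ioc a b, den τ l w) + ∫ w in Set.Ioi b, den τ l w =
      ∫ w in Set.Ioi a, den τ l w := by
    rw [← setIntegral_union (Set.Ioc_disjoint_Ioi le_rfl) measurableSet_Ioi hi.integrableOn
      hi.integrableOn, Set.Ioc_union_Ioi_eq_Ioi hab]
  have h3 : 0 ≤ ∫ w in Set.Iic a, den τ l w := integral_nonneg hnn
  have h4 : 0 ≤ ∫ w in Set.Ioi b, den τ l w := integral_nonneg hnn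
  have h5 := Ph_nonneg hτ a b l
  have e1 := Real.exp_pos (-(l - a) ^ 2 / (2 * τ ^ 2))
  have e2 := Real.exp_pos (-(l - b) ^ 2 / (2 * τ ^ 2))
  unfold Ph at h5 ⊢
  by_cases hl1 : a < l
  · by_cases hl2 : l ≤ b
    · rw [if_pos ⟨hl1, hl2⟩]
      have t1 := tailL hτ hl1.le
      have t2 := tailR hτ hl2
      rw [abs_le]
      constructor <;> linarith
    · rw [if_neg (fun h => hl2 h.2), sub_zero, abs_of_nonneg h5]
      push Not at hl2
      have t1 := tailL hτ hl2.le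
      have h6 : (∫ w in Set.Iic b, den τ l w) = (∫ w in Set.Iic a, den τ l w) +
          ∫ w in Set.Ioc a b, den τ l w := by
        rw [← setIntegral_union (Set.Iic_disjoint_Ioc le_rfl) measurableSet_Ioc hi.integrableOn
          hi.integrableOn, Set.Iic_union_Ioc_eq_Iic hab]
      linarith
  · rw [if_neg (fun h => hl1 h.1), sub_zero, abs_of_nonneg h5]
    push Not at hl1
    have t1 := tailR hτ hl1
    linarith

/-! ### The sum of the von Mangoldt function with a Gaussian weight -/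

/-- the Gaussian weight -/
noncomputable def gw (z l m : ℝ) : ℝ := Real.exp (-(l - m) ^ 2 * z / 2)

theorem gw_le {z : ℝ} (hz : 2 ≤ z) (l m : ℝ) : gw z l m ≤ Real.exp (1 + 2 * m - 2 * l) := by
  unfold gw
  apply Real.exp_le_exp.mpr
  nlinarith [sq_nonneg (l - m - 1), sq_nonneg (l - m)]

theorem exp_log_zt (n : ℕ) (B : ℝ) :
    Λ n * Real.exp (B - 2 * Real.log n) = Real.exp B * zt (1 + 1) n := by
  rcases Nat.eq_zero_or_pos n with h | h
  · subst h
    unfold zt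
    simp
  · have hn : (0 : ℝ) < n := by exact_mod_cast h
    unfold zt
    rw [Real.rpow_def_of_pos hn, sub_eq_add_neg, Real.exp_add]
    have : -(2 * Real.log n) = Real.log n * -(1 + 1) := by ring
    rw [this]
    ring

theorem mul_gw_le {z : ℝ} (hz : 2 ≤ z) (n : ℕ) (m : ℝ) :
    Λ n * gw z (Real.log n) m ≤ Real.exp (1 + 2 * m) * zt (1 + 1) n := by
  rw [← exp_log_zt]
  exact mul_le_mul_of_nonneg_left (gw_le hz _ _) vonMangoldt_nonneg

theorem summable_gw {z : ℝ} (hz : 2 ≤ z) (m : ℝ) :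
    Summable fun n : ℕ => Λ n * gw z (Real.log n) m :=
  Summable.of_nonneg_of_le
    (fun n => mul_nonneg vonMangoldt_nonneg (Real.exp_pos _).le)
    (fun n => mul_gw_le hz n m) ((summable_zt one_pos le_rfl).mul_left _)

theorem card_near {V δ : ℝ} (hV : 1 ≤ V) (hδ : 0 ≤ δ) (hδ1 : δ ≤ 1) (N : ℕ) :
    (((range N).filter fun n : ℕ => 0 < n ∧ |Real.log n - Real.log V| ≤ δ).card : ℝ) ≤
      3 * δ * V + 1 := by
  have hV0 : 0 < V := by linarith
  have hsub : ((range N).filter fun n : ℕ => 0 < n ∧ |Real.log n - Real.log V| ≤ δ) ⊆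
      Icc ⌈V * Real.exp (-δ)⌉₊ ⌊V * Real.exp δ⌋₊ := by
    intro n hn
    rw [mem_filter] at hn
    obtain ⟨-, hn0, h⟩ := hn
    have hn0' : (0 : ℝ) < n := by exact_mod_cast hn0
    rw [abs_le] at h
    rw [mem_Icc, Nat.ceil_le, Nat.le_floor_iff (by positivity)]
    constructor
    · rw [← Real.exp_log hn0', ← Real.exp_log hV0, ← Real.exp_add]
      exact Real.exp_le_exp.mpr (by linarith [h.1])
    · rw [← Real.exp_log hn0', ← Real.exp_log hV0, ← Real.exp_add]
      exact Real.exp_le_exp.mpr (by linarith [h.2])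
  have h1 := card_le_card hsub
  rw [Nat.card_Icc] at h1
  have h2 : (((range N).filter fun n : ℕ => 0 < n ∧ |Real.log n - Real.log V| ≤ δ).card : ℝ) ≤
      ((⌊V * Real.exp δ⌋₊ + 1 - ⌈V * Real.exp (-δ)⌉₊ : ℕ) : ℝ) := by exact_mod_cast h1
  refine h2.trans ?_
  have h3 : Real.exp δ ≤ 1 + δ + δ ^ 2 := by
    have := Real.abs_exp_sub_one_sub_id_le (x := δ) (by rw [abs_of_nonneg hδ]; exact hδ1)
    rw [abs_le] at this
    linarith [this.2]
  have h4 : 1 - δ ≤ Real.exp (-δ) := by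
    have := Real.add_one_le_exp (-δ)
    linarith
  have h5 : V * Real.exp δ - V * Real.exp (-δ) ≤ 3 * δ * V := by
    have : Real.exp δ - Real.exp (-δ) ≤ 3 * δ := by nlinarith
    nlinarith
  rcases Nat.le_total ⌈V * Real.exp (-δ)⌉₊ (⌊V * Real.exp δ⌋₊ + 1) with h | h
  · rw [Nat.cast_sub h]
    push_cast
    have h6 : (⌊V * Real.exp δ⌋₊ : ℝ) ≤ V * Real.exp δ := Nat.floor_le (by positivity)
    have h7 : V * Real.exp (-δ) ≤ ⌈V * Real.exp (-δ)⌉₊ := Nat.le_ceil _
    linarith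
  · rw [Nat.sub_eq_zero_of_le h]
    push_cast
    positivity

theorem sum_gw_le {z V : ℝ} (hz : 8 ≤ z) (hV : 1 ≤ V) {δ : ℝ} (hδ : 0 ≤ δ) (hδ1 : δ ≤ 1) :
    ∑' n : ℕ, Λ n * gw z (Real.log n) (Real.log V) ≤
      (3 * δ * V + 1) * (Real.log V + 1) + 18 * Real.exp (-(z * δ ^ 2 / 4)) * V ^ 2 := by
  have hV0 : 0 < V := by linarith
  have hlV : 0 ≤ Real.log V := Real.log_nonneg hV
  refine Real.tsum_le_of_sum_range_le
    (fun n => mul_nonneg vonMangoldt_nonneg (Real.exp_pos _).le) fun N => ?_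
  set A := (range N).filter fun n : ℕ => 0 < n ∧ |Real.log n - Real.log V| ≤ δ with hA
  have hpt : ∀ n ∈ range N, Λ n * gw z (Real.log n) (Real.log V) ≤
      (if n ∈ A then Real.log V + 1 else 0) +
        Real.exp (-(z * δ ^ 2 / 4)) * (Real.exp (1 + 2 * Real.log V) * zt (1 + 1) n) := by
    intro n hn
    rcases Nat.eq_zero_or_pos n with h0 | h0
    · subst h0
      have h1 : (0 : ℝ) ≤ (if 0 ∈ A then Real.log V + 1 else 0) := by split_ifs <;> linarith
      have h2 : 0 ≤ Real.exp (-(z * δ ^ 2 / 4)) * (Real.exp (1 + 2 * Real.log V) * zt (1 + 1) 0) :=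
        mul_nonneg (Real.exp_pos _).le (mul_nonneg (Real.exp_pos _).le (zt_nonneg _ _))
      simp only [ArithmeticFunction.map_zero, zero_mul]
      linarith
    have hnn : 0 ≤ Real.exp (-(z * δ ^ 2 / 4)) * (Real.exp (1 + 2 * Real.log V) * zt (1 + 1) n) :=
      mul_nonneg (Real.exp_pos _).le (mul_nonneg (Real.exp_pos _).le (zt_nonneg _ _))
    by_cases h : |Real.log n - Real.log V| ≤ δ
    · have hnA : n ∈ A := by
        rw [hA, mem_filter]
        exact ⟨hn, h0, h⟩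
      rw [if_pos hnA]
      have h1 : Λ n * gw z (Real.log n) (Real.log V) ≤ Λ n := by
        refine mul_le_of_le_one_right vonMangoldt_nonneg ?_
        unfold gw
        rw [Real.exp_le_one_iff]
        have := sq_nonneg (Real.log n - Real.log V)
        nlinarith
      have h2 : Λ n ≤ Real.log n := vonMangoldt_le_log
      rw [abs_le] at h
      linarith [h.2]
    · have h1 : gw z (Real.log n) (Real.log V) ≤
          Real.exp (-(z * δ ^ 2 / 4)) * gw (z / 2) (Real.log n) (Real.log V) := by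
        unfold gw
        rw [← Real.exp_add]
        apply Real.exp_le_exp.mpr
        push Not at h
        have h2 : δ ^ 2 ≤ (Real.log n - Real.log V) ^ 2 := by
          rw [← sq_abs (Real.log n - Real.log V)]
          exact pow_le_pow_left₀ hδ h.le 2
        nlinarith
      have h3 := mul_gw_le (z := z / 2) (by linarith) n (Real.log V)
      have h4 : (0 : ℝ) ≤ (if n ∈ A then Real.log V + 1 else 0) := by split_ifs <;> linarith
      calc Λ n * gw z (Real.log n) (Real.log V)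
          ≤ Λ n * (Real.exp (-(z * δ ^ 2 / 4)) * gw (z / 2) (Real.log n) (Real.log V)) :=
            mul_le_mul_of_nonneg_left h1 vonMangoldt_nonneg
        _ = Real.exp (-(z * δ ^ 2 / 4)) * (Λ n * gw (z / 2) (Real.log n) (Real.log V)) := by ring
        _ ≤ Real.exp (-(z * δ ^ 2 / 4)) * (Real.exp (1 + 2 * Real.log V) * zt (1 + 1) n) :=
            mul_le_mul_of_nonneg_left h3 (Real.exp_pos _).le
        _ ≤ _ := by linarith
  refine (sum_le_sum hpt).trans ?_
  rw [sum_add_distrib]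
  refine add_le_add ?_ ?_
  · rw [← sum_filter, filter_mem_eq_inter, sum_const, nsmul_eq_mul]
    apply mul_le_mul_of_nonneg_right _ (by linarith)
    refine le_trans ?_ (card_near hV hδ hδ1 N)
    exact_mod_cast card_le_card inter_subset_right
  · rw [← mul_sum, ← mul_sum]
    have h1 := sum_zt_le (a := 1) one_pos le_rfl N
    have h2 : Real.exp (1 + 2 * Real.log V) ≤ 3 * V ^ 2 := by
      rw [Real.exp_add]
      have e : Real.exp (2 * Real.log V) = V ^ 2 := by
        rw [show (2 : ℝ) * Real.log V = ((2 : ℕ) : ℝ) * Real.log V by norm_num, Real.exp_nat_mul,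
          Real.exp_log hV0]
      rw [e]
      apply mul_le_mul_of_nonneg_right _ (by positivity)
      have := Real.exp_one_lt_d9
      linarith
    have h3 : (0 : ℝ) ≤ ∑ n ∈ range N, zt (1 + 1) n := sum_nonneg fun n _ => zt_nonneg _ _
    calc Real.exp (-(z * δ ^ 2 / 4)) * (Real.exp (1 + 2 * Real.log V) * ∑ n ∈ range N, zt (1 + 1) n)
        ≤ Real.exp (-(z * δ ^ 2 / 4)) * (3 * V ^ 2 * (6 / 1 ^ 2)) := by
          apply mul_le_mul_of_nonneg_left _ (Real.exp_pos _).le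
          exact mul_le_mul h2 h1 h3 (by positivity)
      _ = _ := by ring

/-- The weighted sum at scale `1 / √Z`. -/
theorem sum_gw_le' {Z V : ℝ} (hZ : (20000 : ℝ) ^ 30 ≤ Z) (hV : 1 ≤ V)
    (hV2 : V ≤ Real.exp ((Real.log Z) ^ 2)) :
    ∑' n : ℕ, Λ n * gw Z (Real.log n) (Real.log V) ≤ 2 * (V * Z ^ (-(1 / 3) : ℝ)) + Z := by
  have hbig : (0 : ℝ) < (20000 : ℝ) ^ 30 := by positivity
  have hZ0 : 0 < Z := by linarith
  have hV0 : 0 < V := by linarith
  set y : ℝ := Z ^ (1 / 30 : ℝ) with hy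
  have hy1 : 20000 ≤ y := by
    have h1 : ((20000 : ℝ) ^ 30) ^ (1 / 30 : ℝ) ≤ y := Real.rpow_le_rpow hbig.le hZ (by norm_num)
    rwa [← Real.rpow_natCast, ← Real.rpow_mul (by norm_num), show ((30 : ℕ) : ℝ) * (1 / 30) = 1 by
      norm_num, Real.rpow_one] at h1
  have hy0 : 0 < y := by linarith
  have hyZ : ∀ k : ℕ, y ^ k = Z ^ ((k : ℝ) / 30) := by
    intro k
    rw [hy, ← Real.rpow_natCast, ← Real.rpow_mul hZ0.le]
    congr 1
    ring
  have hyi : ∀ k : ℕ, (y ^ k)⁻¹ = Z ^ (-((k : ℝ) / 30)) := by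
    intro k
    rw [hyZ, Real.rpow_neg hZ0.le]
  have hL2 : (Real.log Z) ^ 2 ≤ 3600 * y := by
    have h1 := Real.log_le_rpow_div hZ0.le (show (0 : ℝ) < 1 / 60 by norm_num)
    have h2 : 0 ≤ Real.log Z := Real.log_nonneg (by
      have : (1 : ℝ) ≤ (20000 : ℝ) ^ 30 := one_le_pow₀ (by norm_num)
      linarith)
    have h3 : (Real.log Z) ^ 2 ≤ (Z ^ (1 / 60 : ℝ) / (1 / 60)) ^ 2 := pow_le_pow_left₀ h2 h1 2
    have h4 : (Z ^ (1 / 60 : ℝ) / (1 / 60)) ^ 2 = 3600 * y := by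
      rw [div_pow, ← Real.rpow_natCast (Z ^ (1 / 60 : ℝ)), ← Real.rpow_mul hZ0.le, hy]
      norm_num
      ring
    linarith
  set L2 : ℝ := (Real.log Z) ^ 2 with hLdef
  have hL0 : 0 ≤ L2 := sq_nonneg _
  have hlV : Real.log V ≤ L2 := by
    have := Real.log_le_log hV0 hV2
    rwa [Real.log_exp] at this
  have hlV0 : 0 ≤ Real.log V := Real.log_nonneg hV
  set δ : ℝ := (y ^ 12)⁻¹ with hδ
  have hδ0 : 0 ≤ δ := by positivity
  have hδ1 : δ ≤ 1 := inv_le_one_of_one_le₀ (one_le_pow₀ (by linarith))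
  have hZ8 : 8 ≤ Z := by
    have : (8 : ℝ) ≤ (20000 : ℝ) ^ 30 := by norm_num
    linarith
  have key := sum_gw_le hZ8 hV hδ0 hδ1
  refine key.trans ?_
  have e1 : Z ^ (-(1 / 3) : ℝ) = (y ^ 10)⁻¹ := by
    rw [hyi]; norm_num
  have eZ : Z = y ^ 30 := by
    rw [hyZ]; norm_num
  have e2 : Z * δ ^ 2 / 4 = y ^ 6 / 4 := by
    rw [hδ]
    nth_rewrite 1 [eZ]
    field_simp
  rw [e1, e2]
  have g1 : 3 * δ * (L2 + 1) ≤ (y ^ 10)⁻¹ := by
    have h1 : 3 * (L2 + 1) ≤ y ^ 2 := by nlinarith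
    have h2 : δ * y ^ 2 = (y ^ 10)⁻¹ := by
      rw [hδ]; field_simp
    calc 3 * δ * (L2 + 1) = δ * (3 * (L2 + 1)) := by ring
      _ ≤ δ * y ^ 2 := mul_le_mul_of_nonneg_left h1 hδ0
      _ = _ := h2
  have g2 : L2 + 1 ≤ Z := by
    have h1 : y ^ 2 ≤ y ^ 30 := pow_le_pow_right₀ (by linarith) (by norm_num)
    nlinarith
  have g3 : (3 * δ * V + 1) * (Real.log V + 1) ≤ V * (y ^ 10)⁻¹ + Z := by
    calc (3 * δ * V + 1) * (Real.log V + 1) ≤ (3 * δ * V + 1) * (L2 + 1) :=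
          mul_le_mul_of_nonneg_left (by linarith) (by positivity)
      _ = V * (3 * δ * (L2 + 1)) + (L2 + 1) := by ring
      _ ≤ V * (y ^ 10)⁻¹ + Z := add_le_add (mul_le_mul_of_nonneg_left g1 hV0.le) g2
  have g4 : 18 * Real.exp (-(y ^ 6 / 4)) * V ≤ (y ^ 10)⁻¹ := by
    have h1 : (y ^ 10)⁻¹ = Real.exp (-(Real.log Z / 3)) := by
      rw [← e1, Real.rpow_def_of_pos hZ0]
      congr 1
      ring
    have h2 : (18 : ℝ) ≤ Real.exp 3 := by
      have h3 : Real.exp 3 = Real.exp 1 ^ 3 := by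
        rw [← Real.exp_nat_mul]; norm_num
      have h4 := Real.exp_one_gt_d9
      rw [h3]
      calc (18 : ℝ) ≤ 2.7 ^ 3 := by norm_num
        _ ≤ Real.exp 1 ^ 3 := pow_le_pow_left₀ (by norm_num) (by linarith) 3
    have h5 : Real.log Z / 3 ≤ L2 + 1 := by
      rw [hLdef]
      nlinarith [sq_nonneg (Real.log Z - 1), sq_nonneg (Real.log Z)]
    have h6 : (3 : ℝ) + L2 + (L2 + 1) ≤ y ^ 6 / 4 := by
      have h7 : y ^ 6 = y ^ 2 * y ^ 4 := by ring
      have h8 : (8 : ℝ) ≤ y ^ 4 := by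
        calc (8 : ℝ) ≤ 20000 ^ 4 := by norm_num
          _ ≤ y ^ 4 := pow_le_pow_left₀ (by norm_num) hy1 4
      have h9 : 2 * y ^ 2 ≤ y ^ 6 / 4 := by
        rw [h7]
        nlinarith [sq_nonneg y]
      nlinarith
    calc 18 * Real.exp (-(y ^ 6 / 4)) * V
        ≤ Real.exp 3 * Real.exp (-(y ^ 6 / 4)) * Real.exp L2 := by
          apply mul_le_mul _ hV2 hV0.le (by positivity)
          exact mul_le_mul_of_nonneg_right h2 (Real.exp_pos _).le
      _ = Real.exp (3 + -(y ^ 6 / 4) + L2) := by rw [Real.exp_add, Real.exp_add]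
      _ ≤ (y ^ 10)⁻¹ := by
          rw [h1]
          apply Real.exp_le_exp.mpr
          linarith
  have g5 : 18 * Real.exp (-(y ^ 6 / 4)) * V ^ 2 ≤ V * (y ^ 10)⁻¹ := by
    calc 18 * Real.exp (-(y ^ 6 / 4)) * V ^ 2 = V * (18 * Real.exp (-(y ^ 6 / 4)) * V) := by ring
      _ ≤ V * (y ^ 10)⁻¹ := mul_le_mul_of_nonneg_left g4 hV0.le
  linarith

/-! ### Assembly -/

section asm

variable {q : ℕ} (χ : DirichletCharacter ℂ q)

/-- the coefficients -/
noncomputable def av (n : ℕ) : ℂ := (Λ n : ℂ) * χ n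

theorem norm_av_le (n : ℕ) : ‖av χ n‖ ≤ Λ n := by
  unfold av
  rw [norm_mul, norm_real, Real.norm_of_nonneg vonMangoldt_nonneg]
  exact mul_le_of_le_one_right vonMangoldt_nonneg (DirichletCharacter.norm_le_one χ _)

/-- the smoothed sum -/
noncomputable def Tw (τ w : ℝ) : ℂ := ∑' n : ℕ, av χ n * (den τ (Real.log n) w : ℂ)

theorem den_le_exp {τ : ℝ} (hτ : 0 < τ) (hτ1 : 1 ≤ 1 / (2 * τ ^ 2)) (l w : ℝ) :
    den τ l w ≤ (τ * Real.sqrt (2 * Real.pi))⁻¹ * Real.exp (1 + 2 * w - 2 * l) := by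
  unfold den
  apply mul_le_mul_of_nonneg_left _ (by positivity)
  apply Real.exp_le_exp.mpr
  have h1 : -(l - w) ^ 2 / (2 * τ ^ 2) = -((l - w) ^ 2 * (1 / (2 * τ ^ 2))) := by ring
  rw [h1]
  nlinarith [sq_nonneg (l - w - 1), sq_nonneg (l - w)]

theorem norm_term_le {τ : ℝ} (hτ : 0 < τ) (hτ1 : 1 ≤ 1 / (2 * τ ^ 2)) {b w : ℝ} (hw : w ≤ b)
    (n : ℕ) : ‖av χ n * (den τ (Real.log n) w : ℂ)‖ ≤
      (τ * Real.sqrt (2 * Real.pi))⁻¹ * Real.exp (1 + 2 * b) * zt (1 + 1) n := by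
  rw [norm_mul, norm_real, Real.norm_of_nonneg (den_nonneg hτ _ _)]
  have h1 := den_le_exp hτ hτ1 (Real.log n) w
  have h2 : Real.exp (1 + 2 * w - 2 * Real.log n) ≤ Real.exp (1 + 2 * b - 2 * Real.log n) :=
    Real.exp_le_exp.mpr (by linarith)
  calc ‖av χ n‖ * den τ (Real.log n) w
      ≤ Λ n * ((τ * Real.sqrt (2 * Real.pi))⁻¹ * Real.exp (1 + 2 * b - 2 * Real.log n)) := by
        apply mul_le_mul (norm_av_le χ n) _ (den_nonneg hτ _ _) vonMangoldt_nonneg
        exact h1.trans (mul_le_mul_of_nonneg_left h2 (by positivity))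
    _ = (τ * Real.sqrt (2 * Real.pi))⁻¹ * (Λ n * Real.exp (1 + 2 * b - 2 * Real.log n)) := by ring
    _ = _ := by rw [exp_log_zt]; ring

theorem summable_bd (τ b : ℝ) : Summable fun n : ℕ =>
    (τ * Real.sqrt (2 * Real.pi))⁻¹ * Real.exp (1 + 2 * b) * zt (1 + 1) n :=
  (summable_zt one_pos le_rfl).mul_left _

theorem continuous_den (τ l : ℝ) : Continuous (den τ l) := by
  unfold den
  fun_prop

theorem continuousOn_Tw {τ : ℝ} (hτ : 0 < τ) (hτ1 : 1 ≤ 1 / (2 * τ ^ 2)) (a b : ℝ) :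
    ContinuousOn (Tw χ τ) (Set.Icc a b) := by
  unfold Tw
  refine continuousOn_tsum (fun n => ?_) (summable_bd τ b)
    (fun n w hw => norm_term_le χ hτ hτ1 hw.2 n)
  exact (continuous_const.mul (continuous_ofReal.comp (continuous_den τ _))).continuousOn

theorem integral_Tw {τ : ℝ} (hτ : 0 < τ) (hτ1 : 1 ≤ 1 / (2 * τ ^ 2)) {a b : ℝ} (hab : a ≤ b) :
    ∫ w in Set.Ioc a b, Tw χ τ w = ∑' n : ℕ, av χ n * (Ph τ a b (Real.log n) : ℂ) := by
  unfold Tw
  have hi : ∀ n : ℕ, Integrable (fun w => av χ n * (den τ (Real.log n) w : ℂ))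
      (volume.restrict (Set.Ioc a b)) := fun n =>
    ((integrable_den_real hτ (Real.log n)).ofReal.const_mul _).integrableOn
  have hfin : volume (Set.Ioc a b) < ⊤ := by simp
  have hsum : Summable fun n : ℕ => ∫ w, ‖av χ n * (den τ (Real.log n) w : ℂ)‖
      ∂(volume.restrict (Set.Ioc a b)) := by
    refine Summable.of_nonneg_of_le (fun n => integral_nonneg fun w => norm_nonneg _)
      (fun n => ?_) ((summable_bd τ b).mul_left (b - a))
    calc ∫ w in Set.Ioc a b, ‖av χ n * (den τ (Real.log n) w : ℂ)‖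
        ≤ ∫ w in Set.Ioc a b, ((τ * Real.sqrt (2 * Real.pi))⁻¹ * Real.exp (1 + 2 * b) *
            zt (1 + 1) n) := by
          refine setIntegral_mono_on (hi n).norm (integrableOn_const (by simp)) measurableSet_Ioc
            fun w hw => norm_term_le χ hτ hτ1 hw.2 n
      _ = _ := by
          rw [setIntegral_const, smul_eq_mul, Real.volume_real_Ioc_of_le hab]
  rw [← (hasSum_integral_of_summable_integral_norm hi hsum).tsum_eq]
  congr 1
  funext n
  rw [integral_const_mul]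
  congr 1
  unfold Ph
  exact integral_ofReal

theorem Tw_eq {τ : ℝ} (w : ℝ) :
    Tw χ τ w = (((τ * Real.sqrt (2 * Real.pi))⁻¹ : ℝ) : ℂ) * gaussSum' χ τ (Real.exp w) := by
  unfold Tw gaussSum'
  rw [← tsum_mul_left]
  congr 1
  funext n
  rcases Nat.eq_zero_or_pos n with h | h
  · subst h
    unfold av
    simp
  · have hn : (0 : ℝ) < n := by exact_mod_cast h
    rw [Real.log_div hn.ne' (Real.exp_pos w).ne', Real.log_exp]
    unfold av den
    push_cast
    ring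

end asm

theorem list_integral {a b : ℝ} {Z : ℝ} {L : List ℂ} (h : ∀ ρ ∈ L, ρ ≠ 0) :
    (∫ w in a..b, ((L.map fun ρ => Complex.exp (ρ ^ 2 / (2 * Z)) *
      ((Real.exp w : ℝ) : ℂ) ^ ρ).sum)) =
    (L.map fun ρ => Complex.exp (ρ ^ 2 / (2 * Z)) *
      ((((Real.exp b : ℝ) : ℂ) ^ ρ - ((Real.exp a : ℝ) : ℂ) ^ ρ) / ρ)).sum := by
  have hcp : ∀ (w : ℝ) (ρ : ℂ), ((Real.exp w : ℝ) : ℂ) ^ ρ = cexp (ρ * w) := by
    intro w ρ
    rw [cpow_def_of_ne_zero (by exact_mod_cast (Real.exp_pos w).ne'),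
      ← ofReal_log (Real.exp_pos w).le, Real.log_exp, mul_comm]
  simp_rw [hcp]
  induction L with
  | nil => simp
  | cons ρ L ih =>
    simp_rw [List.map_cons, List.sum_cons]
    have hcont : ∀ L : List ℂ, Continuous fun w : ℝ =>
        (L.map fun ρ => Complex.exp (ρ ^ 2 / (2 * Z)) * cexp (ρ * w)).sum := by
      intro L
      induction L with
      | nil => simp only [List.map_nil, List.sum_nil]; exact continuous_const
      | cons ρ L ih =>
        simp_rw [List.map_cons, List.sum_cons]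
        refine Continuous.add ?_ ih
        fun_prop
    rw [intervalIntegral.integral_add
      (Continuous.intervalIntegrable (by fun_prop) _ _) ((hcont L).intervalIntegrable _ _),
      intervalIntegral.integral_const_mul, integral_exp_mul_complex (h ρ List.mem_cons_self),
      ih fun ρ' h' => h ρ' (List.mem_cons_of_mem _ h')]

theorem continuous_list {Z : ℝ} (L : List ℂ) : Continuous fun w : ℝ =>
    (L.map fun ρ => Complex.exp (ρ ^ 2 / (2 * Z)) * ((Real.exp w : ℝ) : ℂ) ^ ρ).sum := by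
  have hcp : ∀ (w : ℝ) (ρ : ℂ), ((Real.exp w : ℝ) : ℂ) ^ ρ = cexp (ρ * w) := by
    intro w ρ
    rw [cpow_def_of_ne_zero (by exact_mod_cast (Real.exp_pos w).ne'),
      ← ofReal_log (Real.exp_pos w).le, Real.log_exp, mul_comm]
  simp_rw [hcp]
  induction L with
  | nil => simp only [List.map_nil, List.sum_nil]; exact continuous_const
  | cons ρ L ih =>
    simp_rw [List.map_cons, List.sum_cons]
    refine Continuous.add ?_ ih
    fun_prop

theorem sum_diff_le {q : ℕ} (χ : DirichletCharacter ℂ q) {Z u v : ℝ}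
    (hZ : (20000 : ℝ) ^ 30 ≤ Z) (hu : 1 ≤ u) (huv : u ≤ v)
    (hv : v ≤ Real.exp ((Real.log Z) ^ 2)) :
    ‖(∑' n : ℕ, av χ n * (Ph (1 / √Z) (Real.log u) (Real.log v) (Real.log n) : ℂ)) -
      ∑ n ∈ Ioc ⌊u⌋₊ ⌊v⌋₊, av χ n‖ ≤ 4 * (v * Z ^ (-(1 / 3) : ℝ)) + 2 * Z := by
  have hbig : (1 : ℝ) ≤ (20000 : ℝ) ^ 30 := one_le_pow₀ (by norm_num)
  have hbig2 : (2 : ℝ) ≤ (20000 : ℝ) ^ 30 := by norm_num
  have hZ0 : 0 < Z := by linarith
  have hZ2 : 2 ≤ Z := by linarith
  have hu0 : 0 < u := by linarith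
  have hv0 : 0 < v := by linarith
  have hτ : 0 < 1 / √Z := by positivity
  have hτ2 : 2 * (1 / √Z) ^ 2 = 2 / Z := by
    rw [div_pow, one_pow, Real.sq_sqrt hZ0.le]; ring
  have hab : Real.log u ≤ Real.log v := Real.log_le_log hu0 huv
  set s := Ioc ⌊u⌋₊ ⌊v⌋₊ with hs
  have hmem : ∀ n : ℕ, n ∈ s ↔ 0 < n ∧ Real.log u < Real.log n ∧ Real.log n ≤ Real.log v := by
    intro n
    rw [hs, mem_Ioc]
    constructor
    · rintro ⟨h1, h2⟩
      have hn : 0 < n := by omega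
      have hn' : (0 : ℝ) < n := by exact_mod_cast hn
      refine ⟨hn, Real.log_lt_log hu0 ((Nat.floor_lt hu0.le).mp h1),
        Real.log_le_log hn' ((Nat.le_floor_iff hv0.le).mp h2)⟩
    · rintro ⟨hn, h1, h2⟩
      have hn' : (0 : ℝ) < n := by exact_mod_cast hn
      refine ⟨(Nat.floor_lt hu0.le).mpr ((Real.log_lt_log_iff hu0 hn').mp h1),
        (Nat.le_floor_iff hv0.le).mpr ((Real.log_le_log_iff hn' hv0).mp h2)⟩
  have e1 : ∑ n ∈ s, av χ n = ∑' n : ℕ, (if n ∈ s then av χ n else 0) := by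
    rw [tsum_eq_sum (s := s) (fun n hn => if_neg hn)]
    exact sum_congr rfl fun n hn => (if_pos hn).symm
  have hbd : ∀ n : ℕ, ‖av χ n * (Ph (1 / √Z) (Real.log u) (Real.log v) (Real.log n) : ℂ) -
      (if n ∈ s then av χ n else 0)‖ ≤
      Λ n * gw Z (Real.log n) (Real.log u) + Λ n * gw Z (Real.log n) (Real.log v) := by
    intro n
    rcases Nat.eq_zero_or_pos n with h | h
    · subst h
      have h0 : 0 ∉ s := by rw [hmem]; simp
      rw [if_neg h0]
      unfold av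
      simp
    have h1 := abs_Ph_sub hτ (l := Real.log n) hab
    have h2 : (if n ∈ s then av χ n else 0) =
        av χ n * (((if Real.log u < Real.log n ∧ Real.log n ≤ Real.log v then (1 : ℝ) else 0) : ℝ) :
          ℂ) := by
      by_cases hn : n ∈ s
      · rw [if_pos hn, if_pos ((hmem n).mp hn).2]; simp
      · rw [if_neg hn, if_neg (fun h' => hn ((hmem n).mpr ⟨h, h'⟩))]; simp
    rw [h2, ← mul_sub, norm_mul, ← ofReal_sub, norm_real, Real.norm_eq_abs]
    have h3 : ∀ m : ℝ, Real.exp (-(Real.log n - m) ^ 2 / (2 * (1 / √Z) ^ 2)) =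
        gw Z (Real.log n) m := by
      intro m
      unfold gw
      rw [hτ2]
      congr 1
      field_simp
    rw [h3, h3] at h1
    calc ‖av χ n‖ * |Ph (1 / √Z) (Real.log u) (Real.log v) (Real.log n) -
        (if Real.log u < Real.log n ∧ Real.log n ≤ Real.log v then (1 : ℝ) else 0)|
        ≤ Λ n * (gw Z (Real.log n) (Real.log u) + gw Z (Real.log n) (Real.log v)) :=
          mul_le_mul (norm_av_le χ n) h1 (abs_nonneg _) vonMangoldt_nonneg
      _ = _ := by ring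
  have hsu := summable_gw hZ2 (Real.log u)
  have hsv := summable_gw hZ2 (Real.log v)
  have hfs : Summable fun n : ℕ => (if n ∈ s then av χ n else 0) :=
    summable_of_ne_finset_zero (s := s) fun n hn => if_neg hn
  have hds : Summable fun n : ℕ =>
      av χ n * (Ph (1 / √Z) (Real.log u) (Real.log v) (Real.log n) : ℂ) -
      (if n ∈ s then av χ n else 0) := Summable.of_norm_bounded (hsu.add hsv) hbd
  have hPs : Summable fun n : ℕ =>
      av χ n * (Ph (1 / √Z) (Real.log u) (Real.log v) (Real.log n) : ℂ) := by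
    have := hds.add hfs
    simpa using this
  rw [e1, ← hPs.tsum_sub hfs]
  refine (tsum_of_norm_bounded (hsu.add hsv).hasSum hbd).trans ?_
  rw [hsu.tsum_add hsv]
  have g1 := sum_gw_le' hZ hu (huv.trans hv)
  have g2 := sum_gw_le' hZ (hu.trans huv) hv
  have g3 : u * Z ^ (-(1 / 3) : ℝ) ≤ v * Z ^ (-(1 / 3) : ℝ) :=
    mul_le_mul_of_nonneg_right huv (by positivity)
  linarith

end Pool.Agent.PS.EFx

namespace Pool.Agent.PS

open EFx
open scoped Classical

/-- **EF**. -/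
theorem stmt_EF (hEF : Stmt_EF1) (hZS : Stmt_ZSPEC) : Stmt_EF := by
  obtain ⟨C1, hC1, hEF⟩ := hEF
  have hb1 : (1 : ℝ) ≤ (20000 : ℝ) ^ 30 := one_le_pow₀ (by norm_num)
  refine ⟨(20000 : ℝ) ^ 30 + 4 * C1 + 20, by linarith, ?_⟩
  intro Z hZ x hx u v hu huv hv
  have hZ1 : C1 ≤ Z := by linarith
  have hZb : (20000 : ℝ) ^ 30 ≤ Z := by linarith
  obtain ⟨q, χ⟩ := x
  have hq : 0 < q := by
    unfold Fam at hx
    rw [Finset.mem_sigma, Finset.mem_Ioc] at hx
    exact hx.1.1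
  have : NeZero q := ⟨hq.ne'⟩
  have hspec := (hZS Z ⟨q, χ⟩ hq.ne').2.2
  have hZ0 : (0 : ℝ) < Z := by linarith
  have hu0 : 0 < u := by linarith
  have hv0 : 0 < v := by linarith
  have hZp : (1 : ℝ) ≤ Z := by linarith
  set L := zl ⟨q, χ⟩ Z with hL
  set τ : ℝ := 1 / √(Z : ℝ) with hτdef
  have hτ : 0 < τ := by positivity
  have hτ1 : 1 ≤ 1 / (2 * τ ^ 2) := by
    rw [hτdef, div_pow, one_pow, Real.sq_sqrt hZ0.le]
    rw [show 1 / (2 * (1 / (Z : ℝ))) = Z / 2 by field_simp]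
    linarith
  set a := Real.log u with ha
  set b := Real.log v with hb
  have hab : a ≤ b := Real.log_le_log hu0 huv
  have ha0 : 0 ≤ a := Real.log_nonneg hu
  have hea : Real.exp a = u := Real.exp_log hu0
  have heb : Real.exp b = v := Real.exp_log hv0
  have hbL : b ≤ (Real.log Z) ^ 2 := by
    have := Real.log_le_log hv0 hv
    rwa [Real.log_exp] at this
  set e0 : ℝ := Real.exp (1 / (2 * Z)) with he0
  set ex : ℂ := if χ = 1 then 1 else 0 with hex
  have hexn : ‖ex‖ ≤ 1 := by rw [hex]; split_ifs <;> simp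
  set R : ℝ → ℂ := fun w => (L.map fun ρ => Complex.exp (ρ ^ 2 / (2 * (Z : ℝ))) *
      ((Real.exp w : ℝ) : ℂ) ^ ρ).sum with hR
  have hcoef : (√(Z : ℝ) / √(2 * Real.pi) : ℝ) = (τ * Real.sqrt (2 * Real.pi))⁻¹ := by
    have h6 : 0 < Real.sqrt (2 * Real.pi) := by positivity
    rw [hτdef]
    field_simp
  -- pointwise bound
  have hpt : ∀ w ∈ Set.Ioc a b, ‖Tw χ τ w - ex * ((Real.exp w * e0 : ℝ) : ℂ) + R w‖ ≤
      C1 * (Z : ℝ) ^ 4 * Real.exp (19 / 20 * w) := by
    intro w hw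
    have h1 := hEF Z hZ1 ⟨q, χ⟩ hx (Real.exp w) (Real.one_le_exp (by linarith [hw.1]))
      (Real.exp_le_exp.mpr (by linarith [hw.2]))
    have e1 : (Real.exp w) ^ (19 / 20 : ℝ) = Real.exp (19 / 20 * w) := by
      rw [← Real.exp_mul, mul_comm]
    rw [e1, ← hτdef, ← he0] at h1
    refine le_trans (le_of_eq ?_) h1
    congr 1
    rw [hcoef, Tw_eq χ w, hex, hR]
    simp only [ofReal_natCast]
    split_ifs <;> simp [hL]
  -- integrability
  have hTc : ContinuousOn (Tw χ τ) (Set.Icc a b) := continuousOn_Tw χ hτ hτ1 a b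
  have hTi : IntervalIntegrable (Tw χ τ) volume a b := by
    apply ContinuousOn.intervalIntegrable
    rwa [Set.uIcc_of_le hab]
  have hRc : Continuous R := continuous_list L
  have hEc : Continuous fun w : ℝ => ex * ((Real.exp w * e0 : ℝ) : ℂ) := by fun_prop
  have hint : ∫ w in a..b, (Tw χ τ w - ex * ((Real.exp w * e0 : ℝ) : ℂ) + R w) =
      (∫ w in a..b, Tw χ τ w) - (∫ w in a..b, ex * ((Real.exp w * e0 : ℝ) : ℂ)) +
        ∫ w in a..b, R w := by
    rw [intervalIntegral.integral_add (hTi.sub (hEc.intervalIntegrable _ _))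
      (hRc.intervalIntegrable _ _),
      intervalIntegral.integral_sub hTi (hEc.intervalIntegrable _ _)]
  have hI2 : ∫ w in a..b, ex * ((Real.exp w * e0 : ℝ) : ℂ) = ex * ((e0 * (v - u) : ℝ) : ℂ) := by
    rw [intervalIntegral.integral_const_mul, intervalIntegral.integral_ofReal,
      intervalIntegral.integral_mul_const, integral_exp, hea, heb, mul_comm e0]
  have hI3 : ∫ w in a..b, R w = (L.map fun ρ => Complex.exp (ρ ^ 2 / (2 * (Z : ℝ))) *
      (((v : ℂ) ^ ρ - (u : ℂ) ^ ρ) / ρ)).sum := by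
    have hne : ∀ ρ ∈ L, ρ ≠ 0 := by
      intro ρ hρ h0
      have := (hspec ρ hρ).2.1
      rw [h0, zero_re] at this
      norm_num at this
    rw [hR, list_integral hne, hea, heb]
  have hI1 : ∫ w in a..b, Tw χ τ w = ∑' n : ℕ, av χ n * (Ph τ a b (Real.log n) : ℂ) := by
    rw [intervalIntegral.integral_of_le hab]
    exact integral_Tw χ hτ hτ1 hab
  have hnorm : ‖∫ w in a..b, (Tw χ τ w - ex * ((Real.exp w * e0 : ℝ) : ℂ) + R w)‖ ≤
      2 * C1 * (Z : ℝ) ^ 4 * v ^ (19 / 20 : ℝ) := by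
    have h1 := intervalIntegral.norm_integral_le_of_norm_le (μ := volume) hab
      (Eventually.of_forall fun w hw => hpt w hw)
      (Continuous.intervalIntegrable (by fun_prop) _ _)
    refine h1.trans ?_
    rw [intervalIntegral.integral_const_mul]
    have h2 : ∫ w in a..b, Real.exp (19 / 20 * w) ≤ 2 * v ^ (19 / 20 : ℝ) := by
      rw [intervalIntegral.integral_comp_mul_left (fun x => Real.exp x) (by norm_num : (19 / 20 : ℝ) ≠ 0),
        integral_exp, smul_eq_mul]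
      have h3 : Real.exp (19 / 20 * b) = v ^ (19 / 20 : ℝ) := by
        rw [Real.rpow_def_of_pos hv0, ← hb, mul_comm]
      rw [h3]
      have h4 := Real.exp_pos (19 / 20 * a)
      have h5 : 0 < v ^ (19 / 20 : ℝ) := Real.rpow_pos_of_pos hv0 _
      linarith
    calc C1 * (Z : ℝ) ^ 4 * ∫ w in a..b, Real.exp (19 / 20 * w)
        ≤ C1 * (Z : ℝ) ^ 4 * (2 * v ^ (19 / 20 : ℝ)) :=
          mul_le_mul_of_nonneg_left h2 (by positivity)
      _ = _ := by ring
  rw [hint, hI1, hI2, hI3] at hnorm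
  have hdiff := sum_diff_le χ (Z := (Z : ℝ)) hZb hu huv hv
  rw [← hτdef, ← ha, ← hb] at hdiff
  -- the factor e0
  have he1 : ‖ex * ((e0 * (v - u) : ℝ) : ℂ) - ex * ((v - u : ℝ) : ℂ)‖ ≤ v * (Z : ℝ) ^ (-(1 / 3) : ℝ) := by
    rw [← mul_sub, ← ofReal_sub, norm_mul, norm_real, Real.norm_eq_abs]
    have h1 : 0 ≤ e0 - 1 := by
      rw [he0]
      have := Real.add_one_le_exp (1 / (2 * (Z : ℝ)))
      have h2 : 0 < 1 / (2 * (Z : ℝ)) := by positivity
      linarith
    have h2 : e0 - 1 ≤ 1 / Z := by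
      have h3 : |1 / (2 * (Z : ℝ))| ≤ 1 := by
        rw [abs_of_nonneg (by positivity), div_le_one (by positivity)]
        linarith
      have h4 := Real.abs_exp_sub_one_le h3
      rw [abs_of_nonneg (a := 1 / (2 * (Z : ℝ))) (by positivity), ← he0] at h4
      have h5 : 2 * (1 / (2 * (Z : ℝ))) = 1 / Z := by field_simp
      rw [h5] at h4
      exact (le_abs_self _).trans h4
    have h3 : e0 * (v - u) - (v - u) = (e0 - 1) * (v - u) := by ring
    rw [h3, abs_of_nonneg (mul_nonneg h1 (by linarith))]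
    have h4 : 1 / (Z : ℝ) ≤ (Z : ℝ) ^ (-(1 / 3) : ℝ) := by
      rw [one_div, ← Real.rpow_neg_one]
      exact Real.rpow_le_rpow_of_exponent_le hZp (by norm_num)
    calc ‖ex‖ * ((e0 - 1) * (v - u)) ≤ 1 * ((Z : ℝ) ^ (-(1 / 3) : ℝ) * v) := by
          apply mul_le_mul hexn _ (mul_nonneg h1 (by linarith)) (by norm_num)
          exact mul_le_mul (h2.trans h4) (by linarith) (by linarith) (by positivity)
      _ = _ := by ring
  have hex2 : (@ite ℂ ((⟨q, χ⟩ : Ch).2 = 1) (Classical.propDecidable _) ((v - u : ℝ) : ℂ) 0) =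
      ex * ((v - u : ℝ) : ℂ) := by
    rw [hex]
    split_ifs <;> simp
  rw [hex2]
  have hcast : (L.map fun ρ => Complex.exp (ρ ^ 2 / (2 * Z)) *
      (((v : ℂ) ^ ρ - (u : ℂ) ^ ρ) / ρ)).sum = (L.map fun ρ => Complex.exp (ρ ^ 2 / (2 * (Z : ℝ))) *
      (((v : ℂ) ^ ρ - (u : ℂ) ^ ρ) / ρ)).sum := by
    simp only [ofReal_natCast]
  rw [hcast]
  set S0 : ℂ := ∑ n ∈ Ioc ⌊u⌋₊ ⌊v⌋₊, av χ n with hS0
  set S1 : ℂ := ∑' n : ℕ, av χ n * (Ph τ a b (Real.log n) : ℂ)
  set M : ℂ := (L.map fun ρ => Complex.exp (ρ ^ 2 / (2 * (Z : ℝ))) *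
      (((v : ℂ) ^ ρ - (u : ℂ) ^ ρ) / ρ)).sum
  have hS : (∑ n ∈ Ioc ⌊u⌋₊ ⌊v⌋₊, (Λ n : ℂ) * (⟨q, χ⟩ : Ch).2 (n : ZMod (⟨q, χ⟩ : Ch).1)) = S0 := rfl
  rw [hS]
  have hdec : S0 - ex * ((v - u : ℝ) : ℂ) + M = (S1 - ex * ((e0 * (v - u) : ℝ) : ℂ) + M) -
      (S1 - S0) + (ex * ((e0 * (v - u) : ℝ) : ℂ) - ex * ((v - u : ℝ) : ℂ)) := by ring
  rw [hdec]
  refine (norm_add_le _ _).trans ((add_le_add ((norm_sub_le _ _).trans (add_le_add hnorm hdiff))
    he1).trans ?_)
  have hvp : 1 ≤ v ^ (19 / 20 : ℝ) := Real.one_le_rpow (hu.trans huv) (by norm_num)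
  have p1 : (Z : ℝ) ^ 4 ≤ (Z : ℝ) ^ 5 := pow_le_pow_right₀ hZp (by norm_num)
  have p2 : (Z : ℝ) ≤ (Z : ℝ) ^ 5 := by
    calc (Z : ℝ) = (Z : ℝ) ^ 1 := (pow_one _).symm
      _ ≤ (Z : ℝ) ^ 5 := pow_le_pow_right₀ hZp (by norm_num)
  have p3 : (Z : ℝ) ≤ (Z : ℝ) ^ 5 * v ^ (19 / 20 : ℝ) :=
    p2.trans (le_mul_of_one_le_right (by positivity) hvp)
  have p4 : 2 * C1 * (Z : ℝ) ^ 4 * v ^ (19 / 20 : ℝ) ≤
      2 * C1 * ((Z : ℝ) ^ 5 * v ^ (19 / 20 : ℝ)) := by
    rw [mul_assoc (2 * C1)]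
    apply mul_le_mul_of_nonneg_left _ (by linarith)
    exact mul_le_mul_of_nonneg_right p1 (by positivity)
  set A := v * (Z : ℝ) ^ (-(1 / 3) : ℝ) with hA
  set B := (Z : ℝ) ^ 5 * v ^ (19 / 20 : ℝ) with hB
  have hA0 : 0 ≤ A := by positivity
  have hB0 : 0 ≤ B := by positivity
  have q1 : 0 ≤ ((20000 : ℝ) ^ 30) * (A + B) := by positivity
  have q2 : 0 ≤ C1 * (A + B) := by positivity
  have q3 : 0 ≤ C1 * A := by positivity
  have q4 : 0 ≤ C1 * B := by positivity
  calc 2 * C1 * (Z : ℝ) ^ 4 * v ^ (19 / 20 : ℝ) + (4 * A + 2 * Z) + A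
      ≤ 2 * C1 * B + (4 * A + 2 * B) + A := by linarith
    _ ≤ ((20000 : ℝ) ^ 30) * (A + B) + 4 * (C1 * A) + 4 * (C1 * B) + 20 * (A + B) := by linarith
    _ = ((20000 : ℝ) ^ 30 + 4 * C1 + 20) * (A + B) := by ring

end Pool.Agent.PS
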