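import Pool.Agent.Work.PS.Interface
import Pool.Agent.Work.MP_b0c12c_nt_helper6.LogD

/-!
# PS, blocks ZL and LF: lists of zeros and the local formula
-/

set_option autoImplicit false

namespace Pool.Agent.PS

open Finset Metric
open Pool.Agent.Work.MP_b0c12c_nt_helper70
open scoped Classical

theorem PP_append (L1 L2 : List ℂ) (s : ℂ) : PP (L1 ++ L2) s = PP L1 s * PP L2 s := by
  unfold PP
  rw [List.map_append, List.prod_append]

theorem PP_perm {L1 L2 : List ℂ} (h : L1.Perm L2) (s : ℂ) : PP L1 s = PP L2 s := by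
  unfold PP
  exact (h.map _).prod_eq

/-- Splitting a list according to a predicate. -/
theorem PP_filter (L : List ℂ) (p : ℂ → Prop) (s : ℂ) :
    PP L s = PP (L.filter fun ρ => p ρ) s * PP (L.filter fun ρ => ¬ p ρ) s := by
  induction L with
  | nil => simp [PP_nil]
  | cons a L ih =>
    by_cases h : p a
    · rw [List.filter_cons_of_pos (by simpa using h), List.filter_cons_of_neg (by simpa using h),
        PP_cons, PP_cons, ih]
      ring
    · rw [List.filter_cons_of_neg (by simpa using h), List.filter_cons_of_pos (by simpa using h),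
        PP_cons, PP_cons, ih]
      ring

theorem stmt_ZL : Stmt_ZL := by
  intro f hf ⟨s0, hs0⟩ K hK
  obtain ⟨R, hR⟩ := hK.subset_closedBall s0
  set r : ℝ := 4 * max R 1 with hr
  have hr0 : 0 < r := by
    have : (1 : ℝ) ≤ max R 1 := le_max_right _ _
    positivity
  obtain ⟨M, hM⟩ := (isCompact_closedBall s0 r).exists_bound_of_continuousOn
    hf.continuous.continuousOn
  have hf0 : 0 < ‖f s0‖ := norm_pos_iff.2 hs0
  have hb : ∀ s ∈ closedBall s0 r, ‖f s‖ ≤ Real.exp (Real.log (M / ‖f s0‖)) * ‖f s0‖ := by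
    intro s hs
    have h1 := hM s hs
    have h2 : ‖f s0‖ ≤ M := hM s0 (mem_closedBall_self hr0.le)
    have h3 : 0 < M / ‖f s0‖ := div_pos (hf0.trans_le h2) hf0
    rw [Real.exp_log h3, div_mul_cancel₀ _ hf0.ne']
    exact h1
  obtain ⟨L, g, hG, hne⟩ := exists_extract hf hr0 hs0 hb
  obtain ⟨hg, hfg, hL⟩ := hG
  have hsub : K ⊆ closedBall s0 (r / 4) := by
    refine hR.trans (closedBall_subset_closedBall ?_)
    rw [hr]
    have := le_max_left R 1
    linarith
  refine ⟨L.filter fun ρ => ρ ∈ K, fun s => PP (L.filter fun ρ => ¬ ρ ∈ K) s * g s, ?_, ?_, ?_, ?_⟩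
  · exact (PP_differentiable _).mul hg
  · intro s
    rw [hfg, PP_filter L (fun ρ => ρ ∈ K) s]
    ring
  · intro s hs
    refine mul_ne_zero (PP_ne fun ρ hρ => ?_) (hne s (hsub hs))
    rw [List.mem_filter] at hρ
    intro h
    rw [h] at hρ
    simpa [hs] using hρ.2
  · intro ρ hρ
    rw [List.mem_filter] at hρ
    simpa using hρ.2

theorem stmt_LF : Stmt_LF := by
  refine ⟨128, by norm_num, ?_⟩
  intro f h L hh hfac s0 R m hR hm hf0 hb hne
  set L1 := L.filter fun ρ => ‖ρ - s0‖ ≤ R / 4 with hL1
  set L2 := L.filter fun ρ => ¬ ‖ρ - s0‖ ≤ R / 4 with hL2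
  set g : ℂ → ℂ := fun s => PP L2 s * h s with hg
  have hgd : Differentiable ℂ g := (PP_differentiable _).mul hh
  have hfg : ∀ s, f s = PP L1 s * g s := by
    intro s
    rw [hfac, PP_filter L (fun ρ => ‖ρ - s0‖ ≤ R / 4) s, hg]
    ring
  have hgood : Good f s0 R L1 g := by
    refine ⟨hgd, hfg, fun ρ hρ => ?_⟩
    rw [hL1, List.mem_filter] at hρ
    rw [mem_closedBall, dist_eq_norm]
    simpa using hρ.2
  have hgne : ∀ s ∈ closedBall s0 (R / 4), g s ≠ 0 := by
    intro s hs
    refine mul_ne_zero (PP_ne fun ρ hρ => ?_) (hne s hs)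
    rw [hL2, List.mem_filter] at hρ
    rw [mem_closedBall, dist_eq_norm] at hs
    intro h0
    have h1 := hρ.2
    simp only [decide_not, Bool.not_eq_eq_eq_not, Bool.not_true, decide_eq_false_iff_not] at h1
    rw [h0] at h1
    exact h1 hs
  have hg0 : g s0 ≠ 0 := hgne s0 (mem_closedBall_self (by positivity))
  have hg0' : 0 < ‖g s0‖ := norm_pos_iff.2 hg0
  constructor
  · have h1 := good_bound hR hb hgood (mem_closedBall_self hR.le)
    rw [mul_comm] at h1
    have h2 := le_of_mul_le_mul_right h1 hg0'
    have h3 : (L1.length : ℝ) * Real.log 3 ≤ m := by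
      rw [← Real.log_pow, ← Real.log_exp m]
      exact Real.log_le_log (by positivity) h2
    have h4 : (1 : ℝ) ≤ Real.log 3 := by
      rw [Real.le_log_iff_exp_le (by norm_num)]
      exact Real.exp_one_lt_d9.le.trans (by norm_num)
    have h5 : (0 : ℝ) ≤ L1.length := Nat.cast_nonneg _
    nlinarith
  · refine ⟨fun s => deriv g s / g s, ?_, ?_, ?_⟩
    · intro s hs
      have h1 : DifferentiableAt ℂ (deriv g) s := by
        have := (hgd.differentiableOn (s := Set.univ)).deriv isOpen_univ
        exact this.differentiableAt Filter.univ_mem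
      exact (h1.div (hgd s) (hgne s (ball_subset_closedBall hs))).differentiableWithinAt
    · intro s hs
      rw [mem_closedBall, dist_eq_norm] at hs
      have h1 := Pool.Agent.Work.MP_b0c12c_nt_helper6.norm_logDeriv_le (g := g) (c := s0) (s := s)
        (R := R / 4) (M := m) (d := R / 8) (by positivity) hgd.differentiableOn
        (fun z hz => hgne z (ball_subset_closedBall hz)) hm ?_ (by positivity) (by linarith)
      · refine h1.trans (le_of_eq ?_)
        field_simp
        ring
      · intro z hz
        have h2 : z ∈ closedBall s0 R := by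
          rw [mem_ball, dist_eq_norm] at hz
          rw [mem_closedBall, dist_eq_norm]
          linarith
        have h3 := good_bound hR hb hgood h2
        have h4 : (1 : ℝ) ≤ 3 ^ L1.length := one_le_pow₀ (by norm_num)
        have h5 : 0 ≤ ‖g z‖ := norm_nonneg _
        nlinarith
    · intro s hs hfs
      have hPPs : PP L1 s ≠ 0 := by
        intro h0
        exact hfs (by rw [hfg, h0, zero_mul])
      have hmem : ∀ ρ ∈ L1, ρ ≠ s := by
        intro ρ hρ h0
        apply hPPs
        unfold PP
        rw [List.prod_eq_zero_iff]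
        rw [List.mem_map]
        exact ⟨ρ, hρ, by rw [h0, sub_self]⟩
      have h1 := logDeriv_PP hgd hmem (hgne s (ball_subset_closedBall hs))
      have h2 : f = fun s => PP L1 s * g s := funext hfg
      rw [h2]
      exact h1

end Pool.Agent.PS
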