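import Pool.Agent.Work.PS.Interface
import Pool.Agent.Work.PS.ZL
import Pool.Agent.Work.MP_b0c12c_nt_helper6.Gauss

/-!
# PS, block EF1: the explicit formula with Gaussian weight
-/

set_option autoImplicit false

open Complex MeasureTheory Filter Topology Finset
open ArithmeticFunction (vonMangoldt_nonneg vonMangoldt_le_log)
open scoped ArithmeticFunction.vonMangoldt

namespace Pool.Agent.PS.EFx

open Pool.Agent.Work.MP_b0c12c_nt_helper70
open Pool.Agent.Work.MP_b0c12c_nt_helper6 (ln ln_re ln_im integrable_gauss gauss_formula norm_gauss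
  integrable_E integral_E integrable_shift integral_shift ff norm_ff gaussSum_eq norm_ff_le
  tail_bound)
open Pool.Agent.Work.MP_b0c12c_nt.Itf2 (gaussSum')
open scoped Classical

/-- the Gaussian kernel -/
noncomputable def EE (τ v : ℝ) (s : ℂ) : ℂ := cexp ((τ : ℂ) ^ 2 * s ^ 2 / 2 + s * (v : ℂ))

theorem norm_EE (τ c v t : ℝ) :
    ‖EE τ v (ln c t)‖ = Real.exp (τ ^ 2 * (c ^ 2 - t ^ 2) / 2 + c * v) := by
  unfold EE
  exact norm_gauss τ c v t

theorem integrable_EE {τ : ℝ} (hτ : 0 < τ) (c v : ℝ) :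
    Integrable (fun t : ℝ => EE τ v (ln c t)) := integrable_gauss hτ c v

theorem EE_differentiable (τ v : ℝ) : Differentiable ℂ (EE τ v) := by
  unfold EE
  fun_prop

/-! ### One pole -/

/-- the Gaussian density -/
noncomputable def den (τ v u : ℝ) : ℝ :=
  (τ * Real.sqrt (2 * Real.pi))⁻¹ * Real.exp (-(v - u) ^ 2 / (2 * τ ^ 2))

theorem den_nonneg {τ : ℝ} (hτ : 0 < τ) (v u : ℝ) : 0 ≤ den τ v u := by
  unfold den; positivity

theorem den_eq {τ : ℝ} (hτ : 0 < τ) (ρ : ℂ) (v u : ℝ) :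
    cexp (ρ * u) * (den τ v u : ℂ) = ((τ * Real.sqrt (2 * Real.pi) : ℝ) : ℂ)⁻¹ *
      cexp (-((1 / (2 * τ ^ 2) : ℝ) : ℂ) * (u : ℂ) ^ 2 + (ρ + ((v / τ ^ 2 : ℝ) : ℂ)) * u +
        ((-(v ^ 2) / (2 * τ ^ 2) : ℝ) : ℂ)) := by
  have hτ' : (τ : ℂ) ≠ 0 := by exact_mod_cast hτ.ne'
  unfold den
  rw [ofReal_mul, mul_left_comm, ofReal_inv, ofReal_exp, ← Complex.exp_add]
  congr 2
  push_cast
  field_simp
  ring

theorem integrable_den {τ : ℝ} (hτ : 0 < τ) (ρ : ℂ) (v : ℝ) :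
    Integrable (fun u : ℝ => cexp (ρ * u) * (den τ v u : ℂ)) := by
  simp_rw [den_eq hτ]
  apply Integrable.const_mul
  refine integrable_cexp_quadratic (b := ((1 / (2 * τ ^ 2) : ℝ) : ℂ)) ?_ _ _
  rw [ofReal_re]
  positivity

theorem integral_den {τ : ℝ} (hτ : 0 < τ) (ρ : ℂ) (v : ℝ) :
    ∫ u : ℝ, cexp (ρ * u) * (den τ v u : ℂ) = EE τ v ρ := by
  have hτ' : (τ : ℂ) ≠ 0 := by exact_mod_cast hτ.ne'
  simp_rw [den_eq hτ]
  rw [integral_const_mul]
  have hb : (-((1 / (2 * τ ^ 2) : ℝ) : ℂ)).re < 0 := by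
    rw [neg_re, ofReal_re]
    have : 0 < 1 / (2 * τ ^ 2) := by positivity
    linarith
  rw [integral_cexp_quadratic hb]
  have h1 : (Real.pi : ℂ) / -(-((1 / (2 * τ ^ 2) : ℝ) : ℂ)) =
      (((τ * Real.sqrt (2 * Real.pi)) ^ 2 : ℝ) : ℂ) := by
    rw [mul_pow, Real.sq_sqrt (by positivity)]
    push_cast
    field_simp
  have h2 : ((((τ * Real.sqrt (2 * Real.pi)) ^ 2 : ℝ) : ℂ)) ^ (1 / 2 : ℂ) =
      ((τ * Real.sqrt (2 * Real.pi) : ℝ) : ℂ) := by
    rw [show (1 / 2 : ℂ) = ((1 / 2 : ℝ) : ℂ) by norm_num, ← ofReal_cpow (by positivity),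
      ← Real.sqrt_eq_rpow, Real.sqrt_sq (by positivity)]
  rw [h1, h2, ← mul_assoc, inv_mul_cancel₀, one_mul]
  · unfold EE
    congr 1
    push_cast
    field_simp
    ring
  · have : (0 : ℝ) < τ * Real.sqrt (2 * Real.pi) := by positivity
    exact_mod_cast this.ne'

theorem integral_den_one {τ : ℝ} (hτ : 0 < τ) (v : ℝ) : ∫ u : ℝ, den τ v u = 1 := by
  have h := integral_den hτ 0 v
  unfold EE at h
  simp only [zero_mul, Complex.exp_zero, one_mul, ne_eq, OfNat.ofNat_ne_zero, not_false_eq_true,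
    zero_pow, mul_zero, zero_div, add_zero] at h
  rw [integral_complex_ofReal] at h
  exact_mod_cast h

theorem integrable_den_real {τ : ℝ} (hτ : 0 < τ) (v : ℝ) : Integrable (den τ v) := by
  have h := (integrable_den hτ 0 v).re
  refine h.congr (Eventually.of_forall fun u => ?_)
  simp

/-- the integral against one pole -/
theorem pole_integral {τ : ℝ} (hτ : 0 < τ) {c v : ℝ} {ρ : ℂ} (hρ : ρ.re < c) :
    ((2 * Real.pi : ℝ) : ℂ)⁻¹ * ∫ t : ℝ, EE τ v (ln c t) / (ln c t - ρ) =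
      ∫ u in Set.Ioi (0 : ℝ), cexp (ρ * u) * (den τ v u : ℂ) := by
  have hlap : ∀ t : ℝ, EE τ v (ln c t) / (ln c t - ρ) =
      ∫ u in Set.Ioi (0 : ℝ), EE τ v (ln c t) * cexp ((ρ - ln c t) * u) := by
    intro t
    have hre : (ρ - ln c t).re < 0 := by
      rw [sub_re, ln_re]; linarith
    rw [integral_const_mul, integral_exp_mul_complex_Ioi hre 0]
    have hne : ln c t - ρ ≠ 0 := by
      intro h
      rw [sub_eq_zero] at h
      rw [← h, ln_re] at hρ
      exact lt_irrefl _ hρ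
    have hne' : ρ - ln c t ≠ 0 := by
      intro h
      apply hne
      rw [← neg_sub, h, neg_zero]
    simp only [ofReal_zero, mul_zero, Complex.exp_zero]
    field_simp
    ring
  simp_rw [hlap]
  have hF : Integrable (Function.uncurry fun (t u : ℝ) =>
      EE τ v (ln c t) * cexp ((ρ - ln c t) * u))
      ((volume : Measure ℝ).prod (volume.restrict (Set.Ioi (0 : ℝ)))) := by
    have h1 : Integrable (fun u : ℝ => Real.exp ((ρ.re - c) * u))
        (volume.restrict (Set.Ioi (0 : ℝ))) := by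
      have := integrableOn_exp_mul_Ioi (a := ρ.re - c) (by linarith) 0
      exact this
    have h2 := (integrable_E hτ c v).mul_prod h1
    refine h2.mono' ?_ (Eventually.of_forall fun z => ?_)
    · apply Continuous.aestronglyMeasurable
      unfold EE Function.uncurry ln
      fun_prop
    · simp only [Function.uncurry]
      rw [norm_mul, norm_EE, Complex.norm_exp]
      apply le_of_eq
      congr 2
      rw [mul_comm, re_ofReal_mul, sub_re, ln_re]
      ring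
  rw [integral_integral_swap hF, ← integral_const_mul]
  apply integral_congr_ae
  refine Eventually.of_forall fun u => ?_
  simp only
  have h3 : ∀ t : ℝ, EE τ v (ln c t) * cexp ((ρ - ln c t) * u) =
      cexp (ρ * u) * cexp ((τ : ℂ) ^ 2 * (ln c t) ^ 2 / 2 + (ln c t) * ((v - u : ℝ) : ℂ)) := by
    intro t
    unfold EE
    rw [← Complex.exp_add, ← Complex.exp_add]
    congr 1
    push_cast
    ring
  simp_rw [h3]
  rw [integral_const_mul, gauss_formula hτ, mul_left_comm]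
  congr 1
  unfold den
  rw [← ofReal_inv, ← ofReal_mul]
  congr 1
  rw [← mul_assoc]
  congr 1
  have h5 : Real.sqrt (2 * Real.pi) * Real.sqrt (2 * Real.pi) = 2 * Real.pi :=
    Real.mul_self_sqrt (by positivity)
  have h6 : 0 < Real.sqrt (2 * Real.pi) := by positivity
  rw [inv_mul_eq_div, div_eq_iff (by positivity), mul_inv]
  field_simp
  linarith

/-- The integral against one pole is the residue up to an error at most `1`. -/
theorem pole_bound {τ : ℝ} (hτ : 0 < τ) {c v : ℝ} {ρ : ℂ} (hρ0 : 0 ≤ ρ.re) (hρ : ρ.re < c) :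
    ‖((2 * Real.pi : ℝ) : ℂ)⁻¹ * (∫ t : ℝ, EE τ v (ln c t) / (ln c t - ρ)) - EE τ v ρ‖ ≤ 1 := by
  rw [pole_integral hτ hρ, ← integral_den hτ ρ v]
  have hi := integrable_den hτ ρ v
  rw [← integral_add_compl (measurableSet_Ioi (a := (0 : ℝ))) hi, sub_add_cancel_left, norm_neg]
  calc ‖∫ u in (Set.Ioi (0 : ℝ))ᶜ, cexp (ρ * u) * (den τ v u : ℂ)‖
      ≤ ∫ u in (Set.Ioi (0 : ℝ))ᶜ, den τ v u := by
        refine norm_integral_le_of_norm_le (integrable_den_real hτ v).integrableOn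
          ((ae_restrict_iff' measurableSet_Ioi.compl).mpr (Eventually.of_forall fun u hu => ?_))
        rw [norm_mul, norm_real, Real.norm_of_nonneg (den_nonneg hτ v u)]
        refine mul_le_of_le_one_left (den_nonneg hτ v u) ?_
        rw [Complex.norm_exp, Real.exp_le_one_iff, mul_comm, re_ofReal_mul]
        rw [Set.mem_compl_iff, Set.mem_Ioi, not_lt] at hu
        exact mul_nonpos_of_nonpos_of_nonneg hu hρ0
    _ ≤ ∫ u, den τ v u := setIntegral_le_integral (integrable_den_real hτ v)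
        (Eventually.of_forall fun u => den_nonneg hτ v u)
    _ = 1 := integral_den_one hτ v

/-! ### The contour shift of the zero free part -/

theorem exp_tail_le {τ : ℝ} (hτ : 0 < τ) {c v T t : ℝ} (hT : 0 ≤ T)
    (ht : t ∈ (Set.Ioc (-T) T)ᶜ) :
    Real.exp (τ ^ 2 * (c ^ 2 - t ^ 2) / 2 + c * v) ≤
      Real.exp (τ ^ 2 * (c ^ 2 - T ^ 2) / 2 + c * v) *
        (Real.exp (-(τ ^ 2 * (t - T) ^ 2 / 2)) + Real.exp (-(τ ^ 2 * (t - -T) ^ 2 / 2))) := by
  set A : ℝ := Real.exp (τ ^ 2 * (c ^ 2 - T ^ 2) / 2 + c * v) with hA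
  rw [Set.mem_compl_iff, Set.mem_Ioc, not_and_or, not_lt, not_le] at ht
  have hτ2 : 0 < τ ^ 2 := by positivity
  rcases ht with ht | ht
  · have h1 : Real.exp (τ ^ 2 * (c ^ 2 - t ^ 2) / 2 + c * v) ≤
        A * Real.exp (-(τ ^ 2 * (t - -T) ^ 2 / 2)) := by
      rw [hA, ← Real.exp_add]
      apply Real.exp_le_exp.mpr
      have : T ^ 2 + (t - -T) ^ 2 ≤ t ^ 2 := by nlinarith
      nlinarith
    refine h1.trans ?_
    apply mul_le_mul_of_nonneg_left _ (Real.exp_pos _).le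
    linarith [Real.exp_pos (-(τ ^ 2 * (t - T) ^ 2 / 2))]
  · have h1 : Real.exp (τ ^ 2 * (c ^ 2 - t ^ 2) / 2 + c * v) ≤
        A * Real.exp (-(τ ^ 2 * (t - T) ^ 2 / 2)) := by
      rw [hA, ← Real.exp_add]
      apply Real.exp_le_exp.mpr
      have : T ^ 2 + (t - T) ^ 2 ≤ t ^ 2 := by nlinarith
      nlinarith
    refine h1.trans ?_
    apply mul_le_mul_of_nonneg_left _ (Real.exp_pos _).le
    linarith [Real.exp_pos (-(τ ^ 2 * (t - -T) ^ 2 / 2))]

/-- tails on a vertical line -/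
theorem tail_gen {τ : ℝ} (hτ : 0 < τ) {c v T B : ℝ} (hT : 0 ≤ T) (hB : 0 ≤ B) {F : ℝ → ℂ}
    (hF : ∀ t : ℝ, ‖F t‖ ≤ B * Real.exp (τ ^ 2 * (c ^ 2 - t ^ 2) / 2 + c * v)) :
    ‖∫ t in (Set.Ioc (-T) T)ᶜ, F t‖ ≤
      B * (Real.exp (τ ^ 2 * (c ^ 2 - T ^ 2) / 2 + c * v) *
        (2 * (Real.sqrt (2 * Real.pi) / τ))) := by
  set A : ℝ := Real.exp (τ ^ 2 * (c ^ 2 - T ^ 2) / 2 + c * v) with hA
  set g : ℝ → ℝ := fun t => B * (A * (Real.exp (-(τ ^ 2 * (t - T) ^ 2 / 2)) +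
    Real.exp (-(τ ^ 2 * (t - -T) ^ 2 / 2)))) with hg
  have hgi : Integrable g :=
    ((((integrable_shift hτ T).add (integrable_shift hτ (-T))).const_mul A).const_mul _)
  have hgint : ∫ t, g t = B * (A * (2 * (Real.sqrt (2 * Real.pi) / τ))) := by
    rw [hg, integral_const_mul, integral_const_mul,
      integral_add (integrable_shift hτ T) (integrable_shift hτ (-T)), integral_shift hτ,
      integral_shift hτ]
    ring
  have hpt : ∀ t ∈ (Set.Ioc (-T) T)ᶜ, ‖F t‖ ≤ g t := fun t ht =>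
    (hF t).trans (mul_le_mul_of_nonneg_left (exp_tail_le hτ hT ht) hB)
  calc ‖∫ t in (Set.Ioc (-T) T)ᶜ, F t‖
      ≤ ∫ t in (Set.Ioc (-T) T)ᶜ, g t :=
        norm_integral_le_of_norm_le hgi.integrableOn
          ((ae_restrict_iff' measurableSet_Ioc.compl).mpr (Eventually.of_forall hpt))
    _ ≤ ∫ t, g t := setIntegral_le_integral hgi (Eventually.of_forall fun t => by
        simp only [hg, Pi.zero_apply]; positivity)
    _ = _ := hgint

/-- the rectangle -/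
theorem rect_gen {h : ℂ → ℂ} {τ : ℝ} (hτ : 0 < τ) {v : ℝ} (hv : 0 ≤ v) {T σ c D : ℝ}
    (hT : 0 ≤ T) (hσ : 0 ≤ σ) (hσc : σ ≤ c) (hc : c ≤ σ + 1)
    (hdiff : ∀ s : ℂ, σ ≤ s.re → s.re ≤ c → |s.im| ≤ T → DifferentiableAt ℂ h s)
    (hD : ∀ s : ℂ, σ ≤ s.re → s.re ≤ c → |s.im| ≤ T → ‖h s‖ ≤ D) :
    ‖∫ t in (-T)..T, h (ln c t) * EE τ v (ln c t)‖ ≤
      D * (Real.exp (τ ^ 2 * σ ^ 2 / 2 + σ * v) * (Real.sqrt (2 * Real.pi) / τ)) +
      2 * (D * Real.exp (τ ^ 2 * (c ^ 2 - T ^ 2) / 2 + c * v)) := by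
  have hD0 : 0 ≤ D := (norm_nonneg _).trans (hD (ln σ 0) (by simp) (by simpa using hσc)
    (by simpa using hT))
  set f : ℂ → ℂ := fun s => h s * EE τ v s with hf
  have hnf : ∀ x y : ℝ, σ ≤ x → x ≤ c → |y| ≤ T →
      ‖f (ln x y)‖ ≤ D * Real.exp (τ ^ 2 * (x ^ 2 - y ^ 2) / 2 + x * v) := by
    intro x y h1 h2 h3
    rw [hf]
    simp only
    rw [norm_mul, norm_EE]
    apply mul_le_mul_of_nonneg_right _ (Real.exp_pos _).le
    apply hD <;> simpa
  have hfd : DifferentiableOn ℂ f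
      (Set.uIcc (ln σ (-T)).re (ln c T).re ×ℂ Set.uIcc (ln σ (-T)).im (ln c T).im) := by
    intro s hs
    rw [ln_re, ln_re, ln_im, ln_im, Set.uIcc_of_le hσc, Set.uIcc_of_le (by linarith)] at hs
    obtain ⟨h1, h2⟩ := hs
    exact ((hdiff s h1.1 h1.2 (abs_le.mpr ⟨h2.1, h2.2⟩)).mul
      (EE_differentiable τ v s)).differentiableWithinAt
  have hrect := integral_boundary_rect_eq_zero_of_differentiableOn f (ln σ (-T)) (ln c T) hfd
  simp only [ln_re, ln_im] at hrect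
  have e1 : ∀ x y : ℝ, (x : ℂ) + (y : ℂ) * I = ln x y := fun _ _ => rfl
  simp only [e1] at hrect
  have hkey : I • (∫ t in (-T)..T, f (ln c t)) = I • (∫ t in (-T)..T, f (ln σ t)) +
      ((∫ x in σ..c, f (ln x T)) - (∫ x in σ..c, f (ln x (-T)))) := by
    linear_combination hrect
  have hn : ‖∫ t in (-T)..T, f (ln c t)‖ ≤ ‖∫ t in (-T)..T, f (ln σ t)‖ +
      (‖∫ x in σ..c, f (ln x T)‖ + ‖∫ x in σ..c, f (ln x (-T))‖) := by
    have h1 := congrArg norm hkey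
    rw [norm_smul, norm_I, one_mul] at h1
    rw [h1]
    refine (norm_add_le _ _).trans ?_
    rw [norm_smul, norm_I, one_mul]
    gcongr
    exact norm_sub_le _ _
  have hv' : ‖∫ t in (-T)..T, f (ln σ t)‖ ≤
      D * (Real.exp (τ ^ 2 * σ ^ 2 / 2 + σ * v) * (Real.sqrt (2 * Real.pi) / τ)) := by
    have hint := (integrable_E hτ σ v).const_mul D
    have h1 := intervalIntegral.norm_integral_le_of_norm_le (μ := volume)
      (f := fun t : ℝ => f (ln σ t)) (a := -T) (b := T)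
      (g := fun t => D * Real.exp (τ ^ 2 * (σ ^ 2 - t ^ 2) / 2 + σ * v))
      (by linarith) (Eventually.of_forall fun t ht =>
        hnf σ t le_rfl hσc (abs_le.mpr ⟨ht.1.le, ht.2⟩)) hint.intervalIntegrable
    refine h1.trans ?_
    rw [intervalIntegral.integral_of_le (by linarith), ← integral_E hτ, ← integral_const_mul]
    exact setIntegral_le_integral hint (Eventually.of_forall fun t => by
      simp only [Pi.zero_apply]; positivity)
  have hh : ∀ y : ℝ, |y| = T → ‖∫ x in σ..c, f (ln x y)‖ ≤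
      D * Real.exp (τ ^ 2 * (c ^ 2 - T ^ 2) / 2 + c * v) := by
    intro y hy
    have hy2 : y ^ 2 = T ^ 2 := by rw [← hy, sq_abs]
    have h1 := intervalIntegral.norm_integral_le_of_norm_le_const
      (f := fun x : ℝ => f (ln x y)) (a := σ) (b := c)
      (C := D * Real.exp (τ ^ 2 * (c ^ 2 - T ^ 2) / 2 + c * v))
      (fun x hx => by
        rw [Set.uIoc_of_le hσc] at hx
        refine (hnf x y hx.1.le hx.2 hy.le).trans ?_
        apply mul_le_mul_of_nonneg_left _ hD0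
        apply Real.exp_le_exp.mpr
        rw [hy2]
        have hx0 : 0 ≤ x := by linarith [hx.1]
        have hx2 : x ^ 2 ≤ c ^ 2 := pow_le_pow_left₀ hx0 hx.2 2
        have hτ2 : 0 < τ ^ 2 := by positivity
        have h3 : x * v ≤ c * v := mul_le_mul_of_nonneg_right hx.2 hv
        nlinarith)
    refine h1.trans ?_
    rw [abs_of_nonneg (by linarith)]
    have h4 : 0 ≤ D * Real.exp (τ ^ 2 * (c ^ 2 - T ^ 2) / 2 + c * v) := by positivity
    nlinarith
  have h5 := hh T (abs_of_nonneg hT)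
  have h6 := hh (-T) (by rw [abs_neg, abs_of_nonneg hT])
  linarith

/-! ### The sum over the zeros -/

/-- `∑ 1 / (s - ρ)` -/
noncomputable def SP (L : List ℂ) (s : ℂ) : ℂ := (L.map fun ρ => 1 / (s - ρ)).sum

theorem ln_sub_ne {c t : ℝ} {ρ : ℂ} (h : ρ.re < c) : ln c t - ρ ≠ 0 := by
  intro h0
  rw [sub_eq_zero] at h0
  rw [← h0, ln_re] at h
  exact lt_irrefl _ h

theorem norm_inv_ln_le {c t a : ℝ} {ρ : ℂ} (ha : 0 < a) (h : ρ.re + a ≤ c) :
    ‖1 / (ln c t - ρ)‖ ≤ 1 / a := by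
  rw [norm_div, norm_one]
  apply one_div_le_one_div_of_le ha
  refine le_trans ?_ (abs_re_le_norm _)
  rw [sub_re, ln_re]
  exact le_trans (by linarith) (le_abs_self _)

theorem continuous_ln (c : ℝ) : Continuous (fun t : ℝ => ln c t) := by unfold ln; fun_prop

theorem continuous_one_pole {c : ℝ} {ρ : ℂ} (h : ρ.re < c) :
    Continuous (fun t : ℝ => 1 / (ln c t - ρ)) :=
  continuous_const.div ((continuous_ln c).sub continuous_const) fun _ => ln_sub_ne h

theorem SP_cons (ρ : ℂ) (L : List ℂ) (s : ℂ) : SP (ρ :: L) s = 1 / (s - ρ) + SP L s := by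
  simp [SP]

theorem norm_SP_le {c a : ℝ} {L : List ℂ} (ha : 0 < a) (h : ∀ ρ ∈ L, ρ.re + a ≤ c) (t : ℝ) :
    ‖SP L (ln c t)‖ ≤ L.length * (1 / a) := by
  induction L with
  | nil => simp [SP]
  | cons ρ L ih =>
    rw [SP_cons, List.length_cons]
    push_cast
    have h1 := norm_inv_ln_le (t := t) ha (h ρ List.mem_cons_self)
    have h2 := ih fun ρ' h' => h ρ' (List.mem_cons_of_mem _ h')
    refine (norm_add_le _ _).trans ?_
    linarith

theorem continuous_SP {c : ℝ} {L : List ℂ} (h : ∀ ρ ∈ L, ρ.re < c) :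
    Continuous (fun t : ℝ => SP L (ln c t)) := by
  induction L with
  | nil => simp only [SP, List.map_nil, List.sum_nil]; exact continuous_const
  | cons ρ L ih =>
    simp_rw [SP_cons]
    exact (continuous_one_pole (h ρ List.mem_cons_self)).add
      (ih fun ρ' h' => h ρ' (List.mem_cons_of_mem _ h'))

theorem integrable_mul_EE {τ : ℝ} (hτ : 0 < τ) {c v B : ℝ} {F : ℝ → ℂ} (hF : Continuous F)
    (hB : ∀ t, ‖F t‖ ≤ B) : Integrable (fun t : ℝ => F t * EE τ v (ln c t)) := by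
  refine Integrable.mono' ((integrable_E hτ c v).const_mul B) ?_ (Eventually.of_forall fun t => ?_)
  · exact (hF.mul ((EE_differentiable τ v).continuous.comp (continuous_ln c))).aestronglyMeasurable
  · rw [norm_mul, norm_EE]
    exact mul_le_mul_of_nonneg_right (hB t) (Real.exp_pos _).le

theorem list_poles {τ : ℝ} (hτ : 0 < τ) {c v a : ℝ} (ha : 0 < a) {L : List ℂ}
    (h0 : ∀ ρ ∈ L, 0 ≤ ρ.re) (h : ∀ ρ ∈ L, ρ.re + a ≤ c) :
    ‖((2 * Real.pi : ℝ) : ℂ)⁻¹ * (∫ t : ℝ, SP L (ln c t) * EE τ v (ln c t)) -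
      (L.map (EE τ v)).sum‖ ≤ L.length := by
  induction L with
  | nil => simp [SP]
  | cons ρ L ih =>
    have h0' : ∀ ρ ∈ L, 0 ≤ ρ.re := fun ρ' h' => h0 ρ' (List.mem_cons_of_mem _ h')
    have h' : ∀ ρ ∈ L, ρ.re + a ≤ c := fun ρ' h'' => h ρ' (List.mem_cons_of_mem _ h'')
    have hρ := h ρ List.mem_cons_self
    have e : ∀ t : ℝ, SP (ρ :: L) (ln c t) * EE τ v (ln c t) =
        1 / (ln c t - ρ) * EE τ v (ln c t) + SP L (ln c t) * EE τ v (ln c t) := by
      intro t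
      rw [SP_cons, add_mul]
    simp_rw [e]
    rw [integral_add
      (integrable_mul_EE hτ (continuous_one_pole (by linarith)) fun t => norm_inv_ln_le ha hρ)
      (integrable_mul_EE hτ (continuous_SP fun ρ' hr => by linarith [h' ρ' hr])
        fun t => norm_SP_le ha h' t)]
    rw [List.map_cons, List.sum_cons, List.length_cons]
    have h1 := pole_bound hτ (v := v) (h0 ρ List.mem_cons_self) (show ρ.re < c by linarith)
    have e2 : ∀ t : ℝ, 1 / (ln c t - ρ) * EE τ v (ln c t) = EE τ v (ln c t) / (ln c t - ρ) := by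
      intro t
      rw [one_div, mul_comm, div_eq_mul_inv]
    simp_rw [e2]
    have h2 := ih h0' h'
    push_cast
    set A := ∫ t : ℝ, EE τ v (ln c t) / (ln c t - ρ)
    set B := ∫ t : ℝ, SP L (ln c t) * EE τ v (ln c t)
    have e3 : ((2 * Real.pi : ℝ) : ℂ)⁻¹ * (A + B) - (EE τ v ρ + (L.map (EE τ v)).sum) =
        (((2 * Real.pi : ℝ) : ℂ)⁻¹ * A - EE τ v ρ) +
          (((2 * Real.pi : ℝ) : ℂ)⁻¹ * B - (L.map (EE τ v)).sum) := by ring
    push_cast at e3 h1 h2 ⊢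
    rw [e3]
    refine (norm_add_le _ _).trans ?_
    linarith

/-! ### The logarithmic derivative -/

theorem logDeriv_Le {q : ℕ} [NeZero q] (χ : DirichletCharacter ℂ q) {s : ℂ} (hs : 1 < s.re) :
    -deriv χ.LFunction s / χ.LFunction s =
      (if χ = 1 then 1 / (s - 1) else 0) - deriv (Le χ) s / Le χ s := by
  by_cases h : χ = 1
  · subst h
    rw [if_pos rfl, Le_one]
    have hs1 : s ≠ 1 := by
      intro h
      rw [h] at hs
      simp at hs
    have hL : (1 : DirichletCharacter ℂ q).LFunction s ≠ 0 :=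
      DirichletCharacter.LFunction_ne_zero_of_one_le_re _ (Or.inr hs1) hs.le
    rw [DirichletCharacter.deriv_LFunctionTrivChar₁_apply_of_ne_one _ hs1]
    have e : DirichletCharacter.LFunctionTrivChar₁ q s =
        (s - 1) * (1 : DirichletCharacter ℂ q).LFunction s := by
      unfold DirichletCharacter.LFunctionTrivChar₁
      rw [Function.update_of_ne hs1]
    rw [e]
    have e1 : DirichletCharacter.LFunctionTrivChar q = (1 : DirichletCharacter ℂ q).LFunction := rfl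
    rw [e1]
    have hs2 : s - 1 ≠ 0 := sub_ne_zero.mpr hs1
    field_simp
    ring
  · rw [if_neg h, Le_of_ne h, zero_sub, neg_div]

theorem Le_ne_zero {q : ℕ} [NeZero q] (χ : DirichletCharacter ℂ q) {s : ℂ} (hs : 1 < s.re) :
    Le χ s ≠ 0 := by
  have hs1 : s ≠ 1 := by
    intro h
    rw [h] at hs
    simp at hs
  have hL : χ.LFunction s ≠ 0 :=
    DirichletCharacter.LFunction_ne_zero_of_one_le_re _ (Or.inr hs1) hs.le
  by_cases h : χ = 1
  · subst h
    rw [Le_one]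
    unfold DirichletCharacter.LFunctionTrivChar₁
    rw [Function.update_of_ne hs1]
    exact mul_ne_zero (sub_ne_zero.mpr hs1) hL
  · rwa [Le_of_ne h]

/-- The explicit formula, general form. -/
theorem explicit_gen {q : ℕ} [NeZero q] (χ : DirichletCharacter ℂ q) {τ : ℝ} (hτ : 0 < τ)
    {Y : ℝ} (hY : 1 ≤ Y) {L : List ℂ} {g : ℂ → ℂ} (hg : Differentiable ℂ g)
    (hfac : ∀ s, Le χ s = PP L s * g s) (h0 : ∀ ρ ∈ L, 0 ≤ ρ.re) (h1 : ∀ ρ ∈ L, ρ.re < 1)
    {T D : ℝ} (hT : 0 ≤ T)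
    (hgne : ∀ s : ℂ, 19 / 20 ≤ s.re → s.re ≤ 3 / 2 → |s.im| ≤ T → g s ≠ 0)
    (hgD : ∀ s : ℂ, 19 / 20 ≤ s.re → s.re ≤ 3 / 2 → |s.im| ≤ T → ‖deriv g s / g s‖ ≤ D) :
    ‖(((τ * Real.sqrt (2 * Real.pi))⁻¹ : ℝ) : ℂ) * gaussSum' χ τ Y
        - (if χ = 1 then EE τ (Real.log Y) 1 else 0) + (L.map (EE τ (Real.log Y))).sum‖ ≤
      1 + L.length + (2 * Real.pi)⁻¹ * (
        D * (Real.exp (τ ^ 2 * (19 / 20) ^ 2 / 2 + (19 / 20) * Real.log Y) *
          (Real.sqrt (2 * Real.pi) / τ)) +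
        2 * (D * Real.exp (τ ^ 2 * ((5 / 4) ^ 2 - T ^ 2) / 2 + (5 / 4) * Real.log Y)) +
        (4 * (1 + L.length) + 96) *
          (Real.exp (τ ^ 2 * ((5 / 4) ^ 2 - T ^ 2) / 2 + (5 / 4) * Real.log Y) *
            (2 * (Real.sqrt (2 * Real.pi) / τ)))) := by
  set v := Real.log Y with hv
  have hv0 : 0 ≤ v := Real.log_nonneg hY
  have hY0 : 0 < Y := by linarith
  set c : ℝ := 5 / 4 with hc
  set ex : ℂ := if χ = 1 then 1 else 0 with hex
  have hexn : ‖ex‖ ≤ 1 := by rw [hex]; split_ifs <;> simp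
  -- the line
  have hgl : ∀ t : ℝ, g (ln c t) ≠ 0 := by
    intro t h
    have h2 := Le_ne_zero χ (s := ln c t) (by rw [ln_re, hc]; norm_num)
    rw [hfac, h, mul_zero] at h2
    exact h2 rfl
  have hLne : ∀ (t : ℝ), ∀ ρ ∈ L, ρ ≠ ln c t := by
    intro t ρ hρ h
    have h2 := h1 ρ hρ
    rw [h, ln_re, hc] at h2
    norm_num at h2
  have hfe : Le χ = fun s => PP L s * g s := funext hfac
  have hid : ∀ t : ℝ, ff χ τ Y (ln c t) =
      (ex * (1 / (ln c t - 1)) - SP L (ln c t)) * EE τ v (ln c t) -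
        deriv g (ln c t) / g (ln c t) * EE τ v (ln c t) := by
    intro t
    unfold ff
    rw [logDeriv_Le χ (by rw [ln_re, hc]; norm_num), hfe, logDeriv_PP hg (hLne t) (hgl t)]
    have e : (if χ = 1 then 1 / (ln c t - 1) else 0) = ex * (1 / (ln c t - 1)) := by
      rw [hex]; split_ifs <;> simp
    rw [e]
    unfold EE SP
    ring
  have hcont1 : Continuous (fun t : ℝ => ex * (1 / (ln c t - 1)) - SP L (ln c t)) := by
    refine (continuous_const.mul (continuous_one_pole ?_)).sub (continuous_SP ?_)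
    · rw [one_re, hc]; norm_num
    · intro ρ hρ
      have := h1 ρ hρ
      rw [hc]; linarith
  have hB1 : ∀ t : ℝ, ‖ex * (1 / (ln c t - 1)) - SP L (ln c t)‖ ≤ 4 * (1 + L.length) := by
    intro t
    have h2 := norm_inv_ln_le (c := c) (t := t) (a := 1 / 4) (ρ := 1) (by norm_num)
      (by rw [one_re, hc]; norm_num)
    have h3 := norm_SP_le (c := c) (a := 1 / 4) (L := L) (by norm_num)
      (fun ρ hρ => by have := h1 ρ hρ; rw [hc]; linarith) t
    refine (norm_sub_le _ _).trans ?_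
    rw [norm_mul]
    have h4 : ‖ex‖ * ‖1 / (ln c t - 1)‖ ≤ 1 * (1 / (1 / 4)) :=
      mul_le_mul hexn h2 (norm_nonneg _) (by norm_num)
    linarith
  have hI1 := integrable_mul_EE (c := c) (v := v) hτ hcont1 hB1
  have hnff : ∀ t : ℝ, ‖ff χ τ Y (ln c t)‖ ≤
      96 * Real.exp (τ ^ 2 * (c ^ 2 - t ^ 2) / 2 + c * v) := by
    intro t
    have h2 := norm_ff_le χ (τ := τ) (Y := Y) (a := 1 / 4) hτ (by norm_num) (by norm_num) t
    have e : (1 : ℝ) + 1 / 4 = c := by rw [hc]; norm_num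
    rw [e, ← hv] at h2
    refine h2.trans (le_of_eq ?_)
    norm_num
  set F : ℝ → ℂ := fun t => deriv g (ln c t) / g (ln c t) * EE τ v (ln c t) with hF
  have hFn : ∀ t : ℝ, ‖F t‖ ≤
      (4 * (1 + L.length) + 96) * Real.exp (τ ^ 2 * (c ^ 2 - t ^ 2) / 2 + c * v) := by
    intro t
    have e : F t = (ex * (1 / (ln c t - 1)) - SP L (ln c t)) * EE τ v (ln c t) -
        ff χ τ Y (ln c t) := by
      rw [hid t, hF]; ring
    rw [e, add_mul]
    refine (norm_sub_le _ _).trans (add_le_add ?_ (hnff t))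
    rw [norm_mul, norm_EE]
    exact mul_le_mul_of_nonneg_right (hB1 t) (Real.exp_pos _).le
  have hdg : Differentiable ℂ (deriv g) := by
    rw [← differentiableOn_univ]
    exact hg.differentiableOn.deriv isOpen_univ
  have hFc : Continuous F := by
    refine (Continuous.div ?_ ?_ hgl).mul ?_
    · exact hdg.continuous.comp (continuous_ln c)
    · exact hg.continuous.comp (continuous_ln c)
    · exact (EE_differentiable τ v).continuous.comp (continuous_ln c)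
  have hFi : Integrable F := Integrable.mono'
    ((integrable_E hτ c v).const_mul (4 * (1 + L.length) + 96)) hFc.aestronglyMeasurable
    (Eventually.of_forall hFn)
  -- split
  have hsplit : ∫ t : ℝ, ff χ τ Y (ln c t) =
      (∫ t : ℝ, (ex * (1 / (ln c t - 1)) - SP L (ln c t)) * EE τ v (ln c t)) -
        ((∫ t in (-T)..T, F t) + ∫ t in (Set.Ioc (-T) T)ᶜ, F t) := by
    rw [intervalIntegral.integral_of_le (by linarith), integral_add_compl measurableSet_Ioc hFi,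
      ← integral_sub hI1 hFi]
    apply integral_congr_ae
    exact Eventually.of_forall fun t => hid t
  have hmain : ‖((2 * Real.pi : ℝ) : ℂ)⁻¹ *
      (∫ t : ℝ, (ex * (1 / (ln c t - 1)) - SP L (ln c t)) * EE τ v (ln c t)) -
      (ex * EE τ v 1 - (L.map (EE τ v)).sum)‖ ≤ 1 + L.length := by
    have hi1 : Integrable (fun t : ℝ => 1 / (ln c t - 1) * EE τ v (ln c t)) :=
      integrable_mul_EE hτ (continuous_one_pole (by rw [one_re, hc]; norm_num))
        fun t => norm_inv_ln_le (a := 1 / 4) (by norm_num) (by rw [one_re, hc]; norm_num)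
    have hi2 : Integrable (fun t : ℝ => SP L (ln c t) * EE τ v (ln c t)) :=
      integrable_mul_EE hτ (continuous_SP fun ρ hρ => by have := h1 ρ hρ; rw [hc]; linarith)
        fun t => norm_SP_le (a := 1 / 4) (by norm_num)
          (fun ρ hρ => by have := h1 ρ hρ; rw [hc]; linarith) t
    have e : ∀ t : ℝ, (ex * (1 / (ln c t - 1)) - SP L (ln c t)) * EE τ v (ln c t) =
        ex * (1 / (ln c t - 1) * EE τ v (ln c t)) - SP L (ln c t) * EE τ v (ln c t) := by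
      intro t; ring
    simp_rw [e]
    rw [integral_sub (hi1.const_mul ex) hi2, integral_const_mul]
    have h2 := pole_bound hτ (c := c) (v := v) (ρ := 1) (by simp) (by rw [one_re, hc]; norm_num)
    have h3 := list_poles hτ (c := c) (v := v) (a := 1 / 4) (by norm_num) h0
      (fun ρ hρ => by have := h1 ρ hρ; rw [hc]; linarith)
    have e2 : ∀ t : ℝ, 1 / (ln c t - 1) * EE τ v (ln c t) = EE τ v (ln c t) / (ln c t - 1) := by
      intro t
      rw [one_div, mul_comm, div_eq_mul_inv]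
    simp_rw [e2]
    set A := ∫ t : ℝ, EE τ v (ln c t) / (ln c t - 1)
    set B := ∫ t : ℝ, SP L (ln c t) * EE τ v (ln c t)
    set W : ℂ := ((2 * Real.pi : ℝ) : ℂ)⁻¹
    have e3 : W * (ex * A - B) - (ex * EE τ v 1 - (L.map (EE τ v)).sum) =
        ex * (W * A - EE τ v 1) - (W * B - (L.map (EE τ v)).sum) := by ring
    rw [e3]
    refine (norm_sub_le _ _).trans (add_le_add ?_ h3)
    rw [norm_mul]
    calc ‖ex‖ * ‖W * A - EE τ v 1‖ ≤ 1 * 1 := mul_le_mul hexn h2 (norm_nonneg _) (by norm_num)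
      _ = 1 := one_mul 1
  have hrect := rect_gen (h := fun s => deriv g s / g s) hτ hv0 hT (σ := 19 / 20) (c := c) (D := D)
    (by norm_num) (by rw [hc]; norm_num) (by rw [hc]; norm_num)
    (fun s h2 h3 h4 => (hdg s).div (hg s) (hgne s h2 (by rw [hc] at h3; linarith) h4))
    (fun s h2 h3 h4 => hgD s h2 (by rw [hc] at h3; linarith) h4)
  have htail := tail_gen (c := c) (v := v) hτ hT (by positivity) hFn
  have hgs := gaussSum_eq χ hτ hY0 (a := 1 / 4) (by norm_num) (by norm_num)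
  have e : (1 : ℝ) + 1 / 4 = c := by rw [hc]; norm_num
  rw [e] at hgs
  have hcoef : (((τ * Real.sqrt (2 * Real.pi))⁻¹ : ℝ) : ℂ) * gaussSum' χ τ Y =
      ((2 * Real.pi : ℝ) : ℂ)⁻¹ * ∫ t : ℝ, ff χ τ Y (ln c t) := by
    rw [hgs, ← mul_assoc, ← ofReal_mul, ← ofReal_inv]
    congr 2
    have h6 : 0 < Real.sqrt (2 * Real.pi) := by positivity
    have h5 : Real.sqrt (2 * Real.pi) * Real.sqrt (2 * Real.pi) = 2 * Real.pi :=
      Real.mul_self_sqrt (by positivity)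
    have h7 : (τ * Real.sqrt (2 * Real.pi))⁻¹ * (τ / Real.sqrt (2 * Real.pi)) =
        (Real.sqrt (2 * Real.pi) * Real.sqrt (2 * Real.pi))⁻¹ := by
      field_simp
    rw [h7, h5]
  have hex2 : (if χ = 1 then EE τ v 1 else 0) = ex * EE τ v 1 := by
    rw [hex]; split_ifs <;> simp
  rw [hcoef, hsplit, hex2]
  set A := ∫ t : ℝ, (ex * (1 / (ln c t - 1)) - SP L (ln c t)) * EE τ v (ln c t)
  set B := ∫ t in (-T)..T, F t
  set B' := ∫ t in (Set.Ioc (-T) T)ᶜ, F t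
  set W : ℂ := ((2 * Real.pi : ℝ) : ℂ)⁻¹ with hW
  have hWn : ‖W‖ = (2 * Real.pi)⁻¹ := by
    rw [hW, norm_inv, norm_real, Real.norm_of_nonneg (by positivity)]
  have e3 : W * (A - (B + B')) - ex * EE τ v 1 + (L.map (EE τ v)).sum =
      (W * A - (ex * EE τ v 1 - (L.map (EE τ v)).sum)) - W * (B + B') := by ring
  rw [e3]
  refine (norm_sub_le _ _).trans (add_le_add hmain ?_)
  rw [norm_mul, hWn]
  apply mul_le_mul_of_nonneg_left _ (by positivity)
  refine (norm_add_le _ _).trans (add_le_add hrect htail)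

end Pool.Agent.PS.EFx

namespace Pool.Agent.PS

open EFx
open Pool.Agent.Work.MP_b0c12c_nt_helper70

/-- **EF1**. -/
theorem stmt_EF1 (hGBD : Stmt_GBD) (hZC : Stmt_ZCNT) (hZS : Stmt_ZSPEC) : Stmt_EF1 := by
  obtain ⟨C1, hC1, hG⟩ := hGBD
  obtain ⟨C2, hC2, hZ⟩ := hZC
  refine ⟨30000 + 12 * C1 + C2, by linarith, ?_⟩
  intro Z hZ0 x hx Y hY hY2
  have hZ1 : C1 ≤ Z := by linarith
  have hZ2 : C2 ≤ Z := by linarith
  have hZ3 : (30000 : ℝ) ≤ Z := by linarith
  obtain ⟨g, hg, hfac, hgb⟩ := hG Z hZ1 x hx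
  have hlen := hZ Z hZ2 x hx
  obtain ⟨q, χ⟩ := x
  have hq : 0 < q := by
    unfold Fam at hx
    rw [Finset.mem_sigma, Finset.mem_Ioc] at hx
    exact hx.1.1
  have : NeZero q := ⟨hq.ne'⟩
  have hspec := (hZS Z ⟨q, χ⟩ hq.ne').2.2
  have hZ0' : (0 : ℝ) < Z := by linarith
  set L := zl ⟨q, χ⟩ Z with hL
  have hτ : (0 : ℝ) < 1 / √(Z : ℝ) := by positivity
  have hY0 : 0 < Y := by linarith
  have hv0 : 0 ≤ Real.log Y := Real.log_nonneg hY
  have hτ2 : (1 / √(Z : ℝ)) ^ 2 = 1 / Z := by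
    rw [div_pow, one_pow, Real.sq_sqrt hZ0'.le]
  have key := explicit_gen χ hτ hY hg hfac (L := L) (fun ρ hρ => by
      have := (hspec ρ hρ).2.1; linarith) (fun ρ hρ => (hspec ρ hρ).2.2.1)
    (T := Z / 2) (D := C1 * (Z : ℝ) ^ 3) (by positivity)
    (fun s h1 h2 h3 => (hgb s h1 h2 h3).1) (fun s h1 h2 h3 => (hgb s h1 h2 h3).2)
  -- translate
  have e1 : ((1 / √(Z : ℝ) * Real.sqrt (2 * Real.pi))⁻¹ : ℝ) = √(Z : ℝ) / √(2 * Real.pi) := by
    have h6 : 0 < Real.sqrt (2 * Real.pi) := by positivity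
    field_simp
  have e2 : ∀ ρ : ℂ, EE (1 / √(Z : ℝ)) (Real.log Y) ρ =
      Complex.exp (ρ ^ 2 / (2 * Z)) * (Y : ℂ) ^ ρ := by
    intro ρ
    unfold EE
    rw [cpow_def_of_ne_zero (by exact_mod_cast hY0.ne'), ← Complex.exp_add,
      ← ofReal_log hY0.le, ← ofReal_pow, hτ2]
    congr 1
    push_cast
    field_simp
  have e3 : EE (1 / √(Z : ℝ)) (Real.log Y) 1 = ((Y * Real.exp (1 / (2 * Z)) : ℝ) : ℂ) := by
    rw [e2]
    push_cast
    rw [cpow_one, one_pow, mul_comm]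
  have e4 : L.map (EE (1 / √(Z : ℝ)) (Real.log Y)) =
      L.map fun ρ => Complex.exp (ρ ^ 2 / (2 * Z)) * (Y : ℂ) ^ ρ :=
    List.map_congr_left fun ρ _ => e2 ρ
  rw [e1, e3, e4] at key
  refine le_trans (le_of_eq (by congr!)) (key.trans ?_)
  -- numerics
  have hsqZ : √(Z : ℝ) ≤ Z := by
    rw [Real.sqrt_le_left hZ0'.le]
    nlinarith
  have hG : Real.sqrt (2 * Real.pi) / (1 / √(Z : ℝ)) ≤ 3 * Z := by
    rw [div_div_eq_mul_div, div_one]
    have h1 : Real.sqrt (2 * Real.pi) ≤ 3 := by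
      rw [Real.sqrt_le_left (by norm_num)]
      have := Real.pi_lt_four
      linarith
    have h2 : 0 ≤ √(Z : ℝ) := Real.sqrt_nonneg _
    nlinarith
  set G : ℝ := Real.sqrt (2 * Real.pi) / (1 / √(Z : ℝ)) with hGdef
  have hG0 : 0 ≤ G := by positivity
  rw [hτ2]
  have hYp : 1 ≤ Y ^ (19 / 20 : ℝ) := Real.one_le_rpow hY (by norm_num)
  have hE1 : Real.exp (1 / (Z : ℝ) * (19 / 20) ^ 2 / 2 + 19 / 20 * Real.log Y) ≤
      3 * Y ^ (19 / 20 : ℝ) := by
    rw [Real.exp_add, Real.rpow_def_of_pos hY0, mul_comm (19 / 20 : ℝ) (Real.log Y)]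
    apply mul_le_mul_of_nonneg_right _ (Real.exp_pos _).le
    have h1 : 1 / (Z : ℝ) * (19 / 20) ^ 2 / 2 ≤ 1 := by
      have : 1 / (Z : ℝ) ≤ 1 := by
        rw [div_le_one hZ0']; linarith
      nlinarith
    calc Real.exp (1 / (Z : ℝ) * (19 / 20) ^ 2 / 2) ≤ Real.exp 1 := Real.exp_le_exp.mpr h1
      _ ≤ 3 := by have := Real.exp_one_lt_d9; linarith
  have hE2 : Real.exp (1 / (Z : ℝ) * ((5 / 4) ^ 2 - (Z / 2) ^ 2) / 2 + 5 / 4 * Real.log Y) ≤ 1 := by
    rw [Real.exp_le_one_iff]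
    have h1 : 1 / (Z : ℝ) * ((5 / 4) ^ 2 - (Z / 2) ^ 2) / 2 = 1 / Z * (25 / 32) - Z / 8 := by
      field_simp
      ring
    rw [h1]
    have h2 : 1 / (Z : ℝ) ≤ 1 := by
      rw [div_le_one hZ0']; linarith
    have h3 : Real.log Y ≤ (Real.log Z) ^ 2 + 1 := by
      have := Real.log_le_log hY0 hY2
      rwa [Real.log_exp] at this
    have h4 : Real.log Z ≤ 4 * (Z : ℝ) ^ (1 / 4 : ℝ) := by
      have := Real.log_le_rpow_div hZ0'.le (show (0 : ℝ) < 1 / 4 by norm_num)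
      refine this.trans (le_of_eq ?_)
      ring
    have h5 : ((Z : ℝ) ^ (1 / 4 : ℝ)) ^ 2 = √(Z : ℝ) := by
      rw [← Real.rpow_natCast, ← Real.rpow_mul hZ0'.le, Real.sqrt_eq_rpow]
      norm_num
    have h6 : 0 ≤ Real.log Z := Real.log_nonneg (by linarith)
    have h7 : (Real.log Z) ^ 2 ≤ 16 * √(Z : ℝ) := by
      calc (Real.log Z) ^ 2 ≤ (4 * (Z : ℝ) ^ (1 / 4 : ℝ)) ^ 2 := pow_le_pow_left₀ h6 h4 2
        _ = 16 * √(Z : ℝ) := by rw [mul_pow, h5]; norm_num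
    have h8 : (170 : ℝ) ≤ √(Z : ℝ) := by
      rw [Real.le_sqrt' (by norm_num)]
      linarith
    have h9 : √(Z : ℝ) * √(Z : ℝ) = Z := Real.mul_self_sqrt hZ0'.le
    have h10 : 170 * √(Z : ℝ) ≤ √(Z : ℝ) * √(Z : ℝ) :=
      mul_le_mul_of_nonneg_right h8 (Real.sqrt_nonneg _)
    linarith
  have hπ : (2 * Real.pi)⁻¹ ≤ 1 := by
    apply inv_le_one_of_one_le₀
    linarith [Real.pi_gt_three]
  have hlen0 : (0 : ℝ) ≤ L.length := Nat.cast_nonneg _
  have hD0 : 0 ≤ C1 * (Z : ℝ) ^ 3 := by positivity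
  have b1 : C1 * (Z : ℝ) ^ 3 * (Real.exp (1 / (Z : ℝ) * (19 / 20) ^ 2 / 2 + 19 / 20 * Real.log Y) *
      G) ≤ C1 * (Z : ℝ) ^ 3 * (3 * Y ^ (19 / 20 : ℝ) * (3 * Z)) := by
    apply mul_le_mul_of_nonneg_left _ hD0
    exact mul_le_mul hE1 hG hG0 (by positivity)
  have b2 : 2 * (C1 * (Z : ℝ) ^ 3 *
      Real.exp (1 / (Z : ℝ) * ((5 / 4) ^ 2 - (Z / 2) ^ 2) / 2 + 5 / 4 * Real.log Y)) ≤
      2 * (C1 * (Z : ℝ) ^ 3 * 1) := by
    apply mul_le_mul_of_nonneg_left _ (by norm_num)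
    exact mul_le_mul_of_nonneg_left hE2 hD0
  have b3 : (4 * (1 + (L.length : ℝ)) + 96) *
      (Real.exp (1 / (Z : ℝ) * ((5 / 4) ^ 2 - (Z / 2) ^ 2) / 2 + 5 / 4 * Real.log Y) * (2 * G)) ≤
      (4 * (1 + (Z : ℝ) ^ 2) + 96) * (1 * (2 * (3 * Z))) := by
    apply mul_le_mul
    · linarith
    · exact mul_le_mul hE2 (by linarith) (by positivity) (by norm_num)
    · positivity
    · positivity
  have hZp : (1 : ℝ) ≤ Z := by linarith
  have p1 : (Z : ℝ) ^ 2 ≤ (Z : ℝ) ^ 4 := pow_le_pow_right₀ hZp (by norm_num)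
  have p2 : (Z : ℝ) ^ 3 ≤ (Z : ℝ) ^ 4 := pow_le_pow_right₀ hZp (by norm_num)
  have p3 : (Z : ℝ) ≤ (Z : ℝ) ^ 4 := by
    calc (Z : ℝ) = (Z : ℝ) ^ 1 := (pow_one _).symm
      _ ≤ (Z : ℝ) ^ 4 := pow_le_pow_right₀ hZp (by norm_num)
  have p4 : (1 : ℝ) ≤ (Z : ℝ) ^ 4 := one_le_pow₀ hZp
  have p5 : (Z : ℝ) ^ 4 ≤ (Z : ℝ) ^ 4 * Y ^ (19 / 20 : ℝ) :=
    le_mul_of_one_le_right (by positivity) hYp
  set X : ℝ := (Z : ℝ) ^ 4 * Y ^ (19 / 20 : ℝ) with hX
  have b1' : C1 * (Z : ℝ) ^ 3 * (3 * Y ^ (19 / 20 : ℝ) * (3 * Z)) = 9 * C1 * X := by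
    rw [hX]; ring
  have b3' : (4 * (1 + (Z : ℝ) ^ 2) + 96) * (1 * (2 * (3 * Z))) = 600 * Z + 24 * (Z : ℝ) ^ 3 := by
    ring
  have hS0 : 0 ≤ C1 * (Z : ℝ) ^ 3 *
      (Real.exp (1 / (Z : ℝ) * (19 / 20) ^ 2 / 2 + 19 / 20 * Real.log Y) * G) +
      2 * (C1 * (Z : ℝ) ^ 3 *
        Real.exp (1 / (Z : ℝ) * ((5 / 4) ^ 2 - (Z / 2) ^ 2) / 2 + 5 / 4 * Real.log Y)) +
      (4 * (1 + (L.length : ℝ)) + 96) *
      (Real.exp (1 / (Z : ℝ) * ((5 / 4) ^ 2 - (Z / 2) ^ 2) / 2 + 5 / 4 * Real.log Y) * (2 * G)) := by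
    positivity
  have hfin := mul_le_of_le_one_left hS0 hπ
  have hC1X : C1 * (Z : ℝ) ^ 3 ≤ C1 * X := by
    apply mul_le_mul_of_nonneg_left _ (by linarith)
    linarith
  have hgoal : (30000 + 12 * C1 + C2) * (Z : ℝ) ^ 4 * Y ^ (19 / 20 : ℝ) =
      30000 * X + 12 * (C1 * X) + C2 * X := by rw [hX]; ring
  rw [hgoal]
  have hX0 : 0 < X := by linarith
  have hC2X : 0 ≤ C2 * X := by positivity
  have hC1X0 : 0 ≤ C1 * X := by positivity
  linarith

end Pool.Agent.PS
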