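import Pool.Agent.Work.PS.Defs
import Pool.Agent.Work.MP_b0c12c_nt.Interface2
import Pool.Agent.Work.MP_484fb8_nt.Defs

/-!
# Power saving exceptional set in the primorial Goldbach problem: statements of the blocks

See `BLUEPRINT.md` in this folder for the proofs. Every block is `def Stmt_X : Prop`; a block file
`Work/PS/X.lean` proves `theorem stmt_X : Stmt_X`, and may take other statements as hypotheses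
(`theorem stmt_X (h : Stmt_Y) : Stmt_X`).
-/

set_option autoImplicit false

namespace Pool.Agent.PS

open Finset ArithmeticFunction Metric
open Pool.Agent.BV (PC)
open Pool.Agent.Circle (e sing rsum)
open Pool.Agent.Work.MP_b0c12c_nt_helper70 (PP)
open Pool.Agent.Work.MP_b0c12c_nt.Itf2 (gaussSum')
open scoped Classical ArithmeticFunction.Moebius

/-! ## Part A: zeros -/

/-- ZL: existence of the list of zeros in a bounded set. -/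
def Stmt_ZL : Prop := ∀ f : ℂ → ℂ, Differentiable ℂ f → (∃ s, f s ≠ 0) → ∀ K : Set ℂ,
  Bornology.IsBounded K → ∃ L g, IsZL f K L g

/-- LF: local formula for the logarithmic derivative, and number of zeros in a disc. -/
def Stmt_LF : Prop := ∃ C : ℝ, 1 ≤ C ∧ ∀ (f h : ℂ → ℂ) (L : List ℂ), Differentiable ℂ h →
  (∀ s, f s = PP L s * h s) → ∀ (s0 : ℂ) (R m : ℝ), 0 < R → 0 < m → f s0 ≠ 0 →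
  (∀ s ∈ closedBall s0 R, ‖f s‖ ≤ Real.exp m * ‖f s0‖) →
  (∀ s ∈ closedBall s0 (R / 4), h s ≠ 0) →
  ((L.filter fun ρ => ‖ρ - s0‖ ≤ R / 4).length : ℝ) ≤ m ∧
  ∃ G : ℂ → ℂ, DifferentiableOn ℂ G (ball s0 (R / 4)) ∧
    (∀ s ∈ closedBall s0 (R / 8), ‖G s‖ ≤ C * m / R) ∧
    ∀ s ∈ ball s0 (R / 4), f s ≠ 0 → deriv f s / f s =
      ((L.filter fun ρ => ‖ρ - s0‖ ≤ R / 4).map fun ρ => 1 / (s - ρ)).sum + G s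

/-- GRW: growth and lower bound of `Le χ`, moduli up to `Z ^ 2`. -/
def Stmt_GRW : Prop := ∃ C : ℝ, 1 ≤ C ∧ ∀ Z : ℕ, 3 ≤ Z → ∀ (q : ℕ) (χ : DirichletCharacter ℂ q),
  0 < q → q ≤ Z ^ 2 → ∀ s : ℂ, 1 / 20 ≤ s.re → s.re ≤ 4 → |s.im| ≤ Z + 20 →
    ‖Le χ s‖ ≤ (Z : ℝ) ^ C ∧ (1 < s.re → (s.re - 1) ^ 2 / 32 ≤ ‖Le χ s‖)

/-- ZSPEC: the chosen lists have the expected properties; zeros lie in `re < 1`. -/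
def Stmt_ZSPEC : Prop := ∀ (Z : ℕ) (x : Ch), x.1 ≠ 0 →
  IsZL (Le x.2) (closedBall 0 (Z + 10)) (zb x Z) (gb x Z) ∧ (∀ ρ ∈ zb x Z, ρ.re < 1) ∧
  ∀ ρ ∈ zl x Z, Le x.2 ρ = 0 ∧ 9 / 10 ≤ ρ.re ∧ ρ.re < 1 ∧ |ρ.im| ≤ Z

/-- ZCNT: crude count. -/
def Stmt_ZCNT : Prop := ∃ C : ℝ, 1 ≤ C ∧ ∀ Z : ℕ, C ≤ Z → ∀ x ∈ Fam Z,
  ((zl x Z).length : ℝ) ≤ (Z : ℝ) ^ 2

/-- ZFR: zero-free region with at most one exceptional zero (Landau, Page); in the second case the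
exceptional zero is simple. -/
def Stmt_ZFR : Prop := ∃ c : ℝ, 0 < c ∧ c ≤ 1 / 20 ∧ ∃ Z0 : ℕ, ∀ Z : ℕ, Z0 ≤ Z →
  (∀ x ∈ Fam Z, ∀ ρ ∈ zl x Z, ρ.re < 1 - c / Real.log Z) ∨
  ∃ (y : Ch) (δ : ℝ), Exc Z y δ ∧ δ ≤ c / Real.log Z ∧
    ∀ x ∈ Fam Z, ∀ ρ ∈ zx Z y δ x, ρ.re < 1 - c / Real.log Z

/-! ## Part B: log-free density -/

/-- TUR: Turán's second main theorem. -/
def Stmt_TUR : Prop := ∃ c : ℝ, 0 < c ∧ c < 1 ∧ ∀ (L : List ℂ) (z0 : ℂ), z0 ∈ L → 1 ≤ ‖z0‖ →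
  ∀ M : ℕ, L.length ≤ M → ∃ k : ℕ, M < k ∧ k ≤ 2 * M ∧ c ^ k ≤ ‖(L.map fun z => z ^ k).sum‖

/-- PLS: the large sieve for sequences without small prime factors. -/
def Stmt_PLS : Prop := ∃ C : ℝ, 0 < C ∧ ∀ (Q M N : ℕ), 2 ≤ Q → ∀ S : Finset ℕ,
  S ⊆ Ioc M (M + N) → (∀ n ∈ S, ∀ d : ℕ, 0 < d → d ≤ Q ^ 2 → n.Coprime d) → ∀ a : ℕ → ℂ,
  ∑ x ∈ Fam Q, ‖∑ n ∈ S, a n * x.2 (n : ZMod x.1)‖ ^ 2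
    ≤ C / Real.log Q * (N + (Q : ℝ) ^ 4) * ∑ n ∈ S, ‖a n‖ ^ 2

/-- GAL: Gallagher's lemma for exponential sums with real frequencies. -/
def Stmt_GAL : Prop := ∃ C : ℝ, 0 < C ∧ ∀ (S : Finset ℕ) (ν : ℕ → ℝ) (c : ℕ → ℂ) (T : ℝ), 0 < T →
  (∫ t in (-T)..T, ‖∑ n ∈ S, c n * e (ν n * t)‖ ^ 2)
    ≤ C * T ^ 2 * ∫ u : ℝ, ‖∑ n ∈ S.filter (fun n => |ν n - u| ≤ 1 / (4 * T)), c n‖ ^ 2

/-- HLS: hybrid large sieve for primes. -/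
def Stmt_HLS : Prop := ∃ C : ℝ, 0 < C ∧ ∀ (Q : ℕ) (T : ℝ), 2 ≤ Q → 1 ≤ T → ∀ S : Finset ℕ,
  (∀ p ∈ S, p.Prime ∧ Q ^ 2 < p) → ∀ a : ℕ → ℂ,
  ∑ x ∈ Fam Q, (∫ t in (-T)..T,
      ‖∑ p ∈ S, a p * x.2 (p : ZMod x.1) * (p : ℂ) ^ (-((t : ℂ) * Complex.I))‖ ^ 2)
    ≤ C / Real.log Q * ∑ p ∈ S, (p + (Q : ℝ) ^ 4 * T) * ‖a p‖ ^ 2

/-- `u ^ k e ^ (-u) / k!` -/
noncomputable def jk (k : ℕ) (u : ℝ) : ℝ := u ^ k * Real.exp (-u) / k.factorial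

/-- The prime polynomials of the density theorem. -/
noncomputable def Pk (Z A : ℕ) (r : ℝ) (k : ℕ) (w : ℕ → ℂ) (x : Ch) (t : ℝ) : ℂ :=
  ∑ p ∈ (Ioc (Z ^ 5) (Z ^ A)).filter Nat.Prime,
    ((Real.log p * jk k (r * Real.log p) / p : ℝ) : ℂ) * w p * x.2 (p : ZMod x.1)
      * (p : ℂ) ^ (-((t : ℂ) * Complex.I))

/-- The data for the abstract density theorem: `F` is an entire function whose logarithmic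
derivative is `- ∑ Λ(n) χ(n) w(n) n^(-s)` (plus `ex / (s - 1)`), `L` is a list of zeros of `F`. -/
structure Fdat (Z : ℕ) (C1 c6 δ : ℝ) (w : ℕ → ℂ) (x : Ch) (F : ℂ → ℂ) (L : List ℂ) (ex : ℝ) :
    Prop where
  diff : Differentiable ℂ F
  fac : ∃ h : ℂ → ℂ, Differentiable ℂ h ∧ ∀ s, F s = PP L s * h s
  im : ∀ ρ ∈ L, |ρ.im| ≤ Z
  re : ∀ ρ ∈ L, ρ.re ≤ 1
  up : ∀ s : ℂ, 1 / 10 ≤ s.re → s.re ≤ 3 → |s.im| ≤ Z + 10 → ‖F s‖ ≤ (Z : ℝ) ^ C1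
  low : ∀ s : ℂ, 1 + 1 / Real.log Z ≤ s.re → s.re ≤ 3 → |s.im| ≤ Z + 10 →
    (Z : ℝ) ^ (-C1) ≤ ‖F s‖
  zer : ∀ s : ℂ, |s.im| ≤ Z + 10 → F s = 0 → s.re ≤ 1 + δ
  ld : ∀ s : ℂ, 1 + δ < s.re → -(deriv F s / F s) =
    LSeries (fun n => (Λ n : ℂ) * x.2 (n : ZMod x.1) * w n) s - ex / (s - 1)
  ex01 : ex = 0 ∨ ex = 1
  pole : ex = 1 → ∀ ρ ∈ L, c6 ≤ ‖ρ - 1‖

/-- ADL1: a zero near `1 + i t` forces a large prime polynomial. -/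
def Stmt_ADL1 : Prop := ∀ C1 c6 : ℝ, 1 ≤ C1 → 0 < c6 → ∃ (A : ℕ) (D c5 c7 C : ℝ),
  5 ≤ A ∧ 1 ≤ D ∧ 0 < c5 ∧ c5 < 1 ∧ 0 < c7 ∧ 1 ≤ C ∧ ∀ Z : ℕ, C ≤ Z → ∀ δ : ℝ, 0 ≤ δ →
  δ ≤ 1 / (100 * Real.log Z) → ∀ w : ℕ → ℂ, (∀ n, 1 ≤ n → ‖w n‖ ≤ 2 * (n : ℝ) ^ δ) →
  ∀ x ∈ Fam Z, ∀ F L ex, Fdat Z C1 c6 δ w x F L ex → ∀ r : ℝ, 1 / Real.log Z ≤ r → r ≤ c7 →
  ∀ t : ℝ, |t| ≤ Z + 1 → (∃ ρ ∈ L, ‖ρ - (1 + t * Complex.I)‖ ≤ r) →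
  ((L.filter fun ρ => ‖ρ - (1 + t * Complex.I)‖ ≤ r).length : ℝ) ≤ C * r * Real.log Z ∧
  ∃ k : ℕ, ⌈D * r * Real.log Z⌉₊ < k ∧ k ≤ 2 * ⌈D * r * Real.log Z⌉₊ ∧
    1 / r * c5 ^ ⌈D * r * Real.log Z⌉₊ ≤ ‖Pk Z A r k w x t‖

/-- ADL: the abstract log-free density theorem. -/
def Stmt_ADL : Prop := ∀ C1 c6 : ℝ, 1 ≤ C1 → 0 < c6 → ∃ (A : ℕ) (C c7 : ℝ),
  5 ≤ A ∧ 1 ≤ C ∧ 0 < c7 ∧ ∀ Z : ℕ, C ≤ Z → ∀ δ : ℝ, 0 ≤ δ →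
  δ ≤ 1 / (100 * Real.log Z) → ∀ w : ℕ → ℂ, (∀ n, 1 ≤ n → ‖w n‖ ≤ 2 * (n : ℝ) ^ δ) →
  ∀ B : ℝ, 0 ≤ B →
  ∑ p ∈ (Ioc (Z ^ 5) (Z ^ A)).filter Nat.Prime, (Real.log p) ^ 2 / p * ‖w p‖ ^ 2
    ≤ B * (Real.log Z) ^ 2 →
  ∀ S : Finset Ch, S ⊆ Fam Z → ∀ (F : Ch → ℂ → ℂ) (L : Ch → List ℂ) (ex : Ch → ℝ),
  (∀ x ∈ S, Fdat Z C1 c6 δ w x (F x) (L x) (ex x)) → ∀ r : ℝ, 0 ≤ r → r ≤ c7 →
  ∑ x ∈ S, (cnt (L x) (1 - r) : ℝ) ≤ C * B * Real.exp (C * r * Real.log Z)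

/-- FB: the data for `L(s, χ)` itself. -/
def Stmt_FB : Prop := ∃ C1 c6 : ℝ, 1 ≤ C1 ∧ 0 < c6 ∧ ∀ Z : ℕ, C1 ≤ Z → ∀ x ∈ Fam Z,
  Fdat Z C1 c6 0 (fun _ => 1) x (Le x.2) (zl x Z) (if x.2 = 1 then 1 else 0)

/-- FX: the data twisted by the exceptional character. -/
def Stmt_FX : Prop := ∃ C1 : ℝ, 1 ≤ C1 ∧ ∀ Z : ℕ, C1 ≤ Z → ∀ (y : Ch) (δ : ℝ), Exc Z y δ →
  δ ≤ 1 / (100 * Real.log Z) →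
  (∀ x ∈ Fam Z, x ≠ y → ∃ F, Fdat Z C1 1 δ
    (fun n => 1 + y.2 (n : ZMod y.1) * (((n : ℝ) ^ δ : ℝ) : ℂ)) x F (zx Z y δ x) 0) ∧
  ∃ F, Fdat Z C1 1 δ
    (fun n => 1 + y.2 (n : ZMod y.1) * (((n : ℝ) ^ (-δ) : ℝ) : ℂ)) y F (zx Z y δ y) 0

/-- SIEG: Siegel's theorem for the exceptional zero. -/
def Stmt_SIEG : Prop := ∀ ε : ℝ, 0 < ε → ∃ c : ℝ, 0 < c ∧ ∀ (Z : ℕ) (y : Ch) (δ : ℝ),
  Exc Z y δ → c * (y.1 : ℝ) ^ (-ε) ≤ δ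

/-- PX: primes with `χ(p) = 1` are rare if `χ` has an exceptional zero. -/
def Stmt_PX : Prop := ∀ A : ℕ, 5 ≤ A → ∃ C : ℝ, 1 ≤ C ∧ ∀ Z : ℕ, C ≤ Z → ∀ (y : Ch) (δ : ℝ),
  Exc Z y δ → δ ≤ 1 / (C * Real.log Z) →
  ∑ p ∈ (Ioc (Z ^ 5) (Z ^ A)).filter (fun p : ℕ => p.Prime ∧ y.2 (p : ZMod y.1) = 1), 1 / (p : ℝ)
    ≤ C * δ * Real.log Z

/-- DENS: log-free zero density theorem (Gallagher). -/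
def Stmt_DENS : Prop := ∃ C : ℝ, 1 ≤ C ∧ ∀ Z : ℕ, C ≤ Z → ∀ r : ℝ, 0 ≤ r → r ≤ 1 / 10 →
  ∑ x ∈ Fam Z, (cnt (zl x Z) (1 - r) : ℝ) ≤ C * Real.exp (C * r * Real.log Z)

/-- DENSX: the same in the presence of an exceptional zero (Bombieri). -/
def Stmt_DENSX : Prop := ∃ C : ℝ, 1 ≤ C ∧ ∀ Z : ℕ, C ≤ Z → ∀ (y : Ch) (δ : ℝ),
  Exc Z y δ → δ ≤ 1 / (C * Real.log Z) → ∀ r : ℝ, 0 ≤ r → r ≤ 1 / 10 →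
  ∑ x ∈ Fam Z, (cnt (zx Z y δ x) (1 - r) : ℝ)
    ≤ C * (δ * Real.log Z) * Real.exp (C * r * Real.log Z)

/-- ZS: sums over zeros. -/
def Stmt_ZS : Prop := ∀ ε : ℝ, 0 < ε → ∃ κ : ℝ, 0 < κ ∧ ∃ Z0 : ℕ, ∀ Z : ℕ, Z0 ≤ Z →
  ∀ Y : ℝ, 1 ≤ Y → (Z : ℝ) ≤ Y ^ κ →
  ∑ x ∈ Fam Z, zs (zl x Z) Y ≤ ε ∨
  ∃ (y : Ch) (δ : ℝ), Exc Z y δ ∧ δ ≤ 1 / Real.log Z ∧
    ∑ x ∈ Fam Z, zs (zx Z y δ x) Y ≤ ε * min 1 (δ * Real.log Y)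

/-! ## Part C: explicit formula -/

/-- GBD: the logarithmic derivative after removal of the zeros in the box. -/
def Stmt_GBD : Prop := ∃ C : ℝ, 1 ≤ C ∧ ∀ Z : ℕ, C ≤ Z → ∀ x ∈ Fam Z, ∃ g : ℂ → ℂ,
  Differentiable ℂ g ∧ (∀ s, Le x.2 s = PP (zl x Z) s * g s) ∧
  ∀ s : ℂ, 19 / 20 ≤ s.re → s.re ≤ 3 / 2 → |s.im| ≤ Z / 2 →
    g s ≠ 0 ∧ ‖deriv g s / g s‖ ≤ C * (Z : ℝ) ^ 3

/-- EF1: the explicit formula with Gaussian weight, `τ = 1 / √Z`. -/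
def Stmt_EF1 : Prop := ∃ C : ℝ, 1 ≤ C ∧ ∀ Z : ℕ, C ≤ Z → ∀ x ∈ Fam Z, ∀ Y : ℝ, 1 ≤ Y →
  Y ≤ Real.exp ((Real.log Z) ^ 2 + 1) →
  ‖((√(Z : ℝ) / √(2 * Real.pi) : ℝ) : ℂ) * gaussSum' x.2 (1 / √(Z : ℝ)) Y
      - (if x.2 = 1 then ((Y * Real.exp (1 / (2 * Z)) : ℝ) : ℂ) else 0)
      + ((zl x Z).map fun ρ => Complex.exp (ρ ^ 2 / (2 * Z)) * (Y : ℂ) ^ ρ).sum‖
    ≤ C * (Z : ℝ) ^ 4 * Y ^ (19 / 20 : ℝ)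

/-- EF: the explicit formula for sums of `Λ(n) χ(n)` over intervals. -/
def Stmt_EF : Prop := ∃ C : ℝ, 1 ≤ C ∧ ∀ Z : ℕ, C ≤ Z → ∀ x ∈ Fam Z, ∀ u v : ℝ, 1 ≤ u → u ≤ v →
  v ≤ Real.exp ((Real.log Z) ^ 2) →
  ‖∑ n ∈ Ioc ⌊u⌋₊ ⌊v⌋₊, (Λ n : ℂ) * x.2 (n : ZMod x.1)
      - (if x.2 = 1 then ((v - u : ℝ) : ℂ) else 0)
      + ((zl x Z).map fun ρ => Complex.exp (ρ ^ 2 / (2 * Z)) *
          (((v : ℂ) ^ ρ - (u : ℂ) ^ ρ) / ρ)).sum‖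
    ≤ C * (v * (Z : ℝ) ^ (-(1 / 3) : ℝ) + (Z : ℝ) ^ 5 * v ^ (19 / 20 : ℝ))

/-- GALD: Gallagher's lemma on the discrete circle. -/
def Stmt_GALD : Prop := ∀ (R H h U V : ℕ), 0 < R → 1 ≤ h → 2 * h * H < R → U ≤ V → V + h < R →
  ∀ (c : ℕ → ℂ) (D : ℝ), 0 ≤ D →
  (∀ u v, U ≤ u → u ≤ v → v ≤ V → v ≤ u + h → ‖∑ n ∈ Ioc u v, c n‖ ≤ D) →
  Wn R H (Ioc U V) c ≤ 2 * √((V : ℝ) - U + h) * D / h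

/-- WS: the analytic input for the major arcs. -/
def Stmt_WS : Prop := ∀ ε : ℝ, 0 < ε → ∃ θ : ℝ, 0 < θ ∧ θ ≤ 1 / 100 ∧ ∃ X0 : ℕ, ∀ X : ℕ,
  X0 ≤ X → ∃ (P : ℕ) (E : Option (Ch × ℝ)), (X : ℝ) ^ (θ / 8) ≤ P ∧ (P : ℝ) ≤ (X : ℝ) ^ θ ∧
  (∀ y δ, E = some (y, δ) →
    Exc P y δ ∧ y.1 ^ 4 ≤ P ∧ 1 / ε ≤ (y.1 : ℝ) ∧ (y.1 : ℝ) ^ (-(1 / 8) : ℝ) ≤ δ) ∧
  ∀ R H U V : ℕ, 0 < R → (H : ℝ) / R ≤ P / X → V + X < R → X ≤ 4 * U + 4 → U ≤ V → V ≤ U + X →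
    (V : ℝ) ≤ X * P →
    ∑ x ∈ Fam P, Wn R H (Ioc U V) (fun n => (th n : ℂ) * x.2 (n : ZMod x.1) - mt E x n)
      ≤ ε * lam E X * √(X : ℝ)

/-! ## Part D: Gauss sums and coefficients -/

/-- TAU: Gauss sums of arbitrary characters. -/
def Stmt_TAU : Prop := ∀ q : ℕ, 0 < q → ∀ χ : DirichletCharacter ℂ q,
  tau χ = (μ (q / χ.conductor) : ℂ) *
      χ.primitiveCharacter ((q / χ.conductor : ℕ) : ZMod χ.conductor) * tau χ.primitiveCharacter ∧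
  ‖tau χ.primitiveCharacter‖ = √(χ.conductor : ℝ)

/-- CM: the sums `cm`. -/
def Stmt_CM : Prop := ∀ q : ℕ, 0 < q → ∀ (χ : DirichletCharacter ℂ q) (m : ℕ), 0 < m →
  (cm χ m ≠ 0 → χ.conductor ∣ qm q m) ∧
  ‖cm χ m‖ ≤ (q.totient : ℝ) / (qm q m).totient * √(qm q m : ℝ) ∧
  cm (1 : DirichletCharacter ℂ q) m = (rsum m q : ℂ)

/-- KQ: bound and support of the coefficients. -/
def Stmt_KQ : Prop := ∀ q : ℕ, 0 < q → ∀ (χ χ' : DirichletCharacter ℂ q) (m : ℕ), 0 < m →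
  ‖Kq χ χ' m‖ ≤ √((χ.conductor : ℝ) * χ'.conductor * qm q m) / (q.totient * (qm q m).totient) ∧
  (Kq χ χ' m ≠ 0 →
    Squarefree (q / χ.conductor) ∧ (q / χ.conductor).Coprime χ.conductor ∧
    Squarefree (q / χ'.conductor) ∧ (q / χ'.conductor).Coprime χ'.conductor ∧
    (χ * χ').conductor ∣ qm q m)

/-- KSUM: the sum of the coefficients, uniformly in the pair of primitive characters. -/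
def Stmt_KSUM : Prop := ∃ C : ℝ, 0 < C ∧ ∀ P m : ℕ, 0 < m → ∀ f g : Ch → ℝ,
  (∀ x, 0 ≤ f x) → (∀ x, 0 ≤ g x) →
  ∑ q ∈ Ioc 0 P, ∑ χ : DirichletCharacter ℂ q, ∑ χ' : DirichletCharacter ℂ q,
      ‖Kq χ χ' m‖ * f (pr χ) * g (pr χ')
    ≤ C * ((m : ℝ) / m.totient) * (∑ x ∈ Fam P, f x) * ∑ x ∈ Fam P, g x

/-- The trivial character. -/
noncomputable def One : Ch := ⟨1, 1⟩

/-- KX: the cross terms of the principal and the exceptional character. -/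
def Stmt_KX : Prop := ∃ C : ℝ, 0 < C ∧ ∀ P m : ℕ, 0 < m → ∀ y ∈ Fam P, y.2 ≠ 1 →
  ∑ q ∈ Ioc 0 P, ∑ χ : DirichletCharacter ℂ q, ∑ χ' : DirichletCharacter ℂ q,
      (if (pr χ = One ∧ pr χ' = y) ∨ (pr χ = y ∧ pr χ' = One) then ‖Kq χ χ' m‖ else 0)
    ≤ C * ((m : ℝ) / m.totient) * ((y.1 : ℝ) / (y.1.totient : ℝ) ^ 2)

/-- The twisted singular series, truncated. -/
noncomputable def Bs (r P m : ℕ) : ℝ := ((r : ℝ) * rsum m r / (r.totient : ℝ) ^ 2) *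
  ∑ k ∈ (Ioc 0 (P / r)).filter (fun k => k.Coprime r),
    ((μ k : ℝ) ^ 2 / (k.totient : ℝ) ^ 2) * rsum m k

/-- K1: the coefficient of the pair of principal characters. -/
def Stmt_K1 : Prop := ∀ P m : ℕ, 0 < m →
  ∑ q ∈ Ioc 0 P, ∑ χ : DirichletCharacter ℂ q, ∑ χ' : DirichletCharacter ℂ q,
      (if pr χ = One ∧ pr χ' = One then Kq χ χ' m else 0) = (sing P m : ℂ)

/-- K2: the coefficient of the exceptional pair. -/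
def Stmt_K2 : Prop := ∀ P m : ℕ, 0 < m → ∀ y ∈ Fam P, y.2 ^ 2 = 1 →
  ‖∑ q ∈ Ioc 0 P, ∑ χ : DirichletCharacter ℂ q, ∑ χ' : DirichletCharacter ℂ q,
      (if pr χ = y ∧ pr χ' = y then Kq χ χ' m else 0)‖ = |Bs y.1 P m|

/-- SING: lower bound for the singular series and comparison with the twisted one. -/
def Stmt_SING : Prop := ∃ c C : ℝ, 0 < c ∧ 0 < C ∧ ∀ P m r : ℕ, 0 < P → 0 < m → Even m → 0 < r →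
  r ≤ P → ∃ F : ℝ, c * ((m : ℝ) / m.totient) ≤ F ∧
    |sing P m - F| ≤ C * (m.divisors.card : ℝ) / √(P : ℝ) ∧
    |Bs r P m| ≤ F + C * ((m : ℝ) / m.totient) * (m.divisors.card : ℝ) * √((r : ℝ) / P)

/-! ## Part E: the circle method -/

/-- EXP: expansion of additive into multiplicative characters. -/
def Stmt_EXP : Prop := ∀ q : ℕ, 0 < q → ∀ a n : ℕ, a.Coprime q → n.Coprime q →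
  e (n * ((a : ℝ) / q)) = (1 / (q.totient : ℂ)) *
    ∑ χ : DirichletCharacter ℂ q, tau χ⁻¹ * χ (a : ZMod q) * χ (n : ZMod q)

/-- MAJ: the major arcs in terms of primitive characters. -/
def Stmt_MAJ : Prop := ∀ (P R H : ℕ) (I₁ I₂ : Finset ℕ) (f₁ f₂ : ℕ → ℂ), 0 < R →
  (∀ n, f₁ n ≠ 0 → ∀ q, 0 < q → q ≤ P → n.Coprime q) →
  (∀ n, f₂ n ≠ 0 → ∀ q, 0 < q → q ≤ P → n.Coprime q) → ∀ m : ℕ,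
  Maj P R H I₁ I₂ f₁ f₂ m =
    ∑ q ∈ Ioc 0 P, ∑ χ : DirichletCharacter ℂ q, ∑ χ' : DirichletCharacter ℂ q,
      Kq χ χ' m * Tx R H I₁ I₂ f₁ f₂ m (pr χ) (pr χ')

/-- CIRC: mean square of the minor arc contribution. -/
def Stmt_CIRC : Prop := ∀ P R H : ℕ, 0 < P → 0 < R → (∀ q, 0 < q → q ≤ P → q ∣ R) →
  4 * H * P ^ 2 < R → ∀ I₁ I₂ : Finset ℕ, (∀ n ∈ I₁, 4 * n < R) → (∀ n ∈ I₂, 4 * n < R) →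
  ∀ (f₁ f₂ : ℕ → ℂ) (U : ℝ), 0 ≤ U →
  (∀ k ∈ range R, (∀ q a : ℕ, 0 < q → q ≤ P → a ≤ q → a.Coprime q →
      (H : ℝ) / R < |(k : ℝ) / R - (a : ℝ) / q|) →
    ‖∑ n ∈ I₁, f₁ n * e (n * ((k : ℝ) / R))‖ ≤ U) →
  ∑ m ∈ range R, ‖cv I₁ I₂ f₁ f₂ m - Maj P R H I₁ I₂ f₁ f₂ m‖ ^ 2
    ≤ U ^ 2 * ∑ n ∈ I₂, ‖f₂ n‖ ^ 2

/-- MIN: Vinogradov's bound on the minor arcs. -/
def Stmt_MIN : Prop := ∃ C : ℝ, 0 < C ∧ ∀ N P : ℕ, 2 ≤ P → P ^ 3 ≤ N → ∀ α : ℝ,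
  (∀ q : ℕ, ∀ a : ℤ, 0 < q → q ≤ P → IsCoprime a (q : ℤ) → (P : ℝ) / N < |α - a / q|) →
  ∀ K L : ℕ, K ≤ L → L ≤ N →
    ‖∑ n ∈ Ioc K L, (th n : ℂ) * e (n * α)‖ ≤ C * (N / √(P : ℝ)) * (Real.log N) ^ 4

/-- MT: the main term integrals over one arc, completed to the whole circle. -/
def Stmt_MT : Prop := ∃ C : ℝ, 0 < C ∧ ∀ R H : ℕ, 0 < H → 2 * H < R → ∀ A B A' B' : ℕ,
  4 * B < R → 4 * B' < R → ∀ g₁ g₂ : ℕ → ℝ,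
  (∀ n, A < n → 0 ≤ g₁ n ∧ g₁ n ≤ 1 ∧ g₁ (n + 1) ≤ g₁ n) →
  (∀ n, A' < n → 0 ≤ g₂ n ∧ g₂ n ≤ 1 ∧ g₂ (n + 1) ≤ g₂ n) → ∀ m ∈ range R,
  ‖(1 / (R : ℂ)) * ∑ i ∈ Icc (-(H : ℤ)) H,
      (∑ n ∈ Ioc A B, (g₁ n : ℂ) * e (n * ((i : ℝ) / R))) *
      (∑ n ∈ Ioc A' B', (g₂ n : ℂ) * e (n * ((i : ℝ) / R))) * e (-(m * ((i : ℝ) / R)))
    - cv (Ioc A B) (Ioc A' B') (fun n => (g₁ n : ℂ)) (fun n => (g₂ n : ℂ)) m‖ ≤ C * (R / H)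

/-- LOW: lower bound for the major arcs. -/
def Stmt_LOW : Prop := ∃ (ε c : ℝ) (P0 : ℕ), 0 < ε ∧ 0 < c ∧ ∀ (X P M m R H : ℕ)
  (E : Option (Ch × ℝ)), P0 ≤ P → P ^ 10 ≤ X → 0 < R → (H : ℝ) / R ≤ P / X →
  (P : ℝ) / X ≤ 2 * H / R → X ≤ M → M < m → m ≤ M + X / 8 → Even m → 4 * (M + X) < R →
  (m.divisors.card : ℝ) ≤ (P : ℝ) ^ (1 / 8 : ℝ) →
  (∀ y δ, E = some (y, δ) →
    Exc P y δ ∧ y.1 ^ 4 ≤ P ∧ 1 / ε ≤ (y.1 : ℝ) ∧ (y.1 : ℝ) ^ (-(1 / 8) : ℝ) ≤ δ) →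
  ∑ x ∈ Fam P, Wn R H (Ioc (X / 4) (X / 2))
    (fun n => (th n : ℂ) * x.2 (n : ZMod x.1) - mt E x n) ≤ ε * lam E X * √(X : ℝ) →
  ∑ x ∈ Fam P, Wn R H (Ioc (M - X / 2) M)
    (fun n => (th n : ℂ) * x.2 (n : ZMod x.1) - mt E x n) ≤ ε * lam E X * √(X : ℝ) →
  c * lam E X * X ≤ (Maj P R H (Ioc (X / 4) (X / 2)) (Ioc (M - X / 2) M)
    (fun n => (th n : ℂ)) (fun n => (th n : ℂ)) m).re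

/-- WIN: the exceptional set in a window. -/
def Stmt_WIN : Prop := ∃ δ : ℝ, 0 < δ ∧ ∀ ε : ℝ, 0 < ε → ∃ X0 : ℕ, ∀ X M : ℕ, X0 ≤ X → X ≤ M →
  (M : ℝ) ≤ X * (Real.log X) ^ 2 →
  (((Ioc M (M + X / 8)).filter (fun m => Even m ∧
    ∑ a ∈ Ioc (X / 4) (X / 2), th a * th (m - a) < (X : ℝ) ^ (1 - ε))).card : ℝ)
      ≤ (X : ℝ) ^ (1 - δ)

open Pool.Agent.Work.MP_484fb8_nt in
/-- FINAL: power saving exceptional set for the primorial Goldbach problem. -/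
def Stmt_FINAL : Prop := ∃ δ : ℝ, 0 < δ ∧ ∀ ε : ℝ, 0 < ε → ∃ C c : ℝ, 0 < c ∧
  ∀ n : ℕ, 1 ≤ n →
  (#{m ∈ evensIn (n + 1) |
      ¬ ((∃ p ∈ primesIn n, ∃ q ∈ primesIn n ∪ primesIn (n + 1), m = p + q) ∧
        c * (prml n : ℝ) ^ (1 - ε) ≤ primorialReps n m)} : ℝ)
    ≤ C * (#(evensIn (n + 1)) : ℝ) ^ (1 - δ)

end Pool.Agent.PS
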