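import Mathlib
import Pool.Agent.Work.PS.Interface

/-!
# Block EXP (helper51): additive characters in terms of multiplicative characters
-/

set_option autoImplicit false

namespace Pool.Agent.PS

open Finset ArithmeticFunction
open Pool.Agent.Circle (e)

/-- orthogonality in the form used here -/
theorem sum_inv_mul_char {q : ℕ} [NeZero q] {a : ZMod q} (ha : IsUnit a) (b : ZMod q) :
    ∑ χ : DirichletCharacter ℂ q, χ⁻¹ b * χ a = if a = b then (q.totient : ℂ) else 0 := by
  by_cases hb : IsUnit b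
  · have h1 := DirichletCharacter.sum_char_inv_mul_char_eq ℂ hb a
    have h2 : ∀ χ : DirichletCharacter ℂ q, χ⁻¹ b * χ a = χ b⁻¹ * χ a := by
      intro χ
      rw [MulChar.inv_apply]
      congr 2
      obtain ⟨u, rfl⟩ := hb
      rw [Ring.inverse_unit, ← ZMod.inv_coe_unit]
    rw [Finset.sum_congr rfl fun χ _ => h2 χ, h1]
    by_cases h : a = b
    · rw [if_pos h, if_pos h.symm]
    · rw [if_neg h, if_neg fun h' => h h'.symm]
  · have h2 : ∀ χ : DirichletCharacter ℂ q, χ⁻¹ b * χ a = 0 := by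
      intro χ
      rw [MulChar.map_nonunit _ hb, zero_mul]
    rw [Finset.sum_congr rfl fun χ _ => h2 χ, Finset.sum_const_zero, if_neg]
    rintro rfl
    exact hb ha

theorem stmt_EXP : Stmt_EXP := by
  intro q hq a n ha hn
  haveI : NeZero q := ⟨hq.ne'⟩
  have hq0 : (q : ℝ) ≠ 0 := by exact_mod_cast hq.ne'
  have hφ : (q.totient : ℂ) ≠ 0 := by exact_mod_cast (Nat.totient_pos.2 hq).ne'
  have hunit : IsUnit ((a : ZMod q) * (n : ZMod q)) := by
    have := (ZMod.isUnit_iff_coprime (a * n) q).2 (Nat.Coprime.mul_left ha hn)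
    rwa [Nat.cast_mul] at this
  have h1 : ∑ χ : DirichletCharacter ℂ q, tau χ⁻¹ * χ (a : ZMod q) * χ (n : ZMod q)
      = ∑ b ∈ range q, e ((b : ℝ) / q) *
          ∑ χ : DirichletCharacter ℂ q, χ⁻¹ (b : ZMod q) * χ ((a : ZMod q) * (n : ZMod q)) := by
    unfold tau
    simp only [Finset.mul_sum, Finset.sum_mul]
    rw [Finset.sum_comm]
    refine Finset.sum_congr rfl fun b _ => Finset.sum_congr rfl fun χ _ => ?_
    rw [map_mul]
    ring
  rw [h1]
  have h2 : ∀ b ∈ range q, e ((b : ℝ) / q) *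
      ∑ χ : DirichletCharacter ℂ q, χ⁻¹ (b : ZMod q) * χ ((a : ZMod q) * (n : ZMod q))
      = if b = (a * n) % q then e ((((a * n) % q : ℕ) : ℝ) / q) * (q.totient : ℂ) else 0 := by
    intro b hb
    rw [sum_inv_mul_char hunit]
    have hiff : ((a : ZMod q) * (n : ZMod q) = (b : ZMod q)) ↔ b = (a * n) % q := by
      rw [← Nat.cast_mul, ZMod.natCast_eq_natCast_iff', Nat.mod_eq_of_lt (Finset.mem_range.1 hb)]
      exact eq_comm
    by_cases h : b = (a * n) % q
    · rw [if_pos (hiff.2 h), if_pos h, h]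
    · rw [if_neg fun h' => h (hiff.1 h'), if_neg h, mul_zero]
  rw [Finset.sum_congr rfl h2, Finset.sum_ite_eq', if_pos (Finset.mem_range.2 (Nat.mod_lt _ hq))]
  have h3 : e (n * ((a : ℝ) / q)) = e ((((a * n) % q : ℕ) : ℝ) / q) := by
    have h0 := Nat.div_add_mod (a * n) q
    generalize hk : (a * n) / q = k at h0
    have h4 : (n : ℝ) * ((a : ℝ) / q) = (((a * n) % q : ℕ) : ℝ) / q + ((k : ℤ) : ℝ) := by
      have h5 : (a : ℝ) * n = q * k + ((a * n) % q : ℕ) := by exact_mod_cast h0.symm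
      have h6 : (n : ℝ) * ((a : ℝ) / q) = (a * n) / q := by ring
      rw [h6, h5]
      push_cast
      field_simp
      ring
    rw [h4, Pool.Agent.Circle.e_add_int]
  rw [h3]
  field_simp

end Pool.Agent.PS
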