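import Pool.Agent.Work.PS.GRW
import Pool.Agent.Work.MP_b0c12c_nt_helper6.Gauss

/-!
# PS, block FB: the data for `L(s, χ)`
-/

set_option autoImplicit false

namespace Pool.Agent.PS

open Finset Metric DirichletCharacter Complex Filter
open Pool.Agent.Work.MP_b0c12c_nt_helper70
open scoped Classical Topology ArithmeticFunction.vonMangoldt

/-- The logarithmic derivative of `Le χ` in `re s > 1`. -/
theorem Le_ld {q : ℕ} [NeZero q] (χ : DirichletCharacter ℂ q) {s : ℂ} (hs : 1 < s.re) (ex : ℝ)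
    (he1 : χ = 1 → ex = 1) (he0 : χ ≠ 1 → ex = 0) :
    -(deriv (Le χ) s / Le χ s) = LSeries (fun n => (ArithmeticFunction.vonMangoldt n : ℂ) *
      χ (n : ZMod q)) s - (ex : ℂ) / (s - 1) := by
  have h1 := Pool.Agent.Work.MP_b0c12c_nt_helper6.logDeriv_eq χ hs
  have h2 : Pool.Agent.Work.MP_b0c12c_nt_helper6.cf χ =
      fun n : ℕ => (ArithmeticFunction.vonMangoldt n : ℂ) * χ (n : ZMod q) := by
    funext n
    unfold Pool.Agent.Work.MP_b0c12c_nt_helper6.cf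
    rw [Pi.mul_apply]
    ring
  rw [h2] at h1
  rw [← h1]
  by_cases hχ : χ = 1
  · subst hχ
    have hs1 : s ≠ 1 := by
      intro h
      rw [h, one_re] at hs
      exact lt_irrefl _ hs
    have hs1' : s - 1 ≠ 0 := sub_ne_zero.2 hs1
    have hL : LFunction (1 : DirichletCharacter ℂ q) s ≠ 0 :=
      LFunction_ne_zero_of_one_le_re _ (Or.inr hs1) hs.le
    rw [Le_one_apply q hs1, Le_one, deriv_LFunctionTrivChar₁_apply_of_ne_one q hs1, he1 rfl]
    have e : LFunctionTrivChar q = LFunction (1 : DirichletCharacter ℂ q) := rfl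
    rw [e]
    push_cast
    field_simp
    ring
  · rw [Le_of_ne hχ, he0 hχ]
    push_cast
    ring

/-- The zeros of `Le 1` with positive real part are bounded away from `1`. -/
theorem exists_c6 : ∃ c : ℝ, 0 < c ∧ ∀ (q : ℕ) (χ : DirichletCharacter ℂ q), 0 < q → χ = 1 →
    ∀ ρ : ℂ, 0 < ρ.re → Le χ ρ = 0 → c ≤ ‖ρ - 1‖ := by
  obtain ⟨c, hc, h⟩ := Metric.eventually_nhds_iff.1 riemannZeta₁_ne_zero_of_near_one
  refine ⟨c, hc, ?_⟩
  intro q χ hq hχ ρ hρ h0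
  have : NeZero q := ⟨hq.ne'⟩
  by_contra h1
  rw [hχ, Le_one_eq, mul_eq_zero] at h0
  rcases h0 with h0 | h0
  · rw [Finset.prod_eq_zero_iff] at h0
    obtain ⟨p, hp, h2⟩ := h0
    have hp1 := (Nat.prime_of_mem_primeFactors hp).one_lt
    have h3 : (p : ℂ) ^ (-ρ) = 1 := (sub_eq_zero.1 h2).symm
    have h4 := congrArg norm h3
    rw [norm_natCast_cpow_of_pos (by omega), neg_re, norm_one] at h4
    have h5 : (p : ℝ) ^ (-ρ.re) < 1 :=
      Real.rpow_lt_one_of_one_lt_of_neg (by exact_mod_cast hp1) (by linarith)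
    linarith
  · exact h (by rw [dist_eq_norm]; exact not_le.1 h1) h0

/-- The box of the zeros in `zl`. -/
def Box (Z : ℕ) (ρ : ℂ) : Prop := 9 / 10 ≤ ρ.re ∧ |ρ.im| ≤ Z

/-- The remaining zeros in the big disc. -/
noncomputable def zr (x : Ch) (Z : ℕ) : List ℂ := (zb x Z).filter fun ρ => ¬ Box Z ρ

theorem zl_eq (x : Ch) (Z : ℕ) : zl x Z = (zb x Z).filter fun ρ => Box Z ρ := by
  unfold zl
  exact List.filter_congr fun ρ _ => decide_eq_decide.2 Iff.rfl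

theorem mem_zr {x : Ch} {Z : ℕ} {ρ : ℂ} : ρ ∈ zr x Z ↔ ρ ∈ zb x Z ∧ ¬ Box Z ρ := by
  unfold zr
  rw [List.mem_filter, decide_eq_true_eq]

theorem mem_zl {x : Ch} {Z : ℕ} {ρ : ℂ} : ρ ∈ zl x Z ↔ ρ ∈ zb x Z ∧ Box Z ρ := by
  rw [zl_eq, List.mem_filter, decide_eq_true_eq]

/-- The cofactor of the zeros in the box. -/
noncomputable def gz (x : Ch) (Z : ℕ) (s : ℂ) : ℂ := PP (zr x Z) s * gb x Z s

theorem gz_diff {Z : ℕ} {x : Ch} (hx : x.1 ≠ 0) : Differentiable ℂ (gz x Z) :=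
  (PP_differentiable _).mul (stmt_ZSPEC Z x hx).1.diff

/-- The factorisation through the list `zl`. -/
theorem zl_fac {Z : ℕ} {x : Ch} (hx : x.1 ≠ 0) (s : ℂ) :
    Le x.2 s = PP (zl x Z) s * gz x Z s := by
  rw [(stmt_ZSPEC Z x hx).1.fac s, PP_filter (zb x Z) (fun ρ => Box Z ρ) s, zl_eq]
  unfold gz zr
  ring

theorem stmt_FB : Stmt_FB := by
  obtain ⟨C, hC1, hG⟩ := stmt_GRW
  obtain ⟨c6, hc6, hz⟩ := exists_c6
  refine ⟨max C 6, c6, le_trans hC1 (le_max_left _ _), hc6, ?_⟩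
  intro Z hZ x hx
  have hZ6 : (6 : ℝ) ≤ Z := le_trans (le_max_right _ _) hZ
  have hZ3 : 3 ≤ Z := by
    have : (3 : ℝ) ≤ Z := by linarith
    exact_mod_cast this
  have hZ1 : (1 : ℝ) ≤ Z := by linarith
  have hZ0 : (0 : ℝ) < Z := by linarith
  have hx' := hx
  unfold Fam at hx'
  rw [Finset.mem_sigma, mem_Ioc] at hx'
  obtain ⟨⟨hx0, hxZ⟩, -⟩ := hx'
  have : NeZero x.1 := ⟨hx0.ne'⟩
  have hxZ2 : x.1 ≤ Z ^ 2 := hxZ.trans (Nat.le_self_pow two_ne_zero Z)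
  obtain ⟨-, -, hzl⟩ := stmt_ZSPEC Z x hx0.ne'
  have hCC : (Z : ℝ) ^ C ≤ (Z : ℝ) ^ (max C 6) :=
    Real.rpow_le_rpow_of_exponent_le hZ1 (le_max_left _ _)
  have hlog : 1 ≤ Real.log Z := by
    rw [Real.le_log_iff_exp_le hZ0]
    have := Real.exp_one_lt_d9
    linarith
  have hlogZ : Real.log Z ≤ Z := by
    have := Real.log_le_sub_one_of_pos hZ0
    linarith
  refine ⟨Le_differentiable _, ?_, fun ρ hρ => (hzl ρ hρ).2.2.2, fun ρ hρ => (hzl ρ hρ).2.2.1.le,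
    ?_, ?_, ?_, ?_, ?_, ?_⟩
  · exact ⟨gz x Z, gz_diff hx0.ne', zl_fac hx0.ne'⟩
  · intro s h1 h2 h3
    exact ((hG Z hZ3 x.1 x.2 hx0 hxZ2 s (by linarith) (by linarith) (by linarith)).1).trans hCC
  · intro s h1 h2 h3
    have h0 : 0 < 1 / Real.log Z := by positivity
    have h4 := (hG Z hZ3 x.1 x.2 hx0 hxZ2 s (by linarith) (by linarith) (by linarith)).2
      (by linarith)
    refine le_trans ?_ h4
    have h5 : 1 / (Z : ℝ) ≤ s.re - 1 := by
      have : 1 / (Z : ℝ) ≤ 1 / Real.log Z := one_div_le_one_div_of_le (by linarith) hlogZ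
      linarith
    have h6 : (Z : ℝ) ^ (-(max C 6)) ≤ (Z : ℝ) ^ (-(6 : ℝ)) :=
      Real.rpow_le_rpow_of_exponent_le hZ1 (neg_le_neg (le_max_right _ _))
    have h7 : (Z : ℝ) ^ (-(6 : ℝ)) = 1 / (Z : ℝ) ^ 6 := by
      rw [Real.rpow_neg hZ0.le, one_div]
      congr 1
      rw [← Real.rpow_natCast]
      norm_num
    rw [h7] at h6
    refine h6.trans ?_
    have h8 : (1 / (Z : ℝ)) ^ 2 ≤ (s.re - 1) ^ 2 := pow_le_pow_left₀ (by positivity) h5 2
    have h9 : 1 / (Z : ℝ) ^ 6 ≤ (1 / (Z : ℝ)) ^ 2 / 32 := by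
      rw [div_pow, one_pow, div_div]
      apply one_div_le_one_div_of_le (by positivity)
      have h10 : (6 : ℝ) ^ 4 ≤ (Z : ℝ) ^ 4 := pow_le_pow_left₀ (by norm_num) hZ6 4
      have h11 : (Z : ℝ) ^ 6 = (Z : ℝ) ^ 2 * (Z : ℝ) ^ 4 := by ring
      rw [h11]
      exact mul_le_mul_of_nonneg_left (le_trans (by norm_num) h10) (by positivity)
    linarith
  · intro s _ h0
    rw [add_zero]
    by_contra h1
    exact Le_ne_zero x.2 (not_le.1 h1).le h0
  · intro s hs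
    rw [add_zero] at hs
    simp only [mul_one]
    exact Le_ld x.2 hs _ (fun h => if_pos h) (fun h => if_neg h)
  · by_cases h : x.2 = 1
    · right
      rw [if_pos h]
    · left
      rw [if_neg h]
  · intro h ρ hρ
    obtain ⟨h1, h2, -, -⟩ := hzl ρ hρ
    have h3 : x.2 = 1 := by
      by_contra h4
      rw [if_neg h4] at h
      norm_num at h
    exact hz x.1 x.2 hx0 h3 ρ (by linarith) h1

end Pool.Agent.PS
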