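import Pool.Agent.Work.PS.ZCNT
import Pool.Agent.Work.SW.SiegelB

/-!
# PS, block FX: the data twisted by the exceptional character
-/

set_option autoImplicit false

namespace Pool.Agent.PS

open Finset Metric DirichletCharacter Complex Filter
open Pool.Agent.BV (PC)
open Pool.Agent.SW (prodChar prodChar_apply)
open Pool.Agent.Work.MP_b0c12c_nt_helper70
open scoped Classical Topology

/-! ### characters -/

theorem prim_eq {x y : Ch} (hx0 : x.1 ≠ 0) (hy0 : y.1 ≠ 0) (hx : x.2.IsPrimitive)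
    (hy : y.2.IsPrimitive) (h : changeLevel (dvd_mul_right x.1 y.1) x.2 =
      changeLevel (dvd_mul_left y.1 x.1) y.2) : x = y := by
  have : NeZero (x.1 * y.1) := ⟨Nat.mul_ne_zero hx0 hy0⟩
  have h1 := conductor_changeLevel (χ := x.2) (dvd_mul_right x.1 y.1)
  have h2 := conductor_changeLevel (χ := y.2) (dvd_mul_left y.1 x.1)
  rw [h, h2] at h1
  have h3 : x.1 = y.1 := by
    have a := (isPrimitive_def _).1 hx
    have b := (isPrimitive_def _).1 hy
    rw [a, b] at h1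
    exact h1.symm
  obtain ⟨q, χ⟩ := x
  obtain ⟨q', χ'⟩ := y
  simp only at h3
  subst h3
  have : NeZero (q * q) := ⟨Nat.mul_ne_zero hx0 hy0⟩
  have h4 : χ = χ' := changeLevel_injective (R := ℂ) (dvd_mul_right q q) h
  rw [h4]

theorem Fam_prim {Z : ℕ} {x : Ch} (hx : x ∈ Fam Z) : x.2.IsPrimitive := by
  unfold Fam at hx
  rw [Finset.mem_sigma] at hx
  have := hx.2
  unfold PC at this
  rw [Finset.mem_filter] at this
  exact this.2

theorem prodChar_ne_one {x y : Ch} (hx0 : x.1 ≠ 0) (hy0 : y.1 ≠ 0) (hx : x.2.IsPrimitive)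
    (hy : y.2.IsPrimitive) (hxy : x ≠ y) (hy2 : y.2 ^ 2 = 1) : prodChar x.2 y.2 ≠ 1 := by
  intro h
  apply hxy
  apply prim_eq hx0 hy0 hx hy
  unfold prodChar at h
  have h1 : (changeLevel (dvd_mul_left y.1 x.1) y.2) ^ 2 = 1 := by
    rw [← map_pow, hy2, map_one]
  calc changeLevel (dvd_mul_right x.1 y.1) x.2
      = changeLevel (dvd_mul_right x.1 y.1) x.2 * (changeLevel (dvd_mul_left y.1 x.1) y.2) ^ 2 := by
        rw [h1, mul_one]
    _ = (changeLevel (dvd_mul_right x.1 y.1) x.2 * changeLevel (dvd_mul_left y.1 x.1) y.2) *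
          changeLevel (dvd_mul_left y.1 x.1) y.2 := by
        rw [sq, mul_assoc]
    _ = changeLevel (dvd_mul_left y.1 x.1) y.2 := by rw [h, one_mul]

/-- The principal primitive character is identically one. -/
theorem apply_eq_one_of_prim {x : Ch} (hx0 : x.1 ≠ 0) (hx : x.2.IsPrimitive) (h1 : x.2 = 1)
    (n : ℕ) : x.2 (n : ZMod x.1) = 1 := by
  have : NeZero x.1 := ⟨hx0⟩
  have h2 : x.1 = 1 := by
    have a := (isPrimitive_def _).1 hx
    rw [← a, h1]
    exact conductor_one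
  obtain ⟨q, χ⟩ := x
  simp only at h2 h1 ⊢
  subst h2
  rw [h1]
  exact MulChar.one_apply (isUnit_of_subsingleton _)

/-! ### Dirichlet series -/

theorem term_shift (f : ℕ → ℂ) (s : ℂ) (a : ℝ) (n : ℕ) :
    LSeries.term (fun n => f n * (((n : ℝ) ^ a : ℝ) : ℂ)) s n = LSeries.term f (s - a) n := by
  rcases Nat.eq_zero_or_pos n with h | h
  · rw [h, LSeries.term_zero, LSeries.term_zero]
  · rw [LSeries.term_of_ne_zero h.ne', LSeries.term_of_ne_zero h.ne']
    have hn : (n : ℂ) ≠ 0 := by exact_mod_cast h.ne'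
    rw [Complex.cpow_sub _ _ hn, Complex.ofReal_cpow (Nat.cast_nonneg n), Complex.ofReal_natCast]
    have h1 : (n : ℂ) ^ (a : ℂ) ≠ 0 := by
      rw [Ne, Complex.cpow_eq_zero_iff]
      exact fun h2 => hn h2.1
    have h2 : (n : ℂ) ^ s ≠ 0 := by
      rw [Ne, Complex.cpow_eq_zero_iff]
      exact fun h2 => hn h2.1
    field_simp

theorem LSeries_shift (f : ℕ → ℂ) (s : ℂ) (a : ℝ) :
    LSeries (fun n => f n * (((n : ℝ) ^ a : ℝ) : ℂ)) s = LSeries f (s - a) := by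
  unfold LSeries
  exact tsum_congr fun n => term_shift f s a n

theorem LSeriesSummable_shift {f : ℕ → ℂ} {s : ℂ} {a : ℝ} (h : LSeriesSummable f (s - a)) :
    LSeriesSummable (fun n => f n * (((n : ℝ) ^ a : ℝ) : ℂ)) s := by
  unfold LSeriesSummable at h ⊢
  exact h.congr fun n => (term_shift f s a n).symm

theorem summable_lam {q : ℕ} (χ : DirichletCharacter ℂ q) {s : ℂ} (hs : 1 < s.re) :
    LSeriesSummable (fun n => (ArithmeticFunction.vonMangoldt n : ℂ) * χ (n : ZMod q)) s := by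
  have e : (fun n : ℕ => (ArithmeticFunction.vonMangoldt n : ℂ) * χ (n : ZMod q)) =
      (fun n : ℕ => χ (n : ZMod q)) * (fun n : ℕ => (ArithmeticFunction.vonMangoldt n : ℂ)) := by
    funext n
    rw [Pi.mul_apply]
    ring
  rw [e]
  exact LSeriesSummable_twist_vonMangoldt χ hs

theorem neg_ld_mul {A B : ℂ → ℂ} (hA : Differentiable ℂ A) (hB : Differentiable ℂ B) {s : ℂ}
    (h1 : A s ≠ 0) (h2 : B s ≠ 0) : -(deriv (fun s => A s * B s) s / (A s * B s)) =
      -(deriv A s / A s) + -(deriv B s / B s) := by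
  have h3 : deriv (fun s => A s * B s) s = deriv A s * B s + A s * deriv B s :=
    ((hA s).hasDerivAt.mul (hB s).hasDerivAt).deriv
  rw [h3]
  field_simp
  ring

/-! ### the cofactor of the exceptional zero -/

/-- `Le y.2` divided by `s - (1 - δ)`. -/
noncomputable def Hy (Z : ℕ) (y : Ch) (δ : ℝ) (s : ℂ) : ℂ := PP (zx Z y δ y) s * gz y Z s

theorem Exc.ne_zero {Z : ℕ} {y : Ch} {δ : ℝ} (h : Exc Z y δ) : y.1 ≠ 0 := (mem_Fam h.mem).1.ne'

theorem Hy_diff {Z : ℕ} {y : Ch} {δ : ℝ} (h : Exc Z y δ) : Differentiable ℂ (Hy Z y δ) :=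
  (PP_differentiable _).mul (gz_diff h.ne_zero)

theorem Exc.mem_zl {Z : ℕ} {y : Ch} {δ : ℝ} (h : Exc Z y δ) (hδ : δ ≤ 1 / 10) :
    ((1 - δ : ℝ) : ℂ) ∈ zl y Z := by
  have h0 := h.pos
  rw [PS.mem_zl]
  constructor
  · have h1 := (stmt_ZSPEC Z y h.ne_zero).1
    have h2 := h1.fac ((1 - δ : ℝ) : ℂ)
    rw [h.zero] at h2
    have h3 : gb y Z ((1 - δ : ℝ) : ℂ) ≠ 0 := by
      apply gb_ne h.ne_zero
      rw [Complex.norm_real, Real.norm_eq_abs, abs_of_nonneg (by linarith)]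
      have : (0 : ℝ) ≤ Z := Nat.cast_nonneg Z
      linarith
    have h4 := (mul_eq_zero.1 h2.symm).resolve_right h3
    exact PP_eq_zero_iff.1 h4
  · refine ⟨?_, ?_⟩
    · rw [Complex.ofReal_re]
      linarith
    · rw [Complex.ofReal_im, abs_zero]
      exact Nat.cast_nonneg Z

theorem Hy_fac {Z : ℕ} {y : Ch} {δ : ℝ} (h : Exc Z y δ) (hδ : δ ≤ 1 / 10) (s : ℂ) :
    Le y.2 s = (s - ((1 - δ : ℝ) : ℂ)) * Hy Z y δ s := by
  unfold Hy zx
  rw [if_pos rfl, zl_fac (Z := Z) h.ne_zero s, PP_perm (List.perm_cons_erase (h.mem_zl hδ)) s,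
    PP_cons]
  ring

theorem Hy_ne_zero {Z : ℕ} {y : Ch} {δ : ℝ} (h : Exc Z y δ) (hδ : δ ≤ 1 / 10) {s : ℂ}
    (hs : 1 ≤ s.re) : Hy Z y δ s ≠ 0 := by
  intro h0
  have h1 := Hy_fac h hδ s
  rw [h0, mul_zero] at h1
  exact Le_ne_zero y.2 hs h1

theorem Hy_ld {Z : ℕ} {y : Ch} {δ : ℝ} (h : Exc Z y δ) (hδ : δ ≤ 1 / 10) {s : ℂ}
    (hs : 1 < s.re) : -(deriv (Hy Z y δ) s / Hy Z y δ s) =
      LSeries (fun n => (ArithmeticFunction.vonMangoldt n : ℂ) * y.2 (n : ZMod y.1)) s +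
        1 / (s - ((1 - δ : ℝ) : ℂ)) := by
  have : NeZero y.1 := ⟨h.ne_zero⟩
  have h0 := h.pos
  have h1 := Le_ld y.2 hs 0 (fun h2 => absurd h2 h.ne) (fun _ => rfl)
  have h2 : s - ((1 - δ : ℝ) : ℂ) ≠ 0 := by
    intro h3
    have h4 := congrArg Complex.re h3
    rw [sub_re, ofReal_re, zero_re] at h4
    linarith
  have h3 := neg_ld_mul (A := fun s : ℂ => s - ((1 - δ : ℝ) : ℂ)) (B := Hy Z y δ)
    (differentiable_id.sub_const _) (Hy_diff h) (s := s) h2 (Hy_ne_zero h hδ hs.le)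
  have h4 : (fun s : ℂ => (s - ((1 - δ : ℝ) : ℂ)) * Hy Z y δ s) = Le y.2 :=
    funext fun s => (Hy_fac h hδ s).symm
  have h5 : deriv (fun s : ℂ => s - ((1 - δ : ℝ) : ℂ)) s = 1 := by
    rw [deriv_sub_const, deriv_id'']
  rw [h4, ← Hy_fac h hδ s, h5, h1] at h3
  push_cast at h3 ⊢
  linear_combination -h3

theorem Hy_up {C : ℝ} {Z : ℕ} {y : Ch} {δ : ℝ} (h : Exc Z y δ) (hδ : δ ≤ 1 / 10)
    (hG : ∀ s : ℂ, 1 / 20 ≤ s.re → s.re ≤ 4 → |s.im| ≤ Z + 20 → ‖Le y.2 s‖ ≤ (Z : ℝ) ^ C)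
    {s : ℂ} (h1 : 1 / 20 ≤ s.re) (h2 : s.re ≤ 4) (h3 : |s.im| ≤ Z + 20) :
    ‖Hy Z y δ s‖ ≤ 2 * (Z : ℝ) ^ C := by
  have h0 := h.pos
  set a : ℂ := ((1 - δ : ℝ) : ℂ) with ha
  have hZ0 : (0 : ℝ) ≤ Z := Nat.cast_nonneg Z
  have key : ∀ z : ℂ, 1 / 20 ≤ z.re → z.re ≤ 4 → |z.im| ≤ Z + 20 → 1 / 2 ≤ ‖z - a‖ →
      ‖Hy Z y δ z‖ ≤ 2 * (Z : ℝ) ^ C := by
    intro z b1 b2 b3 b4
    have b5 := hG z b1 b2 b3
    rw [Hy_fac h hδ z, norm_mul] at b5
    have b6 : 0 ≤ ‖Hy Z y δ z‖ := norm_nonneg _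
    nlinarith
  by_cases h4 : 1 / 2 ≤ ‖s - a‖
  · exact key s h1 h2 h3 h4
  · refine Complex.norm_le_of_forall_mem_frontier_norm_le (U := ball a (1 / 2)) isBounded_ball
      (Hy_diff h).diffContOnCl (fun z hz => ?_) (subset_closure ?_)
    · rw [frontier_ball a (by norm_num), mem_sphere, dist_eq_norm] at hz
      have c1 : |z.re - (1 - δ)| ≤ 1 / 2 := by
        have := Complex.abs_re_le_norm (z - a)
        rwa [hz, sub_re, ha, ofReal_re] at this
      have c2 : |z.im| ≤ 1 / 2 := by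
        have := Complex.abs_im_le_norm (z - a)
        rwa [hz, sub_im, ha, ofReal_im, sub_zero] at this
      have c3 := abs_le.1 c1
      exact key z (by linarith) (by linarith) (by linarith) hz.ge
    · rw [mem_ball, dist_eq_norm]
      exact not_le.1 h4

/-- The crude lower bound. -/
theorem low_bound {Z : ℕ} (hZ : (6 : ℝ) ≤ Z) {v X : ℝ} (hv : 1 / (2 * Real.log Z) ≤ v)
    (hX : v ^ 2 / 32 ≤ X) : (Z : ℝ) ^ (-(6 : ℝ)) ≤ X := by
  have hZ0 : (0 : ℝ) < Z := by linarith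
  have hlog : 1 ≤ Real.log Z := by
    rw [Real.le_log_iff_exp_le hZ0]
    have := Real.exp_one_lt_d9
    linarith
  have hlogZ : Real.log Z ≤ Z := by
    have := Real.log_le_sub_one_of_pos hZ0
    linarith
  refine le_trans ?_ hX
  have h5 : 1 / (2 * (Z : ℝ)) ≤ v :=
    (one_div_le_one_div_of_le (by linarith) (by linarith)).trans hv
  have h7 : (Z : ℝ) ^ (-(6 : ℝ)) = 1 / (Z : ℝ) ^ 6 := by
    rw [Real.rpow_neg hZ0.le, one_div]
    congr 1
    rw [← Real.rpow_natCast]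
    norm_num
  rw [h7]
  have h8 : (1 / (2 * (Z : ℝ))) ^ 2 ≤ v ^ 2 := pow_le_pow_left₀ (by positivity) h5 2
  have h9 : 1 / (Z : ℝ) ^ 6 ≤ (1 / (2 * (Z : ℝ))) ^ 2 / 32 := by
    rw [div_pow, one_pow, div_div]
    apply one_div_le_one_div_of_le (by positivity)
    have h10 : (6 : ℝ) ^ 4 ≤ (Z : ℝ) ^ 4 := pow_le_pow_left₀ (by norm_num) hZ 4
    have h11 : (Z : ℝ) ^ 6 = (Z : ℝ) ^ 2 * (Z : ℝ) ^ 4 := by ring
    rw [h11, mul_pow, mul_comm ((2 : ℝ) ^ 2), mul_assoc]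
    exact mul_le_mul_of_nonneg_left (le_trans (by norm_num) h10) (by positivity)
  linarith

theorem stmt_FX : Stmt_FX := by
  obtain ⟨C, hC1, hG⟩ := stmt_GRW
  refine ⟨2 * C + 20, by linarith, ?_⟩
  intro Z hZ y δ hE hδ
  have hZ6 : (6 : ℝ) ≤ Z := by linarith
  have hZ3 : 3 ≤ Z := by
    have : (3 : ℝ) ≤ Z := by linarith
    exact_mod_cast this
  have hZ1 : (1 : ℝ) ≤ Z := by linarith
  have hZ0 : (0 : ℝ) < Z := by linarith
  have hδ0 := hE.pos
  have hlog : 1 ≤ Real.log Z := by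
    rw [Real.le_log_iff_exp_le hZ0]
    have := Real.exp_one_lt_d9
    linarith
  have hlogZ : Real.log Z ≤ Z := by
    have := Real.log_le_sub_one_of_pos hZ0
    linarith
  have hδ1 : δ ≤ 1 / 100 := by
    refine hδ.trans ?_
    apply one_div_le_one_div_of_le (by norm_num)
    linarith
  have hδ10 : δ ≤ 1 / 10 := by linarith
  have hil : 1 / Real.log Z ≤ 1 := by
    rw [div_le_one (by linarith)]
    exact hlog
  have hδl : δ ≤ 1 / (2 * Real.log Z) := by
    refine hδ.trans (one_div_le_one_div_of_le (by linarith) (by linarith))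
  have hhalf : 1 / (2 * Real.log Z) = (1 / Real.log Z) / 2 := by
    rw [div_div, mul_comm]
  have hhalf0 : 0 < 1 / (2 * Real.log Z) := by positivity
  obtain ⟨hy0, hyZ⟩ := mem_Fam hE.mem
  have : NeZero y.1 := ⟨hy0.ne'⟩
  have hyZ2 : y.1 ≤ Z ^ 2 := hyZ.trans (Nat.le_self_pow two_ne_zero Z)
  have hZC0 : 0 ≤ (Z : ℝ) ^ C := Real.rpow_nonneg hZ0.le _
  -- power bounds
  have hup : ∀ a b : ℝ, 0 ≤ a → 0 ≤ b → a ≤ (Z : ℝ) ^ C → b ≤ 2 * (Z : ℝ) ^ C →
      a * b ≤ (Z : ℝ) ^ (2 * C + 20) := by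
    intro a b ha hb h1 h2
    calc a * b ≤ (Z : ℝ) ^ C * (2 * (Z : ℝ) ^ C) := mul_le_mul h1 h2 hb hZC0
      _ = 2 * (Z : ℝ) ^ (2 * C) := by
          rw [two_mul C, Real.rpow_add hZ0]
          ring
      _ ≤ (Z : ℝ) ^ (20 : ℝ) * (Z : ℝ) ^ (2 * C) := by
          refine mul_le_mul_of_nonneg_right ?_ (Real.rpow_nonneg hZ0.le _)
          calc (2 : ℝ) ≤ (Z : ℝ) ^ (1 : ℝ) := by rw [Real.rpow_one]; linarith
            _ ≤ (Z : ℝ) ^ (20 : ℝ) := Real.rpow_le_rpow_of_exponent_le hZ1 (by norm_num)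
      _ = (Z : ℝ) ^ (2 * C + 20) := by
          rw [← Real.rpow_add hZ0]
          congr 1
          ring
  have hlow : ∀ a b : ℝ, (Z : ℝ) ^ (-(6 : ℝ)) ≤ a → (Z : ℝ) ^ (-(8 : ℝ)) ≤ b →
      (Z : ℝ) ^ (-(2 * C + 20)) ≤ a * b := by
    intro a b h1 h2
    calc (Z : ℝ) ^ (-(2 * C + 20)) ≤ (Z : ℝ) ^ (-(6 : ℝ) + -(8 : ℝ)) :=
          Real.rpow_le_rpow_of_exponent_le hZ1 (by linarith)
      _ = (Z : ℝ) ^ (-(6 : ℝ)) * (Z : ℝ) ^ (-(8 : ℝ)) := Real.rpow_add hZ0 _ _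
      _ ≤ a * b := mul_le_mul h1 h2 (Real.rpow_nonneg hZ0.le _)
          ((Real.rpow_nonneg hZ0.le _).trans h1)
  have h68 : (Z : ℝ) ^ (-(8 : ℝ)) ≤ (Z : ℝ) ^ (-(6 : ℝ)) :=
    Real.rpow_le_rpow_of_exponent_le hZ1 (by norm_num)
  have hLlow : ∀ (q : ℕ) (χ : DirichletCharacter ℂ q), 0 < q → q ≤ Z ^ 2 → ∀ s : ℂ,
      1 / (2 * Real.log Z) ≤ s.re - 1 → s.re ≤ 4 → |s.im| ≤ Z + 20 →
      (Z : ℝ) ^ (-(6 : ℝ)) ≤ ‖Le χ s‖ := by
    intro q χ hq hqZ s h1 h2 h3
    exact low_bound hZ6 h1 ((hG Z hZ3 q χ hq hqZ s (by linarith) h2 h3).2 (by linarith))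
  have hHup : ∀ s : ℂ, 1 / 20 ≤ s.re → s.re ≤ 4 → |s.im| ≤ Z + 20 →
      ‖Hy Z y δ s‖ ≤ 2 * (Z : ℝ) ^ C := fun s h1 h2 h3 =>
    Hy_up hE hδ10 (fun z b1 b2 b3 => (hG Z hZ3 y.1 y.2 hy0 hyZ2 z b1 b2 b3).1) h1 h2 h3
  have hHlow : ∀ s : ℂ, 1 / (2 * Real.log Z) ≤ s.re - 1 → s.re ≤ 4 → |s.im| ≤ Z + 20 →
      (Z : ℝ) ^ (-(8 : ℝ)) ≤ ‖Hy Z y δ s‖ := by
    intro s h1 h2 h3
    have h4 := hLlow y.1 y.2 hy0 hyZ2 s h1 h2 h3
    rw [Hy_fac hE hδ10 s, norm_mul] at h4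
    have h5 : ‖s - ((1 - δ : ℝ) : ℂ)‖ ≤ (Z : ℝ) ^ (2 : ℝ) := by
      have h6 := Complex.norm_le_abs_re_add_abs_im (s - ((1 - δ : ℝ) : ℂ))
      rw [sub_re, sub_im, ofReal_re, ofReal_im, sub_zero, abs_of_nonneg (by linarith)] at h6
      rw [Real.rpow_two]
      nlinarith
    have h7 : (Z : ℝ) ^ (-(6 : ℝ)) ≤ (Z : ℝ) ^ (2 : ℝ) * ‖Hy Z y δ s‖ :=
      h4.trans (mul_le_mul_of_nonneg_right h5 (norm_nonneg _))
    have h8 : (Z : ℝ) ^ (-(6 : ℝ)) = (Z : ℝ) ^ (2 : ℝ) * (Z : ℝ) ^ (-(8 : ℝ)) := by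
      rw [← Real.rpow_add hZ0]
      norm_num
    rw [h8] at h7
    exact le_of_mul_le_mul_left h7 (Real.rpow_pos_of_pos hZ0 _)
  constructor
  · intro x hx hxy
    obtain ⟨hx0, hxZ⟩ := mem_Fam hx
    have : NeZero x.1 := ⟨hx0.ne'⟩
    have hxZ2 : x.1 ≤ Z ^ 2 := hxZ.trans (Nat.le_self_pow two_ne_zero Z)
    have hzx : zx Z y δ x = zl x Z := by
      unfold zx
      rw [if_neg hxy]
    have hzl := (stmt_ZSPEC Z x hx0.ne').2.2
    have hsre : ∀ s : ℂ, (s - (δ : ℂ)).re = s.re - δ := fun s => by rw [sub_re, ofReal_re]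
    have hsim : ∀ s : ℂ, (s - (δ : ℂ)).im = s.im := fun s => by rw [sub_im, ofReal_im, sub_zero]
    by_cases hx1 : x.2 = 1
    · -- the principal character
      refine ⟨fun s => Le x.2 s * Hy Z y δ (s - δ), ?_⟩
      have hBd : Differentiable ℂ (fun s : ℂ => Hy Z y δ (s - δ)) :=
        (Hy_diff hE).comp (differentiable_id.sub_const _)
      refine ⟨(Le_differentiable x.2).mul hBd, ?_, ?_, ?_, ?_, ?_, ?_, ?_, Or.inl rfl, ?_⟩
      · refine ⟨fun s => gz x Z s * Hy Z y δ (s - δ), (gz_diff hx0.ne').mul hBd, fun s => ?_⟩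
        rw [hzx, zl_fac (Z := Z) hx0.ne' s, mul_assoc]
      · intro ρ hρ
        rw [hzx] at hρ
        exact (hzl ρ hρ).2.2.2
      · intro ρ hρ
        rw [hzx] at hρ
        exact (hzl ρ hρ).2.2.1.le
      · intro s h1 h2 h3
        rw [norm_mul]
        refine hup _ _ (norm_nonneg _) (norm_nonneg _)
          (hG Z hZ3 x.1 x.2 hx0 hxZ2 s (by linarith) (by linarith) (by linarith)).1
          (hHup _ ?_ ?_ ?_)
        · rw [hsre]; linarith
        · rw [hsre]; linarith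
        · rw [hsim]; linarith
      · intro s h1 h2 h3
        rw [norm_mul]
        refine hlow _ _ (hLlow x.1 x.2 hx0 hxZ2 s ?_ (by linarith) (by linarith)) (hHlow _ ?_ ?_ ?_)
        · rw [hhalf]; linarith
        · rw [hsre, hhalf]; rw [hhalf] at hδl; linarith
        · rw [hsre]; linarith
        · rw [hsim]; linarith
      · intro s h1 h2
        by_contra h3
        rw [not_le] at h3
        refine mul_ne_zero (Le_ne_zero x.2 (by linarith)) (Hy_ne_zero hE hδ10 ?_) h2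
        rw [hsre]; linarith
      · intro s h1
        have hs1 : 1 < s.re := by linarith
        have hs2 : 1 < (s - (δ : ℂ)).re := by rw [hsre]; linarith
        have hB0 : Hy Z y δ (s - δ) ≠ 0 := Hy_ne_zero hE hδ10 hs2.le
        rw [neg_ld_mul (A := Le x.2) (B := fun s : ℂ => Hy Z y δ (s - δ)) (Le_differentiable x.2)
          hBd (Le_ne_zero x.2 hs1.le) hB0, deriv_comp_sub_const, Hy_ld hE hδ10 hs2,
          Le_ld x.2 hs1 1 (fun _ => rfl) (fun h => absurd hx1 h)]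
        have e1 : (fun n : ℕ => (ArithmeticFunction.vonMangoldt n : ℂ) * x.2 (n : ZMod x.1) *
            (1 + y.2 (n : ZMod y.1) * (((n : ℝ) ^ δ : ℝ) : ℂ))) =
            (fun n : ℕ => (ArithmeticFunction.vonMangoldt n : ℂ) * x.2 (n : ZMod x.1)) +
            fun n : ℕ => ((ArithmeticFunction.vonMangoldt n : ℂ) * y.2 (n : ZMod y.1)) *
              (((n : ℝ) ^ δ : ℝ) : ℂ) := by
          funext n
          rw [Pi.add_apply, apply_eq_one_of_prim hx0.ne' (Fam_prim hx) hx1 n]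
          ring
        rw [e1, LSeries_add (summable_lam x.2 hs1) (LSeriesSummable_shift (summable_lam y.2 hs2)),
          LSeries_shift]
        have e2 : s - (δ : ℂ) - ((1 - δ : ℝ) : ℂ) = s - 1 := by
          push_cast
          ring
        rw [e2]
        push_cast
        ring
      · intro h
        norm_num at h
    · -- the other characters
      set ψ := prodChar x.2 y.2 with hψ
      have hxy0 : 0 < x.1 * y.1 := Nat.mul_pos hx0 hy0
      have : NeZero (x.1 * y.1) := ⟨hxy0.ne'⟩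
      have hxyZ : x.1 * y.1 ≤ Z ^ 2 := by
        rw [sq]
        exact Nat.mul_le_mul hxZ hyZ
      have hψ1 : ψ ≠ 1 := prodChar_ne_one hx0.ne' hy0.ne' (Fam_prim hx) (Fam_prim hE.mem) hxy hE.sq
      refine ⟨fun s => Le x.2 s * Le ψ (s - δ), ?_⟩
      have hBd : Differentiable ℂ (fun s : ℂ => Le ψ (s - δ)) :=
        (Le_differentiable ψ).comp (differentiable_id.sub_const _)
      refine ⟨(Le_differentiable x.2).mul hBd, ?_, ?_, ?_, ?_, ?_, ?_, ?_, Or.inl rfl, ?_⟩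
      · refine ⟨fun s => gz x Z s * Le ψ (s - δ), (gz_diff hx0.ne').mul hBd, fun s => ?_⟩
        rw [hzx, zl_fac (Z := Z) hx0.ne' s, mul_assoc]
      · intro ρ hρ
        rw [hzx] at hρ
        exact (hzl ρ hρ).2.2.2
      · intro ρ hρ
        rw [hzx] at hρ
        exact (hzl ρ hρ).2.2.1.le
      · intro s h1 h2 h3
        rw [norm_mul]
        refine hup _ _ (norm_nonneg _) (norm_nonneg _)
          (hG Z hZ3 x.1 x.2 hx0 hxZ2 s (by linarith) (by linarith) (by linarith)).1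
          (le_trans (hG Z hZ3 _ ψ hxy0 hxyZ _ ?_ ?_ ?_).1 (by linarith))
        · rw [hsre]; linarith
        · rw [hsre]; linarith
        · rw [hsim]; linarith
      · intro s h1 h2 h3
        rw [norm_mul]
        refine hlow _ _ (hLlow x.1 x.2 hx0 hxZ2 s ?_ (by linarith) (by linarith))
          (h68.trans (hLlow _ ψ hxy0 hxyZ _ ?_ ?_ ?_))
        · rw [hhalf]; linarith
        · rw [hsre, hhalf]; rw [hhalf] at hδl; linarith
        · rw [hsre]; linarith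
        · rw [hsim]; linarith
      · intro s h1 h2
        by_contra h3
        rw [not_le] at h3
        refine mul_ne_zero (Le_ne_zero x.2 (by linarith)) (Le_ne_zero ψ ?_) h2
        rw [hsre]; linarith
      · intro s h1
        have hs1 : 1 < s.re := by linarith
        have hs2 : 1 < (s - (δ : ℂ)).re := by rw [hsre]; linarith
        rw [neg_ld_mul (A := Le x.2) (B := fun s : ℂ => Le ψ (s - δ)) (Le_differentiable x.2)
          hBd (Le_ne_zero x.2 hs1.le) (Le_ne_zero ψ hs2.le), deriv_comp_sub_const,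
          Le_ld ψ hs2 0 (fun h => absurd h hψ1) (fun _ => rfl),
          Le_ld x.2 hs1 0 (fun h => absurd h hx1) (fun _ => rfl)]
        have e1 : (fun n : ℕ => (ArithmeticFunction.vonMangoldt n : ℂ) * x.2 (n : ZMod x.1) *
            (1 + y.2 (n : ZMod y.1) * (((n : ℝ) ^ δ : ℝ) : ℂ))) =
            (fun n : ℕ => (ArithmeticFunction.vonMangoldt n : ℂ) * x.2 (n : ZMod x.1)) +
            fun n : ℕ => ((ArithmeticFunction.vonMangoldt n : ℂ) * ψ (n : ZMod (x.1 * y.1))) *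
              (((n : ℝ) ^ δ : ℝ) : ℂ) := by
          funext n
          rw [Pi.add_apply, hψ, prodChar_apply]
          ring
        rw [e1, LSeries_add (summable_lam x.2 hs1) (LSeriesSummable_shift (summable_lam ψ hs2)),
          LSeries_shift]
        push_cast
        ring
      · intro h
        norm_num at h
  · -- the exceptional character
    have hsre : ∀ s : ℂ, (s + (δ : ℂ)).re = s.re + δ := fun s => by rw [add_re, ofReal_re]
    have hsim : ∀ s : ℂ, (s + (δ : ℂ)).im = s.im := fun s => by rw [add_im, ofReal_im, add_zero]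
    have hzl := (stmt_ZSPEC Z y hy0.ne').2.2
    have hmem : ∀ ρ ∈ zx Z y δ y, ρ ∈ zl y Z := by
      intro ρ hρ
      unfold zx at hρ
      rw [if_pos rfl] at hρ
      exact List.mem_of_mem_erase hρ
    refine ⟨fun s => Hy Z y δ s * Le (1 : DirichletCharacter ℂ y.1) (s + δ), ?_⟩
    have hBd : Differentiable ℂ (fun s : ℂ => Le (1 : DirichletCharacter ℂ y.1) (s + δ)) :=
      (Le_differentiable _).comp (differentiable_id.add_const _)
    refine ⟨(Hy_diff hE).mul hBd, ?_, ?_, ?_, ?_, ?_, ?_, ?_, Or.inl rfl, ?_⟩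
    · refine ⟨fun s => gz y Z s * Le (1 : DirichletCharacter ℂ y.1) (s + δ),
        (gz_diff hy0.ne').mul hBd, fun s => ?_⟩
      unfold Hy
      ring
    · intro ρ hρ
      exact (hzl ρ (hmem ρ hρ)).2.2.2
    · intro ρ hρ
      exact (hzl ρ (hmem ρ hρ)).2.2.1.le
    · intro s h1 h2 h3
      rw [norm_mul, mul_comm ‖Hy Z y δ s‖]
      refine hup _ _ (norm_nonneg _) (norm_nonneg _)
        (hG Z hZ3 y.1 1 hy0 hyZ2 _ ?_ ?_ ?_).1 (hHup _ (by linarith) (by linarith) (by linarith))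
      · rw [hsre]; linarith
      · rw [hsre]; linarith
      · rw [hsim]; linarith
    · intro s h1 h2 h3
      rw [norm_mul, mul_comm ‖Hy Z y δ s‖]
      refine hlow _ _ (hLlow y.1 1 hy0 hyZ2 _ ?_ ?_ ?_) (hHlow _ ?_ (by linarith) (by linarith))
      · rw [hsre, hhalf]; linarith
      · rw [hsre]; linarith
      · rw [hsim]; linarith
      · rw [hhalf]; linarith
    · intro s h1 h2
      by_contra h3
      rw [not_le] at h3
      refine mul_ne_zero (Hy_ne_zero hE hδ10 (by linarith)) (Le_ne_zero _ ?_) h2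
      rw [hsre]; linarith
    · intro s h1
      have hs1 : 1 < s.re := by linarith
      have hs2 : 1 < (s + (δ : ℂ)).re := by rw [hsre]; linarith
      rw [neg_ld_mul (A := Hy Z y δ)
        (B := fun s : ℂ => Le (1 : DirichletCharacter ℂ y.1) (s + δ)) (Hy_diff hE)
        hBd (Hy_ne_zero hE hδ10 hs1.le) (Le_ne_zero _ hs2.le), deriv_comp_add_const,
        Hy_ld hE hδ10 hs1, Le_ld 1 hs2 1 (fun _ => rfl) (fun h => absurd rfl h)]
      have e1 : (fun n : ℕ => (ArithmeticFunction.vonMangoldt n : ℂ) * y.2 (n : ZMod y.1) *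
          (1 + y.2 (n : ZMod y.1) * (((n : ℝ) ^ (-δ) : ℝ) : ℂ))) =
          (fun n : ℕ => (ArithmeticFunction.vonMangoldt n : ℂ) * y.2 (n : ZMod y.1)) +
          fun n : ℕ => ((ArithmeticFunction.vonMangoldt n : ℂ) *
            (1 : DirichletCharacter ℂ y.1) (n : ZMod y.1)) * (((n : ℝ) ^ (-δ) : ℝ) : ℂ) := by
        funext n
        have e3 : (1 : DirichletCharacter ℂ y.1) (n : ZMod y.1) =
            y.2 (n : ZMod y.1) * y.2 (n : ZMod y.1) := by
          rw [← hE.sq, sq, MulChar.mul_apply]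
        rw [Pi.add_apply, e3]
        ring
      have e4 : s - ((-δ : ℝ) : ℂ) = s + (δ : ℂ) := by
        push_cast
        ring
      have hs3 : 1 < (s - ((-δ : ℝ) : ℂ)).re := by rw [e4]; exact hs2
      rw [e1, LSeries_add (summable_lam y.2 hs1)
        (LSeriesSummable_shift (summable_lam (1 : DirichletCharacter ℂ y.1) hs3)),
        LSeries_shift, e4]
      have e2 : s - ((1 - δ : ℝ) : ℂ) = s + (δ : ℂ) - 1 := by
        push_cast
        ring
      rw [e2]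
      push_cast
      ring
    · intro h
      norm_num at h

end Pool.Agent.PS
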