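import Pool.Agent.Work.PS.Interface

/-!
# GAL: Gallagher's lemma
-/

set_option autoImplicit false

namespace Pool.Agent.PS

open MeasureTheory Real FourierTransform
open Pool.Agent.Circle (e norm_e e_add e_neg conj_e e_zero)

namespace Gal

/-- the box -/
noncomputable def box (d : ℝ) : ℝ → ℂ := Set.indicator (Set.Icc (-(d / 2)) (d / 2)) fun _ => 1

/-- the Fourier transform of the box -/
noncomputable def sk (d t : ℝ) : ℝ := if t = 0 then d else sin (π * d * t) / (π * t)

lemma box_integrable (d : ℝ) : Integrable (box d) := by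
  unfold box
  rw [integrable_indicator_iff measurableSet_Icc]
  exact integrableOn_const (by simp)

lemma fourier_box (d : ℝ) (hd : 0 < d) (t : ℝ) : 𝓕 (box d) t = (sk d t : ℂ) := by
  rw [Real.fourier_real_eq_integral_exp_smul]
  have h1 : ∀ v : ℝ, Complex.exp (↑(-2 * π * v * t) * Complex.I) • box d v
      = Set.indicator (Set.Icc (-(d / 2)) (d / 2))
          (fun v : ℝ => Complex.exp (↑(-2 * π * v * t) * Complex.I)) v := by
    intro v
    unfold box
    by_cases hv : v ∈ Set.Icc (-(d / 2)) (d / 2)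
    · rw [Set.indicator_of_mem hv, Set.indicator_of_mem hv, smul_eq_mul, mul_one]
    · rw [Set.indicator_of_notMem hv, Set.indicator_of_notMem hv, smul_zero]
  simp only [h1]
  rw [integral_indicator measurableSet_Icc, integral_Icc_eq_integral_Ioc,
    ← intervalIntegral.integral_of_le (by linarith)]
  unfold sk
  by_cases ht : t = 0
  · rw [if_pos ht, ht]
    simp
  · rw [if_neg ht]
    have hpi : (π : ℂ) ≠ 0 := by exact_mod_cast pi_ne_zero
    have htc : (t : ℂ) ≠ 0 := by exact_mod_cast ht
    have hc : (-2 * π * t : ℂ) * Complex.I ≠ 0 := by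
      refine mul_ne_zero (mul_ne_zero (mul_ne_zero (by norm_num) hpi) htc) Complex.I_ne_zero
    have h2 : ∀ v : ℝ, Complex.exp (↑(-2 * π * v * t) * Complex.I)
        = Complex.exp (((-2 * π * t : ℂ) * Complex.I) * v) := by
      intro v
      congr 1
      push_cast
      ring
    simp only [h2]
    rw [integral_exp_mul_complex hc]
    push_cast
    rw [Complex.sin]
    have e1 : Complex.exp ((-2 * π * t : ℂ) * Complex.I * (d / 2)) = Complex.exp (-(π * d * t) * Complex.I) := by
      congr 1; ring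
    have e2 : Complex.exp ((-2 * π * t : ℂ) * Complex.I * (-(d / 2))) = Complex.exp ((π * d * t) * Complex.I) := by
      congr 1; ring
    rw [e1, e2]
    have hI : Complex.I ^ 2 = -1 := Complex.I_sq
    field_simp
    linear_combination (Complex.exp (π * d * t * Complex.I) - Complex.exp (-(π * d * t * Complex.I))) * hI

/-- the triangle -/
noncomputable def tri (d x : ℝ) : ℝ := max 0 (d - |x|)

lemma overlap (d : ℝ) (a b : ℝ) :
    volume.real (Set.Icc (a - d / 2) (a + d / 2) ∩ Set.Icc (b - d / 2) (b + d / 2))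
      = tri d (a - b) := by
  rw [Set.Icc_inter_Icc, Measure.real, Real.volume_Icc]
  unfold tri
  rw [ENNReal.toReal_ofReal', max_comm]
  congr 1
  rcases le_total a b with h | h
  · rw [min_eq_left (by linarith), max_eq_right (by linarith), abs_of_nonpos (by linarith)]
    ring
  · rw [min_eq_right (by linarith), max_eq_left (by linarith), abs_of_nonneg (by linarith)]
    ring

lemma conv_box (d : ℝ) (x : ℝ) :
    (MeasureTheory.convolution (box d) (box d) (ContinuousLinearMap.mul ℂ ℂ) volume) x
      = (tri d x : ℂ) := by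
  rw [MeasureTheory.convolution_def]
  have h1 : ∀ t : ℝ, ContinuousLinearMap.mul ℂ ℂ (box d t) (box d (x - t))
      = Set.indicator (Set.Icc (0 - d / 2) (0 + d / 2) ∩ Set.Icc (x - d / 2) (x + d / 2))
        (fun _ => (1 : ℂ)) t := by
    intro t
    rw [ContinuousLinearMap.mul_apply']
    unfold box
    by_cases h1 : t ∈ Set.Icc (-(d / 2)) (d / 2)
    · by_cases h2 : x - t ∈ Set.Icc (-(d / 2)) (d / 2)
      · rw [Set.indicator_of_mem h1, Set.indicator_of_mem h2, Set.indicator_of_mem, one_mul]
        rw [Set.mem_Icc] at h1 h2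
        refine ⟨⟨by linarith, by linarith⟩, by linarith, by linarith⟩
      · rw [Set.indicator_of_notMem h2, mul_zero, Set.indicator_of_notMem]
        rintro ⟨_, h3⟩
        rw [Set.mem_Icc] at h3
        exact h2 ⟨by linarith, by linarith⟩
    · rw [Set.indicator_of_notMem h1, zero_mul, Set.indicator_of_notMem]
      rintro ⟨h3, _⟩
      rw [Set.mem_Icc] at h3
      exact h1 ⟨by linarith, by linarith⟩
  simp only [h1]
  rw [integral_indicator (measurableSet_Icc.inter measurableSet_Icc), setIntegral_const, overlap d,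
    zero_sub]
  unfold tri
  rw [abs_neg]
  simp

lemma sk_abs_le (d : ℝ) (hd : 0 < d) (t : ℝ) : |sk d t| ≤ d := by
  unfold sk
  split_ifs with h
  · rw [abs_of_pos hd]
  · rw [abs_div]
    have h1 : |sin (π * d * t)| ≤ |π * d * t| := abs_sin_le_abs
    have h2 : 0 < |π * t| := abs_pos.mpr (mul_ne_zero pi_ne_zero h)
    rw [div_le_iff₀ h2]
    refine h1.trans (le_of_eq ?_)
    rw [show π * d * t = d * (π * t) by ring, abs_mul, abs_of_pos hd]

lemma sk_mul_le (d t : ℝ) : |sk d t * t| ≤ 1 := by
  unfold sk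
  split_ifs with h
  · rw [h]; simp
  · have : sin (π * d * t) / (π * t) * t = sin (π * d * t) / π := by
      field_simp
    rw [this, abs_div, abs_of_pos pi_pos, div_le_iff₀ pi_pos]
    have h1 := abs_sin_le_one (π * d * t)
    have h2 := Real.pi_gt_three
    linarith

lemma sk_ge (d T : ℝ) (hT : 0 < T) (hd : d = 1 / (2 * T)) (t : ℝ) (ht : |t| ≤ T) :
    2 * d / π ≤ sk d t := by
  have hd0 : 0 < d := by rw [hd]; positivity
  unfold sk
  split_ifs with h
  · rw [div_le_iff₀ pi_pos]
    have h2 := Real.pi_gt_three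
    nlinarith
  · have h1 : sin (π * d * t) / (π * t) = sin (π * d * |t|) / (π * |t|) := by
      rcases abs_cases t with ⟨h, _⟩ | ⟨h, _⟩
      · rw [h]
      · rw [h, show π * d * -t = -(π * d * t) by ring, sin_neg, show π * -t = -(π * t) by ring,
          neg_div_neg_eq]
    rw [h1]
    have h2 : 0 < |t| := abs_pos.mpr h
    rw [le_div_iff₀ (by positivity)]
    have h3 : π * d * |t| ≤ π / 2 := by
      have : d * |t| ≤ 1 / 2 := by
        calc d * |t| ≤ d * T := by gcongr
          _ = 1 / 2 := by rw [hd]; field_simp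
      nlinarith [pi_pos]
    have h4 := Real.mul_le_sin (x := π * d * |t|) (by positivity) h3
    refine le_trans (le_of_eq ?_) h4
    field_simp

lemma sk_measurable (d : ℝ) : Measurable (sk d) := by
  unfold sk
  refine Measurable.ite (measurableSet_eq) measurable_const ?_
  fun_prop

lemma sk_sq_integrable (d : ℝ) (hd : 0 < d) : Integrable fun t => sk d t ^ 2 := by
  refine ((integrable_inv_one_add_sq).const_mul (d ^ 2 + 1)).mono'
    ((sk_measurable d).pow_const 2).aestronglyMeasurable ?_
  filter_upwards with t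
  rw [Real.norm_eq_abs, abs_of_nonneg (sq_nonneg _), ← div_eq_mul_inv, le_div_iff₀ (by positivity)]
  have h1 := sk_abs_le d hd t
  have h2 := sk_mul_le d t
  have h3 : sk d t ^ 2 ≤ d ^ 2 := sq_le_sq' (by linarith [(abs_le.mp h1).1]) (abs_le.mp h1).2
  have h4 : (sk d t * t) ^ 2 ≤ 1 := by
    have := sq_le_sq' (by linarith [(abs_le.mp h2).1]) (abs_le.mp h2).2
    linarith
  nlinarith

lemma tri_continuous (d : ℝ) : Continuous fun x => (tri d x : ℂ) := by
  unfold tri
  fun_prop

lemma fourier_tri (d : ℝ) (hd : 0 < d) (t : ℝ) :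
    𝓕 (fun x => (tri d x : ℂ)) t = ((sk d t ^ 2 : ℝ) : ℂ) := by
  have h1 : (fun x => (tri d x : ℂ))
      = MeasureTheory.convolution (box d) (box d) (ContinuousLinearMap.mul ℂ ℂ) volume := by
    ext x
    exact (conv_box d x).symm
  rw [h1, Real.fourier_mul_convolution_eq (box_integrable d) (box_integrable d), fourier_box d hd]
  push_cast
  ring

lemma tri_integrable (d : ℝ) : Integrable fun x => (tri d x : ℂ) := by
  have h1 : (fun x => (tri d x : ℂ))
      = MeasureTheory.convolution (box d) (box d) (ContinuousLinearMap.mul ℂ ℂ) volume := by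
    ext x
    exact (conv_box d x).symm
  rw [h1]
  exact (box_integrable d).integrable_convolution _ (box_integrable d)

lemma inversion (d : ℝ) (hd : 0 < d) (x : ℝ) :
    ∫ t, e (x * t) * ((sk d t ^ 2 : ℝ) : ℂ) = (tri d x : ℂ) := by
  have h1 : Integrable (𝓕 fun x => (tri d x : ℂ)) := by
    have : (𝓕 fun x => (tri d x : ℂ)) = fun t => ((sk d t ^ 2 : ℝ) : ℂ) := by
      ext t
      exact fourier_tri d hd t
    rw [this]
    exact (sk_sq_integrable d hd).ofReal
  have h2 := congrFun ((tri_continuous d).fourierInv_fourier_eq (tri_integrable d) h1) x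
  rw [← h2, Real.fourierInv_eq']
  refine integral_congr_ae ?_
  filter_upwards with t
  rw [fourier_tri d hd, smul_eq_mul]
  congr 1

lemma norm_sq_sum (S : Finset ℕ) (z : ℕ → ℂ) :
    ((‖∑ n ∈ S, z n‖ ^ 2 : ℝ) : ℂ) = ∑ m ∈ S, ∑ n ∈ S, z m * (starRingEnd ℂ) (z n) := by
  push_cast
  rw [← Complex.mul_conj', map_sum, Finset.sum_mul_sum]

lemma e_mul_integrable (d : ℝ) (hd : 0 < d) (x : ℝ) :
    Integrable fun t => e (x * t) * ((sk d t ^ 2 : ℝ) : ℂ) := by
  refine (sk_sq_integrable d hd).mono' ?_ ?_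
  · refine AEStronglyMeasurable.mul ?_ ?_
    · refine Continuous.aestronglyMeasurable ?_
      unfold e
      fun_prop
    · exact (Complex.measurable_ofReal.comp ((sk_measurable d).pow_const 2)).aestronglyMeasurable
  · filter_upwards with t
    rw [norm_mul, norm_e, one_mul, Complex.norm_real, Real.norm_eq_abs, abs_of_nonneg (sq_nonneg _)]

lemma left_side (d : ℝ) (hd : 0 < d) (S : Finset ℕ) (ν : ℕ → ℝ) (c : ℕ → ℂ) :
    ((∫ t, ‖∑ n ∈ S, c n * e (ν n * t)‖ ^ 2 * sk d t ^ 2 : ℝ) : ℂ)
      = ∑ m ∈ S, ∑ n ∈ S, c m * (starRingEnd ℂ) (c n) * (tri d (ν m - ν n) : ℂ) := by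
  have h1 : ∀ t, ((‖∑ n ∈ S, c n * e (ν n * t)‖ ^ 2 * sk d t ^ 2 : ℝ) : ℂ)
      = ∑ m ∈ S, ∑ n ∈ S, c m * (starRingEnd ℂ) (c n) *
        (e ((ν m - ν n) * t) * ((sk d t ^ 2 : ℝ) : ℂ)) := by
    intro t
    rw [Complex.ofReal_mul, norm_sq_sum, Finset.sum_mul]
    refine Finset.sum_congr rfl fun m _ => ?_
    rw [Finset.sum_mul]
    refine Finset.sum_congr rfl fun n _ => ?_
    rw [map_mul, conj_e, show (ν m - ν n) * t = ν m * t + -(ν n * t) by ring, e_add]
    ring
  rw [← integral_complex_ofReal]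
  simp only [h1]
  rw [integral_finsetSum]
  · refine Finset.sum_congr rfl fun m _ => ?_
    rw [integral_finsetSum]
    · refine Finset.sum_congr rfl fun n _ => ?_
      rw [integral_const_mul, inversion d hd]
    · intro n _
      exact (e_mul_integrable d hd _).const_mul _
  · intro m _
    refine integrable_finsetSum _ fun n _ => ?_
    exact (e_mul_integrable d hd _).const_mul _

/-- indicator of a window -/
noncomputable def win (d a : ℝ) : ℝ → ℂ := Set.indicator (Set.Icc (a - d / 2) (a + d / 2)) fun _ => 1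

lemma win_mul (d a b u : ℝ) : win d a u * win d b u
    = Set.indicator (Set.Icc (a - d / 2) (a + d / 2) ∩ Set.Icc (b - d / 2) (b + d / 2))
      (fun _ => (1 : ℂ)) u := by
  unfold win
  by_cases h1 : u ∈ Set.Icc (a - d / 2) (a + d / 2)
  · by_cases h2 : u ∈ Set.Icc (b - d / 2) (b + d / 2)
    · rw [Set.indicator_of_mem h1, Set.indicator_of_mem h2, Set.indicator_of_mem (Set.mem_inter h1 h2), one_mul]
    · rw [Set.indicator_of_notMem h2, mul_zero, Set.indicator_of_notMem fun h => h2 h.2]
  · rw [Set.indicator_of_notMem h1, zero_mul, Set.indicator_of_notMem fun h => h1 h.1]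

lemma right_side (d : ℝ) (S : Finset ℕ) (ν : ℕ → ℝ) (c : ℕ → ℂ) :
    ((∫ u, ‖∑ n ∈ S.filter (fun n => |ν n - u| ≤ d / 2), c n‖ ^ 2 : ℝ) : ℂ)
      = ∑ m ∈ S, ∑ n ∈ S, c m * (starRingEnd ℂ) (c n) * (tri d (ν m - ν n) : ℂ) := by
  have h0 : ∀ u, ∑ n ∈ S.filter (fun n => |ν n - u| ≤ d / 2), c n = ∑ n ∈ S, c n * win d (ν n) u := by
    intro u
    rw [Finset.sum_filter]
    refine Finset.sum_congr rfl fun n _ => ?_
    unfold win
    by_cases h : |ν n - u| ≤ d / 2
    · rw [if_pos h, Set.indicator_of_mem, mul_one]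
      rw [abs_le] at h
      exact ⟨by linarith, by linarith⟩
    · rw [if_neg h, Set.indicator_of_notMem, mul_zero]
      intro h'
      apply h
      rw [Set.mem_Icc] at h'
      rw [abs_le]
      exact ⟨by linarith, by linarith⟩
  have hw : ∀ a u, (starRingEnd ℂ) (win d a u) = win d a u := by
    intro a u
    unfold win
    by_cases h : u ∈ Set.Icc (a - d / 2) (a + d / 2)
    · rw [Set.indicator_of_mem h]; simp
    · rw [Set.indicator_of_notMem h]; simp
  have h1 : ∀ u, ((‖∑ n ∈ S.filter (fun n => |ν n - u| ≤ d / 2), c n‖ ^ 2 : ℝ) : ℂ)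
      = ∑ m ∈ S, ∑ n ∈ S, c m * (starRingEnd ℂ) (c n) * (win d (ν m) u * win d (ν n) u) := by
    intro u
    rw [h0, norm_sq_sum]
    refine Finset.sum_congr rfl fun m _ => ?_
    refine Finset.sum_congr rfl fun n _ => ?_
    rw [map_mul, hw]
    ring
  have h2 : ∀ a b, Integrable fun u => win d a u * win d b u := by
    intro a b
    simp only [win_mul]
    rw [integrable_indicator_iff (measurableSet_Icc.inter measurableSet_Icc)]
    refine integrableOn_const ?_
    exact ((measure_mono Set.inter_subset_left).trans_lt (by simp)).ne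
  rw [← integral_complex_ofReal]
  simp only [h1]
  rw [integral_finsetSum]
  · refine Finset.sum_congr rfl fun m _ => ?_
    rw [integral_finsetSum]
    · refine Finset.sum_congr rfl fun n _ => ?_
      rw [integral_const_mul]
      congr 1
      simp only [win_mul]
      rw [integral_indicator (measurableSet_Icc.inter measurableSet_Icc), setIntegral_const, overlap d]
      simp
    · intro n _
      exact (h2 _ _).const_mul _
  · intro m _
    refine integrable_finsetSum _ fun n _ => ?_
    exact (h2 _ _).const_mul _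

lemma left_integrable (d : ℝ) (hd : 0 < d) (S : Finset ℕ) (ν : ℕ → ℝ) (c : ℕ → ℂ) :
    Integrable fun t => ‖∑ n ∈ S, c n * e (ν n * t)‖ ^ 2 * sk d t ^ 2 := by
  refine ((sk_sq_integrable d hd).const_mul ((∑ n ∈ S, ‖c n‖) ^ 2)).mono' ?_ ?_
  · refine AEStronglyMeasurable.mul ?_ ?_
    · refine Continuous.aestronglyMeasurable ?_
      unfold e
      fun_prop
    · exact ((sk_measurable d).pow_const 2).aestronglyMeasurable
  · filter_upwards with t
    rw [Real.norm_eq_abs, abs_of_nonneg (by positivity)]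
    gcongr
    refine (norm_sum_le _ _).trans (Finset.sum_le_sum fun n _ => ?_)
    rw [norm_mul, norm_e, mul_one]

end Gal

open Gal in
theorem stmt_GAL : Stmt_GAL := by
  refine ⟨π ^ 2, by positivity, fun S ν c T hT => ?_⟩
  set d : ℝ := 1 / (2 * T) with hd
  have hd0 : 0 < d := by positivity
  have hd2 : 1 / (4 * T) = d / 2 := by rw [hd]; field_simp; norm_num
  rw [hd2]
  have h1 := left_side d hd0 S ν c
  rw [← right_side d S ν c] at h1
  have h2 : (∫ t, ‖∑ n ∈ S, c n * e (ν n * t)‖ ^ 2 * sk d t ^ 2)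
      = ∫ u, ‖∑ n ∈ S.filter (fun n => |ν n - u| ≤ d / 2), c n‖ ^ 2 := by exact_mod_cast h1
  rw [← h2, intervalIntegral.integral_of_le (by linarith), ← integral_const_mul]
  have hc : Continuous fun t => ‖∑ n ∈ S, c n * e (ν n * t)‖ ^ 2 := by
    unfold e
    fun_prop
  calc ∫ t in Set.Ioc (-T) T, ‖∑ n ∈ S, c n * e (ν n * t)‖ ^ 2
      ≤ ∫ t in Set.Ioc (-T) T, π ^ 2 * T ^ 2 * (‖∑ n ∈ S, c n * e (ν n * t)‖ ^ 2 * sk d t ^ 2) := by
        refine setIntegral_mono_on ?_ ?_ measurableSet_Ioc ?_
        · exact (hc.integrableOn_Icc).mono_set Set.Ioc_subset_Icc_self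
        · exact ((left_integrable d hd0 S ν c).const_mul _).integrableOn
        · intro t ht
          have h3 := sk_ge d T hT hd t (by rw [abs_le]; exact ⟨ht.1.le, ht.2⟩)
          have h4 : 1 ≤ π ^ 2 * T ^ 2 * sk d t ^ 2 := by
            have h5 : 1 = π * T * (2 * d / π) := by
              rw [hd]; field_simp
            have h6 : 1 ≤ π * T * sk d t := by
              rw [h5]
              gcongr
            calc (1 : ℝ) ≤ (π * T * sk d t) ^ 2 := one_le_pow₀ h6
              _ = _ := by ring
          calc ‖∑ n ∈ S, c n * e (ν n * t)‖ ^ 2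
              = 1 * ‖∑ n ∈ S, c n * e (ν n * t)‖ ^ 2 := (one_mul _).symm
            _ ≤ π ^ 2 * T ^ 2 * sk d t ^ 2 * ‖∑ n ∈ S, c n * e (ν n * t)‖ ^ 2 := by gcongr
            _ = _ := by ring
    _ ≤ _ := by
        refine setIntegral_le_integral ((left_integrable d hd0 S ν c).const_mul _) ?_
        filter_upwards with t
        positivity

end Pool.Agent.PS
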