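import Pool.Agent.Work.PS.Interface

/-!
# GALD: Gallagher's lemma on the discrete circle
-/

set_option autoImplicit false

namespace Pool.Agent.PS

open Finset
open Pool.Agent.Circle (e dn norm_one_sub_e norm_e_sub_one_le e_add e_zero e_int)

namespace GALDproof

/-- Window sums. -/
noncomputable def Fw (U V h : ℕ) (c : ℕ → ℂ) (s : ℕ) : ℂ :=
  ∑ n ∈ Ioc U V, if n ≤ s ∧ s < n + h then c n else 0

lemma Fw_le (U V h : ℕ) (c : ℕ → ℂ) (D : ℝ) (hD : 0 ≤ D)
    (hsup : ∀ u v, U ≤ u → u ≤ v → v ≤ V → v ≤ u + h → ‖∑ n ∈ Ioc u v, c n‖ ≤ D) (s : ℕ) :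
    ‖Fw U V h c s‖ ≤ D := by
  have h1 : Fw U V h c s = ∑ n ∈ Ioc (max U (s - h)) (min V s), c n := by
    unfold Fw
    rw [← sum_filter]
    congr 1
    ext n
    simp only [mem_filter, mem_Ioc]
    omega
  rw [h1]
  rcases le_or_gt (max U (s - h)) (min V s) with h2 | h2
  · exact hsup _ _ (le_max_left _ _) h2 (min_le_left _ _) (by omega)
  · rw [Ioc_eq_empty (by omega), sum_empty, norm_zero]
    exact hD

lemma Fw_zero (U V h : ℕ) (c : ℕ → ℂ) (s : ℕ) (hs : s ∉ Ico (U + 1) (V + h)) :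
    Fw U V h c s = 0 := by
  unfold Fw
  apply sum_eq_zero
  intro n hn
  rw [mem_Ioc] at hn
  rw [mem_Ico] at hs
  rw [if_neg]
  omega

lemma conv (R U V h : ℕ) (hVR : V + h < R) (c : ℕ → ℂ) (θ : ℝ) :
    ∑ s ∈ range R, Fw U V h c s * e (s * θ)
      = (∑ n ∈ Ioc U V, c n * e (n * θ)) * ∑ j ∈ range h, e (j * θ) := by
  unfold Fw
  simp only [sum_mul, ite_mul, zero_mul]
  rw [sum_comm]
  refine sum_congr rfl fun n hn => ?_
  rw [mem_Ioc] at hn
  rw [← sum_filter]
  have h1 : (range R).filter (fun s => n ≤ s ∧ s < n + h) = Ico n (n + h) := by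
    ext s
    simp only [mem_filter, mem_range, mem_Ico]
    omega
  rw [h1, sum_Ico_eq_sum_range, mul_sum]
  have h2 : n + h - n = h := by omega
  rw [h2]
  refine sum_congr rfl fun j _ => ?_
  have h3 : (((n + j : ℕ) : ℝ)) * θ = n * θ + j * θ := by push_cast; ring
  rw [h3, e_add]
  ring

lemma geom_low (h : ℕ) (θ : ℝ) (hθ : |θ| * h ≤ 1 / 2) :
    (h : ℝ) / 2 ≤ ‖∑ j ∈ range h, e (j * θ)‖ := by
  have h1 : (1 - e θ) * ∑ j ∈ range h, e (j * θ) = 1 - e (h * θ) := by
    induction h with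
    | zero => simp [e_zero]
    | succ n ih =>
      have hn : |θ| * (n : ℝ) ≤ 1 / 2 := by
        push_cast at hθ
        have := abs_nonneg θ
        nlinarith
      rw [sum_range_succ, mul_add, ih hn]
      have h3 : (((n + 1 : ℕ) : ℝ)) * θ = θ + n * θ := by push_cast; ring
      rw [h3, e_add]
      ring
  by_cases h0 : θ = 0
  · subst h0
    simp only [mul_zero, e_zero, sum_const, card_range, nsmul_eq_mul, mul_one]
    rw [Complex.norm_natCast]
    have : (0 : ℝ) ≤ h := Nat.cast_nonneg h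
    linarith
  · have hθ0 : 0 < |θ| := abs_pos.2 h0
    have h2 := norm_one_sub_e ((h : ℝ) * θ)
    have h3 : dn ((h : ℝ) * θ) = |(h : ℝ) * θ| := by
      have habs : |(h : ℝ) * θ| ≤ 1 / 2 := by
        rw [abs_mul, Nat.abs_cast]; linarith
      apply le_antisymm
      · have := Pool.Agent.Circle.dn_le ((h : ℝ) * θ) 0
        simpa using this
      · by_contra hcon
        push Not at hcon
        unfold dn at hcon
        have h4 : round ((h : ℝ) * θ) ≠ 0 := by
          intro h5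
          rw [h5] at hcon
          simp at hcon
        have h5 : (1 : ℝ) ≤ |((round ((h : ℝ) * θ) : ℤ) : ℝ)| := by
          exact_mod_cast Int.one_le_abs h4
        have h6 : |((round ((h : ℝ) * θ) : ℤ) : ℝ)| ≤ |(h : ℝ) * θ|
            + |(h : ℝ) * θ - round ((h : ℝ) * θ)| := by
          have := abs_sub ((h : ℝ) * θ) ((h : ℝ) * θ - round ((h : ℝ) * θ))
          have h7 : (h : ℝ) * θ - ((h : ℝ) * θ - round ((h : ℝ) * θ)) = round ((h : ℝ) * θ) := by
            ring
          rw [h7] at this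
          exact this
        linarith
    rw [h3, ← h1, norm_mul, abs_mul, Nat.abs_cast] at h2
    have h4 : ‖1 - e θ‖ ≤ 2 * Real.pi * |θ| := by
      rw [norm_sub_rev]
      exact norm_e_sub_one_le θ
    have h5 : 4 * ((h : ℝ) * |θ|) ≤ 2 * Real.pi * |θ| * ‖∑ j ∈ range h, e (j * θ)‖ :=
      le_trans h2 (mul_le_mul_of_nonneg_right h4 (norm_nonneg _))
    have h6 : 2 * (h : ℝ) ≤ Real.pi * ‖∑ j ∈ range h, e (j * θ)‖ := by
      have : |θ| * (2 * (h : ℝ)) ≤ |θ| * (Real.pi * ‖∑ j ∈ range h, e (j * θ)‖) := by linarith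
      exact le_of_mul_le_mul_left this hθ0
    have h7 := Real.pi_le_four
    have h8 := norm_nonneg (∑ j ∈ range h, e (j * θ))
    nlinarith

lemma sum_int_le (R H : ℕ) (hR : 0 < R) (hH : 2 * H < R) (g : ℤ → ℝ) (hg : ∀ i, 0 ≤ g i)
    (hper : ∀ i, g (i + R) = g i) :
    ∑ i ∈ Icc (-(H : ℤ)) H, g i ≤ ∑ k ∈ range R, g k := by
  have hper' : ∀ i, g (i % R) = g i := by
    intro i
    have h1 : ∀ (m : ℕ) (j : ℤ), g (j + m * R) = g j := by
      intro m
      induction m with
      | zero => intro j; simp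
      | succ m ih =>
        intro j
        have : j + ((m + 1 : ℕ) : ℤ) * R = (j + m * R) + R := by push_cast; ring
        rw [this, hper, ih]
    have h2 : i = i % R + (i / R) * R := by
      have := Int.emod_add_mul_ediv i R
      linarith
    rcases le_total 0 (i / R) with h3 | h3
    · obtain ⟨m, hm⟩ := Int.eq_ofNat_of_zero_le h3
      rw [hm] at h2
      conv_rhs => rw [h2]
      exact (h1 m _).symm
    · obtain ⟨m, hm⟩ := Int.eq_ofNat_of_zero_le (neg_nonneg.2 h3)
      have h4 : i % R = i + m * R := by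
        have : i / R = -(m : ℤ) := by omega
        rw [this] at h2
        linarith
      rw [h4]
      exact h1 m i
  have hR' : (0 : ℤ) < R := by exact_mod_cast hR
  calc ∑ i ∈ Icc (-(H : ℤ)) H, g i = ∑ i ∈ Icc (-(H : ℤ)) H, g (((i % R).toNat : ℕ) : ℤ) := by
        refine sum_congr rfl fun i _ => ?_
        rw [Int.toNat_of_nonneg (Int.emod_nonneg i hR'.ne'), hper']
    _ = ∑ k ∈ (Icc (-(H : ℤ)) H).image (fun i : ℤ => (i % R).toNat), g (k : ℤ) := by
        rw [sum_image]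
        intro i hi j hj hij
        rw [mem_coe, mem_Icc] at hi hj
        have hi0 := Int.emod_nonneg i hR'.ne'
        have hj0 := Int.emod_nonneg j hR'.ne'
        have h1 : i % R = j % R := by
          have : ((i % R).toNat : ℤ) = ((j % R).toNat : ℤ) := by exact_mod_cast hij
          rwa [Int.toNat_of_nonneg hi0, Int.toNat_of_nonneg hj0] at this
        have h2 : (R : ℤ) ∣ i - j := Int.dvd_of_emod_eq_zero (Int.emod_eq_emod_iff_emod_sub_eq_zero.1 h1)
        have h3 : i - j = 0 := by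
          apply Int.eq_zero_of_abs_lt_dvd h2
          rw [abs_lt]
          constructor <;> omega
        omega
    _ ≤ _ := by
        apply sum_le_sum_of_subset_of_nonneg
        · intro k hk
          rw [mem_image] at hk
          obtain ⟨i, _, rfl⟩ := hk
          rw [mem_range]
          have h1 := Int.emod_lt_of_pos i hR'
          have h2 := Int.emod_nonneg i hR'.ne'
          omega
        · intro k _ _
          exact hg _

end GALDproof

open GALDproof in
theorem stmt_GALD : Stmt_GALD := by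
  intro R H h U V hR hh hHR hUV hVR c D hD hsup
  have hR0 : (0 : ℝ) < R := by exact_mod_cast hR
  have hh0 : (0 : ℝ) < h := by exact_mod_cast hh
  have hUV' : (U : ℝ) ≤ V := by exact_mod_cast hUV
  set Fh : ℤ → ℝ := fun i => ‖∑ s ∈ range R, Fw U V h c s * e (s * ((i : ℝ) / R))‖ ^ 2 with hFh
  have hper : ∀ i, Fh (i + R) = Fh i := by
    intro i
    rw [hFh]
    simp only
    congr 2
    refine sum_congr rfl fun s _ => ?_
    congr 1
    have h1 : (s : ℝ) * (((i + R : ℤ) : ℝ) / R) = s * ((i : ℝ) / R) + ((s : ℤ) : ℝ) := by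
      push_cast
      field_simp
    rw [h1, e_add, e_int, mul_one]
  have h1 : ∀ i ∈ Icc (-(H : ℤ)) H, ‖∑ n ∈ Ioc U V, c n * e (n * ((i : ℝ) / R))‖ ^ 2
      ≤ (4 / (h : ℝ) ^ 2) * Fh i := by
    intro i hi
    rw [mem_Icc] at hi
    have hθ : |(i : ℝ) / R| * h ≤ 1 / 2 := by
      rw [abs_div, abs_of_pos hR0, div_mul_eq_mul_div, div_le_div_iff₀ hR0 (by norm_num)]
      have h2 : |(i : ℝ)| ≤ H := by
        rw [abs_le]
        constructor
        · exact_mod_cast hi.1
        · exact_mod_cast hi.2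
      have h3 : (2 * h * H : ℝ) < R := by exact_mod_cast hHR
      nlinarith
    have h2 := geom_low h ((i : ℝ) / R) hθ
    have h3 := conv R U V h hVR c ((i : ℝ) / R)
    rw [hFh]
    simp only
    rw [h3, norm_mul, mul_pow]
    have h4 : ((h : ℝ) / 2) ^ 2 ≤ ‖∑ j ∈ range h, e (j * ((i : ℝ) / R))‖ ^ 2 :=
      pow_le_pow_left₀ (by positivity) h2 2
    have h5 := mul_le_mul_of_nonneg_left h4 (sq_nonneg ‖∑ n ∈ Ioc U V, c n * e (n * ((i : ℝ) / R))‖)
    rw [div_mul_eq_mul_div, le_div_iff₀ (by positivity)]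
    nlinarith
  have h2 : ∑ i ∈ Icc (-(H : ℤ)) H, Fh i ≤ ∑ k ∈ range R, Fh k :=
    sum_int_le R H hR (by nlinarith) Fh (fun i => by rw [hFh]; positivity) hper
  have h3 : ∑ k ∈ range R, Fh k = R * ∑ s ∈ range R, ‖Fw U V h c s‖ ^ 2 := by
    have := Pool.Agent.Circle.parseval R hR (range R) (fun a ha => mem_range.1 ha) (Fw U V h c)
    rw [← this]
    refine sum_congr rfl fun k _ => ?_
    rw [hFh]
    simp
  have h4 : ∑ s ∈ range R, ‖Fw U V h c s‖ ^ 2 ≤ ((V : ℝ) - U + h) * D ^ 2 := by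
    calc ∑ s ∈ range R, ‖Fw U V h c s‖ ^ 2 = ∑ s ∈ Ico (U + 1) (V + h), ‖Fw U V h c s‖ ^ 2 := by
          symm
          apply sum_subset
          · intro s hs
            rw [mem_Ico] at hs
            rw [mem_range]; omega
          · intro s _ hs
            rw [Fw_zero U V h c s hs]
            simp
      _ ≤ ∑ _s ∈ Ico (U + 1) (V + h), D ^ 2 :=
          sum_le_sum fun s _ => pow_le_pow_left₀ (norm_nonneg _) (Fw_le U V h c D hD hsup s) 2
      _ = ((V + h - (U + 1) : ℕ) : ℝ) * D ^ 2 := by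
          rw [sum_const, Nat.card_Ico, nsmul_eq_mul]
      _ ≤ _ := by
          apply mul_le_mul_of_nonneg_right _ (sq_nonneg D)
          have : ((V + h - (U + 1) : ℕ) : ℝ) = (V : ℝ) + h - (U + 1) := by
            rw [Nat.cast_sub (by omega)]
            push_cast; ring
          rw [this]
          linarith
  have hx0 : 0 ≤ (V : ℝ) - U + h := by linarith
  have hrhs : 2 * √((V : ℝ) - U + h) * D / h = √(4 / (h : ℝ) ^ 2 * (((V : ℝ) - U + h) * D ^ 2)) := by
    have : 4 / (h : ℝ) ^ 2 * (((V : ℝ) - U + h) * D ^ 2) = ((V : ℝ) - U + h) * (2 * D / h) ^ 2 := by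
      ring
    rw [this, Real.sqrt_mul hx0, Real.sqrt_sq (by positivity)]
    ring
  unfold Wn
  rw [hrhs]
  apply Real.sqrt_le_sqrt
  calc (1 / (R : ℝ)) * ∑ i ∈ Icc (-(H : ℤ)) H, ‖∑ n ∈ Ioc U V, c n * e (n * ((i : ℝ) / R))‖ ^ 2
      ≤ (1 / (R : ℝ)) * ∑ i ∈ Icc (-(H : ℤ)) H, (4 / (h : ℝ) ^ 2) * Fh i :=
        mul_le_mul_of_nonneg_left (sum_le_sum h1) (by positivity)
    _ = (1 / (R : ℝ)) * (4 / (h : ℝ) ^ 2) * ∑ i ∈ Icc (-(H : ℤ)) H, Fh i := by
        rw [← mul_sum]; ring
    _ ≤ (1 / (R : ℝ)) * (4 / (h : ℝ) ^ 2) * (R * (((V : ℝ) - U + h) * D ^ 2)) := by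
        apply mul_le_mul_of_nonneg_left _ (by positivity)
        rw [h3] at h2
        exact le_trans h2 (mul_le_mul_of_nonneg_left h4 hR0.le)
    _ = _ := by field_simp

end Pool.Agent.PS
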