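import Pool.Agent.Work.PS.ZSPEC
import Pool.Agent.Work.MP_b0c12c_nt_helper70.Bounds

/-!
# PS, block GRW: growth and lower bound of `Le`
-/

set_option autoImplicit false

namespace Pool.Agent.PS

open Finset Metric DirichletCharacter Complex
open Pool.Agent.Work.MP_b0c12c_nt_helper70
open Pool.Agent.Work.MP_852da8_nt
open scoped Classical

/-- Bound of `(s - 1) ζ(s)` for `1 / 20 ≤ re s`. -/
theorem norm_zeta1_crude {s : ℂ} (hs : 1 / 20 ≤ s.re) :
    ‖riemannZeta₁ s‖ ≤ ‖s - 1‖ + 1 + 21 * (‖s - 1‖ * ‖s‖) := by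
  have hs0 : 0 < s.re := by linarith
  rw [zeta_one_formula hs0 0]
  have hnorm : Summable (fun n : ℕ => ‖defect (0 + 1 + n) s‖) := (summable_defect hs0 0).norm
  have hsum : Summable (fun n : ℕ => (n : ℝ) ^ (-(1 + s.re))) :=
    Real.summable_nat_rpow.2 (by linarith)
  have hsum1 : Summable (fun n : ℕ => ((0 + 1 + n : ℕ) : ℝ) ^ (-(1 + s.re))) := by
    have h2 := (summable_nat_add_iff 1).mpr hsum
    refine h2.congr fun n => ?_
    rw [zero_add, add_comm n 1]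
  have hts : ∑' n : ℕ, ((0 + 1 + n : ℕ) : ℝ) ^ (-(1 + s.re)) ≤ 21 := by
    have h4 : ∑' n : ℕ, (n : ℝ) ^ (-(1 + s.re)) ≤ 1 + 1 / s.re :=
      hsum.tsum_le_of_sum_range_le fun N => sum_rpow_le hs0 N
    have h5 : ∑' n : ℕ, (n : ℝ) ^ (-(1 + s.re)) =
        ∑' n : ℕ, ((0 + 1 + n : ℕ) : ℝ) ^ (-(1 + s.re)) := by
      rw [hsum.tsum_eq_zero_add, Nat.cast_zero, Real.zero_rpow (by linarith), zero_add]
      refine tsum_congr fun n => ?_
      rw [zero_add, add_comm n 1]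
    have h6 : 1 / s.re ≤ 20 := by
      rw [div_le_iff₀ hs0]
      linarith
    linarith
  have h4 : ‖∑' n : ℕ, defect (0 + 1 + n) s‖ ≤ ‖s - 1‖ * (‖s‖ * 21) := by
    refine le_trans (norm_tsum_le_tsum_norm hnorm) ?_
    refine le_trans (Summable.tsum_le_tsum (g := fun n : ℕ =>
      ‖s - 1‖ * (‖s‖ * ((0 + 1 + n : ℕ) : ℝ) ^ (-(1 + s.re)))) ?_ hnorm ?_) ?_
    · intro n
      refine (norm_defect_le (n := 0 + 1 + n) (by omega) hs0).trans (le_of_eq ?_)
      rw [show -s.re - 1 = -(1 + s.re) by ring]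
    · exact (hsum1.mul_left _).mul_left _
    · rw [tsum_mul_left, tsum_mul_left]
      exact mul_le_mul_of_nonneg_left (mul_le_mul_of_nonneg_left hts (norm_nonneg _))
        (norm_nonneg _)
  have h5 : (s - 1) * ∑ n ∈ range (0 + 1), ((n : ℂ) + 1) ^ (-s) + ((0 + 1 : ℕ) : ℂ) ^ (1 - s) =
      (s - 1) + 1 := by
    rw [zero_add, Finset.sum_range_one]
    simp
  rw [h5]
  refine (norm_add_le _ _).trans ?_
  have h6 : ‖s - 1 + 1‖ ≤ ‖s - 1‖ + 1 := by
    refine (norm_add_le _ _).trans ?_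
    rw [norm_one]
  linarith

/-- `Le 1` in terms of `(s - 1) ζ(s)`. -/
theorem Le_one_eq (q : ℕ) [NeZero q] (s : ℂ) :
    Le (1 : DirichletCharacter ℂ q) s =
      (∏ p ∈ q.primeFactors, (1 - (p : ℂ) ^ (-s))) * riemannZeta₁ s := by
  by_cases hs : s = 1
  · rw [hs, Le_one, riemannZeta₁_one, mul_one, LFunctionTrivChar₁, Function.update_self]
    refine Finset.prod_congr rfl fun p _ => ?_
    rw [Complex.cpow_neg_one]
  · rw [Le_one_apply q hs]
    have h1 := LFunctionTrivChar_eq_mul_riemannZeta (N := q) hs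
    have h2 : LFunction (1 : DirichletCharacter ℂ q) s = LFunctionTrivChar q s := rfl
    rw [h2, h1, riemannZeta_eq_inv_sub_mul hs]
    have h3 : s - 1 ≠ 0 := sub_ne_zero.2 hs
    field_simp

theorem two_pow_primeFactors_le {q : ℕ} (hq : 0 < q) : 2 ^ q.primeFactors.card ≤ q := by
  have h1 : ∏ p ∈ q.primeFactors, p ≤ q := Nat.le_of_dvd hq (Nat.prod_primeFactors_dvd q)
  refine le_trans ?_ h1
  rw [← Finset.prod_const]
  exact Finset.prod_le_prod' fun p hp => (Nat.prime_of_mem_primeFactors hp).two_le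

theorem norm_euler_prod_le {q : ℕ} (hq : 0 < q) {s : ℂ} (hs : 0 ≤ s.re) :
    ‖∏ p ∈ q.primeFactors, (1 - (p : ℂ) ^ (-s))‖ ≤ q := by
  rw [norm_prod]
  have h1 : ∏ p ∈ q.primeFactors, ‖1 - (p : ℂ) ^ (-s)‖ ≤ ∏ _p ∈ q.primeFactors, (2 : ℝ) := by
    refine Finset.prod_le_prod (fun p _ => norm_nonneg _) fun p hp => ?_
    have hp1 := (Nat.prime_of_mem_primeFactors hp).one_lt
    refine (norm_sub_le _ _).trans ?_
    rw [norm_one, norm_natCast_cpow_of_pos (by omega), neg_re]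
    have : (p : ℝ) ^ (-s.re) ≤ 1 := by
      refine Real.rpow_le_one_of_one_le_of_nonpos ?_ (by linarith)
      exact_mod_cast hp1.le
    linarith
  refine h1.trans ?_
  rw [Finset.prod_const]
  exact_mod_cast two_pow_primeFactors_le hq

/-- Lower bound in `re s ≥ 2`. -/
theorem third_le_norm_L {q : ℕ} [NeZero q] (χ : DirichletCharacter ℂ q) {s : ℂ} (hs : 2 ≤ s.re) :
    1 / 3 ≤ ‖χ.LFunction s‖ := by
  rw [DirichletCharacter.LFunction_eq_LSeries χ (by linarith)]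
  have hsum : LSeriesSummable (fun n : ℕ => χ n) s :=
    DirichletCharacter.LSeriesSummable_of_one_lt_re χ (by linarith)
  have h1 : LSeries (fun n : ℕ => χ n) s = 1 + ∑' n : ℕ, LSeries.term (fun n : ℕ => χ n) s (n + 2) := by
    unfold LSeries
    rw [← hsum.sum_add_tsum_nat_add 2]
    congr 1
    rw [Finset.sum_range_succ, Finset.sum_range_one, LSeries.term_zero, LSeries.term_of_ne_zero one_ne_zero]
    simp
  have hb : ∀ n : ℕ, ‖LSeries.term (fun n : ℕ => χ n) s (n + 2)‖ ≤ 1 / ((n + 2 : ℕ) : ℝ) ^ 2 := by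
    intro n
    rw [LSeries.term_of_ne_zero (by omega), norm_div]
    have h2 : ((n + 2 : ℕ) : ℝ) ^ 2 ≤ ‖((n + 2 : ℕ) : ℂ) ^ s‖ := by
      rw [norm_natCast_cpow_of_pos (by omega), ← Real.rpow_two]
      refine Real.rpow_le_rpow_of_exponent_le ?_ hs
      have : (1 : ℕ) ≤ n + 2 := by omega
      exact_mod_cast this
    exact div_le_div₀ zero_le_one (DirichletCharacter.norm_le_one χ _) (by positivity) h2
  have hz := hasSum_zeta_two
  have hz2 : ∑' n : ℕ, 1 / ((n + 2 : ℕ) : ℝ) ^ 2 = Real.pi ^ 2 / 6 - 1 := by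
    have h3 := hz.summable.sum_add_tsum_nat_add 2
    rw [hz.tsum_eq, Finset.sum_range_succ, Finset.sum_range_one] at h3
    norm_num at h3
    rw [← h3]
    push_cast
    norm_num
  have hzs : Summable fun n : ℕ => 1 / ((n + 2 : ℕ) : ℝ) ^ 2 :=
    (summable_nat_add_iff (f := fun n : ℕ => 1 / (n : ℝ) ^ 2) 2).mpr hz.summable
  have h4 := tsum_of_norm_bounded hzs.hasSum hb
  rw [hz2] at h4
  have h5 : ‖(1 : ℂ)‖ - ‖∑' n : ℕ, LSeries.term (fun n : ℕ => χ n) s (n + 2)‖ ≤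
      ‖1 + ∑' n : ℕ, LSeries.term (fun n : ℕ => χ n) s (n + 2)‖ := by
    have := norm_sub_norm_le (1 : ℂ) (-∑' n : ℕ, LSeries.term (fun n : ℕ => χ n) s (n + 2))
    rwa [norm_neg, sub_neg_eq_add] at this
  rw [h1]
  rw [norm_one] at h5
  have h6 : Real.pi ^ 2 < 10 := by
    have := Real.pi_lt_d2
    have h0 := Real.pi_pos
    nlinarith
  linarith

theorem stmt_GRW : Stmt_GRW := by
  refine ⟨11, by norm_num, ?_⟩
  intro Z hZ q χ hq hqZ s h1 h2 h3
  have : NeZero q := ⟨hq.ne'⟩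
  have hZ3 : (3 : ℝ) ≤ Z := by exact_mod_cast hZ
  have hqZ' : (q : ℝ) ≤ (Z : ℝ) ^ 2 := by exact_mod_cast hqZ
  have hq0 : (0 : ℝ) ≤ q := Nat.cast_nonneg q
  have hs0 : 0 < s.re := by linarith
  have hns : ‖s‖ ≤ 9 * Z := by
    have := Complex.norm_le_abs_re_add_abs_im s
    rw [abs_of_nonneg hs0.le] at this
    linarith
  have hns1 : ‖s - 1‖ ≤ 9 * Z + 1 := by
    refine (norm_sub_le _ _).trans ?_
    rw [norm_one]
    linarith
  have hpow : ∀ k : ℕ, (3 : ℝ) ^ k ≤ (Z : ℝ) ^ k := fun k => pow_le_pow_left₀ (by norm_num) hZ3 k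
  constructor
  · have e11 : (Z : ℝ) ^ (11 : ℝ) = (Z : ℝ) ^ 11 := by
      rw [← Real.rpow_natCast]
      norm_num
    rw [e11]
    by_cases hχ : χ = 1
    · rw [hχ, Le_one_eq, norm_mul]
      have a1 := norm_euler_prod_le hq (s := s) hs0.le
      have a2 := norm_zeta1_crude h1
      have a3 : ‖s - 1‖ + 1 + 21 * (‖s - 1‖ * ‖s‖) ≤ (Z : ℝ) ^ 9 := by
        have b1 : ‖s - 1‖ * ‖s‖ ≤ (9 * Z + 1) * (9 * Z) :=
          mul_le_mul hns1 hns (norm_nonneg _) (by positivity)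
        have b2 : ‖s - 1‖ + 1 + 21 * (‖s - 1‖ * ‖s‖) ≤ 2187 * (Z : ℝ) ^ 2 := by nlinarith
        have b3 := hpow 7
        have b4 : 2187 * (Z : ℝ) ^ 2 ≤ (Z : ℝ) ^ 7 * (Z : ℝ) ^ 2 :=
          mul_le_mul_of_nonneg_right (le_trans (by norm_num) b3) (by positivity)
        calc _ ≤ 2187 * (Z : ℝ) ^ 2 := b2
          _ ≤ (Z : ℝ) ^ 7 * (Z : ℝ) ^ 2 := b4
          _ = (Z : ℝ) ^ 9 := by ring
      calc _ ≤ (Z : ℝ) ^ 2 * (Z : ℝ) ^ 9 :=
            mul_le_mul (a1.trans hqZ') (a2.trans a3) (norm_nonneg _) (by positivity)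
        _ = (Z : ℝ) ^ 11 := by ring
    · rw [Le_of_ne hχ]
      have a1 := Pool.Agent.Work.MP_b0c12c_nt_helper6.norm_LFunction_le hχ hs0
      refine a1.trans ?_
      have a2 : (q : ℝ) * ‖s‖ / s.re ≤ (Z : ℝ) ^ 2 * (9 * Z) * 20 := by
        rw [div_le_iff₀ hs0]
        have a3 : (q : ℝ) * ‖s‖ ≤ (Z : ℝ) ^ 2 * (9 * Z) :=
          mul_le_mul hqZ' hns (norm_nonneg _) (by positivity)
        have a4 : 0 ≤ (Z : ℝ) ^ 2 * (9 * Z) := by positivity
        nlinarith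
      refine a2.trans ?_
      have b3 := hpow 8
      have b4 : (180 : ℝ) * (Z : ℝ) ^ 3 ≤ (Z : ℝ) ^ 8 * (Z : ℝ) ^ 3 :=
        mul_le_mul_of_nonneg_right (le_trans (by norm_num) b3) (by positivity)
      calc (Z : ℝ) ^ 2 * (9 * Z) * 20 = 180 * (Z : ℝ) ^ 3 := by ring
        _ ≤ _ := b4
        _ = _ := by ring
  · intro h4
    have hL : (s.re - 1) / 16 ≤ ‖χ.LFunction s‖ := by
      rcases le_total s.re 2 with h5 | h5
      · have := le_norm_L χ h4 h5
        linarith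
      · have := third_le_norm_L χ h5
        linarith
    by_cases hχ : χ = 1
    · have hs1 : s ≠ 1 := by
        intro h
        rw [h, one_re] at h4
        exact lt_irrefl _ h4
      rw [hχ, Le_one_apply q hs1, norm_mul]
      rw [hχ] at hL
      have h6 : s.re - 1 ≤ ‖s - 1‖ := by
        have := Complex.re_le_norm (s - 1)
        rwa [sub_re, one_re] at this
      calc (s.re - 1) ^ 2 / 32 ≤ (s.re - 1) * ((s.re - 1) / 16) := by nlinarith
        _ ≤ ‖s - 1‖ * ‖LFunction (1 : DirichletCharacter ℂ q) s‖ :=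
            mul_le_mul h6 hL (by linarith) (norm_nonneg _)
    · rw [Le_of_ne hχ]
      rcases le_total s.re 2 with h5 | h5
      · have := le_norm_L χ h4 h5
        nlinarith
      · have := third_le_norm_L χ h5
        nlinarith

end Pool.Agent.PS
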