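import Pool.Agent.Work.PS.Interface
import Pool.Agent.Work.BV.LS
import Pool.Agent.Work.MP_484fb8_nt.GLower

/-!
# PLS: the large sieve for sequences without small prime factors
-/

set_option autoImplicit false

namespace Pool.Agent.PS

open Finset
open Pool.Agent.BV (PC Farey mem_Farey additive_large_sieve sum_zmod std_eq_ee sum_char_sq)
open Pool.Agent.Circle (e norm_e e_add e_neg conj_e e_zero)
open Pool.Agent.Work.MP_484fb8_nt (sqf harmonic_le_sqf log_le_sum_inv sum_le_sum_of_injOn')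
open Pool.Agent.Work.MP_852da8_nt_six (ee norm_ee ee_add)
open scoped Classical

namespace Pls

lemma ee_eq_e (x : ℝ) : ee x = e x := by
  unfold ee e
  congr 1
  push_cast
  ring

/-! ### The sum over `r` -/

/-- sum of `1/d` over the squarefree divisors -/
noncomputable def F2 (h : ℕ) : ℝ := ∑ d ∈ h.divisors.filter Squarefree, (1 : ℝ) / d

lemma F2_le (h : ℕ) (hh : h ≠ 0) : F2 h ≤ (h : ℝ) / h.totient := by
  have h1 : F2 h ≤ ∑ t ∈ h.primeFactors.powerset, ∏ p ∈ t, (1 : ℝ) / p := by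
    unfold F2
    apply sum_le_sum_of_injOn' _ _ (fun d => d.primeFactors)
    · intro d hd
      rw [mem_filter, Nat.mem_divisors] at hd
      rw [mem_powerset]
      exact Nat.primeFactors_mono hd.1.1 hh
    · intro d hd d' hd' he
      rw [mem_coe, mem_filter] at hd hd'
      simp only at he
      rw [← Nat.prod_primeFactors_of_squarefree hd.2, ← Nat.prod_primeFactors_of_squarefree hd'.2, he]
    · intro d hd
      rw [mem_filter] at hd
      rw [prod_div_distrib, prod_const_one, ← Nat.cast_prod, Nat.prod_primeFactors_of_squarefree hd.2]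
    · intro t _
      positivity
  rw [← prod_one_add] at h1
  refine h1.trans ?_
  have h2 : (h.totient : ℝ) = h * ∏ p ∈ h.primeFactors, (1 - (p : ℝ)⁻¹) := by
    have := Nat.totient_eq_mul_prod_factors h
    have h3 : ((h.totient : ℚ) : ℝ) = ((h * ∏ p ∈ h.primeFactors, (1 - (p : ℚ)⁻¹) : ℚ) : ℝ) := by rw [this]
    push_cast at h3
    exact h3
  have h0 : (0 : ℝ) < h := by exact_mod_cast Nat.pos_of_ne_zero hh
  have h3 : ∀ p ∈ h.primeFactors, (0 : ℝ) < 1 - (p : ℝ)⁻¹ := by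
    intro p hp
    have := (Nat.prime_of_mem_primeFactors hp).two_le
    have h4 : (2 : ℝ) ≤ p := by exact_mod_cast this
    have : (p : ℝ)⁻¹ ≤ 1 / 2 := by
      rw [inv_le_comm₀ (by linarith) (by norm_num)]
      linarith
    linarith
  have h5 : 0 < ∏ p ∈ h.primeFactors, (1 - (p : ℝ)⁻¹) := prod_pos h3
  rw [h2, div_mul_eq_div_div, div_self h0.ne', le_div_iff₀ h5, ← prod_mul_distrib]
  apply prod_le_one
  · intro p hp
    have := h3 p hp
    positivity
  · intro p hp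
    have : (1 + 1 / (p : ℝ)) * (1 - (p : ℝ)⁻¹) = 1 - ((p : ℝ)⁻¹) ^ 2 := by
      rw [one_div]; ring
    rw [this]
    have := sq_nonneg ((p : ℝ)⁻¹)
    linarith

lemma sqf_le_mul (x h : ℕ) (hh : h ≠ 0) :
    ∑ a ∈ sqf x, (1 : ℝ) / a ≤ F2 h * ∑ b ∈ sqf x with b.Coprime h, (1 : ℝ) / b := by
  have h1 : ∑ a ∈ sqf x, (1 : ℝ) / a ≤
      ∑ z ∈ (h.divisors.filter Squarefree) ×ˢ ((sqf x).filter (fun b => b.Coprime h)),
        (1 : ℝ) / (z.1 : ℝ) * (1 / (z.2 : ℝ)) := by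
    apply sum_le_sum_of_injOn' _ _ (fun a => (Nat.gcd a h, a / Nat.gcd a h))
    · intro a ha
      unfold sqf at ha
      rw [mem_filter, mem_Icc] at ha
      obtain ⟨⟨ha1, hax⟩, hsq⟩ := ha
      have hgpos : 0 < Nat.gcd a h := Nat.gcd_pos_of_pos_left _ ha1
      obtain ⟨b, hb⟩ := Nat.gcd_dvd_left a h
      have hdiv : a / Nat.gcd a h = b := by
        nth_rewrite 1 [hb]; exact Nat.mul_div_cancel_left b hgpos
      rw [hdiv, mem_product, mem_filter, mem_filter, Nat.mem_divisors]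
      have hb0 : b ≠ 0 := by rintro rfl; rw [mul_zero] at hb; omega
      refine ⟨⟨⟨Nat.gcd_dvd_right a h, hh⟩, hsq.squarefree_of_dvd (Nat.gcd_dvd_left _ _)⟩, ?_, ?_⟩
      · unfold sqf
        rw [mem_filter, mem_Icc]
        refine ⟨⟨Nat.pos_of_ne_zero hb0, ?_⟩, ?_⟩
        · have : b ∣ a := Dvd.intro_left _ hb.symm
          exact (Nat.le_of_dvd ha1 this).trans hax
        · exact hsq.squarefree_of_dvd (Dvd.intro_left _ hb.symm)
      · rw [Nat.coprime_iff_gcd_eq_one]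
        by_contra hne
        obtain ⟨p, hp, hpd⟩ := Nat.exists_prime_and_dvd hne
        have hpb : p ∣ b := hpd.trans (Nat.gcd_dvd_left _ _)
        have hph : p ∣ h := hpd.trans (Nat.gcd_dvd_right _ _)
        have hpa : p ∣ a := hpb.trans (Dvd.intro_left _ hb.symm)
        have hpg : p ∣ Nat.gcd a h := Nat.dvd_gcd hpa hph
        have hpp : p * p ∣ a := by
          rw [hb]; exact mul_dvd_mul hpg hpb
        have := hsq p hpp
        exact hp.one_lt.ne' (Nat.isUnit_iff.mp this)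
    · intro a _ a' _ haa
      simp only [Prod.mk.injEq] at haa
      calc a = Nat.gcd a h * (a / Nat.gcd a h) := (Nat.mul_div_cancel' (Nat.gcd_dvd_left a h)).symm
        _ = Nat.gcd a' h * (a' / Nat.gcd a' h) := by rw [haa.2, haa.1]
        _ = a' := Nat.mul_div_cancel' (Nat.gcd_dvd_left a' h)
    · intro a _
      simp only
      have h1 : Nat.gcd a h * (a / Nat.gcd a h) = a := Nat.mul_div_cancel' (Nat.gcd_dvd_left a h)
      have : (a : ℝ) = (Nat.gcd a h : ℝ) * ((a / Nat.gcd a h : ℕ) : ℝ) := by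
        rw [← Nat.cast_mul, h1]
      rw [_root_.div_mul_div_comm, one_mul, ← this]
    · intro z _
      positivity
  have h2 : ∑ z ∈ (h.divisors.filter Squarefree) ×ˢ ((sqf x).filter (fun b => b.Coprime h)),
        (1 : ℝ) / (z.1 : ℝ) * (1 / (z.2 : ℝ))
      = F2 h * ∑ b ∈ sqf x with b.Coprime h, (1 : ℝ) / b := by
    unfold F2
    rw [sum_mul_sum, ← sum_product']
  rw [h2] at h1
  exact h1

/-- the moduli `q` used for the conductor `f` -/
def good (f q : ℕ) : Prop := f ∣ q ∧ Squarefree (q / f) ∧ (q / f).Coprime f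

lemma sum_r (Q f : ℕ) (hf : 0 < f) (hfQ : f ≤ Q) :
    Real.log Q / 2 ≤ ∑ q ∈ (Ioc 0 (Q ^ 2)).filter (good f), (f : ℝ) / q.totient := by
  have hf' : (0 : ℝ) < f := by exact_mod_cast hf
  have hφ : (0 : ℝ) < f.totient := by exact_mod_cast Nat.totient_pos.mpr hf
  set y := Q ^ 2 / f with hy
  have hyQ : Q ≤ y := by
    rw [hy, Nat.le_div_iff_mul_le hf, sq]
    exact Nat.mul_le_mul_left _ hfQ
  have h1 : Real.log Q ≤ ∑ n ∈ Icc 1 y, (1 : ℝ) / n := by
    refine le_trans ?_ (log_le_sum_inv y (by omega))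
    apply Real.log_le_log (by exact_mod_cast (by omega : 0 < Q))
    exact_mod_cast hyQ
  have h2 := harmonic_le_sqf y
  have h3 := sqf_le_mul y f hf.ne'
  have h4 := F2_le f hf.ne'
  have h5 : (0 : ℝ) ≤ ∑ b ∈ sqf y with b.Coprime f, (1 : ℝ) / b := by positivity
  have h6 : Real.log Q / 2 ≤ (f : ℝ) / f.totient * ∑ b ∈ sqf y with b.Coprime f, (1 : ℝ) / b := by
    have : F2 f * ∑ b ∈ sqf y with b.Coprime f, (1 : ℝ) / b
        ≤ (f : ℝ) / f.totient * ∑ b ∈ sqf y with b.Coprime f, (1 : ℝ) / b := by gcongr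
    linarith
  refine h6.trans ?_
  rw [mul_sum]
  apply sum_le_sum_of_injOn' _ _ (fun r => f * r)
  · intro r hr
    unfold sqf at hr
    rw [mem_filter, mem_filter, mem_Icc] at hr
    obtain ⟨⟨⟨hr1, hr2⟩, hr3⟩, hr4⟩ := hr
    rw [mem_filter, mem_Ioc]
    refine ⟨⟨Nat.mul_pos hf hr1, ?_⟩, dvd_mul_right _ _, ?_, ?_⟩
    · calc f * r ≤ f * y := Nat.mul_le_mul_left _ hr2
        _ ≤ Q ^ 2 := by rw [hy]; exact Nat.mul_div_le _ _
    · rw [Nat.mul_div_cancel_left _ hf]; exact hr3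
    · rw [Nat.mul_div_cancel_left _ hf]; exact hr4
  · intro r _ r' _ he
    simp only at he
    exact Nat.eq_of_mul_eq_mul_left hf he
  · intro r hr
    unfold sqf at hr
    rw [mem_filter, mem_filter, mem_Icc] at hr
    obtain ⟨⟨⟨hr1, hr2⟩, hr3⟩, hr4⟩ := hr
    rw [Nat.totient_mul hr4.symm]
    have h7 : (0 : ℝ) < r.totient := by exact_mod_cast Nat.totient_pos.mpr hr1
    have h8 : (r.totient : ℝ) ≤ r := by exact_mod_cast Nat.totient_le r
    push_cast
    rw [div_mul_div_comm, mul_one]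
    gcongr
  · intro q _
    positivity

/-! ### Characters modulo `q` -/

lemma tau_eq (q : ℕ) [NeZero q] (χ : DirichletCharacter ℂ q) :
    tau χ = ∑ x : ZMod q, χ x * ZMod.stdAddChar (N := q) x := by
  rw [sum_zmod]
  unfold tau
  refine sum_congr rfl fun u _ => ?_
  rw [std_eq_ee, ee_eq_e]

lemma twist (q : ℕ) [NeZero q] (χ : DirichletCharacter ℂ q) (n : ℕ) (hn : n.Coprime q) :
    ∑ x : ZMod q, χ⁻¹ x * ZMod.stdAddChar (N := q) (x * (n : ZMod q)) = χ n * tau χ⁻¹ := by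
  have h1 := gaussSum_mulShift_eq χ⁻¹ (ZMod.stdAddChar (N := q)) (ZMod.unitOfCoprime n hn)
  rw [inv_inv, ZMod.coe_unitOfCoprime] at h1
  rw [tau_eq]
  unfold gaussSum at h1
  rw [← h1]
  refine sum_congr rfl fun x _ => ?_
  rw [AddChar.mulShift_apply, mul_comm (n : ZMod q) x]

lemma sum_q (q : ℕ) (hq : 0 < q) (S : Finset ℕ) (hS : ∀ n ∈ S, n.Coprime q) (a : ℕ → ℂ) :
    (1 / (q.totient : ℝ)) * ∑ χ : DirichletCharacter ℂ q,
        ‖tau χ⁻¹‖ ^ 2 * ‖∑ n ∈ S, a n * χ (n : ZMod q)‖ ^ 2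
      = ∑ u ∈ (range q).filter (fun u => u.Coprime q),
        ‖∑ n ∈ S, a n * ee ((n : ℝ) * ((u : ℝ) / q))‖ ^ 2 := by
  have : NeZero q := ⟨hq.ne'⟩
  have hφ : (0 : ℝ) < q.totient := by exact_mod_cast Nat.totient_pos.mpr hq
  set E := ZMod.stdAddChar (N := q) with hE
  set S' : ZMod q → ℂ := fun x => ∑ n ∈ S, a n * E (x * (n : ZMod q)) with hS'
  have h1 : ∀ χ : DirichletCharacter ℂ q,
      ‖tau χ⁻¹‖ ^ 2 * ‖∑ n ∈ S, a n * χ (n : ZMod q)‖ ^ 2 = ‖∑ x : ZMod q, χ⁻¹ x * S' x‖ ^ 2 := by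
    intro χ
    rw [← mul_pow, ← norm_mul, mul_sum]
    congr 2
    have : ∀ n ∈ S, tau χ⁻¹ * (a n * χ (n : ZMod q))
        = ∑ x : ZMod q, χ⁻¹ x * (a n * E (x * (n : ZMod q))) := by
      intro n hn
      have h2 := twist q χ n (hS n hn)
      calc tau χ⁻¹ * (a n * χ (n : ZMod q)) = a n * (χ n * tau χ⁻¹) := by ring
        _ = _ := by
            rw [← h2, mul_sum]
            refine sum_congr rfl fun x _ => ?_
            ring
    rw [sum_congr rfl this, sum_comm]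
    refine sum_congr rfl fun x _ => ?_
    rw [hS', mul_sum]
  simp only [h1]
  rw [sum_char_sq]
  rw [← mul_assoc, one_div_mul_cancel hφ.ne', one_mul, sum_zmod, sum_filter]
  refine sum_congr rfl fun u _ => ?_
  have h3 : IsUnit ((u : ℕ) : ZMod q) ↔ u.Coprime q := ZMod.isUnit_iff_coprime u q
  by_cases hu : u.Coprime q
  · rw [if_pos (h3.mpr hu), if_pos hu]
    congr 2
    refine sum_congr rfl fun n _ => ?_
    rw [← Nat.cast_mul, hE, std_eq_ee]
    congr 2
    push_cast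
    ring
  · rw [if_neg (fun h => hu (h3.mp h)), if_neg hu]

lemma norm_tau (hT : Stmt_TAU) (q : ℕ) (hq : 0 < q) (χ : DirichletCharacter ℂ q)
    (hg : good χ.conductor q) : ‖tau χ⁻¹‖ ^ 2 = χ.conductor := by
  have : NeZero q := ⟨hq.ne'⟩
  have h0 : χ⁻¹.conductor = χ.conductor := DirichletCharacter.conductor_inv χ
  obtain ⟨h1, h2⟩ := hT q hq χ⁻¹
  obtain ⟨h3, h4, h5⟩ := hg
  rw [h1, norm_mul, norm_mul, h2]
  have h6 : ‖χ⁻¹.primitiveCharacter ((q / χ⁻¹.conductor : ℕ) : ZMod χ⁻¹.conductor)‖ = 1 := by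
    have h7 : IsUnit (((q / χ⁻¹.conductor : ℕ) : ZMod χ⁻¹.conductor)) := by
      rw [ZMod.isUnit_iff_coprime, h0]
      exact h5
    obtain ⟨u, hu⟩ := h7
    rw [← hu]
    exact DirichletCharacter.unit_norm_eq_one _ u
  rw [h6, h0]
  have h8 : ‖((ArithmeticFunction.moebius (q / χ.conductor) : ℤ) : ℂ)‖ = 1 := by
    rw [ArithmeticFunction.moebius_apply_of_squarefree h4]
    push_cast
    rw [norm_pow, norm_neg, norm_one, one_pow]
  rw [h8, mul_one, one_mul, Real.sq_sqrt (Nat.cast_nonneg _)]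

lemma changeLevel_apply (f q : ℕ) (h : f ∣ q) (ψ : DirichletCharacter ℂ f) (n : ℕ)
    (hn : n.Coprime q) :
    DirichletCharacter.changeLevel h ψ (n : ZMod q) = ψ (n : ZMod f) := by
  have h1 : IsCoprime (n : ℤ) (q : ℤ) := Nat.isCoprime_iff_coprime.mpr hn
  have := DirichletCharacter.changeLevel_eq_cast_of_dvd' ψ h h1
  simpa using this

/-- lower bound of the sum over the characters mod `q` by the primitive characters -/
lemma sum_chi (hT : Stmt_TAU) (Q q : ℕ) (hq : 0 < q) (S : Finset ℕ) (hS : ∀ n ∈ S, n.Coprime q)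
    (a : ℕ → ℂ) :
    ∑ x ∈ (Fam Q).filter (fun x => good x.1 q), (x.1 : ℝ) * ‖∑ n ∈ S, a n * x.2 (n : ZMod x.1)‖ ^ 2
      ≤ ∑ χ : DirichletCharacter ℂ q, ‖tau χ⁻¹‖ ^ 2 * ‖∑ n ∈ S, a n * χ (n : ZMod q)‖ ^ 2 := by
  have : NeZero q := ⟨hq.ne'⟩
  have hmem : ∀ x ∈ (Fam Q).filter (fun x => good x.1 q), ∀ h : x.1 ∣ q,
      (DirichletCharacter.changeLevel h x.2).conductor = x.1 := by
    intro x hx h
    rw [mem_filter] at hx
    unfold Fam at hx
    rw [mem_sigma] at hx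
    rw [DirichletCharacter.conductor_changeLevel]
    have := hx.1.2
    unfold PC at this
    rw [mem_filter] at this
    exact this.2
  apply sum_le_sum_of_injOn' _ _
    (fun x : Ch => if h : x.1 ∣ q then DirichletCharacter.changeLevel h x.2 else 1)
  · intro x _
    exact mem_univ _
  · intro x hx y hy he
    have hx1 : x.1 ∣ q := (mem_filter.mp hx).2.1
    have hy1 : y.1 ∣ q := (mem_filter.mp hy).2.1
    simp only [dif_pos hx1, dif_pos hy1] at he
    have h1 := hmem x hx hx1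
    have h2 := hmem y hy hy1
    rw [he, h2] at h1
    obtain ⟨f, ψ⟩ := x
    obtain ⟨g, ψ'⟩ := y
    simp only at h1
    subst h1
    have h3 : ψ = ψ' := DirichletCharacter.changeLevel_injective hx1 he
    rw [h3]
  · intro x hx
    have hx1 : x.1 ∣ q := (mem_filter.mp hx).2.1
    rw [dif_pos hx1]
    have h1 := hmem x hx hx1
    rw [norm_tau hT q hq _ (by rw [h1]; exact (mem_filter.mp hx).2), h1]
    refine le_of_eq ?_
    congr 3
    refine sum_congr rfl fun n hn => ?_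
    rw [changeLevel_apply _ _ _ _ _ (hS n hn)]
  · intro χ _
    positivity

lemma shifted (R M N : ℕ) (a : ℕ → ℂ) :
    ∑ p ∈ Farey R, ‖∑ n ∈ Ioc M (M + N), a n * ee ((n : ℝ) * ((p.2 : ℝ) / p.1))‖ ^ 2
      ≤ 8 * (N + R ^ 2 : ℝ) * ∑ n ∈ Ioc M (M + N), ‖a n‖ ^ 2 := by
  have hs : ∀ {β : Type} [AddCommMonoid β] (f : ℕ → β),
      ∑ n ∈ Ioc M (M + N), f n = ∑ n ∈ Ioc 0 N, f (n + M) := by
    intro β _ f
    symm
    refine sum_bij' (fun n _ => n + M) (fun n _ => n - M) ?_ ?_ ?_ ?_ ?_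
    · intro n hn
      rw [mem_Ioc] at hn ⊢
      omega
    · intro n hn
      rw [mem_Ioc] at hn ⊢
      omega
    · intro n hn
      rw [mem_Ioc] at hn
      omega
    · intro n hn
      rw [mem_Ioc] at hn
      omega
    · intro n _
      rfl
  have h1 := additive_large_sieve R N (fun n => a (n + M))
  rw [hs (fun n => ‖a n‖ ^ 2)]
  refine le_trans (le_of_eq ?_) h1
  refine sum_congr rfl fun p _ => ?_
  rw [hs (fun n => a n * ee ((n : ℝ) * ((p.2 : ℝ) / p.1)))]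
  have h2 : ∑ n ∈ Ioc 0 N, a (n + M) * ee (((n + M : ℕ) : ℝ) * ((p.2 : ℝ) / p.1))
      = ee ((M : ℝ) * ((p.2 : ℝ) / p.1)) * ∑ n ∈ Ioc 0 N, a (n + M) * ee ((n : ℝ) * ((p.2 : ℝ) / p.1)) := by
    rw [mul_sum]
    refine sum_congr rfl fun n _ => ?_
    rw [Nat.cast_add, add_mul, ee_add]
    ring
  rw [h2, norm_mul, norm_ee, one_mul]

end Pls

open Pls in
theorem stmt_PLS (hT : Stmt_TAU) : Stmt_PLS := by
  refine ⟨16, by norm_num, fun Q M N hQ S hS hco a => ?_⟩
  have hlog : 0 < Real.log Q := Real.log_pos (by exact_mod_cast (by omega : 1 < Q))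
  set V : Ch → ℝ := fun x => ‖∑ n ∈ S, a n * x.2 (n : ZMod x.1)‖ ^ 2 with hV
  set b : ℕ → ℂ := fun n => if n ∈ S then a n else 0 with hb
  have hbs : ∀ g : ℕ → ℂ, ∑ n ∈ Ioc M (M + N), b n * g n = ∑ n ∈ S, a n * g n := by
    intro g
    rw [← sum_subset hS]
    · refine sum_congr rfl fun n hn => ?_
      rw [hb]
      simp only [if_pos hn]
    · intro n _ hn
      rw [hb]
      simp only [if_neg hn, zero_mul]
  have hbn : ∑ n ∈ Ioc M (M + N), ‖b n‖ ^ 2 = ∑ n ∈ S, ‖a n‖ ^ 2 := by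
    rw [← sum_subset hS]
    · refine sum_congr rfl fun n hn => ?_
      rw [hb]
      simp only [if_pos hn]
    · intro n _ hn
      rw [hb]
      simp only [if_neg hn, norm_zero]
      norm_num
  have h1 := shifted (Q ^ 2) M N b
  rw [hbn] at h1
  have h2 : ∑ p ∈ Farey (Q ^ 2), ‖∑ n ∈ Ioc M (M + N), b n * ee ((n : ℝ) * ((p.2 : ℝ) / p.1))‖ ^ 2
      = ∑ q ∈ Ioc 0 (Q ^ 2), ∑ u ∈ (range q).filter (fun u => u.Coprime q),
        ‖∑ n ∈ S, a n * ee ((n : ℝ) * ((u : ℝ) / q))‖ ^ 2 := by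
    unfold Farey
    rw [sum_filter, sum_product]
    refine sum_congr rfl fun r hr => ?_
    rw [mem_Ioc] at hr
    rw [sum_filter]
    have hsub : range r ⊆ range (Q ^ 2 + 1) := by
      intro u hu
      rw [mem_range] at hu ⊢
      omega
    rw [← sum_subset hsub]
    · refine sum_congr rfl fun u hu => ?_
      rw [mem_range] at hu
      simp only [hu, true_and]
      rw [hbs fun n => ee ((n : ℝ) * ((u : ℝ) / r))]
    · intro u _ hu
      rw [mem_range] at hu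
      rw [if_neg]
      simp only
      tauto
  rw [h2] at h1
  have h3 : ∑ q ∈ Ioc 0 (Q ^ 2), (1 / (q.totient : ℝ)) *
      ∑ x ∈ (Fam Q).filter (fun x => good x.1 q), (x.1 : ℝ) * V x
      ≤ 8 * (N + ((Q ^ 2 : ℕ) : ℝ) ^ 2) * ∑ n ∈ S, ‖a n‖ ^ 2 := by
    refine le_trans (sum_le_sum fun q hq => ?_) h1
    rw [mem_Ioc] at hq
    have hS' : ∀ n ∈ S, n.Coprime q := fun n hn => hco n hn q hq.1 hq.2
    rw [← sum_q q hq.1 S hS' a]
    apply mul_le_mul_of_nonneg_left (sum_chi hT Q q hq.1 S hS' a)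
    positivity
  have h4 : ∑ q ∈ Ioc 0 (Q ^ 2), (1 / (q.totient : ℝ)) *
      ∑ x ∈ (Fam Q).filter (fun x => good x.1 q), (x.1 : ℝ) * V x
      = ∑ x ∈ Fam Q, (∑ q ∈ (Ioc 0 (Q ^ 2)).filter (good x.1), (x.1 : ℝ) / q.totient) * V x := by
    have e1 : ∀ q ∈ Ioc 0 (Q ^ 2), (1 / (q.totient : ℝ)) *
        ∑ x ∈ (Fam Q).filter (fun x => good x.1 q), (x.1 : ℝ) * V x
        = ∑ x ∈ Fam Q, if good x.1 q then (x.1 : ℝ) / q.totient * V x else 0 := by
      intro q _
      rw [sum_filter, mul_sum]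
      refine sum_congr rfl fun x _ => ?_
      split_ifs
      · ring
      · rw [mul_zero]
    rw [sum_congr rfl e1, sum_comm]
    refine sum_congr rfl fun x _ => ?_
    rw [sum_mul, sum_filter]
  rw [h4] at h3
  have h5 : ∑ x ∈ Fam Q, Real.log Q / 2 * V x
      ≤ ∑ x ∈ Fam Q, (∑ q ∈ (Ioc 0 (Q ^ 2)).filter (good x.1), (x.1 : ℝ) / q.totient) * V x := by
    refine sum_le_sum fun x hx => ?_
    unfold Fam at hx
    rw [mem_sigma, mem_Ioc] at hx
    apply mul_le_mul_of_nonneg_right (sum_r Q x.1 hx.1.1 hx.1.2)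
    rw [hV]
    positivity
  rw [← mul_sum] at h5
  have h6 := h5.trans h3
  push_cast at h6
  rw [div_mul_eq_mul_div, div_mul_eq_mul_div, le_div_iff₀ hlog]
  calc (∑ x ∈ Fam Q, V x) * Real.log Q = 2 * (Real.log Q / 2 * ∑ x ∈ Fam Q, V x) := by ring
    _ ≤ 2 * (8 * (N + ((Q : ℝ) ^ 2) ^ 2) * ∑ n ∈ S, ‖a n‖ ^ 2) := by linarith
    _ = _ := by ring

end Pool.Agent.PS
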