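import Pool.Agent.Work.PS.GAL
import Pool.Agent.Work.PS.PLS

/-!
# HLS: hybrid large sieve for primes
-/

set_option autoImplicit false

namespace Pool.Agent.PS

open MeasureTheory Real
open Pool.Agent.Circle (e norm_e e_add e_neg conj_e e_zero)
open scoped Classical

namespace Hls

/-- the frequencies -/
noncomputable def fr (n : ℕ) : ℝ := -Real.log n / (2 * π)

lemma cpow_eq (p : ℕ) (hp : 0 < p) (t : ℝ) : (p : ℂ) ^ (-((t : ℂ) * Complex.I)) = e (fr p * t) := by
  have hp' : (p : ℂ) ≠ 0 := by exact_mod_cast hp.ne'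
  have hpi : (π : ℂ) ≠ 0 := by exact_mod_cast pi_ne_zero
  rw [Complex.cpow_def_of_ne_zero hp']
  unfold e fr
  congr 1
  rw [← Complex.natCast_log]
  push_cast
  field_simp

open Gal in
lemma win_eq (δ a u : ℝ) : (if |a - u| ≤ δ then (1 : ℂ) else 0) = win (2 * δ) a u := by
  unfold win
  by_cases h : |a - u| ≤ δ
  · rw [if_pos h, Set.indicator_of_mem]
    rw [abs_le] at h
    exact ⟨by linarith, by linarith⟩
  · rw [if_neg h, Set.indicator_of_notMem]
    intro h'
    apply h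
    rw [Set.mem_Icc] at h'
    rw [abs_le]
    exact ⟨by linarith, by linarith⟩

open Gal in
lemma win_integrable_sq (S : Finset ℕ) (ν : ℕ → ℝ) (c : ℕ → ℂ) (δ : ℝ) :
    Integrable fun u => ‖∑ n ∈ S.filter (fun n => |ν n - u| ≤ δ), c n‖ ^ 2 := by
  have h0 : (fun u => ‖∑ n ∈ S.filter (fun n => |ν n - u| ≤ δ), c n‖ ^ 2)
      = fun u => ‖∑ n ∈ S, c n * win (2 * δ) (ν n) u‖ ^ 2 := by
    ext u
    rw [Finset.sum_filter]
    congr 2
    refine Finset.sum_congr rfl fun n _ => ?_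
    rw [← win_eq]
    split_ifs <;> simp
  rw [h0]
  refine MemLp.integrable_norm_pow (p := 2) ?_ (by norm_num)
  refine memLp_finsetSum _ fun n _ => ?_
  refine MemLp.const_mul ?_ _
  unfold win
  exact memLp_indicator_const _ measurableSet_Icc _ (Or.inr (by simp))

lemma win_integral (S : Finset ℕ) (ν : ℕ → ℝ) (w : ℕ → ℝ) (δ : ℝ) (hδ : 0 < δ) :
    (Integrable fun u => ∑ n ∈ S.filter (fun n => |ν n - u| ≤ δ), w n) ∧
    ∫ u, ∑ n ∈ S.filter (fun n => |ν n - u| ≤ δ), w n = (2 * δ) * ∑ n ∈ S, w n := by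
  have h0 : (fun u => ∑ n ∈ S.filter (fun n => |ν n - u| ≤ δ), w n)
      = fun u => ∑ n ∈ S, Set.indicator (Set.Icc (ν n - δ) (ν n + δ)) (fun _ => w n) u := by
    ext u
    rw [Finset.sum_filter]
    refine Finset.sum_congr rfl fun n _ => ?_
    by_cases h : |ν n - u| ≤ δ
    · rw [if_pos h, Set.indicator_of_mem]
      rw [abs_le] at h
      exact ⟨by linarith, by linarith⟩
    · rw [if_neg h, Set.indicator_of_notMem]
      intro h'
      apply h
      rw [Set.mem_Icc] at h'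
      rw [abs_le]
      exact ⟨by linarith, by linarith⟩
  have h1 : ∀ n, Integrable (Set.indicator (Set.Icc (ν n - δ) (ν n + δ)) (fun _ => w n)) := by
    intro n
    rw [integrable_indicator_iff measurableSet_Icc]
    exact integrableOn_const (by simp)
  rw [h0]
  refine ⟨integrable_finsetSum _ fun n _ => h1 n, ?_⟩
  rw [integral_finsetSum _ fun n _ => h1 n, Finset.mul_sum]
  refine Finset.sum_congr rfl fun n _ => ?_
  rw [integral_indicator measurableSet_Icc, setIntegral_const, Real.volume_real_Icc_of_le (by linarith),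
    smul_eq_mul]
  ring

/-- the windows are short -/
lemma window (T u : ℝ) (hT : 1 ≤ T) (S : Finset ℕ) (hS : ∀ p ∈ S, 0 < p)
    (hne : (S.filter (fun p => |fr p - u| ≤ 1 / (4 * T))).Nonempty) :
    ∃ M N : ℕ, S.filter (fun p => |fr p - u| ≤ 1 / (4 * T)) ⊆ Finset.Ioc M (M + N) ∧
      ∀ p ∈ S.filter (fun p => |fr p - u| ≤ 1 / (4 * T)), (N : ℝ) ≤ π * exp π * p / T + 1 := by
  have hT0 : 0 < T := by linarith
  set y := exp (-(2 * π * u)) with hy
  set A := y * exp (-(π / (2 * T))) with hA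
  set B := y * exp (π / (2 * T)) with hB
  have hA0 : 0 < A := by positivity
  have key : ∀ p ∈ S.filter (fun p => |fr p - u| ≤ 1 / (4 * T)), A ≤ (p : ℝ) ∧ (p : ℝ) ≤ B := by
    intro p hp
    rw [Finset.mem_filter] at hp
    have hp0 : (0 : ℝ) < p := by exact_mod_cast hS p hp.1
    have h1 := abs_le.mp hp.2
    unfold fr at h1
    have hpi := pi_pos
    have h2 : -Real.log p / (2 * π) * (2 * π) = -Real.log p := by field_simp
    have h3 : 1 / (4 * T) * (2 * π) = π / (2 * T) := by field_simp; norm_num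
    have h4 : Real.log p ≤ -(2 * π * u) + π / (2 * T) := by
      have := mul_le_mul_of_nonneg_right h1.1 (by positivity : (0 : ℝ) ≤ 2 * π)
      have e1 : (-Real.log p / (2 * π) - u) * (2 * π) = -Real.log p - 2 * π * u := by
        rw [sub_mul, h2]; ring
      rw [e1, neg_mul, h3] at this
      linarith
    have h5 : -(2 * π * u) - π / (2 * T) ≤ Real.log p := by
      have := mul_le_mul_of_nonneg_right h1.2 (by positivity : (0 : ℝ) ≤ 2 * π)
      have e1 : (-Real.log p / (2 * π) - u) * (2 * π) = -Real.log p - 2 * π * u := by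
        rw [sub_mul, h2]; ring
      rw [e1, h3] at this
      linarith
    constructor
    · rw [hA, hy, ← exp_add]
      calc exp (-(2 * π * u) + -(π / (2 * T))) ≤ exp (Real.log p) := by
            apply exp_le_exp.mpr; linarith
        _ = p := exp_log hp0
    · rw [hB, hy, ← exp_add]
      calc (p : ℝ) = exp (Real.log p) := (exp_log hp0).symm
        _ ≤ _ := exp_le_exp.mpr h4
  have hAB : B - A ≤ A * (π * exp π / T) := by
    have e1 : B = A * exp (π / T) := by
      have e2 : π / (2 * T) = -(π / (2 * T)) + π / T := by field_simp; norm_num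
      rw [hA, hB, mul_assoc]
      congr 1
      rw [← exp_add, ← e2]
    rw [e1]
    have h1 : exp (π / T) - 1 ≤ π / T * exp (π / T) := by
      have := Real.add_one_le_exp (-(π / T))
      have h2 : exp (π / T) * exp (-(π / T)) = 1 := by rw [← exp_add]; simp
      have h3 := exp_pos (π / T)
      nlinarith
    have h2 : exp (π / T) ≤ exp π := by
      apply exp_le_exp.mpr
      rw [div_le_iff₀ hT0]
      nlinarith [pi_pos]
    have h3 : π / T * exp (π / T) ≤ π * exp π / T := by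
      rw [div_mul_eq_mul_div]
      have := pi_pos
      gcongr
    calc A * exp (π / T) - A = A * (exp (π / T) - 1) := by ring
      _ ≤ A * (π * exp π / T) := by
          apply mul_le_mul_of_nonneg_left _ hA0.le
          linarith
  obtain ⟨p0, hp0⟩ := hne
  have hc1 : 1 ≤ ⌈A⌉₊ := Nat.one_le_iff_ne_zero.mpr (Nat.ceil_pos.mpr hA0).ne'
  have hm : ⌈A⌉₊ - 1 < ⌊B⌋₊ := by
    have h1 : ⌈A⌉₊ ≤ p0 := Nat.ceil_le.mpr (key p0 hp0).1
    have h2 : p0 ≤ ⌊B⌋₊ := Nat.le_floor (key p0 hp0).2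
    omega
  refine ⟨⌈A⌉₊ - 1, ⌊B⌋₊ - (⌈A⌉₊ - 1), ?_, ?_⟩
  · intro p hp
    rw [Finset.mem_Ioc]
    have h1 : ⌈A⌉₊ ≤ p := Nat.ceil_le.mpr (key p hp).1
    have h2 : p ≤ ⌊B⌋₊ := Nat.le_floor (key p hp).2
    omega
  · intro p hp
    have h1 := (key p hp).1
    rw [Nat.cast_sub hm.le, Nat.cast_sub hc1, Nat.cast_one]
    have h2 : (⌊B⌋₊ : ℝ) ≤ B := Nat.floor_le (by positivity)
    have h3 : A ≤ (⌈A⌉₊ : ℝ) := Nat.le_ceil A
    have h4 : A * (π * exp π / T) ≤ π * exp π * p / T := by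
      rw [mul_div_assoc', mul_comm A]
      have := pi_pos
      gcongr
    linarith

end Hls

open Hls in
theorem stmt_HLS (hP : Stmt_PLS) : Stmt_HLS := by
  obtain ⟨C1, hC1, hG⟩ := stmt_GAL
  obtain ⟨C2, hC2, hP⟩ := hP
  set K : ℝ := π * exp π with hK
  have hK0 : 0 < K := by positivity
  refine ⟨C1 * C2 * (K + 2), by positivity, fun Q T hQ hT S hS a => ?_⟩
  have hT0 : 0 < T := by linarith
  have hlog : 0 < Real.log Q := Real.log_pos (by exact_mod_cast (by omega : 1 < Q))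
  have hQ1 : (1 : ℝ) ≤ Q := by exact_mod_cast (by omega : 1 ≤ Q)
  have hp0 : ∀ p ∈ S, 0 < p := fun p hp => (hS p hp).1.pos
  -- Gallagher
  have h1 : ∀ x : Ch, (∫ t in (-T)..T,
      ‖∑ p ∈ S, a p * x.2 (p : ZMod x.1) * (p : ℂ) ^ (-((t : ℂ) * Complex.I))‖ ^ 2)
      ≤ C1 * T ^ 2 * ∫ u : ℝ, ‖∑ p ∈ S.filter (fun n => |fr n - u| ≤ 1 / (4 * T)),
        a p * x.2 (p : ZMod x.1)‖ ^ 2 := by
    intro x
    have := hG S fr (fun p => a p * x.2 (p : ZMod x.1)) T hT0
    refine le_trans (le_of_eq ?_) this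
    refine intervalIntegral.integral_congr fun t _ => ?_
    show ‖_‖ ^ 2 = ‖_‖ ^ 2
    congr 2
    refine Finset.sum_congr rfl fun p hp => ?_
    rw [cpow_eq p (hp0 p hp)]
  set w : ℕ → ℝ := fun p => C2 / Real.log Q * (K * p / T + 1 + (Q : ℝ) ^ 4) * ‖a p‖ ^ 2 with hw
  have hw0 : ∀ p, 0 ≤ w p := by
    intro p
    rw [hw]
    positivity
  -- the large sieve at `u`
  have h2 : ∀ u : ℝ, ∑ x ∈ Fam Q, ‖∑ p ∈ S.filter (fun n => |fr n - u| ≤ 1 / (4 * T)),
        a p * x.2 (p : ZMod x.1)‖ ^ 2 ≤ ∑ p ∈ S.filter (fun n => |fr n - u| ≤ 1 / (4 * T)), w p := by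
    intro u
    set W := S.filter (fun n => |fr n - u| ≤ 1 / (4 * T)) with hW
    rcases W.eq_empty_or_nonempty with he | hne
    · rw [he]
      simp
    · obtain ⟨M, N, hsub, hN⟩ := window T u hT S hp0 hne
      rw [← hW] at hsub hN
      have h3 := hP Q M N hQ W hsub (fun n hn d hd0 hd => by
        have hn' := hS n (Finset.mem_of_mem_filter n hn)
        rw [Nat.Prime.coprime_iff_not_dvd hn'.1]
        intro hdvd
        have := Nat.le_of_dvd hd0 hdvd
        omega) a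
      refine h3.trans ?_
      rw [Finset.mul_sum]
      refine Finset.sum_le_sum fun p hp => ?_
      rw [hw]
      simp only
      gcongr
      exact hN p hp
  have h3 : ∑ x ∈ Fam Q, (∫ u : ℝ, ‖∑ p ∈ S.filter (fun n => |fr n - u| ≤ 1 / (4 * T)),
        a p * x.2 (p : ZMod x.1)‖ ^ 2) ≤ 1 / (2 * T) * ∑ p ∈ S, w p := by
    rw [← integral_finsetSum]
    · have h4 := win_integral S fr w (1 / (4 * T)) (by positivity)
      calc _ ≤ ∫ u, ∑ n ∈ S.filter (fun n => |fr n - u| ≤ 1 / (4 * T)), w n := by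
            refine integral_mono ?_ h4.1 h2
            exact integrable_finsetSum _ fun x _ => win_integrable_sq S fr _ _
        _ = _ := by
            rw [h4.2]
            congr 1
            field_simp
            norm_num
    · intro x _
      exact win_integrable_sq S fr _ _
  calc _ ≤ ∑ x ∈ Fam Q, C1 * T ^ 2 * ∫ u : ℝ, ‖∑ p ∈ S.filter (fun n => |fr n - u| ≤ 1 / (4 * T)),
        a p * x.2 (p : ZMod x.1)‖ ^ 2 := Finset.sum_le_sum fun x _ => h1 x
    _ = C1 * T ^ 2 * ∑ x ∈ Fam Q, ∫ u : ℝ, ‖∑ p ∈ S.filter (fun n => |fr n - u| ≤ 1 / (4 * T)),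
        a p * x.2 (p : ZMod x.1)‖ ^ 2 := by rw [Finset.mul_sum]
    _ ≤ C1 * T ^ 2 * (1 / (2 * T) * ∑ p ∈ S, w p) := by gcongr
    _ = ∑ p ∈ S, C1 * C2 / Real.log Q * (T / 2 * (K * p / T + 1 + (Q : ℝ) ^ 4)) * ‖a p‖ ^ 2 := by
        rw [Finset.mul_sum, Finset.mul_sum]
        refine Finset.sum_congr rfl fun p _ => ?_
        rw [hw]
        field_simp
    _ ≤ ∑ p ∈ S, C1 * C2 / Real.log Q * ((K + 2) * (p + (Q : ℝ) ^ 4 * T)) * ‖a p‖ ^ 2 := by
        refine Finset.sum_le_sum fun p _ => ?_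
        refine mul_le_mul_of_nonneg_right (mul_le_mul_of_nonneg_left ?_ (by positivity)) (by positivity)
        have e1 : T / 2 * (K * p / T + 1 + (Q : ℝ) ^ 4) = K * p / 2 + T / 2 * (1 + (Q : ℝ) ^ 4) := by
          field_simp
          ring
        rw [e1]
        have e2 : (1 : ℝ) ≤ (Q : ℝ) ^ 4 := one_le_pow₀ hQ1
        have e3 : (0 : ℝ) ≤ p := Nat.cast_nonneg p
        have e4 : T / 2 * (1 + (Q : ℝ) ^ 4) ≤ (Q : ℝ) ^ 4 * T := by nlinarith
        have e5 : 0 ≤ (Q : ℝ) ^ 4 * T := by positivity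
        nlinarith [mul_nonneg hK0.le e3, mul_nonneg hK0.le e5]
    _ = _ := by
        rw [Finset.mul_sum]
        refine Finset.sum_congr rfl fun p _ => ?_
        ring

end Pool.Agent.PS
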