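import Pool.Agent.Work.PS.CM
import Pool.Agent.Work.Circle.SingLower

/-!
# K1, K2: the coefficients of the principal and of the exceptional pair
-/

set_option autoImplicit false

namespace Pool.Agent.PS

open Finset ArithmeticFunction
open Pool.Agent.BV (PC)
open Pool.Agent.Circle (e rsum sing rsum_mul)
open scoped Classical ArithmeticFunction.Moebius

lemma ch_ext {q : ℕ} [NeZero q] (x y : Ch) (hx : x.1 ∣ q) (hy : y.1 ∣ q) (h1 : x.1 = y.1)
    (h2 : DirichletCharacter.changeLevel hx x.2 = DirichletCharacter.changeLevel hy y.2) :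
    x = y := by
  obtain ⟨a, χ⟩ := x
  obtain ⟨b, ψ⟩ := y
  simp only at h1
  subst h1
  congr 1
  exact DirichletCharacter.changeLevel_injective hx h2

lemma changeLevel_pr {q : ℕ} (χ : DirichletCharacter ℂ q) :
    DirichletCharacter.changeLevel (show (pr χ).1 ∣ q from χ.conductor_dvd_level) (pr χ).2 = χ :=
  χ.changeLevel_primitiveCharacter

lemma pr_eq_iff {q : ℕ} [NeZero q] (χ : DirichletCharacter ℂ q) (y : Ch) (hy : y.2.IsPrimitive) :
    pr χ = y ↔ ∃ h : y.1 ∣ q, DirichletCharacter.changeLevel h y.2 = χ := by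
  constructor
  · rintro rfl
    exact ⟨χ.conductor_dvd_level, changeLevel_pr χ⟩
  · rintro ⟨h, rfl⟩
    have h0 : NeZero y.1 := ⟨fun h0 => by
      rw [h0] at h; exact NeZero.ne q (Nat.eq_zero_of_zero_dvd h)⟩
    apply ch_ext (q := q) _ _ (DirichletCharacter.conductor_dvd_level _) h
    · change DirichletCharacter.conductor _ = _
      rw [DirichletCharacter.conductor_changeLevel]
      exact hy
    · exact changeLevel_pr _

lemma isPrimitive_of_mem_Fam {P : ℕ} {y : Ch} (hy : y ∈ Fam P) :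
    y.2.IsPrimitive ∧ 0 < y.1 ∧ y.1 ≤ P := by
  rw [Fam, mem_sigma, mem_Ioc] at hy
  exact ⟨(mem_filter.1 hy.2).2, hy.1.1, hy.1.2⟩

lemma One_isPrimitive : One.2.IsPrimitive := DirichletCharacter.isPrimitive_one_level_one

lemma pr_eq_One_iff {q : ℕ} [NeZero q] (χ : DirichletCharacter ℂ q) : pr χ = One ↔ χ = 1 := by
  rw [pr_eq_iff χ One One_isPrimitive]
  constructor
  · rintro ⟨h, rfl⟩
    exact map_one _
  · rintro rfl
    exact ⟨one_dvd q, map_one _⟩

lemma tau_eq_pr {q : ℕ} (hq : 0 < q) (χ : DirichletCharacter ℂ q) :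
    tau χ = (μ (q / (pr χ).1) : ℂ) * (pr χ).2 ((q / (pr χ).1 : ℕ) : ZMod (pr χ).1) *
      tau (pr χ).2 := (stmt_TAU q hq χ).1

lemma tau_One : tau One.2 = 1 := by
  unfold tau
  change ∑ a ∈ range 1, (1 : DirichletCharacter ℂ 1) (a : ZMod 1) * e ((a : ℝ) / (1 : ℕ)) = 1
  rw [sum_range_one, MulChar.one_apply]
  · simp [Pool.Agent.Circle.e_zero]
  · exact isUnit_of_subsingleton _

lemma tau_one {q : ℕ} (hq : 0 < q) : tau (1 : DirichletCharacter ℂ q) = (μ q : ℂ) := by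
  have hqz : NeZero q := ⟨hq.ne'⟩
  rw [tau_eq_pr hq, (pr_eq_One_iff (1 : DirichletCharacter ℂ q)).2 rfl, tau_One, mul_one]
  change (μ (q / 1) : ℂ) * (1 : DirichletCharacter ℂ 1) ((q / 1 : ℕ) : ZMod 1) = _
  rw [Nat.div_one, MulChar.one_apply (isUnit_of_subsingleton _), mul_one]

theorem stmt_K1 : Stmt_K1 := by
  intro P m hm
  unfold sing
  rw [Complex.ofReal_sum]
  refine sum_congr rfl fun q hq => ?_
  rw [mem_Ioc] at hq
  have hqz : NeZero q := ⟨hq.1.ne'⟩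
  rw [sum_eq_single (1 : DirichletCharacter ℂ q), sum_eq_single (1 : DirichletCharacter ℂ q),
    if_pos ⟨(pr_eq_One_iff _).2 rfl, (pr_eq_One_iff _).2 rfl⟩]
  · unfold Kq
    rw [inv_one, mul_one, tau_one hq.1, (stmt_CM q hq.1 1 m hm).2.2]
    push_cast
    ring
  · intro χ _ hχ
    rw [if_neg fun h => hχ ((pr_eq_One_iff _).1 h.2)]
  · intro h; exact absurd (mem_univ _) h
  · intro χ _ hχ
    apply sum_eq_zero
    intro χ' _
    rw [if_neg fun h => hχ ((pr_eq_One_iff _).1 h.1)]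
  · intro h; exact absurd (mem_univ _) h

lemma norm_tau_sq {r : ℕ} (hr : 0 < r) (ψ : DirichletCharacter ℂ r) (hψ : ψ.IsPrimitive) :
    ‖tau ψ‖ ^ 2 = r := by
  have hrz : NeZero r := ⟨hr.ne'⟩
  rw [tau_eq_gaussSum]
  exact Pool.Agent.Work.MP_081200_nt.norm_gauss r ψ hψ

/-- Sums over the multiples of `r` up to `P`. -/
lemma sum_multiples {M : Type*} [AddCommMonoid M] (P r : ℕ) (hr : 0 < r) (F : ℕ → M) :
    ∑ q ∈ Ioc 0 P, (if r ∣ q then F q else 0) = ∑ k ∈ Ioc 0 (P / r), F (r * k) := by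
  rw [← sum_filter]
  symm
  apply sum_bij (fun k _ => r * k)
  · intro k hk
    rw [mem_Ioc] at hk
    rw [mem_filter, mem_Ioc]
    refine ⟨⟨Nat.mul_pos hr hk.1, ?_⟩, dvd_mul_right r k⟩
    calc r * k ≤ r * (P / r) := Nat.mul_le_mul_left r hk.2
      _ ≤ P := Nat.mul_div_le P r
  · intro a _ b _ h
    exact Nat.eq_of_mul_eq_mul_left hr h
  · intro q hq
    rw [mem_filter, mem_Ioc] at hq
    obtain ⟨⟨h1, h2⟩, k, rfl⟩ := hq
    refine ⟨k, ?_, rfl⟩
    rw [mem_Ioc]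
    refine ⟨Nat.pos_of_mul_pos_left h1 |> fun h => ?_, ?_⟩
    · exact Nat.pos_of_ne_zero fun h0 => by rw [h0] at h1; simp at h1
    · rw [Nat.le_div_iff_mul_le hr, mul_comm]; exact h2
  · intro k _; rfl

theorem stmt_K2 : Stmt_K2 := by
  intro P m hm y hy hy2
  obtain ⟨hprim, hr0, hrP⟩ := isPrimitive_of_mem_Fam hy
  obtain ⟨r, ψ⟩ := y
  simp only at hprim hr0 hrP hy2
  have hrz : NeZero r := ⟨hr0.ne'⟩
  set T := tau ψ with hT
  have hTn : ‖T‖ ^ 2 = r := norm_tau_sq hr0 ψ hprim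
  -- the inner sum for one modulus
  have hq : ∀ q ∈ Ioc 0 P, ∑ χ : DirichletCharacter ℂ q, ∑ χ' : DirichletCharacter ℂ q,
      (if pr χ = ⟨r, ψ⟩ ∧ pr χ' = ⟨r, ψ⟩ then Kq χ χ' m else 0)
      = if r ∣ q then (T ^ 2 * ((1 / (q.totient : ℂ) ^ 2) * ((μ (q / r) : ℂ) *
        ψ ((q / r : ℕ) : ZMod r)) ^ 2 * (rsum m q : ℂ))) else 0 := by
    intro q hq
    rw [mem_Ioc] at hq
    have hqz : NeZero q := ⟨hq.1.ne'⟩
    by_cases hrq : r ∣ q
    · rw [if_pos hrq]
      set χ₀ := DirichletCharacter.changeLevel hrq ψ with hχ₀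
      have hpr : pr χ₀ = ⟨r, ψ⟩ := (pr_eq_iff χ₀ ⟨r, ψ⟩ hprim).2 ⟨hrq, rfl⟩
      have huniq : ∀ χ : DirichletCharacter ℂ q, pr χ = ⟨r, ψ⟩ → χ = χ₀ := by
        intro χ h
        obtain ⟨h', h''⟩ := (pr_eq_iff χ ⟨r, ψ⟩ hprim).1 h
        rw [← h'', hχ₀]
      rw [sum_eq_single χ₀, sum_eq_single χ₀, if_pos ⟨hpr, hpr⟩]
      · have hsq : χ₀ ^ 2 = 1 := by
          rw [hχ₀, ← map_pow, hy2, map_one]
        have hmul : χ₀ * χ₀ = 1 := by rw [← pow_two]; exact hsq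
        have hinv : χ₀⁻¹ = χ₀ := inv_eq_of_mul_eq_one_left hmul
        have htau : tau χ₀ = (μ (q / r) : ℂ) * ψ ((q / r : ℕ) : ZMod r) * T := by
          have h1 := tau_eq_pr hq.1 χ₀
          rw [hpr] at h1
          exact h1
        unfold Kq
        rw [hinv, hmul, (stmt_CM q hq.1 1 m hm).2.2, htau]
        ring
      · intro χ _ hχ
        rw [if_neg fun h => hχ (huniq χ h.2)]
      · intro h; exact absurd (mem_univ _) h
      · intro χ _ hχ
        apply sum_eq_zero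
        intro χ' _
        rw [if_neg fun h => hχ (huniq χ h.1)]
      · intro h; exact absurd (mem_univ _) h
    · rw [if_neg hrq]
      apply sum_eq_zero
      intro χ _
      apply sum_eq_zero
      intro χ' _
      rw [if_neg]
      rintro ⟨h, -⟩
      obtain ⟨h', -⟩ := (pr_eq_iff χ ⟨r, ψ⟩ hprim).1 h
      exact hrq h'
  rw [sum_congr rfl hq, sum_multiples P r hr0]
  have hk : ∀ k ∈ Ioc 0 (P / r), T ^ 2 * ((1 / ((r * k).totient : ℂ) ^ 2) *
      ((μ (r * k / r) : ℂ) * ψ ((r * k / r : ℕ) : ZMod r)) ^ 2 * (rsum m (r * k) : ℂ))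
      = T ^ 2 * ((rsum m r : ℂ) / (r.totient : ℂ) ^ 2) * (if k.Coprime r then
        ((μ k : ℂ) ^ 2 / (k.totient : ℂ) ^ 2) * (rsum m k : ℂ) else 0) := by
    intro k hk
    rw [mem_Ioc] at hk
    rw [Nat.mul_div_cancel_left k hr0]
    by_cases hc : k.Coprime r
    · rw [if_pos hc, Nat.totient_mul hc.symm, rsum_mul m r k hc.symm]
      have h1 : ψ ((k : ℕ) : ZMod r) ^ 2 = 1 := by
        rw [← MulChar.pow_apply' _ (by norm_num), hy2, MulChar.one_apply]
        rw [ZMod.isUnit_iff_coprime]; exact hc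
      rw [mul_pow, h1]
      push_cast
      have h2 : (r.totient : ℂ) ≠ 0 := by
        have := Nat.totient_pos.2 hr0; exact_mod_cast this.ne'
      have h3 : (k.totient : ℂ) ≠ 0 := by
        have := Nat.totient_pos.2 hk.1; exact_mod_cast this.ne'
      field_simp
    · rw [if_neg hc, MulChar.map_nonunit ψ]
      · ring
      · rw [ZMod.isUnit_iff_coprime]; exact hc
  rw [sum_congr rfl hk, ← mul_sum, ← sum_filter, norm_mul, norm_mul, norm_pow, hTn]
  have h1 : ‖(rsum m r : ℂ) / (r.totient : ℂ) ^ 2‖ = |(rsum m r : ℝ) / (r.totient : ℝ) ^ 2| := by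
    rw [← Real.norm_eq_abs, ← Complex.norm_real]
    congr 1
    push_cast
    rfl
  have h2 : ‖∑ k ∈ (Ioc 0 (P / r)).filter (fun k => k.Coprime r),
      ((μ k : ℂ) ^ 2 / (k.totient : ℂ) ^ 2) * (rsum m k : ℂ)‖
      = |∑ k ∈ (Ioc 0 (P / r)).filter (fun k => k.Coprime r),
        ((μ k : ℝ) ^ 2 / (k.totient : ℝ) ^ 2) * rsum m k| := by
    rw [← Real.norm_eq_abs, ← Complex.norm_real]
    congr 1
    push_cast
    rfl
  rw [h1, h2]
  unfold Bs
  rw [abs_mul, mul_div_assoc, abs_mul, Nat.abs_cast]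

end Pool.Agent.PS
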