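import Mathlib
import Pool.Agent.Work.PS.Interface

/-!
# Block KQ (helper51): bound and support of the coefficients
-/

set_option autoImplicit false

namespace Pool.Agent.PS

open Finset ArithmeticFunction
open scoped ArithmeticFunction.Moebius

theorem tau_inv_bound (hT : Stmt_TAU) (q : ℕ) (hq : 0 < q) (χ : DirichletCharacter ℂ q) :
    ‖tau χ⁻¹‖ ≤ √(χ.conductor : ℝ) ∧
    (tau χ⁻¹ ≠ 0 → Squarefree (q / χ.conductor) ∧ (q / χ.conductor).Coprime χ.conductor) := by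
  haveI : NeZero q := ⟨hq.ne'⟩
  obtain ⟨h1, h2⟩ := hT q hq χ⁻¹
  have hc : (χ⁻¹).conductor = χ.conductor := χ.conductor_inv
  constructor
  · have h3 : ‖tau χ⁻¹‖ ≤ √((χ⁻¹).conductor : ℝ) := by
      rw [h1, norm_mul, norm_mul, h2]
      have h4 : ‖(μ (q / (χ⁻¹).conductor) : ℂ)‖ ≤ 1 := by
        rw [Complex.norm_intCast]
        exact_mod_cast abs_moebius_le_one
      have h5 := DirichletCharacter.norm_le_one (χ⁻¹).primitiveCharacter
        ((q / (χ⁻¹).conductor : ℕ) : ZMod (χ⁻¹).conductor)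
      have h6 := Real.sqrt_nonneg ((χ⁻¹).conductor : ℝ)
      calc ‖(μ (q / (χ⁻¹).conductor) : ℂ)‖ *
            ‖(χ⁻¹).primitiveCharacter ((q / (χ⁻¹).conductor : ℕ) : ZMod (χ⁻¹).conductor)‖ *
            √((χ⁻¹).conductor : ℝ) ≤ 1 * 1 * √((χ⁻¹).conductor : ℝ) := by gcongr
        _ = _ := by ring
    rwa [hc] at h3
  · intro h
    rw [h1] at h
    have h3 := left_ne_zero_of_mul h
    have h4 : (μ (q / (χ⁻¹).conductor) : ℂ) ≠ 0 := left_ne_zero_of_mul h3
    have h5 := right_ne_zero_of_mul h3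
    rw [← hc]
    constructor
    · have h6 : μ (q / (χ⁻¹).conductor) ≠ 0 := by exact_mod_cast h4
      exact moebius_ne_zero_iff_squarefree.1 h6
    · by_contra h6
      apply h5
      rw [MulChar.map_nonunit _ (by rwa [ZMod.isUnit_iff_coprime])]

theorem stmt_KQ (hT : Stmt_TAU) (hC : Stmt_CM) : Stmt_KQ := by
  intro q hq χ χ' m hm
  haveI : NeZero q := ⟨hq.ne'⟩
  obtain ⟨a1, a2⟩ := tau_inv_bound hT q hq χ
  obtain ⟨b1, b2⟩ := tau_inv_bound hT q hq χ'
  obtain ⟨c1, c2, -⟩ := hC q hq (χ * χ') m hm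
  have hφ : (0 : ℝ) < q.totient := by exact_mod_cast Nat.totient_pos.2 hq
  constructor
  · unfold Kq
    rw [norm_mul, norm_mul, norm_mul]
    have h1 : ‖(1 / (q.totient : ℂ) ^ 2)‖ = 1 / (q.totient : ℝ) ^ 2 := by
      rw [norm_div, norm_one, norm_pow, Complex.norm_natCast]
    rw [h1]
    calc 1 / (q.totient : ℝ) ^ 2 * ‖tau χ⁻¹‖ * ‖tau χ'⁻¹‖ * ‖cm (χ * χ') m‖
        ≤ 1 / (q.totient : ℝ) ^ 2 * √(χ.conductor : ℝ) * √(χ'.conductor : ℝ) *
          ((q.totient : ℝ) / (qm q m).totient * √(qm q m : ℝ)) := by gcongr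
      _ = √((χ.conductor : ℝ) * χ'.conductor * qm q m) / (q.totient * (qm q m).totient) := by
          rw [Real.sqrt_mul (by positivity), Real.sqrt_mul (by positivity)]
          field_simp
  · intro h
    unfold Kq at h
    have h1 := left_ne_zero_of_mul h
    have h2 := right_ne_zero_of_mul h
    have h3 := left_ne_zero_of_mul h1
    have h4 := right_ne_zero_of_mul h1
    have h5 := right_ne_zero_of_mul h3
    exact ⟨(a2 h5).1, (a2 h5).2, (b2 h4).1, (b2 h4).2, c1 h2⟩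

end Pool.Agent.PS
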