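import Mathlib
import Pool.Agent.Work.PS.KQ
import Pool.Agent.Work.Circle.SingLower

/-!
# Block KSUM (helper51): the sum of the coefficients
-/

set_option autoImplicit false

namespace Pool.Agent.PS

open Finset ArithmeticFunction
open Pool.Agent.Circle (prod_eq sqrt_div_le)
open Pool.Agent.SW (sum_inv_three_half)
open scoped Classical ArithmeticFunction.Moebius

/-! ### products of `p / (p - 1)` -/

/-- `∏ p / (p - 1)` -/
noncomputable def Ep (S : Finset ℕ) : ℝ := ∏ p ∈ S, (p : ℝ) / ((p : ℝ) - 1)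

theorem Ep_factor {p : ℕ} (hp : 2 ≤ p) : 1 ≤ (p : ℝ) / ((p : ℝ) - 1) := by
  have : (2 : ℝ) ≤ p := by exact_mod_cast hp
  rw [le_div_iff₀ (by linarith)]
  linarith

theorem one_le_Ep {S : Finset ℕ} (h : ∀ p ∈ S, 2 ≤ p) : 1 ≤ Ep S := by
  unfold Ep
  refine Finset.prod_induction _ (fun x : ℝ => 1 ≤ x) (fun a b ha hb => ?_) le_rfl
    fun p hp => Ep_factor (h p hp)
  nlinarith

theorem Ep_mono {S T : Finset ℕ} (hST : S ⊆ T) (h : ∀ p ∈ T, 2 ≤ p) : Ep S ≤ Ep T := by
  have h1 : Ep T = Ep (T \ S) * Ep S := (Finset.prod_sdiff hST).symm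
  have h2 : 1 ≤ Ep (T \ S) := one_le_Ep fun p hp => h p (Finset.mem_sdiff.1 hp).1
  have h3 : 1 ≤ Ep S := one_le_Ep fun p hp => h p (hST hp)
  rw [h1]
  nlinarith

theorem two_le_of_mem {n p : ℕ} (h : p ∈ n.primeFactors) : 2 ≤ p :=
  (Nat.prime_of_mem_primeFactors h).two_le

theorem Ep_primeFactors (n : ℕ) (hn : 0 < n) : Ep n.primeFactors = (n : ℝ) / n.totient := by
  unfold Ep
  rw [Finset.prod_div_distrib]
  have h1 : ((n.totient * ∏ p ∈ n.primeFactors, p : ℕ) : ℝ)
      = ((n * ∏ p ∈ n.primeFactors, (p - 1) : ℕ) : ℝ) := by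
    rw [Nat.totient_mul_prod_primeFactors]
  push_cast at h1
  have h2 : ∏ p ∈ n.primeFactors, ((p - 1 : ℕ) : ℝ) = ∏ p ∈ n.primeFactors, ((p : ℝ) - 1) := by
    refine Finset.prod_congr rfl fun p hp => ?_
    rw [Nat.cast_sub (by have := two_le_of_mem hp; omega), Nat.cast_one]
  rw [h2] at h1
  have h3 : (0 : ℝ) < n.totient := by exact_mod_cast Nat.totient_pos.2 hn
  have h4 : (0 : ℝ) < ∏ p ∈ n.primeFactors, ((p : ℝ) - 1) := by
    refine Finset.prod_pos fun p hp => ?_
    have : (2 : ℝ) ≤ p := by exact_mod_cast two_le_of_mem hp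
    linarith
  rw [div_eq_div_iff h4.ne' h3.ne']
  linarith

theorem ratio_sq_le (n : ℕ) (hn : 0 < n) : ((n : ℝ) / n.totient) ^ 2 ≤ 6 * √(n : ℝ) := by
  rw [← Ep_primeFactors n hn]
  unfold Ep
  rw [← Finset.prod_pow]
  have h1 : ∀ p ∈ n.primeFactors, ((p : ℝ) / ((p : ℝ) - 1)) ^ 2
      ≤ ((if p = 2 then 3 else 1 : ℝ) * (if p = 3 then 2 else 1 : ℝ)) * √(p : ℝ) := by
    intro p hp
    have hp2 := two_le_of_mem hp
    by_cases h2 : p = 2
    · subst h2
      have h5 : (4 / 3 : ℝ) ≤ √((2 : ℕ) : ℝ) := by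
        apply Real.le_sqrt_of_sq_le
        norm_num
      norm_num at h5 ⊢
      linarith
    · by_cases h3 : p = 3
      · subst h3
        have h5 : (9 / 8 : ℝ) ≤ √((3 : ℕ) : ℝ) := by
          apply Real.le_sqrt_of_sq_le
          norm_num
        norm_num at h5 ⊢
        linarith
      · rw [if_neg h2, if_neg h3, one_mul, one_mul]
        have h4 : (4 : ℝ) ≤ p := by exact_mod_cast (by omega : 4 ≤ p)
        have h5 : (2 : ℝ) ≤ √(p : ℝ) := by
          apply Real.le_sqrt_of_sq_le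
          linarith
        have h6 : (p : ℝ) / ((p : ℝ) - 1) ≤ 4 / 3 := by
          rw [div_le_div_iff₀ (by linarith) (by norm_num)]
          linarith
        have h7 : 0 ≤ (p : ℝ) / ((p : ℝ) - 1) := by
          apply div_nonneg <;> linarith
        nlinarith
  refine (Finset.prod_le_prod (fun p _ => sq_nonneg _) h1).trans ?_
  rw [Finset.prod_mul_distrib, Finset.prod_mul_distrib]
  have h2 : ∏ p ∈ n.primeFactors, (if p = 2 then 3 else 1 : ℝ) ≤ 3 := by
    rw [Finset.prod_ite_eq']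
    split_ifs <;> norm_num
  have h3 : ∏ p ∈ n.primeFactors, (if p = 3 then 2 else 1 : ℝ) ≤ 2 := by
    rw [Finset.prod_ite_eq']
    split_ifs <;> norm_num
  have h3' : 0 ≤ ∏ p ∈ n.primeFactors, (if p = 3 then 2 else 1 : ℝ) :=
    Finset.prod_nonneg fun p _ => by split_ifs <;> norm_num
  have h4 : ∏ p ∈ n.primeFactors, √(p : ℝ) ≤ √(n : ℝ) := by
    rw [← Real.sqrt_prod _ fun p _ => Nat.cast_nonneg p]
    apply Real.sqrt_le_sqrt
    rw [← Nat.cast_prod]
    exact_mod_cast Nat.le_of_dvd hn (Nat.prod_primeFactors_dvd n)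
  have h4' : 0 ≤ ∏ p ∈ n.primeFactors, √(p : ℝ) := Finset.prod_nonneg fun p _ => Real.sqrt_nonneg _
  have h5 : (∏ p ∈ n.primeFactors, (if p = 2 then 3 else 1 : ℝ)) *
      (∏ p ∈ n.primeFactors, (if p = 3 then 2 else 1 : ℝ)) ≤ 3 * 2 :=
    mul_le_mul h2 h3 h3' (by norm_num)
  calc _ ≤ (3 * 2) * √(n : ℝ) := mul_le_mul h5 h4 h4' (by norm_num)
    _ = _ := by ring

/-! ### the numbers `q / gcd (q, m)` -/

theorem qm_pos {q m : ℕ} (hq : 0 < q) : 0 < qm q m :=
  Nat.div_pos (Nat.le_of_dvd hq (Nat.gcd_dvd_left q m)) (Nat.gcd_pos_of_pos_left m hq)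

theorem qm_dvd (q m : ℕ) : qm q m ∣ q := Nat.div_dvd_of_dvd (Nat.gcd_dvd_left q m)

theorem qm_mul {a b : ℕ} (m : ℕ) (hab : a.Coprime b) : qm (a * b) m = qm a m * qm b m := by
  unfold qm
  rw [Nat.gcd_comm (a * b) m, Nat.Coprime.gcd_mul m hab, Nat.gcd_comm m a, Nat.gcd_comm m b]
  exact (Nat.div_mul_div_comm (Nat.gcd_dvd_left a m) (Nat.gcd_dvd_left b m)).symm

theorem qm_coprime {a b : ℕ} (m : ℕ) (hab : a.Coprime b) : (qm a m).Coprime (qm b m) :=
  (hab.coprime_dvd_left (qm_dvd a m)).coprime_dvd_right (qm_dvd b m)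

/-- primes dividing `r` but not `m` divide `r / gcd (r, m)` -/
theorem sdiff_subset_qm {r m : ℕ} (hr : 0 < r) (hm : 0 < m) :
    r.primeFactors \ m.primeFactors ⊆ (qm r m).primeFactors := by
  intro p hp
  rw [Finset.mem_sdiff] at hp
  have hpp := Nat.prime_of_mem_primeFactors hp.1
  have hpr := Nat.dvd_of_mem_primeFactors hp.1
  rw [Nat.mem_primeFactors]
  refine ⟨hpp, ?_, (qm_pos hr).ne'⟩
  have h1 : qm r m * r.gcd m = r := Nat.div_mul_cancel (Nat.gcd_dvd_left r m)
  have h2 : p ∣ qm r m * r.gcd m := h1.symm ▸ hpr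
  rcases (Nat.Prime.dvd_mul hpp).1 h2 with h | h
  · exact h
  · exact absurd (Nat.mem_primeFactors.2 ⟨hpp, h.trans (Nat.gcd_dvd_right r m), hm.ne'⟩) hp.2

/-- the factor of the conductor -/
theorem A_le (r m : ℕ) (hr : 0 < r) (hm : 0 < m) :
    (r : ℝ) * √(qm r m : ℝ) / (r.totient * (qm r m).totient)
      ≤ 6 * Ep (r.primeFactors ∩ m.primeFactors) := by
  have hq : 0 < qm r m := qm_pos hr
  have hqr : (0 : ℝ) < qm r m := by exact_mod_cast hq
  have hφ : (0 : ℝ) < (qm r m).totient := by exact_mod_cast Nat.totient_pos.2 hq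
  have hφr : (0 : ℝ) < r.totient := by exact_mod_cast Nat.totient_pos.2 hr
  have hs : 0 < √(qm r m : ℝ) := Real.sqrt_pos.2 hqr
  have hss : √(qm r m : ℝ) * √(qm r m : ℝ) = qm r m := Real.mul_self_sqrt hqr.le
  have h1 : (r : ℝ) / r.totient = Ep (r.primeFactors \ m.primeFactors) *
      Ep (r.primeFactors ∩ m.primeFactors) := by
    rw [← Ep_primeFactors r hr]
    unfold Ep
    rw [← Finset.prod_sdiff (Finset.inter_subset_left :
      r.primeFactors ∩ m.primeFactors ⊆ r.primeFactors)]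
    congr 2
    ext p
    simp only [Finset.mem_sdiff, Finset.mem_inter]
    tauto
  have h2 : Ep (r.primeFactors \ m.primeFactors) ≤ (qm r m : ℝ) / (qm r m).totient := by
    rw [← Ep_primeFactors _ hq]
    exact Ep_mono (sdiff_subset_qm hr hm) fun p hp => two_le_of_mem hp
  have h3 : 1 ≤ Ep (r.primeFactors ∩ m.primeFactors) :=
    one_le_Ep fun p hp => two_le_of_mem (Finset.mem_inter.1 hp).1
  have h4 := ratio_sq_le (qm r m) hq
  have h5 : (qm r m : ℝ) / (qm r m).totient * (√(qm r m : ℝ) / (qm r m).totient) ≤ 6 := by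
    have h6 : (qm r m : ℝ) / (qm r m).totient * (√(qm r m : ℝ) / (qm r m).totient)
        = ((qm r m : ℝ) / (qm r m).totient) ^ 2 / √(qm r m : ℝ) := by
      have h7 : ∀ a s φ : ℝ, s ≠ 0 → φ ≠ 0 → s * s = a → a / φ * (s / φ) = (a / φ) ^ 2 / s := by
        rintro _ s φ h8 h9 rfl
        field_simp
      exact h7 _ _ _ hs.ne' hφ.ne' hss
    rw [h6, div_le_iff₀ hs]
    exact h4
  calc (r : ℝ) * √(qm r m : ℝ) / (r.totient * (qm r m).totient)
      = (r : ℝ) / r.totient * (√(qm r m : ℝ) / (qm r m).totient) := by field_simp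
    _ = Ep (r.primeFactors \ m.primeFactors) *
        (√(qm r m : ℝ) / (qm r m).totient) * Ep (r.primeFactors ∩ m.primeFactors) := by
        rw [h1]; ring
    _ ≤ (qm r m : ℝ) / (qm r m).totient *
        (√(qm r m : ℝ) / (qm r m).totient) * Ep (r.primeFactors ∩ m.primeFactors) := by gcongr
    _ ≤ 6 * Ep (r.primeFactors ∩ m.primeFactors) := by gcongr

/-! ### the factor of the cofactor -/

/-- `√k₁ / (φ(k) φ(k₁))` for `k` coprime to `r` -/
noncomputable def Hf (r m : ℕ) : ArithmeticFunction ℝ :=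
  ⟨fun k => if k.Coprime r then √(qm k m : ℝ) / (k.totient * (qm k m).totient) else 0, by simp⟩

theorem Hf_apply (r m k : ℕ) : Hf r m k =
    if k.Coprime r then √(qm k m : ℝ) / (k.totient * (qm k m).totient) else 0 := rfl

theorem Hf_nonneg (r m k : ℕ) : 0 ≤ Hf r m k := by
  rw [Hf_apply]
  split_ifs <;> positivity

theorem Hf_mult (r m : ℕ) : (Hf r m).IsMultiplicative := by
  rw [IsMultiplicative.iff_ne_zero]
  constructor
  · rw [Hf_apply, if_pos (Nat.coprime_one_left r)]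
    have h1 : qm 1 m = 1 := by simp [qm]
    rw [h1]
    simp
  · intro a b _ _ hab
    rw [Hf_apply, Hf_apply, Hf_apply]
    by_cases ha : a.Coprime r
    · by_cases hb : b.Coprime r
      · rw [if_pos ha, if_pos hb, if_pos (Nat.Coprime.mul_left ha hb), qm_mul m hab,
          Nat.totient_mul hab, Nat.totient_mul (qm_coprime m hab), Nat.cast_mul,
          Real.sqrt_mul (Nat.cast_nonneg _)]
        push_cast
        rw [div_mul_div_comm]
        congr 1
        ring
      · rw [if_neg hb, mul_zero, if_neg]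
        exact fun h => hb (Nat.Coprime.coprime_mul_left h)
    · rw [if_neg ha, zero_mul, if_neg]
      exact fun h => ha (Nat.Coprime.coprime_mul_right h)

theorem Hf_prime (r m p : ℕ) (hp : p.Prime) : Hf r m p =
    if p ∣ r then 0 else if p ∣ m then 1 / ((p : ℝ) - 1) else √(p : ℝ) / ((p : ℝ) - 1) ^ 2 := by
  have hp1 : ((p - 1 : ℕ) : ℝ) = (p : ℝ) - 1 := by
    rw [Nat.cast_sub hp.one_le, Nat.cast_one]
  rw [Hf_apply]
  by_cases hr : p ∣ r
  · rw [if_pos hr, if_neg]
    rw [Nat.Prime.coprime_iff_not_dvd hp]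
    exact fun h => h hr
  · rw [if_neg hr, if_pos ((Nat.Prime.coprime_iff_not_dvd hp).2 hr)]
    by_cases hm : p ∣ m
    · rw [if_pos hm]
      have h1 : qm p m = 1 := by
        unfold qm
        rw [Nat.gcd_eq_left hm, Nat.div_self hp.pos]
      rw [h1, Nat.totient_prime hp, Nat.totient_one, hp1]
      simp
    · rw [if_neg hm]
      have h1 : qm p m = p := by
        unfold qm
        have : p.gcd m = 1 := (Nat.Prime.coprime_iff_not_dvd hp).2 hm
        rw [this, Nat.div_one]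
      rw [h1, Nat.totient_prime hp, hp1, sq]

theorem Hf_sum (r m P : ℕ) (hm : 0 < m) :
    ∑ k ∈ (Ioc 0 P).filter (fun k => Squarefree k), Hf r m k
      ≤ Real.exp 8 * Ep (m.primeFactors \ r.primeFactors) := by
  set Q := P + m with hQ
  have h0 : ∑ k ∈ (Ioc 0 P).filter (fun k => Squarefree k), Hf r m k
      ≤ ∑ d ∈ (primorial Q).divisors, Hf r m d := by
    refine sum_le_sum_of_subset_of_nonneg ?_ fun d _ _ => Hf_nonneg r m d
    intro d hd
    rw [mem_filter, mem_Ioc] at hd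
    rw [Nat.mem_divisors]
    exact ⟨(hd.2.dvd_primorial).trans (primorial_dvd_primorial (by omega)), primorial_ne_zero Q⟩
  refine h0.trans ?_
  rw [prod_eq (Hf r m) (Hf_mult r m)]
  have h1 : ∀ k ∈ range (Q + 1), (if k.Prime then 1 + Hf r m k else 1)
      ≤ ((if k ∈ m.primeFactors \ r.primeFactors then (k : ℝ) / ((k : ℝ) - 1) else 1 : ℝ))
        * Real.exp (if 2 ≤ k then 4 * (√(k : ℝ) * ((k : ℝ) ^ 2)⁻¹) else 0) := by
    intro k _
    have he0 : 1 ≤ Real.exp (if 2 ≤ k then 4 * (√(k : ℝ) * ((k : ℝ) ^ 2)⁻¹) else 0) := by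
      apply Real.one_le_exp
      split_ifs <;> positivity
    by_cases hp : k.Prime
    · have hk2 := hp.two_le
      have hkr : (2 : ℝ) ≤ k := by exact_mod_cast hk2
      have hk1 : (0 : ℝ) < (k : ℝ) - 1 := by linarith
      have hge := Ep_factor hk2
      rw [if_pos hp, Hf_prime r m k hp]
      by_cases hr : k ∣ r
      · rw [if_pos hr, add_zero]
        have h9 : (1 : ℝ) ≤
            (if k ∈ m.primeFactors \ r.primeFactors then (k : ℝ) / ((k : ℝ) - 1) else 1 : ℝ) := by
          split_ifs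
          · exact hge
          · exact le_rfl
        nlinarith
      · by_cases hd : k ∣ m
        · rw [if_neg hr, if_pos hd, if_pos]
          · have h4 : 1 + 1 / ((k : ℝ) - 1) = (k : ℝ) / ((k : ℝ) - 1) := by
              field_simp
              ring
            rw [h4]
            nlinarith
          · rw [mem_sdiff]
            refine ⟨Nat.mem_primeFactors.2 ⟨hp, hd, hm.ne'⟩, fun h => hr ?_⟩
            exact Nat.dvd_of_mem_primeFactors h
        · rw [if_neg hr, if_neg hd, if_neg, one_mul, if_pos hk2]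
          · have h2 := Real.add_one_le_exp (4 * (√(k : ℝ) * ((k : ℝ) ^ 2)⁻¹))
            have h3 := sqrt_div_le k hk2
            linarith
          · intro h
            exact hd (Nat.dvd_of_mem_primeFactors (mem_sdiff.1 h).1)
    · rw [if_neg hp, if_neg, one_mul]
      · exact he0
      · intro h
        exact hp (Nat.prime_of_mem_primeFactors (mem_sdiff.1 h).1)
  have h2 : ∏ k ∈ range (Q + 1), (if k.Prime then 1 + Hf r m k else 1)
      ≤ ∏ k ∈ range (Q + 1),
        (((if k ∈ m.primeFactors \ r.primeFactors then (k : ℝ) / ((k : ℝ) - 1) else 1 : ℝ))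
        * Real.exp (if 2 ≤ k then 4 * (√(k : ℝ) * ((k : ℝ) ^ 2)⁻¹) else 0)) := by
    apply prod_le_prod
    · intro k _
      have := Hf_nonneg r m k
      split_ifs <;> linarith
    · exact h1
  refine h2.trans ?_
  rw [prod_mul_distrib, ← Real.exp_sum]
  have h3 : ∑ k ∈ range (Q + 1), (if 2 ≤ k then 4 * (√(k : ℝ) * ((k : ℝ) ^ 2)⁻¹) else 0) ≤ 8 := by
    rw [← sum_filter, ← mul_sum]
    have h4 : (range (Q + 1)).filter (fun k => 2 ≤ k) = Ico (1 + 1) (Q + 1) := by
      ext k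
      rw [mem_filter, mem_range, mem_Ico]
      omega
    rw [h4]
    have h5 := sum_inv_three_half 1 (Q + 1) one_pos
    rw [Nat.cast_one, Real.sqrt_one] at h5
    linarith
  have h4 : ∏ k ∈ range (Q + 1),
      (if k ∈ m.primeFactors \ r.primeFactors then (k : ℝ) / ((k : ℝ) - 1) else 1 : ℝ)
      = Ep (m.primeFactors \ r.primeFactors) := by
    rw [← prod_filter]
    unfold Ep
    congr 1
    ext k
    rw [mem_filter, mem_range]
    constructor
    · exact fun h => h.2
    · intro h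
      refine ⟨?_, h⟩
      have := Nat.le_of_mem_primeFactors (mem_sdiff.1 h).1
      omega
  rw [h4, mul_comm]
  have h5 : Real.exp (∑ k ∈ range (Q + 1), (if 2 ≤ k then 4 * (√(k : ℝ) * ((k : ℝ) ^ 2)⁻¹) else 0))
      ≤ Real.exp 8 := Real.exp_le_exp.mpr h3
  have h6 : 1 ≤ Ep (m.primeFactors \ r.primeFactors) :=
    one_le_Ep fun p hp => two_le_of_mem (mem_sdiff.1 hp).1
  exact mul_le_mul_of_nonneg_right h5 (by linarith)

/-! ### the sum over the moduli -/

/-- bound of the coefficient in terms of one conductor -/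
noncomputable def hk (r q m : ℕ) : ℝ :=
  if r ∣ q ∧ Squarefree (q / r) ∧ (q / r).Coprime r then
    (r : ℝ) * √(qm q m : ℝ) / (q.totient * (qm q m).totient) else 0

theorem hk_nonneg (r q m : ℕ) : 0 ≤ hk r q m := by
  unfold hk
  split_ifs <;> positivity

theorem hk_sum (r P m : ℕ) (hr : 0 < r) (hm : 0 < m) :
    ∑ q ∈ Ioc 0 P, hk r q m ≤ 6 * Real.exp 8 * ((m : ℝ) / m.totient) := by
  set A := (r : ℝ) * √(qm r m : ℝ) / (r.totient * (qm r m).totient) with hA
  have hA0 : 0 ≤ A := by positivity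
  have h1 : ∑ q ∈ Ioc 0 P, hk r q m
      ≤ ∑ k ∈ (Ioc 0 P).filter (fun k => Squarefree k), A * Hf r m k := by
    have h2 : ∑ q ∈ Ioc 0 P, hk r q m
        = ∑ q ∈ (Ioc 0 P).filter (fun q => r ∣ q ∧ Squarefree (q / r) ∧ (q / r).Coprime r),
          A * Hf r m (q / r) := by
      rw [sum_filter]
      refine sum_congr rfl fun q hq => ?_
      unfold hk
      by_cases h : r ∣ q ∧ Squarefree (q / r) ∧ (q / r).Coprime r
      · rw [if_pos h, if_pos h, Hf_apply, if_pos h.2.2, hA]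
        obtain ⟨k, rfl⟩ := h.1
        have hco : r.Coprime k := by
          have := h.2.2
          rw [Nat.mul_div_cancel_left k hr] at this
          exact this.symm
        rw [Nat.mul_div_cancel_left k hr, qm_mul m hco, Nat.totient_mul hco,
          Nat.totient_mul (qm_coprime m hco), Nat.cast_mul, Real.sqrt_mul (Nat.cast_nonneg _)]
        push_cast
        rw [div_mul_div_comm]
        congr 1 <;> ring
      · rw [if_neg h, if_neg h]
    rw [h2]
    have h3 : ∑ q ∈ (Ioc 0 P).filter (fun q => r ∣ q ∧ Squarefree (q / r) ∧ (q / r).Coprime r),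
          A * Hf r m (q / r)
        = ∑ k ∈ ((Ioc 0 P).filter (fun q => r ∣ q ∧ Squarefree (q / r) ∧
            (q / r).Coprime r)).image (fun q => q / r), A * Hf r m k := by
      rw [sum_image]
      intro q hq q' hq' h
      have hq := (mem_filter.1 (mem_coe.1 hq)).2.1
      have hq' := (mem_filter.1 (mem_coe.1 hq')).2.1
      have h' : q / r = q' / r := h
      rw [← Nat.mul_div_cancel' hq, ← Nat.mul_div_cancel' hq', h']
    rw [h3]
    refine sum_le_sum_of_subset_of_nonneg ?_ fun k _ _ => mul_nonneg hA0 (Hf_nonneg r m k)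
    intro k hk
    rw [mem_image] at hk
    obtain ⟨q, hq, rfl⟩ := hk
    rw [mem_filter, mem_Ioc] at hq
    rw [mem_filter, mem_Ioc]
    refine ⟨⟨Nat.div_pos (Nat.le_of_dvd hq.1.1 hq.2.1) hr, ?_⟩, hq.2.2.1⟩
    exact (Nat.div_le_self q r).trans hq.1.2
  refine h1.trans ?_
  rw [← mul_sum]
  have h2 := Hf_sum r m P hm
  have h3 := A_le r m hr hm
  rw [← hA] at h3
  have h4 : 0 ≤ ∑ k ∈ (Ioc 0 P).filter (fun k => Squarefree k), Hf r m k :=
    sum_nonneg fun k _ => Hf_nonneg r m k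
  have h5 : 1 ≤ Ep (r.primeFactors ∩ m.primeFactors) :=
    one_le_Ep fun p hp => two_le_of_mem (mem_inter.1 hp).1
  have h6 : Ep m.primeFactors = Ep (m.primeFactors \ r.primeFactors) *
      Ep (r.primeFactors ∩ m.primeFactors) := by
    unfold Ep
    rw [← Finset.prod_sdiff (Finset.inter_subset_right :
      r.primeFactors ∩ m.primeFactors ⊆ m.primeFactors)]
    congr 2
    ext p
    simp only [Finset.mem_sdiff, Finset.mem_inter]
    tauto
  calc A * ∑ k ∈ (Ioc 0 P).filter (fun k => Squarefree k), Hf r m k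
      ≤ (6 * Ep (r.primeFactors ∩ m.primeFactors)) *
        (Real.exp 8 * Ep (m.primeFactors \ r.primeFactors)) :=
        mul_le_mul h3 h2 h4 (by linarith)
    _ = 6 * Real.exp 8 * ((m : ℝ) / m.totient) := by
        rw [← Ep_primeFactors m hm, h6]
        ring

/-! ### the sum over the characters -/

theorem pr_injective (q : ℕ) : Function.Injective (pr : DirichletCharacter ℂ q → Ch) := by
  let L : Ch → DirichletCharacter ℂ q :=
    fun x => if h : x.1 ∣ q then DirichletCharacter.changeLevel h x.2 else 1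
  have hL : Function.LeftInverse L pr := by
    intro χ
    have h1 : χ.conductor ∣ q := χ.conductor_dvd_level
    show (if h : χ.conductor ∣ q then DirichletCharacter.changeLevel h χ.primitiveCharacter
      else 1) = χ
    rw [dif_pos h1]
    exact χ.changeLevel_primitiveCharacter
  exact hL.injective

theorem pr_mem {q P : ℕ} (hq : 0 < q) (hqP : q ≤ P) (χ : DirichletCharacter ℂ q) :
    pr χ ∈ Fam P := by
  haveI : NeZero q := ⟨hq.ne'⟩
  unfold Fam
  rw [mem_sigma, mem_Ioc]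
  refine ⟨⟨?_, ?_⟩, ?_⟩
  · exact Nat.pos_of_ne_zero χ.conductor_ne_zero
  · exact (Nat.le_of_dvd hq χ.conductor_dvd_level).trans hqP
  · rw [Pool.Agent.BV.PC, mem_filter]
    exact ⟨mem_univ _, χ.primitiveCharacter_isPrimitive⟩

/-- sums over the characters modulo `q` as part of the sum over the family -/
theorem sum_pr_le {q P : ℕ} (hq : 0 < q) (hqP : q ≤ P) (F : Ch → ℝ) (hF : ∀ x, 0 ≤ F x) :
    ∑ χ : DirichletCharacter ℂ q, F (pr χ) ≤ ∑ x ∈ Fam P, F x := by
  rw [← sum_image (f := F) (g := (pr : DirichletCharacter ℂ q → Ch)) (s := univ)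
    fun _ _ _ _ h => pr_injective q h]
  refine sum_le_sum_of_subset_of_nonneg ?_ fun x _ _ => hF x
  intro x hx
  rw [mem_image] at hx
  obtain ⟨χ, -, rfl⟩ := hx
  exact pr_mem hq hqP χ

theorem Kq_le (hKQ : Stmt_KQ) {q : ℕ} (hq : 0 < q) (χ χ' : DirichletCharacter ℂ q) (m : ℕ)
    (hm : 0 < m) :
    ‖Kq χ χ' m‖ ≤ (hk (pr χ).1 q m + hk (pr χ').1 q m) / 2 := by
  haveI : NeZero q := ⟨hq.ne'⟩
  by_cases h : Kq χ χ' m = 0
  · rw [h, norm_zero]
    have h1 := hk_nonneg (pr χ).1 q m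
    have h2 := hk_nonneg (pr χ').1 q m
    linarith
  · obtain ⟨h1, h2⟩ := hKQ q hq χ χ' m hm
    obtain ⟨a1, a2, a3, a4, -⟩ := h2 h
    have e1 : hk (pr χ).1 q m = (χ.conductor : ℝ) * √(qm q m : ℝ) /
        (q.totient * (qm q m).totient) := by
      unfold hk
      exact if_pos ⟨χ.conductor_dvd_level, a1, a2⟩
    have e2 : hk (pr χ').1 q m = (χ'.conductor : ℝ) * √(qm q m : ℝ) /
        (q.totient * (qm q m).totient) := by
      unfold hk
      exact if_pos ⟨χ'.conductor_dvd_level, a3, a4⟩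
    rw [e1, e2]
    refine h1.trans ?_
    have hD : (0 : ℝ) < q.totient * (qm q m).totient := by
      have := Nat.totient_pos.2 hq
      have := Nat.totient_pos.2 (qm_pos (m := m) hq)
      positivity
    rw [← add_div, div_div, div_le_div_iff₀ hD (by positivity)]
    rw [Real.sqrt_mul (by positivity)]
    have h3 : √((χ.conductor : ℝ) * χ'.conductor) ≤ ((χ.conductor : ℝ) + χ'.conductor) / 2 := by
      rw [Real.sqrt_le_left (by positivity)]
      nlinarith [sq_nonneg ((χ.conductor : ℝ) - χ'.conductor)]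
    have h4 := Real.sqrt_nonneg (qm q m : ℝ)
    have h5 : √((χ.conductor : ℝ) * χ'.conductor) * √(qm q m : ℝ)
        ≤ ((χ.conductor : ℝ) + χ'.conductor) / 2 * √(qm q m : ℝ) :=
      mul_le_mul_of_nonneg_right h3 h4
    nlinarith

theorem stmt_KSUM (hKQ : Stmt_KQ) : Stmt_KSUM := by
  refine ⟨6 * Real.exp 8, by positivity, ?_⟩
  intro P m hm f g hf hg
  have h1 : ∀ q ∈ Ioc 0 P, ∑ χ : DirichletCharacter ℂ q, ∑ χ' : DirichletCharacter ℂ q,
      ‖Kq χ χ' m‖ * f (pr χ) * g (pr χ')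
      ≤ ∑ x ∈ Fam P, ∑ y ∈ Fam P, (hk x.1 q m + hk y.1 q m) / 2 * (f x * g y) := by
    intro q hq
    rw [mem_Ioc] at hq
    have h2 : ∀ χ : DirichletCharacter ℂ q, ∑ χ' : DirichletCharacter ℂ q,
        ‖Kq χ χ' m‖ * f (pr χ) * g (pr χ')
        ≤ ∑ y ∈ Fam P, (hk (pr χ).1 q m + hk y.1 q m) / 2 * (f (pr χ) * g y) := by
      intro χ
      refine le_trans ?_ (sum_pr_le hq.1 hq.2
        (fun y => (hk (pr χ).1 q m + hk y.1 q m) / 2 * (f (pr χ) * g y)) fun y => ?_)
      · refine sum_le_sum fun χ' _ => ?_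
        rw [mul_assoc]
        exact mul_le_mul_of_nonneg_right (Kq_le hKQ hq.1 χ χ' m hm)
          (mul_nonneg (hf _) (hg _))
      · have h3 := hk_nonneg (pr χ).1 q m
        have h4 := hk_nonneg y.1 q m
        have h5 := hf (pr χ)
        have h6 := hg y
        positivity
    refine (sum_le_sum fun χ _ => h2 χ).trans ?_
    refine sum_pr_le hq.1 hq.2
      (fun x => ∑ y ∈ Fam P, (hk x.1 q m + hk y.1 q m) / 2 * (f x * g y)) fun x => ?_
    refine sum_nonneg fun y _ => ?_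
    have h3 := hk_nonneg x.1 q m
    have h4 := hk_nonneg y.1 q m
    have h5 := hf x
    have h6 := hg y
    positivity
  refine (sum_le_sum h1).trans ?_
  rw [sum_comm]
  have h2 : ∀ x ∈ Fam P, ∑ q ∈ Ioc 0 P, ∑ y ∈ Fam P, (hk x.1 q m + hk y.1 q m) / 2 * (f x * g y)
      ≤ ∑ y ∈ Fam P, 6 * Real.exp 8 * ((m : ℝ) / m.totient) * (f x * g y) := by
    intro x hx
    rw [sum_comm]
    refine sum_le_sum fun y hy => ?_
    rw [← sum_mul]
    refine mul_le_mul_of_nonneg_right ?_ (mul_nonneg (hf x) (hg y))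
    rw [← sum_div, sum_add_distrib]
    have hx1 : 0 < x.1 := (mem_Ioc.1 (mem_sigma.1 hx).1).1
    have hy1 : 0 < y.1 := (mem_Ioc.1 (mem_sigma.1 hy).1).1
    have h3 := hk_sum x.1 P m hx1 hm
    have h4 := hk_sum y.1 P m hy1 hm
    linarith
  refine (sum_le_sum h2).trans ?_
  apply le_of_eq
  rw [mul_assoc (6 * Real.exp 8 * ((m : ℝ) / m.totient)), sum_mul_sum, mul_sum]
  refine sum_congr rfl fun x _ => ?_
  rw [mul_sum]

end Pool.Agent.PS
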