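import Pool.Agent.Work.PS.Interface
import Pool.Agent.Work.PS.SING
import Pool.Agent.Work.PS.CM

/-!
# PS, block KX: the cross terms of the principal and the exceptional character
-/

set_option autoImplicit false

namespace Pool.Agent.PS.KXx

open Finset ArithmeticFunction
open Pool.Agent.Circle (sing rsum Fs_prime prod_eq sqrt_div_le)
open Pool.Agent.SW (sum_inv_three_half)
open scoped Classical ArithmeticFunction.Moebius

theorem qm_mul_coprime {a b : ℕ} (h : a.Coprime b) (m : ℕ) : qm (a * b) m = qm a m * qm b m := by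
  unfold qm
  rw [Nat.gcd_comm (a * b) m, Nat.Coprime.gcd_mul m h, Nat.gcd_comm m a, Nat.gcd_comm m b]
  exact Nat.mul_div_mul_comm (Nat.gcd_dvd_left a m) (Nat.gcd_dvd_left b m)

/-- the multiplicative function `μ² (k) √k₁ / (φ(k) φ(k₁))` -/
noncomputable def HH (m : ℕ) : ArithmeticFunction ℝ :=
  ⟨fun k => if Squarefree k then √(qm k m : ℝ) / (k.totient * (qm k m).totient) else 0, by simp⟩

theorem HH_apply (m k : ℕ) : HH m k =
    if Squarefree k then √(qm k m : ℝ) / (k.totient * (qm k m).totient) else 0 := rfl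

theorem HH_nonneg (m k : ℕ) : 0 ≤ HH m k := by
  rw [HH_apply]; split_ifs <;> positivity

theorem HH_mult (m : ℕ) : (HH m).IsMultiplicative := by
  rw [IsMultiplicative.iff_ne_zero]
  refine ⟨?_, ?_⟩
  · rw [HH_apply, if_pos squarefree_one]
    have : qm 1 m = 1 := by unfold qm; simp
    rw [this]
    simp
  · intro a b _ _ hab
    rw [HH_apply, HH_apply, HH_apply]
    have hsq := Nat.squarefree_mul hab
    by_cases ha : Squarefree a
    · by_cases hb : Squarefree b
      · rw [if_pos (hsq.mpr ⟨ha, hb⟩), if_pos ha, if_pos hb, qm_mul_coprime hab, Nat.totient_mul hab,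
          Nat.totient_mul ((hab.coprime_dvd_left (cm_qm_dvd a m)).coprime_dvd_right (cm_qm_dvd b m))]
        push_cast
        rw [Real.sqrt_mul (Nat.cast_nonneg _), div_mul_div_comm]
        congr 1
        ring
      · rw [if_neg (fun h => hb (hsq.mp h).2), if_neg hb, mul_zero]
    · rw [if_neg (fun h => ha (hsq.mp h).1), if_neg ha, zero_mul]

theorem HH_sum_le (m K : ℕ) (hm : 0 < m) :
    ∑ k ∈ Ioc 0 K, HH m k ≤ Real.exp 8 * ((m : ℝ) / m.totient) := by
  have h0 : ∑ k ∈ Ioc 0 K, HH m k ≤ ∑ d ∈ (primorial K).divisors, HH m d := by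
    have h1 : ∑ k ∈ Ioc 0 K, HH m k = ∑ k ∈ (Ioc 0 K).filter Squarefree, HH m k := by
      rw [sum_filter]
      refine sum_congr rfl fun k _ => ?_
      rw [HH_apply]
      split_ifs <;> rfl
    rw [h1]
    refine sum_le_sum_of_subset_of_nonneg ?_ fun d _ _ => HH_nonneg m d
    intro k hk
    rw [mem_filter, mem_Ioc] at hk
    obtain ⟨⟨hk1, hk2⟩, hk3⟩ := hk
    rw [Nat.mem_divisors]
    refine ⟨?_, (primorial_pos K).ne'⟩
    exact (hk3.dvd_primorial).trans (primorial_dvd_primorial hk2)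
  refine h0.trans ?_
  rw [prod_eq (HH m) (HH_mult m)]
  have h1 : ∀ k ∈ range (K + 1), (if k.Prime then 1 + HH m k else 1)
      ≤ (if k.Prime ∧ k ∣ m then up m k else 1)
        * Real.exp (if 2 ≤ k then 4 * (√(k : ℝ) * ((k : ℝ) ^ 2)⁻¹) else 0) := by
    intro k _
    by_cases hp : k.Prime
    · have hk2 := hp.two_le
      have hkr : (2 : ℝ) ≤ k := by exact_mod_cast hk2
      have hk1 : (0 : ℝ) < (k : ℝ) - 1 := by linarith
      rw [if_pos hp, if_pos hk2, HH_apply, if_pos hp.prime.squarefree, Nat.totient_prime hp,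
        Nat.cast_pred hp.pos]
      have he : 1 + √(k : ℝ) / ((k : ℝ) - 1) ^ 2 ≤ Real.exp (4 * (√(k : ℝ) * ((k : ℝ) ^ 2)⁻¹)) := by
        have h2 := Real.add_one_le_exp (4 * (√(k : ℝ) * ((k : ℝ) ^ 2)⁻¹))
        have h3 := sqrt_div_le k hk2
        linarith
      have he1 : 1 ≤ Real.exp (4 * (√(k : ℝ) * ((k : ℝ) ^ 2)⁻¹)) := Real.one_le_exp (by positivity)
      by_cases hd : k ∣ m
      · rw [if_pos ⟨hp, hd⟩, up_dvd hp hd]
        have hq : qm k m = 1 := by
          unfold qm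
          rw [Nat.gcd_eq_left hd, Nat.div_self hp.pos]
        rw [hq]
        have h4 : 1 + √((1 : ℕ) : ℝ) / (((k : ℝ) - 1) * (Nat.totient 1 : ℕ)) = (k : ℝ) / (k - 1) := by
          simp
          field_simp
          ring
        rw [h4]
        exact le_mul_of_one_le_right (by positivity) he1
      · rw [if_neg (fun h => hd h.2), one_mul]
        have hq : qm k m = k := by
          unfold qm
          rw [(Nat.Prime.coprime_iff_not_dvd hp).mpr hd, Nat.div_one]
        rw [hq, Nat.totient_prime hp, Nat.cast_pred hp.pos, ← sq]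
        exact he
    · rw [if_neg hp, if_neg (fun h => hp h.1), one_mul]
      apply Real.one_le_exp
      split_ifs <;> positivity
  have hup1 : ∀ p : ℕ, p.Prime → p ∣ m → 1 ≤ up m p := by
    intro p hp hd
    have h2 : (2 : ℝ) ≤ p := by exact_mod_cast hp.two_le
    rw [up_dvd hp hd, le_div_iff₀ (by linarith)]
    linarith
  refine (prod_le_prod (fun k _ => ?_) h1).trans ?_
  · have := HH_nonneg m k
    split_ifs <;> linarith
  rw [prod_mul_distrib, ← Real.exp_sum]
  have h3 : ∑ k ∈ range (K + 1), (if 2 ≤ k then 4 * (√(k : ℝ) * ((k : ℝ) ^ 2)⁻¹) else 0) ≤ 8 := by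
    rw [← sum_filter, ← mul_sum]
    have h4 : (range (K + 1)).filter (fun k => 2 ≤ k) = Ico (1 + 1) (K + 1) := by
      ext k
      rw [mem_filter, mem_range, mem_Ico]
      omega
    rw [h4]
    have h5 := sum_inv_three_half 1 (K + 1) one_pos
    rw [Nat.cast_one, Real.sqrt_one] at h5
    linarith
  have h5 : ∏ k ∈ range (K + 1), (if k.Prime ∧ k ∣ m then up m k else 1) ≤
      (m : ℝ) / m.totient := by
    rw [div_totient_eq hm, ← prod_filter]
    have hsub : (range (K + 1)).filter (fun k => k.Prime ∧ k ∣ m) ⊆ m.primeFactors := by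
      intro p hp
      rw [mem_filter] at hp
      rw [Nat.mem_primeFactors]
      exact ⟨hp.2.1, hp.2.2, hm.ne'⟩
    rw [← prod_sdiff hsub]
    refine le_mul_of_one_le_left (prod_nonneg fun p hp => ?_) ?_
    · rw [mem_filter] at hp
      linarith [hup1 p hp.2.1 hp.2.2]
    · calc (1 : ℝ) = ∏ p ∈ m.primeFactors \ (range (K + 1)).filter (fun k => k.Prime ∧ k ∣ m),
            (1 : ℝ) := prod_const_one.symm
        _ ≤ _ := by
          refine prod_le_prod (fun _ _ => zero_le_one) fun p hp => ?_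
          rw [mem_sdiff, Nat.mem_primeFactors] at hp
          exact hup1 p hp.1.1 hp.1.2.1
  have h6 : 0 ≤ ∏ k ∈ range (K + 1), (if k.Prime ∧ k ∣ m then up m k else 1) := by
    apply prod_nonneg
    intro k _
    split_ifs with h
    · linarith [hup1 k h.1 h.2]
    · norm_num
  rw [mul_comm]
  exact mul_le_mul (Real.exp_le_exp.mpr h3) h5 h6 (Real.exp_pos _).le

theorem pr_injective {q : ℕ} : Function.Injective (pr : DirichletCharacter ℂ q → Ch) := by
  let L : Ch → DirichletCharacter ℂ q :=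
    fun x => if h : x.1 ∣ q then DirichletCharacter.changeLevel h x.2 else 1
  have hL : Function.LeftInverse L (pr : DirichletCharacter ℂ q → Ch) := by
    intro χ
    have h1 : χ.conductor ∣ q := χ.conductor_dvd_level
    show (if h : χ.conductor ∣ q then DirichletCharacter.changeLevel h χ.primitiveCharacter
      else 1) = χ
    rw [dif_pos h1]
    exact χ.changeLevel_primitiveCharacter
  exact hL.injective

theorem card_pr_le {q : ℕ} (z : Ch) :
    ∑ χ : DirichletCharacter ℂ q, (if pr χ = z then (1 : ℝ) else 0) ≤ 1 := by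
  rw [sum_boole]
  have : ((univ : Finset (DirichletCharacter ℂ q)).filter fun χ => pr χ = z).card ≤ 1 := by
    rw [card_le_one]
    intro a ha b hb
    rw [mem_filter] at ha hb
    exact pr_injective (ha.2.trans hb.2.symm)
  exact_mod_cast this

/-- the bound for one modulus -/
noncomputable def Bq (r m q : ℕ) : ℝ :=
  if r ∣ q then ((r : ℝ) / (r.totient : ℝ) ^ 2) * HH m (q / r) else 0

theorem Bq_nonneg (r m q : ℕ) : 0 ≤ Bq r m q := by
  unfold Bq
  split_ifs
  · exact mul_nonneg (by positivity) (HH_nonneg _ _)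
  · exact le_rfl

theorem core {q r m : ℕ} (hq : 0 < q) (hr : r ∣ q) (hsq : Squarefree q) (hrq : r ∣ qm q m) :
    √((r : ℝ) * qm q m) / (q.totient * (qm q m).totient) ≤ Bq r m q := by
  obtain ⟨k, rfl⟩ := hr
  have hr0 : 0 < r := Nat.pos_of_mul_pos_right hq
  have hk0 : 0 < k := Nat.pos_of_mul_pos_left hq
  have hrk : r.Coprime k := Nat.coprime_of_squarefree_mul hsq
  have hksq : Squarefree k := hsq.squarefree_of_dvd (Dvd.intro_left r rfl)
  have hrm : r.Coprime m := by
    rw [Nat.coprime_iff_gcd_eq_one]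
    by_contra hne
    obtain ⟨p, hp, hpd⟩ := Nat.exists_prime_and_dvd hne
    have h1 : p ∣ r := hpd.trans (Nat.gcd_dvd_left _ _)
    have h2 : p ∣ m := hpd.trans (Nat.gcd_dvd_right _ _)
    have h3 : p ∣ (r * k).gcd m := Nat.dvd_gcd (h1.trans (dvd_mul_right _ _)) h2
    have h4 : p ∣ qm (r * k) m := h1.trans hrq
    have h5 : p * p ∣ r * k := by
      rw [← cm_qm_mul (r * k) m]
      exact mul_dvd_mul h4 h3
    have := hsq p h5
    exact hp.one_lt.ne' (Nat.isUnit_iff.mp this)
  have hqr : qm r m = r := by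
    unfold qm
    rw [hrm, Nat.div_one]
  have hqk : (qm k m) ∣ k := cm_qm_dvd k m
  rw [qm_mul_coprime hrk, hqr, Nat.totient_mul hrk,
    Nat.totient_mul (hrk.coprime_dvd_right hqk)]
  unfold Bq
  rw [if_pos (dvd_mul_right r k), Nat.mul_div_cancel_left k hr0, HH_apply, if_pos hksq]
  push_cast
  have hr1 : (0 : ℝ) < r := by exact_mod_cast hr0
  have e : √((r : ℝ) * (r * qm k m)) = r * √(qm k m : ℝ) := by
    rw [← mul_assoc, Real.sqrt_mul (by positivity), Real.sqrt_mul_self hr1.le]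
  rw [e]
  apply le_of_eq
  have h1 : (0 : ℝ) < r.totient := by exact_mod_cast Nat.totient_pos.mpr hr0
  have h2 : (0 : ℝ) < k.totient := by exact_mod_cast Nat.totient_pos.mpr hk0
  have h3 : (0 : ℝ) < (qm k m).totient := by
    exact_mod_cast Nat.totient_pos.mpr (cm_qm_pos hk0 m)
  field_simp

end Pool.Agent.PS.KXx

namespace Pool.Agent.PS

open Finset ArithmeticFunction KXx
open scoped Classical ArithmeticFunction.Moebius

/-- **KX**. -/
theorem stmt_KX (hKQ : Stmt_KQ) : Stmt_KX := by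
  refine ⟨2 * Real.exp 8, by positivity, ?_⟩
  intro P m hm y hy hy1
  obtain ⟨r, ψ⟩ := y
  have hr0 : 0 < r := by
    unfold Fam at hy
    rw [Finset.mem_sigma, Finset.mem_Ioc] at hy
    exact hy.1.1
  -- one pair
  have hone : ∀ q : ℕ, 0 < q → ∀ χ χ' : DirichletCharacter ℂ q,
      pr χ = One → pr χ' = ⟨r, ψ⟩ → ‖Kq χ χ' m‖ ≤ Bq r m q ∧ ‖Kq χ' χ m‖ ≤ Bq r m q := by
    intro q hq χ χ' h1 h2
    have : NeZero q := ⟨hq.ne'⟩
    have hc1 : χ.conductor = 1 := congrArg Sigma.fst h1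
    have hc2 : χ'.conductor = r := congrArg Sigma.fst h2
    have hχ : χ = 1 := DirichletCharacter.eq_one_iff_conductor_eq_one.mpr hc1
    have hrq : r ∣ q := hc2 ▸ χ'.conductor_dvd_level
    constructor
    · by_cases h0 : Kq χ χ' m = 0
      · rw [h0, norm_zero]; exact Bq_nonneg _ _ _
      obtain ⟨h3, h4⟩ := hKQ q hq χ χ' m hm
      obtain ⟨h5, -, -, -, h6⟩ := h4 h0
      rw [hc1, Nat.div_one] at h5
      rw [hχ, one_mul, hc2] at h6
      rw [hc1, hc2, Nat.cast_one, one_mul] at h3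
      exact h3.trans (core hq hrq h5 h6)
    · by_cases h0 : Kq χ' χ m = 0
      · rw [h0, norm_zero]; exact Bq_nonneg _ _ _
      obtain ⟨h3, h4⟩ := hKQ q hq χ' χ m hm
      obtain ⟨-, -, h5, -, h6⟩ := h4 h0
      rw [hc1, Nat.div_one] at h5
      rw [hχ, mul_one, hc2] at h6
      rw [hc1, hc2, Nat.cast_one, mul_one] at h3
      exact h3.trans (core hq hrq h5 h6)
  have hq2 : ∀ q ∈ Ioc 0 P, ∑ χ : DirichletCharacter ℂ q, ∑ χ' : DirichletCharacter ℂ q,
      (if (pr χ = One ∧ pr χ' = ⟨r, ψ⟩) ∨ (pr χ = ⟨r, ψ⟩ ∧ pr χ' = One) then ‖Kq χ χ' m‖ else 0) ≤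
      2 * Bq r m q := by
    intro q hq
    rw [mem_Ioc] at hq
    have hB := Bq_nonneg r m q
    have hpt : ∀ χ χ' : DirichletCharacter ℂ q,
        (if (pr χ = One ∧ pr χ' = ⟨r, ψ⟩) ∨ (pr χ = ⟨r, ψ⟩ ∧ pr χ' = One) then ‖Kq χ χ' m‖ else 0) ≤
        Bq r m q * ((if pr χ = One then (1 : ℝ) else 0) * (if pr χ' = ⟨r, ψ⟩ then (1 : ℝ) else 0)) +
        Bq r m q * ((if pr χ = ⟨r, ψ⟩ then (1 : ℝ) else 0) * (if pr χ' = One then (1 : ℝ) else 0)) := by
      intro χ χ'
      have hn1 : 0 ≤ Bq r m q * ((if pr χ = One then (1 : ℝ) else 0) *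
          (if pr χ' = ⟨r, ψ⟩ then (1 : ℝ) else 0)) := by
        refine mul_nonneg hB (mul_nonneg ?_ ?_) <;> split_ifs <;> norm_num
      have hn2 : 0 ≤ Bq r m q * ((if pr χ = ⟨r, ψ⟩ then (1 : ℝ) else 0) *
          (if pr χ' = One then (1 : ℝ) else 0)) := by
        refine mul_nonneg hB (mul_nonneg ?_ ?_) <;> split_ifs <;> norm_num
      split_ifs at hn1 hn2 ⊢ with hc
      all_goals try linarith
      all_goals try (rcases hc with h | h)
      all_goals try (exact absurd h.1 (by assumption))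
      all_goals try (exact absurd h.2 (by assumption))
      all_goals try (have := (hone q hq.1 χ χ' h.1 h.2).1; linarith)
      all_goals try (have := (hone q hq.1 χ' χ h.2 h.1).2; linarith)
    calc ∑ χ : DirichletCharacter ℂ q, ∑ χ' : DirichletCharacter ℂ q,
        (if (pr χ = One ∧ pr χ' = ⟨r, ψ⟩) ∨ (pr χ = ⟨r, ψ⟩ ∧ pr χ' = One) then ‖Kq χ χ' m‖ else 0)
        ≤ ∑ χ : DirichletCharacter ℂ q, ∑ χ' : DirichletCharacter ℂ q,
          (Bq r m q * ((if pr χ = One then (1 : ℝ) else 0) *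
            (if pr χ' = ⟨r, ψ⟩ then (1 : ℝ) else 0)) +
          Bq r m q * ((if pr χ = ⟨r, ψ⟩ then (1 : ℝ) else 0) *
            (if pr χ' = One then (1 : ℝ) else 0))) :=
          sum_le_sum fun χ _ => sum_le_sum fun χ' _ => hpt χ χ'
      _ = Bq r m q * ((∑ χ : DirichletCharacter ℂ q, if pr χ = One then (1 : ℝ) else 0) *
            ∑ χ' : DirichletCharacter ℂ q, if pr χ' = ⟨r, ψ⟩ then (1 : ℝ) else 0) +
          Bq r m q * ((∑ χ : DirichletCharacter ℂ q, if pr χ = ⟨r, ψ⟩ then (1 : ℝ) else 0) *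
            ∑ χ' : DirichletCharacter ℂ q, if pr χ' = One then (1 : ℝ) else 0) := by
          simp_rw [sum_add_distrib, ← mul_sum, ← sum_mul]
      _ ≤ Bq r m q * (1 * 1) + Bq r m q * (1 * 1) := by
          have n1 : ∀ z : Ch, 0 ≤ ∑ χ : DirichletCharacter ℂ q, (if pr χ = z then (1 : ℝ) else 0) :=
            fun z => sum_nonneg fun χ _ => by split_ifs <;> norm_num
          refine add_le_add (mul_le_mul_of_nonneg_left ?_ hB) (mul_le_mul_of_nonneg_left ?_ hB)
          · exact mul_le_mul (card_pr_le _) (card_pr_le _) (n1 _) zero_le_one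
          · exact mul_le_mul (card_pr_le _) (card_pr_le _) (n1 _) zero_le_one
      _ = _ := by ring
  refine (sum_le_sum hq2).trans ?_
  rw [← mul_sum]
  have hsum : ∑ q ∈ Ioc 0 P, Bq r m q ≤
      ((r : ℝ) / (r.totient : ℝ) ^ 2) * ∑ k ∈ Ioc 0 P, HH m k := by
    have e1 : ∑ q ∈ Ioc 0 P, Bq r m q =
        ∑ q ∈ (Ioc 0 P).filter (fun q => r ∣ q), ((r : ℝ) / (r.totient : ℝ) ^ 2) * HH m (q / r) := by
      rw [sum_filter]
      rfl
    rw [e1, ← mul_sum]
    apply mul_le_mul_of_nonneg_left _ (by positivity)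
    have e2 : ∑ q ∈ (Ioc 0 P).filter (fun q => r ∣ q), HH m (q / r) =
        ∑ k ∈ ((Ioc 0 P).filter (fun q => r ∣ q)).image (fun q => q / r), HH m k := by
      rw [sum_image]
      intro a ha b hb hab
      rw [Finset.mem_coe, mem_filter] at ha hb
      simp only at hab
      rw [← Nat.div_mul_cancel ha.2, ← Nat.div_mul_cancel hb.2, hab]
    rw [e2]
    refine sum_le_sum_of_subset_of_nonneg ?_ fun k _ _ => HH_nonneg m k
    intro k hk
    rw [mem_image] at hk
    obtain ⟨q, hq, rfl⟩ := hk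
    rw [mem_filter, mem_Ioc] at hq
    rw [mem_Ioc]
    exact ⟨Nat.div_pos (Nat.le_of_dvd hq.1.1 hq.2) hr0, (Nat.div_le_self q r).trans hq.1.2⟩
  have hH := HH_sum_le m P hm
  calc 2 * ∑ q ∈ Ioc 0 P, Bq r m q
      ≤ 2 * (((r : ℝ) / (r.totient : ℝ) ^ 2) * (Real.exp 8 * ((m : ℝ) / m.totient))) := by
        apply mul_le_mul_of_nonneg_left _ (by norm_num)
        exact hsum.trans (mul_le_mul_of_nonneg_left hH (by positivity))
    _ = 2 * Real.exp 8 * ((m : ℝ) / m.totient) * ((r : ℝ) / (r.totient : ℝ) ^ 2) := by ring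

end Pool.Agent.PS
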