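import Pool.Agent.Work.PS.LOW1

/-!
# Block LOW: lower bound for the major arcs
-/

set_option autoImplicit false

namespace Pool.Agent.PS

open Finset
open Pool.Agent.BV (PC)
open Pool.Agent.Circle (e e_add e_int e_nat norm_e sing)
open scoped Classical

namespace LOW

/-! ### the convolutions -/

lemma cv_eq {I₁ I₂ : Finset ℕ} {m : ℕ} (h : ∀ a ∈ I₁, a ≤ m ∧ m - a ∈ I₂) (f₁ f₂ : ℕ → ℂ) :
    cv I₁ I₂ f₁ f₂ m = ∑ a ∈ I₁, f₁ a * f₂ (m - a) := by
  unfold cv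
  refine sum_congr rfl fun a ha => ?_
  obtain ⟨h1, h2⟩ := h a ha
  rw [sum_eq_single_of_mem (m - a) h2 fun b _ hb => if_neg fun hc => hb (by omega),
    if_pos (by omega)]

lemma BB_one (hMT : ∃ C : ℝ, 0 < C ∧ ∀ R H : ℕ, 0 < H → 2 * H < R → ∀ A B A' B' : ℕ,
    4 * B < R → 4 * B' < R → ∀ g₁ g₂ : ℕ → ℝ,
    (∀ n, A < n → 0 ≤ g₁ n ∧ g₁ n ≤ 1 ∧ g₁ (n + 1) ≤ g₁ n) →
    (∀ n, A' < n → 0 ≤ g₂ n ∧ g₂ n ≤ 1 ∧ g₂ (n + 1) ≤ g₂ n) → ∀ m ∈ range R,
    ‖(1 / (R : ℂ)) * ∑ i ∈ Icc (-(H : ℤ)) H,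
        (∑ n ∈ Ioc A B, (g₁ n : ℂ) * e (n * ((i : ℝ) / R))) *
        (∑ n ∈ Ioc A' B', (g₂ n : ℂ) * e (n * ((i : ℝ) / R))) * e (-(m * ((i : ℝ) / R)))
      - cv (Ioc A B) (Ioc A' B') (fun n => (g₁ n : ℂ)) (fun n => (g₂ n : ℂ)) m‖ ≤ C * (R / H)) :
    ∃ C : ℝ, 0 < C ∧ ∀ R H : ℕ, 0 < H → 2 * H < R → ∀ A B A' B' : ℕ,
      4 * B < R → 4 * B' < R → ∀ m ∈ range R, (∀ a ∈ Ioc A B, a ≤ m ∧ m - a ∈ Ioc A' B') →
      ‖BB R H (Ioc A B) (Ioc A' B') m (fun _ => 1) (fun _ => 1) - ((Ioc A B).card : ℂ)‖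
        ≤ C * (R / H) ∧
      ∀ δ : ℝ, 0 < δ → ∀ V : ℝ, 0 < V → (∀ a ∈ Ioc A B, V ≤ a) →
      ‖BB R H (Ioc A B) (Ioc A' B') m (fun n => -((n : ℝ) ^ (-δ) : ℝ))
          (fun n => -((n : ℝ) ^ (-δ) : ℝ))‖
        ≤ (Ioc A B).card * V ^ (-δ) + C * (R / H) := by
  obtain ⟨C, hC, h⟩ := hMT
  refine ⟨C, hC, fun R H hH hHR A B A' B' hB hB' m hm hma => ⟨?_, ?_⟩⟩
  · have h1 := h R H hH hHR A B A' B' hB hB' (fun _ => 1) (fun _ => 1)
      (fun n _ => ⟨zero_le_one, le_rfl, le_rfl⟩) (fun n _ => ⟨zero_le_one, le_rfl, le_rfl⟩) m hm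
    rw [cv_eq hma] at h1
    simp only [Complex.ofReal_one, mul_one, sum_const, nsmul_eq_mul] at h1
    unfold BB Ex
    exact h1
  · intro δ hδ V hV hVa
    have hg : ∀ n : ℕ, 0 < n → (0 : ℝ) ≤ (n : ℝ) ^ (-δ) ∧ (n : ℝ) ^ (-δ) ≤ 1 ∧
        (((n + 1 : ℕ) : ℝ)) ^ (-δ) ≤ (n : ℝ) ^ (-δ) := by
      intro n hn
      have hn0 : (0 : ℝ) < n := by exact_mod_cast hn
      have hn1 : (1 : ℝ) ≤ n := by exact_mod_cast hn
      refine ⟨by positivity, Real.rpow_le_one_of_one_le_of_nonpos hn1 (by linarith), ?_⟩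
      exact Real.rpow_le_rpow_of_nonpos hn0 (by push_cast; linarith) (by linarith)
    have h1 := h R H hH hHR A B A' B' hB hB' (fun n => (n : ℝ) ^ (-δ)) (fun n => (n : ℝ) ^ (-δ))
      (fun n hn => hg n (by omega)) (fun n hn => hg n (by omega)) m hm
    rw [cv_eq hma] at h1
    have e1 : BB R H (Ioc A B) (Ioc A' B') m (fun n => -((n : ℝ) ^ (-δ) : ℝ))
          (fun n => -((n : ℝ) ^ (-δ) : ℝ)) = (1 / (R : ℂ)) * ∑ i ∈ Icc (-(H : ℤ)) H,
        (∑ n ∈ Ioc A B, (((n : ℝ) ^ (-δ) : ℝ) : ℂ) * e (n * ((i : ℝ) / R))) *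
        (∑ n ∈ Ioc A' B', (((n : ℝ) ^ (-δ) : ℝ) : ℂ) * e (n * ((i : ℝ) / R))) *
          e (-(m * ((i : ℝ) / R))) := by
      unfold BB
      congr 1
      refine sum_congr rfl fun i _ => ?_
      congr 1
      have e2 : ∀ I : Finset ℕ, Ex R I (fun n => -((n : ℝ) ^ (-δ) : ℝ)) i =
          -∑ n ∈ I, (((n : ℝ) ^ (-δ) : ℝ) : ℂ) * e (n * ((i : ℝ) / R)) := by
        intro I
        unfold Ex
        rw [← sum_neg_distrib]
        exact sum_congr rfl fun n _ => by ring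
      rw [e2, e2]
      ring
    rw [e1]
    have h2 : ‖∑ a ∈ Ioc A B, (((a : ℝ) ^ (-δ) : ℝ) : ℂ) * ((((m - a : ℕ) : ℝ) ^ (-δ) : ℝ) : ℂ)‖ ≤
        (Ioc A B).card * V ^ (-δ) := by
      refine (norm_sum_le _ _).trans ?_
      rw [← nsmul_eq_mul, ← sum_const]
      refine sum_le_sum fun a ha => ?_
      have ha' := mem_Ioc.1 ha
      have hm' := (hma a ha).2
      rw [mem_Ioc] at hm'
      rw [norm_mul, Complex.norm_real, Complex.norm_real, Real.norm_eq_abs, Real.norm_eq_abs,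
        abs_of_nonneg (hg a (by omega)).1, abs_of_nonneg (hg (m - a) (by omega)).1]
      have k1 : (a : ℝ) ^ (-δ) ≤ V ^ (-δ) :=
        Real.rpow_le_rpow_of_nonpos hV (hVa a ha) (by linarith)
      have k2 := (hg (m - a) (by omega)).2.1
      calc (a : ℝ) ^ (-δ) * ((m - a : ℕ) : ℝ) ^ (-δ) ≤ V ^ (-δ) * 1 :=
            mul_le_mul k1 k2 (hg (m - a) (by omega)).1 (by positivity)
        _ = _ := mul_one _
    have h3 := norm_sub_norm_le ((1 / (R : ℂ)) * ∑ i ∈ Icc (-(H : ℤ)) H,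
        (∑ n ∈ Ioc A B, (((n : ℝ) ^ (-δ) : ℝ) : ℂ) * e (n * ((i : ℝ) / R))) *
        (∑ n ∈ Ioc A' B', (((n : ℝ) ^ (-δ) : ℝ) : ℂ) * e (n * ((i : ℝ) / R))) *
          e (-(m * ((i : ℝ) / R))))
      (∑ a ∈ Ioc A B, (((a : ℝ) ^ (-δ) : ℝ) : ℂ) * ((((m - a : ℕ) : ℝ) ^ (-δ) : ℝ) : ℂ))
    have h4 := h3.trans h1
    linarith

/-! ### the main part -/

lemma Mn_none (hK1 : Stmt_K1) (P R H : ℕ) (I₁ I₂ : Finset ℕ) (m : ℕ) (hm : 0 < m) :
    Mn P R H I₁ I₂ m none =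
      (sing P m : ℂ) * BB R H I₁ I₂ m (fun _ => 1) (fun _ => 1) := by
  rw [← hK1 P m hm]
  unfold Mn
  rw [sum_mul]
  refine sum_congr rfl fun q hq => ?_
  rw [sum_mul]
  refine sum_congr rfl fun χ _ => ?_
  rw [sum_mul]
  refine sum_congr rfl fun χ' _ => ?_
  have hq0 : 0 < q := (mem_Ioc.1 hq).1
  have hone : (mt none One : ℕ → ℂ) = fun _ => 1 := by
    funext n
    exact mt_of_one none rfl n
  have hT : ∀ ψ : DirichletCharacter ℂ q, pr ψ ≠ One → ∀ n, mt none (pr ψ) n = 0 := by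
    intro ψ hψ n
    obtain ⟨h0, -, hp⟩ := pr_spec hq0 ψ
    refine mt_eq_zero h0 hp ?_ n
    unfold TT
    simpa using hψ
  by_cases h1 : pr χ = One
  · by_cases h2 : pr χ' = One
    · rw [if_pos ⟨h1, h2⟩, h1, h2, hone]
    · rw [if_neg (fun h => h2 h.2), BB_zero_right fun n _ => hT χ' h2 n, mul_zero, zero_mul]
  · rw [if_neg (fun h => h1 h.1), BB_zero_left fun n _ => hT χ h1 n, mul_zero, zero_mul]

lemma Mn_some {CX : ℝ} (hKX : ∀ P m : ℕ, 0 < m → ∀ y ∈ Fam P, y.2 ≠ 1 →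
    ∑ q ∈ Ioc 0 P, ∑ χ : DirichletCharacter ℂ q, ∑ χ' : DirichletCharacter ℂ q,
      (if (pr χ = One ∧ pr χ' = y) ∨ (pr χ = y ∧ pr χ' = One) then ‖Kq χ χ' m‖ else 0)
    ≤ CX * ((m : ℝ) / m.totient) * ((y.1 : ℝ) / (y.1.totient : ℝ) ^ 2))
    (hK1 : Stmt_K1) (hK2 : Stmt_K2) (P R H : ℕ) (I₁ I₂ : Finset ℕ) (m : ℕ) (hm : 0 < m)
    (y : Ch) (δ : ℝ) (hy : y ∈ Fam P) (hy1 : y.2 ≠ 1) (hy2 : y.2 ^ 2 = 1) (hδ : 0 < δ) {X : ℝ}
    (hX : 0 ≤ X)
    (hH : 2 * H < R)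
    (h1 : ∀ n ∈ I₁, 0 < n ∧ n < R) (h2 : ∀ n ∈ I₂, 0 < n ∧ n < R)
    (hc1 : (I₁.card : ℝ) ≤ X) (hc2 : (I₂.card : ℝ) ≤ X) :
    ‖Mn P R H I₁ I₂ m (some (y, δ)) -
      (sing P m : ℂ) * BB R H I₁ I₂ m (fun _ => 1) (fun _ => 1)‖ ≤
      |Bs y.1 P m| * ‖BB R H I₁ I₂ m (fun n => -((n : ℝ) ^ (-δ) : ℝ))
          (fun n => -((n : ℝ) ^ (-δ) : ℝ))‖ +
        CX * ((m : ℝ) / m.totient) * ((y.1 : ℝ) / (y.1.totient : ℝ) ^ 2) * X := by
  set E : Option (Ch × ℝ) := some (y, δ) with hE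
  have hEδ : ∀ y' δ', E = some (y', δ') → 0 < δ' := by
    intro y' δ' h
    rw [hE, Option.some.injEq, Prod.mk.injEq] at h
    rw [← h.2]
    exact hδ
  have hone : (mt E One : ℕ → ℂ) = fun _ => 1 := by
    funext n
    exact mt_of_one E rfl n
  have hyv : (mt E y : ℕ → ℂ) = fun n : ℕ => -(((n : ℝ) ^ (-δ) : ℝ) : ℂ) := by
    funext n
    unfold mt
    rw [if_neg hy1, hE]
    simp only [if_true]
  have hOy : One ≠ y := by
    rintro rfl
    exact hy1 rfl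
  set G := fun x x' : Ch => BB R H I₁ I₂ m (mt E x) (mt E x') with hG
  have hGX : ∀ x x' : Ch, ‖G x x'‖ ≤ X := by
    intro x x'
    refine (norm_BB_le _ _ _ _ _ _ _).trans ?_
    have k1 := Wn_le R H hH I₁ (fun n hn => (h1 n hn).2) (mt E x)
      (fun n hn => norm_mt_le E hEδ x (h1 n hn).1) hc1
    have k2 := Wn_le R H hH I₂ (fun n hn => (h2 n hn).2) (mt E x')
      (fun n hn => norm_mt_le E hEδ x' (h2 n hn).1) hc2
    calc _ ≤ √X * √X := mul_le_mul k1 k2 (Wn_nonneg _ _ _ _) (Real.sqrt_nonneg _)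
      _ = X := Real.mul_self_sqrt hX
  have hterm : ∀ q ∈ Ioc 0 P, ∀ χ : DirichletCharacter ℂ q, ∀ χ' : DirichletCharacter ℂ q,
      Kq χ χ' m * G (pr χ) (pr χ') =
        (if pr χ = One ∧ pr χ' = One then Kq χ χ' m else 0) * G One One +
        (if pr χ = y ∧ pr χ' = y then Kq χ χ' m else 0) * G y y +
        (if (pr χ = One ∧ pr χ' = y) ∨ (pr χ = y ∧ pr χ' = One) then Kq χ χ' m else 0)
          * G (pr χ) (pr χ') := by
    intro q hq χ χ'
    have hq0 : 0 < q := (mem_Ioc.1 hq).1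
    have hT : ∀ ψ : DirichletCharacter ℂ q, pr ψ ≠ One → pr ψ ≠ y → ∀ n, mt E (pr ψ) n = 0 := by
      intro ψ hψ hψ' n
      obtain ⟨h0, -, hp⟩ := pr_spec hq0 ψ
      refine mt_eq_zero h0 hp ?_ n
      unfold TT
      rw [hE]
      simp [hψ, hψ']
    by_cases a1 : pr χ = One
    · have a1' : pr χ ≠ y := fun h => hOy (a1.symm.trans h)
      by_cases b1 : pr χ' = One
      · have b1' : pr χ' ≠ y := fun h => hOy (b1.symm.trans h)
        rw [if_pos ⟨a1, b1⟩, if_neg (fun h => a1' h.1),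
          if_neg (by rintro (h | h); exacts [b1' h.2, a1' h.1]), a1, b1]
        ring
      · by_cases b2 : pr χ' = y
        · rw [if_neg (fun h => b1 h.2), if_neg (fun h => a1' h.1), if_pos (Or.inl ⟨a1, b2⟩)]
          ring
        · rw [if_neg (fun h => b1 h.2), if_neg (fun h => b2 h.2),
            if_neg (by rintro (h | h); exacts [b2 h.2, b1 h.2])]
          have : G (pr χ) (pr χ') = 0 := BB_zero_right fun n _ => hT χ' b1 b2 n
          rw [this]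
          ring
    · by_cases a2 : pr χ = y
      · by_cases b1 : pr χ' = One
        · have b1' : pr χ' ≠ y := fun h => hOy (b1.symm.trans h)
          rw [if_neg (fun h => a1 h.1), if_neg (fun h => b1' h.2), if_pos (Or.inr ⟨a2, b1⟩)]
          ring
        · by_cases b2 : pr χ' = y
          · rw [if_neg (fun h => b1 h.2), if_pos ⟨a2, b2⟩,
              if_neg (by rintro (h | h); exacts [a1 h.1, b1 h.2]), a2, b2]
            ring
          · rw [if_neg (fun h => b1 h.2), if_neg (fun h => b2 h.2),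
              if_neg (by rintro (h | h); exacts [b2 h.2, b1 h.2])]
            have : G (pr χ) (pr χ') = 0 := BB_zero_right fun n _ => hT χ' b1 b2 n
            rw [this]
            ring
      · rw [if_neg (fun h => a1 h.1), if_neg (fun h => a2 h.1),
          if_neg (by rintro (h | h); exacts [a1 h.1, a2 h.1])]
        have : G (pr χ) (pr χ') = 0 := BB_zero_left fun n _ => hT χ a1 a2 n
        rw [this]
        ring
  have hMn : Mn P R H I₁ I₂ m E =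
      (∑ q ∈ Ioc 0 P, ∑ χ : DirichletCharacter ℂ q, ∑ χ' : DirichletCharacter ℂ q,
        (if pr χ = One ∧ pr χ' = One then Kq χ χ' m else 0)) * G One One +
      (∑ q ∈ Ioc 0 P, ∑ χ : DirichletCharacter ℂ q, ∑ χ' : DirichletCharacter ℂ q,
        (if pr χ = y ∧ pr χ' = y then Kq χ χ' m else 0)) * G y y +
      ∑ q ∈ Ioc 0 P, ∑ χ : DirichletCharacter ℂ q, ∑ χ' : DirichletCharacter ℂ q,
        (if (pr χ = One ∧ pr χ' = y) ∨ (pr χ = y ∧ pr χ' = One) then Kq χ χ' m else 0)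
          * G (pr χ) (pr χ') := by
    simp only [sum_mul]
    simp only [← sum_add_distrib]
    unfold Mn
    exact sum_congr rfl fun q hq => sum_congr rfl fun χ _ => sum_congr rfl fun χ' _ =>
      hterm q hq χ χ'
  have hcross : ‖∑ q ∈ Ioc 0 P, ∑ χ : DirichletCharacter ℂ q, ∑ χ' : DirichletCharacter ℂ q,
        (if (pr χ = One ∧ pr χ' = y) ∨ (pr χ = y ∧ pr χ' = One) then Kq χ χ' m else 0)
          * G (pr χ) (pr χ')‖ ≤
      CX * ((m : ℝ) / m.totient) * ((y.1 : ℝ) / (y.1.totient : ℝ) ^ 2) * X := by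
    refine le_trans ?_ (mul_le_mul_of_nonneg_right (hKX P m hm y hy hy1) hX)
    simp only [sum_mul]
    refine (norm_sum_le _ _).trans (sum_le_sum fun q hq => ?_)
    refine (norm_sum_le _ _).trans (sum_le_sum fun χ _ => ?_)
    refine (norm_sum_le _ _).trans (sum_le_sum fun χ' _ => ?_)
    rw [norm_mul]
    split_ifs with h
    · exact mul_le_mul_of_nonneg_left (hGX _ _) (norm_nonneg _)
    · simp
  rw [hMn, hK1 P m hm]
  have hG1 : G One One = BB R H I₁ I₂ m (fun _ => 1) (fun _ => 1) := by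
    simp only [hG, hone]
  have hG2 : G y y = BB R H I₁ I₂ m (fun n => -((n : ℝ) ^ (-δ) : ℝ))
          (fun n => -((n : ℝ) ^ (-δ) : ℝ)) := by
    simp only [hG, hyv]
  rw [← hG1, ← hG2, ← hK2 P m hm y hy hy2, ← norm_mul]
  refine le_trans (le_of_eq (congrArg norm ?_)) ((norm_add_le _ _).trans (add_le_add le_rfl hcross))
  ring

/-! ### constants -/

lemma exists_P0 (K κ : ℝ) (hκ : 0 < κ) : ∃ P0 : ℕ, 3 ≤ P0 ∧ ∀ P : ℕ, P0 ≤ P →
    K / ((P : ℝ) ^ (1 / 8 : ℝ)) ^ 2 ≤ κ * (P : ℝ) ^ (-(1 / 32) : ℝ) := by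
  have h1 := (tendsto_rpow_atTop (by norm_num : (0 : ℝ) < 7 / 32)).eventually_ge_atTop (K / κ)
  have h2 := tendsto_natCast_atTop_atTop (R := ℝ) |>.eventually h1
  obtain ⟨N, hN⟩ := Filter.eventually_atTop.1 h2
  refine ⟨max 3 N, le_max_left _ _, fun P hP => ?_⟩
  have h3 := hN P ((le_max_right _ _).trans hP)
  have hP0 : (0 : ℝ) < P := by
    have : 3 ≤ P := (le_max_left _ _).trans hP
    exact_mod_cast (by omega : 0 < P)
  rw [div_le_iff₀ hκ] at h3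
  have e1 : ((P : ℝ) ^ (1 / 8 : ℝ)) ^ 2 = (P : ℝ) ^ (1 / 4 : ℝ) := by
    rw [← Real.rpow_natCast, ← Real.rpow_mul hP0.le]
    norm_num
  rw [e1, div_le_iff₀ (by positivity), mul_assoc, ← Real.rpow_add hP0]
  have e2 : (-(1 / 32) + 1 / 4 : ℝ) = 7 / 32 := by norm_num
  rw [e2]
  linarith

/-- the cross term constant -/
lemma cross_le {r : ℕ} (hr : 0 < r) {u ε : ℝ} (hu : 0 < u) (hu1 : u ≤ 1) (hε : 0 < ε)
    (hεu : ε ≤ u ^ 3) (hrε : 1 / ε ≤ (r : ℝ)) :
    (r : ℝ) / (r.totient : ℝ) ^ 2 ≤ 4 * u * (r : ℝ) ^ (-(1 / 8) : ℝ) := by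
  have hr0 : (0 : ℝ) < r := by exact_mod_cast hr
  have hr1 : (1 : ℝ) ≤ r := by exact_mod_cast hr
  refine (div_totient_sq_le r hr).trans ?_
  have e1 : (r : ℝ) ^ (-(1 / 2) : ℝ) = (r : ℝ) ^ (-(3 / 8) : ℝ) * (r : ℝ) ^ (-(1 / 8) : ℝ) := by
    rw [← Real.rpow_add hr0]
    norm_num
  have h1 : (r : ℝ) ^ (-(3 / 8) : ℝ) ≤ (r : ℝ) ^ (-(1 / 3) : ℝ) :=
    Real.rpow_le_rpow_of_exponent_le hr1 (by norm_num)
  have h2 : (r : ℝ) ^ (-(1 / 3) : ℝ) ≤ u := by
    have h3 : (u ^ 3)⁻¹ ≤ (r : ℝ) := by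
      refine le_trans ?_ hrε
      rw [one_div]
      exact inv_anti₀ hε hεu
    calc (r : ℝ) ^ (-(1 / 3) : ℝ) ≤ ((u ^ 3)⁻¹) ^ (-(1 / 3) : ℝ) :=
          Real.rpow_le_rpow_of_nonpos (by positivity) h3 (by norm_num)
      _ = u := by
          rw [Real.inv_rpow (by positivity), Real.rpow_neg (by positivity), inv_inv,
            ← Real.rpow_natCast, ← Real.rpow_mul hu.le]
          norm_num
  rw [e1]
  have h4 : (0 : ℝ) ≤ (r : ℝ) ^ (-(1 / 8) : ℝ) := by positivity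
  linarith [mul_le_mul_of_nonneg_right (h1.trans h2) h4]

end LOW

open LOW in
theorem stmt_LOW (hMAJ : Stmt_MAJ) (hKSUM : Stmt_KSUM) (hKX : Stmt_KX) (hK1 : Stmt_K1)
    (hK2 : Stmt_K2) (hSING : Stmt_SING) : Stmt_LOW := by
  obtain ⟨CM, hCM, hMT⟩ := BB_one stmt_MT
  obtain ⟨CK, hCK, hKS⟩ := hKSUM
  obtain ⟨CX, hCX, hKX⟩ := hKX
  obtain ⟨c0', CS, hc0', hCS, hS⟩ := hSING
  set c0 : ℝ := min c0' 1 with hc0d
  have hc0 : 0 < c0 := lt_min hc0' one_pos
  have hc01 : c0 ≤ 1 := min_le_right _ _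
  set κ : ℝ := c0 * ((1 / 3) / 80) with hκd
  have hκ : 0 < κ := by positivity
  set u : ℝ := min 1 (κ / (4 * CX)) with hud
  have hu : 0 < u := lt_min one_pos (by positivity)
  have hu1 : u ≤ 1 := min_le_left _ _
  have hu2 : u ≤ κ / (4 * CX) := min_le_right _ _
  set ε : ℝ := min (κ / (5 * CK)) (u ^ 3) with hεd
  have hε : 0 < ε := lt_min (by positivity) (by positivity)
  have hε1 : ε ≤ 1 := (min_le_right _ _).trans (pow_le_one₀ hu.le hu1)
  have hε2 : ε ≤ κ / (5 * CK) := min_le_left _ _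
  have hε3 : ε ≤ u ^ 3 := min_le_right _ _
  obtain ⟨P0, hP03, hP0⟩ := exists_P0 (CS + 2 * CM) κ hκ
  refine ⟨ε, c0 * (1 / 3) / 10, P0, hε, by positivity, ?_⟩
  intro X P M m R H E hP hPX hR hH1 hH2 hXM hMm hmX hev hMR hdiv hE hW1 hW2
  -- sizes
  have hP3 : 3 ≤ P := hP03.trans hP
  have hPX' : 19683 * P ≤ X := by
    have h1 : 3 ^ 9 ≤ P ^ 9 := Nat.pow_le_pow_left hP3 9
    calc 19683 * P ≤ P ^ 9 * P := Nat.mul_le_mul_right P (by norm_num at h1 ⊢; exact h1)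
      _ = P ^ 10 := by ring
      _ ≤ X := hPX
  have hX0 : 0 < X := by omega
  have hXr : (0 : ℝ) < X := by exact_mod_cast hX0
  have hPr : (0 : ℝ) < P := by exact_mod_cast (by omega : 0 < P)
  have hP1 : (1 : ℝ) ≤ P := by exact_mod_cast (by omega : 1 ≤ P)
  have hRr : (0 : ℝ) < R := by exact_mod_cast hR
  have hm : 0 < m := by omega
  have hHpos : 0 < H := by
    rcases Nat.eq_zero_or_pos H with h | h
    · exfalso
      rw [h] at hH2
      simp only [Nat.cast_zero, mul_zero, zero_div] at hH2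
      have : 0 < (P : ℝ) / X := by positivity
      linarith
    · exact h
  have hHr : (0 : ℝ) < H := by exact_mod_cast hHpos
  have hHR : 2 * H < R := by
    rw [div_le_div_iff₀ hRr hXr] at hH1
    have h1 : H * X ≤ P * R := by exact_mod_cast hH1
    by_contra hc
    push Not at hc
    have h2 : R * X ≤ 2 * (P * R) := by
      calc R * X ≤ 2 * H * X := Nat.mul_le_mul_right X hc
        _ = 2 * (H * X) := by ring
        _ ≤ 2 * (P * R) := Nat.mul_le_mul_left 2 h1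
    have h3 : R * X ≤ R * (2 * P) := by
      calc R * X ≤ 2 * (P * R) := h2
        _ = R * (2 * P) := by ring
    have h4 := Nat.le_of_mul_le_mul_left h3 hR
    omega
  have hRH : (R : ℝ) / H ≤ 2 * X / P := by
    rw [div_le_div_iff₀ hXr hRr] at hH2
    rw [div_le_div_iff₀ hHr hPr]
    linarith
  set I₁ := Ioc (X / 4) (X / 2) with hI1
  set I₂ := Ioc (M - X / 2) M with hI2
  have b1 : ∀ n ∈ I₁, 0 < n ∧ n < R := by
    intro n hn
    have := mem_Ioc.1 hn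
    omega
  have b2 : ∀ n ∈ I₂, 0 < n ∧ n < R := by
    intro n hn
    have := mem_Ioc.1 hn
    omega
  have p1 : ∀ n ∈ I₁, P < n := by
    intro n hn
    have := mem_Ioc.1 hn
    omega
  have p2 : ∀ n ∈ I₂, P < n := by
    intro n hn
    have := mem_Ioc.1 hn
    omega
  have hcard1 : I₁.card = X / 2 - X / 4 := Nat.card_Ioc _ _
  have hcard2 : I₂.card = M - (M - X / 2) := Nat.card_Ioc _ _
  have hc1 : (I₁.card : ℝ) ≤ X := by
    rw [hcard1]
    exact_mod_cast (by omega : X / 2 - X / 4 ≤ X)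
  have hc2 : (I₂.card : ℝ) ≤ X := by
    rw [hcard2]
    exact_mod_cast (by omega : M - (M - X / 2) ≤ X)
  have hma : ∀ a ∈ I₁, a ≤ m ∧ m - a ∈ I₂ := by
    intro a ha
    have := mem_Ioc.1 ha
    rw [hI2, mem_Ioc]
    omega
  have hJ5 : (X : ℝ) / 5 ≤ (I₁.card : ℝ) := by
    rw [hcard1]
    have : X ≤ 5 * (X / 2 - X / 4) := by omega
    have h2 : (X : ℝ) ≤ 5 * ((X / 2 - X / 4 : ℕ) : ℝ) := by exact_mod_cast this
    linarith
  have hmR : m ∈ range R := by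
    rw [mem_range]
    omega
  obtain ⟨hB1, hB2⟩ := hMT R H hHpos hHR (X / 4) (X / 2) (M - X / 2) M (by omega) (by omega)
    m hmR hma
  -- the parameter t
  set t : ℝ := (P : ℝ) ^ (1 / 8 : ℝ) with ht
  have ht1 : 1 ≤ t := Real.one_le_rpow hP1 (by norm_num)
  have ht0 : 0 < t := by linarith
  have ht8 : t ^ 8 = P := by
    rw [ht, ← Real.rpow_natCast, ← Real.rpow_mul hPr.le]
    norm_num
  have hsqrtP : √(P : ℝ) = t ^ 4 := by
    rw [← ht8]
    have : t ^ 8 = (t ^ 4) ^ 2 := by ring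
    rw [this, Real.sqrt_sq (by positivity)]
  -- the parameter l
  set l : ℝ := lam E X with hl
  have hlog1 : 1 ≤ Real.log X := by
    rw [Real.le_log_iff_exp_le hXr]
    have h1 := Real.exp_one_lt_d9
    have h2 : (3 : ℝ) ≤ X := by exact_mod_cast (by omega : 3 ≤ X)
    linarith
  have hr8 : ∀ y δ, E = some (y, δ) → (y.1 : ℝ) ^ (-(1 / 8) : ℝ) ≤ l := by
    intro y δ hy
    obtain ⟨hexc, hr4, hrε, hrδ⟩ := hE y δ hy
    have hr0 := mem_Fam hexc.mem
    have hr1 : (1 : ℝ) ≤ y.1 := by exact_mod_cast Nat.one_le_iff_ne_zero.2 hr0.1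
    rw [hl, hy]
    unfold lam
    simp only
    refine le_min (Real.rpow_le_one_of_one_le_of_nonpos hr1 (by norm_num)) ?_
    refine hrδ.trans ?_
    exact le_mul_of_one_le_right hexc.pos.le hlog1
  obtain ⟨hl0, hl1, hlP⟩ : 0 < l ∧ l ≤ 1 ∧ (P : ℝ) ^ (-(1 / 32) : ℝ) ≤ l := by
    cases hEc : E with
    | none =>
      have : l = 1 := by rw [hl, hEc]; rfl
      rw [this]
      exact ⟨one_pos, le_rfl, Real.rpow_le_one_of_one_le_of_nonpos hP1 (by norm_num)⟩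
    | some p =>
      obtain ⟨y, δ⟩ := p
      obtain ⟨hexc, hr4, hrε, hrδ⟩ := hE y δ hEc
      have h8 := hr8 y δ hEc
      have hr0 := mem_Fam hexc.mem
      have hr0' : (0 : ℝ) < y.1 := by exact_mod_cast Nat.pos_of_ne_zero hr0.1
      refine ⟨lt_of_lt_of_le (by positivity) h8, ?_, le_trans ?_ h8⟩
      · rw [hl, hEc]
        exact min_le_left _ _
      · have h4 : (y.1 : ℝ) ^ 4 ≤ P := by exact_mod_cast hr4
        calc (P : ℝ) ^ (-(1 / 32) : ℝ) ≤ ((y.1 : ℝ) ^ 4) ^ (-(1 / 32) : ℝ) :=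
              Real.rpow_le_rpow_of_nonpos (by positivity) h4 (by norm_num)
          _ = (y.1 : ℝ) ^ (-(1 / 8) : ℝ) := by
              rw [← Real.rpow_natCast, ← Real.rpow_mul hr0'.le]
              norm_num
  have hKP : (CS + 2 * CM) / t ^ 2 ≤ κ * l :=
    (hP0 P hP).trans (mul_le_mul_of_nonneg_left hlP hκ.le)
  have hKP1 : CS / t ^ 2 ≤ κ * l := by
    refine le_trans ?_ hKP
    exact div_le_div_of_nonneg_right (by linarith) (by positivity)
  have hKP2 : 2 * CM / t ^ 2 ≤ κ * l := by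
    refine le_trans ?_ hKP
    exact div_le_div_of_nonneg_right (by linarith) (by positivity)
  set mm : ℝ := (m : ℝ) / m.totient with hmm
  have hmm1 : 1 ≤ mm := by
    rw [hmm, le_div_iff₀ (by exact_mod_cast Nat.totient_pos.2 hm), one_mul]
    exact_mod_cast Nat.totient_le m
  have hmm0 : 0 < mm := by linarith
  set ρ : ℝ := CM * (R / H) with hρd
  have hρ0 : 0 ≤ ρ := by positivity
  have hρ : ρ ≤ κ * l * X := by
    have h1 : ρ ≤ CM * (2 * X / P) := mul_le_mul_of_nonneg_left hRH hCM.le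
    have h2 : CM * (2 * X / P) ≤ 2 * CM / t ^ 2 * X := by
      have h3 : t ^ 2 ≤ P := by
        rw [← ht8]
        exact pow_le_pow_right₀ ht1 (by norm_num)
      have h4 : 1 / (P : ℝ) ≤ 1 / t ^ 2 := one_div_le_one_div_of_le (by positivity) h3
      calc CM * (2 * X / P) = 2 * CM * X * (1 / P) := by ring
        _ ≤ 2 * CM * X * (1 / t ^ 2) := mul_le_mul_of_nonneg_left h4 (by positivity)
        _ = _ := by ring
    exact h1.trans (h2.trans (mul_le_mul_of_nonneg_right hKP2 hXr.le))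
  set s : ℝ := sing P m with hs
  set B11 : ℂ := BB R H I₁ I₂ m (fun _ => 1) (fun _ => 1) with hB11
  -- the error terms
  set D : ℝ := ε * l * √(X : ℝ) with hD
  have hD0 : 0 ≤ D := by positivity
  have herr := err_le hKS P R H I₁ I₂ m hm hHR b1 b2 E
    (fun y δ hy => (hE y δ hy).1.pos) (X := X) (D := D) hCK hc1 hc2 hD0 hW1 hW2
  have her : CK * ((m : ℝ) / m.totient) * (4 * √(X : ℝ) * D + D ^ 2) ≤ κ * mm * l * X := by
    have hsX : √(X : ℝ) * √(X : ℝ) = X := Real.mul_self_sqrt hXr.le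
    have e1 : 4 * √(X : ℝ) * D + D ^ 2 = (4 * ε * l + ε ^ 2 * l ^ 2) * X := by
      rw [hD]
      calc 4 * √(X : ℝ) * (ε * l * √(X : ℝ)) + (ε * l * √(X : ℝ)) ^ 2
          = (4 * ε * l + ε ^ 2 * l ^ 2) * (√(X : ℝ) * √(X : ℝ)) := by ring
        _ = _ := by rw [hsX]
    rw [e1]
    have h1 : ε ^ 2 * l ^ 2 ≤ ε * l := by
      have : ε * l ≤ 1 := mul_le_one₀ hε1 hl0.le hl1
      calc ε ^ 2 * l ^ 2 = (ε * l) * (ε * l) := by ring
        _ ≤ (ε * l) * 1 := mul_le_mul_of_nonneg_left this (by positivity)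
        _ = ε * l := mul_one _
    have h2 : (4 * ε * l + ε ^ 2 * l ^ 2) * X ≤ 5 * ε * l * X :=
      mul_le_mul_of_nonneg_right (by linarith) hXr.le
    have h3 : CK * (5 * ε) ≤ κ := by
      rw [le_div_iff₀ (by positivity)] at hε2
      linarith
    calc CK * mm * ((4 * ε * l + ε ^ 2 * l ^ 2) * X) ≤ CK * mm * (5 * ε * l * X) :=
          mul_le_mul_of_nonneg_left h2 (by positivity)
      _ = (CK * (5 * ε)) * (mm * l * X) := by ring
      _ ≤ κ * (mm * l * X) := mul_le_mul_of_nonneg_right h3 (by positivity)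
      _ = _ := by ring
  -- the main terms
  have key : ∃ F B Jt cr : ℝ, c0 * mm ≤ F ∧ |s - F| ≤ κ * mm * l ∧ 0 ≤ B ∧ B ≤ F + κ * mm * l ∧
      0 ≤ Jt ∧ Jt ≤ I₁.card * (1 - 1 / 3 * l) ∧ cr ≤ κ * mm * l * X ∧
      ‖Mn P R H I₁ I₂ m E - (s : ℂ) * B11‖ ≤ B * (Jt + ρ) + cr := by
    have hκmm : κ * l ≤ κ * mm * l := by
      have : κ * l * 1 ≤ κ * l * mm := mul_le_mul_of_nonneg_left hmm1 (by positivity)
      linarith
    have hsF : ∀ F : ℝ, |sing P m - F| ≤ CS * (m.divisors.card : ℝ) / √(P : ℝ) →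
        |s - F| ≤ κ * mm * l := by
      intro F hF
      refine hF.trans (le_trans ?_ (hKP1.trans hκmm))
      rw [hsqrtP, div_le_div_iff₀ (by positivity) (by positivity)]
      have h1 : (m.divisors.card : ℝ) * t ^ 2 ≤ t * t ^ 2 :=
        mul_le_mul_of_nonneg_right hdiv (by positivity)
      have h2 : t * t ^ 2 ≤ t ^ 4 := by
        calc t * t ^ 2 = t ^ 3 := by ring
          _ ≤ t ^ 4 := pow_le_pow_right₀ ht1 (by norm_num)
      calc CS * (m.divisors.card : ℝ) * t ^ 2 = CS * ((m.divisors.card : ℝ) * t ^ 2) := by ring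
        _ ≤ CS * t ^ 4 := mul_le_mul_of_nonneg_left (h1.trans h2) hCS.le
    have hc0F : ∀ F : ℝ, c0' * ((m : ℝ) / m.totient) ≤ F → c0 * mm ≤ F := by
      intro F hF
      exact (mul_le_mul_of_nonneg_right (min_le_left _ _) hmm0.le).trans hF
    cases hEc : E with
    | none =>
      obtain ⟨F, hF1, hF2, -⟩ := hS P m 1 (by omega) hm hev one_pos (by omega)
      refine ⟨F, 0, 0, 0, hc0F F hF1, hsF F hF2, le_rfl, ?_, le_rfl, ?_, by positivity, ?_⟩
      · have : 0 ≤ F := le_trans (by positivity) (hc0F F hF1)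
        positivity
      · have : 0 ≤ 1 - 1 / 3 * l := by linarith
        positivity
      · rw [Mn_none hK1 P R H I₁ I₂ m hm]
        simp [hB11, hs]
    | some p =>
      obtain ⟨y, δ⟩ := p
      obtain ⟨hexc, hr4, hrε, hrδ⟩ := hE y δ hEc
      have h8 := hr8 y δ hEc
      obtain ⟨hr0, hrP, -⟩ := mem_Fam hexc.mem
      have hr0' : 0 < y.1 := Nat.pos_of_ne_zero hr0
      have hr0r : (0 : ℝ) < y.1 := by exact_mod_cast hr0'
      obtain ⟨F, hF1, hF2, hF3⟩ := hS P m y.1 (by omega) hm hev hr0' hrP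
      have hMs := Mn_some hKX hK1 hK2 P R H I₁ I₂ m hm y δ hexc.mem hexc.ne hexc.sq hexc.pos
        hXr.le hHR b1 b2 hc1 hc2
      have hBy := hB2 δ hexc.pos ((X : ℝ) / 4) (by positivity) (by
        intro a ha
        have := mem_Ioc.1 ha
        have h1 : X ≤ 4 * a := by omega
        have h2 : (X : ℝ) ≤ 4 * a := by exact_mod_cast h1
        linarith)
      refine ⟨F, |Bs y.1 P m|, I₁.card * ((X : ℝ) / 4) ^ (-δ),
        CX * ((m : ℝ) / m.totient) * ((y.1 : ℝ) / (y.1.totient : ℝ) ^ 2) * X, hc0F F hF1,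
        hsF F hF2, abs_nonneg _, ?_, by positivity, ?_, ?_, ?_⟩
      · refine hF3.trans (add_le_add le_rfl ?_)
        -- CS mm d √(r/P) ≤ κ mm l
        have hrt : (y.1 : ℝ) ≤ t ^ 2 := by
          have h4 : (y.1 : ℝ) ^ 4 ≤ (t ^ 2) ^ 4 := by
            calc (y.1 : ℝ) ^ 4 ≤ P := by exact_mod_cast hr4
              _ = t ^ 8 := ht8.symm
              _ = (t ^ 2) ^ 4 := by ring
          exact (pow_le_pow_iff_left₀ hr0r.le (by positivity) (by norm_num)).1 h4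
        have hsq : √((y.1 : ℝ) / P) ≤ 1 / t ^ 3 := by
          rw [Real.sqrt_le_left (by positivity), ← ht8, div_pow, one_pow,
            div_le_div_iff₀ (by positivity) (by positivity)]
          calc (y.1 : ℝ) * (t ^ 3) ^ 2 ≤ t ^ 2 * (t ^ 3) ^ 2 :=
                mul_le_mul_of_nonneg_right hrt (by positivity)
            _ = 1 * t ^ 8 := by ring
        calc CS * ((m : ℝ) / m.totient) * (m.divisors.card : ℝ) * √((y.1 : ℝ) / P)
            ≤ CS * mm * t * (1 / t ^ 3) := by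
              refine mul_le_mul ?_ hsq (Real.sqrt_nonneg _) (by positivity)
              exact mul_le_mul_of_nonneg_left hdiv (by positivity)
          _ = mm * (CS / t ^ 2) := by
              field_simp
          _ ≤ mm * (κ * l) := mul_le_mul_of_nonneg_left hKP1 hmm0.le
          _ = κ * mm * l := by ring
      · have h1 := pow_saving (X := (X : ℝ)) (δ := δ)
          (by exact_mod_cast (by omega : 16 ≤ X)) hexc.pos
        have h2 : l = min 1 (δ * Real.log X) := by rw [hl, hEc]; rfl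
        rw [← h2] at h1
        exact mul_le_mul_of_nonneg_left h1 (Nat.cast_nonneg _)
      · have h1 := cross_le hr0' hu hu1 hε hε3 hrε
        have h2 : (y.1 : ℝ) / (y.1.totient : ℝ) ^ 2 ≤ 4 * u * l :=
          h1.trans (mul_le_mul_of_nonneg_left h8 (by positivity))
        have h3 : CX * (4 * u) ≤ κ := by
          rw [le_div_iff₀ (by positivity)] at hu2
          linarith
        calc CX * ((m : ℝ) / m.totient) * ((y.1 : ℝ) / (y.1.totient : ℝ) ^ 2) * X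
            ≤ CX * mm * (4 * u * l) * X :=
              mul_le_mul_of_nonneg_right (mul_le_mul_of_nonneg_left h2 (by positivity)) hXr.le
          _ = (CX * (4 * u)) * (mm * l * X) := by ring
          _ ≤ κ * (mm * l * X) := mul_le_mul_of_nonneg_right h3 (by positivity)
          _ = κ * mm * l * X := by ring
      · refine hMs.trans (add_le_add ?_ le_rfl)
        exact mul_le_mul_of_nonneg_left hBy (abs_nonneg _)
  obtain ⟨F, B, Jt, cr, k1, k2, k3, k4, k5, k6, k7, k8⟩ := key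
  have hfin := final_ineq hc0 hc01 (by norm_num : (0 : ℝ) < 1 / 3) (by norm_num) hκd hmm1 k1 hl0
    hl1 hXr hJ5 hc1 k5 k6 k2 k3 k4 hρ0 hρ k7 her
  refine hfin.trans ?_
  rw [Maj_eq hMAJ P R H I₁ I₂ m hR p1 p2 E]
  set Er := ∑ q ∈ Ioc 0 P, ∑ χ : DirichletCharacter ℂ q, ∑ χ' : DirichletCharacter ℂ q,
        Kq χ χ' m * (BB R H I₁ I₂ m (mt E (pr χ)) (dd E (pr χ'))
          + BB R H I₁ I₂ m (dd E (pr χ)) (mt E (pr χ'))
          + BB R H I₁ I₂ m (dd E (pr χ)) (dd E (pr χ'))) with hEr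
  have q1 : -‖Er‖ ≤ Er.re := by
    have := (abs_le.1 (Complex.abs_re_le_norm Er)).1
    exact this
  have q2 : -‖Mn P R H I₁ I₂ m E - (s : ℂ) * B11‖ ≤ (Mn P R H I₁ I₂ m E - (s : ℂ) * B11).re :=
    (abs_le.1 (Complex.abs_re_le_norm _)).1
  have q3 : s * I₁.card - |s| * ρ ≤ ((s : ℂ) * B11).re := by
    have h1 : ((s : ℂ) * B11).re = s * I₁.card + ((s : ℂ) * (B11 - (I₁.card : ℂ))).re := by
      rw [mul_sub, Complex.sub_re]
      have : ((s : ℂ) * (I₁.card : ℂ)).re = s * I₁.card := by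
        rw [← Complex.ofReal_natCast, ← Complex.ofReal_mul, Complex.ofReal_re]
      rw [this]
      ring
    have h2 : ‖(s : ℂ) * (B11 - (I₁.card : ℂ))‖ ≤ |s| * ρ := by
      rw [norm_mul, Complex.norm_real, Real.norm_eq_abs]
      exact mul_le_mul_of_nonneg_left hB1 (abs_nonneg _)
    have h3 := (abs_le.1 (Complex.abs_re_le_norm ((s : ℂ) * (B11 - (I₁.card : ℂ))))).1
    rw [h1]
    linarith
  rw [Complex.add_re]
  rw [Complex.sub_re] at q2
  linarith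

end Pool.Agent.PS

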