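import Mathlib
import Pool.Agent.Work.PS.EXP

/-!
# Block MAJ (helper51): the major arcs in terms of primitive characters
-/

set_option autoImplicit false

namespace Pool.Agent.PS

open Finset ArithmeticFunction
open Pool.Agent.Circle (e e_add)

/-- expansion of one exponential sum on a major arc -/
theorem sum_major {q : ℕ} [NeZero q] (R : ℕ) (I : Finset ℕ) (f : ℕ → ℂ)
    (hf : ∀ n, f n ≠ 0 → n.Coprime q) (a : ℕ) (ha : a.Coprime q) (i : ℤ) :
    ∑ n ∈ I, f n * e (n * ((a : ℝ) / q + (i : ℝ) / R))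
      = (1 / (q.totient : ℂ)) * ∑ χ : DirichletCharacter ℂ q,
          tau χ⁻¹ * χ (a : ZMod q) * Sx R I f (pr χ) i := by
  have hq : 0 < q := Nat.pos_of_ne_zero (NeZero.ne q)
  have h1 : ∀ n ∈ I, f n * e (n * ((a : ℝ) / q + (i : ℝ) / R))
      = (1 / (q.totient : ℂ)) * ∑ χ : DirichletCharacter ℂ q,
          tau χ⁻¹ * χ (a : ZMod q) *
            (f n * (pr χ).2 (n : ZMod (pr χ).1) * e (n * ((i : ℝ) / R))) := by
    intro n _
    by_cases hn : f n = 0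
    · simp [hn]
    · have hco := hf n hn
      rw [mul_add, e_add, stmt_EXP q hq a n ha hco, Finset.mul_sum, Finset.mul_sum,
        Finset.sum_mul, Finset.mul_sum]
      refine Finset.sum_congr rfl fun χ _ => ?_
      have h2 : (pr χ).2 (n : ZMod (pr χ).1) = χ (n : ZMod q) := by
        show χ.primitiveCharacter (n : ZMod χ.conductor) = χ (n : ZMod q)
        have h2 : IsCoprime (n : ℤ) (q : ℤ) := Nat.isCoprime_iff_coprime.mpr hco
        have h3 := DirichletCharacter.primitiveCharacter_apply_of_isCoprime χ h2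
        simpa using h3
      rw [h2]
      ring
  rw [Finset.sum_congr rfl h1, ← Finset.mul_sum, Finset.sum_comm]
  congr 1
  refine Finset.sum_congr rfl fun χ _ => ?_
  rw [← Finset.mul_sum]
  rfl

/-- the sum over the arcs with denominator `q` -/
theorem arc_q {q : ℕ} [NeZero q] (R H : ℕ) (I₁ I₂ : Finset ℕ) (f₁ f₂ : ℕ → ℂ)
    (h₁ : ∀ n, f₁ n ≠ 0 → n.Coprime q) (h₂ : ∀ n, f₂ n ≠ 0 → n.Coprime q) (m : ℕ) :
    (1 / (R : ℂ)) * ∑ a ∈ (range q).filter (fun a => a.Coprime q), ∑ i ∈ Icc (-(H : ℤ)) H,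
      (∑ n ∈ I₁, f₁ n * e (n * ((a : ℝ) / q + (i : ℝ) / R))) *
      (∑ n ∈ I₂, f₂ n * e (n * ((a : ℝ) / q + (i : ℝ) / R))) *
      e (-(m * ((a : ℝ) / q + (i : ℝ) / R)))
    = ∑ χ : DirichletCharacter ℂ q, ∑ χ' : DirichletCharacter ℂ q,
        Kq χ χ' m * Tx R H I₁ I₂ f₁ f₂ m (pr χ) (pr χ') := by
  -- one term
  have h3 : ∀ a ∈ (range q).filter (fun a => a.Coprime q), ∀ i ∈ Icc (-(H : ℤ)) H,
      (∑ n ∈ I₁, f₁ n * e (n * ((a : ℝ) / q + (i : ℝ) / R))) *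
      (∑ n ∈ I₂, f₂ n * e (n * ((a : ℝ) / q + (i : ℝ) / R))) *
      e (-(m * ((a : ℝ) / q + (i : ℝ) / R)))
      = ∑ χ : DirichletCharacter ℂ q, ∑ χ' : DirichletCharacter ℂ q,
        ((1 / (q.totient : ℂ) ^ 2) * tau χ⁻¹ * tau χ'⁻¹) *
          ((χ * χ') (a : ZMod q) * e (-((a : ℝ) * m / q))) *
          (Sx R I₁ f₁ (pr χ) i * Sx R I₂ f₂ (pr χ') i * e (-(m * ((i : ℝ) / R)))) := by
    intro a ha i _
    rw [Finset.mem_filter] at ha
    rw [sum_major R I₁ f₁ h₁ a ha.2 i, sum_major R I₂ f₂ h₂ a ha.2 i]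
    have h4 : e (-(m * ((a : ℝ) / q + (i : ℝ) / R)))
        = e (-((a : ℝ) * m / q)) * e (-(m * ((i : ℝ) / R))) := by
      rw [← e_add]
      congr 1
      ring
    rw [h4]
    have h5 : ∀ (A B : DirichletCharacter ℂ q → ℂ) (c d : ℂ),
        (c * ∑ χ, A χ) * (c * ∑ χ, B χ) * d = ∑ χ, ∑ χ', c ^ 2 * A χ * B χ' * d := by
      intro A B c d
      rw [mul_mul_mul_comm, Finset.sum_mul_sum, Finset.mul_sum, Finset.sum_mul]
      refine Finset.sum_congr rfl fun χ _ => ?_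
      rw [Finset.mul_sum, Finset.sum_mul]
      refine Finset.sum_congr rfl fun χ' _ => ?_
      ring
    rw [h5]
    refine Finset.sum_congr rfl fun χ _ => Finset.sum_congr rfl fun χ' _ => ?_
    rw [MulChar.mul_apply]
    field_simp
  rw [Finset.sum_congr rfl fun a ha => Finset.sum_congr rfl fun i hi => h3 a ha i hi]
  -- exchange
  have h6 : ∑ a ∈ (range q).filter (fun a => a.Coprime q), ∑ i ∈ Icc (-(H : ℤ)) H,
      ∑ χ : DirichletCharacter ℂ q, ∑ χ' : DirichletCharacter ℂ q,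
        ((1 / (q.totient : ℂ) ^ 2) * tau χ⁻¹ * tau χ'⁻¹) *
          ((χ * χ') (a : ZMod q) * e (-((a : ℝ) * m / q))) *
          (Sx R I₁ f₁ (pr χ) i * Sx R I₂ f₂ (pr χ') i * e (-(m * ((i : ℝ) / R))))
      = ∑ χ : DirichletCharacter ℂ q, ∑ χ' : DirichletCharacter ℂ q,
        ((1 / (q.totient : ℂ) ^ 2) * tau χ⁻¹ * tau χ'⁻¹) *
          (∑ a ∈ (range q).filter (fun a => a.Coprime q),
            (χ * χ') (a : ZMod q) * e (-((a : ℝ) * m / q))) *
          ∑ i ∈ Icc (-(H : ℤ)) H,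
            Sx R I₁ f₁ (pr χ) i * Sx R I₂ f₂ (pr χ') i * e (-(m * ((i : ℝ) / R))) := by
    have h7 : ∀ a ∈ (range q).filter (fun a => a.Coprime q), ∑ i ∈ Icc (-(H : ℤ)) H,
        ∑ χ : DirichletCharacter ℂ q, ∑ χ' : DirichletCharacter ℂ q,
        ((1 / (q.totient : ℂ) ^ 2) * tau χ⁻¹ * tau χ'⁻¹) *
          ((χ * χ') (a : ZMod q) * e (-((a : ℝ) * m / q))) *
          (Sx R I₁ f₁ (pr χ) i * Sx R I₂ f₂ (pr χ') i * e (-(m * ((i : ℝ) / R))))
        = ∑ χ : DirichletCharacter ℂ q, ∑ χ' : DirichletCharacter ℂ q,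
        ((1 / (q.totient : ℂ) ^ 2) * tau χ⁻¹ * tau χ'⁻¹) *
          ((χ * χ') (a : ZMod q) * e (-((a : ℝ) * m / q))) *
          ∑ i ∈ Icc (-(H : ℤ)) H,
            Sx R I₁ f₁ (pr χ) i * Sx R I₂ f₂ (pr χ') i * e (-(m * ((i : ℝ) / R))) := by
      intro a _
      rw [Finset.sum_comm]
      refine Finset.sum_congr rfl fun χ _ => ?_
      rw [Finset.sum_comm]
      refine Finset.sum_congr rfl fun χ' _ => ?_
      rw [Finset.mul_sum]
    rw [Finset.sum_congr rfl h7, Finset.sum_comm]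
    refine Finset.sum_congr rfl fun χ _ => ?_
    rw [Finset.sum_comm]
    refine Finset.sum_congr rfl fun χ' _ => ?_
    rw [← Finset.sum_mul, ← Finset.mul_sum]
  rw [h6, Finset.mul_sum]
  refine Finset.sum_congr rfl fun χ _ => ?_
  rw [Finset.mul_sum]
  refine Finset.sum_congr rfl fun χ' _ => ?_
  have h8 : ∑ a ∈ (range q).filter (fun a => a.Coprime q),
      (χ * χ') (a : ZMod q) * e (-((a : ℝ) * m / q)) = cm (χ * χ') m := by
    unfold cm
    refine Finset.sum_subset (Finset.filter_subset _ _) fun a ha ha' => ?_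
    have h9 : ¬ a.Coprime q := fun h => ha' (Finset.mem_filter.2 ⟨ha, h⟩)
    rw [MulChar.map_nonunit _ (by rwa [ZMod.isUnit_iff_coprime]), zero_mul]
  rw [h8]
  unfold Kq Tx
  ring

theorem stmt_MAJ : Stmt_MAJ := by
  intro P R H I₁ I₂ f₁ f₂ hR h₁ h₂ m
  unfold Maj
  rw [Finset.mul_sum]
  refine Finset.sum_congr rfl fun q hq => ?_
  rw [Finset.mem_Ioc] at hq
  haveI : NeZero q := ⟨by omega⟩
  exact arc_q R H I₁ I₂ f₁ f₂ (fun n hn => h₁ n hn q hq.1 hq.2) (fun n hn => h₂ n hn q hq.1 hq.2) m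

end Pool.Agent.PS
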