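import Pool.Agent.Work.PS.Interface

/-!
# PS, block MIN: Vinogradov's bound on the minor arcs
-/

set_option autoImplicit false

namespace Pool.Agent.PS

open Finset ArithmeticFunction
open Pool.Agent.Circle
open scoped Classical ArithmeticFunction.Moebius

theorem th_le_lam (n : ℕ) : 0 ≤ Λ n - th n := by
  unfold th
  by_cases h : n.Prime
  · rw [if_pos h, vonMangoldt_apply_prime h, sub_self]
  · rw [if_neg h, sub_zero]
    exact vonMangoldt_nonneg

theorem sum_lam_sub_th_le (N : ℕ) (hN : 1 ≤ N) :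
    ∑ n ∈ Ioc 0 N, (Λ n - th n) ≤ 2 * √(N : ℝ) * Real.log N := by
  have h1 := Chebyshev.psi_sub_theta_le (x := (N : ℝ)) (by exact_mod_cast hN)
  refine le_trans (le_of_eq ?_) h1
  rw [Chebyshev.psi_sub_theta_eq_sum_not_prime, Nat.floor_natCast, Finset.sum_filter]
  refine Finset.sum_congr rfl fun n _ => ?_
  unfold th
  by_cases h : n.Prime
  · rw [if_pos h, if_neg (not_not.2 h), vonMangoldt_apply_prime h, sub_self]
  · rw [if_neg h, if_pos h, sub_zero]

/-- Difference of the sums with `Λ` and with `th`. -/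
theorem norm_sum_th_sub_le (N : ℕ) (hN : 1 ≤ N) (c : ℕ → ℂ) (hc : ∀ n, ‖c n‖ ≤ 1) {K L : ℕ}
    (hL : L ≤ N) : ‖∑ n ∈ Ioc K L, (Λ n : ℂ) * c n - ∑ n ∈ Ioc K L, (th n : ℂ) * c n‖ ≤
      2 * √(N : ℝ) * Real.log N := by
  rw [← Finset.sum_sub_distrib]
  refine (norm_sum_le _ _).trans (le_trans ?_ (sum_lam_sub_th_le N hN))
  refine (Finset.sum_le_sum (g := fun n => Λ n - th n) fun n _ => ?_).trans ?_
  · rw [← sub_mul, norm_mul, ← Complex.ofReal_sub, Complex.norm_real, Real.norm_eq_abs,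
      abs_of_nonneg (th_le_lam n)]
    exact mul_le_of_le_one_right (th_le_lam n) (hc n)
  · refine Finset.sum_le_sum_of_subset_of_nonneg ?_ fun n _ _ => th_le_lam n
    exact Finset.Ioc_subset_Ioc (Nat.zero_le _) hL

theorem stmt_MIN : Stmt_MIN := by
  refine ⟨19202, by norm_num, ?_⟩
  intro N P hP2 hPN α hα K L hKL hLN
  have hP : 1 ≤ P := by omega
  have hN8 : 8 ≤ N := by
    calc 8 = 2 ^ 3 := by norm_num
      _ ≤ P ^ 3 := Nat.pow_le_pow_left hP2 3
      _ ≤ N := hPN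
  have hN : 1 ≤ N := by omega
  have hNr : (0 : ℝ) < N := by exact_mod_cast hN
  have hP0 : 0 < P := hP
  have hPr : (0 : ℝ) < P := by exact_mod_cast hP0
  have hPleN : P ≤ N := by
    refine le_trans ?_ hPN
    calc P = P ^ 1 := (pow_one P).symm
      _ ≤ P ^ 3 := Nat.pow_le_pow_right hP0 (by norm_num)
  set T := N / P with hT
  have hT0 : 0 < T := Nat.div_pos hPleN hP0
  obtain ⟨ρ, hρ1, hρ2⟩ := Real.exists_rat_abs_sub_le_and_den_le α hT0
  set q := ρ.den with hq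
  set a := ρ.num with ha
  have hq0 : 0 < q := ρ.den_pos
  have hqr : (0 : ℝ) < q := by exact_mod_cast hq0
  have hρ : (ρ : ℝ) = a / q := by
    rw [ha, hq]
    exact Rat.cast_def ρ
  have hco : IsCoprime a (q : ℤ) := by
    rw [Int.isCoprime_iff_gcd_eq_one]
    exact ρ.reduced
  rw [hρ] at hρ1
  have hqP : q * P ≤ N := (Nat.mul_le_mul_right P hρ2).trans (Nat.div_mul_le_self N P)
  have h : P ≤ q := by
    by_contra h
    have h0 := hα q a hq0 (not_le.1 h).le hco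
    have h1 : |α - a / q| ≤ P / N := by
      refine hρ1.trans ?_
      rw [div_le_div_iff₀ (by positivity) hNr]
      have h2 : N < P * (T + 1) := Nat.lt_mul_div_succ N hP0
      have h3 : (N : ℝ) ≤ P * (T + 1) := by exact_mod_cast h2.le
      have h4 : (1 : ℝ) ≤ q := by exact_mod_cast hq0
      have h5 : (0 : ℝ) ≤ P * (T + 1) := by positivity
      nlinarith
    linarith
  have h1 : |α - a / q| ≤ 1 / (q : ℝ) ^ 2 := by
    refine hρ1.trans ?_
    have h2 : (q : ℝ) ≤ T + 1 := by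
      have : (q : ℝ) ≤ T := by exact_mod_cast hρ2
      linarith
    rw [sq]
    gcongr
  have h2 := vin_P N P q a α hP hPN h hqP hco h1 L hLN
  have h3 := vin_P N P q a α hP hPN h hqP hco h1 K (hKL.trans hLN)
  have h4 : ∑ b ∈ Ioc K L, (Λ b : ℂ) * e (b * α)
      = ∑ b ∈ Ioc 0 L, (Λ b : ℂ) * e (b * α) - ∑ b ∈ Ioc 0 K, (Λ b : ℂ) * e (b * α) := by
    rw [← Finset.sum_Ioc_consecutive _ (Nat.zero_le K) hKL]
    ring
  have h5 : ‖∑ b ∈ Ioc K L, (Λ b : ℂ) * e (b * α)‖ ≤ 1200 * (N / √P) * (1 + Real.log N) ^ 4 := by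
    rw [h4]
    refine (norm_sub_le _ _).trans ?_
    linarith
  have h6 := norm_sum_th_sub_le N hN (fun n => e (n * α)) (fun n => (norm_e _).le) (K := K) hLN
  have hlog : 1 ≤ Real.log N := by
    rw [Real.le_log_iff_exp_le hNr]
    have h7 := Real.exp_one_lt_d9
    have h8 : (8 : ℝ) ≤ N := by exact_mod_cast hN8
    linarith
  have h7 : ‖∑ n ∈ Ioc K L, (th n : ℂ) * e (n * α)‖ ≤
      1200 * (N / √P) * (1 + Real.log N) ^ 4 + 2 * √(N : ℝ) * Real.log N := by
    have h8 := norm_sub_le (∑ n ∈ Ioc K L, (Λ n : ℂ) * e (n * α))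
      (∑ n ∈ Ioc K L, (Λ n : ℂ) * e (n * α) - ∑ n ∈ Ioc K L, (th n : ℂ) * e (n * α))
    rw [sub_sub_cancel] at h8
    exact h8.trans (add_le_add h5 h6)
  refine h7.trans ?_
  have hsP : 0 < √(P : ℝ) := Real.sqrt_pos.2 hPr
  have h9 : √(N : ℝ) ≤ N / √(P : ℝ) := by
    rw [le_div_iff₀ hsP]
    have h10 : √(P : ℝ) ≤ √(N : ℝ) := Real.sqrt_le_sqrt (by exact_mod_cast hPleN)
    calc √(N : ℝ) * √(P : ℝ) ≤ √(N : ℝ) * √(N : ℝ) :=
          mul_le_mul_of_nonneg_left h10 (Real.sqrt_nonneg _)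
      _ = N := Real.mul_self_sqrt hNr.le
  have h11 : (1 + Real.log N) ^ 4 ≤ 16 * (Real.log N) ^ 4 := by
    have : (1 + Real.log N) ^ 4 ≤ (2 * Real.log N) ^ 4 :=
      pow_le_pow_left₀ (by linarith) (by linarith) 4
    refine this.trans (le_of_eq ?_)
    ring
  have h12 : Real.log N ≤ (Real.log N) ^ 4 := by
    calc Real.log N = (Real.log N) ^ 1 := (pow_one _).symm
      _ ≤ (Real.log N) ^ 4 := pow_le_pow_right₀ hlog (by norm_num)
  have h13 : (0 : ℝ) ≤ N / √(P : ℝ) := by positivity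
  have h14 : (0 : ℝ) ≤ (Real.log N) ^ 4 := by positivity
  calc 1200 * (N / √(P : ℝ)) * (1 + Real.log N) ^ 4 + 2 * √(N : ℝ) * Real.log N
      ≤ 1200 * (N / √(P : ℝ)) * (16 * (Real.log N) ^ 4) + 2 * (N / √(P : ℝ)) * (Real.log N) ^ 4 := by
        refine add_le_add (mul_le_mul_of_nonneg_left h11 (by positivity)) ?_
        exact mul_le_mul (by linarith) h12 (by linarith) (by positivity)
    _ = 19202 * (N / √(P : ℝ)) * (Real.log N) ^ 4 := by ring

end Pool.Agent.PS
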