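import Pool.Agent.Work.PS.SIEG
import Pool.Agent.Work.MP_484fb8_nt.GLower

/-!
# PX: primes with `χ(p) = 1` are rare if `χ` has an exceptional zero
-/

set_option autoImplicit false

namespace Pool.Agent.PS

open Finset ArithmeticFunction
open Pool.Agent.BV (PC)
open Pool.Agent.SW (Lr cre Sp rc_cre coe_cre RC cf cf_apply cf_apply' wt wt_apply Sm Zr Zr_spec Dz
  G_expand nonneg_of_deriv Lc Lc_apply Dl_mul Dl_cf)
open Pool.Agent.Work.MP_484fb8_nt (sum_le_sum_of_injOn')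
open scoped Classical ArithmeticFunction.zeta

namespace Px

/-- `1 * c` -/
noncomputable def ff (c : ℕ → ℝ) : ArithmeticFunction ℝ := cf c * (ζ : ArithmeticFunction ℝ)

lemma ff_one {c : ℕ → ℝ} {Q : ℝ} (h : RC c Q) : ff c 1 = 1 := by
  unfold ff
  simp [mul_apply, cf_apply, h.one]

lemma ff_nonneg {c : ℕ → ℝ} {Q : ℝ} (h : RC c Q) (n : ℕ) : 0 ≤ ff c n := by
  have hz : (ζ : ArithmeticFunction ℝ) = cf (fun _ => 1) := by
    ext n
    rw [natCoe_apply, zeta_apply, cf_apply]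
    split_ifs <;> simp
  apply nonneg_of_deriv (ff c) (Lc c + Lc (fun _ => 1)) (ff_one h)
  · simp [ArithmeticFunction.add_apply, Lc_apply]
  · intro n
    simp only [ArithmeticFunction.add_apply, Lc_apply]
    rw [← mul_add]
    apply mul_nonneg vonMangoldt_nonneg
    linarith [(abs_le.mp (h.abs n)).1]
  · unfold ff
    rw [hz, Dl_mul, Dl_cf h.mul, Dl_cf (c := fun _ => 1) (fun _ _ => by ring)]
    ring

lemma ff_mult {c : ℕ → ℝ} {Q : ℝ} (h : RC c Q) : (ff c).IsMultiplicative := by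
  unfold ff
  refine IsMultiplicative.mul ?_ isMultiplicative_zeta.natCast
  refine ⟨by rw [cf_apply' c 1 one_ne_zero, h.one], ?_⟩
  intro m n _
  rcases eq_or_ne m 0 with rfl | hm
  · simp
  rcases eq_or_ne n 0 with rfl | hn
  · simp
  rw [cf_apply' c _ (mul_ne_zero hm hn), cf_apply' c _ hm, cf_apply' c _ hn, h.mul]

lemma ff_prime {c : ℕ → ℝ} {Q : ℝ} (h : RC c Q) (p : ℕ) (hp : p.Prime) : ff c p = 1 + c p := by
  unfold ff
  rw [mul_apply, Nat.sum_divisorsAntidiagonal (fun i j => cf c i * (ζ : ArithmeticFunction ℝ) j),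
    hp.sum_divisors, Nat.div_self hp.pos, Nat.div_one]
  rw [cf_apply' c 1 one_ne_zero, cf_apply' c p hp.ne_zero, h.one]
  rw [natCoe_apply, natCoe_apply, zeta_apply, zeta_apply, if_neg hp.ne_zero, if_neg one_ne_zero]
  push_cast
  ring

lemma Zr_abs (δ : ℝ) (hδ : 0 < δ) (hδ1 : δ < 1) : |Zr (1 - δ)| ≤ 1 / δ := by
  have h1 := Zr_spec (1 - δ) (by linarith) (by linarith) 1 le_rfl
  have h2 : Dz (1 - δ) 1 = 1 - 1 / δ := by
    unfold Dz
    have : Ioc 0 1 = {1} := rfl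
    rw [this, sum_singleton]
    simp
  rw [h2, Nat.cast_one, Real.one_rpow] at h1
  have h3 : 1 ≤ 1 / δ := by rw [le_div_iff₀ hδ]; linarith
  rw [abs_le] at h1 ⊢
  constructor <;> linarith [h1.1, h1.2]

/-- the combinatorial inequality -/
lemma comb {c : ℕ → ℝ} {Q : ℝ} (h : RC c Q) (Y V : ℕ) (β : ℝ) (P : Finset ℕ)
    (hP : ∀ p ∈ P, p.Prime ∧ Y < p ∧ p ≤ V ∧ c p = 1) :
    (∑ n ∈ Ioc 0 Y, wt β (ff c) n) * ∑ p ∈ P, 2 * (p : ℝ) ^ (-β)
      ≤ ∑ m ∈ Ioc Y (Y * V), wt β (ff c) m := by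
  rw [sum_mul_sum, ← sum_product']
  apply sum_le_sum_of_injOn' _ _ (fun z : ℕ × ℕ => z.1 * z.2)
  · intro z hz
    rw [mem_product, mem_Ioc] at hz
    obtain ⟨hp, h1, h2, _⟩ := hP z.2 hz.2
    rw [mem_Ioc]
    constructor
    · calc Y < z.2 := h1
        _ = 1 * z.2 := (one_mul _).symm
        _ ≤ z.1 * z.2 := Nat.mul_le_mul_right _ hz.1.1
    · exact Nat.mul_le_mul hz.1.2 h2
  · intro z hz w hw he
    rw [mem_coe, mem_product, mem_Ioc] at hz hw
    obtain ⟨hp, h1, h2, _⟩ := hP z.2 hz.2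
    obtain ⟨hq, h3, h4, _⟩ := hP w.2 hw.2
    simp only at he
    have h5 : z.2 = w.2 := by
      have h6 : z.2 ∣ w.1 * w.2 := by rw [← he]; exact dvd_mul_left _ _
      rcases hp.dvd_mul.mp h6 with h7 | h7
      · have := Nat.le_of_dvd hw.1.1 h7
        omega
      · exact (Nat.prime_dvd_prime_iff_eq hp hq).mp h7
    rw [h5] at he
    have h6 := Nat.eq_of_mul_eq_mul_right hq.pos he
    exact Prod.ext h6 h5
  · intro z hz
    rw [mem_product, mem_Ioc] at hz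
    obtain ⟨hp, h1, h2, h3⟩ := hP z.2 hz.2
    have hco : z.1.Coprime z.2 := by
      rw [Nat.coprime_comm, Nat.Prime.coprime_iff_not_dvd hp]
      intro hd
      have := Nat.le_of_dvd hz.1.1 hd
      omega
    rw [wt_apply, wt_apply, (ff_mult h).map_mul_of_coprime hco, ff_prime h z.2 hp, h3, Nat.cast_mul,
      Real.mul_rpow (Nat.cast_nonneg _) (Nat.cast_nonneg _)]
    refine le_of_eq ?_
    ring
  · intro m _
    rw [wt_apply]
    exact mul_nonneg (ff_nonneg h m) (by positivity)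

end Px

open Px in
theorem stmt_PX : Stmt_PX := by
  intro A hA
  obtain ⟨c, hc, hsieg⟩ := stmt_SIEG (1 / 16) (by norm_num)
  refine ⟨2 * A + 40 + 136 / c ^ 2, ?_, fun Z hZ y δ hE hδ => ?_⟩
  · have : (0 : ℝ) ≤ 136 / c ^ 2 := by positivity
    have : (0 : ℝ) ≤ A := Nat.cast_nonneg A
    linarith
  set C : ℝ := 2 * A + 40 + 136 / c ^ 2 with hC
  have hA0 : (0 : ℝ) ≤ A := Nat.cast_nonneg A
  have hc2 : (0 : ℝ) ≤ 136 / c ^ 2 := by positivity
  have hC40 : 40 ≤ C := by linarith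
  have hCA : 2 * A + 1 ≤ C := by linarith
  have hCc : 136 / c ^ 2 ≤ C := by linarith
  have hC0 : 0 < C := by linarith
  have hZ40 : (40 : ℝ) ≤ Z := hC40.trans hZ
  have hZ0 : (0 : ℝ) < Z := by linarith
  have hZ1 : (1 : ℝ) ≤ Z := by linarith
  have hZn : 0 < Z := by exact_mod_cast hZ0
  set l := Real.log Z with hl
  have hl1 : 1 ≤ l := by
    rw [hl, Real.le_log_iff_exp_le hZ0]
    have := Real.exp_one_lt_d9
    linarith
  have hl0 : 0 < l := by linarith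
  have hδ0 := hE.pos
  have hδl : δ * l ≤ 1 / C := by
    rw [le_div_iff₀ (by positivity)] at hδ ⊢
    calc δ * l * C = δ * (C * l) := by ring
      _ ≤ 1 := hδ
  have hδC : δ ≤ 1 / C := by
    calc δ = δ * 1 := (mul_one _).symm
      _ ≤ δ * l := by gcongr
      _ ≤ _ := hδl
  have hC40' : 1 / C ≤ 1 / 40 := one_div_le_one_div_of_le (by norm_num) hC40
  have hδ1 : δ ≤ 1 / 40 := hδC.trans hC40'
  -- the character
  have hmem := hE.mem
  unfold Fam at hmem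
  rw [mem_sigma, mem_Ioc] at hmem
  have hne : NeZero y.1 := ⟨hmem.1.1.ne'⟩
  have hyZ : (y.1 : ℝ) ≤ Z := by exact_mod_cast hmem.1.2
  have hy1 : (1 : ℝ) ≤ y.1 := by exact_mod_cast hmem.1.1
  have hrc : RC (cre y.2) y.1 := rc_cre hE.sq hE.ne
  have hz : Lr (cre y.2) (1 - δ) = 0 := by
    have h1 := hE.zero
    rw [Le_of_ne hE.ne, Sieg.Lr_eq hE.sq hE.ne (1 - δ) (by linarith)] at h1
    exact_mod_cast h1
  -- Siegel
  have hs : c * (Z : ℝ) ^ (-(1 / 16 : ℝ)) ≤ δ := by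
    refine le_trans ?_ (hsieg Z y δ hE)
    apply mul_le_mul_of_nonneg_left _ hc.le
    exact Real.rpow_le_rpow_of_nonpos (by linarith) hyZ (by norm_num)
  set E : ℝ := 2 * |1 / (1 - (1 - δ))| * y.1 + 2 * |Zr (1 - δ)| * y.1 + 4 * 16 + 4 * y.1 * 16 with hEdef
  have hE0 : 0 ≤ E := by positivity
  have h1δ : 1 ≤ 1 / δ := by rw [le_div_iff₀ hδ0]; linarith
  have hEle : E ≤ 136 * Z / δ := by
    have h1 := Zr_abs δ hδ0 (by linarith)
    have h2 : |1 / (1 - (1 - δ))| = 1 / δ := by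
      rw [sub_sub_cancel, abs_of_pos (by positivity)]
    rw [hEdef, h2]
    calc 2 * (1 / δ) * y.1 + 2 * |Zr (1 - δ)| * y.1 + 4 * 16 + 4 * y.1 * 16
        ≤ 2 * (1 / δ) * Z + 2 * (1 / δ) * Z + 64 * (1 / δ * Z) + 64 * (1 / δ * Z) := by
          have e1 : (1 : ℝ) ≤ 1 / δ * Z := by nlinarith
          have e2 : (y.1 : ℝ) ≤ 1 / δ * Z := by
            calc (y.1 : ℝ) ≤ 1 * Z := by rw [one_mul]; exact hyZ
              _ ≤ 1 / δ * Z := by gcongr
          have e3 : 2 * (1 / δ) * y.1 ≤ 2 * (1 / δ) * Z := by gcongr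
          have e4 : 2 * |Zr (1 - δ)| * y.1 ≤ 2 * (1 / δ) * Z := by gcongr
          linarith
      _ = 132 * (Z / δ) := by ring
      _ ≤ 136 * Z / δ := by
          have : 0 ≤ Z / δ := by positivity
          rw [mul_div_assoc]
          linarith
  -- error terms
  have herr : ∀ v : ℝ, (Z : ℝ) ^ 5 ≤ v → E * v ^ (-(7 / 16 : ℝ)) ≤ δ := by
    intro v hv
    have hZ5 : (0 : ℝ) < (Z : ℝ) ^ 5 := by positivity
    have h1 : v ^ (-(7 / 16 : ℝ)) ≤ (Z : ℝ) ^ (-(35 / 16 : ℝ)) := by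
      have h2 : ((Z : ℝ) ^ 5) ^ (-(7 / 16 : ℝ)) = (Z : ℝ) ^ (-(35 / 16 : ℝ)) := by
        rw [← Real.rpow_natCast, ← Real.rpow_mul hZ0.le]
        norm_num
      rw [← h2]
      exact Real.rpow_le_rpow_of_nonpos hZ5 hv (by norm_num)
    have hv0 : 0 ≤ v := hZ5.le.trans hv
    have h3 : E * v ^ (-(7 / 16 : ℝ)) ≤ 136 * Z / δ * (Z : ℝ) ^ (-(35 / 16 : ℝ)) := by gcongr
    refine h3.trans ?_
    rw [div_mul_eq_mul_div, div_le_iff₀ hδ0]
    have h4 : c ^ 2 * (Z : ℝ) ^ (-(1 / 8 : ℝ)) ≤ δ * δ := by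
      have h5 : (c * (Z : ℝ) ^ (-(1 / 16 : ℝ))) * (c * (Z : ℝ) ^ (-(1 / 16 : ℝ))) ≤ δ * δ := by
        gcongr
      refine le_trans (le_of_eq ?_) h5
      have : (Z : ℝ) ^ (-(1 / 8 : ℝ)) = (Z : ℝ) ^ (-(1 / 16 : ℝ)) * (Z : ℝ) ^ (-(1 / 16 : ℝ)) := by
        rw [← Real.rpow_add hZ0]
        norm_num
      rw [this]
      ring
    refine le_trans ?_ h4
    have h5 : 136 ≤ c ^ 2 * Z := by
      have := hCc.trans hZ
      rw [div_le_iff₀ (by positivity)] at this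
      linarith
    have h6 : 136 * (Z : ℝ) * (Z : ℝ) ^ (-(35 / 16 : ℝ)) ≤ c ^ 2 * Z * (Z : ℝ) * (Z : ℝ) ^ (-(35 / 16 : ℝ)) := by
      gcongr
    refine h6.trans ?_
    have h7 : c ^ 2 * Z * (Z : ℝ) * (Z : ℝ) ^ (-(35 / 16 : ℝ)) = c ^ 2 * (Z : ℝ) ^ (-(3 / 16 : ℝ)) := by
      have : (Z : ℝ) ^ (-(3 / 16 : ℝ)) = Z * (Z : ℝ) * (Z : ℝ) ^ (-(35 / 16 : ℝ)) := by
        have e1 : (-(3 / 16) : ℝ) = 1 + 1 + -(35 / 16) := by norm_num
        rw [e1, Real.rpow_add hZ0, Real.rpow_add hZ0, Real.rpow_one]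
      rw [this]
      ring
    rw [h7]
    apply mul_le_mul_of_nonneg_left _ (by positivity)
    exact Real.rpow_le_rpow_of_exponent_le hZ1 (by norm_num)
  set g : ArithmeticFunction ℝ := wt (1 - δ) (ff (cre y.2)) with hg
  set S1 := ∑ n ∈ Ioc 0 (Z ^ 5), g n with hS1
  set S2 := ∑ n ∈ Ioc 0 (Z ^ 5 * Z ^ A), g n with hS2
  set L := Lr (cre y.2) 1 with hL
  set a1 : ℝ := 1 / δ * L * ((Z : ℝ) ^ 5) ^ δ with ha1
  set a2 : ℝ := 1 / δ * L * ((Z : ℝ) ^ 5 * (Z : ℝ) ^ A) ^ δ with ha2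
  have hexp : ∀ N : ℕ, Z ^ 5 ≤ N → |∑ n ∈ Ioc 0 N, g n - 1 / δ * L * (N : ℝ) ^ δ| ≤ δ := by
    intro N hN
    have hNr : (Z : ℝ) ^ 5 ≤ N := by exact_mod_cast hN
    have hN1 : (1 : ℝ) ≤ N := le_trans (one_le_pow₀ hZ1) hNr
    have h1 := G_expand hrc (1 - δ) (by linarith) (by linarith) N hN1
    rw [hz, mul_zero, add_zero] at h1
    unfold Sm at h1
    rw [Nat.floor_natCast] at h1
    have e1 : 1 - (1 - δ) = δ := by ring
    refine (le_trans (le_of_eq ?_) h1).trans (herr N hNr)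
    rw [e1]
    rfl
  have h1 : |S1 - a1| ≤ δ := by
    have := hexp (Z ^ 5) le_rfl
    push_cast at this
    exact this
  have h2 : |S2 - a2| ≤ δ := by
    have := hexp (Z ^ 5 * Z ^ A) (Nat.le_mul_of_pos_right _ (by positivity))
    push_cast at this
    exact this
  have hg0 : ∀ n, 0 ≤ g n := by
    intro n
    rw [hg, wt_apply]
    exact mul_nonneg (ff_nonneg hrc n) (by positivity)
  have hS11 : 1 ≤ S1 := by
    have hm : 1 ∈ Ioc 0 (Z ^ 5) := by
      rw [mem_Ioc]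
      exact ⟨by norm_num, Nat.one_le_iff_ne_zero.mpr (by positivity)⟩
    have h3 := single_le_sum (f := fun n => g n) (fun n _ => hg0 n) hm
    refine le_trans (le_of_eq ?_) h3
    rw [hg, wt_apply, ff_one hrc]
    simp
  -- growth
  set t : ℝ := A * (δ * l) with ht
  have ht0 : 0 ≤ t := by positivity
  have ht1 : t ≤ 1 := by
    calc t ≤ A * (1 / C) := by rw [ht]; gcongr
      _ = A / C := by ring
      _ ≤ 1 := by rw [div_le_one hC0]; linarith
  have ha21 : a2 = a1 * Real.exp t := by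
    have e1 : ((Z : ℝ) ^ A) ^ δ = Real.exp t := by
      rw [← Real.rpow_natCast, ← Real.rpow_mul hZ0.le, Real.rpow_def_of_pos hZ0, ht, hl]
      congr 1
      ring
    rw [ha2, ha1, Real.mul_rpow (by positivity) (by positivity), e1]
    ring
  have hL0 : 0 < L := Pool.Agent.SW.Lr_one_pos hE.sq hE.ne
  have ha10 : 0 < a1 := by positivity
  have hexpt : Real.exp t - 1 ≤ 2 * t := by
    have := Real.abs_exp_sub_one_le (x := t) (by rw [abs_of_nonneg ht0]; exact ht1)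
    rw [abs_of_nonneg ht0] at this
    exact (le_abs_self _).trans this
  -- the combinatorial inequality
  set P := (Ioc (Z ^ 5) (Z ^ A)).filter (fun p : ℕ => p.Prime ∧ y.2 (p : ZMod y.1) = 1) with hP
  have hcomb := comb hrc (Z ^ 5) (Z ^ A) (1 - δ) P (by
    intro p hp
    rw [hP, mem_filter, mem_Ioc] at hp
    refine ⟨hp.2.1, hp.1.1, hp.1.2, ?_⟩
    unfold cre
    rw [hp.2.2]
    rfl)
  have hsplit : ∑ m ∈ Ioc (Z ^ 5) (Z ^ 5 * Z ^ A), g m = S2 - S1 := by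
    have hle : Z ^ 5 ≤ Z ^ 5 * Z ^ A := Nat.le_mul_of_pos_right _ (by positivity)
    have := sum_Ioc_consecutive (fun n => g n) (Nat.zero_le (Z ^ 5)) hle
    linarith
  rw [hsplit] at hcomb
  set T := ∑ p ∈ P, 1 / (p : ℝ) with hT
  have hT0 : 0 ≤ T := by positivity
  have hT2 : 2 * T ≤ ∑ p ∈ P, 2 * (p : ℝ) ^ (-(1 - δ)) := by
    rw [hT, mul_sum]
    refine sum_le_sum fun p hp => ?_
    rw [hP, mem_filter, mem_Ioc] at hp
    have hp1 : (1 : ℝ) ≤ p := by exact_mod_cast hp.2.1.one_le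
    have : 1 / (p : ℝ) = (p : ℝ) ^ (-1 : ℝ) := by rw [Real.rpow_neg_one, one_div]
    rw [this]
    apply mul_le_mul_of_nonneg_left _ (by norm_num)
    exact Real.rpow_le_rpow_of_exponent_le hp1 (by linarith)
  have hmain : S1 * (2 * T) ≤ S2 - S1 := by
    refine le_trans ?_ hcomb
    apply mul_le_mul_of_nonneg_left hT2
    linarith
  rw [abs_le] at h1 h2
  have h3 : S2 - S1 ≤ a1 * (2 * t) + 2 * δ := by
    have : a2 - a1 ≤ a1 * (2 * t) := by
      rw [ha21]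
      calc a1 * Real.exp t - a1 = a1 * (Real.exp t - 1) := by ring
        _ ≤ a1 * (2 * t) := by gcongr
    linarith [h1.1, h1.2, h2.1, h2.2]
  have h4 : a1 ≤ 2 * S1 := by linarith [h1.1, h1.2]
  have h5 : S1 * (2 * T) ≤ S1 * (4 * t + 2 * δ) := by
    calc S1 * (2 * T) ≤ a1 * (2 * t) + 2 * δ := hmain.trans h3
      _ ≤ 2 * S1 * (2 * t) + 2 * δ * S1 := by
          have e1 : a1 * (2 * t) ≤ 2 * S1 * (2 * t) := by gcongr
          have e2 : 2 * δ ≤ 2 * δ * S1 := le_mul_of_one_le_right (by positivity) hS11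
          linarith
      _ = _ := by ring
  have h6 : 2 * T ≤ 4 * t + 2 * δ := le_of_mul_le_mul_left h5 (by linarith)
  calc T ≤ 2 * t + δ := by linarith
    _ ≤ (2 * A + 1) * (δ * l) := by
        rw [ht]
        nlinarith
    _ ≤ C * (δ * l) := by gcongr
    _ = C * δ * l := by ring

end Pool.Agent.PS
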