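import Pool.Agent.Work.PS.Interface
import Pool.Agent.Work.SW.SiegelB
import Pool.Agent.Work.MP_b0c12c_nt_helper70.Bounds

/-!
# SIEG: Siegel's theorem for the exceptional zero
-/

set_option autoImplicit false

namespace Pool.Agent.PS

open Finset Filter Metric
open Pool.Agent.BV (PC)
open Pool.Agent.SW (Lr cre Sp Sp_tendsto rc_cre coe_cre siegel prodChar Lr_one_pos)
open Pool.Agent.Work.MP_b0c12c_nt_helper70 (norm_L_le)
open scoped Classical

namespace Sieg

/-- real `L` values as limits of partial sums -/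
lemma Lr_eq {q : ℕ} [NeZero q] {χ : DirichletCharacter ℂ q} (h2 : χ ^ 2 = 1) (h1 : χ ≠ 1)
    (σ : ℝ) (hσ : 0 < σ) : χ.LFunction (σ : ℂ) = ((Lr (cre χ) σ : ℝ) : ℂ) := by
  have h6 : Tendsto (fun K => ((Sp (cre χ) σ K : ℝ) : ℂ)) atTop (nhds ((Lr (cre χ) σ : ℝ) : ℂ)) :=
    (Complex.continuous_ofReal.tendsto _).comp (Sp_tendsto (cre χ) q (rc_cre h2 h1).sum σ hσ)
  have h7 : Tendsto (fun K => ((Sp (cre χ) σ K : ℝ) : ℂ)) atTop (nhds (χ.LFunction (σ : ℂ))) := by
    rw [tendsto_iff_norm_sub_tendsto_zero]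
    have h8 : Tendsto (fun N : ℕ => σ * (q * (N : ℝ) ^ (-σ) / σ)) atTop (nhds 0) := by
      have h9 : Tendsto (fun N : ℕ => (N : ℝ) ^ (-σ)) atTop (nhds 0) :=
        (tendsto_rpow_neg_atTop hσ).comp tendsto_natCast_atTop_atTop
      have h10 := h9.const_mul (q : ℝ)
      rw [mul_zero] at h10
      refine h10.congr fun N => ?_
      field_simp
    refine squeeze_zero' (Eventually.of_forall fun _ => norm_nonneg _) ?_ h8
    filter_upwards [eventually_ge_atTop 1] with N hN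
    have h3 := Pool.Agent.Work.MP_b0c12c_nt_helper70.LFunction_eq χ h1 hN (s := (σ : ℂ)) (by simpa using hσ)
    have h4 := Pool.Agent.Work.MP_b0c12c_nt_helper70.norm_mellin_SF χ h1 hN (s := (σ : ℂ)) (by simpa using hσ)
    have h5 : ((Sp (cre χ) σ N : ℝ) : ℂ) = ∑ n ∈ Icc 1 N, χ (n : ZMod q) * (n : ℂ) ^ (-(σ : ℂ)) := by
      unfold Sp
      have h8 : Ioc 0 N = Icc 1 N := by
        ext n; simp only [mem_Ioc, mem_Icc]; omega
      rw [h8]
      push_cast
      refine sum_congr rfl fun n hn => ?_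
      rw [coe_cre h2, Complex.ofReal_cpow (Nat.cast_nonneg _)]
      push_cast
      rfl
    rw [h3, h5, sub_add_cancel_left, norm_neg, norm_mul, Complex.norm_real, Real.norm_eq_abs,
      abs_of_pos hσ]
    simp only [Complex.ofReal_re] at h4
    gcongr
  exact tendsto_nhds_unique h7 h6

/-- `L(1, χ)` is small if there is a zero near `1` -/
lemma L_one_le {q : ℕ} [NeZero q] {χ : DirichletCharacter ℂ q} (h2 : χ ^ 2 = 1) (h1 : χ ≠ 1)
    (δ : ℝ) (hδ : 0 < δ) (hδ1 : δ ≤ 1 / Real.log (q * (60 + 2)))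
    (hz : χ.LFunction ((1 - δ : ℝ) : ℂ) = 0) :
    Lr (cre χ) 1 ≤ 4 * Real.exp 4 * (Real.log (q * (60 + 2))) ^ 2 * δ := by
  set M := Real.log (q * (60 + 2)) with hM
  have hq : (1 : ℝ) ≤ q := by exact_mod_cast Nat.one_le_iff_ne_zero.2 (NeZero.ne q)
  have hM4 : 4 ≤ M := by
    rw [hM, Real.le_log_iff_exp_le (by positivity)]
    have h3 : Real.exp 4 = Real.exp 1 ^ 4 := by
      rw [← Real.exp_nat_mul]; norm_num
    have h4 := Real.exp_one_lt_d9
    have h5 := Real.exp_pos 1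
    calc Real.exp 4 = Real.exp 1 ^ 4 := h3
      _ ≤ 2.7182818286 ^ 4 := by gcongr
      _ ≤ 1 * (60 + 2) := by norm_num
      _ ≤ q * (60 + 2) := by gcongr
  have hM0 : 0 < M := by linarith
  have hM1 : 1 / M ≤ 1 / 4 := one_div_le_one_div_of_le (by norm_num) hM4
  set S : Set ℂ := {z | 1 - 1 / M ≤ z.re ∧ z.re ≤ 1 ∧ |z.im| ≤ 1} with hS
  have hconv : Convex ℝ S := by
    have e1 : Convex ℝ {z : ℂ | 1 - 1 / M ≤ z.re} := convex_halfSpace_re_ge _
    have e2 : Convex ℝ {z : ℂ | z.re ≤ 1} := convex_halfSpace_re_le _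
    have e3 : Convex ℝ {z : ℂ | z.im ≤ 1} := convex_halfSpace_im_le _
    have e4 : Convex ℝ {z : ℂ | -1 ≤ z.im} := convex_halfSpace_im_ge _
    have e5 : S = {z : ℂ | 1 - 1 / M ≤ z.re} ∩ {z : ℂ | z.re ≤ 1} ∩ ({z : ℂ | z.im ≤ 1} ∩
        {z : ℂ | -1 ≤ z.im}) := by
      ext z
      simp only [hS, Set.mem_ofPred_eq, Set.mem_inter_iff, abs_le]
      tauto
    rw [e5]
    exact (e1.inter e2).inter (e3.inter e4)
  have hd := DirichletCharacter.differentiable_LFunction h1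
  have hbound : ∀ z ∈ S, ‖deriv χ.LFunction z‖ ≤ 4 * Real.exp 4 * M ^ 2 := by
    intro z hz
    have h3 := Complex.norm_deriv_le_of_forall_mem_sphere_norm_le (c := z) (R := 1 / M)
      (C := 4 * Real.exp 4 * M) (f := χ.LFunction) (by positivity) hd.diffContOnCl ?_
    · refine h3.trans (le_of_eq ?_)
      field_simp
    · intro w hw
      rw [mem_sphere, dist_eq_norm] at hw
      have h4 : |(w - z).re| ≤ 1 / M := by rw [← hw]; exact Complex.abs_re_le_norm _
      have h5 : |(w - z).im| ≤ 1 / M := by rw [← hw]; exact Complex.abs_im_le_norm _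
      rw [Complex.sub_re, abs_le] at h4
      rw [Complex.sub_im, abs_le] at h5
      have h6 := abs_le.mp hz.2.2
      apply norm_L_le (T := 60) (by norm_num) hM4 χ h1
      · have : 2 / M = 1 / M + 1 / M := by ring
        rw [← hM, this]
        linarith [hz.1, h4.1]
      · linarith [hz.2.1, h4.2]
      · rw [abs_le]
        constructor <;> linarith [h6.1, h6.2, h5.1, h5.2]
  have h3 := hconv.norm_image_sub_le_of_norm_deriv_le (fun z _ => hd z) hbound
    (x := ((1 - δ : ℝ) : ℂ)) (y := 1) ?_ ?_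
  · rw [hz, sub_zero] at h3
    have h4 := Lr_eq h2 h1 1 one_pos
    rw [Complex.ofReal_one] at h4
    rw [h4, Complex.norm_real] at h3
    have h5 : ‖(1 : ℂ) - ((1 - δ : ℝ) : ℂ)‖ = δ := by
      have : (1 : ℂ) - ((1 - δ : ℝ) : ℂ) = (δ : ℂ) := by push_cast; ring
      rw [this, Complex.norm_real, Real.norm_eq_abs, abs_of_pos hδ]
    rw [h5] at h3
    exact (le_abs_self _).trans h3
  · simp only [hS, Set.mem_ofPred_eq, Complex.ofReal_re, Complex.ofReal_im, abs_zero]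
    refine ⟨by linarith, by linarith, by norm_num⟩
  · simp only [hS, Set.mem_ofPred_eq, Complex.one_re, Complex.one_im, abs_zero]
    have : 0 < 1 / M := by positivity
    refine ⟨by linarith, le_rfl, by norm_num⟩

lemma key (ε : ℝ) (hε : 0 < ε) : ∃ K : ℝ, 0 < K ∧ ∀ (q : ℕ) [NeZero q]
    (χ : DirichletCharacter ℂ q), χ ^ 2 = 1 → χ ≠ 1 → ∀ δ : ℝ, 0 < δ →
    χ.LFunction ((1 - δ : ℝ) : ℂ) = 0 → ∀ c : ℝ, 0 < c → c ≤ 1 →
    c * (q : ℝ) ^ (-(ε / 2)) ≤ Lr (cre χ) 1 → c / K * (q : ℝ) ^ (-ε) ≤ δ := by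
  set K1 : ℝ := (62 : ℝ) ^ (ε / 2) * (16 / ε ^ 2) with hK1
  have hK10 : 0 < K1 := by positivity
  refine ⟨4 * Real.exp 4 * K1, by positivity, fun q _ χ h2 h1 δ hδ hz c hc hc1 hL => ?_⟩
  set M := Real.log (q * (60 + 2)) with hM
  have hq : (1 : ℝ) ≤ q := by exact_mod_cast Nat.one_le_iff_ne_zero.2 (NeZero.ne q)
  have hq0 : (0 : ℝ) < q := by linarith
  have hM1 : 1 ≤ M := by
    rw [hM, Real.le_log_iff_exp_le (by positivity)]
    have h4 := Real.exp_one_lt_d9
    nlinarith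
  have hM2 : M ^ 2 ≤ K1 * (q : ℝ) ^ (ε / 2) := by
    have h3 := Real.log_le_rpow_div (x := q * (60 + 2)) (by positivity) (show 0 < ε / 4 by positivity)
    rw [← hM] at h3
    calc M ^ 2 ≤ (((q : ℝ) * (60 + 2)) ^ (ε / 4) / (ε / 4)) ^ 2 := by
          apply pow_le_pow_left₀ (by linarith) h3
      _ = (((q : ℝ) * (60 + 2)) ^ (ε / 4)) ^ 2 * (16 / ε ^ 2) := by
          field_simp
          ring
      _ = ((q : ℝ) * (60 + 2)) ^ (ε / 2) * (16 / ε ^ 2) := by
          rw [← Real.rpow_natCast, ← Real.rpow_mul (by positivity)]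
          congr 2
          push_cast
          ring
      _ = K1 * (q : ℝ) ^ (ε / 2) := by
          rw [Real.mul_rpow (by positivity) (by norm_num), hK1]
          norm_num
          ring
  have he4 : 1 ≤ 4 * Real.exp 4 := by
    have := Real.one_le_exp (show (0 : ℝ) ≤ 4 by norm_num)
    linarith
  have hsplit : (q : ℝ) ^ (-ε) = (q : ℝ) ^ (-(ε / 2)) / (q : ℝ) ^ (ε / 2) := by
    rw [← Real.rpow_sub hq0]
    congr 1
    ring
  have hq2 : 0 < (q : ℝ) ^ (ε / 2) := by positivity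
  have hqm : 0 < (q : ℝ) ^ (-(ε / 2)) := by positivity
  have hqm1 : (q : ℝ) ^ (-(ε / 2)) ≤ 1 := Real.rpow_le_one_of_one_le_of_nonpos hq (by linarith)
  have goal : c * (q : ℝ) ^ (-(ε / 2)) ≤ 4 * Real.exp 4 * M ^ 2 * δ := by
    rcases le_or_gt δ (1 / M) with h | h
    · exact hL.trans (L_one_le h2 h1 δ hδ h hz)
    · calc c * (q : ℝ) ^ (-(ε / 2)) ≤ 1 * 1 := by gcongr
        _ ≤ 4 * Real.exp 4 * (M ^ 2 * (1 / M)) := by
            have : M ^ 2 * (1 / M) = M := by field_simp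
            rw [this]
            nlinarith
        _ ≤ 4 * Real.exp 4 * (M ^ 2 * δ) := by gcongr
        _ = _ := by ring
  rw [hsplit, div_mul_div_comm, div_le_iff₀ (by positivity)]
  calc c * (q : ℝ) ^ (-(ε / 2)) ≤ 4 * Real.exp 4 * M ^ 2 * δ := goal
    _ ≤ 4 * Real.exp 4 * (K1 * (q : ℝ) ^ (ε / 2)) * δ := by gcongr
    _ = _ := by ring

/-- the exceptional character -/
lemma pr_of_prod {q1 q2 : ℕ} [NeZero q1] [NeZero q2] {χ1 : DirichletCharacter ℂ q1}
    {χ2 : DirichletCharacter ℂ q2} (h2 : χ2 ^ 2 = 1) (hp : χ2.IsPrimitive)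
    (h : prodChar χ1 χ2 = 1) : (⟨q2, χ2⟩ : Ch) = pr χ1 := by
  have : NeZero (q1 * q2) := ⟨Nat.mul_ne_zero (NeZero.ne q1) (NeZero.ne q2)⟩
  unfold prodChar at h
  have h3 : χ2⁻¹ = χ2 := by
    have : χ2 * χ2 = 1 := by rw [← sq]; exact h2
    exact inv_eq_of_mul_eq_one_left this
  have h4 : DirichletCharacter.changeLevel (dvd_mul_right q1 q2) χ1
      = DirichletCharacter.changeLevel (dvd_mul_left q2 q1) χ2 := by
    have := eq_inv_of_mul_eq_one_left h
    rw [← map_inv, h3] at this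
    exact this
  have h5 : χ1.conductor = q2 := by
    have h6 := DirichletCharacter.conductor_changeLevel (dvd_mul_right q1 q2) (χ := χ1)
    have h7 := DirichletCharacter.conductor_changeLevel (dvd_mul_left q2 q1) (χ := χ2)
    rw [← h6, h4, h7]
    exact hp
  have h8 : ∀ (f : ℕ) (ψ : DirichletCharacter ℂ f) (hf : f ∣ q1), f = q2 →
      DirichletCharacter.changeLevel hf ψ = χ1 → (⟨q2, χ2⟩ : Ch) = ⟨f, ψ⟩ := by
    intro f ψ hf hfq hψ
    subst hfq
    have h9 : DirichletCharacter.changeLevel (dvd_mul_left f q1) ψ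
        = DirichletCharacter.changeLevel (dvd_mul_left f q1) χ2 := by
      rw [← h4, ← hψ, ← DirichletCharacter.changeLevel_trans]
    rw [DirichletCharacter.changeLevel_injective (dvd_mul_left f q1) h9]
  exact h8 _ _ χ1.conductor_dvd_level h5 χ1.changeLevel_primitiveCharacter

end Sieg

open Sieg in
theorem stmt_SIEG : Stmt_SIEG := by
  intro ε hε
  obtain ⟨K, hK, hkey⟩ := key ε hε
  have hbase : ∀ (Z : ℕ) (y : Ch) (δ : ℝ), Exc Z y δ → ∃ _ : NeZero y.1, y.2.IsPrimitive ∧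
      y.2.LFunction ((1 - δ : ℝ) : ℂ) = 0 := by
    intro Z y δ h
    have h1 := h.mem
    unfold Fam at h1
    rw [mem_sigma, mem_Ioc] at h1
    have h2 := h1.2
    unfold PC at h2
    rw [mem_filter] at h2
    have : NeZero y.1 := ⟨h1.1.1.ne'⟩
    have h3 := h.zero
    rw [Le_of_ne h.ne] at h3
    exact ⟨this, h2.2, h3⟩
  rcases siegel (ε / 2) (by positivity) with h0 | ⟨q1, hq1, χ1, h11, h12, c1, hc1, H⟩
  · refine ⟨1, one_pos, fun Z y δ h => ?_⟩
    obtain ⟨_, _, _⟩ := hbase Z y δ h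
    exact absurd (h0 y.1 y.2 h.sq) h.ne
  · -- the exceptional primitive character
    have hne : NeZero (pr χ1).1 := ⟨χ1.conductor_ne_zero⟩
    have hp1 : (pr χ1).2 ≠ 1 := by
      intro h
      have h3 : χ1 = 1 := by
        rw [← χ1.changeLevel_primitiveCharacter]
        have : χ1.primitiveCharacter = 1 := h
        rw [this, map_one]
      exact h12 h3
    have hp2 : (pr χ1).2 ^ 2 = 1 := by
      have h3 : DirichletCharacter.changeLevel χ1.conductor_dvd_level (χ1.primitiveCharacter ^ 2) = 1 := by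
        rw [map_pow, χ1.changeLevel_primitiveCharacter, h11]
      exact (DirichletCharacter.changeLevel_eq_one_iff χ1.conductor_dvd_level).mp h3
    have hL1 : 0 < Lr (cre (pr χ1).2) 1 := Lr_one_pos hp2 hp1
    set c : ℝ := min (min 1 c1) (Lr (cre (pr χ1).2) 1) with hc
    have hc0 : 0 < c := lt_min (lt_min one_pos hc1) hL1
    have hcc1 : c ≤ c1 := (min_le_left _ _).trans (min_le_right _ _)
    have hcone : c ≤ 1 := (min_le_left _ _).trans (min_le_left _ _)
    have hcL : c ≤ Lr (cre (pr χ1).2) 1 := min_le_right _ _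
    refine ⟨c / K, by positivity, fun Z y δ h => ?_⟩
    obtain ⟨hy, hyp, hyz⟩ := hbase Z y δ h
    have hy0 : 0 < y.1 := Nat.pos_of_ne_zero (NeZero.ne _)
    have hyr : (1 : ℝ) ≤ y.1 := by exact_mod_cast hy0
    apply hkey y.1 y.2 h.sq h.ne δ h.pos hyz c hc0 hcone
    by_cases hpc : prodChar χ1 y.2 = 1
    · have h3 : y = pr χ1 := pr_of_prod h.sq hyp hpc
      have h4 : (y.1 : ℝ) ^ (-(ε / 2)) ≤ 1 :=
        Real.rpow_le_one_of_one_le_of_nonpos hyr (by linarith)
      calc c * (y.1 : ℝ) ^ (-(ε / 2)) ≤ c * 1 := by gcongr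
        _ = c := mul_one _
        _ ≤ Lr (cre (pr χ1).2) 1 := hcL
        _ = Lr (cre y.2) 1 := by rw [h3]
    · have h3 := H y.1 y.2 h.sq h.ne hpc
      refine le_trans ?_ h3
      gcongr

end Pool.Agent.PS
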