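import Pool.Agent.Work.PS.Interface
import Pool.Agent.Work.BV.RED
import Pool.Agent.Work.MP_081200_nt.PV

/-!
# TAU: Gauss sums of arbitrary characters
-/

set_option autoImplicit false

namespace Pool.Agent.PS

open Finset ArithmeticFunction
open Pool.Agent.Circle (e e_add e_neg e_nat e_int e_eq_one_iff e_zero cop mem_cop sum_coprime e_natmul)
open scoped ArithmeticFunction.Moebius

lemma sum_zmod' {M : Type*} [AddCommMonoid M] (r : ℕ) [NeZero r] (f : ZMod r → M) :
    ∑ x : ZMod r, f x = ∑ n ∈ range r, f (n : ZMod r) := by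
  symm
  refine sum_bij' (fun u _ => (u : ZMod r)) (fun x _ => x.val) (fun _ _ => mem_univ _)
    (fun x _ => mem_range.mpr (ZMod.val_lt x)) ?_ ?_ ?_
  · intro u hu
    exact ZMod.val_cast_of_lt (mem_range.mp hu)
  · intro x _
    exact ZMod.natCast_zmod_val x
  · intro u _
    rfl

lemma std_eq_e (r : ℕ) [NeZero r] (j : ℕ) :
    ZMod.stdAddChar (N := r) (j : ZMod r) = e ((j : ℝ) / r) := by
  have h := ZMod.stdAddChar_coe (N := r) (j : ℤ)
  rw [Int.cast_natCast] at h
  rw [h, e]
  congr 1
  push_cast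
  ring

lemma tau_eq_gaussSum (q : ℕ) [NeZero q] (χ : DirichletCharacter ℂ q) :
    tau χ = gaussSum χ (ZMod.stdAddChar (N := q)) := by
  unfold tau gaussSum
  rw [sum_zmod']
  refine sum_congr rfl fun a _ => ?_
  rw [std_eq_e]

lemma cm_eq_gaussSum (q : ℕ) [NeZero q] (χ : DirichletCharacter ℂ q) (m : ℕ) :
    cm χ m = gaussSum χ ((ZMod.stdAddChar (N := q)).mulShift (-(m : ZMod q))) := by
  unfold cm gaussSum
  rw [sum_zmod']
  refine sum_congr rfl fun a _ => ?_
  congr 1
  rw [AddChar.mulShift_apply]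
  have h1 : -(m : ZMod q) * (a : ZMod q) = -((a * m : ℕ) : ZMod q) := by push_cast; ring
  rw [h1, AddChar.map_neg_eq_inv, std_eq_e, e_neg]
  push_cast
  rfl

/-- The complete sums `∑_{c mod n} ψ(c) e(c/n)` vanish unless `n` is the modulus. -/
lemma sum_range_periodic (F : ℕ → ℂ) (n : ℕ) (hF : ∀ c, F (c + n) = F c) (f : ℕ) :
    ∑ c ∈ range n, F (c + f) = ∑ c ∈ range n, F c := by
  induction f with
  | zero => simp
  | succ f ih =>
    rw [← ih]
    have h1 := Finset.sum_range_succ (fun c => F (c + f)) n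
    have h2 := Finset.sum_range_succ' (fun c => F (c + f)) n
    have h3 : F (n + f) = F (0 + f) := by rw [zero_add, add_comm]; exact hF f
    rw [h1, h3] at h2
    have h4 := add_right_cancel h2
    rw [h4]
    refine sum_congr rfl fun c _ => ?_
    congr 1
    ring

lemma sum_mult_eq_zero (f k : ℕ) (hf : 0 < f) (hk : 2 ≤ k) (ψ : DirichletCharacter ℂ f) :
    ∑ c ∈ range (f * k), ψ (c : ZMod f) * e ((c : ℝ) / (f * k : ℕ)) = 0 := by
  set n := f * k with hn
  have hn0 : (n : ℝ) ≠ 0 := by
    have : 0 < n := Nat.mul_pos hf (by omega)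
    exact_mod_cast this.ne'
  have hf0 : (f : ℝ) ≠ 0 := by exact_mod_cast hf.ne'
  have hk0 : (k : ℝ) ≠ 0 := by
    have : 0 < k := by omega
    exact_mod_cast this.ne'
  set F : ℕ → ℂ := fun c => ψ (c : ZMod f) * e ((c : ℝ) / n) with hF
  have hper : ∀ c, F (c + n) = F c := by
    intro c
    rw [hF]
    simp only
    have h1 : ((c + n : ℕ) : ZMod f) = (c : ZMod f) := by
      rw [hn]; push_cast; simp
    have h2 : ((c + n : ℕ) : ℝ) / n = (c : ℝ) / n + (1 : ℤ) := by
      push_cast
      field_simp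
    rw [h1, h2, e_add, e_int, mul_one]
  have h1 := sum_range_periodic F n hper f
  have h2 : ∀ c, F (c + f) = e (1 / (k : ℝ)) * F c := by
    intro c
    rw [hF]
    simp only
    have h1 : ((c + f : ℕ) : ZMod f) = (c : ZMod f) := by push_cast; simp
    have h2 : ((c + f : ℕ) : ℝ) / n = 1 / (k : ℝ) + (c : ℝ) / n := by
      rw [hn]
      push_cast
      field_simp
      ring
    rw [h1, h2, e_add]
    ring
  simp only [h2] at h1
  rw [← mul_sum] at h1
  have h3 : e (1 / (k : ℝ)) ≠ 1 := by
    rw [Ne, e_eq_one_iff]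
    rintro ⟨j, hj⟩
    rw [div_eq_iff hk0] at hj
    have h4 : (1 : ℤ) = j * k := by exact_mod_cast hj
    have h5 : (k : ℤ) ∣ 1 := ⟨j, by rw [h4]; ring⟩
    have h6 := Int.le_of_dvd one_pos h5
    omega
  have h4 : (e (1 / (k : ℝ)) - 1) * ∑ c ∈ range n, F c = 0 := by
    rw [sub_mul, one_mul, h1, sub_self]
  rcases mul_eq_zero.1 h4 with h5 | h5
  · exact absurd (sub_eq_zero.1 h5) h3
  · exact h5

theorem stmt_TAU : Stmt_TAU := by
  intro q hq χ
  have hqz : NeZero q := ⟨hq.ne'⟩
  set f := χ.conductor with hf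
  set ψ := χ.primitiveCharacter with hψ
  have hf0 : 0 < f := Nat.pos_of_ne_zero χ.conductor_ne_zero
  have hfz : NeZero f := ⟨hf0.ne'⟩
  have hfq : f ∣ q := χ.conductor_dvd_level
  constructor
  · have h1 : tau χ = ∑ c ∈ cop q, ψ (c : ZMod f) * e ((c : ℝ) / q) := by
      unfold tau cop
      rw [sum_filter]
      refine sum_congr rfl fun c _ => ?_
      by_cases hc : q.Coprime c
      · rw [if_pos hc, Pool.Agent.BV.Red.apply_eq q χ c, if_pos]
        exact hc.symm.coprime_dvd_right (Nat.div_dvd_of_dvd hfq)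
      · rw [if_neg hc, MulChar.map_nonunit, zero_mul]
        rw [ZMod.isUnit_iff_coprime]
        exact fun h => hc h.symm
    rw [h1, sum_coprime q hq, sum_eq_single (q / f)]
    · have h2 : q / (q / f) = f := Nat.div_div_self hfq hq.ne'
      rw [h2, mul_assoc]
      congr 1
      unfold tau
      rw [mul_sum]
      refine sum_congr rfl fun c _ => ?_
      rw [Nat.cast_mul, map_mul, mul_assoc]
      congr 2
      have hq0 : (q : ℝ) ≠ 0 := by exact_mod_cast hq.ne'
      have hf0' : (f : ℝ) ≠ 0 := by exact_mod_cast hf0.ne'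
      rw [Nat.cast_mul, Nat.cast_div hfq hf0']
      congr 1
      change (q : ℝ) / f * c / q = c / (f : ℝ)
      field_simp
    · intro d hd hne
      rw [Nat.mem_divisors] at hd
      have hd0 : 0 < d := Nat.pos_of_dvd_of_pos hd.1 hq
      by_cases hcop : d.Coprime f
      · have h3 : f ∣ q / d := by
          apply hcop.symm.dvd_of_dvd_mul_left
          rw [Nat.mul_div_cancel' hd.1]
          exact hfq
        obtain ⟨k, hk⟩ := h3
        have hqd : q = d * (f * k) := by rw [← hk, Nat.mul_div_cancel' hd.1]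
        have hk2 : 2 ≤ k := by
          rcases Nat.lt_or_ge k 2 with h | h
          · interval_cases k
            · omega
            · exfalso
              apply hne
              rw [hqd, mul_one, Nat.mul_div_cancel _ hf0]
          · exact h
        have h4 : ∑ c ∈ range (q / d), ψ ((d * c : ℕ) : ZMod f) * e (((d * c : ℕ) : ℝ) / q)
            = ψ (d : ZMod f) * ∑ c ∈ range (f * k), ψ (c : ZMod f) * e ((c : ℝ) / (f * k : ℕ)) := by
          rw [hk, mul_sum]
          refine sum_congr rfl fun c _ => ?_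
          rw [Nat.cast_mul, map_mul, mul_assoc]
          congr 2
          have hd0' : (d : ℝ) ≠ 0 := by exact_mod_cast hd0.ne'
          have hfk : ((f * k : ℕ) : ℝ) ≠ 0 := by
            have : 0 < f * k := Nat.mul_pos hf0 (by omega)
            exact_mod_cast this.ne'
          rw [hqd, Nat.cast_mul d (f * k), Nat.cast_mul d c]
          congr 1
          field_simp
        rw [h4, sum_mult_eq_zero f k hf0 hk2, mul_zero, mul_zero]
      · rw [sum_eq_zero, mul_zero]
        intro c _
        rw [Nat.cast_mul, map_mul, MulChar.map_nonunit ψ, zero_mul, zero_mul]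
        rw [ZMod.isUnit_iff_coprime]
        exact hcop
    · intro h
      exfalso
      apply h
      rw [Nat.mem_divisors]
      exact ⟨Nat.div_dvd_of_dvd hfq, hq.ne'⟩
  · rw [tau_eq_gaussSum]
    have h1 := Pool.Agent.Work.MP_081200_nt.norm_gauss f ψ χ.primitiveCharacter_isPrimitive
    rw [← h1, Real.sqrt_sq (norm_nonneg _)]

end Pool.Agent.PS
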