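import Pool.Agent.Work.PS.Interface

/-!
# PS, block TUR: the second main theorem of Turan on power sums

Choose a circle `|w| = r`, `1/4 ≤ r ≤ 1/2`, on which `∏ |w - z_j|` is at least `24^(-n)` (finite
differences), and integrate `w^(-M-1) ∑_j z_j^(M+1) / (w - z_j)` over this circle: the integral is
`-2 π i #{j : |z_j| > r}`, and the integrand is a combination of the power sums `s_k`,
`M < k ≤ M + n`, divided by `∏ (w - z_j)`.
-/

set_option autoImplicit false

namespace Pool.Agent.PS

namespace TUR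

open Polynomial Metric
open Pool.Agent.Work.MP_b0c12c_nt_helper70 (PP PP_cons PP_nil)
open scoped Real

/-- A monic polynomial of degree `n` takes a value at least `n! / 2^n` at one of `0, ..., n`. -/
theorem exists_large (P : ℝ[X]) (hP : P.Monic) : ∃ k : ℕ, k ≤ P.natDegree ∧
    (P.natDegree.factorial : ℝ) ≤ 2 ^ P.natDegree * |P.eval (k : ℝ)| := by
  by_contra hcon
  push Not at hcon
  have h1 := congrFun (Polynomial.fwdDiff_iter_degree_eq_factorial P) 0
  rw [fwdDiff_iter_eq_sum_shift, hP.leadingCoeff] at h1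
  set n := P.natDegree with hn
  have h2 : (n.factorial : ℝ) = |∑ k ∈ Finset.range (n + 1),
      ((-1 : ℤ) ^ (n - k) * n.choose k) • P.eval ((0 : ℝ) + k • (1 : ℝ))| := by
    rw [h1]
    simp
  have h3 : |∑ k ∈ Finset.range (n + 1),
      ((-1 : ℤ) ^ (n - k) * n.choose k) • P.eval ((0 : ℝ) + k • (1 : ℝ))| ≤
      ∑ k ∈ Finset.range (n + 1), (n.choose k : ℝ) * |P.eval (k : ℝ)| := by
    refine (Finset.abs_sum_le_sum_abs _ _).trans (Finset.sum_le_sum fun k _ => ?_)
    rw [zsmul_eq_mul, abs_mul]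
    push_cast
    rw [abs_mul, abs_pow, abs_neg, abs_one, one_pow, one_mul, zero_add, nsmul_eq_mul, mul_one,
      Nat.abs_cast]
  have h4 : ∑ k ∈ Finset.range (n + 1), (n.choose k : ℝ) * (2 ^ n * |P.eval (k : ℝ)|) <
      ∑ k ∈ Finset.range (n + 1), (n.choose k : ℝ) * n.factorial := by
    refine Finset.sum_lt_sum_of_nonempty ⟨0, by simp⟩ fun k hk => ?_
    have hk' : k ≤ n := Nat.lt_succ_iff.1 (Finset.mem_range.1 hk)
    have hc : (0 : ℝ) < n.choose k := by exact_mod_cast Nat.choose_pos hk'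
    exact mul_lt_mul_of_pos_left (hcon k hk') hc
  rw [← Finset.sum_mul] at h4
  have h5 : (∑ k ∈ Finset.range (n + 1), (n.choose k : ℝ)) = 2 ^ n := by
    exact_mod_cast Nat.sum_range_choose n
  rw [h5] at h4
  have h6 : ∑ k ∈ Finset.range (n + 1), (n.choose k : ℝ) * (2 ^ n * |P.eval (k : ℝ)|) =
      2 ^ n * ∑ k ∈ Finset.range (n + 1), (n.choose k : ℝ) * |P.eval (k : ℝ)| := by
    rw [Finset.mul_sum]
    refine Finset.sum_congr rfl fun k _ => ?_
    ring
  rw [h6] at h4
  have h7 := lt_of_mul_lt_mul_left h4 (by positivity)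
  linarith

theorem list_monic (L : List ℝ) : ((L.map fun a => X - C a).prod : ℝ[X]).Monic ∧
    ((L.map fun a => X - C a).prod : ℝ[X]).natDegree = L.length := by
  induction L with
  | nil => simp
  | cons a L ih =>
    rw [List.map_cons, List.prod_cons]
    refine ⟨(monic_X_sub_C a).mul ih.1, ?_⟩
    rw [(monic_X_sub_C a).natDegree_mul ih.1, natDegree_X_sub_C, ih.2, List.length_cons]
    ring

/-- A radius for which the product of the distances is not small. -/
theorem exists_radius (L : List ℝ) : ∃ r : ℝ, 1 / 4 ≤ r ∧ r ≤ 1 / 2 ∧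
    (1 / 24 : ℝ) ^ L.length ≤ (L.map fun a => |r - a|).prod := by
  rcases Nat.eq_zero_or_pos L.length with h0 | hpos
  · rw [List.length_eq_zero_iff] at h0
    subst h0
    exact ⟨1 / 4, le_rfl, by norm_num, by simp⟩
  set n := L.length with hn
  have hnR : (0 : ℝ) < n := by exact_mod_cast hpos
  set L' : List ℝ := L.map fun a => 4 * n * (a - 1 / 4) with hL'
  obtain ⟨hm, hd⟩ := list_monic L'
  obtain ⟨k, hk, hval⟩ := exists_large _ hm
  have hlen : L'.length = n := by rw [hL', List.length_map]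
  rw [hd, hlen] at hk hval
  have hkR : (k : ℝ) ≤ n := by exact_mod_cast hk
  refine ⟨1 / 4 + k / (4 * n), ?_, ?_, ?_⟩
  · have : (0 : ℝ) ≤ k / (4 * n) := by positivity
    linarith
  · have : (k : ℝ) / (4 * n) ≤ 1 / 4 := by
      rw [div_le_div_iff₀ (by positivity) (by norm_num)]
      linarith
    linarith
  · have h1 : ∀ K : List ℝ, |(((K.map fun a => 4 * (n : ℝ) * (a - 1 / 4)).map
        fun a => X - C a).prod : ℝ[X]).eval (k : ℝ)| =
        (4 * n : ℝ) ^ K.length * (K.map fun a => |1 / 4 + (k : ℝ) / (4 * n) - a|).prod := by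
      intro K
      induction K with
      | nil => simp
      | cons a K ih =>
        rw [List.map_cons, List.map_cons, List.prod_cons, eval_mul, abs_mul, ih, List.map_cons,
          List.prod_cons, List.length_cons, pow_succ, eval_sub, eval_X, eval_C]
        have : (k : ℝ) - 4 * n * (a - 1 / 4) = 4 * n * (1 / 4 + k / (4 * n) - a) := by
          field_simp
          ring
        rw [this, abs_mul, abs_of_pos (by positivity : (0 : ℝ) < 4 * n)]
        ring
    rw [h1 L, ← hn] at hval
    have h2 := Real.pow_div_factorial_le_exp (n : ℝ) hnR.le n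
    have h3 : Real.exp n ≤ 3 ^ n := by
      have : Real.exp n = Real.exp 1 ^ n := by rw [← Real.exp_nat_mul, mul_one]
      rw [this]
      exact pow_le_pow_left₀ (Real.exp_pos 1).le (Real.exp_one_lt_d9.le.trans (by norm_num)) n
    have hf : (0 : ℝ) < n.factorial := by exact_mod_cast n.factorial_pos
    rw [div_le_iff₀ hf] at h2
    have h4 : (n : ℝ) ^ n ≤ 3 ^ n * n.factorial :=
      h2.trans (mul_le_mul_of_nonneg_right h3 hf.le)
    have h5 : (n : ℝ) ^ n ≤ 3 ^ n * (2 ^ n * ((4 * n : ℝ) ^ n *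
        (L.map fun a => |1 / 4 + (k : ℝ) / (4 * n) - a|).prod)) :=
      h4.trans (mul_le_mul_of_nonneg_left hval (by positivity))
    have h6 : 3 ^ n * (2 ^ n * ((4 * n : ℝ) ^ n *
        (L.map fun a => |1 / 4 + (k : ℝ) / (4 * n) - a|).prod)) =
        (n : ℝ) ^ n * (24 ^ n * (L.map fun a => |1 / 4 + (k : ℝ) / (4 * n) - a|).prod) := by
      rw [mul_pow, show (24 : ℝ) = 3 * (2 * 4) by norm_num, mul_pow, mul_pow]
      ring
    rw [h6] at h5
    have hnn : (0 : ℝ) < (n : ℝ) ^ n := by positivity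
    have h7 : 1 ≤ 24 ^ n * (L.map fun a => |1 / 4 + (k : ℝ) / (4 * n) - a|).prod := by
      have h8 : (n : ℝ) ^ n * 1 ≤ (n : ℝ) ^ n *
          (24 ^ n * (L.map fun a => |1 / 4 + (k : ℝ) / (4 * n) - a|).prod) := by
        rw [mul_one]; exact h5
      exact le_of_mul_le_mul_left h8 hnn
    rw [one_div, inv_pow, inv_le_iff_one_le_mul₀' (by positivity)]
    exact h7

/-- Weighted power sums with a polynomial factor. -/
noncomputable def T (L : List ℂ) (m : ℕ) (K : List ℂ) : ℂ :=
  (L.map fun z => z ^ m * PP K z).sum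

noncomputable def V (L : List ℂ) (w : ℂ) (m : ℕ) (K : List ℂ) : ℂ :=
  (L.map fun z => z ^ m * PP K z / (w - z)).sum

theorem list_sum_sub {α : Type*} (L : List α) (f g : α → ℂ) :
    (L.map fun z => f z - g z).sum = (L.map f).sum - (L.map g).sum := by
  induction L with
  | nil => simp
  | cons a L ih => simp only [List.map_cons, List.sum_cons, ih]; ring

theorem list_sum_mul {α : Type*} (L : List α) (c : ℂ) (f : α → ℂ) :
    (L.map fun z => c * f z).sum = c * (L.map f).sum := by
  induction L with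
  | nil => simp
  | cons a L ih => simp only [List.map_cons, List.sum_cons, ih]; ring

theorem T_cons (L : List ℂ) (m : ℕ) (a : ℂ) (K : List ℂ) :
    T L m (a :: K) = T L (m + 1) K - a * T L m K := by
  unfold T
  rw [← list_sum_mul, ← list_sum_sub]
  congr 1
  refine List.map_congr_left fun z _ => ?_
  rw [PP_cons]
  ring

theorem V_cons (L : List ℂ) (w : ℂ) (hw : ∀ z ∈ L, w ≠ z) (m : ℕ) (a : ℂ) (K : List ℂ) :
    V L w m (a :: K) = (w - a) * V L w m K - T L m K := by
  unfold T V
  rw [← list_sum_mul, ← list_sum_sub]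
  congr 1
  refine List.map_congr_left fun z hz => ?_
  have : w - z ≠ 0 := sub_ne_zero.2 (hw z hz)
  rw [PP_cons]
  field_simp
  ring

theorem T_bound (L : List ℂ) (M n : ℕ) (S : ℝ)
    (hS : ∀ k, M < k → k ≤ M + n → ‖(L.map fun z => z ^ k).sum‖ ≤ S) (K : List ℂ) :
    (∀ z ∈ K, ‖z‖ ≤ 1) → ∀ m, M < m → m + K.length ≤ M + n →
    ‖T L m K‖ ≤ 2 ^ K.length * S := by
  induction K with
  | nil =>
    intro _ m hm hm2
    have : T L m [] = (L.map fun z => z ^ m).sum := by
      unfold T
      congr 1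
      refine List.map_congr_left fun z _ => ?_
      rw [PP_nil, mul_one]
    rw [this]
    simpa using hS m hm (by simpa using hm2)
  | cons a K ih =>
    intro hK m hm hm2
    rw [List.length_cons] at hm2
    rw [T_cons, List.length_cons, pow_succ]
    have h1 := ih (fun z hz => hK z (List.mem_cons_of_mem _ hz)) (m + 1) (by omega) (by omega)
    have h2 := ih (fun z hz => hK z (List.mem_cons_of_mem _ hz)) m hm (by omega)
    have h3 : ‖a‖ ≤ 1 := hK a List.mem_cons_self
    have h4 : ‖a * T L m K‖ ≤ 2 ^ K.length * S := by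
      rw [norm_mul]
      calc ‖a‖ * ‖T L m K‖ ≤ 1 * ‖T L m K‖ := mul_le_mul_of_nonneg_right h3 (norm_nonneg _)
        _ = ‖T L m K‖ := one_mul _
        _ ≤ _ := h2
    have h5 := norm_sub_le (T L (m + 1) K) (a * T L m K)
    linarith

theorem V_bound (L : List ℂ) (M n : ℕ) (S : ℝ) (hS0 : 0 ≤ S)
    (hS : ∀ k, M < k → k ≤ M + n → ‖(L.map fun z => z ^ k).sum‖ ≤ S) (w : ℂ) (hw1 : ‖w‖ ≤ 1 / 2)
    (hw : ∀ z ∈ L, w ≠ z) (K : List ℂ) :
    (∀ z ∈ K, ‖z‖ ≤ 1) → K.length ≤ n →
    ‖PP K w * V L w (M + 1) [] - V L w (M + 1) K‖ ≤ 2 * 2 ^ K.length * S := by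
  induction K with
  | nil =>
    intro _ _
    rw [PP_nil, one_mul, sub_self, norm_zero]
    positivity
  | cons a K ih =>
    intro hK hn
    rw [List.length_cons] at hn
    have h1 := ih (fun z hz => hK z (List.mem_cons_of_mem _ hz)) (by omega)
    have h2 := T_bound L M n S hS K (fun z hz => hK z (List.mem_cons_of_mem _ hz)) (M + 1)
      (by omega) (by omega)
    rw [V_cons L w hw, PP_cons, List.length_cons, pow_succ]
    have h3 : (w - a) * PP K w * V L w (M + 1) [] - ((w - a) * V L w (M + 1) K - T L (M + 1) K) =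
        (w - a) * (PP K w * V L w (M + 1) [] - V L w (M + 1) K) + T L (M + 1) K := by ring
    rw [h3]
    have h4 : ‖w - a‖ ≤ 3 / 2 := by
      have := norm_sub_le w a
      have := hK a List.mem_cons_self
      linarith
    have h5 : ‖(w - a) * (PP K w * V L w (M + 1) [] - V L w (M + 1) K)‖ ≤
        3 / 2 * (2 * 2 ^ K.length * S) := by
      rw [norm_mul]
      exact mul_le_mul h4 h1 (norm_nonneg _) (by norm_num)
    have h6 := norm_add_le ((w - a) * (PP K w * V L w (M + 1) [] - V L w (M + 1) K))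
      (T L (M + 1) K)
    linarith

theorem V_self (L : List ℂ) (w : ℂ) (m : ℕ) : V L w m L = 0 := by
  unfold V
  have : ∀ K : List ℂ, (∀ z ∈ K, z ∈ L) →
      (K.map fun z => z ^ m * PP L z / (w - z)).sum = 0 := by
    intro K
    induction K with
    | nil => simp
    | cons a K ih =>
      intro hK
      rw [List.map_cons, List.sum_cons, ih fun z hz => hK z (List.mem_cons_of_mem _ hz)]
      have : PP L a = 0 := by
        unfold PP
        rw [List.prod_eq_zero_iff, List.mem_map]
        exact ⟨a, hK a List.mem_cons_self, sub_self a⟩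
      rw [this]
      simp
  exact this L fun z hz => hz

theorem V_le (L : List ℂ) (M : ℕ) (S : ℝ) (hS0 : 0 ≤ S) (hL : ∀ z ∈ L, ‖z‖ ≤ 1)
    (hS : ∀ k, M < k → k ≤ M + L.length → ‖(L.map fun z => z ^ k).sum‖ ≤ S) (w : ℂ)
    (hw1 : ‖w‖ ≤ 1 / 2) (hw : ∀ z ∈ L, w ≠ z) :
    ‖PP L w‖ * ‖(L.map fun z => z ^ (M + 1) / (w - z)).sum‖ ≤ 2 * 2 ^ L.length * S := by
  have h1 := V_bound L M L.length S hS0 hS w hw1 hw L hL le_rfl
  rw [V_self, sub_zero, norm_mul] at h1
  have : V L w (M + 1) [] = (L.map fun z => z ^ (M + 1) / (w - z)).sum := by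
    unfold V
    congr 1
    refine List.map_congr_left fun z _ => ?_
    rw [PP_nil, mul_one]
  rwa [this] at h1

/-- The integral of `z^m / (w^m (w - z)) ` over a circle. -/
theorem integral_term {r : ℝ} (hr : 0 < r) {z : ℂ} (hz : ‖z‖ ≠ r) (m : ℕ) :
    (∮ w in C(0, r), z ^ m / (w ^ m * (w - z))) =
      (if ‖z‖ < r then 2 * π * Complex.I else 0) - (if 0 < m then 2 * π * Complex.I else 0) := by
  have hcont : ∀ m : ℕ, CircleIntegrable (fun w => z ^ m / (w ^ m * (w - z))) 0 r := by
    intro m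
    refine ContinuousOn.circleIntegrable hr.le ?_
    refine continuousOn_const.div ((continuousOn_id.pow m).mul
      (continuousOn_id.sub continuousOn_const)) fun w hw => ?_
    rw [mem_sphere_zero_iff_norm] at hw
    refine mul_ne_zero (pow_ne_zero _ ?_) ?_
    · rw [← norm_pos_iff]
      exact hw ▸ hr
    · change w - z ≠ 0
      intro h
      rw [sub_eq_zero] at h
      rw [← h] at hz
      exact hz hw
  induction m with
  | zero =>
    have h0 : ∀ w : ℂ, z ^ 0 / (w ^ 0 * (w - z)) = (w - z)⁻¹ := by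
      intro w; rw [pow_zero, pow_zero, one_mul, one_div]
    simp only [h0, lt_irrefl, if_false, sub_zero]
    split_ifs with h
    · exact circleIntegral.integral_sub_inv_of_mem_ball (by simpa using h)
    · refine Complex.circleIntegral_eq_zero_of_differentiable_on_off_countable hr.le
        Set.countable_empty ?_ ?_
      · refine (continuousOn_id.sub continuousOn_const).inv₀ fun w hw => ?_
        rw [mem_closedBall_zero_iff] at hw
        change w - z ≠ 0
        intro h1
        rw [sub_eq_zero] at h1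
        rw [h1] at hw
        exact h (lt_of_le_of_ne hw hz)
      · intro w hw
        have hw' : ‖w‖ < r := by simpa using hw.1
        refine (differentiableAt_id.sub_const z).inv ?_
        change w - z ≠ 0
        intro h1
        rw [sub_eq_zero] at h1
        rw [h1] at hw'
        exact h hw'
  | succ m ih =>
    have h1 : (∮ w in C(0, r), z ^ (m + 1) / (w ^ (m + 1) * (w - z))) =
        (∮ w in C(0, r), (z ^ m / (w ^ m * (w - z)) - z ^ m * (w - 0) ^ (-((m : ℤ) + 1)))) := by
      refine circleIntegral.integral_congr hr.le fun w hw => ?_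
      rw [mem_sphere_zero_iff_norm] at hw
      have hw0 : w ≠ 0 := by rw [← norm_pos_iff, hw]; exact hr
      have hwz : w - z ≠ 0 := by
        intro h
        rw [sub_eq_zero] at h
        rw [← h] at hz
        exact hz hw
      simp only [sub_zero]
      rw [zpow_neg, show ((m : ℤ) + 1) = ((m + 1 : ℕ) : ℤ) by push_cast; ring, zpow_natCast]
      field_simp
      ring
    have h2 : CircleIntegrable (fun w : ℂ => z ^ m * (w - 0) ^ (-((m : ℤ) + 1))) 0 r := by
      refine ContinuousOn.circleIntegrable hr.le (continuousOn_const.mul ?_)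
      refine ContinuousOn.zpow₀ (continuousOn_id.sub continuousOn_const) _ fun w hw => ?_
      rw [mem_sphere_zero_iff_norm] at hw
      left
      change w - 0 ≠ 0
      rw [sub_zero, ← norm_pos_iff, hw]
      exact hr
    rw [h1, circleIntegral.integral_sub (hcont m) h2, ih, circleIntegral.integral_const_mul]
    rcases Nat.eq_zero_or_pos m with h0 | hpos
    · subst h0
      have h3 : (∮ w in C(0, r), ((w : ℂ) - 0) ^ (-(((0 : ℕ) : ℤ) + 1))) = 2 * π * Complex.I := by
        have := circleIntegral.integral_sub_center_inv (0 : ℂ) hr.ne'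
        rw [← this]
        congr 1
        funext w
        simp
      rw [h3]
      simp
    · have h3 : (∮ w in C(0, r), ((w : ℂ) - 0) ^ (-((m : ℤ) + 1))) = 0 :=
        circleIntegral.integral_sub_zpow_of_ne (by omega) 0 0 r
      rw [h3]
      simp [hpos]

theorem circleIntegrable_list {r : ℝ} (L : List ℂ) (f : ℂ → ℂ → ℂ)
    (h : ∀ z ∈ L, CircleIntegrable (f z) 0 r) :
    CircleIntegrable (fun w => (L.map fun z => f z w).sum) 0 r ∧
    (∮ w in C(0, r), (L.map fun z => f z w).sum) =
      (L.map fun z => ∮ w in C(0, r), f z w).sum := by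
  induction L with
  | nil =>
    simp only [List.map_nil, List.sum_nil]
    refine ⟨circleIntegrable_const 0 0 r, ?_⟩
    simp [circleIntegral]
  | cons a L ih =>
    obtain ⟨h1, h2⟩ := ih fun z hz => h z (List.mem_cons_of_mem _ hz)
    have h3 := h a List.mem_cons_self
    simp only [List.map_cons, List.sum_cons]
    refine ⟨h3.add h1, ?_⟩
    rw [circleIntegral.integral_add h3 h1, h2]

/-- The normalised form: all `|z| ≤ 1`, one `|z| = 1`. -/
theorem normalised (L : List ℂ) (hL : ∀ z ∈ L, ‖z‖ ≤ 1) (z0 : ℂ) (hz0 : z0 ∈ L)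
    (h1 : ‖z0‖ = 1) (M : ℕ) (S : ℝ) (hS0 : 0 ≤ S)
    (hS : ∀ k, M < k → k ≤ M + L.length → ‖(L.map fun z => z ^ k).sum‖ ≤ S) :
    1 ≤ 4 ^ M * 2 * 48 ^ L.length * S := by
  obtain ⟨r, hr1, hr2, hr⟩ := exists_radius (L.map fun z => ‖z‖)
  rw [List.length_map, List.map_map] at hr
  have hr0 : 0 < r := by linarith
  have hprod : (0 : ℝ) < (L.map ((fun a => |r - a|) ∘ fun z => ‖z‖)).prod :=
    lt_of_lt_of_le (by positivity) hr
  have hne : ∀ z ∈ L, ‖z‖ ≠ r := by
    intro z hz h
    refine hprod.ne' (List.prod_eq_zero (List.mem_map.2 ⟨z, hz, ?_⟩))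
    simp [h]
  have hwz : ∀ w : ℂ, ‖w‖ = r → ∀ z ∈ L, w ≠ z := by
    intro w hw z hz h
    exact hne z hz (by rw [← h, hw])
  have hPP : ∀ w : ℂ, ‖w‖ = r → (1 / 24 : ℝ) ^ L.length ≤ ‖PP L w‖ := by
    intro w hw
    refine hr.trans ?_
    have : ∀ K : List ℂ, (K.map ((fun a => |r - a|) ∘ fun z => ‖z‖)).prod ≤ ‖PP K w‖ ∧
        0 ≤ (K.map ((fun a => |r - a|) ∘ fun z => ‖z‖)).prod := by
      intro K
      induction K with
      | nil => simp [PP_nil]
      | cons a K ih =>
        rw [PP_cons, norm_mul, List.map_cons, List.prod_cons]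
        have h2 : |r - ‖a‖| ≤ ‖w - a‖ := by
          rw [← hw]; exact abs_norm_sub_norm_le w a
        exact ⟨mul_le_mul h2 ih.1 ih.2 (norm_nonneg _), mul_nonneg (abs_nonneg _) ih.2⟩
    exact (this L).1
  -- the integral
  set I : ℂ := ∮ w in C(0, r), (L.map fun z => z ^ (M + 1) / (w ^ (M + 1) * (w - z))).sum with hI
  have hint : I = (L.map fun z => (if ‖z‖ < r then 2 * π * Complex.I else 0) -
      (if 0 < M + 1 then 2 * π * Complex.I else 0)).sum := by
    rw [hI, (circleIntegrable_list L (fun z w => z ^ (M + 1) / (w ^ (M + 1) * (w - z))) ?_).2]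
    · congr 1
      refine List.map_congr_left fun z hz => ?_
      exact integral_term hr0 (hne z hz) (M + 1)
    · intro z hz
      refine ContinuousOn.circleIntegrable hr0.le ?_
      refine continuousOn_const.div ((continuousOn_id.pow _).mul
        (continuousOn_id.sub continuousOn_const)) fun w hw => ?_
      rw [mem_sphere_zero_iff_norm] at hw
      refine mul_ne_zero (pow_ne_zero _ ?_) ?_
      · rw [← norm_pos_iff]
        exact hw ▸ hr0
      · exact sub_ne_zero.2 (hwz w hw z hz)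
  have hbig : 1 ≤ ‖(2 * π * Complex.I)⁻¹ * I‖ := by
    have h2 : ∀ K : List ℂ, ∃ N : ℕ, (K.map fun z => (if ‖z‖ < r then 2 * π * Complex.I else 0) -
        (if 0 < M + 1 then 2 * π * Complex.I else 0)).sum = -(N : ℂ) * (2 * π * Complex.I) ∧
        (z0 ∈ K → 1 ≤ N) := by
      intro K
      induction K with
      | nil => exact ⟨0, by simp⟩
      | cons a K ih =>
        obtain ⟨N, hN, hN1⟩ := ih
        rw [List.map_cons, List.sum_cons, hN]
        by_cases ha : ‖a‖ < r
        · refine ⟨N, ?_, fun h => hN1 ?_⟩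
          · simp [ha]
          · rcases List.mem_cons.1 h with h | h
            · rw [← h, h1] at ha
              linarith
            · exact h
        · refine ⟨N + 1, ?_, fun _ => by omega⟩
          simp only [ha, if_false, Nat.succ_pos, if_true]
          push_cast
          ring
    obtain ⟨N, hN, hN1⟩ := h2 L
    rw [hint, hN]
    have h3 : (2 * π * Complex.I)⁻¹ * (-(N : ℂ) * (2 * π * Complex.I)) = -(N : ℂ) := by
      have : (2 * π * Complex.I : ℂ) ≠ 0 := by
        simp [Real.pi_ne_zero]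
      field_simp
    rw [h3, norm_neg, Complex.norm_natCast]
    exact_mod_cast hN1 hz0
  have hsmall : ‖(2 * π * Complex.I)⁻¹ * I‖ ≤
      r * (r⁻¹ ^ (M + 1) * (24 ^ L.length * (2 * 2 ^ L.length * S))) := by
    have := circleIntegral.norm_two_pi_i_inv_smul_integral_le_of_norm_le_const (c := 0) (R := r)
      (f := fun w => (L.map fun z => z ^ (M + 1) / (w ^ (M + 1) * (w - z))).sum)
      (C := r⁻¹ ^ (M + 1) * (24 ^ L.length * (2 * 2 ^ L.length * S))) hr0.le ?_
    · simpa [smul_eq_mul] using this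
    · intro w hw
      rw [mem_sphere_zero_iff_norm] at hw
      have h4 : (L.map fun z => z ^ (M + 1) / (w ^ (M + 1) * (w - z))).sum =
          (w ^ (M + 1))⁻¹ * (L.map fun z => z ^ (M + 1) / (w - z)).sum := by
        rw [← list_sum_mul]
        congr 1
        refine List.map_congr_left fun z _ => ?_
        rw [div_mul_eq_div_div_swap, div_eq_inv_mul]
      have h5 := V_le L M S hS0 hL hS w (by rw [hw]; exact hr2) (hwz w hw)
      have h6 : ‖(L.map fun z => z ^ (M + 1) / (w - z)).sum‖ ≤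
          24 ^ L.length * (2 * 2 ^ L.length * S) := by
        have h7 := (mul_le_mul_of_nonneg_right (hPP w hw) (norm_nonneg _)).trans h5
        rw [one_div, inv_pow, inv_mul_le_iff₀ (by positivity)] at h7
        exact h7
      rw [h4, norm_mul, norm_inv, norm_pow, hw, ← inv_pow]
      exact mul_le_mul_of_nonneg_left h6 (by positivity)
  have hfin : r * (r⁻¹ ^ (M + 1) * (24 ^ L.length * (2 * 2 ^ L.length * S))) ≤
      4 ^ M * 2 * 48 ^ L.length * S := by
    have h8 : r * (r⁻¹ ^ (M + 1) * (24 ^ L.length * (2 * 2 ^ L.length * S))) =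
        r⁻¹ ^ M * 2 * 48 ^ L.length * S := by
      rw [show (48 : ℝ) = 24 * 2 by norm_num, mul_pow, pow_succ]
      field_simp
    rw [h8]
    have h9 : r⁻¹ ^ M ≤ 4 ^ M := by
      refine pow_le_pow_left₀ (by positivity) ?_ M
      rw [inv_le_comm₀ hr0 (by norm_num)]
      linarith
    gcongr
  exact hbig.trans (hsmall.trans hfin)

end TUR

/-- Sharper form of `Stmt_TUR`: the exponent is in `(M, M + n]`, and the bound is `c ^ M`. -/
theorem turan_strong : ∃ c : ℝ, 0 < c ∧ c < 1 ∧ ∀ (L : List ℂ) (z0 : ℂ), z0 ∈ L → 1 ≤ ‖z0‖ →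
    ∀ M : ℕ, L.length ≤ M →
    ∃ k : ℕ, M < k ∧ k ≤ M + L.length ∧ c ^ M ≤ ‖(L.map fun z => z ^ k).sum‖ := by
  refine ⟨1 / 400, by norm_num, by norm_num, ?_⟩
  intro L z0 hz0 h1 M hM
  by_contra hcon
  push Not at hcon
  have hM1 : 1 ≤ M := by
    have : 0 < L.length := List.length_pos_of_mem hz0
    omega
  obtain ⟨z1, hz1, hmax⟩ := L.toFinset.exists_max_image (fun z => ‖z‖) ⟨z0, by simpa using hz0⟩
  rw [List.mem_toFinset] at hz1
  have hmax' : ∀ z ∈ L, ‖z‖ ≤ ‖z1‖ := fun z hz => hmax z (by simpa using hz)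
  have hρ : 1 ≤ ‖z1‖ := h1.trans (hmax' z0 hz0)
  have hρ0 : 0 < ‖z1‖ := by linarith
  set a : ℂ := ((‖z1‖⁻¹ : ℝ) : ℂ) with ha
  have hna : ‖a‖ = ‖z1‖⁻¹ := by
    rw [ha, Complex.norm_real, Real.norm_of_nonneg (by positivity)]
  have key := TUR.normalised (L.map fun z => a * z) ?_ (a * z1) (List.mem_map.2 ⟨z1, hz1, rfl⟩) ?_
    M ((1 / 400) ^ M) (by positivity) ?_
  · rw [List.length_map] at key
    have h2 : (48 : ℝ) ^ L.length ≤ 48 ^ M := pow_le_pow_right₀ (by norm_num) hM
    have h3 : (4 : ℝ) ^ M * 2 * 48 ^ L.length * (1 / 400) ^ M ≤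
        4 ^ M * 2 * 48 ^ M * (1 / 400) ^ M := by gcongr
    have h4 : (4 : ℝ) ^ M * 2 * 48 ^ M * (1 / 400) ^ M = (192 / 400) ^ M * 2 := by
      rw [show (192 / 400 : ℝ) = 4 * 48 * (1 / 400) by norm_num, mul_pow, mul_pow]
      ring
    have h5 : (192 / 400 : ℝ) ^ M ≤ (192 / 400) ^ 1 :=
      pow_le_pow_of_le_one (by norm_num) (by norm_num) hM1
    rw [pow_one] at h5
    linarith
  · intro z hz
    rw [List.mem_map] at hz
    obtain ⟨z', hz', rfl⟩ := hz
    rw [norm_mul, hna, inv_mul_le_iff₀ hρ0, mul_one]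
    exact hmax' z' hz'
  · rw [norm_mul, hna, inv_mul_cancel₀ hρ0.ne']
  · intro k hk1 hk2
    rw [List.length_map] at hk2
    have h2 := hcon k hk1 hk2
    rw [List.map_map]
    have h3 : (L.map ((fun z => z ^ k) ∘ fun z => a * z)).sum =
        a ^ k * (L.map fun z => z ^ k).sum := by
      rw [← TUR.list_sum_mul]
      congr 1
      refine List.map_congr_left fun z _ => ?_
      simp [mul_pow]
    rw [h3, norm_mul, norm_pow, hna]
    have h4 : ‖z1‖⁻¹ ^ k ≤ 1 := pow_le_one₀ (by positivity) (inv_le_one_of_one_le₀ hρ)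
    have h6 : 0 ≤ ‖(L.map fun z => z ^ k).sum‖ := norm_nonneg _
    nlinarith

theorem stmt_TUR : Stmt_TUR := by
  obtain ⟨c, hc0, hc1, h⟩ := turan_strong
  refine ⟨c, hc0, hc1, fun L z0 hz0 h1 M hM => ?_⟩
  obtain ⟨k, hk1, hk2, hk3⟩ := h L z0 hz0 h1 M hM
  exact ⟨k, hk1, by omega, (pow_le_pow_of_le_one hc0.le hc1.le hk1.le).trans hk3⟩

end Pool.Agent.PS
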