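import Pool.Agent.Work.PS.WIN

/-!
# PS, block WIN: choice of the parameters
-/

set_option autoImplicit false

namespace Pool.Agent.PS

open Finset ArithmeticFunction Metric
open Pool.Agent.Circle (e)
open scoped Classical

theorem stmt_WIN (hWS : Stmt_WS) (hLOW : Stmt_LOW) (hCIRC : Stmt_CIRC) (hMIN : Stmt_MIN)
    (hS : Stmt_SIEG) : Stmt_WIN := by
  obtain ⟨ε0, c, P0, hε0, hc, hlow⟩ := hLOW
  obtain ⟨θ, hθ, hθ1, X1, hws⟩ := hWS ε0 hε0
  obtain ⟨C, hC, hmin⟩ := hMIN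
  refine ⟨θ / 128, by positivity, fun ε hε => ?_⟩
  obtain ⟨cs, hcs, hsieg⟩ := hS (ε / 2) (by positivity)
  set K : ℝ := 16 * C ^ 2 / c ^ 2 + 6 with hK
  have hK0 : 0 < K := by positivity
  set cs' : ℝ := min cs 1 with hcs'
  have hcs'0 : 0 < cs' := lt_min hcs one_pos
  obtain ⟨X2, hX2⟩ := log_pow_le_rpow 10 (θ / 128) (1 / K) (by positivity) (by positivity)
  obtain ⟨X3, hX3⟩ := log_pow_le_rpow 2 (θ / 8) 1 (by positivity) (by positivity)
  have htend : Filter.Tendsto (fun X : ℕ => (X : ℝ) ^ (θ / 8)) Filter.atTop Filter.atTop :=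
    (tendsto_rpow_atTop (by positivity)).comp tendsto_natCast_atTop_atTop
  have htend2 : Filter.Tendsto (fun X : ℕ => (X : ℝ) ^ (ε / 2)) Filter.atTop Filter.atTop :=
    (tendsto_rpow_atTop (by positivity)).comp tendsto_natCast_atTop_atTop
  obtain ⟨X4, hX4⟩ := Filter.eventually_atTop.1 (htend.eventually_ge_atTop (max P0 2 : ℝ))
  obtain ⟨X5, hX5⟩ := Filter.eventually_atTop.1 (htend2.eventually_ge_atTop (2 / (c * cs')))
  refine ⟨max X1 (max X2 (max X3 (max X4 (max X5 1000)))), fun X M hX hXM hM => ?_⟩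
  simp only [max_le_iff] at hX
  obtain ⟨hX1', hX2', hX3', hX4', hX5', hX1000⟩ := hX
  obtain ⟨P, E, hPlow, hPup, hE, hW⟩ := hws X hX1'
  have hXr : (1000 : ℝ) ≤ X := by exact_mod_cast hX1000
  have hX0 : (0 : ℝ) < X := by linarith
  have hXp : 0 < X := by omega
  set L : ℝ := Real.log X with hL
  have hL1 : 1 ≤ L := by
    rw [hL, Real.le_log_iff_exp_le hX0]
    exact Real.exp_one_lt_d9.le.trans (by linarith)
  have h10 := hX2 X hX2'
  have h2 := hX3 X hX3'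
  rw [← hL] at h10 h2
  rw [one_mul] at h2
  have hP02 := hX4 X hX4'
  have hε5 := hX5 X hX5'
  have hPr2 : (2 : ℝ) ≤ P := (le_max_right _ _).trans (hP02.trans hPlow)
  have hP2 : 2 ≤ P := by exact_mod_cast hPr2
  have hP0 : P0 ≤ P := by
    have : (P0 : ℝ) ≤ P := (le_max_left _ _).trans (hP02.trans hPlow)
    exact_mod_cast this
  have hPr : (0 : ℝ) < P := by linarith
  have hPX : P ^ 10 ≤ X := by
    have : (P : ℝ) ^ 10 ≤ X := by
      calc (P : ℝ) ^ 10 ≤ ((X : ℝ) ^ θ) ^ 10 := by gcongr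
        _ = (X : ℝ) ^ (θ * 10) := by
            rw [← Real.rpow_natCast, ← Real.rpow_mul hX0.le]
            norm_num
        _ ≤ (X : ℝ) ^ (1 : ℝ) := Real.rpow_le_rpow_of_exponent_le (by linarith) (by linarith)
        _ = X := Real.rpow_one _
    exact_mod_cast this
  have hL2P : L ^ 2 ≤ P := h2.trans hPlow
  have hMP : (M : ℝ) ≤ X * P := hM.trans (by gcongr)
  have hPXr : (P : ℝ) ≤ X := by
    have : P ≤ X := (Nat.le_self_pow (by norm_num) P).trans hPX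
    exact_mod_cast this
  have hPX2 : (2 : ℝ) * P ≤ X := by
    have h1 : P ^ 2 ≤ P ^ 10 := Nat.pow_le_pow_right (by omega) (by norm_num)
    have h3 : (P : ℝ) ^ 2 ≤ X := by exact_mod_cast h1.trans hPX
    have h4 : (2 : ℝ) * P ≤ P ^ 2 := by
      rw [pow_two]
      exact mul_le_mul_of_nonneg_right hPr2 hPr.le
    linarith
  have hMXr : (M : ℝ) + X ≤ (X : ℝ) ^ 2 := by
    have h1 : (X : ℝ) * P ≤ X * (X / 2) := by
      apply mul_le_mul_of_nonneg_left _ hX0.le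
      linarith
    have h3 : (X : ℝ) ≤ X * (X / 2) := by
      apply le_mul_of_one_le_right hX0.le
      linarith
    calc (M : ℝ) + X ≤ X * (X / 2) + X * (X / 2) := by linarith
      _ = (X : ℝ) ^ 2 := by ring
  have hMX : M ≤ X ^ 2 := by
    have : (M : ℝ) ≤ (X : ℝ) ^ 2 := by linarith
    exact_mod_cast this
  have hMr : (1 : ℝ) ≤ M := by
    have : (X : ℝ) ≤ M := by exact_mod_cast hXM
    linarith
  have hlogM : Real.log M ≤ 2 * L := by
    have h1 : Real.log M ≤ Real.log ((X : ℝ) ^ 2) :=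
      Real.log_le_log (by linarith) (by exact_mod_cast hMX)
    rw [Real.log_pow] at h1
    push_cast at h1
    exact h1
  have hlogMX : Real.log ((M + X : ℕ) : ℝ) ≤ 2 * L := by
    have h1 : Real.log ((M + X : ℕ) : ℝ) ≤ Real.log ((X : ℝ) ^ 2) := by
      apply Real.log_le_log
      · push_cast; linarith
      · push_cast; exact hMXr
    rw [Real.log_pow] at h1
    push_cast at h1 ⊢
    exact h1
  have hlogM0 : 0 ≤ Real.log M := Real.log_nonneg hMr
  -- the saving factor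
  have hlamP : (P : ℝ) ^ (-(1 / 32) : ℝ) ≤ lam E X := by
    have hP1 : (P : ℝ) ^ (-(1 / 32) : ℝ) ≤ 1 :=
      Real.rpow_le_one_of_one_le_of_nonpos (by linarith) (by norm_num)
    rcases hEq : E with _ | ⟨y, δ⟩
    · exact hP1
    · obtain ⟨hexc, hy4, _, hyδ⟩ := hE y δ hEq
      have hlam : lam (some (y, δ)) X = min 1 (δ * Real.log X) := rfl
      rw [hlam]
      apply le_min hP1
      have hy0 : 0 < y.1 := (Fam_pos hexc.mem).1
      have hyr : (0 : ℝ) < y.1 := by exact_mod_cast hy0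
      have h3 : δ ≤ δ * L := le_mul_of_one_le_right hexc.pos.le hL1
      refine le_trans ?_ (hyδ.trans h3)
      have h4 : (y.1 : ℝ) ^ 4 ≤ P := by exact_mod_cast hy4
      have h5 : (y.1 : ℝ) ^ (-(1 / 8) : ℝ) = ((y.1 : ℝ) ^ 4) ^ (-(1 / 32) : ℝ) := by
        rw [← Real.rpow_natCast, ← Real.rpow_mul hyr.le]
        congr 1
        norm_num
      rw [h5]
      exact Real.rpow_le_rpow_of_nonpos (by positivity) h4 (by norm_num)
  have hlamε : cs' * (X : ℝ) ^ (-(ε / 2)) ≤ lam E X := by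
    have hX1 : (X : ℝ) ^ (-(ε / 2)) ≤ 1 :=
      Real.rpow_le_one_of_one_le_of_nonpos (by linarith) (by linarith)
    have hcs1 : cs' * (X : ℝ) ^ (-(ε / 2)) ≤ 1 := by
      have h3 : cs' ≤ 1 := min_le_right _ _
      have h4 : 0 ≤ (X : ℝ) ^ (-(ε / 2)) := by positivity
      calc cs' * (X : ℝ) ^ (-(ε / 2)) ≤ 1 * 1 := mul_le_mul h3 hX1 h4 zero_le_one
        _ = 1 := one_mul 1
    rcases hEq : E with _ | ⟨y, δ⟩
    · exact hcs1
    · obtain ⟨hexc, hy4, _, _⟩ := hE y δ hEq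
      have hlam : lam (some (y, δ)) X = min 1 (δ * Real.log X) := rfl
      rw [hlam]
      apply le_min hcs1
      have hy0 : 0 < y.1 := (Fam_pos hexc.mem).1
      have hyr : (0 : ℝ) < y.1 := by exact_mod_cast hy0
      have h3 : δ ≤ δ * L := le_mul_of_one_le_right hexc.pos.le hL1
      refine le_trans ?_ ((hsieg P y δ hexc).trans h3)
      have hyX : (y.1 : ℝ) ≤ X := by
        have : y.1 ≤ P := (Fam_pos hexc.mem).2
        exact le_trans (by exact_mod_cast this) hPXr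
      have h4 : (X : ℝ) ^ (-(ε / 2)) ≤ (y.1 : ℝ) ^ (-(ε / 2)) :=
        Real.rpow_le_rpow_of_nonpos hyr hyX (by linarith)
      exact mul_le_mul (min_le_left _ _) h4 (by positivity) hcs.le
  -- threshold
  set τ : ℝ := c / 2 * (P : ℝ) ^ (-(1 / 32) : ℝ) * X with hτ
  have hτ0 : 0 < τ := by positivity
  have hcore := window_core hCIRC hc hlow hC hmin X M P E hP0 hP2 hPX hXM hMX hMP hE hW τ hτ0
  -- the lower bound
  have hge : (X : ℝ) ^ (1 - ε) ≤ c * lam E X * X - τ := by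
    have h3 : τ ≤ c / 2 * lam E X * X := by
      rw [hτ]
      gcongr
    have h4 : (X : ℝ) ^ (1 - ε) ≤ c / 2 * lam E X * X := by
      have h5 : 1 ≤ c / 2 * cs' * (X : ℝ) ^ (ε / 2) := by
        rw [div_le_iff₀ (by positivity)] at hε5
        calc (1 : ℝ) = 2 / 2 := by norm_num
          _ ≤ (X : ℝ) ^ (ε / 2) * (c * cs') / 2 := by
              apply div_le_div_of_nonneg_right hε5 (by norm_num)
          _ = c / 2 * cs' * (X : ℝ) ^ (ε / 2) := by ring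
      have h6 : (X : ℝ) ^ (1 - ε) = (X : ℝ) ^ (-(ε / 2)) * (X : ℝ) ^ (-(ε / 2)) * X := by
        rw [← Real.rpow_add hX0]
        nth_rewrite 3 [← Real.rpow_one (X : ℝ)]
        rw [← Real.rpow_add hX0]
        congr 1
        ring
      have h7 : (X : ℝ) ^ (-(ε / 2)) ≤ c / 2 * cs' := by
        rw [Real.rpow_neg hX0.le, inv_le_iff_one_le_mul₀ (by positivity)]
        exact h5
      rw [h6]
      calc (X : ℝ) ^ (-(ε / 2)) * (X : ℝ) ^ (-(ε / 2)) * X
          ≤ (c / 2 * cs') * (X : ℝ) ^ (-(ε / 2)) * X := by gcongr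
        _ = c / 2 * (cs' * (X : ℝ) ^ (-(ε / 2))) * X := by ring
        _ ≤ c / 2 * lam E X * X := by gcongr
    linarith
  have hsub : (Ioc M (M + X / 8)).filter (fun m => Even m ∧
      ∑ a ∈ Ioc (X / 4) (X / 2), th a * th (m - a) < (X : ℝ) ^ (1 - ε))
      ⊆ (Ioc M (M + X / 8)).filter (fun m => Even m ∧
        ∑ a ∈ Ioc (X / 4) (X / 2), th a * th (m - a) < c * lam E X * X - τ) := by
    intro m hm
    rw [mem_filter] at hm ⊢
    exact ⟨hm.1, hm.2.1, hm.2.2.trans_le hge⟩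
  refine (le_trans (by exact_mod_cast card_le_card hsub) hcore).trans ?_
  -- numerical estimates
  have hP8 : 0 < (P : ℝ) ^ (1 / 8 : ℝ) := by positivity
  have hL0 : 0 ≤ L := by linarith
  have hT1 : (C * (X / √(P : ℝ)) * L ^ 4) ^ 2 * (X * (Real.log M) ^ 2) / τ ^ 2
      ≤ 16 * C ^ 2 / c ^ 2 * (X * L ^ 10 / (P : ℝ) ^ (1 / 8 : ℝ)) := by
    have h3 : (Real.log M) ^ 2 ≤ (2 * L) ^ 2 := by gcongr
    have h4 : √(P : ℝ) ^ 2 = P := Real.sq_sqrt hPr.le
    have h5 : τ ^ 2 = c ^ 2 / 4 * (P : ℝ) ^ (-(1 / 16) : ℝ) * X ^ 2 := by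
      have : ((P : ℝ) ^ (-(1 / 32) : ℝ)) ^ 2 = (P : ℝ) ^ (-(1 / 16) : ℝ) := by
        rw [← Real.rpow_natCast, ← Real.rpow_mul hPr.le]
        norm_num
      rw [hτ, mul_pow, mul_pow, this]
      ring
    have h6 : (P : ℝ) ^ (1 / 8 : ℝ) ≤ P * (P : ℝ) ^ (-(1 / 16) : ℝ) := by
      nth_rewrite 2 [← Real.rpow_one (P : ℝ)]
      rw [← Real.rpow_add hPr]
      exact Real.rpow_le_rpow_of_exponent_le (by linarith) (by norm_num)
    calc (C * (X / √(P : ℝ)) * L ^ 4) ^ 2 * (X * (Real.log M) ^ 2) / τ ^ 2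
        ≤ (C * (X / √(P : ℝ)) * L ^ 4) ^ 2 * (X * (2 * L) ^ 2) / τ ^ 2 := by gcongr
      _ = 16 * C ^ 2 / c ^ 2 * (X * L ^ 10 / (P * (P : ℝ) ^ (-(1 / 16) : ℝ))) := by
          rw [h5, mul_pow, mul_pow, div_pow, h4]
          field_simp
          ring
      _ ≤ 16 * C ^ 2 / c ^ 2 * (X * L ^ 10 / (P : ℝ) ^ (1 / 8 : ℝ)) := by gcongr
  have hT2 : ((M + X : ℕ) : ℝ) * (1 + Real.log ((M + X : ℕ) : ℝ)) / (P : ℝ) ^ (1 / 8 : ℝ)
      ≤ 6 * (X * L ^ 10 / (P : ℝ) ^ (1 / 8 : ℝ)) := by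
    rw [← mul_div_assoc]
    apply div_le_div_of_nonneg_right _ hP8.le
    have h3 : ((M + X : ℕ) : ℝ) ≤ 2 * (X * L ^ 2) := by
      push_cast
      have h4 : (1 : ℝ) ≤ L ^ 2 := one_le_pow₀ hL1
      have h5 : (X : ℝ) ≤ X * L ^ 2 := le_mul_of_one_le_right hX0.le h4
      linarith
    have h4 : 1 + Real.log ((M + X : ℕ) : ℝ) ≤ 3 * L := by linarith
    have h5 : 0 ≤ 1 + Real.log ((M + X : ℕ) : ℝ) := by
      have : 0 ≤ Real.log ((M + X : ℕ) : ℝ) := Real.log_nonneg (by push_cast; linarith)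
      linarith
    calc ((M + X : ℕ) : ℝ) * (1 + Real.log ((M + X : ℕ) : ℝ)) ≤ 2 * (X * L ^ 2) * (3 * L) :=
          mul_le_mul h3 h4 h5 (by positivity)
      _ = 6 * (X * L ^ 3) := by ring
      _ ≤ 6 * (X * L ^ 10) := by
          have : L ^ 3 ≤ L ^ 10 := pow_le_pow_right₀ hL1 (by norm_num)
          gcongr
  have hfin : K * (X * L ^ 10 / (P : ℝ) ^ (1 / 8 : ℝ)) ≤ (X : ℝ) ^ (1 - θ / 128) := by
    have h3 : (X : ℝ) ^ (θ / 64) ≤ (P : ℝ) ^ (1 / 8 : ℝ) := by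
      have : (X : ℝ) ^ (θ / 64) = ((X : ℝ) ^ (θ / 8)) ^ (1 / 8 : ℝ) := by
        rw [← Real.rpow_mul hX0.le]
        congr 1
        ring
      rw [this]
      exact Real.rpow_le_rpow (by positivity) hPlow (by norm_num)
    have h4 : K * L ^ 10 ≤ (X : ℝ) ^ (θ / 128) := by
      rw [one_div, inv_mul_eq_div, le_div_iff₀ hK0] at h10
      linarith
    calc K * (X * L ^ 10 / (P : ℝ) ^ (1 / 8 : ℝ)) ≤ K * (X * L ^ 10 / (X : ℝ) ^ (θ / 64)) := by gcongr
      _ = X * (K * L ^ 10) / (X : ℝ) ^ (θ / 64) := by ring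
      _ ≤ X * (X : ℝ) ^ (θ / 128) / (X : ℝ) ^ (θ / 64) := by gcongr
      _ = (X : ℝ) ^ (1 - θ / 128) := by
          nth_rewrite 1 [← Real.rpow_one (X : ℝ)]
          rw [← Real.rpow_add hX0, ← Real.rpow_sub hX0]
          congr 1
          ring
  calc _ ≤ 16 * C ^ 2 / c ^ 2 * (X * L ^ 10 / (P : ℝ) ^ (1 / 8 : ℝ))
        + 6 * (X * L ^ 10 / (P : ℝ) ^ (1 / 8 : ℝ)) := add_le_add hT1 hT2
    _ = K * (X * L ^ 10 / (P : ℝ) ^ (1 / 8 : ℝ)) := by rw [hK]; ring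
    _ ≤ _ := hfin

end Pool.Agent.PS
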