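import Pool.Agent.Work.PS.WS3
import Pool.Agent.Work.PS.InterfaceB

/-!
# PS, block WS: choice of the parameters
-/

set_option autoImplicit false

namespace Pool.Agent.PS

open Finset ArithmeticFunction Metric
open scoped Classical

/-- The numerical inequality. -/
theorem ws_num (C b X v Z : ℝ) (hC : 1 ≤ C) (hb : 100 ≤ b) (hbC : 10 * C ≤ b) (hX : b ^ 2600 ≤ X)
    (hv : 1 ≤ v) (hvX : v ≤ X * b) (hZ : Z = b ^ 24) :
    C * (v * Z ^ (-(1 / 3) : ℝ) + Z ^ 5 * v ^ (19 / 20 : ℝ)) + 2 * √v * Real.log v + (1 + v / Z)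
      ≤ X / b ^ 6 := by
  have hb0 : 0 < b := by linarith
  have hb1 : 1 ≤ b := by linarith
  have hX0 : 0 < X := lt_of_lt_of_le (by positivity) hX
  have hX1 : 1 ≤ X := le_trans (one_le_pow₀ hb1) hX
  have hv0 : 0 < v := by linarith
  have hZpos : 0 < Z := by rw [hZ]; positivity
  set T : ℝ := X / b ^ 6 with hT
  have hT0 : 0 < T := by positivity
  have hXT : X = T * b ^ 6 := by rw [hT]; field_simp
  -- roots of X
  have hroot : ∀ n : ℕ, 0 < n → n ≤ 20 → b ^ 130 ≤ X ^ (1 / (n : ℝ)) := by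
    intro n hn hn20
    have h1 : (b ^ 130 : ℝ) = ((b ^ 130) ^ n) ^ (1 / (n : ℝ)) := by
      rw [← Real.rpow_natCast (b ^ 130) n, ← Real.rpow_mul (by positivity)]
      have : (n : ℝ) * (1 / n) = 1 := by field_simp
      rw [this, Real.rpow_one]
    rw [h1]
    apply Real.rpow_le_rpow (by positivity) _ (by positivity)
    refine le_trans ?_ hX
    rw [← pow_mul]
    apply pow_le_pow_right₀ hb1
    nlinarith
  have hfr : ∀ n : ℕ, 0 < n → n ≤ 20 → v ^ (1 - 1 / (n : ℝ)) ≤ X / b ^ 129 := by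
    intro n hn hn20
    have hn1 : (1 : ℝ) ≤ n := by exact_mod_cast hn
    have hexp : 0 ≤ 1 - 1 / (n : ℝ) := by
      have : 1 / (n : ℝ) ≤ 1 := by rw [div_le_one (by linarith)]; exact hn1
      linarith
    have hexp1 : 1 - 1 / (n : ℝ) ≤ 1 := by
      have : 0 ≤ 1 / (n : ℝ) := by positivity
      linarith
    have h1 : v ^ (1 - 1 / (n : ℝ)) ≤ (X * b) ^ (1 - 1 / (n : ℝ)) :=
      Real.rpow_le_rpow hv0.le hvX hexp
    refine h1.trans ?_
    rw [Real.mul_rpow hX0.le hb0.le]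
    have h2 : b ^ (1 - 1 / (n : ℝ)) ≤ b := by
      calc b ^ (1 - 1 / (n : ℝ)) ≤ b ^ (1 : ℝ) := Real.rpow_le_rpow_of_exponent_le hb1 hexp1
        _ = b := Real.rpow_one b
    have h3 : X ^ (1 - 1 / (n : ℝ)) ≤ X / b ^ 130 := by
      rw [Real.rpow_sub hX0, Real.rpow_one]
      exact div_le_div_of_nonneg_left hX0.le (by positivity) (hroot n hn hn20)
    calc X ^ (1 - 1 / (n : ℝ)) * b ^ (1 - 1 / (n : ℝ)) ≤ X / b ^ 130 * b :=
          mul_le_mul h3 h2 (by positivity) (by positivity)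
      _ = X / b ^ 129 := by
          rw [pow_succ b 129]
          field_simp
  have hZ1 : Z ^ (-(1 / 3) : ℝ) = 1 / b ^ 8 := by
    rw [hZ, ← Real.rpow_natCast b 24, ← Real.rpow_mul hb0.le]
    have : ((24 : ℕ) : ℝ) * (-(1 / 3)) = -((8 : ℕ) : ℝ) := by norm_num
    rw [this, Real.rpow_neg hb0.le, Real.rpow_natCast, one_div]
  have t1 : C * (v * Z ^ (-(1 / 3) : ℝ)) ≤ T / 10 := by
    rw [hZ1]
    calc C * (v * (1 / b ^ 8)) ≤ (b / 10) * ((X * b) * (1 / b ^ 8)) := by
          apply mul_le_mul _ _ (by positivity) (by positivity)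
          · linarith
          · exact mul_le_mul_of_nonneg_right hvX (by positivity)
      _ = T / 10 := by
          rw [hXT]
          field_simp
  have t2 : C * (Z ^ 5 * v ^ (19 / 20 : ℝ)) ≤ T / 10 := by
    have h1 := hfr 20 (by norm_num) (by norm_num)
    have h2 : (1 : ℝ) - 1 / ((20 : ℕ) : ℝ) = 19 / 20 := by norm_num
    rw [h2] at h1
    calc C * (Z ^ 5 * v ^ (19 / 20 : ℝ)) ≤ (b / 10) * (Z ^ 5 * (X / b ^ 129)) := by
          apply mul_le_mul _ _ (by positivity) (by positivity)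
          · linarith
          · exact mul_le_mul_of_nonneg_left h1 (by rw [hZ]; positivity)
      _ = T / 10 / b ^ 2 := by
          rw [hZ, hXT]
          field_simp
      _ ≤ T / 10 := div_le_self (by positivity) (one_le_pow₀ hb1)
  have t3 : 2 * √v * Real.log v ≤ T / 10 := by
    have h1 := hfr 4 (by norm_num) (by norm_num)
    have h2 : (1 : ℝ) - 1 / ((4 : ℕ) : ℝ) = 3 / 4 := by norm_num
    rw [h2] at h1
    have h3 : Real.log v ≤ 4 * v ^ (1 / 4 : ℝ) := by
      have := Real.log_le_rpow_div hv0.le (show (0 : ℝ) < 1 / 4 by norm_num)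
      linarith
    have h4 : √v * v ^ (1 / 4 : ℝ) = v ^ (3 / 4 : ℝ) := by
      rw [Real.sqrt_eq_rpow, ← Real.rpow_add hv0]
      norm_num
    calc 2 * √v * Real.log v ≤ 2 * √v * (4 * v ^ (1 / 4 : ℝ)) := by gcongr
      _ = 8 * v ^ (3 / 4 : ℝ) := by rw [← h4]; ring
      _ ≤ 8 * (X / b ^ 129) := by linarith
      _ = 8 * T / b ^ 123 := by
          rw [hXT]
          field_simp
      _ ≤ T / 10 := by
          rw [div_le_iff₀ (by positivity)]
          have : (80 : ℝ) ≤ b ^ 123 := by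
            calc (80 : ℝ) ≤ b := by linarith
              _ = b ^ 1 := (pow_one b).symm
              _ ≤ b ^ 123 := pow_le_pow_right₀ hb1 (by norm_num)
          nlinarith
  have t4 : (1 : ℝ) ≤ T / 10 := by
    rw [le_div_iff₀ (by norm_num), one_mul, hT, le_div_iff₀ (by positivity)]
    calc (10 : ℝ) * b ^ 6 ≤ b * b ^ 6 := by gcongr; linarith
      _ = b ^ 7 := by ring
      _ ≤ b ^ 2600 := pow_le_pow_right₀ hb1 (by norm_num)
      _ ≤ X := hX
  have t5 : v / Z ≤ T / 10 := by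
    calc v / Z ≤ (X * b) / b ^ 24 := by rw [hZ]; gcongr
      _ = T / b ^ 17 := by
          rw [hXT]
          field_simp
      _ ≤ T / 10 := by
          apply div_le_div_of_nonneg_left hT0.le (by norm_num)
          calc (10 : ℝ) ≤ b := by linarith
            _ = b ^ 1 := (pow_one b).symm
            _ ≤ b ^ 17 := pow_le_pow_right₀ hb1 (by norm_num)
  have : C * (v * Z ^ (-(1 / 3) : ℝ) + Z ^ 5 * v ^ (19 / 20 : ℝ))
      = C * (v * Z ^ (-(1 / 3) : ℝ)) + C * (Z ^ 5 * v ^ (19 / 20 : ℝ)) := by ring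
  rw [this]
  linarith

theorem stmt_WSB (hZSP : Stmt_ZSPEC) (hZS : Stmt_ZS) (hEF : Stmt_EF) (hG : Stmt_GALD)
    (hS : Stmt_SIEG) : Stmt_WSB := by
  intro ε hε
  obtain ⟨κ, hκ, Z0, hzs⟩ := hZS (ε / 24) (by positivity)
  obtain ⟨C, hC, hef⟩ := hEF
  obtain ⟨c, hc, hsieg⟩ := hS (1 / 16) (by norm_num)
  set θ : ℝ := min (κ / 100) (1 / 2600) with hθ
  have hθ0 : 0 < θ := lt_min (by positivity) (by norm_num)
  have hθκ : θ ≤ κ / 100 := min_le_left _ _
  have hθ1 : θ ≤ 1 / 2600 := min_le_right _ _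
  refine ⟨θ, hθ0, by linarith, ?_⟩
  -- large X
  have htend : Filter.Tendsto (fun X : ℕ => (X : ℝ) ^ (θ / 8)) Filter.atTop Filter.atTop :=
    (tendsto_rpow_atTop (by positivity)).comp tendsto_natCast_atTop_atTop
  have htlog : Filter.Tendsto (fun X : ℕ => Real.log (X : ℝ)) Filter.atTop Filter.atTop :=
    Real.tendsto_log_atTop.comp tendsto_natCast_atTop_atTop
  set B : ℝ := max (max 100 (10 * C)) (max (max (C + Z0) (48 / ε + 3)) 8) with hB
  set L0 : ℝ := max (max (1 / (72 * θ ^ 2)) ((1 / c + 1 / ε + 1) / (c * (12 * θ)))) 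
    (max (10 / (12 * θ)) 2) with hL0
  obtain ⟨X1, hX1⟩ := Filter.eventually_atTop.1 (htend.eventually_ge_atTop B)
  obtain ⟨X2, hX2⟩ := Filter.eventually_atTop.1 (htlog.eventually_ge_atTop L0)
  refine ⟨max X1 (max X2 16), fun X hX => ?_⟩
  have hXB : B ≤ (X : ℝ) ^ (θ / 8) := hX1 X ((le_max_left _ _).trans hX)
  have hXL : L0 ≤ Real.log X := hX2 X ((le_max_left _ _).trans ((le_max_right _ _).trans hX))
  have hX16 : 16 ≤ X := (le_max_right _ _).trans ((le_max_right _ _).trans hX)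
  have hXr : (16 : ℝ) ≤ X := by exact_mod_cast hX16
  have hX0 : (0 : ℝ) < X := by linarith
  have hB100 : 100 ≤ B := (le_max_left _ _).trans (le_max_left _ _)
  have hBC : 10 * C ≤ B := (le_max_right _ _).trans (le_max_left _ _)
  have hBZ : C + Z0 ≤ B := (le_max_left _ _).trans ((le_max_left _ _).trans (le_max_right _ _))
  have hBε : 48 / ε + 3 ≤ B := (le_max_right _ _).trans ((le_max_left _ _).trans (le_max_right _ _))
  set t : ℝ := (X : ℝ) ^ (θ / 8) with ht
  have ht100 : 100 ≤ t := hB100.trans hXB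
  have htθ : (X : ℝ) ^ θ = t ^ 8 := by
    rw [ht, ← Real.rpow_natCast, ← Real.rpow_mul hX0.le]
    congr 1
    push_cast
    ring
  set P1 := ⌊(X : ℝ) ^ θ⌋₊ with hP1
  have hP1le : (P1 : ℝ) ≤ (X : ℝ) ^ θ := Nat.floor_le (by positivity)
  have hP1ge : t ^ 8 - 1 ≤ P1 := by
    have := Nat.lt_floor_add_one ((X : ℝ) ^ θ)
    rw [htθ] at this
    rw [hP1, htθ]
    linarith
  have ht8 : t ^ 7 ≤ t ^ 8 - 1 := by
    have h1 : 1 ≤ t ^ 7 := one_le_pow₀ (by linarith)
    have h2 : t ^ 8 = t * t ^ 7 := by ring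
    have h3 : 2 * t ^ 7 ≤ t * t ^ 7 := mul_le_mul_of_nonneg_right (by linarith) (by linarith)
    rw [h2]
    linarith
  have hP1t7 : t ^ 7 ≤ P1 := ht8.trans hP1ge
  have htP1 : t ≤ P1 := by
    refine le_trans ?_ hP1t7
    calc t = t ^ 1 := (pow_one t).symm
      _ ≤ t ^ 7 := pow_le_pow_right₀ (by linarith) (by norm_num)
  have hP1r : 100 ≤ (P1 : ℝ) := ht100.trans htP1
  have hP1B : B ≤ P1 := hXB.trans htP1
  have hP1X : (P1 : ℝ) ^ 2600 ≤ X := by
    calc (P1 : ℝ) ^ 2600 ≤ ((X : ℝ) ^ θ) ^ 2600 := by gcongr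
      _ = (X : ℝ) ^ (θ * 2600) := by
          rw [← Real.rpow_natCast, ← Real.rpow_mul hX0.le]
          norm_num
      _ ≤ (X : ℝ) ^ (1 : ℝ) := by
          apply Real.rpow_le_rpow_of_exponent_le (by linarith)
          linarith
      _ = X := Real.rpow_one _
  have hP1pos : 1 ≤ P1 := by
    have : (1 : ℝ) ≤ P1 := by linarith
    exact_mod_cast this
  have h8P1X : 8 * P1 ≤ X := by
    have h1 : 8 * (P1 : ℝ) ≤ X := by
      refine le_trans ?_ hP1X
      calc 8 * (P1 : ℝ) ≤ P1 * P1 := mul_le_mul_of_nonneg_right (by linarith) (by linarith)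
        _ = (P1 : ℝ) ^ 2 := by ring
        _ ≤ (P1 : ℝ) ^ 2600 := pow_le_pow_right₀ (by linarith) (by norm_num)
    exact_mod_cast h1
  set Z := P1 ^ 24 with hZ
  have hZr : (Z : ℝ) = (P1 : ℝ) ^ 24 := by rw [hZ]; push_cast; rfl
  have hP1Z : P1 ≤ Z := by
    rw [hZ]
    exact Nat.le_self_pow (by norm_num) _
  have hP1Zr : (P1 : ℝ) ≤ Z := by exact_mod_cast hP1Z
  have hZ1 : 1 ≤ Z := hP1pos.trans hP1Z
  have hCZ : C ≤ Z := by
    have : (0 : ℝ) ≤ Z0 := Nat.cast_nonneg _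
    linarith
  have hZ0 : Z0 ≤ Z := by
    have : (Z0 : ℝ) ≤ Z := by linarith
    exact_mod_cast this
  -- log Z
  have hlogt : Real.log t = θ / 8 * Real.log X := Real.log_rpow hX0 _
  have hlogP1 : θ / 2 * Real.log X ≤ Real.log P1 := by
    have h1 : Real.log (t ^ 7) ≤ Real.log P1 := Real.log_le_log (by positivity) hP1t7
    rw [Real.log_pow, hlogt] at h1
    have h2 : 0 ≤ Real.log X := Real.log_nonneg (by linarith)
    push_cast at h1
    have h3 : 0 ≤ θ * Real.log X := mul_nonneg hθ0.le h2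
    have h4 : 7 * (θ / 8 * Real.log X) = 7 / 8 * (θ * Real.log X) := by ring
    have h5 : θ / 2 * Real.log X = 1 / 2 * (θ * Real.log X) := by ring
    rw [h4] at h1
    rw [h5]
    linarith
  have hlogZ : 12 * θ * Real.log X ≤ Real.log Z := by
    rw [hZr, Real.log_pow]
    push_cast
    linarith
  have hL1 : 1 / (72 * θ ^ 2) ≤ Real.log X := ((le_max_left _ _).trans (le_max_left _ _)).trans hXL
  have hL2 : (1 / c + 1 / ε + 1) / (c * (12 * θ)) ≤ Real.log X :=
    ((le_max_right _ _).trans (le_max_left _ _)).trans hXL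
  have hL3 : 10 / (12 * θ) ≤ Real.log X := ((le_max_left _ _).trans (le_max_right _ _)).trans hXL
  have hL4 : 2 ≤ Real.log X := ((le_max_right _ _).trans (le_max_right _ _)).trans hXL
  have hlogZ10 : 10 ≤ Real.log Z := by
    rw [div_le_iff₀ (by positivity)] at hL3
    linarith
  have hclogZ : 1 / c + 1 / ε + 1 ≤ c * Real.log Z := by
    rw [div_le_iff₀ (by positivity)] at hL2
    calc 1 / c + 1 / ε + 1 ≤ Real.log X * (c * (12 * θ)) := hL2
      _ = c * (12 * θ * Real.log X) := by ring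
      _ ≤ c * Real.log Z := mul_le_mul_of_nonneg_left hlogZ hc.le
  -- numerical hypotheses
  have hnum : ∀ P : ℕ, P ≤ P1 → ∀ v : ℝ, 1 ≤ v → v ≤ X * P →
      v ≤ Real.exp ((Real.log Z) ^ 2) ∧
      C * (v * (Z : ℝ) ^ (-(1 / 3) : ℝ) + (Z : ℝ) ^ 5 * v ^ (19 / 20 : ℝ))
          + 2 * √v * Real.log v + (1 + v / Z) ≤ X / (P1 : ℝ) ^ 6 := by
    intro P hP v hv hvX
    have hPr : (P : ℝ) ≤ P1 := by exact_mod_cast hP
    have hvX1 : v ≤ X * P1 := hvX.trans (by gcongr)
    constructor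
    · have h1 : v ≤ (X : ℝ) * X := by
        refine hvX1.trans ?_
        have : (P1 : ℝ) ≤ X := by
          have : (8 * P1 : ℝ) ≤ X := by exact_mod_cast h8P1X
          linarith
        gcongr
      have h2 : (X : ℝ) * X = Real.exp (2 * Real.log X) := by
        rw [two_mul, Real.exp_add, Real.exp_log hX0]
      rw [h2] at h1
      refine h1.trans (Real.exp_le_exp.2 ?_)
      rw [div_le_iff₀ (by positivity)] at hL1
      have h3 : (12 * θ * Real.log X) ^ 2 ≤ (Real.log Z) ^ 2 := by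
        have : 0 ≤ 12 * θ * Real.log X := by positivity
        gcongr
      refine le_trans ?_ h3
      have h4 : (12 * θ * Real.log X) ^ 2 = 2 * Real.log X * (Real.log X * (72 * θ ^ 2)) := by ring
      rw [h4]
      have h5 : 0 ≤ 2 * Real.log X := by linarith
      exact le_mul_of_one_le_right h5 hL1
    · exact ws_num C P1 X v Z hC hP1r (hBC.trans hP1B) hP1X hv hvX1 hZr
  have hEFZ := hef Z hCZ
  -- the bound for the zero sums
  have hY1 : (1 : ℝ) ≤ X / 4 := by linarith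
  have hZY : (Z : ℝ) ≤ ((X : ℝ) / 4) ^ κ := by
    have h1 : (Z : ℝ) ≤ (X : ℝ) ^ (κ / 4) := by
      rw [hZr]
      calc (P1 : ℝ) ^ 24 ≤ ((X : ℝ) ^ θ) ^ 24 := by gcongr
        _ = (X : ℝ) ^ (θ * 24) := by
            rw [← Real.rpow_natCast, ← Real.rpow_mul hX0.le]
            norm_num
        _ ≤ (X : ℝ) ^ (κ / 4) := by
            apply Real.rpow_le_rpow_of_exponent_le (by linarith)
            linarith
    refine h1.trans ?_
    have h2 : (X : ℝ) ^ (κ / 4) = ((X : ℝ) ^ (1 / 4 : ℝ)) ^ κ := by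
      rw [← Real.rpow_mul hX0.le]
      congr 1
      ring
    rw [h2]
    apply Real.rpow_le_rpow (by positivity) _ hκ.le
    have h3 : (4 : ℝ) ≤ (X : ℝ) ^ (1 / 2 : ℝ) := by
      have : (4 : ℝ) = (16 : ℝ) ^ (1 / 2 : ℝ) := by
        rw [← Real.sqrt_eq_rpow]
        have : (16 : ℝ) = 4 ^ 2 := by norm_num
        rw [this, Real.sqrt_sq (by norm_num)]
      rw [this]
      exact Real.rpow_le_rpow (by norm_num) hXr (by norm_num)
    have h4 : (X : ℝ) ^ (1 / 4 : ℝ) * (X : ℝ) ^ (3 / 4 : ℝ) = X := by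
      rw [← Real.rpow_add hX0]
      norm_num
    have h5 : (X : ℝ) ^ (1 / 2 : ℝ) ≤ (X : ℝ) ^ (3 / 4 : ℝ) :=
      Real.rpow_le_rpow_of_exponent_le (by linarith) (by norm_num)
    have h6 : 0 < (X : ℝ) ^ (1 / 4 : ℝ) := by positivity
    rw [le_div_iff₀ (by norm_num)]
    calc (X : ℝ) ^ (1 / 4 : ℝ) * 4 ≤ (X : ℝ) ^ (1 / 4 : ℝ) * (X : ℝ) ^ (3 / 4 : ℝ) :=
          mul_le_mul_of_nonneg_left (h3.trans h5) h6.le
      _ = X := h4
  -- sum over a subfamily
  have hsub : ∀ (P : ℕ) (E : Option (Ch × ℝ)), P ≤ P1 →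
      ∑ x ∈ Fam P, zs (lst Z E x) (X / 4) ≤ ∑ x ∈ Fam Z, zs (lst Z E x) (X / 4) := by
    intro P E hP
    exact sum_le_sum_of_subset_of_nonneg (Fam_mono (hP.trans hP1Z))
      fun x _ _ => zs_nonneg _ _ (by linarith)
  have h48 : 24 / (P1 : ℝ) ^ 3 ≤ ε / 2 * (1 / P1) := by
    have h1 : 48 / ε ≤ P1 := by linarith
    rw [div_le_iff₀ hε] at h1
    rw [div_le_iff₀ (by positivity)]
    have h2 : ε / 2 * (1 / (P1 : ℝ)) * (P1 : ℝ) ^ 3 = ε / 2 * (P1 : ℝ) ^ 2 := by
      field_simp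
    rw [h2]
    have h3 : (48 : ℝ) * 1 ≤ (P1 * ε) * P1 := mul_le_mul h1 (by linarith) zero_le_one (by positivity)
    have h4 : ε / 2 * (P1 : ℝ) ^ 2 = (P1 * ε) * P1 / 2 := by ring
    rw [h4]
    linarith
  have hsq0 : 0 ≤ √(X : ℝ) := Real.sqrt_nonneg _
  -- the final inequality
  have hfin : ∀ (P : ℕ) (E : Option (Ch × ℝ)), 1 ≤ P → P ≤ P1 →
      (∀ y δ, E = some (y, δ) → Exc Z y δ ∧ δ ≤ 1 / 10) →
      (∀ R H U V : ℕ, 0 < R → (H : ℝ) / R ≤ P / X → V + X < R → X ≤ 4 * U + 4 → U ≤ V →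
        V ≤ U + X → (V : ℝ) ≤ X * P →
        ∑ x ∈ Fam P, Wn R H (Ioc U V) (fun n => (th n : ℂ) * x.2 (n : ZMod x.1) - mt E x n)
          ≤ (12 * (∑ x ∈ Fam P, zs (lst Z E x) (X / 4)) + 24 / (P1 : ℝ) ^ 3) * √(X : ℝ)) := by
    intro P E hP hPP hE R H U V hR hHR hVR hXU hUV hVU hVX
    exact family_sum hZSP hG hZ1 hEFZ E hE X P P1 hP hPP hP1Z h8P1X (hnum P hPP) R H U V hR hHR hVR
      hXU hUV hVU hVX
  have hlamnone : lam none X = 1 := rfl
  have h1P1 : 1 / (P1 : ℝ) ≤ 1 := by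
    rw [div_le_one (by linarith)]
    linarith
  have hXθ : (X : ℝ) ^ (θ / 8) ≤ P1 := htP1
  rcases hzs Z hZ0 (X / 4) hY1 hZY with hN | ⟨y, δ, hexc, hδ, hsum⟩
  · -- no exceptional zero
    refine ⟨P1, none, hXθ, hP1le, fun y δ h => by simp at h, fun y δ h => by simp at h, ?_⟩
    intro R H U V hR hHR hVR hXU hUV hVU hVX
    refine (hfin P1 none hP1pos le_rfl (fun y δ h => by simp at h) R H U V hR hHR hVR hXU hUV hVU
      hVX).trans ?_
    have h1 : ∑ x ∈ Fam P1, zs (lst Z none x) (X / 4) ≤ ε / 24 := (hsub P1 none le_rfl).trans hN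
    rw [hlamnone]
    apply mul_le_mul_of_nonneg_right _ hsq0
    have h2 : ε / 2 * (1 / (P1 : ℝ)) ≤ ε / 2 := mul_le_of_le_one_right (by positivity) h1P1
    linarith
  · have hδ10 : δ ≤ 1 / 10 := by
      refine hδ.trans ?_
      apply one_div_le_one_div_of_le (by norm_num) hlogZ10
    have hlY : Real.log (X / 4 : ℝ) ≤ Real.log X := Real.log_le_log (by linarith) (by linarith)
    have hmin : min 1 (δ * Real.log (X / 4 : ℝ)) ≤ min 1 (δ * Real.log X) :=
      min_le_min_left _ (mul_le_mul_of_nonneg_left hlY hexc.pos.le)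
    have hsum' : ∑ x ∈ Fam Z, zs (zx Z y δ x) (X / 4) ≤ ε / 24 * min 1 (δ * Real.log X) :=
      hsum.trans (mul_le_mul_of_nonneg_left hmin (by positivity))
    by_cases hy : y.1 ^ 4 ≤ P1
    · -- exceptional zero with small conductor
      have hy0 : 0 < y.1 := (Fam_pos hexc.mem).1
      have hyr : (1 : ℝ) ≤ y.1 := by exact_mod_cast hy0
      have hyP1 : y.1 ≤ P1 := (Nat.le_self_pow (by norm_num) _).trans hy
      have hexc' : Exc P1 y δ := by
        refine ⟨?_, hexc.sq, hexc.ne, hexc.pos, hexc.zero⟩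
        have h1 := hexc.mem
        unfold Fam at h1 ⊢
        rw [mem_sigma, mem_Ioc] at h1 ⊢
        exact ⟨⟨hy0, hyP1⟩, h1.2⟩
      have hs := hsieg Z y δ hexc
      -- conductor is large
      have hw0 : 0 < (y.1 : ℝ) ^ (1 / 16 : ℝ) := by positivity
      have hlow : c * Real.log Z ≤ (y.1 : ℝ) ^ (1 / 16 : ℝ) := by
        have h1 : c * (y.1 : ℝ) ^ (-(1 / 16) : ℝ) ≤ 1 / Real.log Z := hs.trans hδ
        rw [Real.rpow_neg (by linarith), le_div_iff₀ (by linarith)] at h1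
        have h2 : c * ((y.1 : ℝ) ^ (1 / 16 : ℝ))⁻¹ * Real.log Z
            = c * Real.log Z / (y.1 : ℝ) ^ (1 / 16 : ℝ) := by
          field_simp
        rw [h2, div_le_iff₀ hw0, one_mul] at h1
        exact h1
      have hc1 : 0 < 1 / c := by positivity
      have hε1 : 0 < 1 / ε := by positivity
      have hyε : 1 / ε ≤ (y.1 : ℝ) := by
        have h1 : (y.1 : ℝ) ^ (1 / 16 : ℝ) ≤ (y.1 : ℝ) ^ (1 : ℝ) :=
          Real.rpow_le_rpow_of_exponent_le hyr (by norm_num)
        rw [Real.rpow_one] at h1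
        linarith
      have hyδ : (y.1 : ℝ) ^ (-(1 / 8) : ℝ) ≤ δ := by
        refine le_trans ?_ hs
        have h1 : (y.1 : ℝ) ^ (-(1 / 8) : ℝ)
            = ((y.1 : ℝ) ^ (1 / 16 : ℝ))⁻¹ * (y.1 : ℝ) ^ (-(1 / 16) : ℝ) := by
          rw [← Real.rpow_neg (by linarith), ← Real.rpow_add (by linarith)]
          norm_num
        rw [h1]
        apply mul_le_mul_of_nonneg_right _ (by positivity)
        rw [inv_le_comm₀ hw0 hc, ← one_div]
        linarith
      refine ⟨P1, some (y, δ), hXθ, hP1le, ?_, ?_, ?_⟩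
      · intro y' δ' h
        rw [Option.some.injEq, Prod.mk.injEq] at h
        obtain ⟨rfl, rfl⟩ := h
        exact ⟨hexc', hy, hyε, hyδ⟩
      · intro y' δ' h
        rw [Option.some.injEq, Prod.mk.injEq] at h
        obtain ⟨rfl, rfl⟩ := h
        have h1 : δ * Real.log Z ≤ 1 := by
          rw [le_div_iff₀ (by linarith)] at hδ
          exact hδ
        have h2 : δ * (12 * θ * Real.log X) ≤ δ * Real.log Z :=
          mul_le_mul_of_nonneg_left hlogZ hexc.pos.le
        have h3 : 0 ≤ θ * (δ * Real.log X) := by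
          have := hexc.pos
          have : 0 ≤ Real.log X := by linarith
          positivity
        have h4 : δ * (12 * θ * Real.log X) = 12 * (θ * (δ * Real.log X)) := by ring
        linarith
      intro R H U V hR hHR hVR hXU hUV hVU hVX
      refine (hfin P1 (some (y, δ)) hP1pos le_rfl ?_ R H U V hR hHR hVR hXU hUV hVU hVX).trans ?_
      · intro y' δ' h
        rw [Option.some.injEq, Prod.mk.injEq] at h
        obtain ⟨rfl, rfl⟩ := h
        exact ⟨hexc, hδ10⟩
      have h1 : ∑ x ∈ Fam P1, zs (lst Z (some (y, δ)) x) (X / 4)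
          ≤ ε / 24 * min 1 (δ * Real.log X) := (hsub P1 (some (y, δ)) le_rfl).trans hsum'
      have hlam : lam (some (y, δ)) X = min 1 (δ * Real.log X) := rfl
      have hlamge : 1 / (P1 : ℝ) ≤ min 1 (δ * Real.log X) := by
        apply le_min h1P1
        have h2 : δ ≤ δ * Real.log X := le_mul_of_one_le_right hexc.pos.le (by linarith)
        refine le_trans ?_ h2
        refine le_trans ?_ hyδ
        have h3 : (y.1 : ℝ) ≤ P1 := by exact_mod_cast hyP1
        calc 1 / (P1 : ℝ) = (P1 : ℝ) ^ (-1 : ℝ) := by rw [Real.rpow_neg_one, one_div]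
          _ ≤ (P1 : ℝ) ^ (-(1 / 8) : ℝ) :=
              Real.rpow_le_rpow_of_exponent_le (by linarith) (by norm_num)
          _ ≤ (y.1 : ℝ) ^ (-(1 / 8) : ℝ) :=
              Real.rpow_le_rpow_of_nonpos (by linarith) h3 (by norm_num)
      rw [hlam]
      apply mul_le_mul_of_nonneg_right _ hsq0
      have h2 : ε / 2 * (1 / (P1 : ℝ)) ≤ ε / 2 * min 1 (δ * Real.log X) :=
        mul_le_mul_of_nonneg_left hlamge (by positivity)
      linarith
    · -- exceptional zero with large conductor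
      push Not at hy
      set P := Nat.sqrt (Nat.sqrt P1) with hP
      have hP4 : P ^ 4 ≤ P1 := by
        have h1 : P ^ 2 ≤ Nat.sqrt P1 := by rw [hP]; exact Nat.sqrt_le' _
        have h2 : (Nat.sqrt P1) ^ 2 ≤ P1 := Nat.sqrt_le' _
        calc P ^ 4 = (P ^ 2) ^ 2 := by ring
          _ ≤ (Nat.sqrt P1) ^ 2 := Nat.pow_le_pow_left h1 2
          _ ≤ P1 := h2
      have hP4' : P1 < (P + 1) ^ 4 := by
        have h1 : Nat.sqrt P1 < (P + 1) ^ 2 := by rw [hP]; exact Nat.lt_succ_sqrt' _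
        have h2 : P1 < (Nat.sqrt P1 + 1) ^ 2 := Nat.lt_succ_sqrt' _
        calc P1 < (Nat.sqrt P1 + 1) ^ 2 := h2
          _ ≤ ((P + 1) ^ 2) ^ 2 := Nat.pow_le_pow_left h1 2
          _ = (P + 1) ^ 4 := by ring
      have hPy : P < y.1 := by
        by_contra hcon
        push Not at hcon
        have := Nat.pow_le_pow_left hcon 4
        omega
      have htP : t ≤ P := by
        by_contra hcon
        push Not at hcon
        have h1 : (P1 : ℝ) < ((P : ℝ) + 1) ^ 4 := by exact_mod_cast hP4'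
        have h2 : ((P : ℝ) + 1) ^ 4 ≤ (t + 1) ^ 4 := by gcongr
        have h3 : (t + 1) ^ 4 ≤ (2 * t) ^ 4 := by
          have : (1 : ℝ) ≤ t := by linarith
          gcongr
          linarith
        have h4 : (2 * t) ^ 4 = 16 * t ^ 4 := by ring
        have h5 : (16 : ℝ) * t ^ 4 ≤ t ^ 7 := by
          have h6 : t ^ 7 = t ^ 3 * t ^ 4 := by ring
          rw [h6]
          have h7 : (16 : ℝ) ≤ t ^ 3 := by
            calc (16 : ℝ) ≤ t := by linarith
              _ = t ^ 1 := (pow_one t).symm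
              _ ≤ t ^ 3 := pow_le_pow_right₀ (by linarith) (by norm_num)
          gcongr
        linarith
      have hPpos : 1 ≤ P := by
        have : (1 : ℝ) ≤ P := by linarith
        exact_mod_cast this
      have hPP1 : P ≤ P1 := (Nat.le_self_pow (by norm_num) _).trans hP4
      have hPP1r : (P : ℝ) ≤ P1 := by exact_mod_cast hPP1
      refine ⟨P, none, htP, hPP1r.trans hP1le, fun y δ h => by simp at h,
        fun y δ h => by simp at h, ?_⟩
      intro R H U V hR hHR hVR hXU hUV hVU hVX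
      refine (hfin P none hPpos hPP1 (fun y δ h => by simp at h) R H U V hR hHR hVR hXU hUV hVU
        hVX).trans ?_
      have h0 : ∑ x ∈ Fam P, zs (lst Z none x) (X / 4) = ∑ x ∈ Fam P, zs (zx Z y δ x) (X / 4) := by
        refine sum_congr rfl fun x hx => ?_
        have hxy : x ≠ y := by
          intro h
          rw [h] at hx
          have := (Fam_pos hx).2
          omega
        have : lst Z none x = zx Z y δ x := by
          unfold lst zx
          rw [if_neg hxy]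
        rw [this]
      have h1 : ∑ x ∈ Fam P, zs (lst Z none x) (X / 4) ≤ ε / 24 := by
        rw [h0]
        refine (hsub P (some (y, δ)) hPP1).trans (hsum'.trans ?_)
        have : min 1 (δ * Real.log X) ≤ 1 := min_le_left _ _
        exact mul_le_of_le_one_right (by positivity) this
      rw [hlamnone]
      apply mul_le_mul_of_nonneg_right _ hsq0
      have h2 : ε / 2 * (1 / (P1 : ℝ)) ≤ ε / 2 := mul_le_of_le_one_right (by positivity) h1P1
      linarith

theorem stmt_WS (hZSP : Stmt_ZSPEC) (hZS : Stmt_ZS) (hEF : Stmt_EF) (hG : Stmt_GALD)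
    (hS : Stmt_SIEG) : Stmt_WS := by
  intro ε hε
  obtain ⟨θ, h1, h2, X0, h3⟩ := stmt_WSB hZSP hZS hEF hG hS ε hε
  refine ⟨θ, h1, h2, X0, fun X hX => ?_⟩
  obtain ⟨P, E, a1, a2, a3, _, a5⟩ := h3 X hX
  exact ⟨P, E, a1, a2, a3, a5⟩

end Pool.Agent.PS
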