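import Pool.Agent.Work.PS.FB

/-!
# PS, blocks ZCNT and GBD: crude count of zeros, and the logarithmic derivative of the cofactor
-/

set_option autoImplicit false

namespace Pool.Agent.PS

open Finset Metric DirichletCharacter Complex Filter
open Pool.Agent.Work.MP_b0c12c_nt_helper70
open scoped Classical Topology

/-! ### lists -/

theorem length_le_cover {ι : Type*} (L : List ℂ) (S : Finset ι) (p : ι → ℂ → Prop)
    (h : ∀ ρ ∈ L, ∃ k ∈ S, p k ρ) : L.length ≤ ∑ k ∈ S, (L.filter fun ρ => p k ρ).length := by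
  induction L with
  | nil => simp
  | cons a L ih =>
    have h1 := ih fun ρ hρ => h ρ (List.mem_cons_of_mem _ hρ)
    obtain ⟨k, hk, hpk⟩ := h a List.mem_cons_self
    have h2 : ∀ i ∈ S, (L.filter fun ρ => p i ρ).length ≤ ((a :: L).filter fun ρ => p i ρ).length := by
      intro i _
      exact ((List.sublist_cons_self a L).filter _).length_le
    have h3 : (L.filter fun ρ => p k ρ).length < ((a :: L).filter fun ρ => p k ρ).length := by
      rw [List.filter_cons_of_pos (by simpa using hpk), List.length_cons]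
      exact Nat.lt_succ_self _
    have h4 := Finset.sum_lt_sum h2 ⟨k, hk, h3⟩
    rw [List.length_cons]
    omega

theorem norm_list_sum_le (L : List ℂ) (F : ℂ → ℂ) {B : ℝ} (h : ∀ ρ ∈ L, ‖F ρ‖ ≤ B) :
    ‖(L.map F).sum‖ ≤ L.length * B := by
  induction L with
  | nil => simp
  | cons a L ih =>
    rw [List.map_cons, List.sum_cons, List.length_cons]
    have h1 := ih fun ρ hρ => h ρ (List.mem_cons_of_mem _ hρ)
    have h2 := h a List.mem_cons_self
    refine (norm_add_le _ _).trans ?_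
    push_cast
    linarith

theorem list_sum_sub (L : List ℂ) (F : ℂ → ℂ) (p q : ℂ → Prop) :
    ((L.filter fun ρ => p ρ).map F).sum - ((L.filter fun ρ => q ρ).map F).sum =
      ((L.filter fun ρ => p ρ ∧ ¬ q ρ).map F).sum - ((L.filter fun ρ => q ρ ∧ ¬ p ρ).map F).sum := by
  induction L with
  | nil => simp
  | cons a L ih =>
    by_cases hp : p a <;> by_cases hq : q a
    · rw [List.filter_cons_of_pos (p := fun ρ => decide (p ρ)) (by simpa using hp),
        List.filter_cons_of_pos (p := fun ρ => decide (q ρ)) (by simpa using hq),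
        List.filter_cons_of_neg (p := fun ρ => decide (p ρ ∧ ¬ q ρ)) (by simp [hq]),
        List.filter_cons_of_neg (p := fun ρ => decide (q ρ ∧ ¬ p ρ)) (by simp [hp]),
        List.map_cons, List.map_cons, List.sum_cons, List.sum_cons, ← ih]
      ring
    · rw [List.filter_cons_of_pos (p := fun ρ => decide (p ρ)) (by simpa using hp),
        List.filter_cons_of_neg (p := fun ρ => decide (q ρ)) (by simpa using hq),
        List.filter_cons_of_pos (p := fun ρ => decide (p ρ ∧ ¬ q ρ)) (by simp [hp, hq]),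
        List.filter_cons_of_neg (p := fun ρ => decide (q ρ ∧ ¬ p ρ)) (by simp [hp]),
        List.map_cons, List.map_cons, List.sum_cons, List.sum_cons, add_sub_assoc, add_sub_assoc,
        ← ih]
    · rw [List.filter_cons_of_neg (p := fun ρ => decide (p ρ)) (by simpa using hp),
        List.filter_cons_of_pos (p := fun ρ => decide (q ρ)) (by simpa using hq),
        List.filter_cons_of_neg (p := fun ρ => decide (p ρ ∧ ¬ q ρ)) (by simp [hp]),
        List.filter_cons_of_pos (p := fun ρ => decide (q ρ ∧ ¬ p ρ)) (by simp [hp, hq]),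
        List.map_cons, List.map_cons, List.sum_cons, List.sum_cons]
      linear_combination ih
    · rw [List.filter_cons_of_neg (p := fun ρ => decide (p ρ)) (by simpa using hp),
        List.filter_cons_of_neg (p := fun ρ => decide (q ρ)) (by simpa using hq),
        List.filter_cons_of_neg (p := fun ρ => decide (p ρ ∧ ¬ q ρ)) (by simp [hp]),
        List.filter_cons_of_neg (p := fun ρ => decide (q ρ ∧ ¬ p ρ)) (by simp [hq]), ih]

/-! ### the local data -/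

theorem mem_Fam {Z : ℕ} {x : Ch} (hx : x ∈ Fam Z) : 0 < x.1 ∧ x.1 ≤ Z := by
  unfold Fam at hx
  rw [Finset.mem_sigma, mem_Ioc] at hx
  exact hx.1

/-- Growth in discs. -/
theorem local_growth : ∃ C : ℝ, 1 ≤ C ∧ ∀ Z : ℕ, 3 ≤ Z → ∀ x : Ch, 0 < x.1 → x.1 ≤ Z ^ 2 →
    ∀ (s0 : ℂ) (R : ℝ), 0 < R → R ≤ 1 → 1 + 1 / 50 ≤ s0.re → s0.re ≤ 3 → 1 / 20 + R ≤ s0.re →
    |s0.im| ≤ Z + 10 →
    ∀ s ∈ closedBall s0 R, ‖Le x.2 s‖ ≤ Real.exp (C * Real.log Z + 12) * ‖Le x.2 s0‖ := by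
  obtain ⟨C, hC1, hG⟩ := stmt_GRW
  refine ⟨C, hC1, ?_⟩
  intro Z hZ x hx0 hxZ s0 R hR0 hR1 h1 h2 h3 h4 s hs
  rw [mem_closedBall, dist_eq_norm] at hs
  have hZ0 : (0 : ℝ) < Z := by
    have : 0 < Z := by omega
    exact_mod_cast this
  have a1 : |s.re - s0.re| ≤ R := by
    have := Complex.abs_re_le_norm (s - s0)
    rw [sub_re] at this
    linarith
  have a2 : |s.im - s0.im| ≤ R := by
    have := Complex.abs_im_le_norm (s - s0)
    rw [sub_im] at this
    linarith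
  have a3 := abs_le.1 a1
  have a4 : |s.im| ≤ |s0.im| + R := by
    have := abs_sub_abs_le_abs_sub s.im s0.im
    linarith
  have b1 := (hG Z hZ x.1 x.2 hx0 hxZ s (by linarith) (by linarith) (by linarith)).1
  have b2 := (hG Z hZ x.1 x.2 hx0 hxZ s0 (by linarith) (by linarith) (by linarith)).2 (by linarith)
  have b3 : 1 / 80000 ≤ ‖Le x.2 s0‖ := by
    refine le_trans ?_ b2
    have : (1 / 50 : ℝ) ^ 2 ≤ (s0.re - 1) ^ 2 := pow_le_pow_left₀ (by norm_num) (by linarith) 2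
    linarith
  have b4 : (80000 : ℝ) ≤ Real.exp 12 := by
    have e : Real.exp 12 = Real.exp 1 ^ 12 := by
      rw [← Real.exp_nat_mul]
      norm_num
    rw [e]
    have := Real.exp_one_gt_d9
    calc (80000 : ℝ) ≤ (2.7) ^ 12 := by norm_num
      _ ≤ Real.exp 1 ^ 12 := pow_le_pow_left₀ (by norm_num) (by linarith) 12
  rw [Real.exp_add, mul_comm C, Real.exp_mul, Real.exp_log hZ0]
  have b5 : (1 : ℝ) ≤ Real.exp 12 * ‖Le x.2 s0‖ := by
    calc (1 : ℝ) = 80000 * (1 / 80000) := by norm_num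
      _ ≤ Real.exp 12 * ‖Le x.2 s0‖ := mul_le_mul b4 b3 (by norm_num) (Real.exp_pos _).le
  have b6 : 0 ≤ (Z : ℝ) ^ C := Real.rpow_nonneg hZ0.le _
  calc ‖Le x.2 s‖ ≤ (Z : ℝ) ^ C * 1 := by rw [mul_one]; exact b1
    _ ≤ (Z : ℝ) ^ C * (Real.exp 12 * ‖Le x.2 s0‖) := mul_le_mul_of_nonneg_left b5 b6
    _ = _ := by ring

theorem gb_ne {Z : ℕ} {x : Ch} (hx : x.1 ≠ 0) {s : ℂ} (hs : ‖s‖ ≤ Z + 10) : gb x Z s ≠ 0 := by
  refine (stmt_ZSPEC Z x hx).1.ne s ?_
  rwa [mem_closedBall, dist_zero_right]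

/-- The local formula for `Le`, with the list `zb`. -/
theorem local_formula : ∃ C : ℝ, 1 ≤ C ∧ ∀ Z : ℕ, 3 ≤ Z → ∀ x : Ch, 0 < x.1 → x.1 ≤ Z ^ 2 →
    ∀ (s0 : ℂ) (R : ℝ), 0 < R → R ≤ 1 → 1 + 1 / 50 ≤ s0.re → s0.re ≤ 3 → 1 / 20 + R ≤ s0.re →
    |s0.im| ≤ Z + 6 →
    (((zb x Z).filter fun ρ => ‖ρ - s0‖ ≤ R / 4).length : ℝ) ≤ C * Real.log Z ∧
    ∃ G : ℂ → ℂ, DifferentiableOn ℂ G (ball s0 (R / 4)) ∧
      (∀ s ∈ closedBall s0 (R / 8), ‖G s‖ ≤ C * Real.log Z / R) ∧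
      ∀ s ∈ ball s0 (R / 4), Le x.2 s ≠ 0 → deriv (Le x.2) s / Le x.2 s =
        (((zb x Z).filter fun ρ => ‖ρ - s0‖ ≤ R / 4).map fun ρ => 1 / (s - ρ)).sum + G s := by
  obtain ⟨C1, hC1, hG⟩ := local_growth
  obtain ⟨C2, hC2, hL⟩ := stmt_LF
  refine ⟨C2 * (C1 + 12), by nlinarith, ?_⟩
  intro Z hZ x hx0 hxZ s0 R hR0 hR1 h1 h2 h3 h4
  have hZ3 : (3 : ℝ) ≤ Z := by exact_mod_cast hZ
  have hlog : 1 ≤ Real.log Z := by
    rw [Real.le_log_iff_exp_le (by linarith)]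
    have := Real.exp_one_lt_d9
    linarith
  have hm : C1 * Real.log Z + 12 ≤ (C1 + 12) * Real.log Z := by nlinarith
  have hZS := (stmt_ZSPEC Z x hx0.ne').1
  obtain ⟨k1, G, k2, k3, k4⟩ := hL (Le x.2) (gb x Z) (zb x Z) hZS.diff hZS.fac s0 R
    (C1 * Real.log Z + 12) hR0 (by nlinarith) (Le_ne_zero x.2 (by linarith))
    (hG Z hZ x hx0 hxZ s0 R hR0 hR1 h1 h2 h3 (by linarith)) (fun s hs => by
      apply gb_ne hx0.ne'
      rw [mem_closedBall, dist_eq_norm] at hs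
      have a1 : ‖s0‖ ≤ 3 + (Z + 6) := by
        have := Complex.norm_le_abs_re_add_abs_im s0
        rw [abs_of_nonneg (by linarith : 0 ≤ s0.re)] at this
        linarith
      have a2 : ‖s‖ ≤ ‖s - s0‖ + ‖s0‖ := by
        have := norm_add_le (s - s0) s0
        rwa [sub_add_cancel] at this
      linarith)
  refine ⟨?_, G, k2, ?_, k4⟩
  · refine k1.trans (hm.trans ?_)
    have : 0 ≤ (C1 + 12) * Real.log Z := by nlinarith
    nlinarith
  · intro s hs
    refine (k3 s hs).trans ?_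
    apply div_le_div_of_nonneg_right _ hR0.le
    rw [mul_assoc]
    exact mul_le_mul_of_nonneg_left hm (by linarith)

theorem exists_center {Z : ℕ} (_hZ : 3 ≤ Z) {ρ : ℂ} (h1 : 9 / 10 ≤ ρ.re) (h2 : ρ.re < 1)
    (h3 : |ρ.im| ≤ Z) : ∃ k ∈ Icc (-(20 * (Z : ℤ))) (20 * Z),
      ‖ρ - ((1 + 1 / 50 : ℝ) + ((k : ℝ) / 20 : ℝ) * I : ℂ)‖ ≤ (1 / 2 : ℝ) / 4 := by
  refine ⟨round (20 * ρ.im), ?_, ?_⟩
  · have h4 := abs_le.1 h3
    rw [Finset.mem_Icc]
    rw [round_eq]
    constructor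
    · rw [Int.le_floor]
      push_cast
      linarith
    · rw [← Int.lt_add_one_iff, Int.floor_lt]
      push_cast
      linarith
  · have h5 := abs_sub_round (20 * ρ.im)
    set k := round (20 * ρ.im) with hk
    have h6 : |ρ.im - (k : ℝ) / 20| ≤ 1 / 40 := by
      have : ρ.im - (k : ℝ) / 20 = (20 * ρ.im - k) / 20 := by ring
      rw [this, abs_div, abs_of_pos (by norm_num : (0 : ℝ) < 20)]
      linarith
    have h7 : ‖ρ - ((1 + 1 / 50 : ℝ) + ((k : ℝ) / 20 : ℝ) * I : ℂ)‖ ^ 2 =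
        (ρ.re - (1 + 1 / 50)) ^ 2 + (ρ.im - (k : ℝ) / 20) ^ 2 := by
      rw [← Complex.normSq_eq_norm_sq, Complex.normSq_apply]
      simp only [sub_re, sub_im, add_re, add_im, mul_re, mul_im, ofReal_re, ofReal_im, I_re, I_im]
      ring
    have h8 : (ρ.im - (k : ℝ) / 20) ^ 2 ≤ (1 / 40) ^ 2 := by
      rw [← sq_abs]
      exact pow_le_pow_left₀ (abs_nonneg _) h6 2
    have h9 : (ρ.re - (1 + 1 / 50)) ^ 2 ≤ (3 / 25) ^ 2 := by nlinarith
    refine abs_le_of_sq_le_sq' ?_ (by norm_num) |>.2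
    rw [h7]
    linarith

theorem stmt_ZCNT : Stmt_ZCNT := by
  obtain ⟨C, hC1, hL⟩ := local_formula
  refine ⟨(82 * C) ^ 2 + 3, by nlinarith [sq_nonneg (82 * C)], ?_⟩
  intro Z hZ x hx
  obtain ⟨hx0, hxZ⟩ := mem_Fam hx
  have hZ3' : (3 : ℝ) ≤ Z := by nlinarith [sq_nonneg (82 * C)]
  have hZ3 : 3 ≤ Z := by exact_mod_cast hZ3'
  have hZ0 : (0 : ℝ) < Z := by linarith
  have hxZ2 : x.1 ≤ Z ^ 2 := hxZ.trans (Nat.le_self_pow two_ne_zero Z)
  have h1 := length_le_cover (zl x Z) (Icc (-(20 * (Z : ℤ))) (20 * Z))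
    (fun k ρ => ‖ρ - ((1 + 1 / 50 : ℝ) + ((k : ℝ) / 20 : ℝ) * I : ℂ)‖ ≤ (1 / 2 : ℝ) / 4) (by
      intro ρ hρ
      obtain ⟨-, a1, a2, a3⟩ := (stmt_ZSPEC Z x hx0.ne').2.2 ρ hρ
      exact exists_center hZ3 a1 a2 a3)
  have h2 : ∀ k ∈ Icc (-(20 * (Z : ℤ))) (20 * Z), (((zl x Z).filter fun ρ =>
      ‖ρ - ((1 + 1 / 50 : ℝ) + ((k : ℝ) / 20 : ℝ) * I : ℂ)‖ ≤ (1 / 2 : ℝ) / 4).length : ℝ) ≤
      C * Real.log Z := by
    intro k hk
    rw [Finset.mem_Icc] at hk
    have hk1 : (-(20 * (Z : ℝ))) ≤ k := by exact_mod_cast hk.1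
    have hk2 : (k : ℝ) ≤ 20 * Z := by exact_mod_cast hk.2
    have e1 : ((1 + 1 / 50 : ℝ) + ((k : ℝ) / 20 : ℝ) * I : ℂ).re = 1 + 1 / 50 := by
      simp only [add_re, mul_re, ofReal_re, ofReal_im, I_re, I_im]
      ring
    have e2 : ((1 + 1 / 50 : ℝ) + ((k : ℝ) / 20 : ℝ) * I : ℂ).im = (k : ℝ) / 20 := by
      simp only [add_im, mul_im, ofReal_re, ofReal_im, I_re, I_im]
      ring
    have h3 := (hL Z hZ3 x hx0 hxZ2 ((1 + 1 / 50 : ℝ) + ((k : ℝ) / 20 : ℝ) * I : ℂ) (1 / 2)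
      (by norm_num) (by norm_num) (by rw [e1]) (by rw [e1]; norm_num) (by rw [e1]; norm_num)
      (by
        rw [e2, abs_le]
        constructor <;> linarith)).1
    refine le_trans ?_ h3
    have h4 : ((zl x Z).filter fun ρ =>
        ‖ρ - ((1 + 1 / 50 : ℝ) + ((k : ℝ) / 20 : ℝ) * I : ℂ)‖ ≤ (1 / 2 : ℝ) / 4).length ≤
        ((zb x Z).filter fun ρ =>
        ‖ρ - ((1 + 1 / 50 : ℝ) + ((k : ℝ) / 20 : ℝ) * I : ℂ)‖ ≤ (1 / 2 : ℝ) / 4).length := by
      rw [zl_eq]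
      exact ((List.filter_sublist (l := zb x Z)).filter _).length_le
    exact_mod_cast h4
  have h5 : ((zl x Z).length : ℝ) ≤ ∑ k ∈ Icc (-(20 * (Z : ℤ))) (20 * Z), C * Real.log Z := by
    refine le_trans ?_ (Finset.sum_le_sum h2)
    exact_mod_cast h1
  rw [Finset.sum_const, nsmul_eq_mul, Int.card_Icc] at h5
  have h6 : (((20 * (Z : ℤ) + 1 - (-(20 * (Z : ℤ)))).toNat : ℕ) : ℝ) = 40 * Z + 1 := by
    have : (20 * (Z : ℤ) + 1 - (-(20 * (Z : ℤ)))).toNat = 40 * Z + 1 := by omega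
    rw [this]
    push_cast
    ring
  rw [h6] at h5
  have h7 : Real.log Z ≤ 2 * √(Z : ℝ) := by
    have h8 : Real.log Z = 2 * Real.log (√(Z : ℝ)) := by
      rw [Real.log_sqrt hZ0.le]
      ring
    have h9 := Real.log_le_sub_one_of_pos (Real.sqrt_pos.2 hZ0)
    rw [h8]
    linarith
  have h10 : 82 * C ≤ √(Z : ℝ) := by
    apply Real.le_sqrt_of_sq_le
    linarith
  have h11 : √(Z : ℝ) * √(Z : ℝ) = Z := Real.mul_self_sqrt hZ0.le
  calc ((zl x Z).length : ℝ) ≤ (40 * Z + 1) * (C * Real.log Z) := h5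
    _ ≤ (41 * Z) * (C * (2 * √(Z : ℝ))) := by
        refine mul_le_mul (by linarith) (mul_le_mul_of_nonneg_left h7 (by linarith)) ?_
          (by positivity)
        have : 0 ≤ Real.log Z := Real.log_nonneg (by linarith)
        nlinarith
    _ = Z * ((82 * C) * √(Z : ℝ)) := by ring
    _ ≤ Z * (√(Z : ℝ) * √(Z : ℝ)) :=
        mul_le_mul_of_nonneg_left (mul_le_mul_of_nonneg_right h10 (Real.sqrt_nonneg _)) hZ0.le
    _ = (Z : ℝ) ^ 2 := by rw [h11]; ring

theorem gz_ne {Z : ℕ} {x : Ch} (hx : x.1 ≠ 0) {s : ℂ} (hs : ‖s‖ ≤ Z + 10) (hs2 : Box Z s) :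
    gz x Z s ≠ 0 := by
  unfold gz
  refine mul_ne_zero (PP_ne fun ρ hρ h => ?_) (gb_ne hx hs)
  rw [mem_zr] at hρ
  rw [h] at hρ
  exact hρ.2 hs2

theorem stmt_GBD : Stmt_GBD := by
  obtain ⟨C, hC1, hL⟩ := local_formula
  obtain ⟨C2, hC2, hcnt⟩ := stmt_ZCNT
  refine ⟨C2 + 3 + 26 * C + 8, by linarith, ?_⟩
  intro Z hZ x hx
  obtain ⟨hx0, hxZ⟩ := mem_Fam hx
  have hZ3' : (3 : ℝ) ≤ Z := by linarith
  have hZ3 : 3 ≤ Z := by exact_mod_cast hZ3'
  have hZ0 : (0 : ℝ) < Z := by linarith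
  have hxZ2 : x.1 ≤ Z ^ 2 := hxZ.trans (Nat.le_self_pow two_ne_zero Z)
  have hcount := hcnt Z (by linarith) x hx
  have hlogZ : Real.log Z ≤ Z := by
    have := Real.log_le_sub_one_of_pos hZ0
    linarith
  refine ⟨gz x Z, gz_diff hx0.ne', zl_fac hx0.ne', ?_⟩
  -- the region with a margin
  set U : Set ℂ := {s | 47 / 50 < s.re ∧ s.re < 8 / 5 ∧ |s.im| < Z / 2 + 1} with hU
  have hUo : IsOpen U := by
    refine (isOpen_lt continuous_const Complex.continuous_re).inter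
      ((isOpen_lt Complex.continuous_re continuous_const).inter
        (isOpen_lt (continuous_abs.comp Complex.continuous_im) continuous_const))
  have hUne : ∀ s ∈ U, gz x Z s ≠ 0 := by
    intro s hs
    obtain ⟨h1, h2, h3⟩ := hs
    apply gz_ne hx0.ne'
    · have := Complex.norm_le_abs_re_add_abs_im s
      rw [abs_of_nonneg (by linarith : 0 ≤ s.re)] at this
      linarith
    · exact ⟨by linarith, by linarith⟩
  have key : ∀ s ∈ U, Le x.2 s ≠ 0 →
      ‖deriv (gz x Z) s / gz x Z s‖ ≤ (26 * C + 8) * (Z : ℝ) ^ 3 := by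
    intro s hs hfs
    have hs' := hs
    obtain ⟨h1, h2, h3⟩ := hs'
    set s0 : ℂ := s + (1 / 9 : ℝ) with hs0
    have e1 : s0.re = s.re + 1 / 9 := by rw [hs0, add_re, ofReal_re]
    have e2 : s0.im = s.im := by rw [hs0, add_im, ofReal_im, add_zero]
    have e3 : ‖s - s0‖ = 1 / 9 := by
      have : s - s0 = -((1 / 9 : ℝ) : ℂ) := by rw [hs0]; ring
      rw [this, norm_neg, Complex.norm_real, Real.norm_eq_abs, abs_of_pos (by norm_num)]
    obtain ⟨k1, G, -, k3, k4⟩ := hL Z hZ3 x hx0 hxZ2 s0 1 one_pos le_rfl (by rw [e1]; linarith)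
      (by rw [e1]; linarith) (by rw [e1]; linarith) (by rw [e2]; linarith)
    have k5 := k4 s (by rw [mem_ball, dist_eq_norm, e3]; norm_num) hfs
    have k6 := k3 s (by rw [mem_closedBall, dist_eq_norm, e3]; norm_num)
    rw [div_one] at k6
    have hmem : ∀ ρ ∈ zl x Z, ρ ≠ s := by
      intro ρ hρ h
      rw [h] at hρ
      exact hfs ((stmt_ZSPEC Z x hx0.ne').2.2 s hρ).1
    have k7 := logDeriv_PP (L := zl x Z) (gz_diff (Z := Z) hx0.ne') hmem (hUne s hs)
    have k8 : (fun s => PP (zl x Z) s * gz x Z s) = Le x.2 :=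
      funext fun s => (zl_fac hx0.ne' s).symm
    rw [k8, ← zl_fac hx0.ne' s, k5] at k7
    have k9 : deriv (gz x Z) s / gz x Z s =
        ((((zb x Z).filter fun ρ => ‖ρ - s0‖ ≤ 1 / 4).map fun ρ => 1 / (s - ρ)).sum -
          ((zl x Z).map fun ρ => 1 / (s - ρ)).sum) + G s := by
      linear_combination -k7
    rw [k9, zl_eq, list_sum_sub (zb x Z) (fun ρ => 1 / (s - ρ)) (fun ρ => ‖ρ - s0‖ ≤ 1 / 4)
      (fun ρ => Box Z ρ)]
    have c1 : ‖(((zb x Z).filter fun ρ => ‖ρ - s0‖ ≤ 1 / 4 ∧ ¬ Box Z ρ).map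
        fun ρ => 1 / (s - ρ)).sum‖ ≤ (C * Real.log Z) * 25 := by
      refine (norm_list_sum_le _ _ (B := 25) ?_).trans ?_
      · intro ρ hρ
        rw [List.mem_filter, decide_eq_true_eq] at hρ
        obtain ⟨-, h4, h5⟩ := hρ
        have h6 : |ρ.im - s0.im| ≤ 1 / 4 := by
          have := Complex.abs_im_le_norm (ρ - s0)
          rw [sub_im] at this
          linarith
        have h7 : |ρ.im| ≤ |s0.im| + 1 / 4 := by
          have := abs_sub_abs_le_abs_sub ρ.im s0.im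
          linarith
        have h8 : ρ.re < 9 / 10 := by
          by_contra h9
          refine h5 ⟨not_lt.1 h9, ?_⟩
          rw [e2] at h7
          linarith
        have h10 : 1 / 25 ≤ ‖s - ρ‖ := by
          have := Complex.re_le_norm (s - ρ)
          rw [sub_re] at this
          linarith
        rw [norm_div, norm_one, div_le_iff₀ (by linarith)]
        linarith
      · refine mul_le_mul_of_nonneg_right (le_trans ?_ k1) (by norm_num)
        have : ((zb x Z).filter fun ρ => ‖ρ - s0‖ ≤ 1 / 4 ∧ ¬ Box Z ρ).length ≤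
            ((zb x Z).filter fun ρ => ‖ρ - s0‖ ≤ 1 / 4).length := by
          refine (List.Sublist.length_le ?_)
          refine List.monotone_filter_right _ ?_
          intro ρ hρ
          simp only [decide_eq_true_eq] at hρ ⊢
          exact hρ.1
        exact_mod_cast this
    have c2 : ‖(((zb x Z).filter fun ρ => Box Z ρ ∧ ¬ ‖ρ - s0‖ ≤ 1 / 4).map
        fun ρ => 1 / (s - ρ)).sum‖ ≤ (Z : ℝ) ^ 2 * 8 := by
      refine (norm_list_sum_le _ _ (B := 8) ?_).trans ?_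
      · intro ρ hρ
        rw [List.mem_filter, decide_eq_true_eq] at hρ
        obtain ⟨-, -, h5⟩ := hρ
        have h6 : ‖ρ - s0‖ ≤ ‖ρ - s‖ + ‖s - s0‖ := by
          have := norm_add_le (ρ - s) (s - s0)
          rwa [sub_add_sub_cancel] at this
        have h10 : 1 / 8 ≤ ‖s - ρ‖ := by
          rw [norm_sub_rev s ρ]
          rw [not_le] at h5
          linarith
        rw [norm_div, norm_one, div_le_iff₀ (by linarith)]
        linarith
      · refine mul_le_mul_of_nonneg_right (le_trans ?_ hcount) (by norm_num)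
        have : ((zb x Z).filter fun ρ => Box Z ρ ∧ ¬ ‖ρ - s0‖ ≤ 1 / 4).length ≤
            (zl x Z).length := by
          rw [zl_eq]
          refine (List.Sublist.length_le ?_)
          refine List.monotone_filter_right _ ?_
          intro ρ hρ
          simp only [decide_eq_true_eq] at hρ ⊢
          exact hρ.1
        exact_mod_cast this
    have hCZ : C * Real.log Z ≤ C * Z := mul_le_mul_of_nonneg_left hlogZ (by linarith)
    refine (norm_add_le _ _).trans ((add_le_add (norm_sub_le _ _) le_rfl).trans ?_)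
    have hZ1 : (Z : ℝ) ≤ (Z : ℝ) ^ 3 := by nlinarith
    have hZ2 : (Z : ℝ) ^ 2 ≤ (Z : ℝ) ^ 3 := by nlinarith
    have hCZ3 : C * Z ≤ C * (Z : ℝ) ^ 3 := mul_le_mul_of_nonneg_left hZ1 (by linarith)
    calc _ ≤ (C * Real.log Z) * 25 + (Z : ℝ) ^ 2 * 8 + C * Real.log Z :=
          add_le_add (add_le_add c1 c2) k6
      _ ≤ (26 * C + 8) * (Z : ℝ) ^ 3 := by linarith
  intro s h1 h2 h3
  have hsU : s ∈ U := ⟨by linarith, by linarith, by linarith⟩
  refine ⟨hUne s hsU, ?_⟩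
  have hfinal : ‖deriv (gz x Z) s / gz x Z s‖ ≤ (26 * C + 8) * (Z : ℝ) ^ 3 := by
    by_contra hcon
    rw [not_le] at hcon
    have hcont : ContinuousAt (fun s => ‖deriv (gz x Z) s / gz x Z s‖) s := by
      have hd : Differentiable ℂ (gz x Z) := gz_diff hx0.ne'
      exact ((hd.contDiff.continuous_deriv le_rfl).continuousAt.div hd.continuous.continuousAt
        (hUne s hsU)).norm
    have hev : ∀ᶠ y in 𝓝 s, (26 * C + 8) * (Z : ℝ) ^ 3 < ‖deriv (gz x Z) y / gz x Z y‖ ∧ y ∈ U :=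
      (hcont.eventually (lt_mem_nhds hcon)).and (hUo.mem_nhds hsU)
    have hfin : {y : ℂ | y ∈ zl x Z}.Finite := List.finite_toSet _
    have hd : Dense {y : ℂ | y ∈ zl x Z}ᶜ := hfin.countable.dense_compl ℝ
    have hfr : ∃ᶠ y in 𝓝 s, y ∈ {y : ℂ | y ∈ zl x Z}ᶜ := mem_closure_iff_frequently.1 (hd s)
    obtain ⟨y, hy1, hy2, hy3⟩ := (hfr.and_eventually hev).exists
    refine absurd (key y hy3 ?_) (not_le.2 hy2)
    rw [zl_fac hx0.ne' y]
    exact mul_ne_zero (fun h => hy1 (PP_eq_zero_iff.1 h)) (hUne y hy3)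
  refine hfinal.trans (mul_le_mul_of_nonneg_right ?_ (by positivity))
  linarith

end Pool.Agent.PS
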