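import Pool.Agent.Work.PS.Interface
import Pool.Agent.Work.MP_b0c12c_nt_helper70.Region2
import Pool.Agent.Work.MP_b0c12c_nt.Exc

/-!
# Block ZFR: zero-free region with at most one exceptional zero
-/

set_option autoImplicit false

namespace Pool.Agent.PS

open Complex Filter Topology Finset Metric
open Pool.Agent.BV (PC)
open Pool.Agent.Work.MP_b0c12c_nt_helper70 (PP PP_nil PP_cons PP_differentiable PP_ne DD DD_eq
  re_one_div_nonneg re_one_div LFunction_conj pos341 posR eq_re_add)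
open scoped Classical ComplexConjugate

namespace ZFR

lemma PP_append (L1 L2 : List ℂ) (s : ℂ) : PP (L1 ++ L2) s = PP L1 s * PP L2 s := by
  unfold PP
  rw [List.map_append, List.prod_append]

lemma PP_zero_of_mem {L : List ℂ} {ρ : ℂ} (h : ρ ∈ L) : PP L ρ = 0 := by
  unfold PP
  rw [List.prod_eq_zero_iff, List.mem_map]
  exact ⟨ρ, h, sub_self ρ⟩

lemma PP_perm {L1 L2 : List ℂ} (h : L1.Perm L2) (s : ℂ) : PP L1 s = PP L2 s := by
  unfold PP
  exact (h.map _).prod_eq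

lemma re_list_sum (L : List ℂ) (f : ℂ → ℂ) :
    ((L.map f).sum).re = (L.map fun ρ => (f ρ).re).sum := by
  induction L with
  | nil => simp
  | cons ρ L ih => simp only [List.map_cons, List.sum_cons, add_re, ih]

/-- `f` is divisible by the zeros in `L`. -/
def Div (f : ℂ → ℂ) (L : List ℂ) : Prop := ∃ h : ℂ → ℂ, Differentiable ℂ h ∧ ∀ s, f s = PP L s * h s

lemma Div.zero {f : ℂ → ℂ} {L : List ℂ} (h : Div f L) {ρ : ℂ} (hρ : ρ ∈ L) : f ρ = 0 := by
  obtain ⟨g, -, hg⟩ := h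
  rw [hg, PP_zero_of_mem hρ, zero_mul]

lemma Div.sub {f : ℂ → ℂ} {L1 L2 : List ℂ} (h : Div f (L1 ++ L2)) : Div f L1 := by
  obtain ⟨g, hg, hfg⟩ := h
  refine ⟨fun s => PP L2 s * g s, (PP_differentiable L2).mul hg, fun s => ?_⟩
  rw [hfg, PP_append]
  ring

lemma Div.perm {f : ℂ → ℂ} {L1 L2 : List ℂ} (h : Div f L1) (hp : L1.Perm L2) : Div f L2 := by
  obtain ⟨g, hg, hfg⟩ := h
  exact ⟨g, hg, fun s => by rw [hfg, PP_perm hp]⟩

lemma div_nil {f : ℂ → ℂ} (hf : Differentiable ℂ f) : Div f [] :=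
  ⟨f, hf, fun s => by rw [PP_nil, one_mul]⟩

lemma div_one {f : ℂ → ℂ} (hf : Differentiable ℂ f) {ρ : ℂ} (h0 : f ρ = 0) : Div f [ρ] := by
  refine ⟨dslope f ρ, ?_, fun s => ?_⟩
  · have := (Complex.differentiableOn_dslope (s := Set.univ) (c := ρ) (f := f) univ_mem).2
      hf.differentiableOn
    exact differentiableOn_univ.1 this
  · have h1 := sub_smul_dslope f ρ s
    rw [smul_eq_mul, h0, sub_zero] at h1
    rw [PP_cons, PP_nil, mul_one, h1]

lemma div_two {f : ℂ → ℂ} (hf : Differentiable ℂ f) {ρ τ : ℂ} (hne : τ ≠ ρ) (h0 : f ρ = 0)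
    (h1 : f τ = 0) : Div f [ρ, τ] := by
  obtain ⟨g, hg, hfg⟩ := div_one hf h0
  have hgt : g τ = 0 := by
    have := hfg τ
    rw [h1, PP_cons, PP_nil, mul_one] at this
    rcases mul_eq_zero.1 this.symm with h | h
    · exact absurd (sub_eq_zero.1 h) hne
    · exact h
  obtain ⟨g', hg', hfg'⟩ := div_one hg hgt
  refine ⟨g', hg', fun s => ?_⟩
  rw [hfg, hfg']
  simp only [PP_cons, PP_nil]
  ring

/-- local bound for the logarithmic derivative -/
lemma loc_list {CL : ℝ} (hZL : Stmt_ZL)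
    (hLF : ∀ (f h : ℂ → ℂ) (L : List ℂ), Differentiable ℂ h →
      (∀ s, f s = PP L s * h s) → ∀ (s0 : ℂ) (R m : ℝ), 0 < R → 0 < m → f s0 ≠ 0 →
      (∀ s ∈ closedBall s0 R, ‖f s‖ ≤ Real.exp m * ‖f s0‖) →
      (∀ s ∈ closedBall s0 (R / 4), h s ≠ 0) →
      ((L.filter fun ρ => ‖ρ - s0‖ ≤ R / 4).length : ℝ) ≤ m ∧
      ∃ G : ℂ → ℂ, DifferentiableOn ℂ G (ball s0 (R / 4)) ∧
        (∀ s ∈ closedBall s0 (R / 8), ‖G s‖ ≤ CL * m / R) ∧
        ∀ s ∈ ball s0 (R / 4), f s ≠ 0 → deriv f s / f s =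
          ((L.filter fun ρ => ‖ρ - s0‖ ≤ R / 4).map fun ρ => 1 / (s - ρ)).sum + G s)
    {f : ℂ → ℂ} {L : List ℂ} (hd : Div f L) {s0 : ℂ} {m : ℝ} (hm : 0 < m) (h0 : f s0 ≠ 0)
    (hb : ∀ s ∈ closedBall s0 (1 / 2), ‖f s‖ ≤ Real.exp m * ‖f s0‖)
    (hz : ∀ s, f s = 0 → s.re ≤ s0.re) (hL : ∀ ρ ∈ L, ‖ρ - s0‖ ≤ 1 / 8) :
    -(deriv f s0 / f s0).re ≤ 2 * CL * m - (L.map fun ρ => (1 / (s0 - ρ)).re).sum := by
  obtain ⟨h, hh, hfh⟩ := hd
  have hh0 : h s0 ≠ 0 := by
    intro hc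
    exact h0 (by rw [hfh, hc, mul_zero])
  obtain ⟨L2, g, hg⟩ := hZL h hh ⟨s0, hh0⟩ (closedBall s0 (1 / 8)) isBounded_closedBall
  have hf' : ∀ s, f s = PP (L ++ L2) s * g s := by
    intro s
    rw [hfh, hg.fac, PP_append]
    ring
  have e8 : (1 / 2 : ℝ) / 4 = 1 / 8 := by norm_num
  obtain ⟨-, G, -, hG, hG2⟩ := hLF f g (L ++ L2) hg.diff hf' s0 (1 / 2) m (by norm_num) hm h0 hb
    (by rw [e8]; exact hg.ne)
  have hs0 : s0 ∈ ball s0 ((1 / 2 : ℝ) / 4) := mem_ball_self (by norm_num)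
  have hs1 : s0 ∈ closedBall s0 ((1 / 2 : ℝ) / 8) := mem_closedBall_self (by norm_num)
  have k1 := hG2 s0 hs0 h0
  have k2 := hG s0 hs1
  have k3 : -(G s0).re ≤ 2 * CL * m := by
    have h4 := neg_abs_le (G s0).re
    have h5 := abs_re_le_norm (G s0)
    have h6 : CL * m / (1 / 2) = 2 * CL * m := by ring
    rw [h6] at k2
    linarith
  have hfil : (L ++ L2).filter (fun ρ => decide (‖ρ - s0‖ ≤ 1 / 2 / 4)) =
      L ++ L2.filter (fun ρ => decide (‖ρ - s0‖ ≤ 1 / 2 / 4)) := by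
    rw [List.filter_append]
    congr 1
    rw [List.filter_eq_self]
    intro ρ hρ
    rw [decide_eq_true_eq, e8]
    exact hL ρ hρ
  rw [hfil, List.map_append, List.sum_append] at k1
  have k4 : 0 ≤ (((L2.filter (fun ρ => decide (‖ρ - s0‖ ≤ 1 / 2 / 4))).map
      fun ρ => 1 / (s0 - ρ)).sum).re := by
    rw [re_list_sum]
    refine List.sum_nonneg fun x hx => ?_
    rw [List.mem_map] at hx
    obtain ⟨ρ, hρ, rfl⟩ := hx
    refine re_one_div_nonneg (hz ρ ?_)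
    rw [hf', PP_zero_of_mem (List.mem_append_right _ (List.mem_of_mem_filter hρ)), zero_mul]
  rw [k1, add_re, add_re, re_list_sum]
  linarith

/-! ### parameters -/

/-- local bounds for all characters modulo `q` -/
structure Loc (q : ℕ) [NeZero q] (T η E : ℝ) : Prop where
  hT : 1 ≤ T
  hη : 0 < η
  hη2 : 1000 * η ≤ 1
  hE0 : 0 < E
  hEη : 1000 * E < 1 / η
  upN : ∀ χ : DirichletCharacter ℂ q, χ ≠ 1 → ∀ k t : ℝ, 1 ≤ k → k ≤ 100 → |t| ≤ 2 * T →
    ∀ L : List ℂ, Div χ.LFunction L →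
    (∀ ρ ∈ L, ‖ρ - ((((1 + k * η : ℝ) : ℂ)) + t * I)‖ ≤ 50 * η) →
    (DD χ ((((1 + k * η : ℝ) : ℂ)) + t * I)).re ≤
      E - (L.map fun ρ => (1 / (((((1 + k * η : ℝ) : ℂ)) + t * I) - ρ)).re).sum
  upP : ∀ k t : ℝ, 1 ≤ k → k ≤ 100 → |t| ≤ 2 * T →
    ∀ L : List ℂ, Div (Le (1 : DirichletCharacter ℂ q)) L →
    (∀ ρ ∈ L, ‖ρ - ((((1 + k * η : ℝ) : ℂ)) + t * I)‖ ≤ 50 * η) →
    (DD (1 : DirichletCharacter ℂ q) ((((1 + k * η : ℝ) : ℂ)) + t * I)).re ≤
      E + (k * η) / ((k * η) ^ 2 + t ^ 2)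
        - (L.map fun ρ => (1 / (((((1 + k * η : ℝ) : ℂ)) + t * I) - ρ)).re).sum

lemma Le_differentiable {q : ℕ} [NeZero q] (χ : DirichletCharacter ℂ q) :
    Differentiable ℂ (Le χ) := by
  by_cases h : χ = 1
  · subst h
    rw [Le_one]
    exact DirichletCharacter.differentiable_LFunctionTrivChar₁ q
  · rw [Le_of_ne h]
    exact DirichletCharacter.differentiable_LFunction h

variable {q : ℕ} [NeZero q] {T η E : ℝ}

lemma Loc.upP0 (P : Loc q T η E) {k t : ℝ} (hk1 : 1 ≤ k) (hk2 : k ≤ 100) (ht : |t| ≤ 2 * T) :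
    (DD (1 : DirichletCharacter ℂ q) ((((1 + k * η : ℝ) : ℂ)) + t * I)).re ≤
      E + (k * η) / ((k * η) ^ 2 + t ^ 2) := by
  have := P.upP k t hk1 hk2 ht [] (div_nil (Le_differentiable _)) (by simp)
  simpa using this

lemma Loc.upN0 (P : Loc q T η E) {χ : DirichletCharacter ℂ q} (hχ : χ ≠ 1) {k t : ℝ}
    (hk1 : 1 ≤ k) (hk2 : k ≤ 100) (ht : |t| ≤ 2 * T) :
    (DD χ ((((1 + k * η : ℝ) : ℂ)) + t * I)).re ≤ E := by
  have := P.upN χ hχ k t hk1 hk2 ht []
    (div_nil (DirichletCharacter.differentiable_LFunction hχ)) (by simp)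
  simpa using this

/-- a bad zero -/
def Bad (χ : DirichletCharacter ℂ q) (η T : ℝ) (s : ℂ) : Prop :=
  1 - η ≤ s.re ∧ |s.im| ≤ T ∧ χ.LFunction s = 0

lemma Bad.lt_one {χ : DirichletCharacter ℂ q} (hχ : χ ≠ 1) {s : ℂ} (h : Bad χ η T s) :
    s.re < 1 := by
  by_contra hcon
  push Not at hcon
  exact DirichletCharacter.LFunction_ne_zero_of_one_le_re χ (Or.inl hχ) hcon h.2.2

/-- the zero at height `γ` seen from the right -/
lemma Loc.one_zero (P : Loc q T η E) {χ : DirichletCharacter ℂ q} (hχ : χ ≠ 1) {s : ℂ}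
    (h : Bad χ η T s) {k : ℝ} (hk1 : 1 ≤ k) (hk2 : k ≤ 40) :
    (DD χ ((((1 + k * η : ℝ) : ℂ)) + s.im * I)).re ≤ E - (1 / η) / (k + 1) := by
  have hlt := h.lt_one hχ
  have hη := P.hη
  have h1 : ‖s - ((((1 + k * η : ℝ) : ℂ)) + s.im * I)‖ ≤ 50 * η := by
    rw [norm_sub_rev, eq_re_add, Complex.norm_real, Real.norm_eq_abs, abs_le]
    have := h.1
    constructor <;> nlinarith
  have h2 := P.upN χ hχ k s.im hk1 (by linarith) (by linarith [h.2.1, P.hT]) [s]
    (div_one (DirichletCharacter.differentiable_LFunction hχ) h.2.2)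
    (fun ρ hρ => by rw [List.mem_singleton] at hρ; subst hρ; exact h1)
  rw [List.map_singleton, List.sum_singleton, eq_re_add, ← Complex.ofReal_one,
    ← Complex.ofReal_div, Complex.ofReal_re] at h2
  have h3 : (1 / η) / (k + 1) ≤ 1 / (1 + k * η - s.re) := by
    rw [div_div]
    have := h.1
    exact one_div_le_one_div_of_le (by nlinarith) (by nlinarith)
  linarith

lemma Loc.caseA (P : Loc q T η E) {χ : DirichletCharacter ℂ q} (hχ : χ ≠ 1) {s : ℂ}
    (h : Bad χ η T s) : χ ^ 2 = 1 := by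
  by_contra h2
  have hη := P.hη
  have hE0 := P.hE0
  have hEη := P.hEη
  have p := pos341 χ (σ := 1 + 7 * η) (by linarith) s.im
  have a1 := P.upP0 (k := 7) (t := 0) (by norm_num) (by norm_num) (by
    rw [abs_zero]; linarith [P.hT])
  have a2 := P.one_zero hχ h (k := 7) (by norm_num) (by norm_num)
  have a3 := P.upN0 (χ := χ ^ 2) h2 (k := 7) (t := 2 * s.im) (by norm_num) (by norm_num) (by
    rw [abs_mul, abs_two]; linarith [h.2.1])
  have e1 : (7 * η) / ((7 * η) ^ 2 + 0 ^ 2) = (1 / η) / 7 := by field_simp; ring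
  rw [e1] at a1
  linarith

lemma Loc.caseB1 (P : Loc q T η E) {χ : DirichletCharacter ℂ q} (hχ : χ ≠ 1)
    (h2 : χ ^ 2 = 1) {s : ℂ} (h : Bad χ η T s) : |s.im| < 10 * η := by
  by_contra hcon
  push Not at hcon
  have hη := P.hη
  have hE0 := P.hE0
  have hEη := P.hEη
  have p := pos341 χ (σ := 1 + 7 * η) (by linarith) s.im
  have a1 := P.upP0 (k := 7) (t := 0) (by norm_num) (by norm_num) (by
    rw [abs_zero]; linarith [P.hT])
  have a2 := P.one_zero hχ h (k := 7) (by norm_num) (by norm_num)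
  have a3 := P.upP0 (k := 7) (t := 2 * s.im) (by norm_num) (by norm_num) (by
    rw [abs_mul, abs_two]; linarith [h.2.1])
  have e1 : (7 * η) / ((7 * η) ^ 2 + 0 ^ 2) = (1 / η) / 7 := by field_simp; ring
  rw [e1] at a1
  rw [h2] at p
  have hsq : 100 * η ^ 2 ≤ s.im ^ 2 := by
    have : (10 * η) ^ 2 ≤ |s.im| ^ 2 := pow_le_pow_left₀ (by positivity) hcon 2
    rw [sq_abs] at this
    linarith
  have e2 : (7 * η) / ((7 * η) ^ 2 + (2 * s.im) ^ 2) ≤ (1 / η) * (7 / 449) := by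
    rw [div_le_iff₀ (by positivity)]
    have : (1 / η) * (7 / 449) * (449 * η ^ 2) = 7 * η := by field_simp
    rw [← this]
    refine mul_le_mul_of_nonneg_left ?_ (by positivity)
    nlinarith
  nlinarith

/-- sum over two zeros near one, seen from `1 + 20 η` -/
lemma two_sum {η a b c d : ℝ} (hη : 0 < η) (ha : 1 - η ≤ a) (ha1 : a ≤ 1) (hb : 1 - η ≤ b)
    (hb1 : b ≤ 1) (hc : |c| ≤ 10 * η) (hd : |d| ≤ 10 * η) :
    (1 / η) * (42 / 541) ≤
      (([((a : ℂ) + c * I), ((b : ℂ) + d * I)] : List ℂ).map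
        fun ρ => (1 / (((((1 + 20 * η : ℝ) : ℂ)) + (0 : ℝ) * I) - ρ)).re).sum := by
  have key : ∀ a c : ℝ, 1 - η ≤ a → a ≤ 1 → |c| ≤ 10 * η → (1 / η) * (21 / 541) ≤
      (1 / (((((1 + 20 * η : ℝ) : ℂ)) + (0 : ℝ) * I) - ((a : ℂ) + c * I))).re := by
    intro a c ha ha1 hc
    have f1 : (((((1 + 20 * η : ℝ) : ℂ)) + (0 : ℝ) * I) - ((a : ℂ) + c * I)) =
        (((1 + 20 * η - a : ℝ) : ℂ)) + ((-c : ℝ) : ℂ) * I := by
      apply Complex.ext <;> simp
    rw [f1, re_one_div]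
    set x : ℝ := 1 + 20 * η - a with hx
    have hx1 : 20 * η ≤ x := by rw [hx]; linarith
    have hx2 : x ≤ 21 * η := by rw [hx]; linarith
    have hsq : (-c) ^ 2 ≤ 100 * η ^ 2 := by
      have : |c| ^ 2 ≤ (10 * η) ^ 2 := pow_le_pow_left₀ (abs_nonneg _) hc 2
      rw [sq_abs] at this
      linarith
    have hx0 : 0 < x := by linarith
    rw [le_div_iff₀ (by positivity)]
    have g2 : (1 / η) * (21 / 541) * (x ^ 2 + (-c) ^ 2) ≤
        (1 / η) * (21 / 541) * (x ^ 2 + 100 * η ^ 2) :=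
      mul_le_mul_of_nonneg_left (by linarith) (by positivity)
    refine g2.trans ?_
    have g3 : (1 / η) * (21 / 541) * (x ^ 2 + 100 * η ^ 2) =
        (1 / η) * ((21 / 541) * (x ^ 2 + 100 * η ^ 2)) := by ring
    have g4 : x = (1 / η) * (x * η) := by field_simp
    rw [g3]
    conv_rhs => rw [g4]
    refine mul_le_mul_of_nonneg_left ?_ (by positivity)
    nlinarith [mul_nonneg (sub_nonneg.2 hx2) (by linarith : 0 ≤ 21 * x - 100 * η)]
  have k1 := key a c ha ha1 hc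
  have k2 := key b d hb hb1 hd
  rw [List.map_cons, List.map_singleton, List.sum_cons, List.sum_singleton]
  linarith

/-- two zeros (with multiplicity) of a real character near one are impossible -/
lemma Loc.two_zeros (P : Loc q T η E) {χ : DirichletCharacter ℂ q} (hχ : χ ≠ 1)
    (h2 : χ ^ 2 = 1) {s t : ℂ} (hd : Div χ.LFunction [s, t]) (hs : Bad χ η T s)
    (ht : Bad χ η T t) : False := by
  have hs1 := hs.lt_one hχ
  have ht1 := ht.lt_one hχ
  have hsb := P.caseB1 hχ h2 hs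
  have htb := P.caseB1 hχ h2 ht
  have hη := P.hη
  have hE0 := P.hE0
  have hEη := P.hEη
  have p := posR (χ := χ) (ψ := 1) h2 (one_pow 2) (σ := 1 + 20 * η) (by linarith)
  rw [mul_one] at p
  have a1 := P.upP0 (k := 20) (t := 0) (by norm_num) (by norm_num) (by
    rw [abs_zero]; linarith [P.hT])
  have e1 : (20 * η) / ((20 * η) ^ 2 + 0 ^ 2) = (1 / η) / 20 := by field_simp; ring
  rw [e1] at a1
  have hdist : ∀ ρ : ℂ, 1 - η ≤ ρ.re → ρ.re < 1 → |ρ.im| < 10 * η →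
      ‖ρ - ((((1 + 20 * η : ℝ) : ℂ)) + (0 : ℝ) * I)‖ ≤ 50 * η := by
    intro ρ hr hr1 hi
    have e := Complex.norm_le_abs_re_add_abs_im (ρ - ((((1 + 20 * η : ℝ) : ℂ)) + (0 : ℝ) * I))
    have e3 : (ρ - ((((1 + 20 * η : ℝ) : ℂ)) + (0 : ℝ) * I)).re = ρ.re - (1 + 20 * η) := by
      simp
    have e4 : (ρ - ((((1 + 20 * η : ℝ) : ℂ)) + (0 : ℝ) * I)).im = ρ.im := by
      simp
    rw [e3, e4] at e
    have e5 : |ρ.re - (1 + 20 * η)| ≤ 21 * η := by
      rw [abs_le]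
      constructor <;> linarith
    linarith
  have a2 := P.upN χ hχ 20 0 (by norm_num) (by norm_num) (by
    rw [abs_zero]; linarith [P.hT]) [s, t] hd (fun ρ hρ => by
      simp only [List.mem_cons, List.not_mem_nil, or_false] at hρ
      rcases hρ with rfl | rfl
      · exact hdist _ hs.1 hs1 hsb
      · exact hdist _ ht.1 ht1 htb)
  have a3 := two_sum hη hs.1 hs1.le ht.1 ht1.le hsb.le htb.le
  rw [Complex.re_add_im, Complex.re_add_im] at a3
  linarith

lemma Loc.caseB2 (P : Loc q T η E) {χ : DirichletCharacter ℂ q} (hχ : χ ≠ 1)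
    (h2 : χ ^ 2 = 1) {s : ℂ} (h : Bad χ η T s) : s.im = 0 := by
  by_contra hne
  have hcne : conj s ≠ s := by
    intro hs
    have := congrArg Complex.im hs
    rw [conj_im] at this
    exact hne (by linarith)
  have hc0 : χ.LFunction (conj s) = 0 := by rw [LFunction_conj h2 hχ, h.2.2, map_zero]
  refine P.two_zeros hχ h2
    (div_two (DirichletCharacter.differentiable_LFunction hχ) hcne h.2.2 hc0) h ⟨?_, ?_, hc0⟩
  · rw [conj_re]; exact h.1
  · rw [conj_im, abs_neg]; exact h.2.1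

lemma Loc.caseC (P : Loc q T η E) {χ ψ : DirichletCharacter ℂ q} (hχ : χ ≠ 1) (hψ : ψ ≠ 1)
    {s t : ℂ} (hs : Bad χ η T s) (ht : Bad ψ η T t) : χ = ψ := by
  by_contra hne
  have hχ2 := P.caseA hχ hs
  have hψ2 := P.caseA hψ ht
  have hs0 := P.caseB2 hχ hχ2 hs
  have ht0 := P.caseB2 hψ hψ2 ht
  have hη := P.hη
  have hE0 := P.hE0
  have hEη := P.hEη
  have hprod : χ * ψ ≠ 1 := by
    intro h
    apply hne
    have h1 : χ = ψ⁻¹ := eq_inv_of_mul_eq_one_left h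
    have h2 : ψ⁻¹ = ψ := by
      rw [inv_eq_iff_mul_eq_one, ← sq]
      exact hψ2
    rw [h1, h2]
  have p := posR hχ2 hψ2 (σ := 1 + 2 * η) (by linarith)
  have a1 := P.upP0 (k := 2) (t := 0) (by norm_num) (by norm_num) (by
    rw [abs_zero]; linarith [P.hT])
  have e1 : (2 * η) / ((2 * η) ^ 2 + 0 ^ 2) = (1 / η) / 2 := by field_simp; ring
  rw [e1] at a1
  have a2 := P.one_zero hχ hs (k := 2) (by norm_num) (by norm_num)
  have a3 := P.one_zero hψ ht (k := 2) (by norm_num) (by norm_num)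
  rw [hs0] at a2
  rw [ht0] at a3
  have a4 := P.upN0 hprod (k := 2) (t := 0) (by norm_num) (by norm_num) (by
    rw [abs_zero]; linarith [P.hT])
  linarith

/-- zeta: no zero far from one -/
lemma Loc.caseZ (P : Loc q T η E) {s : ℂ} (h1 : 1 - η ≤ s.re) (h2 : s.re < 1) (h3 : |s.im| ≤ T)
    (h0 : Le (1 : DirichletCharacter ℂ q) s = 0) {r0 : ℝ} (hr0 : 0 < r0) (h4 : r0 ≤ |s.im|)
    (h5 : 14 * η ≤ E * r0 ^ 2) : False := by
  have hη := P.hη
  have hE0 := P.hE0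
  have hEη := P.hEη
  have p := pos341 (1 : DirichletCharacter ℂ q) (σ := 1 + 7 * η) (by linarith) s.im
  rw [one_pow] at p
  have a1 := P.upP0 (k := 7) (t := 0) (by norm_num) (by norm_num) (by
    rw [abs_zero]; linarith [P.hT])
  have e1 : (7 * η) / ((7 * η) ^ 2 + 0 ^ 2) = (1 / η) / 7 := by field_simp; ring
  rw [e1] at a1
  have a3 := P.upP0 (k := 7) (t := 2 * s.im) (by norm_num) (by norm_num) (by
    rw [abs_mul, abs_two]; linarith)
  have hd : ‖s - ((((1 + 7 * η : ℝ) : ℂ)) + s.im * I)‖ ≤ 50 * η := by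
    rw [norm_sub_rev, eq_re_add, Complex.norm_real, Real.norm_eq_abs, abs_le]
    constructor <;> nlinarith
  have a2 := P.upP 7 s.im (by norm_num) (by norm_num) (by linarith [P.hT]) [s]
    (div_one (Le_differentiable _) h0)
    (fun ρ hρ => by rw [List.mem_singleton] at hρ; subst hρ; exact hd)
  rw [List.map_singleton, List.sum_singleton, eq_re_add, ← Complex.ofReal_one,
    ← Complex.ofReal_div, Complex.ofReal_re] at a2
  have h6 : (1 / η) / 8 ≤ 1 / (1 + 7 * η - s.re) := by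
    rw [div_div]
    exact one_div_le_one_div_of_le (by nlinarith) (by nlinarith)
  have hsq : r0 ^ 2 ≤ s.im ^ 2 := by
    have := pow_le_pow_left₀ hr0.le h4 2
    rwa [sq_abs] at this
  have hr2 : 0 < r0 ^ 2 := by positivity
  have b1 : (7 * η) / ((7 * η) ^ 2 + s.im ^ 2) ≤ E := by
    rw [div_le_iff₀ (by positivity)]
    nlinarith [mul_nonneg hE0.le (sub_nonneg.2 hsq), mul_nonneg hE0.le (sq_nonneg (7 * η))]
  have b2 : (7 * η) / ((7 * η) ^ 2 + (2 * s.im) ^ 2) ≤ E := by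
    rw [div_le_iff₀ (by positivity)]
    nlinarith [mul_nonneg hE0.le (sub_nonneg.2 hsq), mul_nonneg hE0.le (sq_nonneg (7 * η)),
      mul_nonneg hE0.le (sq_nonneg s.im)]
  linarith

lemma Le_ne_zero {q : ℕ} [NeZero q] (χ : DirichletCharacter ℂ q) {s : ℂ} (h : 1 ≤ s.re) :
    Le χ s ≠ 0 := by
  by_cases hχ : χ = 1
  · subst hχ
    rw [Le_one]
    by_cases hs : s = 1
    · subst hs
      exact DirichletCharacter.LFunctionTrivChar₁_apply_one_ne_zero q
    · rw [DirichletCharacter.LFunctionTrivChar₁, Function.update_of_ne hs]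
      exact mul_ne_zero (sub_ne_zero.2 hs)
        (DirichletCharacter.LFunction_ne_zero_of_one_le_re 1 (Or.inr hs) h)
  · rw [Le_of_ne hχ]
    exact DirichletCharacter.LFunction_ne_zero_of_one_le_re χ (Or.inl hχ) h

/-- `DD` in terms of `Le`, principal character -/
lemma DD_one {q : ℕ} [NeZero q] {s : ℂ} (h : 1 < s.re) :
    (DD (1 : DirichletCharacter ℂ q) s).re =
      -(deriv (Le (1 : DirichletCharacter ℂ q)) s / Le (1 : DirichletCharacter ℂ q) s).re
        + (1 / (s - 1)).re := by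
  have hs1 : s ≠ 1 := by rintro rfl; simp at h
  have hs1' : s - 1 ≠ 0 := sub_ne_zero.2 hs1
  have hL : (1 : DirichletCharacter ℂ q).LFunction s ≠ 0 :=
    DirichletCharacter.LFunction_ne_zero_of_one_le_re 1 (Or.inr hs1) h.le
  have e : deriv (Le (1 : DirichletCharacter ℂ q)) s / Le (1 : DirichletCharacter ℂ q) s =
      deriv (1 : DirichletCharacter ℂ q).LFunction s / (1 : DirichletCharacter ℂ q).LFunction s
        + 1 / (s - 1) := by
    rw [Le_one, DirichletCharacter.deriv_LFunctionTrivChar₁_apply_of_ne_one q hs1,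
      DirichletCharacter.LFunctionTrivChar₁, Function.update_of_ne hs1]
    unfold DirichletCharacter.LFunctionTrivChar
    field_simp
  rw [e, DD_eq _ h, add_re, neg_re]
  ring

/-- all moduli up to `Z ^ 2` -/
lemma exists_loc (hZL : Stmt_ZL) (hLF : Stmt_LF) (hGRW : Stmt_GRW) :
    ∃ E1 : ℝ, 1 ≤ E1 ∧ ∀ c : ℝ, 0 < c → 1000 * E1 * c < 1 → ∀ᶠ Z : ℕ in atTop,
      ∀ (q : ℕ) [NeZero q], q ≤ Z ^ 2 → Loc q Z (c / Real.log Z) (E1 * Real.log Z) := by
  obtain ⟨CL, hCL, hLF⟩ := hLF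
  obtain ⟨CG, hCG, hG⟩ := hGRW
  refine ⟨6 * CL * CG, by nlinarith, fun c hc hc1 => ?_⟩
  have hlog : Tendsto (fun Z : ℕ => Real.log Z) atTop atTop :=
    Real.tendsto_log_atTop.comp tendsto_natCast_atTop_atTop
  have hexp : ∀ᶠ M : ℝ in atTop, 32 * M ^ 2 / c ^ 2 ≤ Real.exp M := by
    have h1 := (Real.isLittleO_pow_exp_atTop (n := 2)).def (show (0 : ℝ) < c ^ 2 / 32 by positivity)
    filter_upwards [h1] with M hM
    rw [Real.norm_eq_abs, Real.norm_eq_abs, abs_of_nonneg (by positivity),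
      abs_of_nonneg (Real.exp_pos M).le] at hM
    rw [div_le_iff₀ (by positivity)]
    linarith
  filter_upwards [hlog.eventually hexp, hlog.eventually_ge_atTop (1000 * c + 1),
    eventually_ge_atTop 3] with Z h1 h2 hZ3 q _ hq
  set M := Real.log Z with hM
  have hM1 : 1 ≤ M := by linarith
  have hM0 : 0 < M := by linarith
  have hZr : (3 : ℝ) ≤ Z := by exact_mod_cast hZ3
  have hη : 0 < c / M := by positivity
  have hη2 : 1000 * (c / M) ≤ 1 := by
    rw [← mul_div_assoc, div_le_one hM0]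
    linarith
  have hm : 0 < 3 * CG * M := by positivity
  -- the growth bound
  have grow : ∀ (χ : DirichletCharacter ℂ q) (k t : ℝ), 1 ≤ k → k ≤ 100 → |t| ≤ 2 * (Z : ℝ) →
      ∀ s ∈ closedBall ((((1 + k * (c / M) : ℝ) : ℂ)) + t * I) (1 / 2),
        ‖Le χ s‖ ≤ Real.exp (3 * CG * M) * ‖Le χ ((((1 + k * (c / M) : ℝ) : ℂ)) + t * I)‖ := by
    intro χ k t hk1 hk2 ht s hs
    rw [mem_closedBall, dist_eq_norm] at hs
    have a1 := (abs_re_le_norm _).trans hs
    have a2 := (abs_im_le_norm _).trans hs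
    have r0 : ((((1 + k * (c / M) : ℝ) : ℂ)) + t * I).re = 1 + k * (c / M) := by simp
    have i0 : ((((1 + k * (c / M) : ℝ) : ℂ)) + t * I).im = t := by simp
    rw [sub_re, r0, abs_le] at a1
    rw [sub_im, i0, abs_le] at a2
    rw [abs_le] at ht
    have hk3 : k * (c / M) ≤ 1 / 10 := by nlinarith
    have hk4 : c / M ≤ k * (c / M) := by nlinarith
    have hq' : q ≤ (2 * Z) ^ 2 := hq.trans (Nat.pow_le_pow_left (by omega) 2)
    have b1 := (hG (2 * Z) (by omega) q χ (Nat.pos_of_ne_zero (NeZero.ne q)) hq' s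
      (by linarith) (by linarith) (by push_cast; rw [abs_le]; constructor <;> linarith)).1
    have b2 := (hG (2 * Z) (by omega) q χ (Nat.pos_of_ne_zero (NeZero.ne q)) hq'
      ((((1 + k * (c / M) : ℝ) : ℂ)) + t * I)
      (by rw [r0]; linarith) (by rw [r0]; linarith)
      (by rw [i0]; push_cast; rw [abs_le]; constructor <;> linarith)).2 (by rw [r0]; linarith)
    rw [r0] at b2
    have b3 : (c / M) ^ 2 / 32 ≤ ‖Le χ ((((1 + k * (c / M) : ℝ) : ℂ)) + t * I)‖ := by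
      refine le_trans ?_ b2
      have : (c / M) ^ 2 ≤ (1 + k * (c / M) - 1) ^ 2 :=
        pow_le_pow_left₀ hη.le (by linarith) 2
      linarith
    have b4 : (((2 * Z : ℕ) : ℝ)) ^ CG ≤ Real.exp (2 * CG * M) := by
      have h2Z : (0 : ℝ) < ((2 * Z : ℕ) : ℝ) := by push_cast; linarith
      rw [Real.rpow_def_of_pos h2Z]
      apply Real.exp_le_exp.2
      have : Real.log ((2 * Z : ℕ) : ℝ) ≤ 2 * M := by
        have e : (2 : ℝ) * M = Real.log ((Z : ℝ) ^ 2) := by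
          rw [Real.log_pow, hM]
          push_cast
          ring
        rw [e]
        apply Real.log_le_log h2Z
        push_cast
        nlinarith
      nlinarith
    have b5 : Real.exp M * ((c / M) ^ 2 / 32) ≥ 1 := by
      have e : (1 : ℝ) = 32 * M ^ 2 / c ^ 2 * ((c / M) ^ 2 / 32) := by
        field_simp
      calc Real.exp M * ((c / M) ^ 2 / 32) ≥ 32 * M ^ 2 / c ^ 2 * ((c / M) ^ 2 / 32) :=
            mul_le_mul_of_nonneg_right h1 (by positivity)
        _ = 1 := e.symm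
    calc ‖Le χ s‖ ≤ (((2 * Z : ℕ) : ℝ)) ^ CG := b1
      _ ≤ Real.exp (2 * CG * M) := b4
      _ = Real.exp (2 * CG * M) * 1 := (mul_one _).symm
      _ ≤ Real.exp (2 * CG * M) * (Real.exp M * ((c / M) ^ 2 / 32)) :=
          mul_le_mul_of_nonneg_left b5 (Real.exp_pos _).le
      _ = Real.exp (2 * CG * M + M) * ((c / M) ^ 2 / 32) := by rw [Real.exp_add]; ring
      _ ≤ Real.exp (3 * CG * M) * ‖Le χ ((((1 + k * (c / M) : ℝ) : ℂ)) + t * I)‖ := by
          apply mul_le_mul _ b3 (by positivity) (Real.exp_pos _).le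
          apply Real.exp_le_exp.2
          nlinarith
  -- consequence
  have main : ∀ (χ : DirichletCharacter ℂ q) (k t : ℝ), 1 ≤ k → k ≤ 100 → |t| ≤ 2 * (Z : ℝ) →
      ∀ L : List ℂ, Div (Le χ) L →
      (∀ ρ ∈ L, ‖ρ - ((((1 + k * (c / M) : ℝ) : ℂ)) + t * I)‖ ≤ 50 * (c / M)) →
      -(deriv (Le χ) ((((1 + k * (c / M) : ℝ) : ℂ)) + t * I) /
        Le χ ((((1 + k * (c / M) : ℝ) : ℂ)) + t * I)).re ≤ 6 * CL * CG * M -
        (L.map fun ρ => (1 / (((((1 + k * (c / M) : ℝ) : ℂ)) + t * I) - ρ)).re).sum := by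
    intro χ k t hk1 hk2 ht L hL hL2
    have r0 : ((((1 + k * (c / M) : ℝ) : ℂ)) + t * I).re = 1 + k * (c / M) := by simp
    have hk4 : 0 < k * (c / M) := by positivity
    have := loc_list hZL hLF hL (s0 := (((1 + k * (c / M) : ℝ) : ℂ)) + t * I) hm
      (Le_ne_zero χ (by rw [r0]; linarith)) (grow χ k t hk1 hk2 ht)
      (fun s hs => by
        rw [r0]
        by_contra hcon
        push Not at hcon
        exact Le_ne_zero χ (by linarith) hs)
      (fun ρ hρ => (hL2 ρ hρ).trans (by linarith))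
    linarith
  refine ⟨by linarith, hη, hη2, by positivity, ?_, ?_, ?_⟩
  · have : 1 / (c / M) = M / c := by rw [one_div_div]
    rw [this, lt_div_iff₀ hc]
    nlinarith
  · intro χ hχ k t hk1 hk2 ht L hL hL2
    have r0 : ((((1 + k * (c / M) : ℝ) : ℂ)) + t * I).re = 1 + k * (c / M) := by simp
    have hk4 : 0 < k * (c / M) := by positivity
    rw [DD_eq χ (by rw [r0]; linarith), neg_re]
    have := main χ k t hk1 hk2 ht L (by rw [Le_of_ne hχ]; exact hL) hL2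
    rw [Le_of_ne hχ] at this
    exact this
  · intro k t hk1 hk2 ht L hL hL2
    have r0 : ((((1 + k * (c / M) : ℝ) : ℂ)) + t * I).re = 1 + k * (c / M) := by simp
    have hk4 : 0 < k * (c / M) := by positivity
    rw [DD_one (by rw [r0]; linarith)]
    have h3 := main 1 k t hk1 hk2 ht L hL hL2
    have e : ((((1 + k * (c / M) : ℝ) : ℂ)) + t * I) - 1 = (((k * (c / M) : ℝ) : ℂ)) + t * I := by
      push_cast; ring
    rw [e, re_one_div]
    linarith

/-- the list of zeros divides `Le` -/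
lemma div_zl (hZS : Stmt_ZSPEC) {Z : ℕ} {x : Ch} (hx : x.1 ≠ 0) : Div (Le x.2) (zl x Z) := by
  obtain ⟨h1, -, -⟩ := hZS Z x hx
  have h2 : Div (Le x.2) (zb x Z) := ⟨gb x Z, h1.diff, h1.fac⟩
  have h3 : ((zl x Z) ++ (zb x Z).filter fun ρ => !decide (9 / 10 ≤ ρ.re ∧ |ρ.im| ≤ (Z : ℝ))).Perm
      (zb x Z) := List.filter_append_perm _ _
  exact (h2.perm h3.symm).sub

lemma mem_Fam {Z : ℕ} {x : Ch} (h : x ∈ Fam Z) : x.1 ≠ 0 ∧ x.1 ≤ Z ∧ x.2.IsPrimitive := by
  unfold Fam at h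
  rw [Finset.mem_sigma, Finset.mem_Ioc] at h
  obtain ⟨⟨h1, h2⟩, h3⟩ := h
  unfold PC at h3
  rw [Finset.mem_filter] at h3
  exact ⟨by omega, h2, h3.2⟩

lemma lift_ne {x y : Ch} [NeZero x.1] [NeZero y.1] (hx : x.2.IsPrimitive) (hy : y.2.IsPrimitive)
    (h : DirichletCharacter.changeLevel (dvd_mul_right x.1 y.1) x.2 =
      DirichletCharacter.changeLevel (dvd_mul_left y.1 x.1) y.2) : x = y := by
  obtain ⟨q1, χ1⟩ := x
  obtain ⟨q2, χ2⟩ := y
  simp only at *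
  have hc := congrArg DirichletCharacter.conductor h
  rw [DirichletCharacter.conductor_changeLevel, DirichletCharacter.conductor_changeLevel,
    (DirichletCharacter.isPrimitive_def _).1 hx, (DirichletCharacter.isPrimitive_def _).1 hy] at hc
  subst hc
  have := DirichletCharacter.changeLevel_injective _ h
  rw [this]

end ZFR

open ZFR in
theorem stmt_ZFR (hZL : Stmt_ZL) (hLF : Stmt_LF) (hGRW : Stmt_GRW) (hZS : Stmt_ZSPEC) :
    Stmt_ZFR := by
  obtain ⟨E1, hE1, hLoc⟩ := exists_loc hZL hLF hGRW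
  set c : ℝ := 1 / (2000 * E1) with hc
  have hc0 : 0 < c := by positivity
  have hc1 : 1000 * E1 * c < 1 := by
    rw [hc]
    have : 1000 * E1 * (1 / (2000 * E1)) = 1 / 2 := by field_simp; norm_num
    rw [this]
    norm_num
  have hc2 : c ≤ 1 / 20 := by
    rw [hc]
    exact one_div_le_one_div_of_le (by norm_num) (by linarith)
  -- zeta near one
  obtain ⟨r0, hr0, hr0'⟩ : ∃ r0 : ℝ, 0 < r0 ∧ ∀ s : ℂ, ‖s - 1‖ < r0 →
      Le (1 : DirichletCharacter ℂ 1) s ≠ 0 := by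
    have h1 : Le (1 : DirichletCharacter ℂ 1) 1 ≠ 0 := Le_ne_zero 1 (by simp)
    have h2 : ∀ᶠ s in 𝓝 (1 : ℂ), Le (1 : DirichletCharacter ℂ 1) s ≠ 0 :=
      (Le_differentiable (1 : DirichletCharacter ℂ 1)).continuous.continuousAt.eventually_ne h1
    rw [Metric.eventually_nhds_iff] at h2
    obtain ⟨r, hr, h3⟩ := h2
    exact ⟨r, hr, fun s hs => h3 (by rwa [dist_eq_norm])⟩
  have hlog : Tendsto (fun Z : ℕ => Real.log Z) atTop atTop :=
    Real.tendsto_log_atTop.comp tendsto_natCast_atTop_atTop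
  have hev := (hLoc c hc0 hc1).and ((hlog.eventually_ge_atTop (2 * c / r0 + 56 * c / r0 ^ 2 + 1)).and
    (eventually_ge_atTop 3))
  obtain ⟨Z0, hZ0⟩ := eventually_atTop.1 hev
  refine ⟨c, hc0, hc2, Z0, fun Z hZ => ?_⟩
  obtain ⟨hL, hM1, hZ3⟩ := hZ0 Z hZ
  set M := Real.log Z with hM
  have hx1 : 0 < 2 * c / r0 := by positivity
  have hx2 : 0 < 56 * c / r0 ^ 2 := by positivity
  have hM0 : 0 < M := by linarith
  -- bad zeros belong to nonprincipal characters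
  have hne1 : ∀ x ∈ Fam Z, ∀ ρ ∈ zl x Z, 1 - c / M ≤ ρ.re → x.2 ≠ 1 := by
    rintro ⟨q, χ⟩ hx ρ hρ hre hχ1
    change χ = (1 : DirichletCharacter ℂ q) at hχ1
    subst hχ1
    obtain ⟨hq0, hqZ, hprim⟩ := mem_Fam hx
    haveI : NeZero q := ⟨hq0⟩
    simp only at hq0 hqZ hprim
    have hq1 : q = 1 := by
      rw [DirichletCharacter.isPrimitive_def, DirichletCharacter.conductor_one] at hprim
      exact hprim.symm
    subst hq1
    obtain ⟨h1, h2, h3, h4⟩ := (hZS Z ⟨1, 1⟩ (by simp)).2.2 ρ hρ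
    simp only at h1
    have h5 : r0 ≤ ‖ρ - 1‖ := by
      by_contra hcon
      push Not at hcon
      exact hr0' ρ hcon h1
    have h6 := Complex.norm_le_abs_re_add_abs_im (ρ - 1)
    rw [sub_re, sub_im, one_re, one_im, sub_zero] at h6
    have h7 : |ρ.re - 1| ≤ c / M := by
      rw [abs_le]
      constructor
      · linarith
      · have : 0 < c / M := by positivity
        linarith
    have h8 : c / M ≤ r0 / 2 := by
      rw [div_le_iff₀ hM0]
      have : 2 * c / r0 ≤ M := by linarith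
      rw [div_le_iff₀ hr0] at this
      linarith
    have h9 : r0 / 2 ≤ |ρ.im| := by linarith
    refine (hL 1 (by nlinarith)).caseZ hre h3 h4 h1 (by positivity) h9 ?_
    have h10 : 56 * c / r0 ^ 2 ≤ M := by linarith
    rw [div_le_iff₀ (by positivity)] at h10
    have h11 : 14 * (c / M) ≤ 14 * c := by
      have : c / M ≤ c := div_le_self hc0.le (by linarith)
      linarith
    have h12 : M * r0 ^ 2 ≤ E1 * M * r0 ^ 2 := by
      have : 0 < M * r0 ^ 2 := by positivity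
      nlinarith
    nlinarith
  have hbad : ∀ x ∈ Fam Z, ∀ [NeZero x.1], ∀ ρ ∈ zl x Z, 1 - c / M ≤ ρ.re →
      Bad x.2 (c / M) Z ρ := by
    intro x hx _ ρ hρ hre
    obtain ⟨h1, h2, h3, h4⟩ := (hZS Z x (mem_Fam hx).1).2.2 ρ hρ
    rw [Le_of_ne (hne1 x hx ρ hρ hre)] at h1
    exact ⟨hre, h4, h1⟩
  by_cases hall : ∀ x ∈ Fam Z, ∀ ρ ∈ zl x Z, ρ.re < 1 - c / M
  · exact Or.inl hall
  right
  push Not at hall
  obtain ⟨y, hy, ρ0, hρ0, hre0⟩ := hall
  obtain ⟨hy0, hyZ, hyp⟩ := mem_Fam hy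
  haveI hyne : NeZero y.1 := ⟨hy0⟩
  have hy1 := hne1 y hy ρ0 hρ0 hre0
  have hyb := hbad y hy ρ0 hρ0 hre0
  have hyL : Loc y.1 Z (c / M) (E1 * M) := hL y.1 (by nlinarith)
  have hy2 : y.2 ^ 2 = 1 := hyL.caseA hy1 hyb
  have hy3 : ρ0.im = 0 := hyL.caseB2 hy1 hy2 hyb
  have hlt := hyb.lt_one hy1
  have hρe : ((1 - (1 - ρ0.re) : ℝ) : ℂ) = ρ0 := by
    apply Complex.ext
    · simp
    · simp [hy3]
  refine ⟨y, 1 - ρ0.re, ⟨hy, hy2, hy1, by linarith, ?_⟩, by linarith, ?_⟩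
  · rw [hρe, Le_of_ne hy1]
    exact hyb.2.2
  intro x hx ρ hρ
  by_contra hcon
  push Not at hcon
  unfold zx at hρ
  rw [hρe] at hρ
  by_cases hxy : x = y
  · rw [if_pos hxy] at hρ
    subst hxy
    haveI hxne' : NeZero x.1 := ⟨hy0⟩
    have hρ' : ρ ∈ zl x Z := List.mem_of_mem_erase hρ
    have hp1 : (zl x Z).Perm (ρ0 :: (zl x Z).erase ρ0) := List.perm_cons_erase hρ0
    have hp2 : ((zl x Z).erase ρ0).Perm (ρ :: ((zl x Z).erase ρ0).erase ρ) :=
      List.perm_cons_erase hρ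
    have hp3 : (zl x Z).Perm ([ρ0, ρ] ++ ((zl x Z).erase ρ0).erase ρ) :=
      hp1.trans (hp2.cons ρ0)
    have hd := ((div_zl hZS (Z := Z) hy0).perm hp3).sub
    rw [Le_of_ne hy1] at hd
    exact hyL.two_zeros hy1 hy2 hd hyb (hbad x hx ρ hρ' hcon)
  · rw [if_neg hxy] at hρ
    obtain ⟨hx0, hxZ, hxp⟩ := mem_Fam hx
    haveI hxne : NeZero x.1 := ⟨hx0⟩
    have hx1' := hne1 x hx ρ hρ hcon
    have hxb := hbad x hx ρ hρ hcon
    haveI : NeZero (x.1 * y.1) := ⟨Nat.mul_ne_zero hx0 hy0⟩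
    have hN : x.1 * y.1 ≤ Z ^ 2 := by
      rw [sq]
      exact Nat.mul_le_mul hxZ hyZ
    have P := hL (x.1 * y.1) hN
    have hηM : c / M ≤ 1 / 2 := by
      have := P.hη2
      linarith
    have hc1 : DirichletCharacter.changeLevel (dvd_mul_right x.1 y.1) x.2 ≠ 1 := by
      rw [Ne, DirichletCharacter.changeLevel_eq_one_iff]
      exact hx1'
    have hc2 : DirichletCharacter.changeLevel (dvd_mul_left y.1 x.1) y.2 ≠ 1 := by
      rw [Ne, DirichletCharacter.changeLevel_eq_one_iff]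
      exact hy1
    have b1 : Bad (DirichletCharacter.changeLevel (dvd_mul_right x.1 y.1) x.2) (c / M) Z ρ :=
      ⟨hxb.1, hxb.2.1, (Pool.Agent.Work.MP_b0c12c_nt.Exc.lift_zero_iff _ x.2 hx1'
        (by linarith [hxb.1])).2 hxb.2.2⟩
    have b2 : Bad (DirichletCharacter.changeLevel (dvd_mul_left y.1 x.1) y.2) (c / M) Z ρ0 :=
      ⟨hyb.1, hyb.2.1, (Pool.Agent.Work.MP_b0c12c_nt.Exc.lift_zero_iff _ y.2 hy1
        (by linarith [hyb.1])).2 hyb.2.2⟩
    exact hxy (lift_ne hxp hyp (P.caseC hc1 hc2 b1 b2))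

end Pool.Agent.PS
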