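import Pool.Agent.Work.PS.Interface

/-!
ZS: sums over zeros from the log-free density theorem and the zero-free region.
-/

set_option autoImplicit false

namespace Pool.Agent.PS

open Finset ArithmeticFunction Metric

/-- Layer-cake bound for one list. -/
theorem zs_le_layers (L : List ℂ) (Y a : ℝ) (K : ℕ) (hY : 1 ≤ Y) (ha : 0 < a)
    (hK : 1 ≤ 10 * (K * a)) (h : ∀ ρ ∈ L, 9 / 10 ≤ ρ.re ∧ ρ.re ≤ 1 - a) :
    zs L Y ≤ ∑ k ∈ Icc 1 K, (cnt L (1 - min ((k + 1) * a) (1 / 10)) : ℝ) * Y ^ (-(k * a)) := by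
  have hY0 : 0 < Y := by linarith
  induction L with
  | nil =>
    simp [zs, cnt]
  | cons ρ L ih =>
    have ih' := ih fun σ hσ => h σ (List.mem_cons_of_mem _ hσ)
    obtain ⟨h1, h2⟩ := h ρ List.mem_cons_self
    have hzs : zs (ρ :: L) Y = Y ^ (ρ.re - 1) + zs L Y := by simp [zs]
    have hcnt : ∀ σ : ℝ, (cnt (ρ :: L) σ : ℝ) = (if σ ≤ ρ.re then 1 else 0) + cnt L σ := by
      intro σ
      unfold cnt
      by_cases hσ : σ ≤ ρ.re
      · simp [hσ]; ring
      · simp [hσ]
    have hsum : ∑ k ∈ Icc 1 K, (cnt (ρ :: L) (1 - min ((k + 1) * a) (1 / 10)) : ℝ) *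
          Y ^ (-(k * a)) =
        ∑ k ∈ Icc 1 K, (if (1 - min (((k : ℝ) + 1) * a) (1 / 10)) ≤ ρ.re then (1 : ℝ) else 0) *
          Y ^ (-(k * a)) +
        ∑ k ∈ Icc 1 K, (cnt L (1 - min ((k + 1) * a) (1 / 10)) : ℝ) * Y ^ (-(k * a)) := by
      rw [← Finset.sum_add_distrib]
      refine Finset.sum_congr rfl fun k _ => ?_
      rw [hcnt]; ring
    rw [hzs, hsum]
    refine add_le_add ?_ ih'
    set t := 1 - ρ.re with ht
    set k0 := ⌊t / a⌋₊ with hk0
    have hta : 0 ≤ t / a := div_nonneg (by linarith) ha.le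
    have hf1 : (k0 : ℝ) ≤ t / a := Nat.floor_le hta
    have hf2 : t / a < k0 + 1 := Nat.lt_floor_add_one _
    have hk1 : 1 ≤ k0 := by
      rw [hk0]
      refine (Nat.le_floor_iff hta).2 ?_
      rw [Nat.cast_one, le_div_iff₀ ha]; linarith
    have hk2 : k0 ≤ K := by
      have : (k0 : ℝ) ≤ K := by
        refine hf1.trans ?_
        rw [div_le_iff₀ ha]
        linarith
      exact_mod_cast this
    have hle1 : (k0 : ℝ) * a ≤ t := by rwa [le_div_iff₀ ha] at hf1
    have hle2 : t < (k0 + 1) * a := by rwa [div_lt_iff₀ ha] at hf2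
    have hpos : ∀ k ∈ Icc 1 K, (0 : ℝ) ≤
        (if (1 - min (((k : ℝ) + 1) * a) (1 / 10)) ≤ ρ.re then (1 : ℝ) else 0) *
          Y ^ (-(k * a)) := by
      intro k _
      refine mul_nonneg ?_ (Real.rpow_nonneg hY0.le _)
      split_ifs <;> norm_num
    refine le_trans ?_ (Finset.single_le_sum hpos (mem_Icc.2 ⟨hk1, hk2⟩))
    have hcond : 1 - min (((k0 : ℝ) + 1) * a) (1 / 10) ≤ ρ.re := by
      have : t ≤ min (((k0 : ℝ) + 1) * a) (1 / 10) := le_min hle2.le (by linarith)
      linarith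
    rw [if_pos hcond, one_mul]
    exact Real.rpow_le_rpow_of_exponent_le hY (by linarith)

/-- The sum of all layers. -/
theorem sum_zs_le {S : Finset Ch} {Z : ℕ} (L : Ch → List ℂ) {Y c C B : ℝ} (hY : 1 ≤ Y)
    (hc : 0 < c) (hC : 0 ≤ C) (hB : 0 ≤ B) (hl : 0 < Real.log Z)
    (h : ∀ x ∈ S, ∀ ρ ∈ L x, 9 / 10 ≤ ρ.re ∧ ρ.re ≤ 1 - c / Real.log Z)
    (hd : ∀ r : ℝ, 0 ≤ r → r ≤ 1 / 10 →
      ∑ x ∈ S, (cnt (L x) (1 - r) : ℝ) ≤ B * Real.exp (C * r * Real.log Z))
    (hw : 1 ≤ c * (Real.log Y / Real.log Z - 2 * C)) :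
    ∑ x ∈ S, zs (L x) Y ≤ 2 * B * Real.exp (-(c * (Real.log Y / Real.log Z - 2 * C))) := by
  have hY0 : 0 < Y := by linarith
  set l := Real.log Z with hldef
  set a := c / l with ha
  have ha0 : 0 < a := div_pos hc hl
  set K := ⌈1 / (10 * a)⌉₊ with hK
  have hK1 : 1 ≤ 10 * (K * a) := by
    have := Nat.le_ceil (1 / (10 * a))
    rw [div_le_iff₀ (by positivity)] at this
    rw [← hK] at this
    linarith
  set w := c * (Real.log Y / l - 2 * C) with hwdef
  calc ∑ x ∈ S, zs (L x) Y
      ≤ ∑ x ∈ S, ∑ k ∈ Icc 1 K,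
          (cnt (L x) (1 - min ((k + 1) * a) (1 / 10)) : ℝ) * Y ^ (-(k * a)) :=
        Finset.sum_le_sum fun x hx => zs_le_layers (L x) Y a K hY ha0 hK1 (h x hx)
    _ = ∑ k ∈ Icc 1 K, (∑ x ∈ S, (cnt (L x) (1 - min ((k + 1) * a) (1 / 10)) : ℝ)) *
          Y ^ (-(k * a)) := by
        rw [Finset.sum_comm]
        exact Finset.sum_congr rfl fun k _ => (Finset.sum_mul _ _ _).symm
    _ ≤ ∑ k ∈ Icc 1 K, B * Real.exp (-w) ^ k := by
        refine Finset.sum_le_sum fun k hk => ?_
        have hk1 : (1 : ℝ) ≤ k := by exact_mod_cast (mem_Icc.1 hk).1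
        have hr0 : 0 ≤ min (((k : ℝ) + 1) * a) (1 / 10) := le_min (by positivity) (by norm_num)
        have h1 := hd _ hr0 (min_le_right _ _)
        have h2 : Y ^ (-((k : ℝ) * a)) = Real.exp (-((k : ℝ) * a) * Real.log Y) := by
          rw [Real.rpow_def_of_pos hY0, mul_comm]
        rw [h2]
        calc (∑ x ∈ S, (cnt (L x) (1 - min ((k + 1) * a) (1 / 10)) : ℝ)) *
              Real.exp (-((k : ℝ) * a) * Real.log Y)
            ≤ (B * Real.exp (C * min (((k : ℝ) + 1) * a) (1 / 10) * l)) *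
              Real.exp (-((k : ℝ) * a) * Real.log Y) :=
              mul_le_mul_of_nonneg_right h1 (Real.exp_pos _).le
          _ = B * Real.exp (C * min (((k : ℝ) + 1) * a) (1 / 10) * l +
                -((k : ℝ) * a) * Real.log Y) := by rw [mul_assoc, ← Real.exp_add]
          _ ≤ B * Real.exp (k * -w) := by
              refine mul_le_mul_of_nonneg_left (Real.exp_le_exp.2 ?_) hB
              have h3 : C * min (((k : ℝ) + 1) * a) (1 / 10) * l ≤ C * (((k : ℝ) + 1) * a) * l := by
                gcongr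
                exact min_le_left _ _
              have h4 : C * (((k : ℝ) + 1) * a) * l = C * (k + 1) * c := by
                rw [ha]; field_simp
              have h5 : C * ((k : ℝ) + 1) * c ≤ k * (c * (2 * C)) := by
                nlinarith [mul_nonneg hC hc.le]
              have h6 : -((k : ℝ) * a) * Real.log Y = -(k * (c * (Real.log Y / l))) := by
                rw [ha]; field_simp
              rw [hwdef, h6]
              nlinarith
          _ = B * Real.exp (-w) ^ k := by rw [← Real.exp_nat_mul]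
    _ = B * ∑ k ∈ Icc 1 K, Real.exp (-w) ^ k := by rw [Finset.mul_sum]
    _ ≤ B * (2 * Real.exp (-w)) := by
        refine mul_le_mul_of_nonneg_left ?_ hB
        set u := Real.exp (-w) with hu
        have hu0 : 0 < u := Real.exp_pos _
        have hu1 : u ≤ 1 / 2 := by
          have h7 : u ≤ Real.exp (-1) := Real.exp_le_exp.2 (by linarith)
          have h8 : Real.exp (-1) ≤ 1 / 2 := by
            rw [Real.exp_neg, inv_eq_one_div]
            have := Real.add_one_le_exp (1 : ℝ)
            exact one_div_le_one_div_of_le (by norm_num) (by linarith)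
          linarith
        have key : ∀ n : ℕ, ∑ k ∈ Icc 1 n, u ^ k ≤ 2 * u - 2 * u * u ^ n := by
          intro n
          induction n with
          | zero => simp
          | succ n ih =>
            rw [Finset.sum_Icc_succ_top (by omega)]
            have hun : 0 ≤ u ^ n := by positivity
            have h9 : u ^ (n + 1) = u * u ^ n := by ring
            rw [h9]
            nlinarith [mul_nonneg hu0.le hun, mul_nonneg (mul_nonneg hu0.le hun)
              (by linarith : (0 : ℝ) ≤ 1 / 2 - u)]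
        have := key K
        have hun : 0 ≤ u ^ K := by positivity
        nlinarith [mul_nonneg hu0.le hun]
    _ = 2 * B * Real.exp (-w) := by ring

theorem stmt_ZS (hspec : Stmt_ZSPEC) (hzfr : Stmt_ZFR) (hdens : Stmt_DENS)
    (hdensx : Stmt_DENSX) : Stmt_ZS := by
  intro ε hε
  obtain ⟨c0, hc0, hc0', Z0, hZ0⟩ := hzfr
  obtain ⟨C₁, hC₁, hD⟩ := hdens
  obtain ⟨C₂, hC₂, hX⟩ := hdensx
  set C := max C₁ C₂ with hC
  have hC1 : 1 ≤ C := hC₁.trans (le_max_left _ _)
  set c1 := min c0 (1 / C₂) with hc1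
  have hc1pos : 0 < c1 := lt_min hc0 (by positivity)
  have hc1le : c1 ≤ c0 := min_le_left _ _
  set T := 1 + |Real.log (2 * C / ε)| with hT
  have hT1 : 1 ≤ T := by rw [hT]; linarith [abs_nonneg (Real.log (2 * C / ε))]
  set M := 2 * C + T / c1 with hM
  have hMpos : 0 < M := by positivity
  have hsmall : 2 * C * Real.exp (-T) ≤ ε := by
    have h1 : Real.exp (-T) ≤ Real.exp (-Real.log (2 * C / ε)) :=
      Real.exp_le_exp.2 (by rw [hT]; linarith [le_abs_self (Real.log (2 * C / ε))])
    rw [Real.exp_neg (Real.log _), Real.exp_log (by positivity)] at h1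
    calc 2 * C * Real.exp (-T) ≤ 2 * C * (2 * C / ε)⁻¹ := by gcongr
      _ = ε := by field_simp
  refine ⟨1 / M, by positivity, max Z0 (max ⌈C⌉₊ 3), ?_⟩
  intro Z hZ Y hY hZY
  have hZZ0 : Z0 ≤ Z := le_trans (le_max_left _ _) hZ
  have hZC : C ≤ Z := (Nat.le_ceil C).trans
    (by exact_mod_cast (le_trans (le_max_left _ _) (le_max_right _ _)).trans hZ)
  have hZ3 : 3 ≤ Z := le_trans (le_trans (le_max_right _ _) (le_max_right _ _)) hZ
  have hZpos : (0 : ℝ) < Z := by exact_mod_cast (by omega : 0 < Z)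
  have hY0 : 0 < Y := by linarith
  have hl1 : 1 ≤ Real.log Z := by
    rw [Real.le_log_iff_exp_le hZpos]
    have : Real.exp 1 ≤ 3 := by linarith [Real.exp_one_lt_d9]
    exact this.trans (by exact_mod_cast hZ3)
  have hl0 : 0 < Real.log Z := by linarith
  have hlY : M * Real.log Z ≤ Real.log Y := by
    have h1 := Real.log_le_log hZpos hZY
    rw [Real.log_rpow hY0] at h1
    have h2 := mul_le_mul_of_nonneg_left h1 hMpos.le
    rw [← mul_assoc, mul_one_div_cancel hMpos.ne', one_mul] at h2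
    exact h2
  have hratio : M ≤ Real.log Y / Real.log Z := by rwa [le_div_iff₀ hl0]
  have hYl : Real.log Z ≤ Real.log Y := by
    have : 1 ≤ M := by rw [hM]; have : 0 < T / c1 := by positivity
                       linarith
    nlinarith
  -- the bound on the exponent
  have hwgen : ∀ c, c1 ≤ c → T ≤ c * (Real.log Y / Real.log Z - 2 * C) := by
    intro c hc
    have h1 : T / c1 ≤ Real.log Y / Real.log Z - 2 * C := by rw [hM] at hratio; linarith
    calc T = c1 * (T / c1) := by field_simp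
      _ ≤ c * (Real.log Y / Real.log Z - 2 * C) := by
        refine mul_le_mul hc h1 (by positivity) (by linarith)
  have hspec' : ∀ x ∈ Fam Z, ∀ ρ ∈ zl x Z, 9 / 10 ≤ ρ.re := by
    intro x hx ρ hρ
    have hx0 : x.1 ≠ 0 := by
      have := (Finset.mem_sigma.1 hx).1
      have := (mem_Ioc.1 this).1
      omega
    exact ((hspec Z x hx0).2.2 ρ hρ).2.1
  -- density with the common constant
  have hDC : ∀ r : ℝ, 0 ≤ r → r ≤ 1 / 10 →
      ∑ x ∈ Fam Z, (cnt (zl x Z) (1 - r) : ℝ) ≤ C * Real.exp (C * r * Real.log Z) := by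
    intro r hr0 hr1
    refine (hD Z ((le_max_left _ _).trans hZC) r hr0 hr1).trans ?_
    have h1 : C₁ ≤ C := le_max_left _ _
    have h2 : Real.exp (C₁ * r * Real.log Z) ≤ Real.exp (C * r * Real.log Z) :=
      Real.exp_le_exp.2 (by gcongr)
    exact mul_le_mul h1 h2 (Real.exp_pos _).le (by linarith)
  -- first alternative
  have first : ∀ c, c1 ≤ c → (∀ x ∈ Fam Z, ∀ ρ ∈ zl x Z, ρ.re ≤ 1 - c / Real.log Z) →
      ∑ x ∈ Fam Z, zs (zl x Z) Y ≤ ε := by
    intro c hc hzero
    have hw := hwgen c hc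
    have h1 := sum_zs_le (S := Fam Z) (Z := Z) (fun x => zl x Z) (Y := Y) (c := c) (C := C)
      (B := C) hY (by linarith) (by linarith) (by linarith) hl0
      (fun x hx ρ hρ => ⟨hspec' x hx ρ hρ, hzero x hx ρ hρ⟩) hDC (hT1.trans hw)
    refine h1.trans (le_trans ?_ hsmall)
    have h2 : Real.exp (-(c * (Real.log Y / Real.log Z - 2 * C))) ≤ Real.exp (-T) :=
      Real.exp_le_exp.2 (by linarith)
    gcongr
  rcases hZ0 Z hZZ0 with hno | ⟨y, δ, hexc, hδ, hzero⟩
  · exact Or.inl (first c0 hc1le fun x hx ρ hρ => (hno x hx ρ hρ).le)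
  · by_cases hδ1 : δ ≤ c1 / Real.log Z
    · right
      refine ⟨y, δ, hexc, hδ.trans (by gcongr; linarith), ?_⟩
      have hδ2 : δ ≤ 1 / (C₂ * Real.log Z) := by
        refine hδ1.trans ?_
        rw [div_le_iff₀ hl0, div_mul_eq_mul_div, mul_comm C₂, one_mul,
          mul_comm (Real.log Z) C₂, div_mul_cancel_right₀ hl0.ne']
        rw [inv_eq_one_div]
        exact min_le_right _ _
      have hδl : 0 < δ * Real.log Z := mul_pos hexc.pos hl0
      have hδl1 : C₂ * (δ * Real.log Z) ≤ 1 := by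
        rw [le_div_iff₀ (by positivity)] at hδ2
        linarith
      have hsub : ∀ x, ∀ ρ ∈ zx Z y δ x, ρ ∈ zl x Z := by
        intro x ρ hρ
        unfold zx at hρ
        split_ifs at hρ
        · exact List.mem_of_mem_erase hρ
        · exact hρ
      have hw := hwgen c0 hc1le
      have hDX : ∀ r : ℝ, 0 ≤ r → r ≤ 1 / 10 →
          ∑ x ∈ Fam Z, (cnt (zx Z y δ x) (1 - r) : ℝ) ≤
            C₂ * (δ * Real.log Z) * Real.exp (C * r * Real.log Z) := by
        intro r hr0 hr1
        refine (hX Z ((le_max_right _ _).trans hZC) y δ hexc hδ2 r hr0 hr1).trans ?_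
        have h2 : Real.exp (C₂ * r * Real.log Z) ≤ Real.exp (C * r * Real.log Z) :=
          Real.exp_le_exp.2 (by gcongr; exact le_max_right _ _)
        exact mul_le_mul_of_nonneg_left h2 (by positivity)
      have h1 := sum_zs_le (S := Fam Z) (Z := Z) (fun x => zx Z y δ x) (Y := Y) (c := c0) (C := C)
        (B := C₂ * (δ * Real.log Z)) hY hc0 (by linarith) (by positivity) hl0
        (fun x hx ρ hρ => ⟨hspec' x hx ρ (hsub x ρ hρ), (hzero x hx ρ hρ).le⟩) hDX (hT1.trans hw)
      have h2 : Real.exp (-(c0 * (Real.log Y / Real.log Z - 2 * C))) ≤ Real.exp (-T) :=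
        Real.exp_le_exp.2 (by linarith)
      have h3 : 2 * (C₂ * (δ * Real.log Z)) *
          Real.exp (-(c0 * (Real.log Y / Real.log Z - 2 * C))) ≤
          (2 * C * Real.exp (-T)) * (δ * Real.log Z) := by
        have h4 : C₂ ≤ C := le_max_right _ _
        calc 2 * (C₂ * (δ * Real.log Z)) *
              Real.exp (-(c0 * (Real.log Y / Real.log Z - 2 * C)))
            ≤ 2 * (C * (δ * Real.log Z)) * Real.exp (-T) := by gcongr
          _ = (2 * C * Real.exp (-T)) * (δ * Real.log Z) := by ring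
      have h5 : ∑ x ∈ Fam Z, zs (zx Z y δ x) Y ≤ ε * (δ * Real.log Z) :=
        h1.trans (h3.trans (by gcongr))
      rw [mul_min_of_nonneg _ _ hε.le]
      refine le_min ?_ ?_
      · refine h5.trans ?_
        have : δ * Real.log Z ≤ 1 := by nlinarith
        nlinarith
      · refine h5.trans ?_
        have := hexc.pos
        gcongr
    · left
      push Not at hδ1
      refine first c1 le_rfl fun x hx ρ hρ => ?_
      by_cases hxy : x = y
      · by_cases hρ1 : ρ = ((1 - δ : ℝ) : ℂ)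
        · rw [hρ1, Complex.ofReal_re]; linarith
        · have hmem : ρ ∈ zx Z y δ x := by
            unfold zx
            rw [if_pos hxy]
            exact (List.mem_erase_of_ne hρ1).2 hρ
          have h1 := hzero x hx ρ hmem
          have h2 : c1 / Real.log Z ≤ c0 / Real.log Z := by gcongr
          linarith
      · have hmem : ρ ∈ zx Z y δ x := by
          unfold zx
          rw [if_neg hxy]
          exact hρ
        have h1 := hzero x hx ρ hmem
        have h2 : c1 / Real.log Z ≤ c0 / Real.log Z := by gcongr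
        linarith

end Pool.Agent.PS
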