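import Pool.Agent.Work.PS.ZL

/-!
# PS, block ZSPEC: the chosen lists of zeros
-/

set_option autoImplicit false

namespace Pool.Agent.PS

open Finset Metric DirichletCharacter
open Pool.Agent.Work.MP_b0c12c_nt_helper70
open scoped Classical

theorem Le_differentiable {q : ℕ} (χ : DirichletCharacter ℂ q) : Differentiable ℂ (Le χ) := by
  by_cases h : q = 0
  · unfold Le
    rw [dif_pos h]
    exact differentiable_const _
  · have : NeZero q := ⟨h⟩
    by_cases h1 : χ = 1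
    · rw [h1, Le_one]
      exact differentiable_LFunctionTrivChar₁ q
    · rw [Le_of_ne h1]
      exact differentiable_LFunction h1

theorem Le_one_apply (q : ℕ) [NeZero q] {s : ℂ} (hs : s ≠ 1) :
    Le (1 : DirichletCharacter ℂ q) s = (s - 1) * LFunction (1 : DirichletCharacter ℂ q) s := by
  rw [Le_one, LFunctionTrivChar₁, Function.update_of_ne hs]

theorem Le_ne_zero {q : ℕ} (χ : DirichletCharacter ℂ q) {s : ℂ} (hs : 1 ≤ s.re) : Le χ s ≠ 0 := by
  by_cases h : q = 0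
  · unfold Le
    rw [dif_pos h]
    exact one_ne_zero
  · have : NeZero q := ⟨h⟩
    by_cases h1 : χ = 1
    · rw [h1]
      by_cases h2 : s = 1
      · rw [h2, Le_one]
        exact LFunctionTrivChar₁_apply_one_ne_zero q
      · rw [Le_one_apply q h2]
        exact mul_ne_zero (sub_ne_zero.2 h2) (LFunction_ne_zero_of_one_le_re _ (Or.inr h2) hs)
    · rw [Le_of_ne h1]
      exact LFunction_ne_zero_of_one_le_re _ (Or.inl h1) hs

theorem PP_eq_zero {L : List ℂ} {ρ : ℂ} (h : ρ ∈ L) : PP L ρ = 0 := by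
  unfold PP
  rw [List.prod_eq_zero_iff, List.mem_map]
  exact ⟨ρ, h, sub_self _⟩

theorem PP_eq_zero_iff {L : List ℂ} {ρ : ℂ} : PP L ρ = 0 ↔ ρ ∈ L := by
  refine ⟨fun h => ?_, PP_eq_zero⟩
  by_contra h1
  exact PP_ne (fun z hz hzr => h1 (by rwa [← hzr])) h

theorem IsZL.zero {f g : ℂ → ℂ} {K : Set ℂ} {L : List ℂ} (h : IsZL f K L g) {ρ : ℂ} (hρ : ρ ∈ L) :
    f ρ = 0 := by
  rw [h.fac, PP_eq_zero hρ, zero_mul]

theorem stmt_ZSPEC : Stmt_ZSPEC := by
  intro Z x _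
  have h : ∃ p : List ℂ × (ℂ → ℂ), IsZL (Le x.2) (closedBall 0 (Z + 10)) p.1 p.2 := by
    obtain ⟨L, g, h⟩ := stmt_ZL (Le x.2) (Le_differentiable x.2)
      ⟨2, Le_ne_zero x.2 (by norm_num)⟩ (closedBall 0 (Z + 10)) isBounded_closedBall
    exact ⟨(L, g), h⟩
  have hz : IsZL (Le x.2) (closedBall 0 (Z + 10)) (zb x Z) (gb x Z) := by
    unfold zb gb
    rw [dif_pos h, dif_pos h]
    exact h.choose_spec
  have hre : ∀ ρ ∈ zb x Z, ρ.re < 1 := by
    intro ρ hρ
    by_contra h1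
    exact Le_ne_zero x.2 (not_lt.1 h1) (hz.zero hρ)
  refine ⟨hz, hre, fun ρ hρ => ?_⟩
  unfold zl at hρ
  rw [List.mem_filter] at hρ
  obtain ⟨h1, h2⟩ := hρ
  simp only [decide_eq_true_eq] at h2
  exact ⟨hz.zero h1, h2.1, hre ρ h1, h2.2⟩

end Pool.Agent.PS
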