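import Pool.Agent.Work.PS.ADL
import Pool.Agent.Work.PS.ADL1
import Pool.Agent.Work.PS.CIRC
import Pool.Agent.Work.PS.CM
import Pool.Agent.Work.PS.DENS
import Pool.Agent.Work.PS.EF
import Pool.Agent.Work.PS.EF1
import Pool.Agent.Work.PS.EXP
import Pool.Agent.Work.PS.FB
import Pool.Agent.Work.PS.FINAL
import Pool.Agent.Work.PS.FX
import Pool.Agent.Work.PS.GAL
import Pool.Agent.Work.PS.GALD
import Pool.Agent.Work.PS.GRW
import Pool.Agent.Work.PS.HLS
import Pool.Agent.Work.PS.K
import Pool.Agent.Work.PS.KQ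
import Pool.Agent.Work.PS.KSUM
import Pool.Agent.Work.PS.KX
import Pool.Agent.Work.PS.LOW
import Pool.Agent.Work.PS.MAJ
import Pool.Agent.Work.PS.MIN
import Pool.Agent.Work.PS.MT
import Pool.Agent.Work.PS.PLS
import Pool.Agent.Work.PS.PX
import Pool.Agent.Work.PS.SIEG
import Pool.Agent.Work.PS.SING
import Pool.Agent.Work.PS.TAU
import Pool.Agent.Work.PS.TUR
import Pool.Agent.Work.PS.WIN2
import Pool.Agent.Work.PS.WS
import Pool.Agent.Work.PS.ZCNT
import Pool.Agent.Work.PS.ZFR
import Pool.Agent.Work.PS.ZL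
import Pool.Agent.Work.PS.ZS
import Pool.Agent.Work.PS.ZSPEC

set_option autoImplicit false

namespace Pool.Agent.PS

/-- Landau-Page: zero-free region with at most one exceptional zero. -/
theorem main_zfr : Stmt_ZFR := stmt_ZFR stmt_ZL stmt_LF stmt_GRW stmt_ZSPEC

/-- hybrid large sieve for primes -/
theorem main_hls : Stmt_HLS := stmt_HLS (stmt_PLS stmt_TAU)

/-- explicit formula for primes in intervals, with characters -/
theorem main_ef : Stmt_EF := stmt_EF (stmt_EF1 stmt_GBD stmt_ZCNT stmt_ZSPEC) stmt_ZSPEC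

/-- abstract log-free density theorem -/
theorem main_adl : Stmt_ADL := stmt_ADL stmt_ADL1 main_hls

/-- Gallagher's log-free zero density theorem -/
theorem main_dens : Stmt_DENS := stmt_DENS main_adl stmt_FB stmt_ZCNT

/-- Bombieri's version of the Deuring-Heilbronn phenomenon -/
theorem main_densx : Stmt_DENSX := stmt_DENSX main_adl stmt_FX stmt_PX stmt_SIEG stmt_ZCNT

/-- sums over zeros -/
theorem main_zs : Stmt_ZS := stmt_ZS stmt_ZSPEC main_zfr main_dens main_densx

/-- the analytic input of the major arcs -/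
theorem main_ws : Stmt_WS := stmt_WS stmt_ZSPEC main_zs main_ef stmt_GALD stmt_SIEG

theorem main_kq : Stmt_KQ := stmt_KQ stmt_TAU stmt_CM

theorem main_ksum : Stmt_KSUM := stmt_KSUM main_kq

theorem main_kx : Stmt_KX := stmt_KX main_kq

/-- lower bound for the major arcs -/
theorem main_low : Stmt_LOW := stmt_LOW stmt_MAJ main_ksum main_kx stmt_K1 stmt_K2 stmt_SING

/-- the exceptional set in a window -/
theorem main_win : Stmt_WIN := stmt_WIN main_ws main_low stmt_CIRC stmt_MIN stmt_SIEG

/-- power saving for the exceptional set in the primorial Goldbach problem -/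
theorem main_final : Stmt_FINAL := stmt_FINAL main_win

end Pool.Agent.PS
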