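import Pool.Agent.Work.PS.InterfaceB

/-!
# Block DIVB: the divisor bound
-/

set_option autoImplicit false

namespace Pool.Agent.PS.DIVB

open Finset

lemma bound (δ : ℝ) (hδ : 0 < δ) : ∃ C : ℝ, 0 < C ∧ ∀ n : ℕ, 0 < n →
    (n.divisors.card : ℝ) ≤ C * (n : ℝ) ^ δ := by
  set t : ℝ := (2 : ℝ) ^ (1 / δ) with ht
  have ht1 : 1 ≤ t := Real.one_le_rpow (by norm_num) (by positivity)
  set K : ℝ := 1 + 1 / (δ * Real.log 2) with hK
  have hl2 : 0 < Real.log 2 := Real.log_pos (by norm_num)
  have hK1 : 1 ≤ K := by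
    have : 0 ≤ 1 / (δ * Real.log 2) := by positivity
    linarith
  refine ⟨K ^ ⌊t⌋₊, by positivity, fun n hn => ?_⟩
  have hn0 : (0 : ℝ) < n := by exact_mod_cast hn
  have htδ : t ^ δ = 2 := by
    rw [ht, ← Real.rpow_mul (by norm_num), one_div_mul_cancel hδ.ne', Real.rpow_one]
  have hterm : ∀ p ∈ n.primeFactors, (((n.factorization p + 1 : ℕ) : ℝ)) ≤
      (if (p : ℝ) ≤ t then K else 1) * ((p : ℝ) ^ (n.factorization p)) ^ δ := by
    intro p hp
    have hpp := Nat.prime_of_mem_primeFactors hp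
    have hp2 : (2 : ℝ) ≤ p := by exact_mod_cast hpp.two_le
    set a := n.factorization p with ha
    have h2 : ((p : ℝ) ^ a) ^ δ = ((p : ℝ) ^ δ) ^ a := by
      rw [← Real.rpow_natCast, ← Real.rpow_natCast, ← Real.rpow_mul (by linarith),
        ← Real.rpow_mul (by linarith), mul_comm]
    by_cases hpt : (p : ℝ) ≤ t
    · rw [if_pos hpt]
      have h1 : Real.exp (a * (δ * Real.log 2)) ≤ ((p : ℝ) ^ a) ^ δ := by
        rw [h2, Real.exp_nat_mul]
        refine pow_le_pow_left₀ (Real.exp_pos _).le ?_ _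
        rw [mul_comm, ← Real.rpow_def_of_pos (by norm_num)]
        exact Real.rpow_le_rpow (by norm_num) hp2 hδ.le
      have h3 : (a : ℝ) * (δ * Real.log 2) + 1 ≤ ((p : ℝ) ^ a) ^ δ :=
        (Real.add_one_le_exp _).trans h1
      have h4 : (a : ℝ) + 1 ≤ K * ((a : ℝ) * (δ * Real.log 2) + 1) := by
        have e1 : K * ((a : ℝ) * (δ * Real.log 2) + 1)
            = (a : ℝ) * (δ * Real.log 2) + 1 + a + 1 / (δ * Real.log 2) := by
          rw [hK]
          field_simp
          ring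
        rw [e1]
        have : 0 ≤ (a : ℝ) * (δ * Real.log 2) := by positivity
        have : 0 ≤ 1 / (δ * Real.log 2) := by positivity
        linarith
      push_cast
      exact h4.trans (mul_le_mul_of_nonneg_left h3 (by linarith))
    · rw [if_neg hpt, one_mul, h2]
      have h1 : (2 : ℝ) ≤ (p : ℝ) ^ δ := by
        rw [← htδ]
        apply Real.rpow_le_rpow (by linarith) (by linarith) hδ.le
      calc ((a + 1 : ℕ) : ℝ) ≤ 2 ^ a := by
            have : a + 1 ≤ 2 ^ a := Nat.lt_two_pow_self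
            exact_mod_cast this
        _ ≤ ((p : ℝ) ^ δ) ^ a := pow_le_pow_left₀ (by norm_num) h1 a
  rw [Nat.card_divisors (by omega), Nat.cast_prod]
  calc ∏ p ∈ n.primeFactors, ((n.factorization p + 1 : ℕ) : ℝ)
      ≤ ∏ p ∈ n.primeFactors,
        ((if (p : ℝ) ≤ t then K else 1) * ((p : ℝ) ^ (n.factorization p)) ^ δ) := by
        apply prod_le_prod
        · intro p _; positivity
        · exact hterm
    _ = (∏ p ∈ n.primeFactors, (if (p : ℝ) ≤ t then K else 1))
        * (∏ p ∈ n.primeFactors, ((p : ℝ) ^ (n.factorization p))) ^ δ := by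
        rw [prod_mul_distrib, Real.finsetProd_rpow]
        intro p _; positivity
    _ ≤ K ^ ⌊t⌋₊ * (n : ℝ) ^ δ := by
        have h1 : ∏ p ∈ n.primeFactors, ((p : ℝ) ^ (n.factorization p)) = n := by
          have := Nat.prod_factorization_pow_eq_self (n := n) (by omega)
          rw [Nat.prod_factorization_eq_prod_primeFactors] at this
          have h2 := congrArg (fun x : ℕ => (x : ℝ)) this
          simpa using h2
        rw [h1]
        apply mul_le_mul_of_nonneg_right _ (by positivity)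
        rw [prod_ite, prod_const, prod_const_one, mul_one]
        apply pow_le_pow_right₀ hK1
        have h4 : #(n.primeFactors.filter (fun p : ℕ => (p : ℝ) ≤ t)) ≤ #(Icc 1 ⌊t⌋₊) := by
          apply card_le_card
          intro p hp
          rw [mem_filter] at hp
          rw [mem_Icc]
          exact ⟨(Nat.prime_of_mem_primeFactors hp.1).one_lt.le, Nat.le_floor hp.2⟩
        rwa [Nat.card_Icc, Nat.add_sub_cancel] at h4

end Pool.Agent.PS.DIVB

namespace Pool.Agent.PS

open scoped Classical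

theorem stmt_DIVB : Stmt_DIVB := by
  intro ε hε
  obtain ⟨C, hC, h⟩ := DIVB.bound (ε / 2) (by positivity)
  refine ⟨⌈C ^ (2 / ε)⌉₊ + 1, fun n hn => ?_⟩
  have hn1 : 1 ≤ n := by omega
  have hn0 : (0 : ℝ) < n := by exact_mod_cast hn1
  have h1 : C ^ (2 / ε) ≤ n := by
    have h2 : (⌈C ^ (2 / ε)⌉₊ : ℝ) ≤ n := by exact_mod_cast (by omega : ⌈C ^ (2 / ε)⌉₊ ≤ n)
    exact (Nat.le_ceil _).trans h2
  have h2 : C ≤ (n : ℝ) ^ (ε / 2) := by
    have h3 := Real.rpow_le_rpow (by positivity) h1 (by positivity : 0 ≤ ε / 2)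
    rwa [← Real.rpow_mul hC.le, show 2 / ε * (ε / 2) = 1 by field_simp, Real.rpow_one] at h3
  calc (n.divisors.card : ℝ) ≤ C * (n : ℝ) ^ (ε / 2) := h n hn1
    _ ≤ (n : ℝ) ^ (ε / 2) * (n : ℝ) ^ (ε / 2) :=
        mul_le_mul_of_nonneg_right h2 (by positivity)
    _ = (n : ℝ) ^ ε := by
        rw [← Real.rpow_add hn0]
        congr 1
        ring

end Pool.Agent.PS
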