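import Pool.Agent.Work.PS.InterfaceB
import Pool.Agent.Work.Circle.Expo

/-!
# Block GB: the sum over the powers of two is rarely large
-/

set_option autoImplicit false

namespace Pool.Agent.PS.GB

open Finset
open Pool.Agent.Circle (e dn norm_e e_natmul norm_one_sub_e)

/-- weights of the digit changes -/
noncomputable def Pw (x : ℝ) (n w : ℕ) : ℝ :=
  ∏ i ∈ range n, if (w / 2 ^ i) % 2 = (w / 2 ^ (i + 1)) % 2 then 1 else x

lemma sum_two_mul (h : ℕ → ℝ) (M : ℕ) :
    ∑ w ∈ range (2 * M), h w = ∑ w ∈ range M, (h (2 * w) + h (2 * w + 1)) := by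
  induction M with
  | zero => simp
  | succ M ih =>
    rw [show 2 * (M + 1) = 2 * M + 1 + 1 by ring, sum_range_succ, sum_range_succ, ih,
      sum_range_succ]
    ring

lemma Pw_succ (x : ℝ) (n w : ℕ) : Pw x (n + 1) w =
    (if w % 2 = (w / 2) % 2 then 1 else x) * Pw x n (w / 2) := by
  unfold Pw
  rw [Finset.prod_range_succ']
  rw [mul_comm]
  congr 1
  · simp
  · refine Finset.prod_congr rfl fun i _ => ?_
    rw [Nat.div_div_eq_div_mul, Nat.div_div_eq_div_mul, ← pow_succ', ← pow_succ']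

lemma sum_Pw (x : ℝ) (n M : ℕ) : ∑ w ∈ range (2 ^ n * M), Pw x n w = M * (1 + x) ^ n := by
  induction n generalizing M with
  | zero => simp [Pw]
  | succ n ih =>
    rw [pow_succ', mul_assoc, sum_two_mul]
    have h1 : ∀ w, Pw x (n + 1) (2 * w) + Pw x (n + 1) (2 * w + 1) = (1 + x) * Pw x n w := by
      intro w
      rw [Pw_succ, Pw_succ]
      have e1 : 2 * w / 2 = w := by omega
      have e2 : (2 * w + 1) / 2 = w := by omega
      have e3 : 2 * w % 2 = 0 := by omega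
      have e4 : (2 * w + 1) % 2 = 1 := by omega
      rw [e1, e2, e3, e4]
      rcases Nat.mod_two_eq_zero_or_one w with h | h
      · rw [h]
        simp
        ring
      · rw [h]
        simp
        ring
    simp only [h1]
    rw [← Finset.mul_sum, ih]
    ring

lemma parity (A R : ℕ) (hR : 0 < R) (h : dn ((A : ℝ) / R) < 1 / 8) :
    (4 * A / R) % 2 = (2 * A / R) % 2 := by
  set m : ℤ := round ((A : ℝ) / R) with hm
  have hR' : (0 : ℝ) < R := by exact_mod_cast hR
  have h1 : |(A : ℝ) / R - m| < 1 / 8 := h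
  have h2 : |(A : ℝ) - m * R| * 8 < R := by
    have : (A : ℝ) - m * R = ((A : ℝ) / R - m) * R := by field_simp
    rw [this, abs_mul, abs_of_pos hR']
    nlinarith
  rw [abs_lt] at h1
  have h3 : 8 * ((A : ℤ) - m * R) < R := by
    have := le_abs_self ((A : ℝ) - m * R)
    have h4 : 8 * ((A : ℝ) - m * R) < R := by linarith
    exact_mod_cast h4
  have h4 : -(R : ℤ) < 8 * ((A : ℤ) - m * R) := by
    have := neg_abs_le ((A : ℝ) - m * R)
    have h4 : -(R : ℝ) < 8 * ((A : ℝ) - m * R) := by linarith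
    exact_mod_cast h4
  have hRz : (0 : ℤ) < R := by exact_mod_cast hR
  have key : ∀ (B : ℤ) (c : ℤ), c * R ≤ B → B < (c + 1) * R → B / (R : ℤ) = c := by
    intro B c h5 h6
    apply le_antisymm
    · exact Int.lt_add_one_iff.1 (Int.ediv_lt_of_lt_mul hRz h6)
    · exact Int.le_ediv_of_mul_le hRz h5
  have h7 : (((4 * A / R : ℕ)) : ℤ) % 2 = (((2 * A / R : ℕ)) : ℤ) % 2 := by
    push_cast
    by_cases h8 : 0 ≤ (A : ℤ) - m * R
    · rw [key (4 * A) (4 * m) (by linarith) (by linarith),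
        key (2 * A) (2 * m) (by linarith) (by linarith)]
      omega
    · rw [not_le] at h8
      rw [key (4 * A) (4 * m - 1) (by linarith) (by linarith),
        key (2 * A) (2 * m - 1) (by linarith) (by linarith)]
      omega
  exact_mod_cast h7

/-- fibres of `k ↦ ⌊T k / R⌋` -/
lemma card_fibre (T R w : ℕ) (hT : 0 < T) (hR : 0 < R) :
    #((range R).filter fun k => T * k / R = w) ≤ R / T + 1 := by
  rcases ((range R).filter fun k => T * k / R = w).eq_empty_or_nonempty with h | h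
  · rw [h]
    simp
  · set s := (range R).filter fun k => T * k / R = w with hs
    set a := s.min' h with ha
    set b := s.max' h with hb
    have hab : a ≤ b := s.min'_le_max' h
    have h1 : T * a / R = w := (mem_filter.1 (s.min'_mem h)).2
    have h2 : T * b / R = w := (mem_filter.1 (s.max'_mem h)).2
    have h3 : w * R ≤ T * a := by
      rw [← h1]
      exact Nat.div_mul_le_self _ _
    have h4 : T * b < (w + 1) * R := by
      rw [← h2]
      exact Nat.lt_mul_of_div_lt (Nat.lt_succ_self _) hR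
    have h5 : T * (b - a) ≤ R := by
      rw [Nat.mul_sub]
      have : (w + 1) * R = w * R + R := by ring
      omega
    have h6 : b - a ≤ R / T := by
      rw [Nat.le_div_iff_mul_le hT]
      linarith [mul_comm T (b - a)]
    have h7 : s ⊆ Icc a b := fun k hk => mem_Icc.2 ⟨s.min'_le k hk, s.le_max' k hk⟩
    have h8 := card_le_card h7
    rw [Nat.card_Icc] at h8
    omega

lemma sum_floor (x : ℝ) (hx : 0 ≤ x) (n M R : ℕ) (hR : 0 < R) (hM : 0 < M) :
    ∑ k ∈ range R, Pw x n (2 ^ n * M * k / R) ≤ (R / (2 ^ n * M : ℕ) + 1) * (M * (1 + x) ^ n) := by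
  have hT : 0 < 2 ^ n * M := by positivity
  have hPn : ∀ w, 0 ≤ Pw x n w := by
    intro w
    refine Finset.prod_nonneg fun i _ => ?_
    split_ifs
    · exact zero_le_one
    · exact hx
  have hmaps : ∀ k ∈ range R, 2 ^ n * M * k / R ∈ range (2 ^ n * M) := by
    intro k hk
    rw [mem_range] at hk ⊢
    rw [Nat.div_lt_iff_lt_mul hR]
    exact Nat.mul_lt_mul_of_pos_left hk hT
  rw [← Finset.sum_fiberwise_of_maps_to hmaps]
  calc ∑ w ∈ range (2 ^ n * M), ∑ k ∈ range R with 2 ^ n * M * k / R = w,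
        Pw x n (2 ^ n * M * k / R)
      = ∑ w ∈ range (2 ^ n * M), (#((range R).filter fun k => 2 ^ n * M * k / R = w) : ℝ)
        * Pw x n w := by
        refine Finset.sum_congr rfl fun w _ => ?_
        rw [← nsmul_eq_mul, ← Finset.sum_const]
        refine Finset.sum_congr rfl fun k hk => ?_
        rw [(mem_filter.1 hk).2]
    _ ≤ ∑ w ∈ range (2 ^ n * M), ((R : ℝ) / (2 ^ n * M : ℕ) + 1) * Pw x n w := by
        refine Finset.sum_le_sum fun w _ => ?_
        refine mul_le_mul_of_nonneg_right ?_ (hPn w)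
        have h1 := card_fibre (2 ^ n * M) R w hT hR
        have h2 : ((R / (2 ^ n * M) : ℕ) : ℝ) ≤ (R : ℝ) / (2 ^ n * M : ℕ) := Nat.cast_div_le
        have h3 : (#((range R).filter fun k => 2 ^ n * M * k / R = w) : ℝ)
            ≤ ((R / (2 ^ n * M) : ℕ) : ℝ) + 1 := by exact_mod_cast h1
        linarith
    _ = _ := by rw [← Finset.mul_sum, sum_Pw]

/-- the direction argument -/
lemma direction (a : ℕ → ℂ) (ha : ∀ v, ‖a v‖ = 1) (h2 : ∀ v, a (v + 1) = a v ^ 2) (L : ℕ)
    (η : ℝ) (hη : (1 - η) * L < ‖∑ v ∈ Icc 1 L, a v‖) (hη1 : η < 1) (hL : 1 ≤ L) :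
    ∑ v ∈ Icc 1 (L - 1), ‖1 - a v‖ ^ 2 ≤ 8 * η * L := by
  set G := ∑ v ∈ Icc 1 L, a v with hG
  have hL' : (1 : ℝ) ≤ L := by exact_mod_cast hL
  have hG0 : 0 < ‖G‖ := lt_of_le_of_lt (by nlinarith) hη
  set u : ℂ := G / ‖G‖ with hu
  have hGc : (‖G‖ : ℂ) ≠ 0 := by exact_mod_cast hG0.ne'
  have hu1 : ‖u‖ = 1 := by
    rw [hu, norm_div, Complex.norm_real, norm_norm, div_self hG0.ne']
  have hGu : (G * (starRingEnd ℂ) u).re = ‖G‖ := by
    have : G * (starRingEnd ℂ) u = ((‖G‖ : ℝ) : ℂ) := by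
      rw [hu, map_div₀, Complex.conj_ofReal, mul_div_assoc', Complex.mul_conj, Complex.normSq_eq_norm_sq]
      push_cast
      field_simp
    rw [this, Complex.ofReal_re]
  have h3 : ∀ v, ‖a v - u‖ ^ 2 = 2 - 2 * (a v * (starRingEnd ℂ) u).re := by
    intro v
    rw [← Complex.normSq_eq_norm_sq, Complex.normSq_sub, Complex.normSq_eq_norm_sq,
      Complex.normSq_eq_norm_sq, ha, hu1]
    ring
  have h4 : ∑ v ∈ Icc 1 L, ‖a v - u‖ ^ 2 = 2 * L - 2 * ‖G‖ := by
    simp only [h3]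
    rw [Finset.sum_sub_distrib, ← Finset.mul_sum, ← Complex.re_sum, ← Finset.sum_mul, ← hG, hGu]
    simp
    ring
  have h5 : ∀ v, ‖1 - a v‖ ^ 2 ≤ 2 * ‖a (v + 1) - u‖ ^ 2 + 2 * ‖a v - u‖ ^ 2 := by
    intro v
    have e1 : ‖1 - a v‖ = ‖a (v + 1) - a v‖ := by
      rw [h2, show a v ^ 2 - a v = -(a v * (1 - a v)) by ring, norm_neg, norm_mul, ha, one_mul]
    have e2 : ‖a (v + 1) - a v‖ ≤ ‖a (v + 1) - u‖ + ‖a v - u‖ := by
      rw [show a (v + 1) - a v = (a (v + 1) - u) - (a v - u) by ring]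
      exact norm_sub_le _ _
    rw [e1]
    nlinarith [norm_nonneg (a (v + 1) - a v), norm_nonneg (a (v + 1) - u), norm_nonneg (a v - u),
      sq_nonneg (‖a (v + 1) - u‖ - ‖a v - u‖)]
  have h6 : ∑ v ∈ Icc 1 (L - 1), ‖a (v + 1) - u‖ ^ 2 ≤ ∑ v ∈ Icc 1 L, ‖a v - u‖ ^ 2 := by
    rw [← Finset.sum_image (f := fun v => ‖a v - u‖ ^ 2) (g := fun v => v + 1)
      (s := Icc 1 (L - 1)) (fun _ _ _ _ h => Nat.succ_injective h)]
    refine Finset.sum_le_sum_of_subset_of_nonneg ?_ (fun _ _ _ => by positivity)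
    intro v hv
    rw [mem_image] at hv
    obtain ⟨w, hw, rfl⟩ := hv
    rw [mem_Icc] at hw ⊢
    omega
  have h7 : ∑ v ∈ Icc 1 (L - 1), ‖a v - u‖ ^ 2 ≤ ∑ v ∈ Icc 1 L, ‖a v - u‖ ^ 2 :=
    Finset.sum_le_sum_of_subset_of_nonneg (Icc_subset_Icc_right (Nat.sub_le _ _))
      (fun _ _ _ => by positivity)
  calc ∑ v ∈ Icc 1 (L - 1), ‖1 - a v‖ ^ 2
      ≤ ∑ v ∈ Icc 1 (L - 1), (2 * ‖a (v + 1) - u‖ ^ 2 + 2 * ‖a v - u‖ ^ 2) :=
        Finset.sum_le_sum fun v _ => h5 v
    _ = 2 * ∑ v ∈ Icc 1 (L - 1), ‖a (v + 1) - u‖ ^ 2 + 2 * ∑ v ∈ Icc 1 (L - 1), ‖a v - u‖ ^ 2 := by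
        rw [Finset.sum_add_distrib, Finset.mul_sum, Finset.mul_sum]
    _ ≤ 4 * (2 * L - 2 * ‖G‖) := by rw [← h4]; linarith
    _ ≤ 8 * η * L := by nlinarith

lemma Pw_ge (x : ℝ) (hx : 0 < x) (hx1 : x ≤ 1) (L R k : ℕ) (hR : 0 < R) (t : ℝ)
    (ht : ∑ v ∈ Icc 1 (L - 1), ‖1 - e ((2 : ℝ) ^ v * ((k : ℝ) / R))‖ ^ 2 ≤ t) :
    x ^ (4 * t) ≤ Pw x (L - 1) (2 ^ (L + 1) * k / R) := by
  set B := (Icc 1 (L - 1)).filter fun v => 1 / 2 ≤ ‖1 - e ((2 : ℝ) ^ v * ((k : ℝ) / R))‖ with hB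
  have h1 : (#B : ℝ) ≤ 4 * t := by
    have : (#B : ℝ) * (1 / 4) ≤ t := by
      refine le_trans ?_ ht
      calc (#B : ℝ) * (1 / 4) = ∑ v ∈ B, (1 / 4 : ℝ) := by rw [sum_const, nsmul_eq_mul]
        _ ≤ ∑ v ∈ B, ‖1 - e ((2 : ℝ) ^ v * ((k : ℝ) / R))‖ ^ 2 := by
            refine Finset.sum_le_sum fun v hv => ?_
            have := (mem_filter.1 hv).2
            nlinarith
        _ ≤ _ := Finset.sum_le_sum_of_subset_of_nonneg (filter_subset _ _)
            (fun _ _ _ => by positivity)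
    linarith
  have h2 : Pw x (L - 1) (2 ^ (L + 1) * k / R) = x ^ #((range (L - 1)).filter fun i =>
      ¬ (2 ^ (L + 1) * k / R / 2 ^ i) % 2 = (2 ^ (L + 1) * k / R / 2 ^ (i + 1)) % 2) := by
    unfold Pw
    rw [Finset.prod_ite, prod_const_one, one_mul, prod_const]
  have h3 : #((range (L - 1)).filter fun i =>
      ¬ (2 ^ (L + 1) * k / R / 2 ^ i) % 2 = (2 ^ (L + 1) * k / R / 2 ^ (i + 1)) % 2) ≤ #B := by
    refine card_le_card_of_injOn (fun i => L - 1 - i) ?_ ?_
    · intro i hi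
      rw [mem_coe, mem_filter, mem_range] at hi
      have hi1 := hi.1
      show L - 1 - i ∈ (B : Set ℕ)
      rw [mem_coe, hB, mem_filter, mem_Icc]
      refine ⟨⟨by omega, by omega⟩, ?_⟩
      by_contra hlt
      rw [not_le] at hlt
      apply hi.2
      set v := L - 1 - i with hv
      have h4 : dn (((2 ^ v * k : ℕ) : ℝ) / R) < 1 / 8 := by
        have h5 := norm_one_sub_e ((2 : ℝ) ^ v * ((k : ℝ) / R))
        have h6 : (((2 ^ v * k : ℕ) : ℝ) / R) = (2 : ℝ) ^ v * ((k : ℝ) / R) := by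
          push_cast
          ring
        rw [h6]
        linarith
      have h5 := parity (2 ^ v * k) R hR h4
      have e1 : 2 ^ (L + 1) * k / R / 2 ^ i = 4 * (2 ^ v * k) / R := by
        rw [Nat.div_div_eq_div_mul, mul_comm R, ← Nat.div_div_eq_div_mul]
        congr 1
        rw [show L + 1 = i + (v + 2) by omega, pow_add, mul_assoc,
          Nat.mul_div_cancel_left _ (by positivity), pow_add]
        ring
      have e2 : 2 ^ (L + 1) * k / R / 2 ^ (i + 1) = 2 * (2 ^ v * k) / R := by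
        rw [Nat.div_div_eq_div_mul, mul_comm R, ← Nat.div_div_eq_div_mul]
        congr 1
        rw [show L + 1 = (i + 1) + (v + 1) by omega, pow_add, mul_assoc,
          Nat.mul_div_cancel_left _ (by positivity), pow_add]
        ring
      rw [e1, e2]
      exact h5
    · intro i hi j hj hij
      rw [mem_coe, mem_filter, mem_range] at hi hj
      simp only at hij
      omega
  rw [h2, ← Real.rpow_natCast]
  refine Real.rpow_le_rpow_of_exponent_ge hx hx1 ?_
  have : ((#((range (L - 1)).filter fun i =>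
      ¬ (2 ^ (L + 1) * k / R / 2 ^ i) % 2 = (2 ^ (L + 1) * k / R / 2 ^ (i + 1)) % 2) : ℕ) : ℝ)
      ≤ (#B : ℝ) := by exact_mod_cast h3
  linarith

lemma count (x η : ℝ) (hx : 0 < x) (hx1 : x ≤ 1) (hη1 : η < 1) (L R : ℕ) (hL : 1 ≤ L)
    (hR : 2 ^ L ≤ R) :
    (((range R).filter fun k : ℕ => (1 - η) * L < ‖Gp L ((k : ℝ) / R)‖).card : ℝ)
      * x ^ (32 * η * L) ≤ 6 * (R / 2 ^ L) * (1 + x) ^ L := by
  have hR0 : 0 < R := lt_of_lt_of_le (by positivity) hR
  have hPn : ∀ w, 0 ≤ Pw x (L - 1) w := by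
    intro w
    refine Finset.prod_nonneg fun i _ => ?_
    split_ifs
    · exact zero_le_one
    · exact hx.le
  have hpow : 2 ^ (L + 1) = 2 ^ (L - 1) * 4 := by
    rw [show L + 1 = (L - 1) + 2 by omega, pow_add]
    norm_num
  calc (((range R).filter fun k : ℕ => (1 - η) * L < ‖Gp L ((k : ℝ) / R)‖).card : ℝ)
      * x ^ (32 * η * L)
      = ∑ k ∈ (range R).filter (fun k : ℕ => (1 - η) * L < ‖Gp L ((k : ℝ) / R)‖),
        x ^ (32 * η * L) := by rw [sum_const, nsmul_eq_mul]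
    _ ≤ ∑ k ∈ (range R).filter (fun k : ℕ => (1 - η) * L < ‖Gp L ((k : ℝ) / R)‖),
        Pw x (L - 1) (2 ^ (L + 1) * k / R) := by
        refine Finset.sum_le_sum fun k hk => ?_
        have h1 := (mem_filter.1 hk).2
        have h2 := direction (fun v => e ((2 : ℝ) ^ v * ((k : ℝ) / R))) (fun v => norm_e _)
          (fun v => by
            rw [← e_natmul]
            congr 1
            push_cast
            ring) L η h1 hη1 hL
        have h3 := Pw_ge x hx hx1 L R k hR0 _ h2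
        rwa [show 4 * (8 * η * (L : ℝ)) = 32 * η * L by ring] at h3
    _ ≤ ∑ k ∈ range R, Pw x (L - 1) (2 ^ (L + 1) * k / R) :=
        Finset.sum_le_sum_of_subset_of_nonneg (filter_subset _ _) (fun _ _ _ => hPn _)
    _ ≤ (R / (2 ^ (L - 1) * 4 : ℕ) + 1) * (4 * (1 + x) ^ (L - 1)) := by
        have := sum_floor x hx.le (L - 1) 4 R hR0 (by norm_num)
        rw [hpow]
        exact_mod_cast this
    _ ≤ 6 * (R / 2 ^ L) * (1 + x) ^ L := by
        have e1 : ((2 ^ (L - 1) * 4 : ℕ) : ℝ) = 2 * 2 ^ L := by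
          rw [← hpow]
          push_cast
          ring
        rw [e1]
        have h1 : (1 : ℝ) ≤ R / 2 ^ L := by
          rw [le_div_iff₀ (by positivity), one_mul]
          exact_mod_cast hR
        have h2 : (1 + x) ^ (L - 1) ≤ (1 + x) ^ L :=
          pow_le_pow_right₀ (by linarith) (Nat.sub_le _ _)
        have h3 : (R : ℝ) / (2 * 2 ^ L) = (R / 2 ^ L) / 2 := by
          field_simp
        rw [h3]
        have h4 : 0 ≤ (1 + x) ^ (L - 1) := by positivity
        nlinarith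

end Pool.Agent.PS.GB

namespace Pool.Agent.PS

open Finset GB
open scoped Classical

/-- the statement with natural indices -/
theorem stmt_GB_nat : ∀ l : ℝ, l < 1 → ∃ η C : ℝ, 0 < η ∧ η < 1 ∧ 0 < C ∧ ∀ L R : ℕ, 1 ≤ L →
    2 ^ L ≤ R → (((range R).filter fun k : ℕ => (1 - η) * L < ‖Gp L ((k : ℝ) / R)‖).card : ℝ)
      ≤ C * (R * (2 : ℝ) ^ (-(l * L))) := by
  intro l hl
  set c : ℝ := (1 - l) / 2 * Real.log 2 with hc
  have hc0 : 0 < c := by
    have : 0 < Real.log 2 := Real.log_pos (by norm_num)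
    have : 0 < 1 - l := by linarith
    positivity
  set x : ℝ := min (1 / 2) c with hxd
  have hx0 : 0 < x := lt_min (by norm_num) hc0
  have hx2 : x ≤ 1 / 2 := min_le_left _ _
  have hxc : x ≤ c := min_le_right _ _
  have hlx : 0 < -Real.log x := by
    have := Real.log_neg hx0 (by linarith)
    linarith
  set η : ℝ := min (1 / 2) (c / (32 * -Real.log x)) with hηd
  have hη0 : 0 < η := lt_min (by norm_num) (by positivity)
  have hη1 : η < 1 := lt_of_le_of_lt (min_le_left _ _) (by norm_num)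
  have hη2 : η * (32 * -Real.log x) ≤ c := by
    have : η ≤ c / (32 * -Real.log x) := min_le_right _ _
    rwa [le_div_iff₀ (by positivity)] at this
  refine ⟨η, 6, hη0, hη1, by norm_num, fun L R hL hR => ?_⟩
  have h1 := count x η hx0 (by linarith) hη1 L R hL hR
  have hpos : 0 < x ^ (32 * η * L) := Real.rpow_pos_of_pos hx0 _
  have hLn : (0 : ℝ) ≤ L := Nat.cast_nonneg _
  have h2 : (1 + x) ^ L ≤ Real.exp (c * L) := by
    calc (1 + x) ^ L ≤ (Real.exp x) ^ L := by
          refine pow_le_pow_left₀ (by linarith) ?_ _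
          linarith [Real.add_one_le_exp x]
      _ = Real.exp (L * x) := by rw [← Real.exp_nat_mul]
      _ ≤ Real.exp (c * L) := Real.exp_le_exp.2 (by nlinarith)
  have h3 : Real.exp (-(c * L)) ≤ x ^ (32 * η * L) := by
    rw [Real.rpow_def_of_pos hx0]
    refine Real.exp_le_exp.2 ?_
    nlinarith
  have h4 : (R : ℝ) * (2 : ℝ) ^ (-(l * L)) = R / 2 ^ L * Real.exp (2 * (c * L)) := by
    rw [div_mul_eq_mul_div, eq_div_iff (by positivity), mul_assoc]
    congr 1
    rw [← Real.rpow_natCast, ← Real.rpow_add (by norm_num), Real.rpow_def_of_pos (by norm_num)]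
    congr 1
    rw [hc]
    ring
  rw [h4]
  have h5 : (((range R).filter fun k : ℕ => (1 - η) * L < ‖Gp L ((k : ℝ) / R)‖).card : ℝ)
      * Real.exp (-(c * L)) ≤ 6 * (R / 2 ^ L) * Real.exp (c * L) := by
    calc _ ≤ (((range R).filter fun k : ℕ => (1 - η) * L < ‖Gp L ((k : ℝ) / R)‖).card : ℝ)
          * x ^ (32 * η * L) := mul_le_mul_of_nonneg_left h3 (by positivity)
      _ ≤ 6 * (R / 2 ^ L) * (1 + x) ^ L := h1
      _ ≤ _ := mul_le_mul_of_nonneg_left h2 (by positivity)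
  have h6 : Real.exp (-(c * L)) * Real.exp (c * L) = 1 := by
    rw [← Real.exp_add]
    simp
  have h7 : Real.exp (2 * (c * L)) = Real.exp (c * L) * Real.exp (c * L) := by
    rw [← Real.exp_add]
    ring_nf
  calc (((range R).filter fun k : ℕ => (1 - η) * L < ‖Gp L ((k : ℝ) / R)‖).card : ℝ)
      = (((range R).filter fun k : ℕ => (1 - η) * L < ‖Gp L ((k : ℝ) / R)‖).card : ℝ)
        * Real.exp (-(c * L)) * Real.exp (c * L) := by rw [mul_assoc, h6, mul_one]
    _ ≤ 6 * (R / 2 ^ L) * Real.exp (c * L) * Real.exp (c * L) :=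
        mul_le_mul_of_nonneg_right h5 (Real.exp_pos _).le
    _ = 6 * (R / 2 ^ L * Real.exp (2 * (c * L))) := by rw [h7]; ring

theorem stmt_GB : Stmt_GB := by
  intro l hl
  obtain ⟨η, C, h1, h2, h3, h4⟩ := stmt_GB_nat l hl
  refine ⟨η, C, h1, h2, h3, fun L R hL hR => ?_⟩
  refine le_trans ?_ (h4 L R hL hR)
  rw [Nat.cast_le]
  have : (do let a ← range R; pure (a : ℝ) : Finset ℝ) = (range R).image (fun a : ℕ => (a : ℝ)) := by
    ext x
    simp [Finset.bind_def]
  rw [this, Finset.filter_image]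
  exact Finset.card_image_le

end Pool.Agent.PS
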