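import Pool.Agent.Work.PS.CIRC
import Pool.Agent.Work.PS.WINB

/-!
# LINW, part 1: the circle method with powers of two
-/

set_option autoImplicit false

namespace Pool.Agent.PS

open Finset ArithmeticFunction Metric
open Pool.Agent.Circle (e e_add e_zero norm_e full_sum parseval)
open scoped Classical

namespace Linw

open Pool.Agent.PS.Circ

/-- The modulus and the length of the arcs. -/
theorem arcs_setup {C : ℝ}
    (hmin : ∀ N P : ℕ, 2 ≤ P → P ^ 3 ≤ N → ∀ α : ℝ,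
      (∀ q : ℕ, ∀ a : ℤ, 0 < q → q ≤ P → IsCoprime a (q : ℤ) → (P : ℝ) / N < |α - a / q|) →
      ∀ K L : ℕ, K ≤ L → L ≤ N →
        ‖∑ n ∈ Ioc K L, (th n : ℂ) * e (n * α)‖ ≤ C * (N / √(P : ℝ)) * (Real.log N) ^ 4)
    (X M P : ℕ) (hP2 : 2 ≤ P) (hPX : P ^ 10 ≤ X) (hXM : X ≤ M) :
    ∃ R H : ℕ, 0 < R ∧ (H : ℝ) / R ≤ P / X ∧ (P : ℝ) / X ≤ 2 * H / R ∧ 16 * X ≤ R ∧ 16 * M ≤ R ∧
      (∀ q, 0 < q → q ≤ P → q ∣ R) ∧ 4 * H * P ^ 2 < R ∧
      ∀ k ∈ range R, (∀ q a : ℕ, 0 < q → q ≤ P → a ≤ q → a.Coprime q →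
        (H : ℝ) / R < |(k : ℝ) / R - (a : ℝ) / q|) →
      ‖∑ n ∈ Ioc (X / 4) (X / 2), (th n : ℂ) * e (n * ((k : ℝ) / R))‖
        ≤ C * (X / √(P : ℝ)) * (Real.log X) ^ 4 := by
  have hPpos : 0 < P := by omega
  have hPr : (2 : ℝ) ≤ P := by exact_mod_cast hP2
  have hP10 : 1024 ≤ P ^ 10 := by
    calc 1024 = 2 ^ 10 := by norm_num
      _ ≤ P ^ 10 := Nat.pow_le_pow_left hP2 10
  have hXpos : 0 < X := by omega
  have hX1024 : 1024 ≤ X := by omega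
  have hXr : (0 : ℝ) < X := by exact_mod_cast hXpos
  have hMpos : 0 < M := by omega
  set R := P.factorial * (16 * X * M) with hR
  have hfac : 0 < P.factorial := Nat.factorial_pos P
  have hR16 : 16 * X * M ≤ R := by
    rw [hR]
    exact Nat.le_mul_of_pos_left _ hfac
  have hXMX : X ≤ X * M := Nat.le_mul_of_pos_right _ hMpos
  have hXMM : M ≤ X * M := Nat.le_mul_of_pos_left _ hXpos
  have hRX : 16 * X ≤ R := by nlinarith
  have hRM : 16 * M ≤ R := by nlinarith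
  have hRpos : 0 < R := by omega
  have hRr : (0 : ℝ) < R := by exact_mod_cast hRpos
  have hdiv : ∀ q, 0 < q → q ≤ P → q ∣ R := by
    intro q hq hqP
    rw [hR]
    exact Dvd.dvd.mul_right (Nat.dvd_factorial hq hqP) _
  set H := R * P / X with hH
  have hH1 : H * X ≤ R * P := Nat.div_mul_le_self _ _
  have hH2 : R * P < (H + 1) * X := by
    have := Nat.lt_mul_div_succ (R * P) hXpos
    rw [← hH] at this
    linarith
  have hHR : (H : ℝ) / R ≤ P / X := by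
    rw [div_le_div_iff₀ hRr hXr]
    have : (H * X : ℝ) ≤ R * P := by exact_mod_cast hH1
    linarith
  have hHR2 : (P : ℝ) / X ≤ 2 * H / R := by
    rw [div_le_div_iff₀ hXr hRr]
    have h1 : (R * P : ℝ) < (H + 1) * X := by exact_mod_cast hH2
    have h2 : (2 * X : ℝ) ≤ R * P := by
      have : 2 * X ≤ R * P := by nlinarith
      exact_mod_cast this
    nlinarith
  have hP3 : 4 * P ^ 3 < X := by
    calc 4 * P ^ 3 < P ^ 7 * P ^ 3 := by
          have : 4 < P ^ 7 := by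
            calc 4 < 2 ^ 7 := by norm_num
              _ ≤ P ^ 7 := Nat.pow_le_pow_left hP2 7
          exact Nat.mul_lt_mul_of_pos_right this (by positivity)
      _ = P ^ 10 := by ring
      _ ≤ X := hPX
  have h4HP : 4 * H * P ^ 2 < R := by
    have h1 : (4 * H * P ^ 2) * X < R * X := by
      calc (4 * H * P ^ 2) * X = 4 * P ^ 2 * (H * X) := by ring
        _ ≤ 4 * P ^ 2 * (R * P) := Nat.mul_le_mul_left _ hH1
        _ = R * (4 * P ^ 3) := by ring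
        _ < R * X := Nat.mul_lt_mul_of_pos_left hP3 hRpos
    exact Nat.lt_of_mul_lt_mul_right h1
  refine ⟨R, H, hRpos, hHR, hHR2, hRX, hRM, hdiv, h4HP, fun k hk hq => ?_⟩
  rw [mem_range] at hk
  refine hmin X P hP2 ?_ ((k : ℝ) / R) ?_ (X / 4) (X / 2) (by omega) (by omega)
  · have : P ^ 3 ≤ 4 * P ^ 3 := Nat.le_mul_of_pos_left _ (by norm_num)
    omega
  · refine minor_cond P X R H hPpos hXpos hRpos hdiv hH2 ?_ k hk hq
    calc P ^ 2 ≤ P ^ 3 := Nat.pow_le_pow_right hPpos (by norm_num)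
      _ ≤ 4 * P ^ 3 := Nat.le_mul_of_pos_left _ (by norm_num)
      _ < X := hP3

/-- The Fourier transform of the difference. -/
theorem diff_ft {P R H : ℕ} (hP : 0 < P) (hR : 0 < R) (hdiv : ∀ q, 0 < q → q ≤ P → q ∣ R)
    (hH : 4 * H * P ^ 2 < R) (I₁ I₂ : Finset ℕ) (h₁ : ∀ n ∈ I₁, 4 * n < R)
    (h₂ : ∀ n ∈ I₂, 4 * n < R) (f₁ f₂ : ℕ → ℂ) (U : ℝ) (hU : 0 ≤ U)
    (hmin : ∀ k ∈ range R, (∀ q a : ℕ, 0 < q → q ≤ P → a ≤ q → a.Coprime q →
      (H : ℝ) / R < |(k : ℝ) / R - (a : ℝ) / q|) →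
      ‖∑ n ∈ I₁, f₁ n * e (n * ((k : ℝ) / R))‖ ≤ U) :
    ∀ k ∈ range R,
      ‖∑ m ∈ range R, (cv I₁ I₂ f₁ f₂ m - Maj P R H I₁ I₂ f₁ f₂ m) * e (m * ((k : ℝ) / R))‖
        ≤ ‖∑ n ∈ I₁, f₁ n * e (n * ((k : ℝ) / R))‖ * ‖∑ n ∈ I₂, f₂ n * e (n * ((k : ℝ) / R))‖ ∧
      ‖∑ m ∈ range R, (cv I₁ I₂ f₁ f₂ m - Maj P R H I₁ I₂ f₁ f₂ m) * e (m * ((k : ℝ) / R))‖
        ≤ U * ‖∑ n ∈ I₂, f₂ n * e (n * ((k : ℝ) / R))‖ := by
  intro k hk
  have h4 : ∑ m ∈ range R, (cv I₁ I₂ f₁ f₂ m - Maj P R H I₁ I₂ f₁ f₂ m) * e (m * ((k : ℝ) / R))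
      = (1 - (((TT P H).filter fun t => (R : ℤ) ∣ (k : ℤ) - ww R t).card : ℂ)) *
        ((∑ n ∈ I₁, f₁ n * e (n * ((k : ℝ) / R))) *
          ∑ n ∈ I₂, f₂ n * e (n * ((k : ℝ) / R))) := by
    simp_rw [sub_mul]
    rw [sum_sub_distrib, cv_ft I₁ I₂ h₁ h₂, maj_ft hR hdiv]
    ring
  rw [h4]
  have h5 : ((TT P H).filter fun t => (R : ℤ) ∣ (k : ℤ) - ww R t).card ≤ 1 := by
    rw [card_le_one]
    intro s hs t ht
    rw [mem_filter] at hs ht
    refine arcs_disjoint hR hP hdiv hH s t hs.1 ht.1 ?_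
    have : ww R s - ww R t = ((k : ℤ) - ww R t) - ((k : ℤ) - ww R s) := by ring
    rw [this]
    exact dvd_sub ht.2 hs.2
  rcases Nat.eq_zero_or_pos ((TT P H).filter fun t => (R : ℤ) ∣ (k : ℤ) - ww R t).card with h6 | h6
  · rw [h6]
    have h7 : ∀ t ∈ TT P H, ¬ (R : ℤ) ∣ (k : ℤ) - ww R t := by
      rw [card_eq_zero, filter_eq_empty_iff] at h6
      exact fun t ht => h6 ht
    have h8 := hmin k hk (minor_of_empty hR hdiv h7)
    rw [Nat.cast_zero, sub_zero, one_mul, norm_mul]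
    exact ⟨le_rfl, mul_le_mul_of_nonneg_right h8 (norm_nonneg _)⟩
  · have h7 : ((TT P H).filter fun t => (R : ℤ) ∣ (k : ℤ) - ww R t).card = 1 := by omega
    rw [h7, Nat.cast_one, sub_self, zero_mul, norm_zero]
    exact ⟨by positivity, by positivity⟩

/-- Fourier inversion. -/
theorem inv_dft {R : ℕ} (hR : 0 < R) (D : ℕ → ℂ) {m : ℕ} (hm : m ∈ range R) :
    D m = (1 / (R : ℂ)) * ∑ k ∈ range R, (∑ a ∈ range R, D a * e (a * ((k : ℝ) / R)))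
      * e (-(m * ((k : ℝ) / R))) := by
  have hR' : (R : ℂ) ≠ 0 := by exact_mod_cast hR.ne'
  have h1 : ∀ k ∈ range R, (∑ a ∈ range R, D a * e (a * ((k : ℝ) / R)))
      * e (-(m * ((k : ℝ) / R)))
      = ∑ a ∈ range R, D a * e (k * ((((a : ℤ) - m : ℤ) : ℝ) / R)) := by
    intro k _
    rw [sum_mul]
    refine sum_congr rfl fun a _ => ?_
    have h2 : (k : ℝ) * ((((a : ℤ) - m : ℤ) : ℝ) / R) = a * ((k : ℝ) / R) + -(m * ((k : ℝ) / R)) := by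
      push_cast
      ring
    rw [h2, e_add]
    ring
  rw [sum_congr rfl h1, sum_comm]
  have h3 : ∀ a ∈ range R, ∑ k ∈ range R, D a * e (k * ((((a : ℤ) - m : ℤ) : ℝ) / R))
      = if a = m then (R : ℂ) * D a else 0 := by
    intro a ha
    rw [← mul_sum, full_sum R hR]
    by_cases ham : a = m
    · subst ham
      rw [if_pos (by simp), if_pos rfl, mul_comm]
    · rw [if_neg ham, if_neg, mul_zero]
      intro hdvd
      apply ham
      have h4 : ((a : ℤ) - m) = 0 := by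
        apply Int.eq_zero_of_abs_lt_dvd hdvd
        rw [abs_lt]
        rw [mem_range] at ha hm
        constructor <;> omega
      omega
  rw [sum_congr rfl h3, sum_ite_eq' (range R) m, if_pos hm]
  field_simp

theorem e_sum {ι : Type*} (s : Finset ι) (f : ι → ℝ) : e (∑ i ∈ s, f i) = ∏ i ∈ s, e (f i) := by
  induction s using Finset.induction_on with
  | empty => simp [e_zero]
  | insert a s ha ih => rw [sum_insert ha, prod_insert ha, e_add, ih]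

/-- The box of exponents. -/
def box (K L : ℕ) : Finset (Fin K → ℕ) := Fintype.piFinset fun _ => Icc 1 L

theorem card_box (K L : ℕ) : (box K L).card = L ^ K := by
  unfold box
  rw [Fintype.card_piFinset_const, Nat.card_Icc, Nat.add_sub_cancel]

theorem box_G (K L : ℕ) (x : ℝ) :
    ∑ v ∈ box K L, e (((∑ i, 2 ^ v i : ℕ) : ℝ) * x) = Gp L x ^ K := by
  have h1 : Gp L x ^ K = ∏ _i : Fin K, Gp L x := by simp
  rw [h1]
  unfold Gp box
  rw [prod_univ_sum]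
  refine sum_congr rfl fun v _ => ?_
  rw [← e_sum]
  congr 1
  push_cast
  rw [sum_mul]

theorem norm_Gp_le (L : ℕ) (x : ℝ) : ‖Gp L x‖ ≤ L := by
  unfold Gp
  refine (norm_sum_le _ _).trans ?_
  simp only [norm_e, sum_const, Nat.card_Icc, nsmul_eq_mul, mul_one, Nat.add_sub_cancel]
  exact le_rfl

/-- The sum over the box of exponents. -/
theorem box_sum {R : ℕ} (hR : 0 < R) (D : ℕ → ℂ) (K L m : ℕ)
    (h : ∀ v ∈ box K L, ∑ i, 2 ^ v i ≤ m) (hm : m < R) :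
    ∑ v ∈ box K L, D (m - ∑ i, 2 ^ v i) = (1 / (R : ℂ)) * ∑ k ∈ range R,
      (∑ a ∈ range R, D a * e (a * ((k : ℝ) / R))) * e (-(m * ((k : ℝ) / R)))
        * Gp L ((k : ℝ) / R) ^ K := by
  have h1 : ∀ v ∈ box K L, D (m - ∑ i, 2 ^ v i) = (1 / (R : ℂ)) * ∑ k ∈ range R,
      (∑ a ∈ range R, D a * e (a * ((k : ℝ) / R))) * e (-(m * ((k : ℝ) / R)))
        * e (((∑ i, 2 ^ v i : ℕ) : ℝ) * ((k : ℝ) / R)) := by
    intro v hv
    rw [inv_dft hR D (m := m - ∑ i, 2 ^ v i) (by rw [mem_range]; omega)]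
    congr 1
    refine sum_congr rfl fun k _ => ?_
    have h2 : -(((m - ∑ i, 2 ^ v i : ℕ) : ℝ) * ((k : ℝ) / R))
        = -(m * ((k : ℝ) / R)) + ((∑ i, 2 ^ v i : ℕ) : ℝ) * ((k : ℝ) / R) := by
      rw [Nat.cast_sub (h v hv)]
      ring
    rw [h2, e_add]
    ring
  rw [sum_congr rfl h1, ← mul_sum, sum_comm]
  congr 1
  refine sum_congr rfl fun k _ => ?_
  rw [← mul_sum, box_G]

/-- The main inequality for the error term. -/
theorem box_err {R : ℕ} (hR : 0 < R) (D : ℕ → ℂ) (K L m : ℕ) (hK : 2 ≤ K)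
    (h : ∀ v ∈ box K L, ∑ i, 2 ^ v i ≤ m) (hm : m < R) (S1 S2 : ℕ → ℂ) (U V : ℝ) (hU : 0 ≤ U)
    (hD : ∀ k ∈ range R, ‖∑ a ∈ range R, D a * e (a * ((k : ℝ) / R))‖ ≤ ‖S1 k‖ * ‖S2 k‖ ∧
      ‖∑ a ∈ range R, D a * e (a * ((k : ℝ) / R))‖ ≤ U * ‖S2 k‖)
    (hV : ∀ k ∈ range R, ‖S2 k‖ ≤ V) (B : ℝ)
    (hB1 : (1 / (R : ℝ)) * ∑ k ∈ range R, ‖S1 k‖ ^ 2 * ‖Gp L ((k : ℝ) / R)‖ ^ 2 ≤ B)
    (hB2 : (1 / (R : ℝ)) * ∑ k ∈ range R, ‖S2 k‖ ^ 2 * ‖Gp L ((k : ℝ) / R)‖ ^ 2 ≤ B)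
    (η T : ℝ) (hη : 0 ≤ 1 - η)
    (hT : (((range R).filter fun k : ℕ => (1 - η) * L < ‖Gp L ((k : ℝ) / R)‖).card : ℝ) ≤ R * T) :
    ‖∑ v ∈ box K L, D (m - ∑ i, 2 ^ v i)‖ ≤ ((1 - η) * L) ^ (K - 2) * B + U * V * L ^ K * T := by
  have hRr : (0 : ℝ) < R := by exact_mod_cast hR
  rw [box_sum hR D K L m h hm, norm_mul]
  have hn : ‖(1 / (R : ℂ))‖ = 1 / (R : ℝ) := by
    rw [norm_div, norm_one, Complex.norm_natCast]
  rw [hn]
  set F : ℕ → ℂ := fun k => ∑ a ∈ range R, D a * e (a * ((k : ℝ) / R)) with hF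
  set g : ℕ → ℝ := fun k => ‖Gp L ((k : ℝ) / R)‖ with hg
  have h1 : ‖∑ k ∈ range R, F k * e (-(m * ((k : ℝ) / R))) * Gp L ((k : ℝ) / R) ^ K‖
      ≤ ∑ k ∈ range R, ‖F k‖ * g k ^ K := by
    refine (norm_sum_le _ _).trans (sum_le_sum fun k _ => ?_)
    rw [norm_mul, norm_mul, norm_e, mul_one, norm_pow]
  have h2 : ∀ k ∈ range R, ‖F k‖ * g k ^ K ≤
      ((1 - η) * L) ^ (K - 2) * ((‖S1 k‖ ^ 2 * g k ^ 2 + ‖S2 k‖ ^ 2 * g k ^ 2) / 2)
      + if (1 - η) * L < g k then U * V * L ^ K else 0 := by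
    intro k hk
    have hg0 : 0 ≤ g k := norm_nonneg _
    have hgL : g k ≤ L := norm_Gp_le _ _
    have hL0 : (0 : ℝ) ≤ (1 - η) * L := mul_nonneg hη (Nat.cast_nonneg _)
    have hV0 : 0 ≤ V := (norm_nonneg _).trans (hV k hk)
    have hfirst : 0 ≤ ((1 - η) * L) ^ (K - 2) *
        ((‖S1 k‖ ^ 2 * g k ^ 2 + ‖S2 k‖ ^ 2 * g k ^ 2) / 2) := by positivity
    split_ifs with hc
    · have h3 : ‖F k‖ * g k ^ K ≤ U * V * L ^ K := by
        calc ‖F k‖ * g k ^ K ≤ (U * ‖S2 k‖) * (L : ℝ) ^ K := by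
              have := (hD k hk).2
              gcongr
          _ ≤ U * V * L ^ K := by
              have := hV k hk
              gcongr
      linarith
    · push Not at hc
      rw [add_zero]
      have h3 : g k ^ K = g k ^ (K - 2) * g k ^ 2 := by
        rw [← pow_add]
        congr 1
        omega
      have h4 : g k ^ (K - 2) ≤ ((1 - η) * L) ^ (K - 2) := by gcongr
      have h5 : ‖S1 k‖ * ‖S2 k‖ ≤ (‖S1 k‖ ^ 2 + ‖S2 k‖ ^ 2) / 2 := by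
        nlinarith [sq_nonneg (‖S1 k‖ - ‖S2 k‖)]
      calc ‖F k‖ * g k ^ K ≤ ((‖S1 k‖ ^ 2 + ‖S2 k‖ ^ 2) / 2) * g k ^ K := by
            have := (hD k hk).1.trans h5
            gcongr
        _ = g k ^ (K - 2) * ((‖S1 k‖ ^ 2 * g k ^ 2 + ‖S2 k‖ ^ 2 * g k ^ 2) / 2) := by
            rw [h3]; ring
        _ ≤ _ := mul_le_mul_of_nonneg_right h4 (by positivity)
  calc 1 / (R : ℝ) * ‖∑ k ∈ range R, F k * e (-(m * ((k : ℝ) / R))) * Gp L ((k : ℝ) / R) ^ K‖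
      ≤ 1 / (R : ℝ) * ∑ k ∈ range R, (((1 - η) * L) ^ (K - 2) *
        ((‖S1 k‖ ^ 2 * g k ^ 2 + ‖S2 k‖ ^ 2 * g k ^ 2) / 2)
          + if (1 - η) * L < g k then U * V * L ^ K else 0) := by
        gcongr
        exact h1.trans (sum_le_sum h2)
    _ = ((1 - η) * L) ^ (K - 2) * ((1 / (R : ℝ) * ∑ k ∈ range R, ‖S1 k‖ ^ 2 * g k ^ 2
          + 1 / (R : ℝ) * ∑ k ∈ range R, ‖S2 k‖ ^ 2 * g k ^ 2) / 2)
        + 1 / (R : ℝ) * (U * V * L ^ K *
          (((range R).filter fun k : ℕ => (1 - η) * L < g k).card : ℝ)) := by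
        rw [sum_add_distrib, ← mul_sum, ← sum_div, sum_add_distrib, ← sum_filter, sum_const,
          nsmul_eq_mul]
        ring
    _ ≤ ((1 - η) * L) ^ (K - 2) * B + U * V * L ^ K * T := by
        have hL0 : (0 : ℝ) ≤ (1 - η) * L := mul_nonneg hη (Nat.cast_nonneg _)
        have e1 : (1 / (R : ℝ) * ∑ k ∈ range R, ‖S1 k‖ ^ 2 * g k ^ 2
          + 1 / (R : ℝ) * ∑ k ∈ range R, ‖S2 k‖ ^ 2 * g k ^ 2) / 2 ≤ B := by linarith
        have hV0 : 0 ≤ V := by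
          have h0 : (0 : ℕ) ∈ range R := mem_range.2 hR
          exact (norm_nonneg _).trans (hV 0 h0)
        have e2 : 1 / (R : ℝ) * (U * V * L ^ K *
          (((range R).filter fun k : ℕ => (1 - η) * L < g k).card : ℝ))
            ≤ 1 / (R : ℝ) * (U * V * L ^ K * (R * T)) := by
          gcongr
        have e3 : 1 / (R : ℝ) * (U * V * L ^ K * (R * T)) = U * V * L ^ K * T := by
          field_simp
        have e4 : ((1 - η) * L) ^ (K - 2) * ((1 / (R : ℝ) * ∑ k ∈ range R, ‖S1 k‖ ^ 2 * g k ^ 2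
          + 1 / (R : ℝ) * ∑ k ∈ range R, ‖S2 k‖ ^ 2 * g k ^ 2) / 2)
            ≤ ((1 - η) * L) ^ (K - 2) * B := mul_le_mul_of_nonneg_left e1 (by positivity)
        linarith

end Linw

end Pool.Agent.PS
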