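import Pool.Agent.Work.PS.FINAL
import Pool.Agent.Work.PS.InterfaceB

/-!
# PS, block LIN: from a window to the primorial intervals, two primes and powers of two
-/

set_option autoImplicit false

namespace Pool.Agent.PS

open Finset ArithmeticFunction
open Pool.Agent.Work.MP_484fb8_nt
open scoped Classical

theorem stmt_LIN (hLINW : Stmt_LINW) : Stmt_LIN := by
  obtain ⟨K, X0, hW⟩ := hLINW
  refine ⟨K, max 8 (max (2 * X0 + 1) (max 64 ⌈(1048576 / Real.log 2 : ℝ)⌉₊)), ?_⟩
  intro n hn m hm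
  simp only [max_le_iff] at hn
  obtain ⟨hn8, hnX, hn64, hnl⟩ := hn
  have hn1 : 1 ≤ n := by omega
  have hmE := hm
  unfold evensIn primorialInterval at hmE
  rw [mem_filter, mem_Icc, Nat.add_sub_cancel] at hmE
  obtain ⟨⟨hm1, hm2⟩, hev⟩ := hmE
  obtain ⟨X, hX⟩ := two_dvd_prml n hn1
  have hle := le_prml n
  have hX0 : X0 ≤ X := by omega
  have hX32 : 32 ≤ X := by omega
  -- the logarithm
  have hlog2 : 0 < Real.log 2 := Real.log_pos (by norm_num)
  have hy1 : 1048576 ≤ Real.log (prml n) := by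
    have h1 : (n : ℝ) * Real.log 2 ≤ Real.log (prml n) := by
      rw [← Real.log_pow]
      apply Real.log_le_log (by positivity)
      exact_mod_cast two_pow_le_prml n
    have h2 : (1048576 / Real.log 2 : ℝ) ≤ n := (Nat.le_ceil _).trans (by exact_mod_cast hnl)
    rw [div_le_iff₀ hlog2] at h2
    linarith
  have hp := nth_prime_small n hn1 hy1
  have hXr : (32 : ℝ) ≤ X := by exact_mod_cast hX32
  have hX0r : (0 : ℝ) < X := by linarith
  have hpX : (prml n : ℝ) = 2 * X := by rw [hX]; push_cast; ring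
  have hyL : Real.log (prml n) ≤ Real.log X + 1 := by
    rw [hpX, Real.log_mul (by norm_num) hX0r.ne']
    have := Real.log_two_lt_d9
    linarith
  have hmX : (m : ℝ) ≤ X * (Real.log X) ^ 2 := by
    have h1 : (m : ℝ) ≤ 2 * X * (Nat.nth Nat.Prime n : ℝ) + 1 := by
      have h2 : m ≤ prml n * Nat.nth Nat.Prime n + 1 := by rw [← prml_succ]; exact hm2
      have h3 : (m : ℝ) ≤ (prml n : ℝ) * (Nat.nth Nat.Prime n : ℝ) + 1 := by exact_mod_cast h2
      rwa [hpX] at h3
    have h4 : 2 * (X : ℝ) * (Nat.nth Nat.Prime n : ℝ)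
        ≤ 2 * X * ((Real.log X + 1) ^ 2 / 4) := by
      have h5 : (Nat.nth Nat.Prime n : ℝ) ≤ (Real.log X + 1) ^ 2 / 4 := by
        refine hp.trans ?_
        have h6 : 0 ≤ Real.log (prml n) := by linarith
        have h7 : (Real.log (prml n)) ^ 2 ≤ (Real.log X + 1) ^ 2 := by gcongr
        linarith
      gcongr
    have h8 : 4 ≤ Real.log X := by linarith
    have h9 : (Real.log X + 1) ^ 2 / 2 + 1 ≤ (Real.log X) ^ 2 := by nlinarith
    have h10 : (X : ℝ) * ((Real.log X + 1) ^ 2 / 2 + 1) ≤ X * (Real.log X) ^ 2 := by gcongr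
    nlinarith
  obtain ⟨v, hv, hs, a, ha, hap, hq⟩ := hW X m hX0 (by omega) hmX hev
  set s := ∑ i, 2 ^ v i with hsd
  rw [mem_Ioc] at ha
  have hK8 : 8 * prml (n - 1) ≤ prml n := by
    obtain ⟨k, rfl⟩ := Nat.exists_eq_add_of_le' hn1
    rw [Nat.add_sub_cancel, prml_succ, mul_comm 8]
    exact Nat.mul_le_mul_left _ (by have := nth_prime_ge k; omega)
  refine ⟨a, ?_, m - s - a, ?_, v, hv, ?_⟩
  · unfold primesIn primorialInterval
    rw [mem_filter, mem_Icc]
    exact ⟨⟨by omega, by omega⟩, hap⟩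
  · unfold primesIn primorialInterval
    rw [mem_union, mem_filter, mem_filter, mem_Icc, mem_Icc, Nat.add_sub_cancel]
    rcases Nat.lt_or_ge (prml n + 1) (m - s - a) with h | h
    · right
      exact ⟨⟨by omega, by omega⟩, hq⟩
    · left
      exact ⟨⟨by omega, by omega⟩, hq⟩
  · omega

end Pool.Agent.PS
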