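import Pool.Agent.Work.PS.LINW2

/-!
# LINW: two primes and `K` powers of two in a window, assembly
-/

set_option autoImplicit false

namespace Pool.Agent.PS

open Finset ArithmeticFunction Metric
open Pool.Agent.Circle (e)
open scoped Classical

open Linw WINB

theorem stmt_LINW (hWS : Stmt_WSB) (hLOW : Stmt_LOW) (hLOW2 : Stmt_LOW2) (hMIN : Stmt_MIN)
    (hS : Stmt_SIEG) (hRAD : Stmt_RAD) (hSG : Stmt_SG) (hORD : Stmt_ORD) (hDIVB : Stmt_DIVB)
    (hGB : ∀ l : ℝ, l < 1 → ∃ η C : ℝ, 0 < η ∧ η < 1 ∧ 0 < C ∧ ∀ L R : ℕ, 1 ≤ L → 2 ^ L ≤ R →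
      (((range R).filter fun k : ℕ => (1 - η) * L < ‖Gp L ((k : ℝ) / R)‖).card : ℝ)
      ≤ C * (R * (2 : ℝ) ^ (-(l * L)))) : Stmt_LINW := by
  obtain ⟨εa, ca, Pa, hεa, hca, hlowa⟩ := hLOW
  obtain ⟨εb, cb, Pb, hεb, hcb, hlowb⟩ := hLOW2
  set ε0 : ℝ := min εa εb with hε0d
  have hε0 : 0 < ε0 := lt_min hεa hεb
  set c : ℝ := min ca cb with hcd
  have hc : 0 < c := lt_min hca hcb
  set P0 : ℕ := max Pa Pb with hP0d
  obtain ⟨θ, hθ, hθ1, X1, hws⟩ := hWS ε0 hε0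
  obtain ⟨C, hC, hmin⟩ := hMIN
  obtain ⟨Cs, hCs, hsg⟩ := hSG
  obtain ⟨η, Cg, hη0, hη1, hCg, hgb⟩ := hGB (1 - θ / 32) (by linarith)
  obtain ⟨K0, hK0⟩ : ∃ K0 : ℕ, Cs * (1 - η) ^ K0 ≤ c / 8 := by
    obtain ⟨K0, hK0⟩ := exists_pow_lt_of_lt_one (show 0 < c / (8 * Cs) by positivity)
      (show 1 - η < 1 by linarith)
    refine ⟨K0, ?_⟩
    have h1 := mul_le_mul_of_nonneg_left hK0.le hCs.le
    have h2 : Cs * (c / (8 * Cs)) = c / 8 := by field_simp
    linarith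
  set K : ℕ := K0 + 2 with hK
  have hKr : (2 : ℝ) ≤ K := by rw [hK]; push_cast; linarith [(Nat.cast_nonneg K0 : (0 : ℝ) ≤ K0)]
  set C' : ℝ := C * 2 * Cg * (32 * K) with hC'
  have hC'0 : 0 < C' := by positivity
  -- large `X`
  obtain ⟨X2, hX2⟩ := log_pow_le_rpow 5 (θ / 32) (c / (8 * C')) (by positivity) (by positivity)
  obtain ⟨X3, hX3⟩ := log_pow_le_rpow 2 (θ / 8) 1 (by positivity) (by positivity)
  have htend : Filter.Tendsto (fun X : ℕ => (X : ℝ) ^ (θ / 8)) Filter.atTop Filter.atTop :=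
    (tendsto_rpow_atTop (by positivity)).comp tendsto_natCast_atTop_atTop
  have htlog : Filter.Tendsto (fun X : ℕ => Real.log (X : ℝ)) Filter.atTop Filter.atTop :=
    Real.tendsto_log_atTop.comp tendsto_natCast_atTop_atTop
  obtain ⟨X4, hX4⟩ := Filter.eventually_atTop.1 (htend.eventually_ge_atTop (max P0 2 : ℝ))
  obtain ⟨X5, hX5⟩ := Filter.eventually_atTop.1
    (htlog.eventually_ge_atTop (max 16 (2 * Real.log (32 * K))))
  obtain ⟨X6, hX6⟩ := rr_growth hRAD hS hθ 1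
  obtain ⟨n0, hn0⟩ := hDIVB (θ / 128) (by positivity)
  refine ⟨K, max X1 (max X2 (max X3 (max X4 (max X5 (max X6 (max n0 (max 1000 (512 * K)))))))),
    fun X m hX hXm hmX hev => ?_⟩
  simp only [max_le_iff] at hX
  obtain ⟨hX1', hX2', hX3', hX4', hX5', hX6', hn0', hX1000, hX512⟩ := hX
  obtain ⟨P, E, hPlow, hPup, hE, hE2, hW⟩ := hws X hX1'
  have hXr : (1000 : ℝ) ≤ X := by exact_mod_cast hX1000
  have hX0 : (0 : ℝ) < X := by linarith
  have hXp : 0 < X := by omega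
  set l : ℝ := Real.log X with hl
  have hl16 : 16 ≤ l := (le_max_left _ _).trans (hX5 X hX5')
  have hlK : 2 * Real.log (32 * K) ≤ l := (le_max_right _ _).trans (hX5 X hX5')
  have h5 := hX2 X hX2'
  have h2 := hX3 X hX3'
  rw [← hl] at h5 h2
  rw [one_mul] at h2
  have hP02 := hX4 X hX4'
  have hPr2 : (2 : ℝ) ≤ P := (le_max_right _ _).trans (hP02.trans hPlow)
  have hP2 : 2 ≤ P := by exact_mod_cast hPr2
  have hP0 : P0 ≤ P := by
    have : (P0 : ℝ) ≤ P := (le_max_left _ _).trans (hP02.trans hPlow)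
    exact_mod_cast this
  have hPr : (0 : ℝ) < P := by linarith
  have hPX : P ^ 10 ≤ X := by
    have : (P : ℝ) ^ 10 ≤ X := by
      calc (P : ℝ) ^ 10 ≤ ((X : ℝ) ^ θ) ^ 10 := by gcongr
        _ = (X : ℝ) ^ (θ * 10) := by
            rw [← Real.rpow_natCast, ← Real.rpow_mul hX0.le]
            norm_num
        _ ≤ (X : ℝ) ^ (1 : ℝ) := Real.rpow_le_rpow_of_exponent_le (by linarith) (by linarith)
        _ = X := Real.rpow_one _
    exact_mod_cast this
  have hL2P : l ^ 2 ≤ P := h2.trans hPlow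
  have hPX2 : (2 : ℝ) * P ≤ X := by
    have h1 : P ^ 2 ≤ P ^ 10 := Nat.pow_le_pow_right (by omega) (by norm_num)
    have h3 : (P : ℝ) ^ 2 ≤ X := by exact_mod_cast h1.trans hPX
    have h4 : (2 : ℝ) * P ≤ P ^ 2 := by
      rw [pow_two]
      exact mul_le_mul_of_nonneg_right hPr2 hPr.le
    linarith
  -- the window
  set M : ℕ := m - X / 8 with hM
  have hXM : X ≤ M := by omega
  have hMm : M + X / 8 = m := by omega
  have hMle : (M : ℝ) ≤ m := by exact_mod_cast (by omega : M ≤ m)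
  have hMP : (M : ℝ) ≤ X * P := by
    calc (M : ℝ) ≤ m := hMle
      _ ≤ X * l ^ 2 := hmX
      _ ≤ X * P := by gcongr
  have hmX2 : (m : ℝ) ≤ (X : ℝ) ^ 2 := by
    calc (m : ℝ) ≤ X * l ^ 2 := hmX
      _ ≤ X * P := by gcongr
      _ ≤ X * X := mul_le_mul_of_nonneg_left (by linarith [hPX2, hPr]) hX0.le
      _ = (X : ℝ) ^ 2 := by ring
  have hMX2 : (M : ℝ) ≤ (X : ℝ) ^ 2 := hMle.trans hmX2
  have hMr : (1 : ℝ) ≤ M := by
    have : (X : ℝ) ≤ M := by exact_mod_cast hXM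
    linarith
  have hlogM : Real.log M ≤ 2 * l := by
    have h1 : Real.log M ≤ Real.log ((X : ℝ) ^ 2) := Real.log_le_log (by linarith) hMX2
    rw [Real.log_pow] at h1
    push_cast at h1
    exact h1
  -- the modulus
  obtain ⟨R, H, hR, hHR, hHR2, hRX, hRM, hdiv, h4HP, hS1min⟩ :=
    arcs_setup hmin X M P hP2 hPX hXM
  have hRr : (0 : ℝ) < R := by exact_mod_cast hR
  -- the number of powers of two
  have hK16 : 0 < 16 * K := by omega
  set Y : ℕ := X / (16 * K) with hY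
  have hY32 : 32 ≤ Y := by
    rw [hY, Nat.le_div_iff_mul_le hK16]
    omega
  set L : ℕ := Nat.log 2 Y with hL
  have hLY : 2 ^ L ≤ Y := Nat.pow_log_le_self 2 (by omega)
  have hLY2 : Y < 2 ^ (L + 1) := Nat.lt_pow_succ_log_self (by norm_num) Y
  have hL5 : 5 ≤ L := by
    rw [hL]
    calc 5 = Nat.log 2 32 := by
          rw [show (32 : ℕ) = 2 ^ 5 by norm_num, Nat.log_pow (by norm_num)]
      _ ≤ Nat.log 2 Y := Nat.log_mono_right hY32
  have hLr : (0 : ℝ) < L := by exact_mod_cast (by omega : 0 < L)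
  have h16KY : 16 * K * Y ≤ X := by
    rw [hY]
    exact Nat.mul_div_le X (16 * K)
  have h16K2L : 16 * (K * 2 ^ L) ≤ X := by
    calc 16 * (K * 2 ^ L) = 16 * K * 2 ^ L := by ring
      _ ≤ 16 * K * Y := Nat.mul_le_mul_left _ hLY
      _ ≤ X := h16KY
  have hX32 : X < 32 * K * 2 ^ L := by
    have h1 : X < 16 * K * (Y + 1) := by
      rw [hY]
      exact Nat.lt_mul_div_succ X hK16
    calc X < 16 * K * (Y + 1) := h1
      _ ≤ 16 * K * 2 ^ (L + 1) := Nat.mul_le_mul_left _ hLY2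
      _ = 32 * K * 2 ^ L := by ring
  have hX32r : (X : ℝ) < 32 * K * 2 ^ L := by exact_mod_cast hX32
  have hllog : l ≤ 2 * L := by
    have h1 : l ≤ Real.log (32 * K) + L * Real.log 2 := by
      have h3 : l ≤ Real.log (32 * K * 2 ^ L) := Real.log_le_log hX0 hX32r.le
      rw [Real.log_mul (by positivity) (by positivity), Real.log_pow] at h3
      exact h3
    have h3 : Real.log 2 ≤ 1 := by
      have := Real.log_two_lt_d9
      linarith
    have h4 : (L : ℝ) * Real.log 2 ≤ L * 1 := by gcongr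
    linarith
  -- the exponential sums
  set S1 : ℕ → ℂ := fun k => ∑ n ∈ Ioc (X / 4) (X / 2), (th n : ℂ) * e (n * ((k : ℝ) / R)) with hS1
  set S2 : ℕ → ℂ := fun k => ∑ n ∈ Ioc (M - X / 2) M, (th n : ℂ) * e (n * ((k : ℝ) / R)) with hS2
  set U : ℝ := C * (X / √(P : ℝ)) * l ^ 4 with hU
  have hl0 : 0 ≤ l := by linarith
  have hU0 : 0 ≤ U := by positivity
  have hI1 : ∀ n ∈ Ioc (X / 4) (X / 2), 4 * n < R := by
    intro n hn
    rw [mem_Ioc] at hn
    omega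
  have hI2 : ∀ n ∈ Ioc (M - X / 2) M, 4 * n < R := by
    intro n hn
    rw [mem_Ioc] at hn
    omega
  set D : ℕ → ℂ := fun a => cv (Ioc (X / 4) (X / 2)) (Ioc (M - X / 2) M) (fun n => (th n : ℂ))
      (fun n => (th n : ℂ)) a - Maj P R H (Ioc (X / 4) (X / 2)) (Ioc (M - X / 2) M)
        (fun n => (th n : ℂ)) (fun n => (th n : ℂ)) a with hD
  have hDft := diff_ft (by omega : 0 < P) hR hdiv h4HP (Ioc (X / 4) (X / 2)) (Ioc (M - X / 2) M)
    hI1 hI2 (fun n => (th n : ℂ)) (fun n => (th n : ℂ)) U hU0 hS1min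
  have hbox : ∀ v ∈ box K L, ∑ i, 2 ^ v i ≤ m := by
    intro v hv
    have := sum_box_le hv
    omega
  have hbox16 : ∀ v ∈ box K L, 16 * ∑ i, 2 ^ v i ≤ X := by
    intro v hv
    have := sum_box_le hv
    omega
  have hmR : m < R := by omega
  -- bounds
  set V : ℝ := X * (2 * l) with hV
  have hVb : ∀ k ∈ range R, ‖S2 k‖ ≤ V := by
    intro k _
    have h1 := norm_th_sum_le (M - X / 2) M (2 * l) (fun n hn => by
      rw [mem_Ioc] at hn
      exact (th_le n M hn.2 (by omega)).trans hlogM) ((k : ℝ) / R)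
    refine h1.trans ?_
    have h3 : ((M - (M - X / 2) : ℕ) : ℝ) ≤ X := by exact_mod_cast (by omega : M - (M - X / 2) ≤ X)
    rw [hV]
    gcongr
  set B : ℝ := Cs * X * (L : ℝ) ^ 2 with hB
  have h2LX : 2 ^ L * (16 * K) ≤ X := by
    calc 2 ^ L * (16 * K) = 16 * (K * 2 ^ L) := by ring
      _ ≤ X := h16K2L
  have h2L32 : 32 * 2 ^ L ≤ X := by
    have : 32 * 2 ^ L ≤ 2 ^ L * (16 * K) := by
      have hK2 : 2 ≤ K := by omega
      calc 32 * 2 ^ L = 2 ^ L * (16 * 2) := by ring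
        _ ≤ 2 ^ L * (16 * K) := Nat.mul_le_mul_left _ (Nat.mul_le_mul_left _ hK2)
    omega
  have hlogN : ∀ N : ℕ, 2 ≤ N → N ≤ X → Real.log N ≤ 2 * L := by
    intro N hN hNX
    refine le_trans ?_ hllog
    exact Real.log_le_log (by exact_mod_cast (by omega : 0 < N)) (by exact_mod_cast hNX)
  have hB1 : (1 / (R : ℝ)) * ∑ k ∈ range R, ‖S1 k‖ ^ 2 * ‖Gp L ((k : ℝ) / R)‖ ^ 2 ≤ B := by
    set N := X / 2 - X / 4 with hN
    have h1 := hsg (X / 4) N L R (by omega) (by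
      have h3 : 4 ≤ N := by omega
      have h4 : X / 4 + N ≤ 4 * N := by omega
      calc X / 4 + N ≤ 4 * N := h4
        _ ≤ N ^ 2 * N := Nat.mul_le_mul_right _ (by nlinarith)
        _ = N ^ 3 := by ring) (by omega) (by omega) (hlogN N (by omega) (by omega)) (by omega)
    have h3 : X / 4 + N = X / 2 := by omega
    rw [h3] at h1
    refine h1.trans ?_
    have h4 : (N : ℝ) ≤ X := by exact_mod_cast (by omega : N ≤ X)
    rw [hB]
    gcongr
  have hB2 : (1 / (R : ℝ)) * ∑ k ∈ range R, ‖S2 k‖ ^ 2 * ‖Gp L ((k : ℝ) / R)‖ ^ 2 ≤ B := by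
    set N := X / 2 with hN
    have h1 := hsg (M - N) N L R (by omega) (by
      have h3 : M - N + N = M := by omega
      rw [h3]
      have h4 : (M : ℝ) ≤ ((N ^ 3 : ℕ) : ℝ) := by
        refine hMX2.trans ?_
        have h6 : X ≤ 2 * N + 1 := by omega
        have h7 : (X : ℝ) ≤ 3 * N := by exact_mod_cast (by omega : X ≤ 3 * N)
        have h8 : (9 : ℝ) ≤ N := by exact_mod_cast (by omega : 9 ≤ N)
        push_cast
        calc (X : ℝ) ^ 2 ≤ (3 * N) ^ 2 := by gcongr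
          _ = 9 * (N : ℝ) ^ 2 := by ring
          _ ≤ N * (N : ℝ) ^ 2 := by gcongr
          _ = (N : ℝ) ^ 3 := by ring
      exact_mod_cast h4) (by omega) (by omega) (hlogN N (by omega) (by omega)) (by omega)
    have h3 : M - N + N = M := by omega
    rw [h3] at h1
    refine h1.trans ?_
    have h4 : (N : ℝ) ≤ X := by exact_mod_cast (by omega : N ≤ X)
    rw [hB]
    gcongr
  set T : ℝ := Cg * (2 : ℝ) ^ (-((1 - θ / 32) * L)) with hT
  have hTb : (((range R).filter fun k : ℕ => (1 - η) * L < ‖Gp L ((k : ℝ) / R)‖).card : ℝ)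
      ≤ R * T := by
    refine (hgb L R (by omega) (by omega)).trans (le_of_eq ?_)
    rw [hT]
    ring
  have herr := box_err hR D K L m (by omega) hbox hmR S1 S2 U V hU0 hDft hVb B hB1 hB2 η T
    (by linarith) hTb
  -- the numerical bound for the error
  have herr1 : ((1 - η) * L) ^ (K - 2) * B ≤ c / 8 * (X * (L : ℝ) ^ K) := by
    have h1 : K - 2 = K0 := by omega
    rw [h1, hB, mul_pow]
    calc (1 - η) ^ K0 * (L : ℝ) ^ K0 * (Cs * X * (L : ℝ) ^ 2)
        = (Cs * (1 - η) ^ K0) * (X * (L : ℝ) ^ K) := by rw [hK, pow_add]; ring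
      _ ≤ c / 8 * (X * (L : ℝ) ^ K) := by gcongr
  have herr2 : U * V * (L : ℝ) ^ K * T ≤ c / 8 * (X * (L : ℝ) ^ K) := by
    have hsP : (X : ℝ) ^ (θ / 16) ≤ √(P : ℝ) := by
      apply Real.le_sqrt_of_sq_le
      refine le_trans (le_of_eq ?_) hPlow
      rw [← Real.rpow_natCast, ← Real.rpow_mul hX0.le]
      congr 1
      push_cast
      ring
    have hT1 : T ≤ Cg * (32 * K) * (X : ℝ) ^ (-(1 - θ / 32)) := by
      have hKpos : (0 : ℝ) < 32 * K := by positivity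
      have h1 : (2 : ℝ) ^ (-((1 - θ / 32) * L)) = ((2 : ℝ) ^ L) ^ (-(1 - θ / 32)) := by
        rw [← Real.rpow_natCast 2 L, ← Real.rpow_mul (by norm_num)]
        congr 1
        ring
      have h3 : (X : ℝ) / (32 * K) ≤ (2 : ℝ) ^ L := by
        rw [div_le_iff₀ hKpos]
        linarith
      have h4 : ((2 : ℝ) ^ L) ^ (-(1 - θ / 32)) ≤ ((X : ℝ) / (32 * K)) ^ (-(1 - θ / 32)) :=
        Real.rpow_le_rpow_of_nonpos (by positivity) h3 (by linarith)
      have h6 : ((X : ℝ) / (32 * K)) ^ (-(1 - θ / 32))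
          = (32 * K) ^ (1 - θ / 32) * (X : ℝ) ^ (-(1 - θ / 32)) := by
        rw [Real.div_rpow hX0.le hKpos.le, Real.rpow_neg hKpos.le]
        field_simp
      have h7 : ((32 : ℝ) * K) ^ (1 - θ / 32) ≤ 32 * K := by
        have h8 : (1 : ℝ) ≤ 32 * K := by linarith
        calc ((32 : ℝ) * K) ^ (1 - θ / 32) ≤ (32 * K) ^ (1 : ℝ) :=
              Real.rpow_le_rpow_of_exponent_le h8 (by linarith)
          _ = 32 * K := Real.rpow_one _
      rw [hT, h1]
      calc Cg * ((2 : ℝ) ^ L) ^ (-(1 - θ / 32))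
          ≤ Cg * ((32 * K) ^ (1 - θ / 32) * (X : ℝ) ^ (-(1 - θ / 32))) := by
            rw [← h6]
            gcongr
        _ ≤ Cg * ((32 * K) * (X : ℝ) ^ (-(1 - θ / 32))) := by gcongr
        _ = _ := by ring
    have hT0 : 0 ≤ T := by positivity
    have hXθ : 0 < (X : ℝ) ^ (θ / 16) := by positivity
    have hUle : U ≤ C * (X / (X : ℝ) ^ (θ / 16)) * l ^ 4 := by
      rw [hU]
      gcongr
    have hV0 : 0 ≤ V := by positivity
    have h1 : U * V * T ≤ C' * (l ^ 5 * ((X : ℝ) / (X : ℝ) ^ (θ / 16) * X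
        * (X : ℝ) ^ (-(1 - θ / 32)))) := by
      calc U * V * T ≤ (C * (X / (X : ℝ) ^ (θ / 16)) * l ^ 4) * V
            * (Cg * (32 * K) * (X : ℝ) ^ (-(1 - θ / 32))) := by gcongr
        _ = _ := by rw [hV, hC']; ring
    have h3 : (X : ℝ) / (X : ℝ) ^ (θ / 16) * X * (X : ℝ) ^ (-(1 - θ / 32))
        = X * (X : ℝ) ^ (-(θ / 32)) := by
      have e1 : (X : ℝ) / (X : ℝ) ^ (θ / 16) = (X : ℝ) ^ (1 - θ / 16) := by
        rw [Real.rpow_sub hX0, Real.rpow_one]
      rw [e1]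
      have e2 : (X : ℝ) ^ (1 - θ / 16) * X * (X : ℝ) ^ (-(1 - θ / 32))
          = X * ((X : ℝ) ^ (1 - θ / 16) * (X : ℝ) ^ (-(1 - θ / 32))) := by ring
      rw [e2, ← Real.rpow_add hX0]
      congr 2
      ring
    have h4 : l ^ 5 * (X : ℝ) ^ (-(θ / 32)) ≤ c / (8 * C') := by
      rw [Real.rpow_neg hX0.le, ← div_eq_mul_inv, div_le_iff₀ (by positivity)]
      exact h5
    have h6 : U * V * T ≤ c / 8 * X := by
      rw [h3] at h1
      refine h1.trans ?_
      calc C' * (l ^ 5 * (X * (X : ℝ) ^ (-(θ / 32))))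
          = C' * X * (l ^ 5 * (X : ℝ) ^ (-(θ / 32))) := by ring
        _ ≤ C' * X * (c / (8 * C')) := by gcongr
        _ = c / 8 * X := by field_simp
    calc U * V * (L : ℝ) ^ K * T = (U * V * T) * (L : ℝ) ^ K := by ring
      _ ≤ (c / 8 * X) * (L : ℝ) ^ K := by gcongr
      _ = _ := by ring
  -- the main term
  have hlam1 : lam E X ≤ 1 := by
    rcases hEq : E with _ | ⟨y, δ⟩
    · exact le_rfl
    · exact min_le_left _ _
  have hlam0 : 0 ≤ lam E X := by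
    rcases hEq : E with _ | ⟨y, δ⟩
    · exact zero_le_one
    · have hexc := (hE y δ hEq).1
      exact le_min zero_le_one (mul_nonneg hexc.pos.le hl0)
  have hεle : ∀ ε1 : ℝ, ε0 ≤ ε1 → ε0 * lam E X * √(X : ℝ) ≤ ε1 * lam E X * √(X : ℝ) := by
    intro ε1 h
    have : 0 ≤ √(X : ℝ) := Real.sqrt_nonneg _
    gcongr
  have hEle : ∀ ε1 : ℝ, ε0 ≤ ε1 → ∀ y δ, E = some (y, δ) →
      Exc P y δ ∧ y.1 ^ 4 ≤ P ∧ 1 / ε1 ≤ (y.1 : ℝ) ∧ (y.1 : ℝ) ^ (-(1 / 8) : ℝ) ≤ δ := by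
    intro ε1 h y δ hyd
    obtain ⟨a1, a2, a3, a4⟩ := hE y δ hyd
    exact ⟨a1, a2, (one_div_le_one_div_of_le hε0 h).trans a3, a4⟩
  have hw1 := hW R H (X / 4) (X / 2) hR hHR (by omega) (by omega) (by omega) (by omega) (by
    have h1 : ((X / 2 : ℕ) : ℝ) ≤ X := by exact_mod_cast Nat.div_le_self X 2
    nlinarith)
  have hw2 := hW R H (M - X / 2) M hR hHR (by omega) (by omega) (by omega) (by omega) hMP
  set MJ : ℕ → ℝ := fun a => (Maj P R H (Ioc (X / 4) (X / 2)) (Ioc (M - X / 2) M)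
        (fun n => (th n : ℂ)) (fun n => (th n : ℂ)) a).re with hMJ
  have hwin : ∀ v ∈ box K L, M < m - ∑ i, 2 ^ v i ∧ m - ∑ i, 2 ^ v i ≤ M + X / 8 ∧
      Even (m - ∑ i, 2 ^ v i) ∧ ((m - ∑ i, 2 ^ v i).divisors.card : ℝ) ≤ (P : ℝ) ^ (1 / 8 : ℝ) := by
    intro v hv
    have h1 := hbox16 v hv
    have h3 : M < m - ∑ i, 2 ^ v i := by omega
    refine ⟨h3, by omega, (Nat.even_sub (by omega)).2 ⟨fun _ => even_box hv, fun _ => hev⟩, ?_⟩
    have h4 := hn0 (m - ∑ i, 2 ^ v i) (by omega)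
    refine h4.trans ?_
    have h6 : ((m - ∑ i, 2 ^ v i : ℕ) : ℝ) ≤ (X : ℝ) ^ 2 := by
      refine le_trans ?_ hmX2
      exact_mod_cast Nat.sub_le _ _
    calc ((m - ∑ i, 2 ^ v i : ℕ) : ℝ) ^ (θ / 128) ≤ ((X : ℝ) ^ 2) ^ (θ / 128) :=
          Real.rpow_le_rpow (Nat.cast_nonneg _) h6 (by positivity)
      _ = ((X : ℝ) ^ (θ / 8)) ^ (1 / 8 : ℝ) := by
          rw [← Real.rpow_natCast, ← Real.rpow_mul hX0.le, ← Real.rpow_mul hX0.le]
          congr 1
          push_cast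
          ring
      _ ≤ (P : ℝ) ^ (1 / 8 : ℝ) := Real.rpow_le_rpow (by positivity) hPlow (by norm_num)
  have hMJ0 : ∀ v ∈ box K L, 0 ≤ MJ (m - ∑ i, 2 ^ v i) := by
    intro v hv
    obtain ⟨a1, a2, a3, a4⟩ := hwin v hv
    have h1 := hlowa X P M (m - ∑ i, 2 ^ v i) R H E ((le_max_left _ _).trans hP0) hPX hR hHR hHR2
      hXM a1 a2 a3 (by omega) a4 (hEle εa (min_le_left _ _)) (hw1.trans (hεle εa (min_le_left _ _)))
        (hw2.trans (hεle εa (min_le_left _ _)))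
    refine le_trans ?_ h1
    positivity
  have hMJ1 : ∀ v ∈ box K L, (∀ y δ, E = some (y, δ) → ¬ rad5 y.1 ∣ m - ∑ i, 2 ^ v i) →
      c * X ≤ MJ (m - ∑ i, 2 ^ v i) := by
    intro v hv hr
    obtain ⟨a1, a2, a3, a4⟩ := hwin v hv
    have hQm : ∀ y δ, E = some (y, δ) → ∃ p : ℕ, p.Prime ∧ 5 ≤ p ∧ p ∣ y.1 ∧
        ¬ p ∣ m - ∑ i, 2 ^ v i := by
      intro y δ hy
      by_contra hcon
      push Not at hcon
      exact hr y δ hy (rad5_dvd fun p hp h5 hd => hcon p hp h5 hd)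
    have h1 := hlowb X P M (m - ∑ i, 2 ^ v i) R H E ((le_max_right _ _).trans hP0) hPX hR hHR hHR2
      hXM a1 a2 a3 (by omega) a4 (hEle εb (min_le_right _ _)) hQm
      (hw1.trans (hεle εb (min_le_right _ _))) (hw2.trans (hεle εb (min_le_right _ _)))
    refine le_trans ?_ h1
    have hm0 : 0 < m - ∑ i, 2 ^ v i := by omega
    have hmm1 : 1 ≤ ((m - ∑ i, 2 ^ v i : ℕ) : ℝ) / (m - ∑ i, 2 ^ v i).totient := by
      rw [le_div_iff₀ (by exact_mod_cast Nat.totient_pos.2 hm0), one_mul]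
      exact_mod_cast Nat.totient_le _
    have hcb' : c ≤ cb := min_le_right _ _
    calc c * X = c * 1 * X := by ring
      _ ≤ cb * (((m - ∑ i, 2 ^ v i : ℕ) : ℝ) / (m - ∑ i, 2 ^ v i).totient) * X := by gcongr
  -- most exponents are good
  have hmain : c / 2 * (X * (L : ℝ) ^ K) ≤ ∑ v ∈ box K L, MJ (m - ∑ i, 2 ^ v i) := by
    rcases hEq : E with _ | ⟨y, δ⟩
    · have h1 : ∀ v ∈ box K L, c * X ≤ MJ (m - ∑ i, 2 ^ v i) := fun v hv =>
        hMJ1 v hv fun y δ h => by rw [hEq] at h; simp at h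
      have h3 : (L : ℝ) ^ K * (c * X) ≤ ∑ v ∈ box K L, MJ (m - ∑ i, 2 ^ v i) := by
        calc (L : ℝ) ^ K * (c * X) = ∑ v ∈ box K L, c * X := by
              rw [sum_const, card_box, nsmul_eq_mul]
              push_cast
              ring
          _ ≤ _ := sum_le_sum h1
      have h4 : 0 ≤ (L : ℝ) ^ K * (c * X) := by positivity
      have h6 : c / 2 * (X * (L : ℝ) ^ K) = (L : ℝ) ^ K * (c * X) / 2 := by ring
      linarith
    · have hgr := hX6 X hX6' P E (fun y δ h => (hE y δ h).1) hE2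
      rw [hEq] at hgr
      have hr16 : (16 : ℝ) ≤ (rad5 y.1 : ℝ) := by
        have : (rr (some (y, δ)) X : ℝ) = (rad5 y.1 : ℝ) := rfl
        rw [this, pow_one] at hgr
        linarith
      have hr1 : 1 < rad5 y.1 := by
        have : (16 : ℕ) ≤ rad5 y.1 := by exact_mod_cast hr16
        omega
      have hodd : Odd (rad5 y.1) := by
        unfold rad5
        refine Finset.prod_induction _ Odd (fun a b ha hb => ha.mul hb) odd_one fun p hp => ?_
        rw [mem_filter] at hp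
        exact (Nat.prime_of_mem_primeFactors hp.1).odd_of_ne_two (by omega)
      have hlog4 : 4 ≤ Real.logb 2 (rad5 y.1) := by
        rw [Real.le_logb_iff_rpow_le (by norm_num) (by linarith)]
        calc (2 : ℝ) ^ (4 : ℝ) = 16 := by norm_num
          _ ≤ _ := hr16
      have hob := ord_box hORD (r := rad5 y.1) (L := L) (K := K0 + 1) (m := m) hr1 hodd hlog4
        (by omega) hbox
      have hsplit := sum_filter_add_sum_filter_not (box K L)
        (fun v => rad5 y.1 ∣ m - ∑ i, 2 ^ v i) (fun v => MJ (m - ∑ i, 2 ^ v i))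
      have hbad0 : 0 ≤ ∑ v ∈ (box K L).filter (fun v => rad5 y.1 ∣ m - ∑ i, 2 ^ v i),
          MJ (m - ∑ i, 2 ^ v i) :=
        sum_nonneg fun v hv => hMJ0 v (mem_filter.1 hv).1
      have hgood : (((box K L).filter (fun v => ¬ rad5 y.1 ∣ m - ∑ i, 2 ^ v i)).card : ℝ) * (c * X)
          ≤ ∑ v ∈ (box K L).filter (fun v => ¬ rad5 y.1 ∣ m - ∑ i, 2 ^ v i),
            MJ (m - ∑ i, 2 ^ v i) := by
        rw [← nsmul_eq_mul, ← sum_const]
        refine sum_le_sum fun v hv => ?_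
        rw [mem_filter] at hv
        refine hMJ1 v hv.1 fun y' δ' h => ?_
        rw [hEq, Option.some.injEq, Prod.mk.injEq] at h
        rw [← h.1]
        exact hv.2
      have hcount : (L : ℝ) ^ K / 2 ≤
          (((box K L).filter (fun v => ¬ rad5 y.1 ∣ m - ∑ i, 2 ^ v i)).card : ℝ) := by
        have h1 := card_filter_add_card_filter_not (s := box K L)
          (fun v => rad5 y.1 ∣ m - ∑ i, 2 ^ v i)
        rw [card_box] at h1
        have h3 : (((box K L).filter (fun v => rad5 y.1 ∣ m - ∑ i, 2 ^ v i)).card : ℝ)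
            + (((box K L).filter (fun v => ¬ rad5 y.1 ∣ m - ∑ i, 2 ^ v i)).card : ℝ)
            = (L : ℝ) ^ K := by exact_mod_cast h1
        linarith
      have h3 : (L : ℝ) ^ K / 2 * (c * X) ≤
          (((box K L).filter (fun v => ¬ rad5 y.1 ∣ m - ∑ i, 2 ^ v i)).card : ℝ) * (c * X) := by
        gcongr
      have h4 : c / 2 * (X * (L : ℝ) ^ K) = (L : ℝ) ^ K / 2 * (c * X) := by ring
      linarith
  -- conclusion
  have hcvre : ∀ v ∈ box K L, ∑ a ∈ Ioc (X / 4) (X / 2), th a * th (m - ∑ i, 2 ^ v i - a)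
      = MJ (m - ∑ i, 2 ^ v i) + (D (m - ∑ i, 2 ^ v i)).re := by
    intro v hv
    obtain ⟨a1, a2, a3, a4⟩ := hwin v hv
    have h1 := cv_window X M (m - ∑ i, 2 ^ v i) hXM a1 a2
    have h3 : (D (m - ∑ i, 2 ^ v i)).re = (cv (Ioc (X / 4) (X / 2)) (Ioc (M - X / 2) M)
        (fun n => (th n : ℂ)) (fun n => (th n : ℂ)) (m - ∑ i, 2 ^ v i)).re
        - MJ (m - ∑ i, 2 ^ v i) := by
      simp only [hD, hMJ, Complex.sub_re]
    rw [h3, h1, Complex.ofReal_re]
    ring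
  have htot : 0 < ∑ v ∈ box K L, ∑ a ∈ Ioc (X / 4) (X / 2), th a * th (m - ∑ i, 2 ^ v i - a) := by
    rw [sum_congr rfl hcvre, sum_add_distrib]
    have h1 := (abs_le.1 (Complex.abs_re_le_norm (∑ v ∈ box K L, D (m - ∑ i, 2 ^ v i)))).1
    rw [Complex.re_sum] at h1
    have h3 : 0 < c / 8 * (X * (L : ℝ) ^ K) := by positivity
    have h4 : c / 2 * (X * (L : ℝ) ^ K) = 4 * (c / 8 * (X * (L : ℝ) ^ K)) := by ring
    linarith
  obtain ⟨v, hv, hpos⟩ := exists_lt_of_sum_lt (by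
    rw [sum_const_zero]
    exact htot : ∑ v ∈ box K L, (0 : ℝ) < ∑ v ∈ box K L, ∑ a ∈ Ioc (X / 4) (X / 2),
      th a * th (m - ∑ i, 2 ^ v i - a))
  obtain ⟨a, ha, hap, hmp⟩ := exists_of_pos hpos
  exact ⟨v, fun i => ((mem_box.1 hv) i).1, hbox16 v hv, a, ha, hap, hmp⟩

end Pool.Agent.PS
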