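import Pool.Agent.Work.PS.InterfaceB

/-!
# Block ORD: few powers of two in a residue class
-/

set_option autoImplicit false

namespace Pool.Agent.PS

open Finset
open scoped Classical

theorem stmt_ORD : Stmt_ORD := by
  intro r L hr hodd b
  set s := (Icc 1 L).filter fun v => (r : ℤ) ∣ b - 2 ^ v with hs
  set o := orderOf (2 : ZMod r) with ho
  have hne : Fact (1 < r) := ⟨hr⟩
  have hcop : Nat.Coprime 2 r := hodd.coprime_two_left
  have hunit : IsUnit (2 : ZMod r) := by
    have := (ZMod.unitOfCoprime 2 hcop).isUnit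
    simpa [ZMod.coe_unitOfCoprime] using this
  have : NeZero r := ⟨by omega⟩
  have ho0 : 0 < o := by
    rw [ho]
    obtain ⟨u, hu⟩ := hunit
    rw [← hu, orderOf_units]
    exact orderOf_pos u
  have h2o : r < 2 ^ o := by
    have h1 : (2 : ZMod r) ^ o = 1 := pow_orderOf_eq_one 2
    have h2 : (((2 ^ o - 1 : ℕ)) : ZMod r) = 0 := by
      rw [Nat.cast_sub Nat.one_le_two_pow]
      push_cast
      rw [h1]
      simp
    rw [ZMod.natCast_eq_zero_iff] at h2
    have h3 : 2 ^ 1 ≤ 2 ^ o := Nat.pow_le_pow_right (by norm_num) ho0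
    have h4 := Nat.le_of_dvd (by omega) h2
    omega
  have hlog : Real.logb 2 r ≤ o := by
    rw [Real.logb_le_iff_le_rpow (by norm_num) (by exact_mod_cast (by omega : 0 < r))]
    rw [Real.rpow_natCast]
    exact_mod_cast h2o.le
  have hlog0 : 0 < Real.logb 2 r := Real.logb_pos (by norm_num) (by exact_mod_cast hr)
  have hmod : ∀ v ∈ s, ∀ w ∈ s, v ≤ w → v % o = w % o := by
    intro v hv w hw hvw
    have h1 := (mem_filter.1 hv).2
    have h2 := (mem_filter.1 hw).2
    have h3 : (r : ℤ) ∣ 2 ^ w - 2 ^ v := by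
      have := dvd_sub h1 h2
      rwa [show b - 2 ^ v - (b - 2 ^ w) = 2 ^ w - 2 ^ v by ring] at this
    have h4 : ((2 ^ w - 2 ^ v : ℤ) : ZMod r) = 0 := (ZMod.intCast_zmod_eq_zero_iff_dvd _ _).2 h3
    push_cast at h4
    rw [sub_eq_zero] at h4
    obtain ⟨u, hu⟩ := hunit
    have h5 : u ^ v = u ^ w := by
      apply Units.ext
      rw [Units.val_pow_eq_pow_val, Units.val_pow_eq_pow_val, hu, h4]
    have h6 : orderOf u = o := by rw [ho, ← hu, orderOf_units]
    have h7 := pow_eq_pow_iff_modEq.1 h5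
    rw [h6] at h7
    exact h7
  have hcard : #s ≤ L / o + 1 := by
    rw [← card_range (L / o + 1)]
    refine card_le_card_of_injOn (fun v => (v - 1) / o) ?_ ?_
    · intro v hv
      rw [mem_coe] at hv
      have h1 := mem_Icc.1 (mem_filter.1 hv).1
      show (v - 1) / o ∈ (range (L / o + 1) : Set ℕ)
      rw [mem_coe, mem_range, Nat.lt_succ_iff]
      exact Nat.div_le_div_right (by omega)
    · intro v hv w hw hvw
      rw [mem_coe] at hv hw
      simp only at hvw
      have h1 := mem_Icc.1 (mem_filter.1 hv).1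
      have h2 := mem_Icc.1 (mem_filter.1 hw).1
      have h3 : v ≡ w [MOD o] := by
        rcases le_total v w with h | h
        · exact hmod v hv w hw h
        · exact (hmod w hw v hv h).symm
      have h4 : v - 1 ≡ w - 1 [MOD o] := by
        refine Nat.ModEq.add_right_cancel' 1 ?_
        rw [Nat.sub_add_cancel h1.1, Nat.sub_add_cancel h2.1]
        exact h3
      have h5 := Nat.div_add_mod (v - 1) o
      have h6 := Nat.div_add_mod (w - 1) o
      rw [hvw] at h5
      have h7 : (v - 1) % o = (w - 1) % o := h4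
      omega
  have h8 : ((L / o : ℕ) : ℝ) ≤ (L : ℝ) / o := Nat.cast_div_le
  have h9 : (#s : ℝ) ≤ ((L / o : ℕ) : ℝ) + 1 := by exact_mod_cast hcard
  have h10 : (L : ℝ) / o ≤ L / Real.logb 2 r :=
    div_le_div_of_nonneg_left (Nat.cast_nonneg _) hlog0 hlog
  linarith

end Pool.Agent.PS
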