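import Pool.Agent.Work.PS.InterfaceB
import Pool.Agent.Work.MP_484fb8_nt.Energy

/-!
# Block PAIR: upper bound sieve for prime pairs in short intervals

The argument of `Work/MP_484fb8_nt/{PairCount,PairSieve,Energy}.lean` for the interval
`(A, A + N]` in place of `(0, N]`.
-/

set_option autoImplicit false

open Finset Nat ArithmeticFunction BoundingSieve

namespace Pool.Agent.PS.PAIR

open Pool.Agent.Work.MP_484fb8_nt (cdiv card_cdiv pairNu pairNu_prime pairNu_pos_prime
  pairNu_lt_one_prime pairNu_eq pairSieve inj_mul_add card_cdiv_le GSum selberg_upper_bound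
  GSum_ge FF FF_pos FF_ge_one log_sq_le_sqrt)

/-- Number of `q ∈ [1,N]` in a residue class modulo `r`. -/
lemma card_modEq (A N r v : ℕ) (hr : 0 < r) :
    |((#{x ∈ Ioc A (A + N) | x ≡ v [MOD r]} : ℕ) : ℝ) - N / r| ≤ 1 := by
  have h := Nat.Ioc_filter_modEq_card A (A + N) hr v
  have hrr : (0 : ℚ) < r := by exact_mod_cast hr
  have hle : (⌊((A : ℕ) - v : ℚ) / (r : ℚ)⌋ : ℤ) ≤ ⌊((A + N : ℕ) - v : ℚ) / (r : ℚ)⌋ := by
    apply Int.floor_le_floor
    apply div_le_div_of_nonneg_right _ hrr.le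
    have : (0 : ℚ) ≤ N := by positivity
    push_cast
    linarith
  have hmax : max (⌊((A + N : ℕ) - v : ℚ) / (r : ℚ)⌋ - ⌊((A : ℕ) - v : ℚ) / (r : ℚ)⌋) 0
      = ⌊((A + N : ℕ) - v : ℚ) / (r : ℚ)⌋ - ⌊((A : ℕ) - v : ℚ) / (r : ℚ)⌋ := by
    apply max_eq_left
    linarith
  have h' : ((#{x ∈ Ioc A (A + N) | x ≡ v [MOD r]} : ℕ) : ℤ)
      = ⌊((A + N : ℕ) - v : ℚ) / (r : ℚ)⌋ - ⌊((A : ℕ) - v : ℚ) / (r : ℚ)⌋ := by
    rw [h]; exact hmax
  have hq : ((#{x ∈ Ioc A (A + N) | x ≡ v [MOD r]} : ℕ) : ℚ)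
      = (⌊((A + N : ℕ) - v : ℚ) / (r : ℚ)⌋ : ℚ) - (⌊((A : ℕ) - v : ℚ) / (r : ℚ)⌋ : ℚ) := by
    exact_mod_cast h'
  have a1 := Int.floor_le (((A + N : ℕ) - v : ℚ) / (r : ℚ))
  have a2 := Int.lt_floor_add_one (((A + N : ℕ) - v : ℚ) / (r : ℚ))
  have b1 := Int.floor_le (((A : ℕ) - v : ℚ) / (r : ℚ))
  have b2 := Int.lt_floor_add_one (((A : ℕ) - v : ℚ) / (r : ℚ))
  have hdiff : ((A + N : ℕ) - v : ℚ) / (r : ℚ) - ((A : ℕ) - v : ℚ) / (r : ℚ) = (N : ℚ) / r := by
    push_cast
    field_simp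
    ring
  have habs : |((#{x ∈ Ioc A (A + N) | x ≡ v [MOD r]} : ℕ) : ℚ) - N / r| ≤ 1 := by
    rw [abs_le, hq]
    constructor <;> linarith
  have : ((|((#{x ∈ Ioc A (A + N) | x ≡ v [MOD r]} : ℕ) : ℚ) - N / r| : ℚ) : ℝ) ≤ ((1 : ℚ) : ℝ) := by
    exact_mod_cast habs
  simpa using this

/-- Number of solutions of two coprime congruences. -/
lemma card_two_modEq (A N a b h : ℕ) (ha : 0 < a) (hb : 0 < b) (hab : a.Coprime b) :
    |((#{x ∈ Ioc A (A + N) | a ∣ x ∧ b ∣ x + h} : ℕ) : ℝ) - N / (a * b : ℕ)| ≤ 1 := by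
  -- pick a residue `c` with `c ≡ 0 (mod a)` and `c ≡ -h (mod b)`
  obtain ⟨c, hc1, hc2⟩ := Nat.chineseRemainder hab 0 ((b - h % b) : ℕ)
  have hset : {x ∈ Ioc A (A + N) | a ∣ x ∧ b ∣ x + h} = {x ∈ Ioc A (A + N) | x ≡ c [MOD (a * b)]} := by
    ext x
    simp only [mem_filter, and_congr_right_iff]
    intro _
    have hneg : (b - h % b) + h ≡ 0 [MOD b] := by
      have h1 : h % b ≤ b := (Nat.mod_lt h hb).le
      have h2 : h = h % b + b * (h / b) := (Nat.mod_add_div h b).symm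
      have h3 : (b - h % b) + h = b + b * (h / b) := by omega
      rw [h3, Nat.modEq_zero_iff_dvd]
      exact ⟨1 + h / b, by ring⟩
    rw [← Nat.modEq_and_modEq_iff_modEq_mul hab]
    constructor
    · rintro ⟨h1, h2⟩
      constructor
      · exact ((Nat.modEq_zero_iff_dvd).mpr h1).trans hc1.symm
      · have h3 : x + h ≡ 0 [MOD b] := (Nat.modEq_zero_iff_dvd).mpr h2
        have h4 : x + h ≡ c + h [MOD b] := h3.trans ((hc2.add_right h).trans hneg).symm
        exact Nat.ModEq.add_right_cancel' h h4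
    · rintro ⟨h1, h2⟩
      constructor
      · exact (Nat.modEq_zero_iff_dvd).mp (h1.trans hc1)
      · exact (Nat.modEq_zero_iff_dvd).mp ((h2.add_right h).trans ((hc2.add_right h).trans hneg))
  rw [hset]
  exact card_modEq A N (a * b) c (Nat.mul_pos ha hb)

lemma card_dvd_mul (A N d h : ℕ) (hd : Squarefree d) :
    (#{x ∈ Ioc A (A + N) | d ∣ x * (x + h)} : ℕ)
      = ∑ b ∈ cdiv d h, #{x ∈ Ioc A (A + N) | d / b ∣ x ∧ b ∣ x + h} := by
  have hd0 : d ≠ 0 := hd.ne_zero
  have hmaps : ∀ x ∈ {x ∈ Ioc A (A + N) | d ∣ x * (x + h)}, d / Nat.gcd d x ∈ cdiv d h := by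
    intro x hx
    rw [mem_filter] at hx
    obtain ⟨_, hx2⟩ := hx
    unfold cdiv
    rw [mem_filter, mem_divisors]
    have hg : Nat.gcd d x ∣ d := Nat.gcd_dvd_left d x
    have hgpos : 0 < Nat.gcd d x := Nat.gcd_pos_of_pos_left _ (Nat.pos_of_ne_zero hd0)
    refine ⟨⟨Nat.div_dvd_of_dvd hg, hd0⟩, ?_⟩
    -- b divides x + h
    obtain ⟨b, hb⟩ := hg
    have hbq : d / Nat.gcd d x = b := by
      nth_rewrite 1 [hb]; exact Nat.mul_div_cancel_left b hgpos
    rw [hbq]
    have hcop1 : (Nat.gcd d x).Coprime b := by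
      have : Squarefree (Nat.gcd d x * b) := by rw [← hb]; exact hd
      exact Nat.coprime_of_squarefree_mul this
    have hbx : b.Coprime x := by
      rw [Nat.coprime_iff_gcd_eq_one]
      by_contra hne
      obtain ⟨p, hp, hpd⟩ := Nat.exists_prime_and_dvd hne
      have hpb : p ∣ b := hpd.trans (Nat.gcd_dvd_left _ _)
      have hpx : p ∣ x := hpd.trans (Nat.gcd_dvd_right _ _)
      have hpdd : p ∣ d := hpb.trans (by rw [hb]; exact dvd_mul_left _ _)
      have hpg : p ∣ Nat.gcd d x := Nat.dvd_gcd hpdd hpx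
      have := Nat.dvd_gcd hpg hpb
      rw [hcop1] at this
      exact hp.one_lt.ne' (Nat.dvd_one.mp this)
    have hbxh : b ∣ x + h := by
      have h1 : b ∣ x * (x + h) := (Dvd.intro_left _ hb.symm).trans hx2
      exact hbx.dvd_of_dvd_mul_left h1
    rw [Nat.coprime_iff_gcd_eq_one]
    by_contra hne
    obtain ⟨p, hp, hpd⟩ := Nat.exists_prime_and_dvd hne
    have hpb : p ∣ b := hpd.trans (Nat.gcd_dvd_left _ _)
    have hph : p ∣ h := hpd.trans (Nat.gcd_dvd_right _ _)
    have hpx : p ∣ x := (Nat.dvd_add_iff_left hph).mpr (hpb.trans hbxh)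
    have := Nat.dvd_gcd hpb hpx
    rw [hbx] at this
    exact hp.one_lt.ne' (Nat.dvd_one.mp this)
  rw [Finset.card_eq_sum_card_fiberwise hmaps]
  apply sum_congr rfl
  intro b hb
  congr 1
  unfold cdiv at hb
  rw [mem_filter, mem_divisors] at hb
  obtain ⟨⟨⟨a, ha⟩, _⟩, hbh⟩ := hb
  have hb0 : b ≠ 0 := by rintro rfl; simp at ha; exact hd0 ha
  have ha0 : a ≠ 0 := by rintro rfl; simp at ha; exact hd0 ha
  have hdb : d / b = a := by
    rw [ha]; exact Nat.mul_div_cancel_left a (Nat.pos_of_ne_zero hb0)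
  have hcop : b.Coprime a := by
    rw [ha] at hd
    exact Nat.coprime_of_squarefree_mul hd
  rw [hdb]
  ext x
  simp only [mem_filter]
  constructor
  · rintro ⟨⟨hxN, hx2⟩, hx3⟩
    have hgpos : 0 < Nat.gcd d x := Nat.gcd_pos_of_pos_left _ (Nat.pos_of_ne_zero hd0)
    have hg : d = Nat.gcd d x * b := by
      rw [← hx3]; exact (Nat.mul_div_cancel' (Nat.gcd_dvd_left d x)).symm
    have hga : Nat.gcd d x = a := by
      have : Nat.gcd d x * b = a * b := by rw [← hg, ha, mul_comm]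
      exact Nat.eq_of_mul_eq_mul_right (Nat.pos_of_ne_zero hb0) this
    refine ⟨hxN, ?_, ?_⟩
    · rw [← hga]; exact Nat.gcd_dvd_right d x
    · have hbx : b.Coprime x := by
        rw [Nat.coprime_iff_gcd_eq_one]
        by_contra hne
        obtain ⟨p, hp, hpd⟩ := Nat.exists_prime_and_dvd hne
        have hpb : p ∣ b := hpd.trans (Nat.gcd_dvd_left _ _)
        have hpx : p ∣ x := hpd.trans (Nat.gcd_dvd_right _ _)
        have hpdd : p ∣ d := hpb.trans (by rw [ha]; exact dvd_mul_right _ _)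
        have hpg : p ∣ a := by rw [← hga]; exact Nat.dvd_gcd hpdd hpx
        have := Nat.dvd_gcd hpb hpg
        rw [hcop] at this
        exact hp.one_lt.ne' (Nat.dvd_one.mp this)
      have h1 : b ∣ x * (x + h) := (Dvd.intro _ ha.symm).trans hx2
      exact hbx.dvd_of_dvd_mul_left h1
  · rintro ⟨hxN, h1, h2⟩
    have hbx : b.Coprime x := by
      rw [Nat.coprime_iff_gcd_eq_one]
      by_contra hne
      obtain ⟨p, hp, hpd⟩ := Nat.exists_prime_and_dvd hne
      have hpb : p ∣ b := hpd.trans (Nat.gcd_dvd_left _ _)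
      have hpx : p ∣ x := hpd.trans (Nat.gcd_dvd_right _ _)
      have hph : p ∣ h := (Nat.dvd_add_iff_right hpx).mpr (hpb.trans h2)
      have := Nat.dvd_gcd hpb hph
      rw [hbh] at this
      exact hp.one_lt.ne' (Nat.dvd_one.mp this)
    have hga : Nat.gcd d x = a := by
      rw [ha, Nat.Coprime.gcd_mul_left_cancel a hbx, Nat.gcd_eq_left h1]
    refine ⟨⟨hxN, ?_⟩, ?_⟩
    · rw [ha, mul_comm x]
      exact mul_dvd_mul h2 h1
    · rw [hga, ha]
      exact Nat.mul_div_cancel b (Nat.pos_of_ne_zero ha0)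

lemma card_dvd_mul_approx (A N d h : ℕ) (hd : Squarefree d) :
    |((#{x ∈ Ioc A (A + N) | d ∣ x * (x + h)} : ℕ) : ℝ) - (#(cdiv d h) : ℝ) / d * N| ≤ #(cdiv d h) := by
  rw [card_dvd_mul A N d h hd]
  push_cast
  have h1 : (#(cdiv d h) : ℝ) / d * N = ∑ b ∈ cdiv d h, (N : ℝ) / d := by
    rw [sum_const, nsmul_eq_mul]; ring
  rw [h1, ← sum_sub_distrib]
  refine (abs_sum_le_sum_abs _ _).trans ?_
  have h2 : (#(cdiv d h) : ℝ) = ∑ b ∈ cdiv d h, (1 : ℝ) := by simp
  rw [h2]
  apply sum_le_sum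
  intro b hb
  unfold cdiv at hb
  rw [mem_filter, mem_divisors] at hb
  obtain ⟨⟨⟨a, ha⟩, hd0⟩, hbh⟩ := hb
  have hb0 : 0 < b := Nat.pos_of_ne_zero (by rintro rfl; simp at ha; exact hd0 ha)
  have ha0 : 0 < a := Nat.pos_of_ne_zero (by rintro rfl; simp at ha; exact hd0 ha)
  have hdb : d / b = a := by
    rw [ha]; exact Nat.mul_div_cancel_left a hb0
  have hcop : a.Coprime b := by
    rw [ha] at hd
    exact (Nat.coprime_of_squarefree_mul hd).symm
  rw [hdb]
  have := card_two_modEq A N a b h ha0 hb0 hcop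
  have e : (a * b : ℕ) = d := by rw [ha, mul_comm]
  rw [e] at this
  exact this

/-- The sieve for prime pairs. -/
noncomputable def pairSieveA (A N h D : ℕ) (hh : Even h) : BoundingSieve where
  support := (Ioc A (A + N)).image (fun x => x * (x + h))
  prodPrimes := primorial D
  prodPrimes_squarefree := squarefree_primorial D
  weights := fun _ => 1
  weights_nonneg := fun _ => zero_le_one
  totalMass := N
  nu := pairNu h
  nu_mult := ArithmeticFunction.IsMultiplicative.prodPrimeFactors _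
  nu_pos_of_prime := fun p hp _ => pairNu_pos_prime h p hp
  nu_lt_one_of_prime := fun p hp _ => pairNu_lt_one_prime h p hh hp

lemma pairSieveA_multSum (A N h D d : ℕ) (hh : Even h) :
    (pairSieveA A N h D hh).multSum d = (#{x ∈ Ioc A (A + N) | d ∣ x * (x + h)} : ℕ) := by
  unfold multSum pairSieveA
  simp only
  rw [sum_image]
  · rw [← sum_filter]
    simp
  · apply inj_mul_add
    intro x hx
    simp only [coe_Ioc, Set.mem_Ioc] at hx
    exact lt_of_le_of_lt (Nat.zero_le _) hx.1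

lemma pairSieveA_rem (A N h D d : ℕ) (hh : Even h) (hd : Squarefree d) :
    |(pairSieveA A N h D hh).rem d| ≤ #(cdiv d h) := by
  unfold rem
  rw [pairSieveA_multSum]
  have : (pairSieveA A N h D hh).nu d * (pairSieveA A N h D hh).totalMass
      = (#(cdiv d h) : ℝ) / d * N := by
    change pairNu h d * (N : ℝ) = _
    rw [pairNu_eq d h hd]
  rw [this]
  exact card_dvd_mul_approx A N d h hd

/-- Number of `A < q ≤ A + N` with `q` and `q + h` both prime. -/
def pairCount (A N h : ℕ) : ℕ := #{x ∈ Ioc A (A + N) | x.Prime ∧ (x + h).Prime}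

lemma pairCount_le (A N h D : ℕ) (hh : Even h) :
    (pairCount A N h : ℝ) ≤ D + (pairSieveA A N h D hh).siftedSum := by
  have h1 : pairCount A N h ≤ D + #{x ∈ Ioc A (A + N) | (primorial D).Coprime (x * (x + h))} := by
    unfold pairCount
    have hsub : {x ∈ Ioc A (A + N) | x.Prime ∧ (x + h).Prime} ⊆
        Ioc 0 D ∪ {x ∈ Ioc A (A + N) | (primorial D).Coprime (x * (x + h))} := by
      intro x hx
      rw [mem_filter, mem_Ioc] at hx
      rw [mem_union, mem_filter, mem_Ioc, mem_Ioc]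
      obtain ⟨⟨hx0, hxN⟩, hp1, hp2⟩ := hx
      by_cases hxD : x ≤ D
      · left; exact ⟨hp1.pos, hxD⟩
      · right
        refine ⟨⟨hx0, hxN⟩, ?_⟩
        apply Nat.Coprime.mul_right
        · rw [Nat.coprime_comm, hp1.coprime_iff_not_dvd, hp1.dvd_primorial_iff]
          exact hxD
        · rw [Nat.coprime_comm, hp2.coprime_iff_not_dvd, hp2.dvd_primorial_iff]
          omega
    refine (card_le_card hsub).trans ((card_union_le _ _).trans ?_)
    simp
  have h2 : (pairSieveA A N h D hh).siftedSum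
      = (#{x ∈ Ioc A (A + N) | (primorial D).Coprime (x * (x + h))} : ℕ) := by
    unfold siftedSum pairSieveA
    simp only
    rw [sum_image]
    · rw [← sum_filter]
      simp
    · apply inj_mul_add
      intro x hx
      simp only [coe_Ioc, Set.mem_Ioc] at hx
      exact lt_of_le_of_lt (Nat.zero_le _) hx.1
  rw [h2]
  exact_mod_cast h1

/-- The sieve bound before inserting the lower bound for `G`. -/
theorem pairCount_le_of_G (A N h D : ℕ) (hh : Even h) (hD : 1 ≤ D) :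
    (pairCount A N h : ℝ) ≤ D + N * (GSum (pairSieveA A N h D hh) D)⁻¹ + (D : ℝ) ^ 4 := by
  have h1 := pairCount_le A N h D hh
  have h2 := selberg_upper_bound (s := pairSieveA A N h D hh) hD
  have hmass : (pairSieveA A N h D hh).totalMass = N := rfl
  rw [hmass] at h2
  have h3 : ∑ d1 ∈ (pairSieveA A N h D hh).prodPrimes.divisors with d1 ≤ D,
      ∑ d2 ∈ (pairSieveA A N h D hh).prodPrimes.divisors with d2 ≤ D,
        |(pairSieveA A N h D hh).rem (Nat.lcm d1 d2)| ≤ (D : ℝ) ^ 4 := by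
    have h4 : ∀ d1 ∈ (pairSieveA A N h D hh).prodPrimes.divisors.filter (fun d => d ≤ D),
        ∀ d2 ∈ (pairSieveA A N h D hh).prodPrimes.divisors.filter (fun d => d ≤ D),
        |(pairSieveA A N h D hh).rem (Nat.lcm d1 d2)| ≤ (D : ℝ) ^ 2 := by
      intro d1 hd1 d2 hd2
      rw [mem_filter, mem_divisors] at hd1 hd2
      have hsq : Squarefree (Nat.lcm d1 d2) :=
        (pairSieveA A N h D hh).prodPrimes_squarefree.squarefree_of_dvd
          (Nat.lcm_dvd hd1.1.1 hd2.1.1)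
      refine (pairSieveA_rem A N h D _ hh hsq).trans ?_
      have h5 := card_cdiv_le (Nat.lcm d1 d2) h hsq.ne_zero
      have h6 : Nat.lcm d1 d2 ≤ d1 * d2 := Nat.le_of_dvd
        (Nat.mul_pos (Nat.pos_of_ne_zero (ne_zero_of_dvd_ne_zero hd1.1.2 hd1.1.1))
          (Nat.pos_of_ne_zero (ne_zero_of_dvd_ne_zero hd2.1.2 hd2.1.1)))
        (Nat.lcm_dvd (dvd_mul_right _ _) (dvd_mul_left _ _))
      have h7 : d1 * d2 ≤ D * D := Nat.mul_le_mul hd1.2 hd2.2
      have h8 : #(cdiv (Nat.lcm d1 d2) h) ≤ D * D := h5.trans (h6.trans h7)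
      calc ((#(cdiv (Nat.lcm d1 d2) h) : ℕ) : ℝ) ≤ ((D * D : ℕ) : ℝ) := by exact_mod_cast h8
        _ = (D : ℝ) ^ 2 := by push_cast; ring
    have hcard : #((pairSieveA A N h D hh).prodPrimes.divisors.filter (fun d => d ≤ D)) ≤ D := by
      have hsub : (pairSieveA A N h D hh).prodPrimes.divisors.filter (fun d => d ≤ D) ⊆ Icc 1 D := by
        intro d hd
        rw [mem_filter, mem_divisors] at hd
        rw [mem_Icc]
        exact ⟨Nat.pos_of_ne_zero (ne_zero_of_dvd_ne_zero hd.1.2 hd.1.1), hd.2⟩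
      have := card_le_card hsub
      simpa using this
    have hcard' : (#((pairSieveA A N h D hh).prodPrimes.divisors.filter (fun d => d ≤ D)) : ℝ) ≤ D := by
      exact_mod_cast hcard
    calc _ ≤ ∑ d1 ∈ (pairSieveA A N h D hh).prodPrimes.divisors with d1 ≤ D,
          ∑ d2 ∈ (pairSieveA A N h D hh).prodPrimes.divisors with d2 ≤ D, (D : ℝ) ^ 2 :=
          sum_le_sum fun d1 hd1 => sum_le_sum fun d2 hd2 => h4 d1 hd1 d2 hd2
      _ = (#((pairSieveA A N h D hh).prodPrimes.divisors.filter (fun d => d ≤ D)) : ℝ) *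
          ((#((pairSieveA A N h D hh).prodPrimes.divisors.filter (fun d => d ≤ D)) : ℝ) *
            (D : ℝ) ^ 2) := by
          rw [sum_const, sum_const, nsmul_eq_mul, nsmul_eq_mul]
      _ ≤ (D : ℝ) * ((D : ℝ) * (D : ℝ) ^ 2) := by gcongr
      _ = (D : ℝ) ^ 4 := by ring
  linarith

/-- Sieve bound with a free parameter `x`. -/
theorem pairCount_le_param (A N h x : ℕ) (hh : Even h) (hh0 : h ≠ 0) (hx : 2 ≤ x) :
    (pairCount A N h : ℝ) ≤ (x : ℝ) ^ 2 + 8 * N * FF h / (Real.log x) ^ 2 + (x : ℝ) ^ 8 := by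
  have hD : 1 ≤ x * x := by nlinarith
  have h1 := pairCount_le_of_G A N h (x * x) hh hD
  have h2 : (Real.log x) ^ 2 / (8 * FF h) ≤ GSum (pairSieveA A N h (x * x) hh) (x * x) :=
    GSum_ge N h (x * x) x hh hh0 (by omega) le_rfl
  have hF := FF_pos h hh0
  have hlog : 0 < Real.log x := Real.log_pos (by exact_mod_cast (by omega : 1 < x))
  have hpos : 0 < (Real.log x) ^ 2 / (8 * FF h) := by positivity
  have h3 : (GSum (pairSieveA A N h (x * x) hh) (x * x))⁻¹ ≤ 8 * FF h / (Real.log x) ^ 2 := by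
    calc (GSum (pairSieveA A N h (x * x) hh) (x * x))⁻¹ ≤ ((Real.log x) ^ 2 / (8 * FF h))⁻¹ :=
          inv_anti₀ hpos h2
      _ = 8 * FF h / (Real.log x) ^ 2 := by rw [inv_div]
  have h4 : (N : ℝ) * (GSum (pairSieveA A N h (x * x) hh) (x * x))⁻¹
      ≤ N * (8 * FF h / (Real.log x) ^ 2) := mul_le_mul_of_nonneg_left h3 (by positivity)
  push_cast at h1 h4
  have e1 : ((x : ℝ) * x) = (x : ℝ) ^ 2 := by ring
  have e2 : ((x : ℝ) * x) ^ 4 = (x : ℝ) ^ 8 := by ring
  have e3 : (N : ℝ) * (8 * FF h / (Real.log x) ^ 2) = 8 * N * FF h / (Real.log x) ^ 2 := by ring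
  rw [e2] at h1
  rw [e1] at h1
  rw [e3] at h4
  linarith

lemma pairCount_le_self (A N h : ℕ) : pairCount A N h ≤ N := by
  unfold pairCount
  refine (card_filter_le _ _).trans ?_
  simp

/-- **Prime pairs, explicit.** For all `N ≥ 2` and all even `h ≥ 2`, there are at most
`8224 · F(h) · N / (log N)^2` primes `q ≤ N` with `q + h` prime. -/
theorem pairCount_bound (A N h : ℕ) (hN : 2 ≤ N) (hh : Even h) (hh0 : h ≠ 0) :
    (pairCount A N h : ℝ) ≤ 8224 * FF h * (N / (Real.log N) ^ 2) := by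
  have hN0 : (0 : ℝ) < N := by exact_mod_cast (by omega : 0 < N)
  have hlogN : 0 < Real.log N := Real.log_pos (by exact_mod_cast (by omega : 1 < N))
  have hF1 := FF_ge_one h hh0
  by_cases hbig : (4 : ℝ) ^ 16 ≤ N
  · set y : ℝ := (N : ℝ) ^ (1 / 16 : ℝ) with hy
    have hy4 : 4 ≤ y := by
      have : (4 : ℝ) = ((4 : ℝ) ^ 16) ^ (1 / 16 : ℝ) := by
        rw [← Real.rpow_natCast, ← Real.rpow_mul (by norm_num)]
        norm_num
      rw [this, hy]
      exact Real.rpow_le_rpow (by positivity) hbig (by norm_num)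
    set x : ℕ := ⌊y⌋₊ with hx
    have hxy : (x : ℝ) ≤ y := Nat.floor_le (by linarith)
    have hyx : y < x + 1 := Nat.lt_floor_add_one y
    have hx2 : 2 ≤ x := by
      have : (2 : ℝ) < x + 1 := by linarith
      have h3 : (3 : ℝ) < (x : ℝ) + 1 := by linarith
      have : (2 : ℝ) < x := by linarith
      exact_mod_cast this.le
    have hmain := pairCount_le_param A N h x hh hh0 hx2
    have hlogy : Real.log y = Real.log N / 16 := by
      rw [hy, Real.log_rpow hN0]; ring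
    have hlogx : Real.log N / 32 ≤ Real.log x := by
      have hs : Real.sqrt y ≤ x := by
        have h1 : Real.sqrt y ≤ y - 1 := by
          rw [Real.sqrt_le_left (by linarith)]
          nlinarith
        linarith
      have h2 : Real.log (Real.sqrt y) ≤ Real.log x :=
        Real.log_le_log (Real.sqrt_pos.mpr (by linarith)) hs
      rw [Real.log_sqrt (by linarith), hlogy] at h2
      linarith
    have hy8 : y ^ 8 = (N : ℝ) ^ (1 / 2 : ℝ) := by
      rw [hy, ← Real.rpow_natCast, ← Real.rpow_mul hN0.le]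
      norm_num
    have hx0 : (0 : ℝ) ≤ x := by positivity
    have hx8 : (x : ℝ) ^ 8 ≤ (N : ℝ) ^ (1 / 2 : ℝ) := by
      rw [← hy8]; exact pow_le_pow_left₀ hx0 hxy 8
    have hx2' : (x : ℝ) ^ 2 ≤ (N : ℝ) ^ (1 / 2 : ℝ) := by
      have h1 : (1 : ℝ) ≤ x := by exact_mod_cast (by omega : 1 ≤ x)
      calc (x : ℝ) ^ 2 ≤ (x : ℝ) ^ 8 := pow_le_pow_right₀ h1 (by norm_num)
        _ ≤ _ := hx8
    have hsq := log_sq_le_sqrt N hN
    have hhalf : (N : ℝ) ^ (1 / 2 : ℝ) * (N : ℝ) ^ (1 / 2 : ℝ) = N := by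
      rw [← Real.rpow_add hN0]; norm_num
    have hroot : (N : ℝ) ^ (1 / 2 : ℝ) ≤ 16 * (N / (Real.log N) ^ 2) := by
      rw [← mul_div_assoc, le_div_iff₀ (by positivity)]
      have hp : 0 < (N : ℝ) ^ (1 / 2 : ℝ) := Real.rpow_pos_of_pos hN0 _
      calc (N : ℝ) ^ (1 / 2 : ℝ) * (Real.log N) ^ 2
          ≤ (N : ℝ) ^ (1 / 2 : ℝ) * (16 * (N : ℝ) ^ (1 / 2 : ℝ)) :=
            mul_le_mul_of_nonneg_left hsq hp.le
        _ = 16 * ((N : ℝ) ^ (1 / 2 : ℝ) * (N : ℝ) ^ (1 / 2 : ℝ)) := by ring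
        _ = 16 * N := by rw [hhalf]
    have hmid : 8 * N * FF h / (Real.log x) ^ 2 ≤ 8192 * FF h * (N / (Real.log N) ^ 2) := by
      have h1 : (Real.log N / 32) ^ 2 ≤ (Real.log x) ^ 2 :=
        pow_le_pow_left₀ (by positivity) hlogx 2
      have hFpos : 0 < FF h := by linarith
      calc 8 * N * FF h / (Real.log x) ^ 2 ≤ 8 * N * FF h / (Real.log N / 32) ^ 2 := by
            apply div_le_div_of_nonneg_left (by positivity) (by positivity) h1
        _ = 8192 * FF h * (N / (Real.log N) ^ 2) := by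
            field_simp
            norm_num
    have hQ : 0 ≤ (N : ℝ) / (Real.log N) ^ 2 := by positivity
    have h32 : 32 * ((N : ℝ) / (Real.log N) ^ 2) ≤ 32 * FF h * (N / (Real.log N) ^ 2) := by
      have := mul_le_mul_of_nonneg_right hF1 hQ
      nlinarith
    calc (pairCount A N h : ℝ) ≤ (x : ℝ) ^ 2 + 8 * N * FF h / (Real.log x) ^ 2 + (x : ℝ) ^ 8 := hmain
      _ ≤ 16 * (N / (Real.log N) ^ 2) + 8192 * FF h * (N / (Real.log N) ^ 2)
          + 16 * (N / (Real.log N) ^ 2) := by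
          have a1 := hx2'.trans hroot
          have a2 := hx8.trans hroot
          linarith
      _ ≤ 8224 * FF h * (N / (Real.log N) ^ 2) := by
          have e : 8224 * FF h * ((N : ℝ) / (Real.log N) ^ 2) =
            32 * FF h * (N / (Real.log N) ^ 2) + 8192 * FF h * (N / (Real.log N) ^ 2) := by ring
          rw [e]; linarith
  · push Not at hbig
    have h1 : (pairCount A N h : ℝ) ≤ N := by exact_mod_cast pairCount_le_self A N h
    have h2 : Real.log N ≤ 32 := by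
      have : Real.log N ≤ Real.log ((4 : ℝ) ^ 16) := Real.log_le_log hN0 hbig.le
      rw [Real.log_pow] at this
      have h4 : Real.log 4 ≤ 2 := by
        have : Real.log 4 = 2 * Real.log 2 := by
          rw [show (4 : ℝ) = 2 ^ 2 by norm_num, Real.log_pow]; norm_num
        have := Real.log_two_lt_d9
        linarith
      push_cast at this
      linarith
    have h3 : (Real.log N) ^ 2 ≤ 1024 := by nlinarith
    have h4 : (N : ℝ) ≤ 1024 * (N / (Real.log N) ^ 2) := by
      rw [← mul_div_assoc, le_div_iff₀ (by positivity)]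
      nlinarith
    have hQ : 0 ≤ (N : ℝ) / (Real.log N) ^ 2 := by positivity
    have h5 : 8224 * ((N : ℝ) / (Real.log N) ^ 2) ≤ 8224 * FF h * (N / (Real.log N) ^ 2) := by
      have := mul_le_mul_of_nonneg_right hF1 hQ
      nlinarith
    linarith

end Pool.Agent.PS.PAIR

namespace Pool.Agent.PS

open scoped Classical

theorem stmt_PAIR : Stmt_PAIR := by
  refine ⟨8224, by norm_num, fun A N h hN hh hev => ?_⟩
  have h1 := PAIR.pairCount_bound A N h hN hev hh.ne'
  unfold PAIR.pairCount Pool.Agent.Work.MP_484fb8_nt.FF at h1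
  calc _ ≤ 8224 * (∑ d ∈ h.divisors, (1 : ℝ) / d) * (N / (Real.log N) ^ 2) := h1
    _ = _ := by ring

end Pool.Agent.PS
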