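import Pool.Agent.Work.PS.ROM
import Pool.Agent.Work.PS.PAIR
import Pool.Agent.Work.Circle.CircleIneq
import Pool.Agent.Work.MP_0b7501_nt.BT

/-!
# Block SG: mean square of the sum over primes times the sum over powers of two
-/

set_option autoImplicit false

namespace Pool.Agent.PS.SG

open Finset
open Pool.Agent.Circle (e e_add)
open scoped Pointwise

/-- `∑_{d ∣ n} 1/d` -/
noncomputable def FF (n : ℕ) : ℝ := ∑ d ∈ n.divisors, (1 : ℝ) / d

lemma FF_nonneg (n : ℕ) : 0 ≤ FF n := Finset.sum_nonneg fun _ _ => by positivity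

lemma FF_mul (m n : ℕ) (h : m.Coprime n) : FF (m * n) = FF m * FF n := by
  unfold FF
  rw [Nat.divisors_mul, Finset.mul_def, Finset.sum_image h.mul_injOn_divisors, Finset.sum_mul_sum,
    ← Finset.sum_product']
  refine Finset.sum_congr rfl fun p _ => ?_
  push_cast
  rw [one_div_mul_one_div]

lemma FF_two_pow (a : ℕ) : FF (2 ^ a) ≤ 2 := by
  unfold FF
  rw [Nat.sum_divisors_prime_pow Nat.prime_two]
  have h := Summable.sum_le_tsum (range (a + 1)) (fun i _ => by positivity)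
    (summable_geometric_two)
  rw [tsum_geometric_two] at h
  refine le_trans (le_of_eq ?_) h
  refine Finset.sum_congr rfl fun i _ => ?_
  push_cast
  rw [one_div_pow]

lemma FF_diff (v w : ℕ) (h : w < v) : FF (2 ^ v - 2 ^ w) ≤ 2 * FF (2 ^ (v - w) - 1) := by
  have e1 : 2 ^ v - 2 ^ w = 2 ^ w * (2 ^ (v - w) - 1) := by
    rw [Nat.mul_sub, ← pow_add, mul_one]
    congr 2
    omega
  have hodd : ¬ 2 ∣ 2 ^ (v - w) - 1 := by
    have h1 : 2 ∣ 2 ^ (v - w) := dvd_pow_self 2 (by omega)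
    have h2 : 1 ≤ 2 ^ (v - w) := Nat.one_le_two_pow
    omega
  have hcop : (2 ^ w).Coprime (2 ^ (v - w) - 1) :=
    Nat.Coprime.pow_left _ ((Nat.prime_two.coprime_iff_not_dvd).2 hodd)
  rw [e1, FF_mul _ _ hcop]
  exact mul_le_mul_of_nonneg_right (FF_two_pow w) (FF_nonneg _)

/-- pairs with a given difference of powers of two -/
def Q (I : Finset ℕ) (v w : ℕ) : ℕ := #(I.filter fun n => ∃ m ∈ I, m + 2 ^ w = n + 2 ^ v)

lemma Q_symm (I : Finset ℕ) (v w : ℕ) : Q I v w ≤ Q I w v := by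
  unfold Q
  refine card_le_card_of_injOn (fun n => n + 2 ^ v - 2 ^ w) ?_ ?_
  · intro n hn
    rw [mem_coe, mem_filter] at hn
    obtain ⟨h1, m, hm, h2⟩ := hn
    have h3 : n + 2 ^ v - 2 ^ w = m := by omega
    show n + 2 ^ v - 2 ^ w ∈ _
    rw [h3, mem_coe, mem_filter]
    exact ⟨hm, n, h1, h2.symm⟩
  · intro n hn n' hn' h
    rw [mem_coe, mem_filter] at hn hn'
    obtain ⟨h1, m, hm, h2⟩ := hn
    obtain ⟨h1', m', hm', h2'⟩ := hn'
    simp only at h
    omega

/-- number of pairs `n + 2 ^ v = m` -/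
noncomputable def g (I : Finset ℕ) (v m : ℕ) : ℝ := ∑ n ∈ I, if n + 2 ^ v = m then (1 : ℝ) else 0

lemma g_nonneg (I : Finset ℕ) (v m : ℕ) : 0 ≤ g I v m :=
  Finset.sum_nonneg fun _ _ => by split_ifs <;> norm_num

lemma g_le (I : Finset ℕ) (w x : ℕ) : g I w x ≤ if ∃ m ∈ I, m + 2 ^ w = x then 1 else 0 := by
  split_ifs with h
  · obtain ⟨m, hm, hx⟩ := h
    unfold g
    rw [Finset.sum_eq_single m]
    · rw [if_pos hx]
    · intro b _ hb
      rw [if_neg]
      omega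
    · intro h
      exact absurd hm h
  · refine le_of_eq (Finset.sum_eq_zero fun n hn => ?_)
    rw [if_neg]
    exact fun hx => h ⟨n, hn, hx⟩

lemma sum_g_mul (I : Finset ℕ) (R v w : ℕ) :
    ∑ m ∈ range R, g I v m * g I w m ≤ (Q I v w : ℝ) := by
  have h1 : ∀ m, g I v m * g I w m = ∑ n ∈ I, if n + 2 ^ v = m then g I w (n + 2 ^ v) else 0 := by
    intro m
    rw [g, Finset.sum_mul]
    refine Finset.sum_congr rfl fun n _ => ?_
    split_ifs with h
    · rw [h, one_mul]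
    · rw [zero_mul]
  simp only [h1]
  rw [Finset.sum_comm]
  calc ∑ n ∈ I, ∑ m ∈ range R, (if n + 2 ^ v = m then g I w (n + 2 ^ v) else 0)
      ≤ ∑ n ∈ I, g I w (n + 2 ^ v) := by
        refine Finset.sum_le_sum fun n _ => ?_
        rw [Finset.sum_ite_eq]
        split_ifs
        · exact le_rfl
        · exact g_nonneg _ _ _
    _ ≤ ∑ n ∈ I, if ∃ m ∈ I, m + 2 ^ w = n + 2 ^ v then (1 : ℝ) else 0 :=
        Finset.sum_le_sum fun n _ => g_le _ _ _
    _ = (Q I v w : ℝ) := by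
        rw [Finset.sum_boole]
        rfl

lemma sum_sq (I T : Finset ℕ) (R : ℕ) :
    ∑ m ∈ range R, (∑ v ∈ T, g I v m) ^ 2 ≤ ∑ v ∈ T, ∑ w ∈ T, (Q I v w : ℝ) := by
  have h1 : ∀ m, (∑ v ∈ T, g I v m) ^ 2 = ∑ v ∈ T, ∑ w ∈ T, g I v m * g I w m := by
    intro m
    rw [sq, Finset.sum_mul_sum]
  simp only [h1]
  rw [Finset.sum_comm]
  refine Finset.sum_le_sum fun v _ => ?_
  rw [Finset.sum_comm]
  exact Finset.sum_le_sum fun w _ => sum_g_mul I R v w

lemma split_sum (I : Finset ℕ) (L : ℕ) :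
    ∑ v ∈ Icc 1 L, ∑ w ∈ Icc 1 L, (Q I v w : ℝ)
      ≤ ∑ v ∈ Icc 1 L, (Q I v v : ℝ)
        + 2 * ∑ v ∈ Icc 1 L, ∑ w ∈ (Icc 1 L).filter (fun w => w < v), (Q I v w : ℝ) := by
  have h1 : ∀ v ∈ Icc 1 L, ∑ w ∈ Icc 1 L, (Q I v w : ℝ)
      = (Q I v v : ℝ) + ∑ w ∈ Icc 1 L, (if w < v then (Q I v w : ℝ) else 0)
        + ∑ w ∈ Icc 1 L, (if v < w then (Q I v w : ℝ) else 0) := by
    intro v hv
    have h2 : (Q I v v : ℝ) = ∑ w ∈ Icc 1 L, (if w = v then (Q I v w : ℝ) else 0) := by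
      rw [Finset.sum_ite_eq' (Icc 1 L) v, if_pos hv]
    rw [h2, ← Finset.sum_add_distrib, ← Finset.sum_add_distrib]
    refine Finset.sum_congr rfl fun w _ => ?_
    rcases lt_trichotomy w v with h | h | h
    · rw [if_neg h.ne, if_pos h, if_neg (by omega)]
      ring
    · rw [if_pos h, if_neg (by omega), if_neg (by omega)]
      ring
    · rw [if_neg (by omega), if_neg (by omega), if_pos h]
      ring
  rw [Finset.sum_congr rfl h1, Finset.sum_add_distrib, Finset.sum_add_distrib]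
  have h3 : ∑ v ∈ Icc 1 L, ∑ w ∈ Icc 1 L, (if v < w then (Q I v w : ℝ) else 0)
      ≤ ∑ v ∈ Icc 1 L, ∑ w ∈ Icc 1 L, (if w < v then (Q I v w : ℝ) else 0) := by
    rw [Finset.sum_comm]
    refine Finset.sum_le_sum fun v _ => Finset.sum_le_sum fun w _ => ?_
    split_ifs
    · exact_mod_cast Q_symm I w v
    · exact le_rfl
  simp only [Finset.sum_filter]
  linarith

lemma Q_le (A N : ℕ) (v w : ℕ) (h : w < v) :
    Q ((Ioc A (A + N)).filter Nat.Prime) v w
      ≤ #((Ioc A (A + N)).filter fun x => x.Prime ∧ (x + (2 ^ v - 2 ^ w)).Prime) := by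
  unfold Q
  refine card_le_card ?_
  intro n hn
  rw [mem_filter, mem_filter] at hn
  obtain ⟨⟨h1, h2⟩, m, hm, h3⟩ := hn
  rw [mem_filter] at hm
  rw [mem_filter]
  refine ⟨h1, h2, ?_⟩
  have h4 : 2 ^ w < 2 ^ v := Nat.pow_lt_pow_right (by norm_num) h
  have h5 : n + (2 ^ v - 2 ^ w) = m := by omega
  rw [h5]
  exact hm.2

lemma inner_sum (f : ℕ → ℝ) (hf : ∀ j, 0 ≤ f j) (L v : ℕ) (hv : v ∈ Icc 1 L) :
    ∑ w ∈ (Icc 1 L).filter (fun w => w < v), f (v - w) ≤ ∑ j ∈ Icc 1 L, f j := by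
  rw [mem_Icc] at hv
  rw [← Finset.sum_image (f := f) (g := fun w => v - w)]
  · refine Finset.sum_le_sum_of_subset_of_nonneg ?_ (fun _ _ _ => hf _)
    intro j hj
    rw [mem_image] at hj
    obtain ⟨w, hw, rfl⟩ := hj
    rw [mem_filter, mem_Icc] at hw
    rw [mem_Icc]
    omega
  · intro a ha b hb hab
    rw [mem_coe, mem_filter, mem_Icc] at ha hb
    simp only at hab
    omega

end Pool.Agent.PS.SG

namespace Pool.Agent.PS

open Finset SG
open Pool.Agent.Circle (e e_add)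
open scoped Classical

theorem stmt_SG_of (hP : Stmt_PAIR) (hR : Stmt_ROM) : Stmt_SG := by
  obtain ⟨C1, hC1, hPair⟩ := hP
  obtain ⟨C2, hC2, hRom⟩ := hR
  refine ⟨9 * (140 + 4 * C1 * C2), by positivity, fun A N L R hN hAN hL h2L hlog hR => ?_⟩
  have hR0 : 0 < R := by omega
  have hRr : (0 : ℝ) < R := by exact_mod_cast hR0
  have hN0 : (0 : ℝ) < N := by exact_mod_cast (by omega : 0 < N)
  have hlN : 0 < Real.log N := Real.log_pos (by exact_mod_cast (by omega : 1 < N))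
  have hL0 : (1 : ℝ) ≤ L := by exact_mod_cast hL
  set I := (Ioc A (A + N)).filter Nat.Prime with hI
  set T := Icc 1 L with hT
  set E : ℕ → ℝ := fun m => ∑ v ∈ T, ∑ n ∈ Ioc A (A + N), if n + 2 ^ v = m then th n else 0 with hE
  set Λ : ℝ := 3 * Real.log N with hΛ
  -- the size of `th`
  have hth : ∀ n ∈ Ioc A (A + N), n.Prime → 0 ≤ th n ∧ th n ≤ Λ := by
    intro n hn hp
    rw [mem_Ioc] at hn
    unfold th
    rw [if_pos hp]
    refine ⟨Real.log_natCast_nonneg n, ?_⟩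
    have h1 : (n : ℝ) ≤ (N : ℝ) ^ 3 := by exact_mod_cast hn.2.trans hAN
    have h2 := Real.log_le_log (by exact_mod_cast hp.pos) h1
    rw [Real.log_pow] at h2
    rw [hΛ]
    exact_mod_cast h2
  -- `E` against the counting function
  have hE1 : ∀ m, 0 ≤ E m ∧ E m ≤ Λ * ∑ v ∈ T, g I v m := by
    intro m
    have h1 : ∀ v, 0 ≤ (∑ n ∈ Ioc A (A + N), if n + 2 ^ v = m then th n else 0) ∧
        (∑ n ∈ Ioc A (A + N), if n + 2 ^ v = m then th n else 0) ≤ Λ * g I v m := by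
      intro v
      have h2 : ∀ n ∈ Ioc A (A + N), 0 ≤ (if n + 2 ^ v = m then th n else 0) ∧
          (if n + 2 ^ v = m then th n else 0) ≤
            Λ * (if n.Prime then (if n + 2 ^ v = m then (1 : ℝ) else 0) else 0) := by
        intro n hn
        by_cases hp : n.Prime
        · rw [if_pos hp]
          split_ifs
          · rw [mul_one]
            exact hth n hn hp
          · rw [mul_zero]
            exact ⟨le_rfl, le_rfl⟩
        · have : th n = 0 := by unfold th; rw [if_neg hp]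
          rw [this, if_neg hp, mul_zero]
          simp
      refine ⟨Finset.sum_nonneg fun n hn => (h2 n hn).1, ?_⟩
      refine (Finset.sum_le_sum fun n hn => (h2 n hn).2).trans (le_of_eq ?_)
      rw [← Finset.mul_sum, g, hI, Finset.sum_filter]
    refine ⟨Finset.sum_nonneg fun v _ => (h1 v).1, ?_⟩
    rw [Finset.mul_sum]
    exact Finset.sum_le_sum fun v _ => (h1 v).2
  -- Parseval
  have hlt : ∀ v ∈ T, ∀ n ∈ Ioc A (A + N), n + 2 ^ v < R := by
    intro v hv n hn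
    rw [hT, mem_Icc] at hv
    rw [mem_Ioc] at hn
    have : 2 ^ v ≤ 2 ^ L := Nat.pow_le_pow_right (by norm_num) hv.2
    omega
  have hprod : ∀ k ∈ range R, ‖∑ n ∈ Ioc A (A + N), (th n : ℂ) * e (n * ((k : ℝ) / R))‖ ^ 2
      * ‖Gp L ((k : ℝ) / R)‖ ^ 2 = ‖∑ m ∈ range R, (E m : ℂ) * e (m * ((k : ℝ) / R))‖ ^ 2 := by
    intro k _
    rw [← mul_pow, ← norm_mul]
    congr 2
    unfold Gp
    rw [Finset.sum_mul_sum, Finset.sum_comm, hE]
    simp only [Complex.ofReal_sum, Finset.sum_mul]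
    rw [Finset.sum_comm (s := range R) (t := T)]
    refine Finset.sum_congr rfl fun v hv => ?_
    rw [Finset.sum_comm (s := range R)]
    refine Finset.sum_congr rfl fun n hn => ?_
    have h5 : ∀ m ∈ range R, ((if n + 2 ^ v = m then th n else 0 : ℝ) : ℂ)
          * e (m * ((k : ℝ) / R))
        = if n + 2 ^ v = m then (th n : ℂ) * e (m * ((k : ℝ) / R)) else 0 := fun m _ => by
      split_ifs <;> simp
    rw [Finset.sum_congr rfl h5, Finset.sum_ite_eq, if_pos (mem_range.2 (hlt v hv n hn))]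
    have h6 : ((n + 2 ^ v : ℕ) : ℝ) * ((k : ℝ) / R) = n * ((k : ℝ) / R) + 2 ^ v * ((k : ℝ) / R) := by
      push_cast
      ring
    rw [h6, e_add]
    ring
  rw [Finset.sum_congr rfl hprod,
    Pool.Agent.Circle.parseval R hR0 (range R) (fun a ha => mem_range.1 ha) (fun m => (E m : ℂ))]
  have hS : ∑ m ∈ range R, ‖(E m : ℂ)‖ ^ 2 ≤ Λ ^ 2 * ∑ v ∈ T, ∑ w ∈ T, (Q I v w : ℝ) := by
    calc ∑ m ∈ range R, ‖(E m : ℂ)‖ ^ 2 ≤ ∑ m ∈ range R, Λ ^ 2 * (∑ v ∈ T, g I v m) ^ 2 := by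
          refine Finset.sum_le_sum fun m _ => ?_
          rw [Complex.norm_real, Real.norm_of_nonneg (hE1 m).1, ← mul_pow]
          exact pow_le_pow_left₀ (hE1 m).1 (hE1 m).2 2
      _ = Λ ^ 2 * ∑ m ∈ range R, (∑ v ∈ T, g I v m) ^ 2 := by rw [Finset.mul_sum]
      _ ≤ _ := mul_le_mul_of_nonneg_left (sum_sq I T R) (by positivity)
  -- the diagonal
  have hdiag : ∑ v ∈ T, (Q I v v : ℝ) ≤ L * (70 * N / Real.log N) := by
    have h1 : ∀ v ∈ T, (Q I v v : ℝ) ≤ 70 * N / Real.log N := by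
      intro v _
      refine le_trans ?_ (Pool.Agent.Work.MP_0b7501_nt.brun_titchmarsh A N hN)
      exact_mod_cast card_filter_le _ _
    refine (Finset.sum_le_sum h1).trans (le_of_eq ?_)
    rw [Finset.sum_const, nsmul_eq_mul, hT]
    simp
  -- off the diagonal
  have hoff : ∑ v ∈ T, ∑ w ∈ T.filter (fun w => w < v), (Q I v w : ℝ)
      ≤ 2 * C1 * (N / (Real.log N) ^ 2) * (L * (C2 * L)) := by
    calc ∑ v ∈ T, ∑ w ∈ T.filter (fun w => w < v), (Q I v w : ℝ)
        ≤ ∑ v ∈ T, ∑ w ∈ T.filter (fun w => w < v),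
          2 * C1 * (N / (Real.log N) ^ 2) * FF (2 ^ (v - w) - 1) := by
          refine Finset.sum_le_sum fun v _ => Finset.sum_le_sum fun w hw => ?_
          have hwv := (mem_filter.1 hw).2
          have hw1 : 1 ≤ w := (mem_Icc.1 (mem_filter.1 hw).1).1
          have h4 : 2 ^ w < 2 ^ v := Nat.pow_lt_pow_right (by norm_num) hwv
          have hev : Even (2 ^ v - 2 ^ w) := by
            have h5 : 2 ∣ 2 ^ v := dvd_pow_self 2 (by omega)
            have h6 : 2 ∣ 2 ^ w := dvd_pow_self 2 (by omega)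
            exact even_iff_two_dvd.2 (Nat.dvd_sub h5 h6)
          have h7 := hPair A N (2 ^ v - 2 ^ w) hN (by omega) hev
          have h8 : (Q I v w : ℝ) ≤ (((Ioc A (A + N)).filter fun x =>
              x.Prime ∧ (x + (2 ^ v - 2 ^ w)).Prime).card : ℝ) := by
            exact_mod_cast Q_le A N v w hwv
          have h9 := FF_diff v w hwv
          have h10 : 0 ≤ C1 * (N / (Real.log N) ^ 2) := by positivity
          calc (Q I v w : ℝ) ≤ _ := h8
            _ ≤ C1 * (N / (Real.log N) ^ 2) * FF (2 ^ v - 2 ^ w) := h7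
            _ ≤ C1 * (N / (Real.log N) ^ 2) * (2 * FF (2 ^ (v - w) - 1)) :=
                mul_le_mul_of_nonneg_left h9 h10
            _ = _ := by ring
      _ = 2 * C1 * (N / (Real.log N) ^ 2) * ∑ v ∈ T, ∑ w ∈ T.filter (fun w => w < v),
          FF (2 ^ (v - w) - 1) := by
          rw [Finset.mul_sum]
          refine Finset.sum_congr rfl fun v _ => ?_
          rw [Finset.mul_sum]
      _ ≤ 2 * C1 * (N / (Real.log N) ^ 2) * ∑ v ∈ T, (C2 * L) := by
          refine mul_le_mul_of_nonneg_left ?_ (by positivity)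
          refine Finset.sum_le_sum fun v hv => ?_
          refine le_trans (inner_sum (fun j => FF (2 ^ j - 1)) (fun j => FF_nonneg _) L v hv) ?_
          exact hRom L hL
      _ = 2 * C1 * (N / (Real.log N) ^ 2) * (L * (C2 * L)) := by
          rw [Finset.sum_const, nsmul_eq_mul, hT]
          simp
  have hsplit := split_sum I L
  have hfin : ∑ v ∈ T, ∑ w ∈ T, (Q I v w : ℝ)
      ≤ L * (70 * N / Real.log N) + 2 * (2 * C1 * (N / (Real.log N) ^ 2) * (L * (C2 * L))) := by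
    linarith
  have e0 : (1 / (R : ℝ)) * (R * ∑ a ∈ range R, ‖(E a : ℂ)‖ ^ 2) = ∑ a ∈ range R, ‖(E a : ℂ)‖ ^ 2 := by
    field_simp
  rw [e0]
  refine hS.trans ?_
  calc Λ ^ 2 * ∑ v ∈ T, ∑ w ∈ T, (Q I v w : ℝ)
      ≤ Λ ^ 2 * (L * (70 * N / Real.log N)
        + 2 * (2 * C1 * (N / (Real.log N) ^ 2) * (L * (C2 * L)))) :=
        mul_le_mul_of_nonneg_left hfin (by positivity)
    _ = 9 * (70 * (N * L * Real.log N) + 4 * C1 * C2 * N * (L : ℝ) ^ 2) := by
        rw [hΛ]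
        field_simp
        ring
    _ ≤ 9 * (70 * (N * L * (2 * L)) + 4 * C1 * C2 * N * (L : ℝ) ^ 2) := by
        have : N * L * Real.log N ≤ N * L * (2 * L) :=
          mul_le_mul_of_nonneg_left hlog (by positivity)
        linarith
    _ = 9 * (140 + 4 * C1 * C2) * N * (L : ℝ) ^ 2 := by ring

theorem stmt_SG : Stmt_SG := stmt_SG_of stmt_PAIR stmt_ROM

end Pool.Agent.PS
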