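import Pool.Agent.Work.PS.MainB
import Pool.Agent.Work.PS.SG
import Pool.Agent.Work.PS.ORD
import Pool.Agent.Work.PS.DIVB
import Pool.Agent.Work.PS.GB
import Pool.Agent.Work.PS.LINW
import Pool.Agent.Work.PS.LIN

set_option autoImplicit false

namespace Pool.Agent.PS

/-- two primes in a window and a bounded number of powers of two -/
theorem main_linw : Stmt_LINW :=
  stmt_LINW main_wsb main_low main_low2 stmt_MIN stmt_SIEG stmt_RAD stmt_SG stmt_ORD stmt_DIVB
    stmt_GB_nat

/-- the primorial Goldbach problem with a bounded number of powers of two -/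
theorem main_lin : Stmt_LIN := stmt_LIN main_linw

end Pool.Agent.PS
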