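import Pool.Agent.Work.PS.WS2

/-!
# PS, block WS, third part: the sum over the family
-/

set_option autoImplicit false

namespace Pool.Agent.PS

open Finset ArithmeticFunction Metric
open Pool.Agent.BV (PC)
open scoped Classical

theorem card_PC_le (r : ℕ) (hr : 0 < r) : (PC r).card ≤ r := by
  have : NeZero r := ⟨hr.ne'⟩
  unfold PC
  refine (card_filter_le _ _).trans ?_
  rw [card_univ, Fintype.card_eq_nat_card]
  rw [DirichletCharacter.card_eq_totient_of_hasEnoughRootsOfUnity ℂ r]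
  exact Nat.totient_le r

theorem card_Fam_le (P : ℕ) : (Fam P).card ≤ P ^ 2 := by
  unfold Fam
  rw [card_sigma]
  calc ∑ r ∈ Ioc 0 P, (PC r).card ≤ ∑ r ∈ Ioc 0 P, P := by
        refine sum_le_sum fun r hr => ?_
        rw [mem_Ioc] at hr
        exact (card_PC_le r hr.1).trans hr.2
    _ = P ^ 2 := by
        rw [sum_const, Nat.card_Ioc, smul_eq_mul, Nat.sub_zero]
        ring

/-- The sum over the family, from the numerical inequalities. -/
theorem family_sum (hZS : Stmt_ZSPEC) (hG : Stmt_GALD) {C : ℝ} {Z : ℕ} (hZ : 1 ≤ Z)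
    (hEF : ∀ x ∈ Fam Z, ∀ u v : ℝ, 1 ≤ u → u ≤ v → v ≤ Real.exp ((Real.log Z) ^ 2) →
      ‖∑ n ∈ Ioc ⌊u⌋₊ ⌊v⌋₊, (Λ n : ℂ) * x.2 (n : ZMod x.1)
          - (if x.2 = 1 then ((v - u : ℝ) : ℂ) else 0)
          + ((zl x Z).map fun ρ => Complex.exp (ρ ^ 2 / (2 * Z)) *
              (((v : ℂ) ^ ρ - (u : ℂ) ^ ρ) / ρ)).sum‖
        ≤ C * (v * (Z : ℝ) ^ (-(1 / 3) : ℝ) + (Z : ℝ) ^ 5 * v ^ (19 / 20 : ℝ)))
    (E : Option (Ch × ℝ)) (hE : ∀ y δ, E = some (y, δ) → Exc Z y δ ∧ δ ≤ 1 / 10)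
    (X P P1 : ℕ) (hP : 1 ≤ P) (hPP : P ≤ P1) (hPZ : P1 ≤ Z) (hX : 8 * P1 ≤ X)
    (hnum : ∀ v : ℝ, 1 ≤ v → v ≤ X * P →
      v ≤ Real.exp ((Real.log Z) ^ 2) ∧
      C * (v * (Z : ℝ) ^ (-(1 / 3) : ℝ) + (Z : ℝ) ^ 5 * v ^ (19 / 20 : ℝ))
          + 2 * √v * Real.log v + (1 + v / Z) ≤ X / (P1 : ℝ) ^ 6)
    (R H U V : ℕ) (hR : 0 < R) (hHR : (H : ℝ) / R ≤ P / X) (hVR : V + X < R) (hXU : X ≤ 4 * U + 4)
    (hUV : U ≤ V) (hVU : V ≤ U + X) (hVX : (V : ℝ) ≤ X * P) :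
    ∑ x ∈ Fam P, Wn R H (Ioc U V) (fun n => (th n : ℂ) * x.2 (n : ZMod x.1) - mt E x n)
      ≤ (12 * (∑ x ∈ Fam P, zs (lst Z E x) (X / 4)) + 24 / (P1 : ℝ) ^ 3) * √(X : ℝ) := by
  have hPr : (1 : ℝ) ≤ P := by exact_mod_cast hP
  have hP1r : (1 : ℝ) ≤ P1 := by exact_mod_cast hP.trans hPP
  have hPPr : (P : ℝ) ≤ P1 := by exact_mod_cast hPP
  have hX8 : 8 * P ≤ X := by omega
  have hX8r : 8 * (P : ℝ) ≤ X := by exact_mod_cast hX8
  have hXpos : (0 : ℝ) < X := by linarith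
  have hRr : (0 : ℝ) < R := by exact_mod_cast hR
  set h := X / (4 * P) with hh
  have hh1 : 1 ≤ h := by
    rw [hh, Nat.one_le_div_iff (by omega)]
    omega
  have hhr : (0 : ℝ) < h := by exact_mod_cast hh1
  have hhle : (h : ℝ) ≤ X / (4 * P) := by
    have := Nat.cast_div_le (α := ℝ) (m := X) (n := 4 * P)
    rw [← hh] at this
    push_cast at this
    exact this
  have hhge : (X : ℝ) / (8 * P) ≤ h := by
    have h1 : X < (4 * P) * (h + 1) := by
      rw [hh]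
      exact Nat.lt_mul_div_succ X (by omega)
    have h2 : (X : ℝ) < (4 * P) * (h + 1) := by exact_mod_cast h1
    rw [div_le_iff₀ (by positivity)]
    have h3 : (1 : ℝ) ≤ h := by exact_mod_cast hh1
    nlinarith
  have hhX : h ≤ X := Nat.div_le_self _ _
  have h2hH : 2 * h * H < R := by
    have h1 : (H : ℝ) ≤ R * (P / X) := by
      rw [div_le_iff₀ hRr] at hHR
      linarith
    have h2 : (2 * h * H : ℝ) ≤ 2 * (X / (4 * P)) * (R * (P / X)) := by
      apply mul_le_mul _ h1 (Nat.cast_nonneg _) (by positivity)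
      linarith
    have h3 : 2 * ((X : ℝ) / (4 * P)) * (R * (P / X)) = R / 2 := by
      field_simp
      ring
    rw [h3] at h2
    have h4 : (2 * h * H : ℝ) < R := by linarith
    exact_mod_cast h4
  have hU1 : 1 ≤ U := by omega
  -- one character
  have hone : ∀ x ∈ Fam P, Wn R H (Ioc U V) (fun n => (th n : ℂ) * x.2 (n : ZMod x.1) - mt E x n)
      ≤ 2 * √(2 * X : ℝ) * (4 * zs (lst Z E x) (X / 4) + 8 / (P1 : ℝ) ^ 5) := by
    intro x hx
    have hxZ : x ∈ Fam Z := Fam_mono (hPP.trans hPZ) hx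
    have hzs0 : 0 ≤ zs (lst Z E x) (X / 4) := zs_nonneg _ _ (by positivity)
    have hD0 : 0 ≤ 4 * (h : ℝ) * zs (lst Z E x) (X / 4) + X / (P1 : ℝ) ^ 6 := by positivity
    have hW := hG R H h U V hR hh1 h2hH hUV (by omega)
      (fun n => (th n : ℂ) * x.2 (n : ZMod x.1) - mt E x n)
      (4 * h * zs (lst Z E x) (X / 4) + X / (P1 : ℝ) ^ 6) hD0 ?_
    · refine hW.trans ?_
      have e1 : √((V : ℝ) - U + h) ≤ √(2 * X : ℝ) := by
        apply Real.sqrt_le_sqrt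
        have e2 : (V : ℝ) ≤ U + X := by exact_mod_cast hVU
        have e3 : (h : ℝ) ≤ X := by exact_mod_cast hhX
        linarith
      have e4 : (4 * h * zs (lst Z E x) (X / 4) + X / (P1 : ℝ) ^ 6) / h
          ≤ 4 * zs (lst Z E x) (X / 4) + 8 / (P1 : ℝ) ^ 5 := by
        rw [add_div]
        have e5 : 4 * (h : ℝ) * zs (lst Z E x) (X / 4) / h = 4 * zs (lst Z E x) (X / 4) := by
          field_simp
        rw [e5]
        refine add_le_add_right ?_ _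
        rw [div_div, div_le_div_iff₀ (by positivity) (by positivity)]
        have e6 : (X : ℝ) ≤ 8 * P1 * h := by
          have : (X : ℝ) ≤ h * (8 * P) := by rwa [div_le_iff₀ (by positivity)] at hhge
          nlinarith
        calc (X : ℝ) * (P1 : ℝ) ^ 5 ≤ (8 * P1 * h) * (P1 : ℝ) ^ 5 := by gcongr
          _ = 8 * ((P1 : ℝ) ^ 6 * h) := by ring
      calc 2 * √((V : ℝ) - U + h) * (4 * h * zs (lst Z E x) (X / 4) + X / (P1 : ℝ) ^ 6) / h
          = 2 * √((V : ℝ) - U + h) *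
            ((4 * h * zs (lst Z E x) (X / 4) + X / (P1 : ℝ) ^ 6) / h) := by ring
        _ ≤ 2 * √(2 * X : ℝ) * (4 * zs (lst Z E x) (X / 4) + 8 / (P1 : ℝ) ^ 5) := by
            apply mul_le_mul _ e4 (by positivity) (by positivity)
            linarith
    · intro u v hUu huv hvV hvu
      have hu1 : 1 ≤ u := hU1.trans hUu
      have hv1 : (1 : ℝ) ≤ v := by exact_mod_cast hu1.trans huv
      have hvX : (v : ℝ) ≤ X * P := le_trans (by exact_mod_cast hvV) hVX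
      obtain ⟨hn1, hn2⟩ := hnum v hv1 hvX
      have hYu : (X : ℝ) / 4 ≤ 2 * u := by
        have e1 : (X : ℝ) ≤ 4 * U + 4 := by exact_mod_cast hXU
        have e2 : (U : ℝ) ≤ u := by exact_mod_cast hUu
        have e3 : (1 : ℝ) ≤ u := by exact_mod_cast hu1
        linarith
      have hI := interval_est hZS hZ hEF E hE x hxZ u v hu1 huv hn1 (X / 4) (by positivity) hYu
      refine hI.trans ?_
      have hvu' : (v : ℝ) - u ≤ h := by
        have : (v : ℝ) ≤ u + h := by exact_mod_cast hvu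
        linarith
      have e1 : 4 * ((v : ℝ) - u) * zs (lst Z E x) (X / 4) ≤ 4 * h * zs (lst Z E x) (X / 4) := by
        gcongr
      linarith
  have hcard : ((Fam P).card : ℝ) ≤ (P1 : ℝ) ^ 2 := by
    have h1 : ((Fam P).card : ℝ) ≤ (P : ℝ) ^ 2 := by exact_mod_cast card_Fam_le P
    exact h1.trans (by gcongr)
  have hs2 : √(2 * X : ℝ) ≤ 3 / 2 * √(X : ℝ) := by
    rw [Real.sqrt_mul (by norm_num)]
    have : √(2 : ℝ) ≤ 3 / 2 := by
      rw [Real.sqrt_le_left (by norm_num)]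
      norm_num
    exact mul_le_mul_of_nonneg_right this (Real.sqrt_nonneg _)
  have hsum0 : 0 ≤ ∑ x ∈ Fam P, zs (lst Z E x) (X / 4) :=
    sum_nonneg fun x _ => zs_nonneg _ _ (by positivity)
  calc ∑ x ∈ Fam P, Wn R H (Ioc U V) (fun n => (th n : ℂ) * x.2 (n : ZMod x.1) - mt E x n)
      ≤ ∑ x ∈ Fam P, 2 * √(2 * X : ℝ) * (4 * zs (lst Z E x) (X / 4) + 8 / (P1 : ℝ) ^ 5) :=
        sum_le_sum hone
    _ = 2 * √(2 * X : ℝ) * (4 * (∑ x ∈ Fam P, zs (lst Z E x) (X / 4))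
          + (Fam P).card * (8 / (P1 : ℝ) ^ 5)) := by
        rw [← mul_sum, sum_add_distrib, ← mul_sum, sum_const, nsmul_eq_mul]
    _ ≤ 2 * (3 / 2 * √(X : ℝ)) * (4 * (∑ x ∈ Fam P, zs (lst Z E x) (X / 4))
          + (P1 : ℝ) ^ 2 * (8 / (P1 : ℝ) ^ 5)) := by
        gcongr
    _ = _ := by
        have : (P1 : ℝ) ^ 2 * (8 / (P1 : ℝ) ^ 5) = 8 / (P1 : ℝ) ^ 3 := by
          field_simp
        rw [this]
        ring

end Pool.Agent.PS
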