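import Pool.Agent.Work.PS.Interface

/-!
# Block ADL: the abstract log-free density theorem

From `Stmt_ADL1` and `Stmt_HLS`.
-/

set_option autoImplicit false

namespace Pool.Agent.PS

open Finset ArithmeticFunction Metric
open scoped Classical ArithmeticFunction.Moebius

namespace ADLaux

/-- The indicator function of an interval of length `r` about `y`. -/
noncomputable def fi (r y : ℝ) : ℝ → ℝ := (Set.Ioc (y - r / 2) (y + r / 2)).indicator fun _ => 1

theorem fi_int (r y a b : ℝ) : IntervalIntegrable (fi r y) MeasureTheory.volume a b := by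
  have : MeasureTheory.Integrable (fi r y) := by
    unfold fi
    apply MeasureTheory.IntegrableOn.integrable_indicator _ measurableSet_Ioc
    exact MeasureTheory.integrableOn_const (by simp)
  exact this.intervalIntegrable

theorem fi_eq (r y T : ℝ) (hr : 0 ≤ r) (h : |y| + r / 2 ≤ T) : ∫ t in (-T)..T, fi r y t = r := by
  have h0 : 0 ≤ |y| := abs_nonneg y
  have h1 : -T ≤ T := by linarith
  rw [intervalIntegral.integral_of_le h1]
  unfold fi
  rw [MeasureTheory.setIntegral_indicator measurableSet_Ioc]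
  have : Set.Ioc (-T) T ∩ Set.Ioc (y - r / 2) (y + r / 2) = Set.Ioc (y - r / 2) (y + r / 2) := by
    apply Set.inter_eq_self_of_subset_right
    apply Set.Ioc_subset_Ioc
    · linarith [neg_abs_le y]
    · linarith [le_abs_self y]
  rw [this]
  simp only [MeasureTheory.integral_const, MeasurableSet.univ, MeasureTheory.measureReal_restrict_apply,
    Set.univ_inter, smul_eq_mul, mul_one]
  rw [Real.volume_real_Ioc_of_le (by linarith)]
  ring

theorem list_int (r a b : ℝ) (M : List ℂ) :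
    IntervalIntegrable (fun t => (M.map fun ρ => fi r ρ.im t).sum) MeasureTheory.volume a b := by
  induction M with
  | nil => simp
  | cons x M ih =>
    simp only [List.map_cons, List.sum_cons]
    exact (fi_int r x.im a b).add ih

theorem list_eq (r T : ℝ) (hr : 0 ≤ r) (M : List ℂ) (h : ∀ ρ ∈ M, |ρ.im| + r / 2 ≤ T) :
    ∫ t in (-T)..T, (M.map fun ρ => fi r ρ.im t).sum = M.length * r := by
  induction M with
  | nil => simp
  | cons x M ih =>
    simp only [List.map_cons, List.sum_cons, List.length_cons]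
    rw [intervalIntegral.integral_add (fi_int r x.im _ _) (list_int r _ _ M),
      fi_eq r x.im T hr (h x (by simp)), ih (fun ρ hρ => h ρ (by simp [hρ]))]
    push_cast
    ring

theorem fi_le_one (r y t : ℝ) : fi r y t ≤ 1 := by
  unfold fi
  by_cases h : t ∈ Set.Ioc (y - r / 2) (y + r / 2)
  · rw [Set.indicator_of_mem h]
  · rw [Set.indicator_of_notMem h]; norm_num

theorem fi_point (r t : ℝ) (ρ : ℂ) (h1 : ρ.re ≤ 1) (h2 : 1 - r / 2 ≤ ρ.re)
    (h3 : ¬ ‖ρ - (1 + t * Complex.I)‖ ≤ r) : fi r ρ.im t ≤ 0 := by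
  unfold fi
  rw [Set.indicator_of_notMem]
  intro h
  apply h3
  have h4 := Complex.norm_le_abs_re_add_abs_im (ρ - (1 + t * Complex.I))
  have h5 : (ρ - (1 + t * Complex.I)).re = ρ.re - 1 := by simp
  have h6 : (ρ - (1 + t * Complex.I)).im = ρ.im - t := by simp
  rw [h5, h6] at h4
  have h7 : |ρ.re - 1| ≤ r / 2 := by
    rw [abs_le]; constructor <;> linarith
  have h8 : |ρ.im - t| ≤ r / 2 := by
    rw [abs_le]; constructor <;> linarith [h.1, h.2]
  linarith

theorem point (r t : ℝ) (L : List ℂ) (h : ∀ ρ ∈ L, ρ.re ≤ 1) :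
    ((L.filter fun ρ => 1 - r / 2 ≤ ρ.re).map fun ρ => fi r ρ.im t).sum
      ≤ ((L.filter fun ρ => ‖ρ - (1 + t * Complex.I)‖ ≤ r).length : ℝ) := by
  induction L with
  | nil => simp
  | cons x M ih =>
    have ih' := ih (fun ρ hρ => h ρ (by simp [hρ]))
    have hx := h x (by simp)
    by_cases h1 : 1 - r / 2 ≤ x.re
    · by_cases h2 : ‖x - (1 + t * Complex.I)‖ ≤ r
      · rw [List.filter_cons_of_pos (by simpa using h1), List.filter_cons_of_pos (by simpa using h2)]
        simp only [List.map_cons, List.sum_cons, List.length_cons]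
        push_cast
        linarith [fi_le_one r x.im t]
      · rw [List.filter_cons_of_pos (by simpa using h1),
          List.filter_cons_of_neg (by simpa using h2)]
        simp only [List.map_cons, List.sum_cons]
        linarith [fi_point r t x hx h1 h2]
    · rw [List.filter_cons_of_neg (by simpa using h1)]
      refine ih'.trans ?_
      by_cases h2 : ‖x - (1 + t * Complex.I)‖ ≤ r
      · rw [List.filter_cons_of_pos (by simpa using h2)]
        simp
      · rw [List.filter_cons_of_neg (by simpa using h2)]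

theorem cnt_anti (L : List ℂ) {a b : ℝ} (h : a ≤ b) : cnt L b ≤ cnt L a := by
  unfold cnt
  induction L with
  | nil => simp
  | cons x M ih =>
    by_cases h1 : b ≤ x.re
    · rw [List.filter_cons_of_pos (by simpa using h1),
        List.filter_cons_of_pos (by simpa using h.trans h1)]
      simpa using ih
    · rw [List.filter_cons_of_neg (by simpa using h1)]
      refine ih.trans ?_
      by_cases h2 : a ≤ x.re
      · rw [List.filter_cons_of_pos (by simpa using h2)]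
        simp
      · rw [List.filter_cons_of_neg (by simpa using h2)]

theorem jk_le_one (k : ℕ) {u : ℝ} (hu : 0 ≤ u) : jk k u ≤ 1 := by
  unfold jk
  have h1 := Real.pow_div_factorial_le_exp u hu k
  have h2 : (0 : ℝ) < k.factorial := by positivity
  rw [Real.exp_neg]
  have h3 := Real.exp_pos u
  rw [div_le_one h2, ← div_eq_mul_inv, div_le_iff₀ h3]
  rw [div_le_iff₀ h2] at h1
  linarith

theorem jk_nonneg (k : ℕ) {u : ℝ} (hu : 0 ≤ u) : 0 ≤ jk k u := by
  unfold jk
  positivity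

theorem Pk_cont (Z A : ℕ) (r : ℝ) (k : ℕ) (w : ℕ → ℂ) (x : Ch) :
    Continuous fun t : ℝ => Pk Z A r k w x t := by
  unfold Pk
  apply continuous_finsetSum
  intro p hp
  rw [mem_filter] at hp
  have hp0 : (p : ℂ) ≠ 0 := by exact_mod_cast hp.2.ne_zero
  apply Continuous.mul continuous_const
  have : (fun t : ℝ => (p : ℂ) ^ (-((t : ℂ) * Complex.I)))
      = fun t : ℝ => Complex.exp (Complex.log p * (-((t : ℂ) * Complex.I))) := by
    funext t
    rw [Complex.cpow_def_of_ne_zero hp0]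
  rw [this]
  fun_prop

/-- The mean value of the prime polynomials. -/
theorem mean (hHLS : Stmt_HLS) : ∃ C : ℝ, 0 < C ∧ ∀ (Z A : ℕ), 3 ≤ Z → ∀ r : ℝ, 0 ≤ r → ∀ k : ℕ,
    ∀ w : ℕ → ℂ, ∀ B : ℝ,
    ∑ p ∈ (Ioc (Z ^ 5) (Z ^ A)).filter Nat.Prime, (Real.log p) ^ 2 / p * ‖w p‖ ^ 2
      ≤ B * (Real.log Z) ^ 2 →
    ∑ x ∈ Fam Z, (∫ t in (-((Z : ℝ) + 1))..((Z : ℝ) + 1), ‖Pk Z A r k w x t‖ ^ 2)
      ≤ C * B * Real.log Z := by
  obtain ⟨C, hC, H⟩ := hHLS
  refine ⟨3 * C, by positivity, fun Z A hZ r hr k w B hB => ?_⟩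
  have hZr : (3 : ℝ) ≤ Z := by exact_mod_cast hZ
  have hl : 0 < Real.log Z := Real.log_pos (by linarith)
  set S := (Ioc (Z ^ 5) (Z ^ A)).filter Nat.Prime with hS
  set a : ℕ → ℂ := fun p => ((Real.log p * jk k (r * Real.log p) / p : ℝ) : ℂ) * w p with ha
  have hmem : ∀ p ∈ S, p.Prime ∧ Z ^ 5 < p := by
    intro p hp
    rw [hS, mem_filter, mem_Ioc] at hp
    exact ⟨hp.2, hp.1.1⟩
  have h1 := H Z (Z + 1) (by omega) (by linarith) S (fun p hp => by
    refine ⟨(hmem p hp).1, lt_of_le_of_lt ?_ (hmem p hp).2⟩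
    exact Nat.pow_le_pow_right (by omega) (by norm_num)) a
  have h2 : ∑ x ∈ Fam Z, (∫ t in (-((Z : ℝ) + 1))..((Z : ℝ) + 1), ‖Pk Z A r k w x t‖ ^ 2)
      = ∑ x ∈ Fam Z, (∫ t in (-((Z : ℝ) + 1))..((Z : ℝ) + 1),
      ‖∑ p ∈ S, a p * x.2 (p : ZMod x.1) * (p : ℂ) ^ (-((t : ℂ) * Complex.I))‖ ^ 2) := by
    rfl
  rw [h2]
  refine h1.trans ?_
  have h3 : ∑ p ∈ S, ((p : ℝ) + (Z : ℝ) ^ 4 * ((Z : ℝ) + 1)) * ‖a p‖ ^ 2
      ≤ 3 * (B * (Real.log Z) ^ 2) := by
    refine le_trans ?_ (mul_le_mul_of_nonneg_left hB (by norm_num))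
    rw [mul_sum]
    apply sum_le_sum
    intro p hp
    obtain ⟨hpp, hpZ⟩ := hmem p hp
    have hp0 : (0 : ℝ) < p := by exact_mod_cast hpp.pos
    have hp1 : (1 : ℝ) ≤ p := by exact_mod_cast hpp.one_lt.le
    have hlp : 0 ≤ Real.log p := Real.log_nonneg hp1
    have hpZ' : (Z : ℝ) ^ 5 ≤ p := by exact_mod_cast hpZ.le
    have h4 : (p : ℝ) + (Z : ℝ) ^ 4 * ((Z : ℝ) + 1) ≤ 3 * p := by
      have : (Z : ℝ) ^ 4 ≤ (Z : ℝ) ^ 5 := pow_le_pow_right₀ (by linarith) (by norm_num)
      nlinarith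
    have h5 : ‖a p‖ ≤ Real.log p / p * ‖w p‖ := by
      rw [ha]
      simp only
      rw [norm_mul, Complex.norm_real, Real.norm_eq_abs]
      apply mul_le_mul_of_nonneg_right _ (norm_nonneg _)
      have h6 := jk_nonneg k (mul_nonneg hr hlp)
      have h7 := jk_le_one k (mul_nonneg hr hlp)
      rw [abs_of_nonneg (by positivity)]
      apply div_le_div_of_nonneg_right _ hp0.le
      nlinarith
    have h8 : ‖a p‖ ^ 2 ≤ (Real.log p / p * ‖w p‖) ^ 2 :=
      pow_le_pow_left₀ (norm_nonneg _) h5 2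
    calc ((p : ℝ) + (Z : ℝ) ^ 4 * ((Z : ℝ) + 1)) * ‖a p‖ ^ 2
        ≤ (3 * p) * (Real.log p / p * ‖w p‖) ^ 2 :=
          mul_le_mul h4 h8 (by positivity) (by positivity)
      _ = 3 * ((Real.log p) ^ 2 / p * ‖w p‖ ^ 2) := by
          field_simp
  calc C / Real.log Z * ∑ p ∈ S, ((p : ℝ) + (Z : ℝ) ^ 4 * ((Z : ℝ) + 1)) * ‖a p‖ ^ 2
      ≤ C / Real.log Z * (3 * (B * (Real.log Z) ^ 2)) :=
        mul_le_mul_of_nonneg_left h3 (by positivity)
    _ = 3 * C * B * Real.log Z := by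
        field_simp

/-- One character. -/
theorem one {Z A : ℕ} {C1 c6 δ : ℝ} {w : ℕ → ℂ} {x : Ch} {F : ℂ → ℂ} {L : List ℂ} {ex : ℝ}
    (hF : Fdat Z C1 c6 δ w x F L ex) {C c5 r l : ℝ} {K : ℕ} (hC : 0 ≤ C) (hc5 : 0 < c5)
    (hr : 0 < r) (hr2 : r ≤ 2) (hl : 0 ≤ l)
    (H : ∀ t : ℝ, |t| ≤ Z + 1 → (∃ ρ ∈ L, ‖ρ - (1 + t * Complex.I)‖ ≤ r) →
      ((L.filter fun ρ => ‖ρ - (1 + t * Complex.I)‖ ≤ r).length : ℝ) ≤ C * r * l ∧
      ∃ k : ℕ, K < k ∧ k ≤ 2 * K ∧ 1 / r * c5 ^ K ≤ ‖Pk Z A r k w x t‖) :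
    (cnt L (1 - r / 2) : ℝ) * r ≤ (C * r * l) * (r ^ 2 * (1 / c5) ^ (2 * K)) *
      ∑ k ∈ Ioc K (2 * K), (∫ t in (-((Z : ℝ) + 1))..((Z : ℝ) + 1), ‖Pk Z A r k w x t‖ ^ 2) := by
  have e1 : (cnt L (1 - r / 2) : ℝ) * r = ∫ t in (-((Z : ℝ) + 1))..((Z : ℝ) + 1),
      ((L.filter fun ρ => 1 - r / 2 ≤ ρ.re).map fun ρ => fi r ρ.im t).sum := by
    rw [list_eq r _ hr.le]
    · rfl
    · intro ρ hρ
      have := hF.im ρ (List.mem_of_mem_filter hρ)
      linarith
  have hPc : ∀ k, Continuous fun t : ℝ => ‖Pk Z A r k w x t‖ ^ 2 := fun k =>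
    ((Pk_cont Z A r k w x).norm).pow 2
  have e2 : (C * r * l) * (r ^ 2 * (1 / c5) ^ (2 * K)) *
      ∑ k ∈ Ioc K (2 * K), (∫ t in (-((Z : ℝ) + 1))..((Z : ℝ) + 1), ‖Pk Z A r k w x t‖ ^ 2)
      = ∫ t in (-((Z : ℝ) + 1))..((Z : ℝ) + 1), (C * r * l) * (r ^ 2 * (1 / c5) ^ (2 * K)) *
        ∑ k ∈ Ioc K (2 * K), ‖Pk Z A r k w x t‖ ^ 2 := by
    rw [intervalIntegral.integral_const_mul, intervalIntegral.integral_finsetSum]
    intro k _
    exact (hPc k).intervalIntegrable _ _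
  rw [e1, e2]
  have hZ0 : (0 : ℝ) ≤ Z := Nat.cast_nonneg Z
  apply intervalIntegral.integral_mono_on (by linarith)
  · exact list_int r _ _ _
  · apply Continuous.intervalIntegrable
    apply Continuous.mul continuous_const
    exact continuous_finsetSum _ fun k _ => hPc k
  · intro t ht
    have ht' : |t| ≤ Z + 1 := abs_le.mpr ⟨ht.1, ht.2⟩
    refine (point r t L hF.re).trans ?_
    by_cases hex : ∃ ρ ∈ L, ‖ρ - (1 + t * Complex.I)‖ ≤ r
    · obtain ⟨h1, k, hk1, hk2, h2⟩ := H t ht' hex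
      refine h1.trans ?_
      have h3 : (0 : ℝ) ≤ C * r * l := by positivity
      rw [mul_assoc (C * r * l)]
      apply le_mul_of_one_le_right h3
      have h4 : ‖Pk Z A r k w x t‖ ^ 2 ≤ ∑ k ∈ Ioc K (2 * K), ‖Pk Z A r k w x t‖ ^ 2 :=
        single_le_sum (f := fun k => ‖Pk Z A r k w x t‖ ^ 2) (fun _ _ => by positivity)
          (mem_Ioc.mpr ⟨hk1, hk2⟩)
      have h5 : (1 / r * c5 ^ K) ^ 2 ≤ ‖Pk Z A r k w x t‖ ^ 2 :=
        pow_le_pow_left₀ (by positivity) h2 2
      calc (1 : ℝ) = r ^ 2 * (1 / c5) ^ (2 * K) * (1 / r * c5 ^ K) ^ 2 := by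
            rw [pow_mul', mul_pow, ← mul_assoc, div_pow, div_pow, one_pow, one_pow]
            field_simp
        _ ≤ _ := mul_le_mul_of_nonneg_left (h5.trans h4) (by positivity)
    · have : (L.filter fun ρ => ‖ρ - (1 + t * Complex.I)‖ ≤ r) = [] := by
        rw [List.filter_eq_nil_iff]
        intro ρ hρ h
        exact hex ⟨ρ, hρ, by simpa using h⟩
      rw [this]
      simp only [List.length_nil, Nat.cast_zero]
      positivity

end ADLaux

open ADLaux in
/-- Block ADL. -/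
theorem stmt_ADL (h1 : Stmt_ADL1) (h2 : Stmt_HLS) : Stmt_ADL := by
  intro C1 c6 hC1 hc6
  obtain ⟨A, D, c5, c7, C, hA, hD, hc5, hc5', hc7, hC, H⟩ := h1 C1 c6 hC1 hc6
  obtain ⟨C2, hC2, HM⟩ := mean h2
  have hlc : 0 < Real.log (1 / c5) := Real.log_pos (by rw [lt_div_iff₀ hc5]; linarith)
  set E : ℝ := 1 + 4 * D * Real.log (1 / c5) with hE
  have hE0 : 0 < E := by positivity
  refine ⟨A, C + 12 * C * C2 * D * Real.exp E + 2 * E + Real.exp (1 / c7) + Real.exp 1 + 3,
    min c7 1 / 2, hA, ?_, by positivity, ?_⟩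
  · have : 0 ≤ 12 * C * C2 * D * Real.exp E := by positivity
    have := Real.exp_pos (1 / c7)
    have := Real.exp_pos 1
    linarith
  set C' : ℝ := C + 12 * C * C2 * D * Real.exp E + 2 * E + Real.exp (1 / c7) + Real.exp 1 + 3
    with hC'
  have p1 : 0 ≤ 12 * C * C2 * D * Real.exp E := by positivity
  have p2 := Real.exp_pos (1 / c7)
  have p3 := Real.exp_pos 1
  intro Z hZ δ hδ hδ' w hw B hB hBs S hS F L ex hF r' hr' hr'c
  have hZC : C ≤ Z := by linarith
  have hZ3 : (3 : ℝ) ≤ Z := by linarith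
  have hZ3' : 3 ≤ Z := by exact_mod_cast hZ3
  have hZ0 : (0 : ℝ) < Z := by linarith
  set l := Real.log Z with hl
  have hl1 : 1 ≤ l := by
    rw [hl, Real.le_log_iff_exp_le hZ0]; linarith
  have hl7 : 1 / c7 ≤ l := by
    rw [hl, Real.le_log_iff_exp_le hZ0]; linarith
  have hl0 : 0 < l := by linarith
  set r : ℝ := max (2 * r') (1 / l) with hr
  have hr1 : 1 / l ≤ r := le_max_right _ _
  have hr0 : 0 < r := lt_of_lt_of_le (by positivity) hr1
  have hrc : r ≤ c7 := by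
    apply max_le
    · have := min_le_left c7 1
      linarith
    · rw [div_le_iff₀ hl0]
      rw [div_le_iff₀ hc7] at hl7
      linarith
  have hr2 : r ≤ 2 := by
    apply max_le
    · have := min_le_right c7 1
      linarith
    · rw [div_le_iff₀ hl0]; linarith
  have hrl : 1 ≤ r * l := by
    rw [div_le_iff₀ hl0] at hr1; exact hr1
  have hrl2 : r * l ≤ 2 * r' * l + 1 := by
    rw [hr, max_mul_of_nonneg _ _ hl0.le]
    apply max_le
    · linarith
    · rw [one_div, inv_mul_cancel₀ hl0.ne']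
      have : 0 ≤ 2 * r' * l := by positivity
      linarith
  set K : ℕ := ⌈D * r * l⌉₊ with hK
  have hKle : (K : ℝ) ≤ 2 * D * (r * l) := by
    have h3 : (K : ℝ) < D * r * l + 1 := Nat.ceil_lt_add_one (by positivity)
    have h4 : 1 ≤ D * (r * l) := by nlinarith
    nlinarith
  -- each character
  have hone : ∀ x ∈ S, (cnt (L x) (1 - r / 2) : ℝ) * r ≤
      (C * r * l) * (r ^ 2 * (1 / c5) ^ (2 * K)) *
      ∑ k ∈ Ioc K (2 * K), (∫ t in (-((Z : ℝ) + 1))..((Z : ℝ) + 1), ‖Pk Z A r k w x t‖ ^ 2) := by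
    intro x hx
    exact one (hF x hx) (by linarith) hc5 hr0 hr2 hl0.le
      (H Z hZC δ hδ hδ' w hw x (hS hx) (F x) (L x) (ex x) (hF x hx) r hr1 hrc)
  have hsum : (∑ x ∈ S, (cnt (L x) (1 - r / 2) : ℝ)) * r ≤
      (C * r * l) * (r ^ 2 * (1 / c5) ^ (2 * K)) * (K * (C2 * B * l)) := by
    rw [sum_mul]
    refine (sum_le_sum hone).trans ?_
    rw [← mul_sum]
    apply mul_le_mul_of_nonneg_left _ (by positivity)
    have h3 : ∀ x ∈ Fam Z, x ∉ S → 0 ≤ ∑ k ∈ Ioc K (2 * K),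
        (∫ t in (-((Z : ℝ) + 1))..((Z : ℝ) + 1), ‖Pk Z A r k w x t‖ ^ 2) := by
      intro x _ _
      apply sum_nonneg
      intro k _
      apply intervalIntegral.integral_nonneg (by linarith)
      intro t _
      positivity
    refine (sum_le_sum_of_subset_of_nonneg hS h3).trans ?_
    rw [sum_comm]
    have h4 : ∀ k ∈ Ioc K (2 * K), ∑ x ∈ Fam Z,
        (∫ t in (-((Z : ℝ) + 1))..((Z : ℝ) + 1), ‖Pk Z A r k w x t‖ ^ 2) ≤ C2 * B * l :=
      fun k _ => HM Z A hZ3' r hr0.le k w B hBs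
    refine (sum_le_card_nsmul _ _ _ h4).trans ?_
    rw [Nat.card_Ioc, nsmul_eq_mul]
    have : 2 * K - K = K := by omega
    rw [this]
  have hmain : ∑ x ∈ S, (cnt (L x) (1 - r / 2) : ℝ)
      ≤ C * C2 * B * (r * l) ^ 2 * K * (1 / c5) ^ (2 * K) := by
    have h3 : (C * r * l) * (r ^ 2 * (1 / c5) ^ (2 * K)) * (K * (C2 * B * l))
        = (C * C2 * B * (r * l) ^ 2 * K * (1 / c5) ^ (2 * K)) * r := by ring
    rw [h3] at hsum
    exact le_of_mul_le_mul_right hsum hr0
  have hmono : ∑ x ∈ S, (cnt (L x) (1 - r') : ℝ) ≤ ∑ x ∈ S, (cnt (L x) (1 - r / 2) : ℝ) := by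
    apply sum_le_sum
    intro x _
    have : 1 - r / 2 ≤ 1 - r' := by
      have := le_max_left (2 * r') (1 / l)
      linarith
    exact_mod_cast cnt_anti (L x) this
  refine hmono.trans (hmain.trans ?_)
  have h5 : (1 / c5) ^ (2 * K) ≤ Real.exp (4 * D * Real.log (1 / c5) * (r * l)) := by
    have h6 : (1 / c5) ^ (2 * K) = Real.exp (((2 * K : ℕ) : ℝ) * Real.log (1 / c5)) := by
      rw [Real.exp_nat_mul, Real.exp_log (by positivity)]
    rw [h6]
    apply Real.exp_le_exp.mpr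
    push_cast
    nlinarith
  have h7 : (r * l) ^ 3 ≤ 6 * Real.exp (r * l) := by
    have := Real.pow_div_factorial_le_exp (r * l) (by positivity) 3
    rw [show ((3 : ℕ).factorial : ℝ) = 6 by norm_num [Nat.factorial]] at this
    rw [div_le_iff₀ (by norm_num)] at this
    linarith
  calc C * C2 * B * (r * l) ^ 2 * K * (1 / c5) ^ (2 * K)
      ≤ C * C2 * B * (r * l) ^ 2 * (2 * D * (r * l)) *
        Real.exp (4 * D * Real.log (1 / c5) * (r * l)) := by
        apply mul_le_mul _ h5 (by positivity) (by positivity)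
        apply mul_le_mul_of_nonneg_left hKle (by positivity)
    _ = 2 * C * C2 * D * B * (r * l) ^ 3 * Real.exp (4 * D * Real.log (1 / c5) * (r * l)) := by
        ring
    _ ≤ 2 * C * C2 * D * B * (6 * Real.exp (r * l)) *
        Real.exp (4 * D * Real.log (1 / c5) * (r * l)) := by
        apply mul_le_mul_of_nonneg_right _ (Real.exp_pos _).le
        apply mul_le_mul_of_nonneg_left h7 (by positivity)
    _ = 12 * C * C2 * D * B * Real.exp (E * (r * l)) := by
        rw [hE, add_mul, one_mul, Real.exp_add]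
        ring
    _ ≤ 12 * C * C2 * D * B * Real.exp (E + 2 * E * (r' * l)) := by
        apply mul_le_mul_of_nonneg_left _ (by positivity)
        apply Real.exp_le_exp.mpr
        nlinarith
    _ = 12 * C * C2 * D * Real.exp E * B * Real.exp (2 * E * (r' * l)) := by
        rw [Real.exp_add]
        ring
    _ ≤ C' * B * Real.exp (C' * r' * l) := by
        have h8 : 12 * C * C2 * D * Real.exp E ≤ C' := by linarith
        have h9 : 2 * E ≤ C' := by linarith
        apply mul_le_mul (mul_le_mul_of_nonneg_right h8 hB) _ (Real.exp_pos _).le (by positivity)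
        apply Real.exp_le_exp.mpr
        have : 0 ≤ r' * l := by positivity
        nlinarith

end Pool.Agent.PS
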