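import Pool.Agent.Work.PS.Interface
import Pool.Agent.Work.MP_b0c12c_nt_helper70.Bounds

/-!
# PS, block ADL1, part a: sums over `Λ` and the kernel `jk`
-/

set_option autoImplicit false

namespace Pool.Agent.PS.ADLa

open Finset ArithmeticFunction
open Pool.Agent.Work.MP_b0c12c_nt_helper70 (sum_rpow_le)

/-- Comparison of weighted sums by comparison of the sums (weights nonneg, decreasing). -/
theorem abel_le (a b g : ℕ → ℝ) (hg : ∀ n, 0 ≤ g n) (hg' : ∀ n, g (n + 1) ≤ g n)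
    (hab : ∀ n, ∑ m ∈ range n, a m ≤ ∑ m ∈ range n, b m) (N : ℕ) :
    ∑ n ∈ range N, a n * g n ≤ ∑ n ∈ range N, b n * g n := by
  have key : ∀ N : ℕ, (∑ m ∈ range N, b m - ∑ m ∈ range N, a m) * g N ≤
      ∑ n ∈ range N, b n * g n - ∑ n ∈ range N, a n * g n := by
    intro N
    induction N with
    | zero => simp
    | succ N ih =>
      rw [sum_range_succ, sum_range_succ, sum_range_succ, sum_range_succ]
      have h1 := hab (N + 1)
      rw [sum_range_succ, sum_range_succ] at h1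
      have h2 := hg' N
      have h3 : (∑ m ∈ range N, b m + b N - (∑ m ∈ range N, a m + a N)) * g (N + 1) ≤
          (∑ m ∈ range N, b m + b N - (∑ m ∈ range N, a m + a N)) * g N :=
        mul_le_mul_of_nonneg_left h2 (by linarith)
      linarith
  have h1 := key N
  have h2 : 0 ≤ (∑ m ∈ range N, b m - ∑ m ∈ range N, a m) * g N :=
    mul_nonneg (by linarith [hab N]) (hg N)
  linarith

theorem sum_range_lam (n : ℕ) : ∑ m ∈ range n, Λ m ≤ (Real.log 4 + 4) * n := by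
  have h1 : ∑ m ∈ range n, Λ m ≤ Chebyshev.psi (n : ℝ) := by
    unfold Chebyshev.psi
    rw [Nat.floor_natCast]
    have h2 : ∑ m ∈ range n, Λ m = ∑ m ∈ (range n).filter (fun m => 0 < m), Λ m := by
      refine (sum_filter_of_ne fun m _ h => ?_).symm
      rcases Nat.eq_zero_or_pos m with rfl | h0
      · simp at h
      · exact h0
    rw [h2]
    refine sum_le_sum_of_subset_of_nonneg ?_ fun _ _ _ => vonMangoldt_nonneg
    intro m hm
    rw [mem_filter, mem_range] at hm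
    rw [mem_Ioc]
    exact ⟨hm.2, hm.1.le⟩
  exact h1.trans (Chebyshev.psi_le_const_mul_self (by positivity))

/-- Decreasing weights, equal to `n ^ (-s)` for `n ≥ 1`. -/
noncomputable def gs (s : ℝ) (n : ℕ) : ℝ := ((max n 1 : ℕ) : ℝ) ^ (-s)

theorem gs_nonneg (s : ℝ) (n : ℕ) : 0 ≤ gs s n := by unfold gs; positivity

theorem gs_anti {s : ℝ} (hs : 0 ≤ s) (n : ℕ) : gs s (n + 1) ≤ gs s n := by
  unfold gs
  refine Real.rpow_le_rpow_of_nonpos ?_ ?_ (by linarith)
  · have : 1 ≤ max n 1 := le_max_right _ _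
    exact_mod_cast this
  · exact_mod_cast max_le_max (Nat.le_succ n) le_rfl

theorem gs_eq (s : ℝ) {n : ℕ} (hn : 1 ≤ n) : gs s n = (n : ℝ) ^ (-s) := by
  unfold gs
  rw [max_eq_left hn]

theorem sum_gs_le {b : ℝ} (hb : 0 < b) (N : ℕ) : ∑ n ∈ range N, gs (1 + b) n ≤ 2 + 1 / b := by
  have h1 : ∑ n ∈ range N, gs (1 + b) n ≤
      ∑ n ∈ range N, ((n : ℝ) ^ (-(1 + b)) + if n = 0 then 1 else 0) := by
    refine sum_le_sum fun n _ => ?_
    rcases Nat.eq_zero_or_pos n with rfl | hn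
    · unfold gs
      simp
      positivity
    · rw [gs_eq _ hn, if_neg hn.ne', add_zero]
  have h2 : ∑ n ∈ range N, (if n = 0 then (1 : ℝ) else 0) ≤ 1 := by
    rw [sum_ite_eq']
    split_ifs <;> norm_num
  rw [sum_add_distrib] at h1
  have h3 := sum_rpow_le hb N
  linarith

/-- `C_Λ`. -/
noncomputable def CL : ℝ := 3 * (Real.log 4 + 4)

theorem one_le_CL : 1 ≤ CL := by
  have : 0 ≤ Real.log 4 := Real.log_nonneg (by norm_num)
  unfold CL
  linarith

theorem sum_lam_le {b : ℝ} (hb : 0 < b) (hb1 : b ≤ 1) (N : ℕ) :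
    ∑ n ∈ range N, Λ n * (n : ℝ) ^ (-(1 + b)) ≤ CL / b := by
  have h1 : ∑ n ∈ range N, Λ n * (n : ℝ) ^ (-(1 + b)) ≤ ∑ n ∈ range N, Λ n * gs (1 + b) n := by
    refine sum_le_sum fun n _ => ?_
    rcases Nat.eq_zero_or_pos n with rfl | hn
    · simp
    · rw [gs_eq _ hn]
  have h2 := abel_le (fun n => Λ n) (fun _ => Real.log 4 + 4) (gs (1 + b)) (gs_nonneg _)
    (gs_anti (by linarith)) (fun n => by
      have := sum_range_lam n
      simp only [sum_const, card_range, nsmul_eq_mul]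
      linarith) N
  rw [← mul_sum] at h2
  have h3 := sum_gs_le hb N
  have h4 : 0 ≤ Real.log 4 := Real.log_nonneg (by norm_num)
  have h5 : 2 + 1 / b ≤ 3 / b := by
    rw [le_div_iff₀ hb, add_mul, div_mul_cancel₀ _ hb.ne']
    linarith
  calc _ ≤ _ := h1
    _ ≤ _ := h2
    _ ≤ (Real.log 4 + 4) * (3 / b) :=
        mul_le_mul_of_nonneg_left (h3.trans h5) (by linarith)
    _ = CL / b := by unfold CL; ring

theorem summable_lam {b : ℝ} (hb : 0 < b) (hb1 : b ≤ 1) :
    Summable fun n : ℕ => Λ n * (n : ℝ) ^ (-(1 + b)) :=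
  summable_of_sum_range_le (fun n => mul_nonneg vonMangoldt_nonneg (by positivity))
    (fun N => sum_lam_le hb hb1 N)

theorem tsum_lam_le {b : ℝ} (hb : 0 < b) (hb1 : b ≤ 1) :
    ∑' n : ℕ, Λ n * (n : ℝ) ^ (-(1 + b)) ≤ CL / b :=
  Real.tsum_le_of_sum_range_le (fun n => mul_nonneg vonMangoldt_nonneg (by positivity))
    (fun N => sum_lam_le hb hb1 N)

/-- Proper prime powers. -/
theorem exists_pp : ∃ C : ℝ, 1 ≤ C ∧ ∀ Y X : ℕ, 1 ≤ Y →
    ∑ n ∈ (Ioc Y X).filter (fun n => ¬ n.Prime), Λ n / n ≤ C * (Y : ℝ) ^ (-(1 / 4) : ℝ) := by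
  obtain ⟨C, hC⟩ := Chebyshev.psi_sub_theta_le_mul_sqrt
  set C' : ℝ := max C 1 with hC'
  have hC'1 : 1 ≤ C' := le_max_right _ _
  have hb : ∀ n : ℕ, ∑ m ∈ range n, (if m.Prime then 0 else Λ m) ≤
      ∑ m ∈ range n, C' * (m : ℝ) ^ (-(1 / 2) : ℝ) := by
    intro n
    rcases Nat.eq_zero_or_pos n with rfl | hn
    · simp
    obtain ⟨k, rfl⟩ : ∃ k, n = k + 1 := ⟨n - 1, by omega⟩
    have h1 : ∑ m ∈ range (k + 1), (if m.Prime then 0 else Λ m) =
        ∑ m ∈ (Ioc 0 k).filter (fun m => ¬ m.Prime), Λ m := by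
      rw [sum_filter]
      have : range (k + 1) = insert 0 (Ioc 0 k) := by
        ext m
        simp only [mem_range, mem_insert, mem_Ioc]
        omega
      rw [this, sum_insert (by simp)]
      rw [ArithmeticFunction.map_zero, ite_self, zero_add]
      refine sum_congr rfl fun m _ => ?_
      by_cases h : m.Prime <;> simp [h]
    have h2 := hC (k : ℝ)
    rw [Chebyshev.psi_sub_theta_eq_sum_not_prime, Nat.floor_natCast] at h2
    rw [h1]
    have h3 : √(k : ℝ) ≤ ∑ m ∈ range (k + 1), (m : ℝ) ^ (-(1 / 2) : ℝ) := by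
      rw [sum_range_succ']
      rcases Nat.eq_zero_or_pos k with rfl | hk
      · simp
      have hkR : (0 : ℝ) < k := by exact_mod_cast hk
      have h4 : ∑ m ∈ range k, (k : ℝ) ^ (-(1 / 2) : ℝ) ≤
          ∑ m ∈ range k, ((m + 1 : ℕ) : ℝ) ^ (-(1 / 2) : ℝ) := by
        refine sum_le_sum fun m hm => ?_
        rw [mem_range] at hm
        refine Real.rpow_le_rpow_of_nonpos (by positivity) ?_ (by norm_num)
        exact_mod_cast hm
      rw [sum_const, card_range, nsmul_eq_mul] at h4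
      have h5 : (k : ℝ) * (k : ℝ) ^ (-(1 / 2) : ℝ) = √(k : ℝ) := by
        rw [Real.sqrt_eq_rpow]
        nth_rw 1 [← Real.rpow_one (k : ℝ)]
        rw [← Real.rpow_add hkR]
        norm_num
      rw [h5] at h4
      have h6 : 0 ≤ ((0 : ℕ) : ℝ) ^ (-(1 / 2) : ℝ) := by positivity
      linarith
    rw [← mul_sum]
    calc _ ≤ C * √(k : ℝ) := h2
      _ ≤ C' * √(k : ℝ) := mul_le_mul_of_nonneg_right (le_max_left _ _) (Real.sqrt_nonneg _)
      _ ≤ _ := mul_le_mul_of_nonneg_left h3 (by linarith)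
  refine ⟨C' * 5, by linarith, fun Y X hY => ?_⟩
  have hYR : (0 : ℝ) < Y := by exact_mod_cast hY
  have h1 : ∑ n ∈ (Ioc Y X).filter (fun n => ¬ n.Prime), Λ n / n ≤
      ∑ n ∈ (Ioc Y X).filter (fun n => ¬ n.Prime),
        (Y : ℝ) ^ (-(1 / 4) : ℝ) * ((if n.Prime then 0 else Λ n) * gs (3 / 4) n) := by
    refine sum_le_sum fun n hn => ?_
    rw [mem_filter, mem_Ioc] at hn
    rw [if_neg hn.2, gs_eq _ (by omega)]
    have hnR : (0 : ℝ) < n := by exact_mod_cast (by omega : 0 < n)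
    have h2 : (n : ℝ)⁻¹ = (n : ℝ) ^ (-(1 / 4) : ℝ) * (n : ℝ) ^ (-(3 / 4) : ℝ) := by
      rw [← Real.rpow_add hnR, ← Real.rpow_neg_one]
      norm_num
    have h3 : (n : ℝ) ^ (-(1 / 4) : ℝ) ≤ (Y : ℝ) ^ (-(1 / 4) : ℝ) :=
      Real.rpow_le_rpow_of_nonpos hYR (by exact_mod_cast hn.1.1.le) (by norm_num)
    rw [div_eq_mul_inv, h2]
    have h4 : 0 ≤ Λ n * (n : ℝ) ^ (-(3 / 4) : ℝ) := mul_nonneg vonMangoldt_nonneg (by positivity)
    calc Λ n * ((n : ℝ) ^ (-(1 / 4) : ℝ) * (n : ℝ) ^ (-(3 / 4) : ℝ)) =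
        (n : ℝ) ^ (-(1 / 4) : ℝ) * (Λ n * (n : ℝ) ^ (-(3 / 4) : ℝ)) := by ring
      _ ≤ _ := mul_le_mul_of_nonneg_right h3 h4
  rw [← mul_sum] at h1
  have h2 : ∑ n ∈ (Ioc Y X).filter (fun n => ¬ n.Prime),
      ((if n.Prime then 0 else Λ n) * gs (3 / 4) n) ≤
      ∑ n ∈ range (X + 1), ((if n.Prime then 0 else Λ n) * gs (3 / 4) n) := by
    refine sum_le_sum_of_subset_of_nonneg ?_ fun n _ _ => ?_
    · intro n hn
      rw [mem_filter, mem_Ioc] at hn
      rw [mem_range]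
      omega
    · refine mul_nonneg ?_ (gs_nonneg _ _)
      split_ifs
      · exact le_rfl
      · exact vonMangoldt_nonneg
  have h3 := abel_le (fun n => if n.Prime then 0 else Λ n)
    (fun n => C' * (n : ℝ) ^ (-(1 / 2) : ℝ)) (gs (3 / 4)) (gs_nonneg _) (gs_anti (by norm_num))
    hb (X + 1)
  have h4 : ∑ n ∈ range (X + 1), C' * (n : ℝ) ^ (-(1 / 2) : ℝ) * gs (3 / 4) n ≤
      C' * ∑ n ∈ range (X + 1), (n : ℝ) ^ (-(1 + 1 / 4) : ℝ) := by
    rw [mul_sum]
    refine sum_le_sum fun n _ => ?_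
    rcases Nat.eq_zero_or_pos n with rfl | hn
    · rw [Nat.cast_zero, Real.zero_rpow (by norm_num), Real.zero_rpow (by norm_num)]
      simp
    · have hnR : (0 : ℝ) < n := by exact_mod_cast hn
      rw [gs_eq _ hn, mul_assoc, ← Real.rpow_add hnR]
      norm_num
  have h5 := sum_rpow_le (b := 1 / 4) (by norm_num) (X + 1)
  have h6 : (1 : ℝ) + 1 / (1 / 4) = 5 := by norm_num
  rw [h6] at h5
  have h7 : ∑ n ∈ (Ioc Y X).filter (fun n => ¬ n.Prime),
      ((if n.Prime then 0 else Λ n) * gs (3 / 4) n) ≤ C' * 5 :=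
    h2.trans (h3.trans (h4.trans (mul_le_mul_of_nonneg_left h5 (by linarith))))
  calc _ ≤ _ := h1
    _ ≤ (Y : ℝ) ^ (-(1 / 4) : ℝ) * (C' * 5) := mul_le_mul_of_nonneg_left h7 (by positivity)
    _ = _ := by ring

/-! ### the kernel -/

theorem jk_nonneg (k : ℕ) {u : ℝ} (hu : 0 ≤ u) : 0 ≤ jk k u := by
  unfold jk; positivity

theorem jk_le_one (k : ℕ) {u : ℝ} (hu : 0 ≤ u) : jk k u ≤ 1 := by
  unfold jk
  have h1 := Real.pow_div_factorial_le_exp u hu k
  have hf : (0 : ℝ) < k.factorial := by exact_mod_cast k.factorial_pos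
  rw [div_le_iff₀ hf] at h1
  rw [div_le_one hf]
  have h2 : u ^ k * Real.exp (-u) ≤ Real.exp u * k.factorial * Real.exp (-u) :=
    mul_le_mul_of_nonneg_right h1 (Real.exp_pos _).le
  have h3 : Real.exp u * k.factorial * Real.exp (-u) = k.factorial := by
    rw [mul_right_comm, ← Real.exp_add, add_neg_cancel, Real.exp_zero, one_mul]
  linarith

theorem pow_self_le (k : ℕ) : (k : ℝ) ^ k ≤ 3 ^ k * k.factorial := by
  have h2 := Real.pow_div_factorial_le_exp (k : ℝ) (Nat.cast_nonneg k) k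
  have h3 : Real.exp k ≤ 3 ^ k := by
    have : Real.exp k = Real.exp 1 ^ k := by rw [← Real.exp_nat_mul, mul_one]
    rw [this]
    exact pow_le_pow_left₀ (Real.exp_pos 1).le (Real.exp_one_lt_d9.le.trans (by norm_num)) k
  have hf : (0 : ℝ) < k.factorial := by exact_mod_cast k.factorial_pos
  rw [div_le_iff₀ hf] at h2
  exact h2.trans (mul_le_mul_of_nonneg_right h3 hf.le)

/-- Small argument. -/
theorem jk_small (k : ℕ) {u a : ℝ} (hu : 0 ≤ u) (hua : u ≤ a * k) (ha : 0 ≤ a) :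
    jk k u ≤ (3 * a) ^ k * Real.exp (-u) := by
  unfold jk
  have hf : (0 : ℝ) < k.factorial := by exact_mod_cast k.factorial_pos
  rw [div_le_iff₀ hf]
  have h1 : u ^ k ≤ (a * k) ^ k := pow_le_pow_left₀ hu hua k
  have h2 : (a * k) ^ k ≤ (3 * a) ^ k * k.factorial := by
    rw [mul_pow, mul_pow]
    calc a ^ k * (k : ℝ) ^ k ≤ a ^ k * (3 ^ k * k.factorial) :=
          mul_le_mul_of_nonneg_left (pow_self_le k) (by positivity)
      _ = _ := by ring
  calc u ^ k * Real.exp (-u) ≤ (3 * a) ^ k * k.factorial * Real.exp (-u) :=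
        mul_le_mul_of_nonneg_right (h1.trans h2) (Real.exp_pos _).le
    _ = _ := by ring

/-- Large argument. -/
theorem jk_large (k : ℕ) (hk : 1 ≤ k) {u v : ℝ} (hv : 1 ≤ v) (hu : v * k ≤ u) :
    jk k u ≤ (144 / v) ^ k * Real.exp (-(u / 2)) := by
  unfold jk
  have hkR : (0 : ℝ) < k := by exact_mod_cast hk
  have hf : (0 : ℝ) < k.factorial := by exact_mod_cast k.factorial_pos
  rw [div_le_iff₀ hf]
  set y : ℝ := u / k with hy
  have hvy : v ≤ y := by rw [hy, le_div_iff₀ hkR]; exact hu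
  have hy0 : 0 < y := by linarith
  have hu' : u = y * k := by rw [hy]; field_simp
  have h1 : y * Real.exp (-(y / 2)) ≤ 48 / v := by
    have h2 := Real.pow_div_factorial_le_exp (y / 2) (by positivity) 3
    have h3 : (y / 2) ^ 3 / (Nat.factorial 3 : ℝ) = y ^ 3 / 48 := by
      norm_num [Nat.factorial]
      ring
    rw [h3] at h2
    rw [Real.exp_neg, ← div_eq_mul_inv, div_le_div_iff₀ (Real.exp_pos _) (by linarith)]
    have h4 : y * v ≤ y ^ 3 := by
      have : y * v ≤ y * y := mul_le_mul_of_nonneg_left hvy hy0.le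
      have : y * y ≤ y * y * y := by
        have : 1 ≤ y := by linarith
        nlinarith [mul_pos hy0 hy0]
      nlinarith
    nlinarith
  have h5 : u ^ k * Real.exp (-u) =
      (k : ℝ) ^ k * (y * Real.exp (-(y / 2))) ^ k * Real.exp (-(u / 2)) := by
    rw [mul_pow, ← Real.exp_nat_mul]
    have : Real.exp (-u) = Real.exp (k * (-(y / 2))) * Real.exp (-(u / 2)) := by
      rw [← Real.exp_add, hu']
      congr 1
      ring
    rw [this]
    nth_rw 1 [hu']
    rw [mul_pow]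
    ring
  rw [h5]
  have h6 : (y * Real.exp (-(y / 2))) ^ k ≤ (48 / v) ^ k :=
    pow_le_pow_left₀ (by positivity) h1 k
  have h7 : (k : ℝ) ^ k * (y * Real.exp (-(y / 2))) ^ k ≤ (3 ^ k * k.factorial) * (48 / v) ^ k :=
    mul_le_mul (pow_self_le k) h6 (by positivity) (by positivity)
  have h8 : (3 ^ k * (k.factorial : ℝ)) * (48 / v) ^ k = (144 / v) ^ k * k.factorial := by
    rw [show (144 / v : ℝ) = 3 * (48 / v) by ring, mul_pow 3 (48 / v) k]
    ring
  rw [h8] at h7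
  calc _ ≤ (144 / v) ^ k * k.factorial * Real.exp (-(u / 2)) :=
        mul_le_mul_of_nonneg_right h7 (Real.exp_pos _).le
    _ = _ := by ring

end Pool.Agent.PS.ADLa
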