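import Pool.Agent.Work.PS.ADLa
import Pool.Agent.Work.PS.TUR
import Pool.Agent.Work.PS.ZL

/-!
# PS, block ADL1, part b: high derivatives of the local formula
-/

set_option autoImplicit false

namespace Pool.Agent.PS.ADLb

open Metric Filter Topology
open Pool.Agent.Work.MP_b0c12c_nt_helper70 (PP PP_cons PP_nil)

theorem contDiffAt_inv_sub {a s : ℂ} (h : s ≠ a) (k : ℕ) :
    ContDiffAt ℂ k (fun s => 1 / (s - a)) s := by
  refine ContDiffAt.div contDiffAt_const (contDiffAt_id.sub contDiffAt_const) ?_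
  exact sub_ne_zero.2 h

theorem iteratedDeriv_inv_sub (k : ℕ) (a s : ℂ) :
    iteratedDeriv k (fun s => 1 / (s - a)) s =
      (-1) ^ k * k.factorial * (1 / (s - a) ^ (k + 1)) := by
  have h1 := congrFun (iteratedDeriv_comp_sub_const k (fun z : ℂ => z⁻¹) a) s
  have h2 : (fun s : ℂ => 1 / (s - a)) = fun z => (fun z : ℂ => z⁻¹) (z - a) := by
    funext z; rw [one_div]
  rw [h2, h1, iteratedDeriv_eq_iterate]
  have h3 := iter_deriv_inv (𝕜 := ℂ) k (s - a)
  have h4 : deriv^[k] (fun z : ℂ => z⁻¹) (s - a) = deriv^[k] Inv.inv (s - a) := rfl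
  rw [h4, h3, show (-1 - (k : ℤ)) = -((k + 1 : ℕ) : ℤ) by push_cast; ring, zpow_neg, zpow_natCast,
    one_div]

theorem list_deriv (k : ℕ) (s : ℂ) (L : List ℂ) (hL : ∀ ρ ∈ L, s ≠ ρ) :
    ContDiffAt ℂ k (fun s => (L.map fun ρ => 1 / (s - ρ)).sum) s ∧
    iteratedDeriv k (fun s => (L.map fun ρ => 1 / (s - ρ)).sum) s =
      (-1) ^ k * k.factorial * (L.map fun ρ => 1 / (s - ρ) ^ (k + 1)).sum := by
  induction L with
  | nil =>
    simp only [List.map_nil, List.sum_nil, mul_zero]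
    refine ⟨contDiffAt_const, ?_⟩
    rw [iteratedDeriv_const]
    split_ifs <;> rfl
  | cons a L ih =>
    obtain ⟨h1, h2⟩ := ih fun ρ hρ => hL ρ (List.mem_cons_of_mem _ hρ)
    have h3 := contDiffAt_inv_sub (hL a List.mem_cons_self) k
    simp only [List.map_cons, List.sum_cons]
    refine ⟨h3.add h1, ?_⟩
    rw [iteratedDeriv_fun_add h3 h1, h2, iteratedDeriv_inv_sub, mul_add]

theorem LSeries_contDiffAt {f : ℕ → ℂ} {s : ℂ} (h : LSeries.abscissaOfAbsConv f < s.re) (k : ℕ) :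
    ContDiffAt ℂ k (LSeries f) s :=
  ((LSeries_analyticOnNhd f) s h).contDiffAt

/-- The `k`-th derivative of the local formula. -/
theorem deriv_formula {f : ℕ → ℂ} {s0 : ℂ} (hf : LSeries.abscissaOfAbsConv f < s0.re)
    {L : List ℂ} (hL : ∀ ρ ∈ L, s0 ≠ ρ) {ex : ℂ} (hex : ex ≠ 0 → s0 ≠ 1) {G : ℂ → ℂ} {R B : ℝ}
    (hR : 0 < R) (hG : DifferentiableOn ℂ G (ball s0 (2 * R)))
    (hB : ∀ s ∈ closedBall s0 R, ‖G s‖ ≤ B)
    (hev : ∀ᶠ s in 𝓝 s0, LSeries f s - ex / (s - 1) =
      -((L.map fun ρ => 1 / (s - ρ)).sum + G s)) (k : ℕ) :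
    ‖(L.map fun ρ => 1 / (s0 - ρ) ^ (k + 1)).sum +
      LSeries (LSeries.logMul^[k] f) s0 / k.factorial - ex / (s0 - 1) ^ (k + 1)‖ ≤
      B / R ^ k := by
  have hkf : (k.factorial : ℂ) ≠ 0 := by exact_mod_cast k.factorial_ne_zero
  have h1 : iteratedDeriv k (fun s => ex / (s - 1)) s0 =
      (-1) ^ k * k.factorial * (ex / (s0 - 1) ^ (k + 1)) ∧
      ContDiffAt ℂ k (fun s => ex / (s - 1)) s0 := by
    by_cases h0 : ex = 0
    · subst h0
      simp only [zero_div, mul_zero]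
      refine ⟨?_, contDiffAt_const⟩
      rw [iteratedDeriv_const]
      split_ifs <;> rfl
    · have h2 := contDiffAt_inv_sub (hex h0) k
      have h3 : (fun s : ℂ => ex / (s - 1)) = fun s => ex * (1 / (s - 1)) := by
        funext s; rw [mul_one_div]
      rw [h3]
      refine ⟨?_, contDiffAt_const.mul h2⟩
      rw [iteratedDeriv_const_mul_field, iteratedDeriv_inv_sub]
      ring
  have hGc : ContDiffAt ℂ k G s0 := by
    have := (hG.analyticOnNhd isOpen_ball) s0 (mem_ball_self (by positivity))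
    exact this.contDiffAt
  have h2 := Filter.EventuallyEq.iteratedDeriv_eq k (f := fun s => LSeries f s - ex / (s - 1))
    (g := fun s => -((L.map fun ρ => 1 / (s - ρ)).sum + G s)) (x := s0) hev
  obtain ⟨h3, h4⟩ := list_deriv k s0 L hL
  rw [iteratedDeriv_fun_sub (LSeries_contDiffAt hf k) h1.2, LSeries_iteratedDeriv k hf, h1.1,
    iteratedDeriv_fun_neg, iteratedDeriv_fun_add h3 hGc, h4] at h2
  have h5 : (L.map fun ρ => 1 / (s0 - ρ) ^ (k + 1)).sum +
      LSeries (LSeries.logMul^[k] f) s0 / k.factorial - ex / (s0 - 1) ^ (k + 1) =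
      -((-1) ^ k * iteratedDeriv k G s0 / k.factorial) := by
    have hs : ((-1 : ℂ) ^ k) * (-1) ^ k = 1 := by
      rw [← mul_pow]; norm_num
    have h6 : (-1 : ℂ) ^ k * ((-1) ^ k * LSeries (LSeries.logMul^[k] f) s0 -
        (-1) ^ k * k.factorial * (ex / (s0 - 1) ^ (k + 1))) =
        (-1) ^ k * (-((-1) ^ k * k.factorial * (L.map fun ρ => 1 / (s0 - ρ) ^ (k + 1)).sum +
          iteratedDeriv k G s0)) := by rw [h2]
    have h7 : LSeries (LSeries.logMul^[k] f) s0 - k.factorial * (ex / (s0 - 1) ^ (k + 1)) =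
        -(k.factorial * (L.map fun ρ => 1 / (s0 - ρ) ^ (k + 1)).sum +
          (-1) ^ k * iteratedDeriv k G s0) := by
      linear_combination h6 - (LSeries (LSeries.logMul^[k] f) s0 -
        k.factorial * (ex / (s0 - 1) ^ (k + 1)) +
        k.factorial * (L.map fun ρ => 1 / (s0 - ρ) ^ (k + 1)).sum) * hs
    have h8 : (k.factorial : ℂ) * ((L.map fun ρ => 1 / (s0 - ρ) ^ (k + 1)).sum +
        LSeries (LSeries.logMul^[k] f) s0 / k.factorial - ex / (s0 - 1) ^ (k + 1)) =
        (k.factorial : ℂ) * (-((-1) ^ k * iteratedDeriv k G s0 / k.factorial)) := by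
      field_simp
      linear_combination h7
    exact mul_left_cancel₀ hkf h8
  rw [h5, norm_neg, norm_div, norm_mul, norm_pow, norm_neg, norm_one, one_pow, one_mul,
    Complex.norm_natCast]
  have hd : DiffContOnCl ℂ G (ball s0 R) := by
    have : closedBall s0 R ⊆ ball s0 (2 * R) := closedBall_subset_ball (by linarith)
    exact (hG.mono this).diffContOnCl_ball (subset_refl _)
  have h9 := Complex.norm_iteratedDeriv_le_of_forall_mem_sphere_norm_le k hR hd
    (fun z hz => hB z (sphere_subset_closedBall hz))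
  rw [div_le_iff₀ (by exact_mod_cast k.factorial_pos)]
  calc ‖iteratedDeriv k G s0‖ ≤ k.factorial * B / R ^ k := h9
    _ = B / R ^ k * k.factorial := by ring

end Pool.Agent.PS.ADLb
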