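import Pool.Agent.Work.PS.ADLb

/-!
# PS, block ADL1, part c: the twisted Dirichlet series and truncation
-/

set_option autoImplicit false

namespace Pool.Agent.PS.ADLc

open Finset ArithmeticFunction
open Pool.Agent.PS.ADLa

/-- The coefficients. -/
noncomputable def cf {q : ℕ} (χ : DirichletCharacter ℂ q) (w : ℕ → ℂ) (n : ℕ) : ℂ :=
  (Λ n : ℂ) * χ (n : ZMod q) * w n

variable {q : ℕ} (χ : DirichletCharacter ℂ q) {δ : ℝ} {w : ℕ → ℂ}

theorem norm_cf_le (hw : ∀ n, 1 ≤ n → ‖w n‖ ≤ 2 * (n : ℝ) ^ δ) {n : ℕ} (hn : 1 ≤ n) :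
    ‖cf χ w n‖ ≤ 2 * (Λ n * (n : ℝ) ^ δ) := by
  unfold cf
  rw [norm_mul, norm_mul, Complex.norm_real, Real.norm_of_nonneg vonMangoldt_nonneg]
  have h1 : ‖χ (n : ZMod q)‖ ≤ 1 := χ.norm_le_one _
  have h2 := hw n hn
  have h3 : 0 ≤ Λ n := vonMangoldt_nonneg
  calc Λ n * ‖χ (n : ZMod q)‖ * ‖w n‖ ≤ Λ n * 1 * (2 * (n : ℝ) ^ δ) := by gcongr
    _ = _ := by ring

theorem norm_term_cf_le (hw : ∀ n, 1 ≤ n → ‖w n‖ ≤ 2 * (n : ℝ) ^ δ) (s : ℂ) (n : ℕ) :
    ‖LSeries.term (cf χ w) s n‖ ≤ 2 * (Λ n * (n : ℝ) ^ (-(1 + (s.re - 1 - δ)))) := by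
  rw [LSeries.norm_term_eq]
  split_ifs with h0
  · exact mul_nonneg (by norm_num) (mul_nonneg vonMangoldt_nonneg (by positivity))
  · have hn : 1 ≤ n := Nat.one_le_iff_ne_zero.2 h0
    have hnR : (0 : ℝ) < n := by exact_mod_cast hn
    rw [div_le_iff₀ (by positivity)]
    have h1 : (n : ℝ) ^ (-(1 + (s.re - 1 - δ))) * (n : ℝ) ^ s.re = (n : ℝ) ^ δ := by
      rw [← Real.rpow_add hnR]
      congr 1
      ring
    calc ‖cf χ w n‖ ≤ 2 * (Λ n * (n : ℝ) ^ δ) := norm_cf_le χ hw hn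
      _ = _ := by rw [← h1]; ring

theorem summable_term (hw : ∀ n, 1 ≤ n → ‖w n‖ ≤ 2 * (n : ℝ) ^ δ) {s : ℂ}
    (hs : 0 < s.re - 1 - δ) (hs1 : s.re - 1 - δ ≤ 1) : LSeriesSummable (cf χ w) s := by
  refine Summable.of_norm_bounded ((summable_lam hs hs1).mul_left 2) fun n => ?_
  exact norm_term_cf_le χ hw s n

theorem abscissa_le (hw : ∀ n, 1 ≤ n → ‖w n‖ ≤ 2 * (n : ℝ) ^ δ) :
    LSeries.abscissaOfAbsConv (cf χ w) ≤ ((1 + δ : ℝ) : EReal) := by
  refine LSeries.abscissaOfAbsConv_le_of_forall_lt_LSeriesSummable fun y hy => ?_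
  set y' : ℝ := min y (2 + δ) with hy'
  have h1 : 1 + δ < y' := lt_min hy (by linarith)
  have h2 : y' ≤ 2 + δ := min_le_right _ _
  have h3 : LSeriesSummable (cf χ w) (y' : ℂ) := by
    refine summable_term χ hw ?_ ?_
    · rw [Complex.ofReal_re]; linarith
    · rw [Complex.ofReal_re]; linarith
  refine h3.of_re_le_re ?_
  rw [Complex.ofReal_re, Complex.ofReal_re]
  exact min_le_left _ _

theorem norm_LSeries_cf_le (hw : ∀ n, 1 ≤ n → ‖w n‖ ≤ 2 * (n : ℝ) ^ δ) {s : ℂ}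
    (hs : 0 < s.re - 1 - δ) (hs1 : s.re - 1 - δ ≤ 1) :
    ‖LSeries (cf χ w) s‖ ≤ 2 * (CL / (s.re - 1 - δ)) := by
  have h1 := (summable_term χ hw hs hs1).norm
  calc ‖LSeries (cf χ w) s‖ ≤ ∑' n, ‖LSeries.term (cf χ w) s n‖ := norm_tsum_le_tsum_norm h1
    _ ≤ ∑' n : ℕ, 2 * (Λ n * (n : ℝ) ^ (-(1 + (s.re - 1 - δ)))) :=
        h1.tsum_le_tsum (fun n => norm_term_cf_le χ hw s n) ((summable_lam hs hs1).mul_left 2)
    _ = 2 * ∑' n : ℕ, (Λ n * (n : ℝ) ^ (-(1 + (s.re - 1 - δ)))) := tsum_mul_left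
    _ ≤ _ := mul_le_mul_of_nonneg_left (tsum_lam_le hs hs1) (by norm_num)

theorem logMul_iterate (f : ℕ → ℂ) (k n : ℕ) :
    (LSeries.logMul^[k] f) n = (Complex.log n) ^ k * f n := by
  induction k with
  | zero => simp
  | succ k ih =>
    rw [Function.iterate_succ', Function.comp_apply, LSeries.logMul, ih, pow_succ]
    ring

/-- the point `1 + r + i t` -/
noncomputable def pt (r t : ℝ) : ℂ := ((1 + r : ℝ) : ℂ) + t * Complex.I

theorem pt_re (r t : ℝ) : (pt r t).re = 1 + r := by simp [pt]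

theorem pt_im (r t : ℝ) : (pt r t).im = t := by simp [pt]

/-- The terms of the `k`-th derivative, normalised. -/
theorem term_eq (r t : ℝ) (k : ℕ) {n : ℕ} (hn : 1 ≤ n) :
    ((r ^ k / k.factorial : ℝ) : ℂ) * LSeries.term (LSeries.logMul^[k] (cf χ w)) (pt r t) n =
      ((Λ n * jk k (r * Real.log n) / n : ℝ) : ℂ) * w n * χ (n : ZMod q)
        * (n : ℂ) ^ (-((t : ℂ) * Complex.I)) := by
  have hn0 : n ≠ 0 := by omega
  have hnC : (n : ℂ) ≠ 0 := by exact_mod_cast hn0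
  have hnR : (0 : ℝ) < n := by exact_mod_cast hn
  rw [LSeries.term_of_ne_zero hn0, logMul_iterate]
  have h1 : (n : ℂ) ^ pt r t = ((n * Real.exp (r * Real.log n) : ℝ) : ℂ) *
      (n : ℂ) ^ ((t : ℂ) * Complex.I) := by
    unfold pt
    rw [Complex.cpow_add _ _ hnC, ← Complex.ofReal_natCast, ← Complex.ofReal_cpow hnR.le]
    congr 2
    rw [Real.rpow_add hnR, Real.rpow_one, Real.rpow_def_of_pos hnR, mul_comm (Real.log n) r]
  have h2 : Complex.log (n : ℂ) = ((Real.log n : ℝ) : ℂ) := by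
    rw [← Complex.ofReal_natCast, ← Complex.ofReal_log hnR.le]
  have h3 : (n : ℂ) ^ ((t : ℂ) * Complex.I) ≠ 0 := by
    rw [Complex.cpow_ne_zero_iff]; left; exact hnC
  have h4 : ((Real.exp (r * Real.log n) : ℝ) : ℂ) ≠ 0 := by
    exact_mod_cast (Real.exp_pos _).ne'
  have h5 : (k.factorial : ℂ) ≠ 0 := by exact_mod_cast k.factorial_ne_zero
  rw [h1, h2, Complex.cpow_neg]
  unfold cf jk
  rw [Real.exp_neg]
  push_cast
  field_simp
  rw [mul_pow]
  ring

/-- Truncation of the series to the primes in `(Z^5, Z^A]`. -/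
theorem trunc {x : Ch} (hw : ∀ n, 1 ≤ n → ‖w n‖ ≤ 2 * (n : ℝ) ^ δ) {Z A k : ℕ} {r t D v Cpp : ℝ}
    (hZ : 2 ≤ Z) (hδ0 : 0 ≤ δ) (hδr : δ ≤ r / 100) (hδ : δ ≤ 1 / (100 * Real.log Z))
    (hr0 : 0 < r) (hr1 : r ≤ 1) (hD : 1 ≤ D) (hk : 1 ≤ k) (hv : 1 ≤ v) (hvA : v * (4 * D) ≤ A)
    (hk1 : D * r * Real.log Z ≤ k) (hk2 : k ≤ 4 * (D * r * Real.log Z))
    (hpp : ∀ Y X : ℕ, 1 ≤ Y →
      ∑ n ∈ (Ioc Y X).filter (fun n => ¬ n.Prime), Λ n / n ≤ Cpp * (Y : ℝ) ^ (-(1 / 4) : ℝ)) :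
    ‖((r ^ k / k.factorial : ℝ) : ℂ) * LSeries (LSeries.logMul^[k] (cf x.2 w)) (pt r t) -
      Pk Z A r k w x t‖ ≤ (15 / D) ^ k * (2 * (CL / (r - δ))) +
        (144 / v) ^ k * (2 * (CL / (r / 2 - δ))) +
        2 * Real.exp (A / 100) * (Cpp * ((Z : ℝ) ^ 5) ^ (-(1 / 4) : ℝ)) := by
  have hZR : (2 : ℝ) ≤ Z := by exact_mod_cast hZ
  have hl : 0 < Real.log Z := Real.log_pos (by linarith)
  have hkR : (0 : ℝ) < k := by exact_mod_cast hk
  have hb1 : 0 < r - δ := by linarith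
  have hb2 : 0 < r / 2 - δ := by linarith
  have hs1 := (summable_lam hb1 (by linarith)).mul_left ((15 / D) ^ k * 2)
  have hs2 := (summable_lam hb2 (by linarith)).mul_left ((144 / v) ^ k * 2)
  set T' : Finset ℕ := (Ioc (Z ^ 5) (Z ^ A)).filter (fun n => ¬ n.Prime) with hT'
  set T : Finset ℕ := (Ioc (Z ^ 5) (Z ^ A)).filter Nat.Prime with hT
  have hs3 : Summable fun n : ℕ => if n ∈ T' then 2 * Real.exp (A / 100) * (Λ n / n) else 0 :=
    summable_of_ne_finset_zero (s := T') fun n hn => if_neg hn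
  set κ : ℂ := ((r ^ k / k.factorial : ℝ) : ℂ) with hκ
  set c : ℕ → ℂ := fun n => κ * LSeries.term (LSeries.logMul^[k] (cf x.2 w)) (pt r t) n with hc
  have hcn : ∀ n : ℕ, 1 ≤ n → ‖c n‖ ≤
      2 * (Λ n * ((n : ℝ) ^ δ * (n : ℝ)⁻¹)) * jk k (r * Real.log n) := by
    intro n hn
    have hnR : (0 : ℝ) < n := by exact_mod_cast hn
    have hlog : 0 ≤ Real.log n := Real.log_natCast_nonneg n
    have hj : 0 ≤ jk k (r * Real.log n) := jk_nonneg k (mul_nonneg hr0.le hlog)
    have hΛ : 0 ≤ Λ n := vonMangoldt_nonneg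
    rw [hc]
    simp only
    rw [hκ, term_eq x.2 r t k hn, norm_mul, norm_mul, norm_mul, Complex.norm_real,
      Real.norm_of_nonneg (by positivity), Complex.norm_natCast_cpow_of_pos hn]
    have h1 : (-((t : ℂ) * Complex.I)).re = 0 := by simp
    rw [h1, Real.rpow_zero, mul_one]
    have h2 : ‖x.2 (n : ZMod x.1)‖ ≤ 1 := x.2.norm_le_one _
    calc Λ n * jk k (r * Real.log n) / n * ‖w n‖ * ‖x.2 (n : ZMod x.1)‖ ≤
        Λ n * jk k (r * Real.log n) / n * (2 * (n : ℝ) ^ δ) * 1 := by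
          gcongr
          exact hw n hn
      _ = _ := by rw [div_eq_mul_inv]; ring
  have hbound : ∀ n : ℕ, n ∉ T → ‖c n‖ ≤
      (15 / D) ^ k * 2 * (Λ n * (n : ℝ) ^ (-(1 + (r - δ)))) +
      (144 / v) ^ k * 2 * (Λ n * (n : ℝ) ^ (-(1 + (r / 2 - δ)))) +
      (if n ∈ T' then 2 * Real.exp (A / 100) * (Λ n / n) else 0) := by
    intro n hnT
    have hΛ : 0 ≤ Λ n := vonMangoldt_nonneg
    have e1 : 0 ≤ (15 / D) ^ k * 2 * (Λ n * (n : ℝ) ^ (-(1 + (r - δ)))) := by positivity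
    have e2 : 0 ≤ (144 / v) ^ k * 2 * (Λ n * (n : ℝ) ^ (-(1 + (r / 2 - δ)))) := by positivity
    have e3 : 0 ≤ (if n ∈ T' then 2 * Real.exp (A / 100) * (Λ n / n) else 0) := by
      split_ifs
      · positivity
      · exact le_rfl
    rcases Nat.eq_zero_or_pos n with rfl | hn
    · have : c 0 = 0 := by rw [hc]; simp
      rw [this, norm_zero]
      positivity
    have hnR : (0 : ℝ) < n := by exact_mod_cast hn
    have hlog : 0 ≤ Real.log n := Real.log_natCast_nonneg n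
    have hu : 0 ≤ r * Real.log n := mul_nonneg hr0.le hlog
    refine (hcn n hn).trans ?_
    rcases le_or_gt n (Z ^ 5) with h5 | h5
    · -- small n
      have h6 : Real.log n ≤ 5 * Real.log Z := by
        have := Real.log_le_log hnR (by exact_mod_cast h5 : (n : ℝ) ≤ (Z : ℝ) ^ 5)
        rwa [Real.log_pow] at this
      have h7 : r * Real.log n ≤ 5 / D * k := by
        rw [div_mul_eq_mul_div, le_div_iff₀ (by linarith)]
        have : r * Real.log n ≤ r * (5 * Real.log Z) := mul_le_mul_of_nonneg_left h6 hr0.le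
        nlinarith
      have h8 := jk_small k hu h7 (by positivity)
      have h9 : 3 * (5 / D) = 15 / D := by ring
      rw [h9] at h8
      have h10 : (n : ℝ) ^ δ * (n : ℝ)⁻¹ * Real.exp (-(r * Real.log n)) =
          (n : ℝ) ^ (-(1 + (r - δ))) := by
        have : Real.exp (-(r * Real.log n)) = (n : ℝ) ^ (-r) := by
          rw [Real.rpow_def_of_pos hnR]; congr 1; ring
        rw [this, ← Real.rpow_neg_one, ← Real.rpow_add hnR, ← Real.rpow_add hnR]
        congr 1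
        ring
      have h11 : 2 * (Λ n * ((n : ℝ) ^ δ * (n : ℝ)⁻¹)) * jk k (r * Real.log n) ≤
          2 * (Λ n * ((n : ℝ) ^ δ * (n : ℝ)⁻¹)) * ((15 / D) ^ k *
            Real.exp (-(r * Real.log n))) := by gcongr
      have h12 : 2 * (Λ n * ((n : ℝ) ^ δ * (n : ℝ)⁻¹)) * ((15 / D) ^ k *
            Real.exp (-(r * Real.log n))) =
            (15 / D) ^ k * 2 * (Λ n * (n : ℝ) ^ (-(1 + (r - δ)))) := by
        rw [← h10]; ring
      linarith
    · rcases le_or_gt n (Z ^ A) with hA | hA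
      · -- proper prime powers
        have hnp : ¬ n.Prime := by
          intro hp
          apply hnT
          rw [hT, mem_filter, mem_Ioc]
          exact ⟨⟨h5, hA⟩, hp⟩
        have hmem : n ∈ T' := by
          rw [hT', mem_filter, mem_Ioc]
          exact ⟨⟨h5, hA⟩, hnp⟩
        rw [if_pos hmem]
        have h6 : Real.log n ≤ A * Real.log Z := by
          have := Real.log_le_log hnR (by exact_mod_cast hA : (n : ℝ) ≤ (Z : ℝ) ^ A)
          rwa [Real.log_pow] at this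
        have h7 : (n : ℝ) ^ δ ≤ Real.exp (A / 100) := by
          rw [Real.rpow_def_of_pos hnR]
          refine Real.exp_le_exp.2 ?_
          have h8 : Real.log n * δ ≤ A * Real.log Z * (1 / (100 * Real.log Z)) :=
            mul_le_mul h6 hδ hδ0 (by positivity)
          have h9 : A * Real.log Z * (1 / (100 * Real.log Z)) = A / 100 := by
            field_simp
          linarith
        have h8 := jk_le_one k hu
        have h8' := jk_nonneg k hu
        have h9 : 2 * (Λ n * ((n : ℝ) ^ δ * (n : ℝ)⁻¹)) * jk k (r * Real.log n) ≤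
            2 * (Λ n * (Real.exp (A / 100) * (n : ℝ)⁻¹)) * 1 := by gcongr
        have h10 : 2 * (Λ n * (Real.exp (A / 100) * (n : ℝ)⁻¹)) * 1 =
            2 * Real.exp (A / 100) * (Λ n / n) := by rw [div_eq_mul_inv]; ring
        linarith
      · -- large n
        have h6 : A * Real.log Z ≤ Real.log n := by
          have := Real.log_le_log (by positivity)
            (by exact_mod_cast hA.le : (Z : ℝ) ^ A ≤ (n : ℝ))
          rwa [Real.log_pow] at this
        have h7 : v * k ≤ r * Real.log n := by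
          have h8 : v * k ≤ v * (4 * (D * r * Real.log Z)) :=
            mul_le_mul_of_nonneg_left hk2 (by linarith)
          have h9 : v * (4 * (D * r * Real.log Z)) = (v * (4 * D)) * (r * Real.log Z) := by ring
          have h10 : (v * (4 * D)) * (r * Real.log Z) ≤ A * (r * Real.log Z) :=
            mul_le_mul_of_nonneg_right hvA (by positivity)
          have h11 : A * (r * Real.log Z) = r * (A * Real.log Z) := by ring
          have h12 : r * (A * Real.log Z) ≤ r * Real.log n := mul_le_mul_of_nonneg_left h6 hr0.le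
          linarith
        have h8 := jk_large k hk hv h7
        have h10 : (n : ℝ) ^ δ * (n : ℝ)⁻¹ * Real.exp (-(r * Real.log n / 2)) =
            (n : ℝ) ^ (-(1 + (r / 2 - δ))) := by
          have : Real.exp (-(r * Real.log n / 2)) = (n : ℝ) ^ (-(r / 2)) := by
            rw [Real.rpow_def_of_pos hnR]; congr 1; ring
          rw [this, ← Real.rpow_neg_one, ← Real.rpow_add hnR, ← Real.rpow_add hnR]
          congr 1
          ring
        have h11 : 2 * (Λ n * ((n : ℝ) ^ δ * (n : ℝ)⁻¹)) * jk k (r * Real.log n) ≤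
            2 * (Λ n * ((n : ℝ) ^ δ * (n : ℝ)⁻¹)) * ((144 / v) ^ k *
              Real.exp (-(r * Real.log n / 2))) := by gcongr
        have h12 : 2 * (Λ n * ((n : ℝ) ^ δ * (n : ℝ)⁻¹)) * ((144 / v) ^ k *
              Real.exp (-(r * Real.log n / 2))) =
              (144 / v) ^ k * 2 * (Λ n * (n : ℝ) ^ (-(1 + (r / 2 - δ)))) := by
          rw [← h10]; ring
        linarith
  -- summability of c
  have hab : LSeries.abscissaOfAbsConv (LSeries.logMul^[k] (cf x.2 w)) < (pt r t).re := by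
    rw [LSeries.absicssaOfAbsConv_logPowMul]
    refine lt_of_le_of_lt (abscissa_le x.2 hw) ?_
    rw [pt_re]
    exact_mod_cast (by linarith : 1 + δ < 1 + r)
  have hcs : Summable c := (LSeriesSummable_of_abscissaOfAbsConv_lt_re hab).mul_left κ
  have hsum : κ * LSeries (LSeries.logMul^[k] (cf x.2 w)) (pt r t) = ∑' n, c n := by
    rw [hc, tsum_mul_left]
    rfl
  have hP : Pk Z A r k w x t = ∑ n ∈ T, c n := by
    unfold Pk
    refine sum_congr rfl fun p hp => ?_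
    rw [hT, mem_filter, mem_Ioc] at hp
    have hp1 : 1 ≤ p := hp.2.one_lt.le
    rw [hc]
    simp only
    rw [hκ, term_eq x.2 r t k hp1, vonMangoldt_apply_prime hp.2]
  have hsplit : κ * LSeries (LSeries.logMul^[k] (cf x.2 w)) (pt r t) - Pk Z A r k w x t =
      ∑' n, (if n ∈ T then 0 else c n) := by
    rw [hsum, hP]
    have h1 : Summable fun n => if n ∈ T then c n else 0 :=
      summable_of_ne_finset_zero (s := T) fun n hn => if_neg hn
    have h2 : ∑' n, (if n ∈ T then c n else 0) = ∑ n ∈ T, c n := by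
      rw [tsum_eq_sum (s := T) fun n hn => if_neg hn]
      exact sum_congr rfl fun n hn => if_pos hn
    rw [← h2, ← hcs.tsum_sub h1]
    refine tsum_congr fun n => ?_
    split_ifs <;> simp
  rw [hsplit]
  have hmaj : Summable fun n : ℕ => (15 / D) ^ k * 2 * (Λ n * (n : ℝ) ^ (-(1 + (r - δ)))) +
      (144 / v) ^ k * 2 * (Λ n * (n : ℝ) ^ (-(1 + (r / 2 - δ)))) +
      (if n ∈ T' then 2 * Real.exp (A / 100) * (Λ n / n) else 0) := (hs1.add hs2).add hs3
  have hle : ∀ n : ℕ, ‖(if n ∈ T then 0 else c n)‖ ≤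
      (15 / D) ^ k * 2 * (Λ n * (n : ℝ) ^ (-(1 + (r - δ)))) +
      (144 / v) ^ k * 2 * (Λ n * (n : ℝ) ^ (-(1 + (r / 2 - δ)))) +
      (if n ∈ T' then 2 * Real.exp (A / 100) * (Λ n / n) else 0) := by
    intro n
    split_ifs with h1 h2 h2
    · rw [norm_zero]
      have hΛ : 0 ≤ Λ n := vonMangoldt_nonneg
      positivity
    · rw [norm_zero]
      have hΛ : 0 ≤ Λ n := vonMangoldt_nonneg
      positivity
    · have := hbound n h1
      rwa [if_pos h2] at this
    · have := hbound n h1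
      rwa [if_neg h2] at this
  refine (tsum_of_norm_bounded hmaj.hasSum hle).trans ?_
  rw [(hs1.add hs2).tsum_add hs3, hs1.tsum_add hs2, tsum_mul_left, tsum_mul_left]
  have t1 := tsum_lam_le hb1 (by linarith)
  have t2 := tsum_lam_le hb2 (by linarith)
  have t3 : ∑' n : ℕ, (if n ∈ T' then 2 * Real.exp (A / 100) * (Λ n / n) else 0) ≤
      2 * Real.exp (A / 100) * (Cpp * ((Z : ℝ) ^ 5) ^ (-(1 / 4) : ℝ)) := by
    rw [tsum_eq_sum (s := T') fun n hn => if_neg hn]
    have h1 : ∑ n ∈ T', (if n ∈ T' then 2 * Real.exp (A / 100) * (Λ n / n) else 0) =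
        2 * Real.exp (A / 100) * ∑ n ∈ T', Λ n / n := by
      rw [mul_sum]
      exact sum_congr rfl fun n hn => if_pos hn
    rw [h1]
    have h2 := hpp (Z ^ 5) (Z ^ A) (Nat.one_le_pow _ _ (by omega))
    push_cast at h2
    exact mul_le_mul_of_nonneg_left h2 (by positivity)
  have t4 : (15 / D) ^ k * 2 * ∑' n : ℕ, Λ n * (n : ℝ) ^ (-(1 + (r - δ))) ≤
      (15 / D) ^ k * (2 * (CL / (r - δ))) := by
    rw [← mul_assoc]
    exact mul_le_mul_of_nonneg_left t1 (by positivity)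
  have t5 : (144 / v) ^ k * 2 * ∑' n : ℕ, Λ n * (n : ℝ) ^ (-(1 + (r / 2 - δ))) ≤
      (144 / v) ^ k * (2 * (CL / (r / 2 - δ))) := by
    rw [← mul_assoc]
    exact mul_le_mul_of_nonneg_left t2 (by positivity)
  linarith

end Pool.Agent.PS.ADLc
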