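import Mathlib
import Pool.Agent.Work.BV.Interface
import Pool.Agent.Work.MP_b0c12c_nt_helper70.LocalLemma
import Pool.Agent.Work.Circle.Main

/-!
# Power saving exceptional set in the primorial Goldbach problem: definitions

`Ch`        : pairs (modulus, Dirichlet character)
`Fam Q`     : primitive characters of modulus at most `Q`
`Le χ`      : the entire function `L(s, χ)` (times `s - 1` if `χ` is principal)
`PP L`      : product of `s - ρ` over the list `L` (from `LocalLemma`)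
`IsZL`      : `L` lists with multiplicity the zeros of `f` in `K`
`zb x Z`    : zeros of `Le x.2` in the disc of radius `Z + 10` (chosen list)
`zl x Z`    : those with `9/10 ≤ re` and `|im| ≤ Z`
`Exc Z y δ` : `1 - δ` is a real zero of the real primitive character `y`
`zx Z y δ x`: `zl x Z`, with one copy of `1 - δ` removed if `x = y`
-/

set_option autoImplicit false

namespace Pool.Agent.PS

open Finset ArithmeticFunction Metric
open Pool.Agent.BV (PC)
open Pool.Agent.Circle (e)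
open Pool.Agent.Work.MP_b0c12c_nt_helper70 (PP)
open scoped Classical ArithmeticFunction.Moebius

/-- Pairs (modulus, Dirichlet character). -/
abbrev Ch := Σ q : ℕ, DirichletCharacter ℂ q

/-- The primitive characters of modulus at most `Q`. -/
noncomputable def Fam (Q : ℕ) : Finset Ch := (Ioc 0 Q).sigma fun r => PC r

/-- `L(s, χ)`, multiplied by `s - 1` when `χ` is principal: an entire function. -/
noncomputable def Le {q : ℕ} (χ : DirichletCharacter ℂ q) : ℂ → ℂ :=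
  if h : q = 0 then fun _ => 1 else
    haveI : NeZero q := ⟨h⟩
    if χ = 1 then DirichletCharacter.LFunctionTrivChar₁ q else χ.LFunction

theorem Le_of_ne {q : ℕ} [NeZero q] {χ : DirichletCharacter ℂ q} (h : χ ≠ 1) :
    Le χ = χ.LFunction := by
  unfold Le
  rw [dif_neg (NeZero.ne q), if_neg h]

theorem Le_one (q : ℕ) [NeZero q] :
    Le (1 : DirichletCharacter ℂ q) = DirichletCharacter.LFunctionTrivChar₁ q := by
  unfold Le
  rw [dif_neg (NeZero.ne q), if_pos rfl]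

/-- `L` lists (with multiplicity) the zeros of `f` in `K`, and `g` is the remaining factor. -/
structure IsZL (f : ℂ → ℂ) (K : Set ℂ) (L : List ℂ) (g : ℂ → ℂ) : Prop where
  diff : Differentiable ℂ g
  fac : ∀ s, f s = PP L s * g s
  ne : ∀ s ∈ K, g s ≠ 0
  mem : ∀ ρ ∈ L, ρ ∈ K

/-- The zeros of `Le x.2` in the closed disc of radius `Z + 10` about `0`, with multiplicity. -/
noncomputable def zb (x : Ch) (Z : ℕ) : List ℂ :=
  if h : ∃ p : List ℂ × (ℂ → ℂ), IsZL (Le x.2) (closedBall 0 (Z + 10)) p.1 p.2 then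
    h.choose.1 else []

/-- The remaining factor. -/
noncomputable def gb (x : Ch) (Z : ℕ) : ℂ → ℂ :=
  if h : ∃ p : List ℂ × (ℂ → ℂ), IsZL (Le x.2) (closedBall 0 (Z + 10)) p.1 p.2 then
    h.choose.2 else fun _ => 1

/-- The zeros with `9/10 ≤ re` and `|im| ≤ Z`, with multiplicity. -/
noncomputable def zl (x : Ch) (Z : ℕ) : List ℂ :=
  (zb x Z).filter fun ρ => 9 / 10 ≤ ρ.re ∧ |ρ.im| ≤ Z

/-- The number of elements of `L` with real part at least `σ`. -/
noncomputable def cnt (L : List ℂ) (σ : ℝ) : ℕ := (L.filter fun ρ => σ ≤ ρ.re).length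

/-- `y` is a real primitive character with the real zero `1 - δ`. -/
structure Exc (Z : ℕ) (y : Ch) (δ : ℝ) : Prop where
  mem : y ∈ Fam Z
  sq : y.2 ^ 2 = 1
  ne : y.2 ≠ 1
  pos : 0 < δ
  zero : Le y.2 ((1 - δ : ℝ) : ℂ) = 0

/-- The list `zl x Z`, where one copy of the exceptional zero `1 - δ` of `y` is removed. -/
noncomputable def zx (Z : ℕ) (y : Ch) (δ : ℝ) (x : Ch) : List ℂ :=
  if x = y then (zl x Z).erase ((1 - δ : ℝ) : ℂ) else zl x Z

/-- `∑ Y ^ (re ρ - 1)` over the list `L`. -/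
noncomputable def zs (L : List ℂ) (Y : ℝ) : ℝ := (L.map fun ρ => Y ^ (ρ.re - 1)).sum

/-- `log n` at the primes, `0` elsewhere. -/
noncomputable def th (n : ℕ) : ℝ := if n.Prime then Real.log n else 0

/-- Root mean square over the `2 H + 1` points `i / R`, `|i| ≤ H`. -/
noncomputable def Wn (R H : ℕ) (I : Finset ℕ) (c : ℕ → ℂ) : ℝ :=
  √((1 / (R : ℝ)) * ∑ i ∈ Icc (-(H : ℤ)) H, ‖∑ n ∈ I, c n * e (n * ((i : ℝ) / R))‖ ^ 2)

/-- Density of the main term of `θ(n) χ(n)`; `E` is the exceptional zero, if there is one. -/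
noncomputable def mt (E : Option (Ch × ℝ)) (x : Ch) (n : ℕ) : ℂ :=
  if x.2 = 1 then 1 else
    match E with
    | none => 0
    | some (y, δ) => if x = y then -((n : ℝ) ^ (-δ) : ℝ) else 0

/-- The saving factor `λ`. -/
noncomputable def lam (E : Option (Ch × ℝ)) (X : ℝ) : ℝ :=
  match E with
  | none => 1
  | some (_, δ) => min 1 (δ * Real.log X)

/-- The Gauss sum `∑_{a mod q} χ(a) e(a/q)`. -/
noncomputable def tau {q : ℕ} (χ : DirichletCharacter ℂ q) : ℂ :=
  ∑ a ∈ range q, χ (a : ZMod q) * e ((a : ℝ) / q)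

/-- `∑_{a mod q} ψ(a) e(-a m/q)`. -/
noncomputable def cm {q : ℕ} (ψ : DirichletCharacter ℂ q) (m : ℕ) : ℂ :=
  ∑ a ∈ range q, ψ (a : ZMod q) * e (-((a : ℝ) * m / q))

/-- The coefficient of the pair `χ, χ'` modulo `q` on the major arcs. -/
noncomputable def Kq {q : ℕ} (χ χ' : DirichletCharacter ℂ q) (m : ℕ) : ℂ :=
  (1 / (q.totient : ℂ) ^ 2) * tau χ⁻¹ * tau χ'⁻¹ * cm (χ * χ') m

/-- The primitive character inducing `χ`, as an element of `Ch`. -/
noncomputable def pr {q : ℕ} (χ : DirichletCharacter ℂ q) : Ch := ⟨χ.conductor, χ.primitiveCharacter⟩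

/-- `q / gcd(q, m)`. -/
def qm (q m : ℕ) : ℕ := q / q.gcd m

/-- The twisted exponential sum at `i / R`. -/
noncomputable def Sx (R : ℕ) (I : Finset ℕ) (f : ℕ → ℂ) (x : Ch) (i : ℤ) : ℂ :=
  ∑ n ∈ I, f n * x.2 (n : ZMod x.1) * e (n * ((i : ℝ) / R))

/-- The twisted integral over one major arc. -/
noncomputable def Tx (R H : ℕ) (I₁ I₂ : Finset ℕ) (f₁ f₂ : ℕ → ℂ) (m : ℕ) (x y : Ch) : ℂ :=
  (1 / (R : ℂ)) * ∑ i ∈ Icc (-(H : ℤ)) H,
    Sx R I₁ f₁ x i * Sx R I₂ f₂ y i * e (-(m * ((i : ℝ) / R)))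

/-- The contribution of the major arcs to the convolution at `m`. -/
noncomputable def Maj (P R H : ℕ) (I₁ I₂ : Finset ℕ) (f₁ f₂ : ℕ → ℂ) (m : ℕ) : ℂ :=
  (1 / (R : ℂ)) * ∑ q ∈ Ioc 0 P, ∑ a ∈ (range q).filter (fun a => a.Coprime q),
    ∑ i ∈ Icc (-(H : ℤ)) H,
      (∑ n ∈ I₁, f₁ n * e (n * ((a : ℝ) / q + (i : ℝ) / R))) *
      (∑ n ∈ I₂, f₂ n * e (n * ((a : ℝ) / q + (i : ℝ) / R))) *
      e (-(m * ((a : ℝ) / q + (i : ℝ) / R)))

/-- The convolution at `m`. -/
noncomputable def cv (I₁ I₂ : Finset ℕ) (f₁ f₂ : ℕ → ℂ) (m : ℕ) : ℂ :=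
  ∑ a ∈ I₁, ∑ b ∈ I₂, if a + b = m then f₁ a * f₂ b else 0

end Pool.Agent.PS
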