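import Pool.Agent.Work.PS.LINW1

/-!
# LINW, part 2: exponents with `r ∣ m - ∑ 2 ^ v i`, and one window
-/

set_option autoImplicit false

namespace Pool.Agent.PS

open Finset ArithmeticFunction Metric
open Pool.Agent.Circle (e e_add e_zero norm_e full_sum parseval)
open scoped Classical

namespace Linw

theorem mem_box {K L : ℕ} {v : Fin K → ℕ} : v ∈ box K L ↔ ∀ i, 1 ≤ v i ∧ v i ≤ L := by
  unfold box
  simp only [Fintype.mem_piFinset, mem_Icc]

theorem sum_box_le {K L : ℕ} {v : Fin K → ℕ} (hv : v ∈ box K L) : ∑ i, 2 ^ v i ≤ K * 2 ^ L := by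
  rw [mem_box] at hv
  calc ∑ i, 2 ^ v i ≤ ∑ _i : Fin K, 2 ^ L :=
        sum_le_sum fun i _ => Nat.pow_le_pow_right (by norm_num) (hv i).2
    _ = K * 2 ^ L := by simp

theorem even_box {K L : ℕ} {v : Fin K → ℕ} (hv : v ∈ box K L) : Even (∑ i, 2 ^ v i) := by
  rw [mem_box] at hv
  refine Finset.even_sum _ fun i _ => ?_
  exact (Nat.even_pow.2 ⟨even_two, by have := (hv i).1; omega⟩)

theorem ord_box (hORD : Stmt_ORD) {r L K m : ℕ} (hr1 : 1 < r) (hodd : Odd r)
    (hlog : 4 ≤ Real.logb 2 r) (hL : 4 ≤ L) (h : ∀ v ∈ box (K + 1) L, ∑ i, 2 ^ v i ≤ m) :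
    (((box (K + 1) L).filter fun v => r ∣ m - ∑ i, 2 ^ v i).card : ℝ) ≤ (L : ℝ) ^ (K + 1) / 2 := by
  have hLr : (4 : ℝ) ≤ L := by exact_mod_cast hL
  have hfib : ∀ w ∈ box K L,
      ((((box (K + 1) L).filter fun v => r ∣ m - ∑ i, 2 ^ v i).filter
        fun v => Fin.tail v = w).card : ℝ) ≤ L / 2 := by
    intro w _
    set b : ℤ := (m : ℤ) - ∑ i, 2 ^ w i with hb
    have h1 : (((box (K + 1) L).filter fun v => r ∣ m - ∑ i, 2 ^ v i).filter
        fun v => Fin.tail v = w).card ≤ ((Icc 1 L).filter fun a => (r : ℤ) ∣ b - 2 ^ a).card := by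
      refine card_le_card_of_injOn (fun v => v 0) ?_ ?_
      · intro v hv
        rw [mem_coe, mem_filter, mem_filter] at hv
        obtain ⟨⟨hv1, hv2⟩, hv3⟩ := hv
        have hle := h v hv1
        rw [mem_coe, mem_filter, mem_Icc]
        refine ⟨(mem_box.1 hv1) 0, ?_⟩
        have h2 : ((m - ∑ i, 2 ^ v i : ℕ) : ℤ) = b - 2 ^ v 0 := by
          rw [Nat.cast_sub hle, Fin.sum_univ_succ, hb]
          have h3 : ∀ i : Fin K, v i.succ = w i := fun i => by rw [← hv3]; rfl
          simp only [h3]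
          push_cast
          ring
        rw [← h2]
        exact_mod_cast hv2
      · intro v hv v' hv' hvv
        rw [mem_coe, mem_filter] at hv hv'
        simp only at hvv
        rw [← Fin.cons_self_tail v, ← Fin.cons_self_tail v', hv.2, hv'.2, hvv]
    have h2 := hORD r L hr1 hodd b
    have h3 : (L : ℝ) / Real.logb 2 r ≤ L / 4 :=
      div_le_div_of_nonneg_left (by linarith) (by norm_num) hlog
    have h4 : ((((box (K + 1) L).filter fun v => r ∣ m - ∑ i, 2 ^ v i).filter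
        fun v => Fin.tail v = w).card : ℝ) ≤
        (((Icc 1 L).filter fun a => (r : ℤ) ∣ b - 2 ^ a).card : ℝ) := by exact_mod_cast h1
    linarith
  have hmaps : ∀ v ∈ (box (K + 1) L).filter (fun v => r ∣ m - ∑ i, 2 ^ v i),
      Fin.tail v ∈ box K L := by
    intro v hv
    rw [mem_filter] at hv
    rw [mem_box]
    intro i
    exact (mem_box.1 hv.1) i.succ
  rw [card_eq_sum_card_fiberwise hmaps]
  push_cast
  calc ∑ w ∈ box K L, ((((box (K + 1) L).filter fun v => r ∣ m - ∑ i, 2 ^ v i).filter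
        fun v => Fin.tail v = w).card : ℝ) ≤ ∑ w ∈ box K L, (L : ℝ) / 2 := sum_le_sum hfib
    _ = (L : ℝ) ^ (K + 1) / 2 := by
        rw [sum_const, card_box, nsmul_eq_mul]
        push_cast
        ring

/-- A positive sum gives a prime pair. -/
theorem exists_of_pos {X m : ℕ} (h : 0 < ∑ a ∈ Ioc (X / 4) (X / 2), th a * th (m - a)) :
    ∃ a ∈ Ioc (X / 4) (X / 2), a.Prime ∧ (m - a).Prime := by
  by_contra hcon
  push Not at hcon
  have : ∑ a ∈ Ioc (X / 4) (X / 2), th a * th (m - a) = 0 := by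
    refine sum_eq_zero fun a ha => ?_
    by_cases hp : a.Prime
    · have h2 := hcon a ha hp
      have : th (m - a) = 0 := by unfold th; rw [if_neg h2]
      rw [this, mul_zero]
    · have : th a = 0 := by unfold th; rw [if_neg hp]
      rw [this, zero_mul]
  linarith

theorem norm_th_sum_le (A B : ℕ) (L : ℝ) (hL : ∀ n ∈ Ioc A B, th n ≤ L) (x : ℝ) :
    ‖∑ n ∈ Ioc A B, (th n : ℂ) * e (n * x)‖ ≤ ((B - A : ℕ) : ℝ) * L := by
  refine (norm_sum_le _ _).trans ?_
  have h1 : ∀ n ∈ Ioc A B, ‖(th n : ℂ) * e (n * x)‖ ≤ L := by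
    intro n hn
    rw [norm_mul, norm_e, mul_one, Complex.norm_real, Real.norm_eq_abs, abs_of_nonneg (th_nonneg n)]
    exact hL n hn
  refine (sum_le_sum h1).trans ?_
  rw [sum_const, Nat.card_Ioc, nsmul_eq_mul]

end Linw

end Pool.Agent.PS
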