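import Pool.Agent.Work.PS.InterfaceB
import Mathlib.NumberTheory.Harmonic.Bounds
import Mathlib.NumberTheory.EulerProduct.Basic

/-!
# Block ROM: Romanoff's lemma
-/

set_option autoImplicit false

namespace Pool.Agent.PS.ROM

open Finset

lemma dvd_iff (d j : ℕ) (_ : 1 ≤ j) : d ∣ 2 ^ j - 1 ↔ orderOf (2 : ZMod d) ∣ j := by
  rw [orderOf_dvd_iff_pow_eq_one, ← ZMod.natCast_eq_zero_iff, Nat.cast_sub Nat.one_le_two_pow,
    sub_eq_zero]
  push_cast
  rfl

/-- reciprocals of distinct positive integers -/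
lemma sum_inv_le (G : Finset ℕ) (M : ℕ) (hM : 0 < M) (hG : ∀ k ∈ G, 0 < k) (hc : #G ≤ M) :
    ∑ k ∈ G, (1 : ℝ) / k ≤ 2 + Real.log M := by
  have h1 : ∑ k ∈ G.filter (fun k => k ≤ M), (1 : ℝ) / k ≤ 1 + Real.log M := by
    calc ∑ k ∈ G.filter (fun k => k ≤ M), (1 : ℝ) / k ≤ ∑ k ∈ Icc 1 M, (1 : ℝ) / k := by
          refine Finset.sum_le_sum_of_subset_of_nonneg ?_ (fun _ _ _ => by positivity)
          intro k hk
          rw [mem_filter] at hk
          rw [mem_Icc]
          exact ⟨hG k hk.1, hk.2⟩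
      _ = ((harmonic M : ℚ) : ℝ) := by
          rw [harmonic_eq_sum_Icc]
          push_cast
          exact Finset.sum_congr rfl fun _ _ => one_div _
      _ ≤ 1 + Real.log M := harmonic_le_one_add_log M
  have h2 : ∑ k ∈ G.filter (fun k => ¬ k ≤ M), (1 : ℝ) / k ≤ 1 := by
    have hM' : (0 : ℝ) < M := by exact_mod_cast hM
    calc ∑ k ∈ G.filter (fun k => ¬ k ≤ M), (1 : ℝ) / k
        ≤ ∑ k ∈ G.filter (fun k => ¬ k ≤ M), (1 : ℝ) / M := by
          refine Finset.sum_le_sum fun k hk => ?_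
          rw [mem_filter, not_le] at hk
          exact one_div_le_one_div_of_le hM' (by exact_mod_cast hk.2.le)
      _ = #(G.filter (fun k => ¬ k ≤ M)) * (1 / (M : ℝ)) := by
          rw [Finset.sum_const, nsmul_eq_mul]
      _ ≤ (M : ℝ) * (1 / (M : ℝ)) := by
          refine mul_le_mul_of_nonneg_right ?_ (by positivity)
          exact_mod_cast (card_filter_le _ _).trans hc
      _ = 1 := by field_simp
  rw [← Finset.sum_filter_add_sum_filter_not G (fun k => k ≤ M)]
  linarith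

/-- product over odd primes -/
lemma prod_le (F : Finset ℕ) (M : ℕ) (hM : 0 < M) (hF : ∀ p ∈ F, p.Prime ∧ p ≠ 2) (hc : #F ≤ M) :
    ∏ p ∈ F, (1 - (p : ℝ)⁻¹)⁻¹ ≤ 3 / 2 * Real.exp (1 / 3 * (2 + Real.log M)) := by
  have h5 : ∀ p ∈ F.filter (fun p => p ≠ 3), 5 ≤ p ∧ (p % 6 = 1 ∨ p % 6 = 5) := by
    intro p hp
    rw [mem_filter] at hp
    obtain ⟨hp1, hp2⟩ := hF p hp.1
    have h2 : ¬ 2 ∣ p := fun h => hp2 ((Nat.prime_dvd_prime_iff_eq Nat.prime_two hp1).1 h).symm
    have h3 : ¬ 3 ∣ p := fun h => hp.2 ((Nat.prime_dvd_prime_iff_eq Nat.prime_three hp1).1 h).symm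
    have h1 := hp1.one_lt
    omega
  have hpos : ∀ p ∈ F, 0 ≤ (1 - (p : ℝ)⁻¹)⁻¹ := by
    intro p hp
    have h1 : (1 : ℝ) < p := by exact_mod_cast (hF p hp).1.one_lt
    have : (p : ℝ)⁻¹ < 1 := inv_lt_one_of_one_lt₀ h1
    exact inv_nonneg.2 (by linarith)
  have hA : ∏ p ∈ F.filter (fun p => ¬ p ≠ 3), (1 - (p : ℝ)⁻¹)⁻¹ ≤ 3 / 2 := by
    by_cases h : 3 ∈ F
    · have : F.filter (fun p => ¬ p ≠ 3) = {3} := by
        ext x
        simp only [mem_filter, mem_singleton, not_not]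
        constructor
        · exact fun hx => hx.2
        · rintro rfl
          exact ⟨h, rfl⟩
      rw [this, prod_singleton]
      norm_num
    · have : F.filter (fun p => ¬ p ≠ 3) = ∅ := by
        ext x
        simp only [mem_filter, not_not, notMem_empty, iff_false, not_and]
        rintro hx rfl
        exact h hx
      rw [this, prod_empty]
      norm_num
  have hB : ∏ p ∈ F.filter (fun p => p ≠ 3), (1 - (p : ℝ)⁻¹)⁻¹
      ≤ Real.exp (1 / 3 * (2 + Real.log M)) := by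
    calc ∏ p ∈ F.filter (fun p => p ≠ 3), (1 - (p : ℝ)⁻¹)⁻¹
        ≤ ∏ p ∈ F.filter (fun p => p ≠ 3), Real.exp (1 / 3 * (1 / ((p / 3 : ℕ) : ℝ))) := by
          refine Finset.prod_le_prod (fun p hp => hpos p (mem_of_mem_filter p hp)) fun p hp => ?_
          obtain ⟨h1, h2⟩ := h5 p hp
          have hp1 : (5 : ℝ) ≤ p := by exact_mod_cast h1
          have hk : 1 ≤ p / 3 := by omega
          have hk' : (1 : ℝ) ≤ ((p / 3 : ℕ) : ℝ) := by exact_mod_cast hk
          have h3 : 3 * (p / 3) + 1 ≤ p := by omega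
          have h3' : 3 * ((p / 3 : ℕ) : ℝ) + 1 ≤ p := by exact_mod_cast h3
          have e1 : (1 - (p : ℝ)⁻¹)⁻¹ = 1 / ((p : ℝ) - 1) + 1 := by
            have : (p : ℝ) - 1 ≠ 0 := by linarith
            have : (p : ℝ) ≠ 0 := by linarith
            field_simp
            ring
          rw [e1]
          refine le_trans ?_ (Real.add_one_le_exp _)
          have : 1 / ((p : ℝ) - 1) ≤ 1 / 3 * (1 / ((p / 3 : ℕ) : ℝ)) := by
            rw [one_div_mul_one_div]
            exact one_div_le_one_div_of_le (by linarith) (by linarith)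
          linarith
      _ = Real.exp (1 / 3 * ∑ p ∈ F.filter (fun p => p ≠ 3), 1 / ((p / 3 : ℕ) : ℝ)) := by
          rw [← Real.exp_sum, ← Finset.mul_sum]
      _ = Real.exp (1 / 3 * ∑ k ∈ (F.filter (fun p => p ≠ 3)).image (fun p : ℕ => (p / 3 : ℕ)),
            1 / ((k : ℕ) : ℝ)) := by
          have hinj : Set.InjOn (fun p : ℕ => p / 3) (F.filter (fun p => p ≠ 3)) := by
            intro p hp q hq h
            have h1 := h5 p hp
            have h2 := h5 q hq
            simp only at h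
            omega
          rw [Finset.sum_image (f := fun k : ℕ => 1 / (k : ℝ)) hinj]
      _ ≤ Real.exp (1 / 3 * (2 + Real.log M)) := by
          refine Real.exp_le_exp.2 (mul_le_mul_of_nonneg_left ?_ (by norm_num))
          refine sum_inv_le _ M hM ?_ ?_
          · intro k hk
            rw [mem_image] at hk
            obtain ⟨p, hp, rfl⟩ := hk
            have := (h5 p hp).1
            omega
          · exact card_image_le.trans ((card_filter_le _ _).trans hc)
  rw [← Finset.prod_filter_mul_prod_filter_not F (fun p => p ≠ 3), mul_comm]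
  refine mul_le_mul hA hB ?_ (by norm_num)
  exact Finset.prod_nonneg fun p hp => hpos p (mem_of_mem_filter p hp)

/-- the product of the `2 ^ j - 1` -/
def NN (t : ℕ) : ℕ := ∏ j ∈ Icc 1 t, (2 ^ j - 1)

lemma two_pow_sub_pos (j : ℕ) (hj : 1 ≤ j) : 0 < 2 ^ j - 1 := by
  have : 2 ^ 1 ≤ 2 ^ j := Nat.pow_le_pow_right (by norm_num) hj
  omega

lemma NN_pos (t : ℕ) : 0 < NN t :=
  Finset.prod_pos fun j hj => two_pow_sub_pos j (mem_Icc.1 hj).1

lemma NN_odd (t : ℕ) : ¬ 2 ∣ NN t := by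
  intro h
  rw [NN, (Nat.prime_two.prime).dvd_finsetProd_iff] at h
  obtain ⟨j, hj, hd⟩ := h
  have h1 := (mem_Icc.1 hj).1
  have h2 : 2 ∣ 2 ^ j := dvd_pow_self 2 (by omega)
  have := two_pow_sub_pos j h1
  omega

lemma NN_le (t : ℕ) : NN t ≤ 2 ^ (t * t) := by
  calc NN t ≤ ∏ j ∈ Icc 1 t, 2 ^ j := Finset.prod_le_prod' fun j _ => Nat.sub_le _ _
    _ = 2 ^ (∑ j ∈ Icc 1 t, j) := by rw [Finset.prod_pow_eq_pow_sum]
    _ ≤ 2 ^ (t * t) := by
        refine Nat.pow_le_pow_right (by norm_num) ?_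
        calc ∑ j ∈ Icc 1 t, j ≤ ∑ j ∈ Icc 1 t, t := Finset.sum_le_sum fun j hj => (mem_Icc.1 hj).2
          _ = t * t := by simp

lemma card_le (t : ℕ) : #(NN t).primeFactors ≤ t * t := by
  have h1 : 2 ^ #(NN t).primeFactors ≤ NN t := by
    calc 2 ^ #(NN t).primeFactors = ∏ p ∈ (NN t).primeFactors, 2 := by rw [prod_const]
      _ ≤ ∏ p ∈ (NN t).primeFactors, p :=
          Finset.prod_le_prod' fun p hp => (Nat.prime_of_mem_primeFactors hp).two_le
      _ ≤ NN t := Nat.le_of_dvd (NN_pos t) (Nat.prod_primeFactors_dvd _)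
  exact (Nat.pow_le_pow_iff_right (by norm_num)).1 (h1.trans (NN_le t))

/-- the reciprocals as a completely multiplicative function -/
noncomputable def finv : ℕ →* ℝ where
  toFun n := (n : ℝ)⁻¹
  map_one' := by simp
  map_mul' m n := by simp [mul_comm]

lemma S_le (A : Finset ℕ) (t : ℕ) (ht : 0 < t)
    (hA : ∀ d ∈ A, 0 < d ∧ 0 < orderOf (2 : ZMod d) ∧ orderOf (2 : ZMod d) ≤ t) :
    ∑ d ∈ A, (1 : ℝ) / d ≤ 3 / 2 * Real.exp (1 / 3 * (2 + Real.log (t * t : ℕ))) := by
  have hmem : ∀ d ∈ A, d ∈ Nat.factoredNumbers (NN t).primeFactors := by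
    intro d hd
    obtain ⟨h1, h2, h3⟩ := hA d hd
    have hdv : d ∣ NN t := ((dvd_iff d _ h2).2 dvd_rfl).trans
      (Finset.dvd_prod_of_mem (fun j => 2 ^ j - 1) (mem_Icc.2 ⟨h2, h3⟩))
    rw [Nat.mem_factoredNumbers']
    intro p hp hpd
    exact Nat.mem_primeFactors.2 ⟨hp, hpd.trans hdv, (NN_pos t).ne'⟩
  have key := EulerProduct.summable_and_hasSum_factoredNumbers_prod_filter_prime_geometric
    (f := finv) (fun {p} hp => by
      have h1 : (1 : ℝ) < p := by exact_mod_cast hp.one_lt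
      have : ‖finv p‖ = (p : ℝ)⁻¹ := by
        show ‖(p : ℝ)⁻¹‖ = _
        rw [Real.norm_of_nonneg (by positivity)]
      rw [this]
      exact inv_lt_one_of_one_lt₀ h1) (NN t).primeFactors
  have h1 : ∑ d ∈ A, (1 : ℝ) / d ≤ ∏ p ∈ (NN t).primeFactors with p.Prime, (1 - finv p)⁻¹ := by
    let emb : {x // x ∈ A} ↪ Nat.factoredNumbers (NN t).primeFactors :=
      ⟨fun d => ⟨d.1, hmem d.1 d.2⟩, fun a b h =>
        Subtype.ext (congrArg (fun z : Nat.factoredNumbers (NN t).primeFactors => (z : ℕ)) h)⟩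
    have h2 : ∑ d ∈ A, (1 : ℝ) / d = ∑ x ∈ A.attach.map emb, finv (x : ℕ) := by
      rw [Finset.sum_map, ← Finset.sum_attach]
      refine Finset.sum_congr rfl fun d _ => ?_
      show _ = ((d.1 : ℕ) : ℝ)⁻¹
      rw [one_div]
    rw [h2]
    refine sum_le_hasSum _ (fun x _ => ?_) key.2
    show 0 ≤ ((x : ℕ) : ℝ)⁻¹
    positivity
  refine h1.trans ?_
  have h4 : (NN t).primeFactors.filter (fun p => p.Prime) = (NN t).primeFactors :=
    Finset.filter_true_of_mem fun p hp => Nat.prime_of_mem_primeFactors hp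
  rw [h4]
  have h5 : ∀ p : ℕ, finv p = (p : ℝ)⁻¹ := fun _ => rfl
  simp only [h5]
  refine prod_le _ _ (Nat.mul_pos ht ht) ?_ (card_le t)
  intro p hp
  refine ⟨Nat.prime_of_mem_primeFactors hp, ?_⟩
  rintro rfl
  exact NN_odd t (Nat.dvd_of_mem_primeFactors hp)

lemma exp_eq (i : ℕ) : 3 / 2 * Real.exp (1 / 3 * (2 + Real.log ((8 ^ (i + 1) * 8 ^ (i + 1) : ℕ))))
    = 6 * Real.exp (2 / 3) * 4 ^ i := by
  have h1 : Real.log ((8 ^ (i + 1) * 8 ^ (i + 1) : ℕ)) = 3 * Real.log (4 ^ (i + 1)) := by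
    push_cast
    rw [← pow_add, Real.log_pow, Real.log_pow]
    have h8 : Real.log 8 = 3 * Real.log 2 := by
      rw [show (8 : ℝ) = 2 ^ 3 by norm_num, Real.log_pow]
      norm_num
    have h4 : Real.log 4 = 2 * Real.log 2 := by
      rw [show (4 : ℝ) = 2 ^ 2 by norm_num, Real.log_pow]
      norm_num
    rw [h8, h4]
    push_cast
    ring
  rw [h1, show 1 / 3 * (2 + 3 * Real.log (4 ^ (i + 1))) = 2 / 3 + Real.log (4 ^ (i + 1)) by ring,
    Real.exp_add, Real.exp_log (by positivity), pow_succ]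
  ring

lemma main_sum (L : ℕ) (D : Finset ℕ)
    (hD : ∀ d ∈ D, 0 < d ∧ 0 < orderOf (2 : ZMod d) ∧ orderOf (2 : ZMod d) ≤ L) :
    ∑ d ∈ D, (1 : ℝ) / d * (1 / (orderOf (2 : ZMod d) : ℝ)) ≤ 12 * Real.exp (2 / 3) := by
  have hmaps : ∀ d ∈ D, Nat.log 8 (orderOf (2 : ZMod d)) ∈ range (L + 1) := by
    intro d hd
    rw [mem_range, Nat.lt_succ_iff]
    exact (Nat.log_le_self 8 _).trans (hD d hd).2.2
  rw [← Finset.sum_fiberwise_of_maps_to hmaps]
  calc ∑ i ∈ range (L + 1), ∑ d ∈ D with Nat.log 8 (orderOf (2 : ZMod d)) = i,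
        (1 : ℝ) / d * (1 / (orderOf (2 : ZMod d) : ℝ))
      ≤ ∑ i ∈ range (L + 1), 6 * Real.exp (2 / 3) * (1 / 2) ^ i := by
        refine Finset.sum_le_sum fun i _ => ?_
        calc ∑ d ∈ D with Nat.log 8 (orderOf (2 : ZMod d)) = i,
              (1 : ℝ) / d * (1 / (orderOf (2 : ZMod d) : ℝ))
            ≤ ∑ d ∈ D with Nat.log 8 (orderOf (2 : ZMod d)) = i, (1 : ℝ) / d * (1 / 8 ^ i) := by
              refine Finset.sum_le_sum fun d hd => ?_
              rw [mem_filter] at hd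
              refine mul_le_mul_of_nonneg_left ?_ (by positivity)
              refine one_div_le_one_div_of_le (by positivity) ?_
              have := Nat.pow_log_le_self 8 (hD d hd.1).2.1.ne'
              rw [hd.2] at this
              exact_mod_cast this
          _ = (∑ d ∈ D with Nat.log 8 (orderOf (2 : ZMod d)) = i, (1 : ℝ) / d) * (1 / 8 ^ i) := by
              rw [Finset.sum_mul]
          _ ≤ (6 * Real.exp (2 / 3) * 4 ^ i) * (1 / 8 ^ i) := by
              refine mul_le_mul_of_nonneg_right ?_ (by positivity)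
              rw [← exp_eq]
              refine S_le _ (8 ^ (i + 1)) (by positivity) fun d hd => ?_
              rw [mem_filter] at hd
              refine ⟨(hD d hd.1).1, (hD d hd.1).2.1, ?_⟩
              have := Nat.lt_pow_succ_log_self (b := 8) (by norm_num) (orderOf (2 : ZMod d))
              rw [hd.2] at this
              exact this.le
          _ = 6 * Real.exp (2 / 3) * (1 / 2) ^ i := by
              rw [show (8 : ℝ) ^ i = 4 ^ i * 2 ^ i by rw [← mul_pow]; norm_num, one_div_pow]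
              have : (4 : ℝ) ^ i ≠ 0 := by positivity
              have : (2 : ℝ) ^ i ≠ 0 := by positivity
              field_simp
    _ = 6 * Real.exp (2 / 3) * ∑ i ∈ range (L + 1), (1 / 2 : ℝ) ^ i := by rw [Finset.mul_sum]
    _ ≤ 6 * Real.exp (2 / 3) * 2 := by
        refine mul_le_mul_of_nonneg_left ?_ (by positivity)
        have h := Summable.sum_le_tsum (range (L + 1)) (fun i _ => by positivity)
          (summable_geometric_two)
        rwa [tsum_geometric_two] at h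
    _ = 12 * Real.exp (2 / 3) := by ring

end Pool.Agent.PS.ROM

namespace Pool.Agent.PS

open Finset ROM
open scoped Classical

theorem stmt_ROM : Stmt_ROM := by
  refine ⟨12 * Real.exp (2 / 3), by positivity, fun L hL => ?_⟩
  set D : Finset ℕ := (range (2 ^ L)).filter
    (fun d => 0 < d ∧ 0 < orderOf (2 : ZMod d) ∧ orderOf (2 : ZMod d) ≤ L) with hDdef
  have hD : ∀ d ∈ D, 0 < d ∧ 0 < orderOf (2 : ZMod d) ∧ orderOf (2 : ZMod d) ≤ L :=
    fun d hd => (mem_filter.1 hd).2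
  calc ∑ j ∈ Icc 1 L, ∑ d ∈ (2 ^ j - 1 : ℕ).divisors, (1 : ℝ) / d
      ≤ ∑ j ∈ Icc 1 L, ∑ d ∈ D.filter (fun d => orderOf (2 : ZMod d) ∣ j), (1 : ℝ) / d := by
        refine Finset.sum_le_sum fun j hj => ?_
        refine Finset.sum_le_sum_of_subset_of_nonneg ?_ (fun _ _ _ => by positivity)
        intro d hd
        have hj1 := (mem_Icc.1 hj).1
        have hj2 := (mem_Icc.1 hj).2
        have hdd := Nat.dvd_of_mem_divisors hd
        have hod := (dvd_iff d j hj1).1 hdd
        have hd0 := Nat.pos_of_mem_divisors hd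
        have hdle := Nat.le_of_dvd (two_pow_sub_pos j hj1) hdd
        have h2 : 2 ^ j ≤ 2 ^ L := Nat.pow_le_pow_right (by norm_num) hj2
        have h3 := two_pow_sub_pos j hj1
        rw [mem_filter, hDdef, mem_filter, mem_range]
        exact ⟨⟨by omega, hd0, Nat.pos_of_dvd_of_pos hod hj1, (Nat.le_of_dvd hj1 hod).trans hj2⟩,
          hod⟩
    _ = ∑ d ∈ D, ∑ j ∈ (Icc 1 L).filter (fun j => orderOf (2 : ZMod d) ∣ j), (1 : ℝ) / d := by
        simp only [Finset.sum_filter]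
        rw [Finset.sum_comm]
    _ ≤ ∑ d ∈ D, (1 : ℝ) / d * (1 / (orderOf (2 : ZMod d) : ℝ)) * L := by
        refine Finset.sum_le_sum fun d hd => ?_
        rw [Finset.sum_const, nsmul_eq_mul]
        have hI : Icc 1 L = Ioc 0 L := by ext; simp [Nat.succ_le_iff]
        rw [hI, Nat.Ioc_filter_dvd_card_eq_div]
        have h1 : (((L / orderOf (2 : ZMod d) : ℕ)) : ℝ) ≤ L / (orderOf (2 : ZMod d) : ℝ) :=
          Nat.cast_div_le
        calc (((L / orderOf (2 : ZMod d) : ℕ)) : ℝ) * (1 / (d : ℝ))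
            ≤ (L / (orderOf (2 : ZMod d) : ℝ)) * (1 / (d : ℝ)) :=
              mul_le_mul_of_nonneg_right h1 (by positivity)
          _ = _ := by ring
    _ = (∑ d ∈ D, (1 : ℝ) / d * (1 / (orderOf (2 : ZMod d) : ℝ))) * L := by rw [Finset.sum_mul]
    _ ≤ 12 * Real.exp (2 / 3) * L :=
        mul_le_mul_of_nonneg_right (main_sum L D hD) (by positivity)

end Pool.Agent.PS
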