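import Pool.Agent.Work.PS.WS3
import Pool.Agent.Work.Circle.Divisor

/-!
# PS, block WIN: the exceptional set in a window
-/

set_option autoImplicit false

namespace Pool.Agent.PS

open Finset ArithmeticFunction Metric
open Pool.Agent.Circle (e)
open scoped Classical

theorem log_pow_le_rpow (k : ℕ) (η c : ℝ) (hη : 0 < η) (hc : 0 < c) :
    ∃ X0 : ℕ, ∀ X : ℕ, X0 ≤ X → (Real.log X) ^ k ≤ c * (X : ℝ) ^ η := by
  have h1 : (fun x : ℝ => (Real.log x) ^ k) =o[Filter.atTop] fun x : ℝ => x ^ η := by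
    have h2 := isLittleO_log_rpow_rpow_atTop (k : ℝ) hη
    refine h2.congr' ?_ ?_
    · filter_upwards with n
      simp
    · filter_upwards with n
      rfl
  have h3 := h1.bound hc
  rw [Filter.eventually_atTop] at h3
  obtain ⟨L0, hL0⟩ := h3
  refine ⟨max ⌈L0⌉₊ 1, fun X hX => ?_⟩
  have hX1 : (1 : ℝ) ≤ X := by exact_mod_cast (le_max_right _ _).trans hX
  have hXL : L0 ≤ X := (Nat.le_ceil L0).trans (by exact_mod_cast (le_max_left _ _).trans hX)
  have h4 := hL0 X hXL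
  rw [Real.norm_eq_abs, Real.norm_eq_abs, abs_of_nonneg (pow_nonneg (Real.log_nonneg hX1) k),
    abs_of_nonneg (Real.rpow_nonneg (by linarith) _)] at h4
  exact h4

theorem th_nonneg (n : ℕ) : 0 ≤ th n := by
  unfold th
  split_ifs with h
  · exact Real.log_nonneg (by exact_mod_cast h.one_lt.le)
  · exact le_rfl

theorem th_le (n L : ℕ) (hn : n ≤ L) (hL : 1 ≤ L) : th n ≤ Real.log L := by
  unfold th
  split_ifs with h
  · exact Real.log_le_log (by exact_mod_cast h.pos) (by exact_mod_cast hn)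
  · exact Real.log_nonneg (by exact_mod_cast hL)

/-- The convolution in the window. -/
theorem cv_window (X M m : ℕ) (hXM : X ≤ M) (hm : M < m) (hm2 : m ≤ M + X / 8) :
    cv (Ioc (X / 4) (X / 2)) (Ioc (M - X / 2) M) (fun n => (th n : ℂ)) (fun n => (th n : ℂ)) m
      = ((∑ a ∈ Ioc (X / 4) (X / 2), th a * th (m - a) : ℝ) : ℂ) := by
  unfold cv
  push_cast
  refine sum_congr rfl fun a ha => ?_
  rw [mem_Ioc] at ha
  rw [sum_eq_single (m - a)]
  · rw [if_pos (by omega)]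
  · intro b _ hb
    rw [if_neg]
    omega
  · intro hb
    exfalso
    apply hb
    rw [mem_Ioc]
    omega

/-- The minor arc condition. -/
theorem minor_cond (P X R H : ℕ) (hP : 0 < P) (hX : 0 < X) (hR : 0 < R)
    (hdiv : ∀ q, 0 < q → q ≤ P → q ∣ R) (hH : R * P < (H + 1) * X) (hPX : P ^ 2 < X) (k : ℕ)
    (hk : k < R)
    (hmin : ∀ q a : ℕ, 0 < q → q ≤ P → a ≤ q → a.Coprime q →
      (H : ℝ) / R < |(k : ℝ) / R - (a : ℝ) / q|) :
    ∀ q : ℕ, ∀ a : ℤ, 0 < q → q ≤ P → IsCoprime a (q : ℤ) →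
      (P : ℝ) / X < |(k : ℝ) / R - a / q| := by
  intro q a hq hqP hco
  have hqr : (0 : ℝ) < q := by exact_mod_cast hq
  have hRr : (0 : ℝ) < R := by exact_mod_cast hR
  have hXr : (0 : ℝ) < X := by exact_mod_cast hX
  have hPr : (0 : ℝ) < P := by exact_mod_cast hP
  have hkR1 : (k : ℝ) / R < 1 := by
    rw [div_lt_one hRr]
    exact_mod_cast hk
  have hkR0 : 0 ≤ (k : ℝ) / R := by positivity
  have hbig : (P : ℝ) / X < 1 / q := by
    have h1 : (P : ℝ) / X < 1 / P := by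
      rw [div_lt_div_iff₀ hXr hPr]
      have : (P : ℝ) ^ 2 < X := by exact_mod_cast hPX
      nlinarith
    have h2 : 1 / (P : ℝ) ≤ 1 / q := one_div_le_one_div_of_le hqr (by exact_mod_cast hqP)
    linarith
  rcases lt_or_ge a 0 with ha | ha
  · have h1 : (a : ℝ) ≤ -1 := by exact_mod_cast (by omega : a ≤ -1)
    have h2 : (a : ℝ) / q ≤ -(1 / q) := by
      rw [← neg_div, div_le_div_iff_of_pos_right hqr]
      exact h1
    have h3 : 1 / (q : ℝ) ≤ (k : ℝ) / R - a / q := by linarith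
    exact hbig.trans_le (h3.trans (le_abs_self _))
  rcases lt_or_ge (q : ℤ) a with ha2 | ha2
  · have h1 : (q : ℝ) + 1 ≤ a := by exact_mod_cast (by omega : (q : ℤ) + 1 ≤ a)
    have h2 : 1 + 1 / (q : ℝ) ≤ a / q := by
      rw [le_div_iff₀ hqr]
      have : (1 + 1 / (q : ℝ)) * q = q + 1 := by field_simp
      linarith
    have h3 : 1 / (q : ℝ) ≤ -((k : ℝ) / R - a / q) := by linarith
    exact hbig.trans_le (h3.trans (neg_le_abs _))
  · obtain ⟨b, rfl⟩ := Int.eq_ofNat_of_zero_le ha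
    have hbq : b ≤ q := by exact_mod_cast ha2
    have hcb : b.Coprime q := Nat.isCoprime_iff_coprime.1 hco
    have h1 := hmin q b hq hqP hbq hcb
    obtain ⟨s, hs⟩ := hdiv q hq hqP
    have hsr : (R : ℝ) = q * s := by exact_mod_cast hs
    have h2 : (k : ℝ) / R - (b : ℝ) / q = (((k : ℤ) - b * s : ℤ) : ℝ) / R := by
      have hs0 : (s : ℝ) ≠ 0 := by
        intro h0
        rw [h0, mul_zero] at hsr
        linarith
      rw [hsr]
      push_cast
      field_simp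
    push_cast
    rw [h2, abs_div, abs_of_pos hRr] at h1 ⊢
    rw [div_lt_div_iff_of_pos_right hRr] at h1
    have h3 : (H : ℤ) < |(k : ℤ) - b * s| := by
      have : ((H : ℤ) : ℝ) < ((|(k : ℤ) - b * s| : ℤ) : ℝ) := by
        push_cast
        push_cast at h1
        exact h1
      exact_mod_cast this
    have h4 : ((H : ℝ) + 1) ≤ |(((k : ℤ) - b * s : ℤ) : ℝ)| := by
      have : (((H : ℤ) + 1 : ℤ) : ℝ) ≤ ((|(k : ℤ) - b * s| : ℤ) : ℝ) := by
        exact_mod_cast h3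
      push_cast at this ⊢
      exact this
    rw [div_lt_div_iff₀ hXr hRr]
    have h5 : (P : ℝ) * R < (H + 1) * X := by
      have : (R * P : ℝ) < (H + 1) * X := by exact_mod_cast hH
      linarith
    calc (P : ℝ) * R < (H + 1) * X := h5
      _ ≤ |(((k : ℤ) - b * s : ℤ) : ℝ)| * X := by gcongr

/-- Chebyshev's inequality for a finite sum. -/
theorem card_big {ι : Type*} (S : Finset ι) (F : ι → ℂ) (τ B : ℝ) (hτ : 0 < τ)
    (h : ∑ i ∈ S, ‖F i‖ ^ 2 ≤ B) : ((S.filter fun i => τ < ‖F i‖).card : ℝ) ≤ B / τ ^ 2 := by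
  rw [le_div_iff₀ (by positivity)]
  calc ((S.filter fun i => τ < ‖F i‖).card : ℝ) * τ ^ 2
      = ∑ i ∈ S.filter (fun i => τ < ‖F i‖), τ ^ 2 := by rw [sum_const, nsmul_eq_mul]
    _ ≤ ∑ i ∈ S.filter (fun i => τ < ‖F i‖), ‖F i‖ ^ 2 := by
        refine sum_le_sum fun i hi => ?_
        rw [mem_filter] at hi
        have := hi.2.le
        gcongr
    _ ≤ ∑ i ∈ S, ‖F i‖ ^ 2 :=
        sum_le_sum_of_subset_of_nonneg (filter_subset _ _) fun _ _ _ => by positivity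
    _ ≤ B := h

theorem card_div_big (L : ℕ) (D : ℝ) (hD : 0 < D) :
    (((Ioc 0 L).filter fun m => D < (m.divisors.card : ℝ)).card : ℝ)
      ≤ L * (1 + Real.log L) / D := by
  rw [le_div_iff₀ hD]
  calc (((Ioc 0 L).filter fun m => D < (m.divisors.card : ℝ)).card : ℝ) * D
      = ∑ m ∈ (Ioc 0 L).filter (fun m => D < (m.divisors.card : ℝ)), D := by
        rw [sum_const, nsmul_eq_mul]
    _ ≤ ∑ m ∈ (Ioc 0 L).filter (fun m => D < (m.divisors.card : ℝ)), (m.divisors.card : ℝ) := by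
        refine sum_le_sum fun i hi => ?_
        rw [mem_filter] at hi
        exact hi.2.le
    _ ≤ ∑ m ∈ Ioc 0 L, (m.divisors.card : ℝ) :=
        sum_le_sum_of_subset_of_nonneg (filter_subset _ _) fun _ _ _ => by positivity
    _ ≤ _ := Pool.Agent.Circle.sum_divisors_le L

/-- One window, for given parameters. -/
theorem window_core (hCIRC : Stmt_CIRC) {ε0 c : ℝ} {P0 : ℕ} (hc : 0 < c)
    (hlow : ∀ (X P M m R H : ℕ)
      (E : Option (Ch × ℝ)), P0 ≤ P → P ^ 10 ≤ X → 0 < R → (H : ℝ) / R ≤ P / X →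
      (P : ℝ) / X ≤ 2 * H / R → X ≤ M → M < m → m ≤ M + X / 8 → Even m → 4 * (M + X) < R →
      (m.divisors.card : ℝ) ≤ (P : ℝ) ^ (1 / 8 : ℝ) →
      (∀ y δ, E = some (y, δ) →
        Exc P y δ ∧ y.1 ^ 4 ≤ P ∧ 1 / ε0 ≤ (y.1 : ℝ) ∧ (y.1 : ℝ) ^ (-(1 / 8) : ℝ) ≤ δ) →
      ∑ x ∈ Fam P, Wn R H (Ioc (X / 4) (X / 2))
        (fun n => (th n : ℂ) * x.2 (n : ZMod x.1) - mt E x n) ≤ ε0 * lam E X * √(X : ℝ) →
      ∑ x ∈ Fam P, Wn R H (Ioc (M - X / 2) M)
        (fun n => (th n : ℂ) * x.2 (n : ZMod x.1) - mt E x n) ≤ ε0 * lam E X * √(X : ℝ) →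
      c * lam E X * X ≤ (Maj P R H (Ioc (X / 4) (X / 2)) (Ioc (M - X / 2) M)
        (fun n => (th n : ℂ)) (fun n => (th n : ℂ)) m).re)
    {C : ℝ} (hC : 0 < C)
    (hmin : ∀ N P : ℕ, 2 ≤ P → P ^ 3 ≤ N → ∀ α : ℝ,
      (∀ q : ℕ, ∀ a : ℤ, 0 < q → q ≤ P → IsCoprime a (q : ℤ) → (P : ℝ) / N < |α - a / q|) →
      ∀ K L : ℕ, K ≤ L → L ≤ N →
        ‖∑ n ∈ Ioc K L, (th n : ℂ) * e (n * α)‖ ≤ C * (N / √(P : ℝ)) * (Real.log N) ^ 4)
    (X M P : ℕ) (E : Option (Ch × ℝ)) (hP0 : P0 ≤ P) (hP2 : 2 ≤ P) (hPX : P ^ 10 ≤ X)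
    (hXM : X ≤ M) (hMX : M ≤ X ^ 2) (hMP : (M : ℝ) ≤ X * P)
    (hE : ∀ y δ, E = some (y, δ) →
        Exc P y δ ∧ y.1 ^ 4 ≤ P ∧ 1 / ε0 ≤ (y.1 : ℝ) ∧ (y.1 : ℝ) ^ (-(1 / 8) : ℝ) ≤ δ)
    (hW : ∀ R H U V : ℕ, 0 < R → (H : ℝ) / R ≤ P / X → V + X < R → X ≤ 4 * U + 4 → U ≤ V →
      V ≤ U + X → (V : ℝ) ≤ X * P →
      ∑ x ∈ Fam P, Wn R H (Ioc U V) (fun n => (th n : ℂ) * x.2 (n : ZMod x.1) - mt E x n)
        ≤ ε0 * lam E X * √(X : ℝ))
    (τ : ℝ) (hτ : 0 < τ) :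
    (((Ioc M (M + X / 8)).filter (fun m => Even m ∧
      ∑ a ∈ Ioc (X / 4) (X / 2), th a * th (m - a) < c * lam E X * X - τ)).card : ℝ)
      ≤ (C * (X / √(P : ℝ)) * (Real.log X) ^ 4) ^ 2 * (X * (Real.log M) ^ 2) / τ ^ 2
        + ((M + X : ℕ) : ℝ) * (1 + Real.log ((M + X : ℕ) : ℝ)) / (P : ℝ) ^ (1 / 8 : ℝ) := by
  have hPpos : 0 < P := by omega
  have hPr : (2 : ℝ) ≤ P := by exact_mod_cast hP2
  have hP10 : 1024 ≤ P ^ 10 := by
    calc 1024 = 2 ^ 10 := by norm_num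
      _ ≤ P ^ 10 := Nat.pow_le_pow_left hP2 10
  have hXpos : 0 < X := by omega
  have hX1024 : 1024 ≤ X := by omega
  have hXr : (0 : ℝ) < X := by exact_mod_cast hXpos
  have hMpos : 0 < M := by omega
  -- the modulus
  set R := P.factorial * (16 * X * M) with hR
  have hfac : 0 < P.factorial := Nat.factorial_pos P
  have hR16 : 16 * X * M ≤ R := by
    rw [hR]
    exact Nat.le_mul_of_pos_left _ hfac
  have hXMX : X ≤ X * M := Nat.le_mul_of_pos_right _ hMpos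
  have hXMM : M ≤ X * M := Nat.le_mul_of_pos_left _ hXpos
  have hRX : 16 * X ≤ R := by nlinarith
  have hRM : 16 * M ≤ R := by nlinarith
  have hRpos : 0 < R := by omega
  have hRr : (0 : ℝ) < R := by exact_mod_cast hRpos
  have hdiv : ∀ q, 0 < q → q ≤ P → q ∣ R := by
    intro q hq hqP
    rw [hR]
    exact Dvd.dvd.mul_right (Nat.dvd_factorial hq hqP) _
  set H := R * P / X with hH
  have hH1 : H * X ≤ R * P := Nat.div_mul_le_self _ _
  have hH2 : R * P < (H + 1) * X := by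
    have := Nat.lt_mul_div_succ (R * P) hXpos
    rw [← hH] at this
    linarith
  have hHR : (H : ℝ) / R ≤ P / X := by
    rw [div_le_div_iff₀ hRr hXr]
    have : (H * X : ℝ) ≤ R * P := by exact_mod_cast hH1
    linarith
  have hHR2 : (P : ℝ) / X ≤ 2 * H / R := by
    rw [div_le_div_iff₀ hXr hRr]
    have h1 : (R * P : ℝ) < (H + 1) * X := by exact_mod_cast hH2
    have h2 : (2 * X : ℝ) ≤ R * P := by
      have : 2 * X ≤ R * P := by nlinarith
      exact_mod_cast this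
    nlinarith
  have hP3 : 4 * P ^ 3 < X := by
    calc 4 * P ^ 3 < P ^ 7 * P ^ 3 := by
          have : 4 < P ^ 7 := by
            calc 4 < 2 ^ 7 := by norm_num
              _ ≤ P ^ 7 := Nat.pow_le_pow_left hP2 7
          exact Nat.mul_lt_mul_of_pos_right this (by positivity)
      _ = P ^ 10 := by ring
      _ ≤ X := hPX
  have h4HP : 4 * H * P ^ 2 < R := by
    have h1 : (4 * H * P ^ 2) * X < R * X := by
      calc (4 * H * P ^ 2) * X = 4 * P ^ 2 * (H * X) := by ring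
        _ ≤ 4 * P ^ 2 * (R * P) := Nat.mul_le_mul_left _ hH1
        _ = R * (4 * P ^ 3) := by ring
        _ < R * X := Nat.mul_lt_mul_of_pos_left hP3 hRpos
    exact Nat.lt_of_mul_lt_mul_right h1
  have hI1 : ∀ n ∈ Ioc (X / 4) (X / 2), 4 * n < R := by
    intro n hn
    rw [mem_Ioc] at hn
    omega
  have hI2 : ∀ n ∈ Ioc (M - X / 2) M, 4 * n < R := by
    intro n hn
    rw [mem_Ioc] at hn
    omega
  set U0 : ℝ := C * (X / √(P : ℝ)) * (Real.log X) ^ 4 with hU0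
  have hlogX : 0 ≤ Real.log X := Real.log_nonneg (by exact_mod_cast hXpos)
  have hU0nn : 0 ≤ U0 := by positivity
  have hcirc := hCIRC P R H hPpos hRpos hdiv h4HP (Ioc (X / 4) (X / 2)) (Ioc (M - X / 2) M) hI1 hI2
    (fun n => (th n : ℂ)) (fun n => (th n : ℂ)) U0 hU0nn ?_
  swap
  · intro k hk hq
    rw [mem_range] at hk
    refine hmin X P hP2 ?_ ((k : ℝ) / R) ?_ (X / 4) (X / 2) (by omega) (by omega)
    · have : P ^ 3 ≤ 4 * P ^ 3 := Nat.le_mul_of_pos_left _ (by norm_num)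
      omega
    · refine minor_cond P X R H hPpos hXpos hRpos hdiv hH2 ?_ k hk hq
      calc P ^ 2 ≤ P ^ 3 := Nat.pow_le_pow_right hPpos (by norm_num)
        _ ≤ 4 * P ^ 3 := Nat.le_mul_of_pos_left _ (by norm_num)
        _ < X := hP3
  set F : ℕ → ℂ := fun m => cv (Ioc (X / 4) (X / 2)) (Ioc (M - X / 2) M) (fun n => (th n : ℂ))
      (fun n => (th n : ℂ)) m - Maj P R H (Ioc (X / 4) (X / 2)) (Ioc (M - X / 2) M)
        (fun n => (th n : ℂ)) (fun n => (th n : ℂ)) m with hF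
  have hsq : ∑ n ∈ Ioc (M - X / 2) M, ‖((th n : ℝ) : ℂ)‖ ^ 2 ≤ X * (Real.log M) ^ 2 := by
    calc ∑ n ∈ Ioc (M - X / 2) M, ‖((th n : ℝ) : ℂ)‖ ^ 2
        ≤ ∑ n ∈ Ioc (M - X / 2) M, (Real.log M) ^ 2 := by
          refine sum_le_sum fun n hn => ?_
          rw [mem_Ioc] at hn
          rw [Complex.norm_real, Real.norm_eq_abs, abs_of_nonneg (th_nonneg n)]
          have h1 := th_le n M hn.2 (by omega)
          have h2 := th_nonneg n
          gcongr
      _ = ((Ioc (M - X / 2) M).card : ℝ) * (Real.log M) ^ 2 := by rw [sum_const, nsmul_eq_mul]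
      _ ≤ X * (Real.log M) ^ 2 := by
          have : ((Ioc (M - X / 2) M).card : ℝ) ≤ X := by
            rw [Nat.card_Ioc]
            exact_mod_cast (by omega : M - (M - X / 2) ≤ X)
          gcongr
  have hcirc2 : ∑ m ∈ range R, ‖F m‖ ^ 2 ≤ U0 ^ 2 * (X * (Real.log M) ^ 2) :=
    hcirc.trans (mul_le_mul_of_nonneg_left hsq (by positivity))
  have hB1 := card_big (range R) F τ _ hτ hcirc2
  have hPpow : 0 < (P : ℝ) ^ (1 / 8 : ℝ) := by positivity
  have hB2 := card_div_big (M + X) ((P : ℝ) ^ (1 / 8 : ℝ)) hPpow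
  have hw1 := hW R H (X / 4) (X / 2) hRpos hHR (by omega) (by omega) (by omega) (by omega) (by
    have h1 : ((X / 2 : ℕ) : ℝ) ≤ X := by exact_mod_cast Nat.div_le_self X 2
    nlinarith)
  have hw2 := hW R H (M - X / 2) M hRpos hHR (by omega) (by omega) (by omega) (by omega) hMP
  have hsub : (Ioc M (M + X / 8)).filter (fun m => Even m ∧
      ∑ a ∈ Ioc (X / 4) (X / 2), th a * th (m - a) < c * lam E X * X - τ)
      ⊆ ((range R).filter fun m => τ < ‖F m‖) ∪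
        ((Ioc 0 (M + X)).filter fun m => (P : ℝ) ^ (1 / 8 : ℝ) < (m.divisors.card : ℝ)) := by
    intro m hm
    rw [mem_filter, mem_Ioc] at hm
    obtain ⟨⟨hMm, hmM⟩, hev, hlt⟩ := hm
    rw [mem_union, mem_filter, mem_filter, mem_range, mem_Ioc]
    by_contra hcon
    push Not at hcon
    obtain ⟨h1, h2⟩ := hcon
    have hmR : m < R := by omega
    have h1' := h1 hmR
    have h2' := h2 ⟨by omega, by omega⟩
    have hl := hlow X P M m R H E hP0 hPX hRpos hHR hHR2 hXM hMm hmM hev (by omega) h2' hE hw1 hw2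
    have hcv := cv_window X M m hXM hMm hmM
    have h3 : |(F m).re| ≤ τ := (Complex.abs_re_le_norm _).trans h1'
    rw [hF] at h3
    simp only [Complex.sub_re] at h3
    rw [hcv, Complex.ofReal_re] at h3
    have h4 := (abs_le.1 h3).1
    linarith
  calc _ ≤ ((((range R).filter fun m => τ < ‖F m‖) ∪
        ((Ioc 0 (M + X)).filter fun m => (P : ℝ) ^ (1 / 8 : ℝ) < (m.divisors.card : ℝ))).card : ℝ) := by
        exact_mod_cast card_le_card hsub
    _ ≤ (((range R).filter fun m => τ < ‖F m‖).card : ℝ) +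
        (((Ioc 0 (M + X)).filter fun m => (P : ℝ) ^ (1 / 8 : ℝ) < (m.divisors.card : ℝ)).card : ℝ) := by
        exact_mod_cast card_union_le _ _
    _ ≤ _ := add_le_add hB1 hB2

end Pool.Agent.PS
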