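import Pool.Agent.Work.PS.WIN
import Pool.Agent.Work.PS.InterfaceB

/-!
# PS, block WINB: the exceptional set in a window, with the right order of magnitude
-/

set_option autoImplicit false

namespace Pool.Agent.PS

open Finset ArithmeticFunction Metric
open Pool.Agent.Circle (e)
open scoped Classical

/-- One window, for given parameters, with a general lower bound `G`. -/
theorem window_core2 (hCIRC : Stmt_CIRC) {ε0 : ℝ}
    {C : ℝ} (hC : 0 < C)
    (hmin : ∀ N P : ℕ, 2 ≤ P → P ^ 3 ≤ N → ∀ α : ℝ,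
      (∀ q : ℕ, ∀ a : ℤ, 0 < q → q ≤ P → IsCoprime a (q : ℤ) → (P : ℝ) / N < |α - a / q|) →
      ∀ K L : ℕ, K ≤ L → L ≤ N →
        ‖∑ n ∈ Ioc K L, (th n : ℂ) * e (n * α)‖ ≤ C * (N / √(P : ℝ)) * (Real.log N) ^ 4)
    (X M P : ℕ) (E : Option (Ch × ℝ)) (hP2 : 2 ≤ P) (hPX : P ^ 10 ≤ X)
    (hXM : X ≤ M) (hMX : M ≤ X ^ 2) (hMP : (M : ℝ) ≤ X * P)
    (hW : ∀ R H U V : ℕ, 0 < R → (H : ℝ) / R ≤ P / X → V + X < R → X ≤ 4 * U + 4 → U ≤ V →
      V ≤ U + X → (V : ℝ) ≤ X * P →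
      ∑ x ∈ Fam P, Wn R H (Ioc U V) (fun n => (th n : ℂ) * x.2 (n : ZMod x.1) - mt E x n)
        ≤ ε0 * lam E X * √(X : ℝ))
    (G : ℕ → ℝ)
    (hlow : ∀ (m R H : ℕ), 0 < R → (H : ℝ) / R ≤ P / X →
      (P : ℝ) / X ≤ 2 * H / R → M < m → m ≤ M + X / 8 → Even m → 4 * (M + X) < R →
      (m.divisors.card : ℝ) ≤ (P : ℝ) ^ (1 / 8 : ℝ) →
      ∑ x ∈ Fam P, Wn R H (Ioc (X / 4) (X / 2))
        (fun n => (th n : ℂ) * x.2 (n : ZMod x.1) - mt E x n) ≤ ε0 * lam E X * √(X : ℝ) →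
      ∑ x ∈ Fam P, Wn R H (Ioc (M - X / 2) M)
        (fun n => (th n : ℂ) * x.2 (n : ZMod x.1) - mt E x n) ≤ ε0 * lam E X * √(X : ℝ) →
      G m ≤ (Maj P R H (Ioc (X / 4) (X / 2)) (Ioc (M - X / 2) M)
        (fun n => (th n : ℂ)) (fun n => (th n : ℂ)) m).re)
    (τ : ℝ) (hτ : 0 < τ) :
    (((Ioc M (M + X / 8)).filter (fun m => Even m ∧
      ∑ a ∈ Ioc (X / 4) (X / 2), th a * th (m - a) < G m - τ)).card : ℝ)
      ≤ (C * (X / √(P : ℝ)) * (Real.log X) ^ 4) ^ 2 * (X * (Real.log M) ^ 2) / τ ^ 2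
        + ((M + X : ℕ) : ℝ) * (1 + Real.log ((M + X : ℕ) : ℝ)) / (P : ℝ) ^ (1 / 8 : ℝ) := by
  have hPpos : 0 < P := by omega
  have hPr : (2 : ℝ) ≤ P := by exact_mod_cast hP2
  have hP10 : 1024 ≤ P ^ 10 := by
    calc 1024 = 2 ^ 10 := by norm_num
      _ ≤ P ^ 10 := Nat.pow_le_pow_left hP2 10
  have hXpos : 0 < X := by omega
  have hX1024 : 1024 ≤ X := by omega
  have hXr : (0 : ℝ) < X := by exact_mod_cast hXpos
  have hMpos : 0 < M := by omega
  -- the modulus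
  set R := P.factorial * (16 * X * M) with hR
  have hfac : 0 < P.factorial := Nat.factorial_pos P
  have hR16 : 16 * X * M ≤ R := by
    rw [hR]
    exact Nat.le_mul_of_pos_left _ hfac
  have hXMX : X ≤ X * M := Nat.le_mul_of_pos_right _ hMpos
  have hXMM : M ≤ X * M := Nat.le_mul_of_pos_left _ hXpos
  have hRX : 16 * X ≤ R := by nlinarith
  have hRM : 16 * M ≤ R := by nlinarith
  have hRpos : 0 < R := by omega
  have hRr : (0 : ℝ) < R := by exact_mod_cast hRpos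
  have hdiv : ∀ q, 0 < q → q ≤ P → q ∣ R := by
    intro q hq hqP
    rw [hR]
    exact Dvd.dvd.mul_right (Nat.dvd_factorial hq hqP) _
  set H := R * P / X with hH
  have hH1 : H * X ≤ R * P := Nat.div_mul_le_self _ _
  have hH2 : R * P < (H + 1) * X := by
    have := Nat.lt_mul_div_succ (R * P) hXpos
    rw [← hH] at this
    linarith
  have hHR : (H : ℝ) / R ≤ P / X := by
    rw [div_le_div_iff₀ hRr hXr]
    have : (H * X : ℝ) ≤ R * P := by exact_mod_cast hH1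
    linarith
  have hHR2 : (P : ℝ) / X ≤ 2 * H / R := by
    rw [div_le_div_iff₀ hXr hRr]
    have h1 : (R * P : ℝ) < (H + 1) * X := by exact_mod_cast hH2
    have h2 : (2 * X : ℝ) ≤ R * P := by
      have : 2 * X ≤ R * P := by nlinarith
      exact_mod_cast this
    nlinarith
  have hP3 : 4 * P ^ 3 < X := by
    calc 4 * P ^ 3 < P ^ 7 * P ^ 3 := by
          have : 4 < P ^ 7 := by
            calc 4 < 2 ^ 7 := by norm_num
              _ ≤ P ^ 7 := Nat.pow_le_pow_left hP2 7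
          exact Nat.mul_lt_mul_of_pos_right this (by positivity)
      _ = P ^ 10 := by ring
      _ ≤ X := hPX
  have h4HP : 4 * H * P ^ 2 < R := by
    have h1 : (4 * H * P ^ 2) * X < R * X := by
      calc (4 * H * P ^ 2) * X = 4 * P ^ 2 * (H * X) := by ring
        _ ≤ 4 * P ^ 2 * (R * P) := Nat.mul_le_mul_left _ hH1
        _ = R * (4 * P ^ 3) := by ring
        _ < R * X := Nat.mul_lt_mul_of_pos_left hP3 hRpos
    exact Nat.lt_of_mul_lt_mul_right h1
  have hI1 : ∀ n ∈ Ioc (X / 4) (X / 2), 4 * n < R := by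
    intro n hn
    rw [mem_Ioc] at hn
    omega
  have hI2 : ∀ n ∈ Ioc (M - X / 2) M, 4 * n < R := by
    intro n hn
    rw [mem_Ioc] at hn
    omega
  set U0 : ℝ := C * (X / √(P : ℝ)) * (Real.log X) ^ 4 with hU0
  have hlogX : 0 ≤ Real.log X := Real.log_nonneg (by exact_mod_cast hXpos)
  have hU0nn : 0 ≤ U0 := by positivity
  have hcirc := hCIRC P R H hPpos hRpos hdiv h4HP (Ioc (X / 4) (X / 2)) (Ioc (M - X / 2) M) hI1 hI2
    (fun n => (th n : ℂ)) (fun n => (th n : ℂ)) U0 hU0nn ?_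
  swap
  · intro k hk hq
    rw [mem_range] at hk
    refine hmin X P hP2 ?_ ((k : ℝ) / R) ?_ (X / 4) (X / 2) (by omega) (by omega)
    · have : P ^ 3 ≤ 4 * P ^ 3 := Nat.le_mul_of_pos_left _ (by norm_num)
      omega
    · refine minor_cond P X R H hPpos hXpos hRpos hdiv hH2 ?_ k hk hq
      calc P ^ 2 ≤ P ^ 3 := Nat.pow_le_pow_right hPpos (by norm_num)
        _ ≤ 4 * P ^ 3 := Nat.le_mul_of_pos_left _ (by norm_num)
        _ < X := hP3
  set F : ℕ → ℂ := fun m => cv (Ioc (X / 4) (X / 2)) (Ioc (M - X / 2) M) (fun n => (th n : ℂ))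
      (fun n => (th n : ℂ)) m - Maj P R H (Ioc (X / 4) (X / 2)) (Ioc (M - X / 2) M)
        (fun n => (th n : ℂ)) (fun n => (th n : ℂ)) m with hF
  have hsq : ∑ n ∈ Ioc (M - X / 2) M, ‖((th n : ℝ) : ℂ)‖ ^ 2 ≤ X * (Real.log M) ^ 2 := by
    calc ∑ n ∈ Ioc (M - X / 2) M, ‖((th n : ℝ) : ℂ)‖ ^ 2
        ≤ ∑ n ∈ Ioc (M - X / 2) M, (Real.log M) ^ 2 := by
          refine sum_le_sum fun n hn => ?_
          rw [mem_Ioc] at hn
          rw [Complex.norm_real, Real.norm_eq_abs, abs_of_nonneg (th_nonneg n)]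
          have h1 := th_le n M hn.2 (by omega)
          have h2 := th_nonneg n
          gcongr
      _ = ((Ioc (M - X / 2) M).card : ℝ) * (Real.log M) ^ 2 := by rw [sum_const, nsmul_eq_mul]
      _ ≤ X * (Real.log M) ^ 2 := by
          have : ((Ioc (M - X / 2) M).card : ℝ) ≤ X := by
            rw [Nat.card_Ioc]
            exact_mod_cast (by omega : M - (M - X / 2) ≤ X)
          gcongr
  have hcirc2 : ∑ m ∈ range R, ‖F m‖ ^ 2 ≤ U0 ^ 2 * (X * (Real.log M) ^ 2) :=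
    hcirc.trans (mul_le_mul_of_nonneg_left hsq (by positivity))
  have hB1 := card_big (range R) F τ _ hτ hcirc2
  have hPpow : 0 < (P : ℝ) ^ (1 / 8 : ℝ) := by positivity
  have hB2 := card_div_big (M + X) ((P : ℝ) ^ (1 / 8 : ℝ)) hPpow
  have hw1 := hW R H (X / 4) (X / 2) hRpos hHR (by omega) (by omega) (by omega) (by omega) (by
    have h1 : ((X / 2 : ℕ) : ℝ) ≤ X := by exact_mod_cast Nat.div_le_self X 2
    nlinarith)
  have hw2 := hW R H (M - X / 2) M hRpos hHR (by omega) (by omega) (by omega) (by omega) hMP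
  have hsub : (Ioc M (M + X / 8)).filter (fun m => Even m ∧
      ∑ a ∈ Ioc (X / 4) (X / 2), th a * th (m - a) < G m - τ)
      ⊆ ((range R).filter fun m => τ < ‖F m‖) ∪
        ((Ioc 0 (M + X)).filter fun m => (P : ℝ) ^ (1 / 8 : ℝ) < (m.divisors.card : ℝ)) := by
    intro m hm
    rw [mem_filter, mem_Ioc] at hm
    obtain ⟨⟨hMm, hmM⟩, hev, hlt⟩ := hm
    rw [mem_union, mem_filter, mem_filter, mem_range, mem_Ioc]
    by_contra hcon
    push Not at hcon
    obtain ⟨h1, h2⟩ := hcon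
    have hmR : m < R := by omega
    have h1' := h1 hmR
    have h2' := h2 ⟨by omega, by omega⟩
    have hl := hlow m R H hRpos hHR hHR2 hMm hmM hev (by omega) h2' hw1 hw2
    have hcv := cv_window X M m hXM hMm hmM
    have h3 : |(F m).re| ≤ τ := (Complex.abs_re_le_norm _).trans h1'
    rw [hF] at h3
    simp only [Complex.sub_re] at h3
    rw [hcv, Complex.ofReal_re] at h3
    have h4 := (abs_le.1 h3).1
    linarith
  calc _ ≤ ((((range R).filter fun m => τ < ‖F m‖) ∪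
        ((Ioc 0 (M + X)).filter fun m => (P : ℝ) ^ (1 / 8 : ℝ) < (m.divisors.card : ℝ))).card : ℝ) := by
        exact_mod_cast card_le_card hsub
    _ ≤ (((range R).filter fun m => τ < ‖F m‖).card : ℝ) +
        (((Ioc 0 (M + X)).filter fun m => (P : ℝ) ^ (1 / 8 : ℝ) < (m.divisors.card : ℝ)).card : ℝ) := by
        exact_mod_cast card_union_le _ _
    _ ≤ _ := add_le_add hB1 hB2

end Pool.Agent.PS
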