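import Pool.Agent.Work.PS.Interface

/-!
# PS, block WS, first part: the sum over an interval
-/

set_option autoImplicit false

namespace Pool.Agent.PS

open Finset ArithmeticFunction
open scoped Classical

/-- One term of the explicit formula. -/
theorem zterm_bound (ρ : ℂ) (h1 : 9 / 10 ≤ ρ.re) (h2 : ρ.re ≤ 1) (Z u v : ℝ) (hZ : 1 ≤ Z)
    (hu : 1 ≤ u) (huv : u ≤ v) :
    ‖Complex.exp (ρ ^ 2 / (2 * Z)) * (((v : ℂ) ^ ρ - (u : ℂ) ^ ρ) / ρ)‖
      ≤ 2 * (v - u) * u ^ (ρ.re - 1) := by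
  have hexp : ‖Complex.exp (ρ ^ 2 / (2 * Z))‖ ≤ 2 := by
    rw [Complex.norm_exp]
    have e1 : (ρ ^ 2 / (2 * Z)).re = (ρ.re ^ 2 - ρ.im ^ 2) / (2 * Z) := by
      have : (ρ ^ 2 / (2 * (Z : ℂ))) = ρ ^ 2 / ((2 * Z : ℝ) : ℂ) := by push_cast; rfl
      rw [this, Complex.div_ofReal_re, pow_two, Complex.mul_re]
      ring
    rw [e1]
    have e2 : (ρ.re ^ 2 - ρ.im ^ 2) / (2 * Z) ≤ 1 / 2 := by
      rw [div_le_iff₀ (by linarith)]
      nlinarith [sq_nonneg ρ.im]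
    refine (Real.exp_le_exp.2 e2).trans ?_
    have e3 : Real.exp (1 / 2) ^ 2 ≤ 2 ^ 2 := by
      rw [← Real.exp_nat_mul]
      norm_num
      exact Real.exp_one_lt_d9.le.trans (by norm_num)
    exact le_of_pow_le_pow_left₀ (by norm_num) (by norm_num) e3
  have hint : ∫ y : ℝ in u..v, (y : ℂ) ^ (ρ - 1) = ((v : ℂ) ^ ρ - (u : ℂ) ^ ρ) / ρ := by
    rw [integral_cpow (Or.inl (by simp; linarith)), sub_add_cancel]
  have hn : ‖((v : ℂ) ^ ρ - (u : ℂ) ^ ρ) / ρ‖ ≤ u ^ (ρ.re - 1) * |v - u| := by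
    rw [← hint]
    apply intervalIntegral.norm_integral_le_of_norm_le_const
    intro y hy
    rw [Set.uIoc_of_le huv] at hy
    have hy0 : 0 < y := by linarith [hy.1]
    rw [Complex.norm_cpow_eq_rpow_re_of_pos hy0, Complex.sub_re, Complex.one_re]
    exact Real.rpow_le_rpow_of_nonpos (by linarith) hy.1.le (by linarith)
  rw [abs_of_nonneg (by linarith)] at hn
  rw [norm_mul]
  have h0 : 0 ≤ u ^ (ρ.re - 1) := Real.rpow_nonneg (by linarith) _
  calc _ ≤ 2 * (u ^ (ρ.re - 1) * (v - u)) :=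
        mul_le_mul hexp hn (norm_nonneg _) (by norm_num)
    _ = _ := by ring

theorem sum_map_le {L : List ℂ} {f : ℂ → ℂ} {g : ℂ → ℝ} (h : ∀ ρ ∈ L, ‖f ρ‖ ≤ g ρ) :
    ‖(L.map f).sum‖ ≤ (L.map g).sum := by
  induction L with
  | nil => simp
  | cons a L ih =>
    rw [List.map_cons, List.sum_cons, List.map_cons, List.sum_cons]
    exact (norm_add_le _ _).trans (add_le_add (h a List.mem_cons_self)
      (ih fun ρ hρ => h ρ (List.mem_cons_of_mem _ hρ)))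

theorem list_sum_mul (L : List ℂ) (c : ℝ) (g : ℂ → ℝ) :
    (L.map fun ρ => c * g ρ).sum = c * (L.map g).sum := by
  induction L with
  | nil => simp
  | cons a L ih =>
    rw [List.map_cons, List.sum_cons, List.map_cons, List.sum_cons, ih]
    ring

theorem zs_nonneg (L : List ℂ) (Y : ℝ) (hY : 0 ≤ Y) : 0 ≤ zs L Y := by
  unfold zs
  apply List.sum_nonneg
  intro a ha
  rw [List.mem_map] at ha
  obtain ⟨ρ, _, rfl⟩ := ha
  exact Real.rpow_nonneg hY _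

/-- The sum over a list of zeros. -/
theorem zsum_bound (L : List ℂ) (hL : ∀ ρ ∈ L, 9 / 10 ≤ ρ.re ∧ ρ.re ≤ 1) (Z u v Y : ℝ) (hZ : 1 ≤ Z)
    (hu : 1 ≤ u) (huv : u ≤ v) (hY : 0 < Y) (hYu : Y ≤ 2 * u) :
    ‖(L.map fun ρ => Complex.exp (ρ ^ 2 / (2 * Z)) * (((v : ℂ) ^ ρ - (u : ℂ) ^ ρ) / ρ)).sum‖
      ≤ 4 * (v - u) * zs L Y := by
  refine (sum_map_le (g := fun ρ => (4 * (v - u)) * Y ^ (ρ.re - 1)) ?_).trans ?_
  · intro ρ hρ
    obtain ⟨h1, h2⟩ := hL ρ hρ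
    refine (zterm_bound ρ h1 h2 Z u v hZ hu huv).trans ?_
    have e1 : u ^ (ρ.re - 1) ≤ 2 * Y ^ (ρ.re - 1) := by
      have e2 : u ^ (ρ.re - 1) ≤ (Y / 2) ^ (ρ.re - 1) :=
        Real.rpow_le_rpow_of_nonpos (by linarith) (by linarith) (by linarith)
      refine e2.trans ?_
      rw [Real.div_rpow hY.le (by norm_num), div_eq_mul_inv, mul_comm,
        ← Real.rpow_neg (by norm_num)]
      have e3 : (2 : ℝ) ^ (-(ρ.re - 1)) ≤ 2 ^ (1 : ℝ) :=
        Real.rpow_le_rpow_of_exponent_le (by norm_num) (by linarith)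
      rw [Real.rpow_one] at e3
      exact mul_le_mul_of_nonneg_right e3 (Real.rpow_nonneg hY.le _)
    have e4 : 0 ≤ 2 * (v - u) := by linarith
    calc 2 * (v - u) * u ^ (ρ.re - 1) ≤ 2 * (v - u) * (2 * Y ^ (ρ.re - 1)) :=
          mul_le_mul_of_nonneg_left e1 e4
      _ = _ := by ring
  · rw [list_sum_mul]
    rfl

theorem nonprime_sum (L : ℕ) (hL : 1 ≤ L) :
    ∑ b ∈ (Ioc 0 L).filter (fun b => ¬ b.Prime), Λ b ≤ 2 * √(L : ℝ) * Real.log L := by
  have hLr : (1 : ℝ) ≤ L := by exact_mod_cast hL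
  have h1 := Chebyshev.psi_sub_theta_eq_sum_not_prime (L : ℝ)
  rw [Nat.floor_natCast] at h1
  rw [← h1]
  exact Chebyshev.psi_sub_theta_le hLr

theorem lam_th (n : ℕ) : Λ n - th n = if n.Prime then 0 else Λ n := by
  unfold th
  split_ifs with h
  · rw [vonMangoldt_apply_prime h, sub_self]
  · rw [sub_zero]

/-- From `Λ` to primes. -/
theorem lam_th_sum {q : ℕ} (χ : DirichletCharacter ℂ q) (u v : ℕ) (hv : 1 ≤ v) :
    ‖∑ n ∈ Ioc u v, (Λ n : ℂ) * χ (n : ZMod q) - ∑ n ∈ Ioc u v, (th n : ℂ) * χ (n : ZMod q)‖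
      ≤ 2 * √(v : ℝ) * Real.log v := by
  refine le_trans ?_ (nonprime_sum v hv)
  rw [← sum_sub_distrib]
  refine (norm_sum_le _ _).trans ?_
  rw [sum_filter]
  refine (sum_le_sum (g := fun n => if ¬ n.Prime then Λ n else 0) ?_).trans ?_
  · intro n _
    rw [← sub_mul, ← Complex.ofReal_sub, lam_th, norm_mul, Complex.norm_real]
    have h1 : ‖χ (n : ZMod q)‖ ≤ 1 := χ.norm_le_one _
    have h2 : 0 ≤ Λ n := vonMangoldt_nonneg
    by_cases h : n.Prime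
    · simp [h]
    · rw [if_neg h, if_pos h, Real.norm_eq_abs, abs_of_nonneg h2]
      nlinarith
  · apply sum_le_sum_of_subset_of_nonneg
    · intro n hn
      rw [mem_Ioc] at hn ⊢
      omega
    · intro n _ _
      split_ifs
      · exact le_rfl
      · exact vonMangoldt_nonneg

/-- Comparison of the sum and the integral of `y ^ (-δ)`. -/
theorem sum_rpow_int (δ : ℝ) (hδ : 0 ≤ δ) (hδ1 : δ < 1) (u v : ℕ) (hu : 1 ≤ u) (huv : u ≤ v) :
    |∑ n ∈ Ioc u v, (n : ℝ) ^ (-δ) - ((v : ℝ) ^ (1 - δ) - (u : ℝ) ^ (1 - δ)) / (1 - δ)| ≤ 1 := by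
  have hu0 : (0 : ℝ) < u := by exact_mod_cast hu
  have hanti : AntitoneOn (fun y : ℝ => y ^ (-δ)) (Set.Icc (u : ℝ) v) := by
    intro a ha b hb hab
    exact Real.rpow_le_rpow_of_nonpos (by linarith [ha.1]) hab (by linarith)
  have h1 := AntitoneOn.sum_le_integral_Ico huv hanti
  have h2 := AntitoneOn.integral_le_sum_Ico huv hanti
  have hint : ∫ y : ℝ in (u : ℝ)..v, y ^ (-δ) = ((v : ℝ) ^ (1 - δ) - (u : ℝ) ^ (1 - δ)) / (1 - δ) := by
    rw [integral_rpow (Or.inl (by linarith))]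
    congr 1
    · congr 1 <;> congr 1 <;> ring
    · ring
  rw [hint] at h1 h2
  have h3 : ∑ i ∈ Ico u v, (((i + 1 : ℕ) : ℝ)) ^ (-δ) = ∑ n ∈ Ioc u v, (n : ℝ) ^ (-δ) := by
    have : Ioc u v = (Ico u v).map ⟨(· + 1), add_left_injective 1⟩ := by
      ext a
      simp only [mem_Ioc, mem_map, mem_Ico, Function.Embedding.coeFn_mk]
      constructor
      · intro h
        exact ⟨a - 1, by omega, by omega⟩
      · rintro ⟨b, hb, rfl⟩
        omega
    rw [this, sum_map]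
    rfl
  have h4 : ∑ i ∈ Ico u v, ((i : ℝ)) ^ (-δ) = ∑ n ∈ Ioc u v, (n : ℝ) ^ (-δ)
      + ((u : ℝ) ^ (-δ) - (v : ℝ) ^ (-δ)) := by
    rw [← h3]
    clear h1 h2 h3 hanti hint
    induction v, huv using Nat.le_induction with
    | base => simp
    | succ v hv ih =>
      rw [sum_Ico_succ_top hv, sum_Ico_succ_top hv, ih]
      ring
  have h5 : (u : ℝ) ^ (-δ) ≤ 1 :=
    Real.rpow_le_one_of_one_le_of_nonpos (by exact_mod_cast hu) (by linarith)
  have h6 : 0 ≤ (v : ℝ) ^ (-δ) := Real.rpow_nonneg (Nat.cast_nonneg _) _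
  rw [h3] at h1
  rw [h4] at h2
  rw [abs_le]
  constructor <;> linarith

end Pool.Agent.PS
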