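import Pool.Agent.Work.PS.WS1

/-!
# PS, block WS, second part: the interval estimate
-/

set_option autoImplicit false

namespace Pool.Agent.PS

open Finset ArithmeticFunction Metric
open Pool.Agent.Work.MP_b0c12c_nt_helper70 (PP PP_ne)
open scoped Classical

/-- The list of the non exceptional zeros. -/
noncomputable def lst (Z : ℕ) (E : Option (Ch × ℝ)) (x : Ch) : List ℂ :=
  match E with
  | none => zl x Z
  | some (y, δ) => zx Z y δ x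

theorem Fam_pos {Q : ℕ} {x : Ch} (h : x ∈ Fam Q) : 0 < x.1 ∧ x.1 ≤ Q := by
  unfold Fam at h
  rw [mem_sigma, mem_Ioc] at h
  exact h.1

theorem Fam_mono {P Q : ℕ} (h : P ≤ Q) : Fam P ⊆ Fam Q := by
  intro x hx
  unfold Fam at hx ⊢
  rw [mem_sigma, mem_Ioc] at hx ⊢
  exact ⟨⟨hx.1.1, hx.1.2.trans h⟩, hx.2⟩

theorem exc_mem_zl (hZS : Stmt_ZSPEC) {Z : ℕ} {y : Ch} {δ : ℝ} (h : Exc Z y δ) (hδ : δ ≤ 1 / 10) :
    ((1 - δ : ℝ) : ℂ) ∈ zl y Z := by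
  obtain ⟨h1, _, _⟩ := hZS Z y (Fam_pos h.mem).1.ne'
  have hball : ((1 - δ : ℝ) : ℂ) ∈ closedBall (0 : ℂ) (Z + 10) := by
    rw [mem_closedBall, dist_zero_right, Complex.norm_real, Real.norm_eq_abs,
      abs_of_nonneg (by linarith)]
    have := h.pos
    have : (0 : ℝ) ≤ Z := Nat.cast_nonneg _
    linarith
  have hz := h.zero
  rw [h1.fac] at hz
  have hg := h1.ne _ hball
  have hP : PP (zb y Z) ((1 - δ : ℝ) : ℂ) = 0 := by
    rcases mul_eq_zero.1 hz with h2 | h2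
    · exact h2
    · exact absurd h2 hg
  have hmem : ((1 - δ : ℝ) : ℂ) ∈ zb y Z := by
    by_contra hcon
    exact PP_ne (L := zb y Z) (s := ((1 - δ : ℝ) : ℂ)) (fun ρ hρ h3 => hcon (h3 ▸ hρ)) hP
  unfold zl
  rw [List.mem_filter]
  refine ⟨hmem, ?_⟩
  simp only [decide_eq_true_eq]
  constructor
  · rw [Complex.ofReal_re]
    linarith
  · rw [Complex.ofReal_im, abs_zero]
    exact Nat.cast_nonneg _

theorem erase_sum (L : List ℂ) (a : ℂ) (ha : a ∈ L) (f : ℂ → ℂ) :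
    (L.map f).sum = f a + ((L.erase a).map f).sum := by
  have h := (List.perm_cons_erase ha).map f
  rw [h.sum_eq, List.map_cons, List.sum_cons]

theorem exc_term (δ : ℝ) (hδ : 0 ≤ δ) (hδ1 : δ ≤ 1 / 10) (Z : ℝ) (hZ : 1 ≤ Z) (u v : ℕ) (hu : 1 ≤ u)
    (huv : u ≤ v) :
    ‖∑ n ∈ Ioc u v, (((n : ℝ) ^ (-δ) : ℝ) : ℂ) -
      Complex.exp ((((1 - δ : ℝ) : ℂ)) ^ 2 / (2 * Z)) *
        ((((v : ℝ) : ℂ) ^ (((1 - δ : ℝ) : ℂ)) - ((u : ℝ) : ℂ) ^ (((1 - δ : ℝ) : ℂ))) /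
          ((1 - δ : ℝ) : ℂ))‖ ≤ 1 + v / Z := by
  set β : ℝ := 1 - δ with hβ
  have hu0 : (0 : ℝ) ≤ u := Nat.cast_nonneg _
  have hv0 : (0 : ℝ) ≤ v := Nat.cast_nonneg _
  set I : ℝ := ((v : ℝ) ^ β - (u : ℝ) ^ β) / β with hI
  have e1 : Complex.exp ((β : ℂ) ^ 2 / (2 * Z)) *
      ((((v : ℝ) : ℂ) ^ (β : ℂ) - ((u : ℝ) : ℂ) ^ (β : ℂ)) / (β : ℂ))
      = ((Real.exp (β ^ 2 / (2 * Z)) * I : ℝ) : ℂ) := by
    rw [hI, ← Complex.ofReal_cpow hv0, ← Complex.ofReal_cpow hu0]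
    push_cast
    ring
  rw [e1, ← Complex.ofReal_sum, ← Complex.ofReal_sub, Complex.norm_real, Real.norm_eq_abs]
  have h1 := sum_rpow_int δ hδ (by linarith) u v hu huv
  rw [← hβ, ← hI] at h1
  have hI0 : 0 ≤ I := by
    rw [hI]
    apply div_nonneg _ (by linarith)
    rw [sub_nonneg]
    exact Real.rpow_le_rpow hu0 (by exact_mod_cast huv) (by linarith)
  have hIv : I ≤ v := by
    have hint : ∫ y : ℝ in (u : ℝ)..v, y ^ (-δ) = I := by
      rw [integral_rpow (Or.inl (by linarith)), hI, hβ]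
      congr 1
      · congr 1 <;> congr 1 <;> ring
      · ring
    have huv' : (u : ℝ) ≤ v := by exact_mod_cast huv
    have hu1 : (1 : ℝ) ≤ u := by exact_mod_cast hu
    rw [← hint]
    have h3 : ‖∫ y : ℝ in (u : ℝ)..v, y ^ (-δ)‖ ≤ 1 * |(v : ℝ) - u| := by
      apply intervalIntegral.norm_integral_le_of_norm_le_const
      intro y hy
      rw [Set.uIoc_of_le huv'] at hy
      have : 1 ≤ y := by linarith [hy.1]
      rw [Real.norm_eq_abs, abs_of_nonneg (Real.rpow_nonneg (by linarith) _)]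
      exact Real.rpow_le_one_of_one_le_of_nonpos this (by linarith)
    rw [abs_of_nonneg (by linarith), one_mul] at h3
    exact (le_abs_self _).trans (h3.trans (by linarith))
  have h2 : Real.exp (β ^ 2 / (2 * Z)) - 1 ≤ 1 / Z := by
    have e2 : β ^ 2 / (2 * Z) ≤ 1 / (2 * Z) := by
      apply div_le_div_of_nonneg_right _ (by linarith)
      nlinarith
    have e3 : 1 / (2 * Z) ≤ 1 / 2 := by
      apply one_div_le_one_div_of_le (by norm_num)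
      linarith
    have e4 : 0 ≤ β ^ 2 / (2 * Z) := by positivity
    have e5 := Real.abs_exp_sub_one_le (x := β ^ 2 / (2 * Z)) (by rw [abs_of_nonneg e4]; linarith)
    rw [abs_of_nonneg e4] at e5
    have e6 : 2 * (1 / (2 * Z)) = 1 / Z := by field_simp
    calc _ ≤ |Real.exp (β ^ 2 / (2 * Z)) - 1| := le_abs_self _
      _ ≤ 2 * (β ^ 2 / (2 * Z)) := e5
      _ ≤ 2 * (1 / (2 * Z)) := by linarith
      _ = _ := e6
  have h3 : 0 ≤ Real.exp (β ^ 2 / (2 * Z)) - 1 := by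
    have : 0 ≤ β ^ 2 / (2 * Z) := by positivity
    have := Real.one_le_exp this
    linarith
  have h4 : (Real.exp (β ^ 2 / (2 * Z)) - 1) * I ≤ v / Z := by
    calc _ ≤ 1 / Z * v := mul_le_mul h2 hIv hI0 (by positivity)
      _ = _ := by ring
  have h5 : 0 ≤ (Real.exp (β ^ 2 / (2 * Z)) - 1) * I := mul_nonneg h3 hI0
  calc |∑ n ∈ Ioc u v, (n : ℝ) ^ (-δ) - Real.exp (β ^ 2 / (2 * Z)) * I|
      = |(∑ n ∈ Ioc u v, (n : ℝ) ^ (-δ) - I) - (Real.exp (β ^ 2 / (2 * Z)) - 1) * I| := by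
        congr 1; ring
    _ ≤ |∑ n ∈ Ioc u v, (n : ℝ) ^ (-δ) - I| + |(Real.exp (β ^ 2 / (2 * Z)) - 1) * I| :=
        abs_sub _ _
    _ ≤ 1 + v / Z := by
        rw [abs_of_nonneg h5]
        exact add_le_add h1 h4

/-- The interval estimate. -/
theorem interval_est (hZS : Stmt_ZSPEC) {C : ℝ} {Z : ℕ} (hZ : 1 ≤ Z)
    (hEF : ∀ x ∈ Fam Z, ∀ u v : ℝ, 1 ≤ u → u ≤ v → v ≤ Real.exp ((Real.log Z) ^ 2) →
      ‖∑ n ∈ Ioc ⌊u⌋₊ ⌊v⌋₊, (Λ n : ℂ) * x.2 (n : ZMod x.1)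
          - (if x.2 = 1 then ((v - u : ℝ) : ℂ) else 0)
          + ((zl x Z).map fun ρ => Complex.exp (ρ ^ 2 / (2 * Z)) *
              (((v : ℂ) ^ ρ - (u : ℂ) ^ ρ) / ρ)).sum‖
        ≤ C * (v * (Z : ℝ) ^ (-(1 / 3) : ℝ) + (Z : ℝ) ^ 5 * v ^ (19 / 20 : ℝ)))
    (E : Option (Ch × ℝ)) (hE : ∀ y δ, E = some (y, δ) → Exc Z y δ ∧ δ ≤ 1 / 10)
    (x : Ch) (hx : x ∈ Fam Z) (u v : ℕ) (hu : 1 ≤ u) (huv : u ≤ v)
    (hv : (v : ℝ) ≤ Real.exp ((Real.log Z) ^ 2)) (Y : ℝ) (hY : 0 < Y) (hYu : Y ≤ 2 * u) :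
    ‖∑ n ∈ Ioc u v, ((th n : ℂ) * x.2 (n : ZMod x.1) - mt E x n)‖
      ≤ 4 * ((v : ℝ) - u) * zs (lst Z E x) Y
        + (C * (v * (Z : ℝ) ^ (-(1 / 3) : ℝ) + (Z : ℝ) ^ 5 * (v : ℝ) ^ (19 / 20 : ℝ))
          + 2 * √(v : ℝ) * Real.log v + (1 + v / Z)) := by
  have hZr : (1 : ℝ) ≤ Z := by exact_mod_cast hZ
  have hur : (1 : ℝ) ≤ u := by exact_mod_cast hu
  have huvr : (u : ℝ) ≤ v := by exact_mod_cast huv
  have h1 := hEF x hx u v hur huvr hv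
  rw [Nat.floor_natCast, Nat.floor_natCast] at h1
  have h2 := lam_th_sum x.2 u v (by omega)
  obtain ⟨_, _, hzl⟩ := hZS Z x (Fam_pos hx).1.ne'
  set S : ℂ := ∑ n ∈ Ioc u v, (Λ n : ℂ) * x.2 (n : ZMod x.1) with hS
  set T : ℂ := ∑ n ∈ Ioc u v, (th n : ℂ) * x.2 (n : ZMod x.1) with hT
  set f : ℂ → ℂ := fun ρ => Complex.exp (ρ ^ 2 / (2 * Z)) *
      ((((v : ℝ) : ℂ) ^ ρ - ((u : ℝ) : ℂ) ^ ρ) / ρ) with hf
  have hsum : ∑ n ∈ Ioc u v, ((th n : ℂ) * x.2 (n : ZMod x.1) - mt E x n)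
      = T - ∑ n ∈ Ioc u v, mt E x n := by
    rw [sum_sub_distrib]
  rw [hsum]
  have hbd : ∀ L : List ℂ, (∀ ρ ∈ L, ρ ∈ zl x Z) → ‖(L.map f).sum‖ ≤ 4 * ((v : ℝ) - u) * zs L Y := by
    intro L hL
    have := zsum_bound L (fun ρ hρ => ⟨(hzl ρ (hL ρ hρ)).2.1, (hzl ρ (hL ρ hρ)).2.2.1.le⟩) Z u v Y
      hZr hur huvr hY hYu
    simpa [hf] using this
  by_cases hcase : ∃ y δ, E = some (y, δ) ∧ x = y
  · obtain ⟨y, δ, hEy, hxy⟩ := hcase
    obtain ⟨hexc, hδ⟩ := hE y δ hEy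
    subst hxy
    have hx1 : x.2 ≠ 1 := hexc.ne
    have hmem := exc_mem_zl hZS hexc hδ
    have hmt : ∀ n, mt E x n = -(((n : ℝ) ^ (-δ) : ℝ) : ℂ) := by
      intro n
      unfold mt
      rw [if_neg hx1, hEy]
      simp
    have hlst : lst Z E x = (zl x Z).erase ((1 - δ : ℝ) : ℂ) := by
      unfold lst
      rw [hEy]
      simp [zx]
    rw [if_neg hx1] at h1
    have h3 := erase_sum (zl x Z) ((1 - δ : ℝ) : ℂ) hmem f
    have h4 := exc_term δ hexc.pos.le hδ Z hZr u v hu huv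
    have h5 := hbd ((zl x Z).erase ((1 - δ : ℝ) : ℂ)) (fun ρ hρ => List.mem_of_mem_erase hρ)
    rw [hlst]
    have h6 : T - ∑ n ∈ Ioc u v, mt E x n
        = (S - 0 + ((zl x Z).map f).sum) - (S - T)
          - (((zl x Z).erase ((1 - δ : ℝ) : ℂ)).map f).sum
          + (∑ n ∈ Ioc u v, (((n : ℝ) ^ (-δ) : ℝ) : ℂ) - f ((1 - δ : ℝ) : ℂ)) := by
      rw [h3, sum_congr rfl fun n _ => hmt n, sum_neg_distrib]
      ring
    rw [h6]
    refine (norm_add_le _ _).trans ?_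
    refine (add_le_add_left (norm_sub_le _ _) _).trans ?_
    refine (add_le_add_left (add_le_add_left (norm_sub_le _ _) _) _).trans ?_
    have h1' : ‖S - 0 + ((zl x Z).map f).sum‖
        ≤ C * (v * (Z : ℝ) ^ (-(1 / 3) : ℝ) + (Z : ℝ) ^ 5 * (v : ℝ) ^ (19 / 20 : ℝ)) := h1
    have h4' : ‖∑ n ∈ Ioc u v, (((n : ℝ) ^ (-δ) : ℝ) : ℂ) - f ((1 - δ : ℝ) : ℂ)‖ ≤ 1 + v / Z := by
      have h4'' := h4
      rw [Complex.ofReal_natCast Z] at h4''
      exact h4''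
    linarith
  · have hmt : ∑ n ∈ Ioc u v, mt E x n = (if x.2 = 1 then (((v : ℝ) - (u : ℝ) : ℝ) : ℂ) else 0) := by
      by_cases hx1 : x.2 = 1
      · have : ∀ n ∈ Ioc u v, mt E x n = 1 := by
          intro n _
          unfold mt
          rw [if_pos hx1]
        rw [sum_congr rfl this, if_pos hx1, sum_const, Nat.card_Ioc, nsmul_eq_mul, mul_one,
          Nat.cast_sub huv]
        push_cast
        ring
      · have : ∀ n ∈ Ioc u v, mt E x n = 0 := by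
          intro n _
          unfold mt
          rw [if_neg hx1]
          rcases hEq : E with _ | ⟨y, δ⟩
          · rfl
          · simp only
            rw [if_neg]
            intro h
            exact hcase ⟨y, δ, hEq, h⟩
        rw [sum_congr rfl this, if_neg hx1, sum_const_zero]
    have hlst : lst Z E x = zl x Z := by
      unfold lst
      rcases hEq : E with _ | ⟨y, δ⟩
      · rfl
      · simp only [zx]
        rw [if_neg]
        intro h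
        exact hcase ⟨y, δ, hEq, h⟩
    have h5 := hbd (zl x Z) (fun ρ hρ => hρ)
    rw [hmt, hlst]
    have h6 : T - (if x.2 = 1 then (((v : ℝ) - (u : ℝ) : ℝ) : ℂ) else 0)
        = (S - (if x.2 = 1 then (((v : ℝ) - (u : ℝ) : ℝ) : ℂ) else 0) + ((zl x Z).map f).sum)
          - (S - T) - ((zl x Z).map f).sum := by
      ring
    rw [h6]
    refine (norm_sub_le _ _).trans ?_
    refine (add_le_add_left (norm_sub_le _ _) _).trans ?_
    have h1' : ‖S - (if x.2 = 1 then (((v : ℝ) - (u : ℝ) : ℝ) : ℂ) else 0) + ((zl x Z).map f).sum‖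
        ≤ C * (v * (Z : ℝ) ^ (-(1 / 3) : ℝ) + (Z : ℝ) ^ 5 * (v : ℝ) ^ (19 / 20 : ℝ)) := h1
    have h7 : (0 : ℝ) ≤ 1 + v / Z := by positivity
    linarith

end Pool.Agent.PS
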